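import Pool.Agent.CQ.Theories

/-!
# Assembly: from the properties of the value ideals `IdW` to the infinite rank
-/

namespace Pool.Agent.CQ

open _root_.CQ (Pot IdW Valid)

/-- The same word with letters in `ℕ`. -/
def nw {n : ℕ} (w : Word n) : List (ℕ × Bool) := w.map fun x => ((x.1 : ℕ), x.2)

theorem valid_nw {n : ℕ} (w : Word n) : Valid (n + 1) (nw w) := by
  intro a ha
  obtain ⟨x, _, rfl⟩ := List.mem_map.mp ha
  have := x.1.2
  simp only
  omega

theorem nw_append {n : ℕ} (u v : Word n) : nw (u ++ v) = nw u ++ nw v := by simp [nw]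

theorem nw_cons {n : ℕ} (a : Fin n × Bool) (v : Word n) :
    nw (a :: v) = ((a.1 : ℕ), a.2) :: nw v := rfl

/-- shift of a word with letters in `ℕ` -/
def sh (n : ℕ) (w : List (ℕ × Bool)) : List (ℕ × Bool) := w.map fun x => (n + x.1, x.2)

/-- inverse word -/
def ninv (w : List (ℕ × Bool)) : List (ℕ × Bool) := (w.map fun x => (x.1, !x.2)).reverse

theorem nw_winv {n : ℕ} (w : Word n) : nw (winv w) = ninv (nw w) := by
  simp [nw, winv, ninv, List.map_reverse, Function.comp_def]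

theorem nw_wsum {n m : ℕ} (w : Word n) (w' : Word m) :
    nw (wsum w w') = nw w ++ sh n (nw w') := by
  simp [nw, wsum, sh, List.map_append, List.map_map, Function.comp_def]

/-- The permutation of the strands (as a permutation of `ℕ`) of a word with letters in `ℕ`. -/
def permN : List (ℕ × Bool) → Equiv.Perm ℕ
  | [] => 1
  | a :: w => Equiv.swap a.1 (a.1 + 1) * permN w

/-- The closure of the word on `s` strands is a knot. -/
def KnotN (s : ℕ) (w : List (ℕ × Bool)) : Prop := ∀ a b, a < s → b < s → (permN w).SameCycle a b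

theorem permN_nw {n : ℕ} (w : Word n) (x : Fin (n + 1)) :
    permN (nw w) (x : ℕ) = (perm (toBraid w) x : Fin (n + 1)) := by
  induction w generalizing x with
  | nil => simp [nw, permN]
  | cons a w ih =>
    rw [nw_cons, permN, Equiv.Perm.mul_apply, ih, toBraid_cons, map_mul, Equiv.Perm.mul_apply]
    have h1 : perm (toBraid [a]) = Equiv.swap a.1.castSucc a.1.succ := by
      rcases a with ⟨i, b⟩
      cases b
      · rw [toBraid_false, map_inv, perm_σ, Equiv.swap_inv]
      · rw [toBraid_true, perm_σ]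
    rw [h1, swap_val]
    simp only [Equiv.swap_apply_def]

theorem knotN_nw {n : ℕ} (w : Word n) (h : IsKnot (toBraid w)) : KnotN (n + 1) (nw w) := by
  intro a b ha hb
  obtain ⟨k, hk⟩ := (h ⟨a, ha⟩ ⟨b, hb⟩).exists_nat_pow_eq
  refine ⟨(k : ℤ), ?_⟩
  rw [zpow_natCast]
  have h1 : ∀ (k : ℕ) (x : Fin (n + 1)),
      ((permN (nw w)) ^ k) (x : ℕ) = ((perm (toBraid w) ^ k) x : Fin (n + 1)) := by
    intro k
    induction k with
    | zero => intro x; simp
    | succ k ih =>
      intro x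
      rw [pow_succ, pow_succ, Equiv.Perm.mul_apply, Equiv.Perm.mul_apply, permN_nw, ih]
  have h2 := h1 k ⟨a, ha⟩
  rw [hk] at h2
  exact h2

/-- Everything that the algebra proves about the value ideals of one potential. -/
structure BlockOut {O : Type} [CommRing O] [CharP O 2] (P : Pot O) : Prop where
  r2 : ∀ (s : ℕ) (u v : List (ℕ × Bool)) (i : ℕ) (b : Bool) (k : ℕ), i + 1 < s → Valid s u →
    Valid s v → k < s → IdW P s (u ++ (i, b) :: (i, !b) :: v) k = IdW P s (u ++ v) k
  comm : ∀ (s : ℕ) (u v : List (ℕ × Bool)) (i j : ℕ) (k : ℕ), i + 2 ≤ j → j + 1 < s →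
    Valid s u → Valid s v → k < s →
    IdW P s (u ++ (i, true) :: (j, true) :: v) k = IdW P s (u ++ (j, true) :: (i, true) :: v) k
  r3 : ∀ (s : ℕ) (u v : List (ℕ × Bool)) (i : ℕ) (k : ℕ), i + 2 < s →
    Valid s u → Valid s v → k < s →
    IdW P s (u ++ (i, true) :: (i + 1, true) :: (i, true) :: v) k =
      IdW P s (u ++ (i + 1, true) :: (i, true) :: (i + 1, true) :: v) k
  conj : ∀ (s : ℕ) (a : ℕ × Bool) (w : List (ℕ × Bool)) (k : ℕ), Valid s (a :: w) → k < s →
    IdW P s (w ++ [a]) k = IdW P s (a :: w) (Equiv.swap a.1 (a.1 + 1) k)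
  knot : ∀ (s : ℕ) (w : List (ℕ × Bool)) (k k' : ℕ), Valid s w → KnotN s w → k < s → k' < s →
    IdW P s w k = IdW P s w k'
  sum : ∀ (a b : ℕ) (w w' : List (ℕ × Bool)), Valid (a + 1) w → Valid (b + 1) w' →
    IdW P (a + b + 1) (w ++ sh a w') a = IdW P (a + 1) w a * IdW P (b + 1) w' 0
  unlink : ∀ (s k : ℕ), k < s → 1 ∈ IdW P s [] k
  ins_pos : ∀ (s : ℕ) (u v : List (ℕ × Bool)) (i k : ℕ), i + 1 < s → Valid s u → Valid s v →
    k < s → ∀ x ∈ IdW P s (u ++ v) k, P.ta * x ∈ IdW P s (u ++ (i, true) :: v) k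
  ins_neg : ∀ (s : ℕ) (u v : List (ℕ × Bool)) (i k : ℕ), i + 1 < s → Valid s u → Valid s v →
    k < s → ∀ x ∈ IdW P s (u ++ v) k, x ∈ IdW P s (u ++ (i, false) :: v) k
  canon : ∀ (s : ℕ) (w : List (ℕ × Bool)) (k : ℕ), Valid (s + 1) w → k < s + 1 →
    P.ta ^ s ∈ IdW P (s + 1) w k
  mirror : ∀ (s : ℕ) (w : List (ℕ × Bool)), Valid (s + 1) w → KnotN (s + 1) w →
    ∀ x ∈ IdW P (s + 1) w 0, ∀ y ∈ IdW P (s + 1) (ninv w) 0, P.ta ^ s ∣ x * y

theorem BlockOut.idealInv {O : Type} [CommRing O] [CharP O 2] {P : Pot O} (h : BlockOut P) :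
    IdealInv P.ta (fun n w => IdW P (n + 1) (nw w) 0) := by
  refine ⟨?_, ?_, ?_, ?_, ?_, ?_, ?_, ?_, ?_, ?_⟩
  · intro n u v i b
    simp only [nw_append, nw_cons]
    exact h.r2 (n + 1) _ _ _ _ _ (by have := i.2; omega) (valid_nw _) (valid_nw _) (by omega)
  · intro n u v i j hij
    simp only [nw_append, nw_cons]
    exact h.comm (n + 1) _ _ _ _ _ hij (by have := j.2; omega) (valid_nw _) (valid_nw _)
      (by omega)
  · intro n u v i j hij
    simp only [nw_append, nw_cons]
    rw [← hij]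
    exact h.r3 (n + 1) _ _ _ _ (by have := j.2; omega) (valid_nw _) (valid_nw _) (by omega)
  · intro n a w hk
    have hv : Valid (n + 1) (nw (a :: w)) := valid_nw _
    have h1 := h.conj (n + 1) ((a.1 : ℕ), a.2) (nw w) 0 hv (by omega)
    have hk' := knotN_nw _ hk
    simp only [nw_append]
    change IdW P (n + 1) (nw w ++ [((a.1 : ℕ), a.2)]) 0 = IdW P (n + 1) (nw (a :: w)) 0
    rw [h1]
    refine h.knot (n + 1) _ _ _ hv hk' ?_ (by omega)
    have := a.1.2
    rw [Equiv.swap_apply_def]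
    split_ifs <;> omega
  · intro n m w w' hk hk'
    have hk2 : IsKnot (toBraid (wsum w w')) := by
      rw [toBraid_wsum]
      exact hk.sum hk'
    have h1 := h.sum n m (nw w) (nw w') (valid_nw _) (valid_nw _)
    have h2 := h.knot (n + m + 1) (nw (wsum w w')) 0 n (valid_nw _) (knotN_nw _ hk2)
      (by omega) (by omega)
    have h3 := h.knot (n + 1) (nw w) 0 n (valid_nw _) (knotN_nw _ hk) (by omega) (by omega)
    rw [h2, nw_wsum, h1, h3]
  · intro n
    rw [Ideal.eq_top_iff_one]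
    exact h.unlink (n + 1) 0 (by omega)
  · intro n u v i x hx
    simp only [nw_append, nw_cons] at hx ⊢
    exact h.ins_pos (n + 1) _ _ _ _ (by have := i.2; omega) (valid_nw _) (valid_nw _)
      (by omega) x hx
  · intro n u v i x hx
    simp only [nw_append, nw_cons] at hx ⊢
    exact h.ins_neg (n + 1) _ _ _ _ (by have := i.2; omega) (valid_nw _) (valid_nw _)
      (by omega) x hx
  · intro n w
    exact h.canon n _ 0 (valid_nw _) (by omega)
  · intro n w hk x hx y hy
    rw [nw_winv] at hy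
    exact h.mirror n _ (valid_nw _) (knotN_nw _ hk) x hx y hy

/-- The final assembly. -/
theorem rankInfinite_of_blocks (hB : ∀ r : ℕ, BlockOut (pot r))
    (h1 : ∀ r j, (pot r).ka ^ (j + 1) ∈ IdW (pot r) (j + 3) (nw (testWord j)) 0)
    (h2 : ∀ r j, (pot r).ta ∈ IdW (pot r) (j + 3) (nw (testWord j)) 0)
    (h3 : ∀ r j, (pot r).ta ∣ (pot r).ka ^ (j + 1) →
      (pot r).ta ^ (j + 1) ∈ IdW (pot r) (j + 3) (ninv (nw (testWord j))) 0) : RankInfinite :=
  rankInfinite_of_pot (fun r n w => IdW (pot r) (n + 1) (nw w) 0) (fun r => (hB r).idealInv)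
    h1 h2 (fun r j hd => by
      rw [nw_winv]
      exact h3 r j hd)

end Pool.Agent.CQ
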