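import Pool.Agent.CQ.Defs

/-!
# Block 0: functor lemmas, `CtxNeg`, `TChain`
-/

set_option autoImplicit false
set_option linter.unusedSectionVars false
set_option linter.unusedSimpArgs false

namespace CQ

open MvPolynomial

variable {O : Type} [CommRing O] [CharP O 2]

section mod
variable {C D E : Type} [AddCommGroup C] [Module (S O) C] [AddCommGroup D] [Module (S O) D]
  [AddCommGroup E] [Module (S O) E]

/-- `S`-linear maps preserve `HH` -/
theorem map_mem_HH (f : C →ₗ[S O] D) {z : C} (hz : z ∈ HH O C) : f z ∈ HH O D := by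
  intro j
  rw [← map_smul, hz j, map_smul]

/-- `S`-linear maps preserve negligible elements -/
theorem map_mem_NN {P : Pot O} (f : C →ₗ[S O] D) {z : C} (hz : z ∈ NN P C) : f z ∈ NN P D := by
  intro c hc ψ
  exact hz c hc (ψ.comp f)

theorem NegMap.comp_left {P : Pot O} {g : C →ₗ[S O] D} (hg : NegMap P g) (f : D →ₗ[S O] E) :
    NegMap P (f ∘ₗ g) := fun z hz => map_mem_NN f (hg z hz)

theorem NegMap.comp_right {P : Pot O} {g : D →ₗ[S O] E} (hg : NegMap P g) (f : C →ₗ[S O] D) :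
    NegMap P (g ∘ₗ f) := fun z hz => hg (f z) (map_mem_HH f hz)

theorem NegMap.add {P : Pot O} {g g' : C →ₗ[S O] D} (hg : NegMap P g) (hg' : NegMap P g') :
    NegMap P (g + g') := fun z hz => add_mem (hg z hz) (hg' z hz)

theorem NegMap.zero {P : Pot O} : NegMap P (0 : C →ₗ[S O] D) := fun _ _ => zero_mem _

/-- negligible elements of a product -/
theorem mem_NN_prod {P : Pot O} {z : C × D} : z ∈ NN P (C × D) ↔ z.1 ∈ NN P C ∧ z.2 ∈ NN P D := by
  constructor
  · intro h
    exact ⟨map_mem_NN (LinearMap.fst (S O) C D) h, map_mem_NN (LinearMap.snd (S O) C D) h⟩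
  · intro h
    have : z = LinearMap.inl (S O) C D z.1 + LinearMap.inr (S O) C D z.2 := by
      ext <;> simp
    rw [this]
    exact add_mem (map_mem_NN _ h.1) (map_mem_NN _ h.2)

end mod

/-! ## `D2.map` -/

namespace D2
variable {t : Bool} {i : ℕ} {C D E : Type} [AddCommGroup C] [Module (S O) C]
  [AddCommGroup D] [Module (S O) D] [AddCommGroup E] [Module (S O) E]

theorem map_add (f g : C →ₗ[S O] D) : map (t := t) (i := i) (f + g) = map f + map g := by
  ext z <;> simp

theorem map_zero : map (t := t) (i := i) (0 : C →ₗ[S O] D) = 0 := by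
  ext z <;> simp

theorem map_id : map (t := t) (i := i) (LinearMap.id : C →ₗ[S O] C) = LinearMap.id := by
  ext z <;> simp

theorem map_comp (g : D →ₗ[S O] E) (f : C →ₗ[S O] D) :
    map (t := t) (i := i) (g ∘ₗ f) = map g ∘ₗ map f := by
  ext z <;> simp

/-- the variables of the other side act diagonally -/
theorem map_X_other (j : ℕ) :
    map (t := t) (i := i) ((X (inj (!t) j) : S O) • (LinearMap.id : C →ₗ[S O] C)) =
      (X (inj (!t) j) : S O) • LinearMap.id := by
  have h1 : inj (!t) j ≠ inj t i := by cases t <;> simp [inj]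
  have h2 : inj (!t) j ≠ inj t (i + 1) := by cases t <;> simp [inj]
  ext z
  · simp [X_smul_a_of_ne _ h1 h2]
  · simp [X_smul_b_of_ne _ h1 h2]

end D2

/-! ## `Bw` -/

theorem Bw_append (t : Bool) (u v : List ℕ) (C : SM O) : Bw t (u ++ v) C = Bw t v (Bw t u C) := by
  induction u generalizing C with
  | nil => rfl
  | cons i u ih => exact ih _

theorem Bw.map_add (t : Bool) (w : List ℕ) {C D : SM O} (f g : C.V →ₗ[S O] D.V) :
    Bw.map t w (f + g) = Bw.map t w f + Bw.map t w g := by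
  induction w generalizing C D with
  | nil => rfl
  | cons i w ih =>
    change Bw.map t w (C := SM.D2 t i C) (D := SM.D2 t i D) (D2.map (f + g)) = _
    rw [D2.map_add]; exact ih _ _

theorem Bw.map_zero (t : Bool) (w : List ℕ) {C D : SM O} :
    Bw.map t w (0 : C.V →ₗ[S O] D.V) = 0 := by
  induction w generalizing C D with
  | nil => rfl
  | cons i w ih =>
    change Bw.map t w (C := SM.D2 t i C) (D := SM.D2 t i D) (D2.map 0) = _
    rw [D2.map_zero]; exact ih

theorem Bw.map_id (t : Bool) (w : List ℕ) {C : SM O} :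
    Bw.map t w (LinearMap.id : C.V →ₗ[S O] C.V) = LinearMap.id := by
  induction w generalizing C with
  | nil => rfl
  | cons i w ih =>
    change Bw.map t w (C := SM.D2 t i C) (D := SM.D2 t i C) (D2.map LinearMap.id) = _
    rw [D2.map_id]; exact ih

theorem Bw.map_comp (t : Bool) (w : List ℕ) {C D E : SM O} (g : D.V →ₗ[S O] E.V)
    (f : C.V →ₗ[S O] D.V) : Bw.map t w (g ∘ₗ f) = Bw.map t w g ∘ₗ Bw.map t w f := by
  induction w generalizing C D E with
  | nil => rfl
  | cons i w ih =>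
    change Bw.map t w (C := SM.D2 t i C) (D := SM.D2 t i E) (D2.map (g ∘ₗ f)) = _
    rw [D2.map_comp]
    exact ih (C := SM.D2 t i C) (D := SM.D2 t i D) (E := SM.D2 t i E) _ _

/-- the variables of the other side act through the module structure -/
theorem Bw.map_X_other (t : Bool) (w : List ℕ) {C : SM O} (j : ℕ) :
    Bw.map t w ((X (inj (!t) j) : S O) • (LinearMap.id : C.V →ₗ[S O] C.V)) =
      (X (inj (!t) j) : S O) • LinearMap.id := by
  induction w generalizing C with
  | nil => rfl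
  | cons i w ih =>
    change Bw.map t w (C := SM.D2 t i C) (D := SM.D2 t i C) (D2.map _) = _
    rw [D2.map_X_other]; exact ih

/-! ## `CtxNeg` -/

theorem CtxNeg.negMap {P : Pot O} {C D : SM O} {g : C.V →ₗ[S O] D.V} (hg : CtxNeg P g) :
    NegMap P g := hg []

theorem CtxNeg.comp_left {P : Pot O} {C D E : SM O} {g : C.V →ₗ[S O] D.V} (hg : CtxNeg P g)
    (f : D.V →ₗ[S O] E.V) : CtxNeg P (f ∘ₗ g) := fun w => by
  rw [Bw.map_comp]; exact (hg w).comp_left _

theorem CtxNeg.comp_right {P : Pot O} {C D E : SM O} {g : D.V →ₗ[S O] E.V} (hg : CtxNeg P g)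
    (f : C.V →ₗ[S O] D.V) : CtxNeg P (g ∘ₗ f) := fun w => by
  rw [Bw.map_comp]; exact (hg w).comp_right _

theorem CtxNeg.add {P : Pot O} {C D : SM O} {g g' : C.V →ₗ[S O] D.V} (hg : CtxNeg P g)
    (hg' : CtxNeg P g') : CtxNeg P (g + g') := fun w => by
  rw [Bw.map_add]; exact (hg w).add (hg' w)

theorem CtxNeg.zero {P : Pot O} {C D : SM O} : CtxNeg P (0 : C.V →ₗ[S O] D.V) := fun w => by
  rw [Bw.map_zero]; exact NegMap.zero

theorem CtxNeg.D2map {P : Pot O} {C D : SM O} {g : C.V →ₗ[S O] D.V} (hg : CtxNeg P g) (i : ℕ) :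
    CtxNeg P (C := SM.D2 true i C) (D := SM.D2 true i D) (D2.map g) := fun w => hg (i :: w)

/-- a map into/out of products given by components -/
theorem CtxNeg.prodMap {P : Pot O} {C C' D D' : SM O} {g : C.V →ₗ[S O] D.V}
    {g' : C'.V →ₗ[S O] D'.V} (hg : CtxNeg P g) (hg' : CtxNeg P g') :
    CtxNeg P (C := SM.prod C C') (D := SM.prod D D') (LinearMap.prodMap g g') := by
  have e : (LinearMap.prodMap g g' : C.V × C'.V →ₗ[S O] D.V × D'.V) =
      LinearMap.inl (S O) D.V D'.V ∘ₗ (g ∘ₗ LinearMap.fst (S O) C.V C'.V) +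
        LinearMap.inr (S O) D.V D'.V ∘ₗ (g' ∘ₗ LinearMap.snd (S O) C.V C'.V) := by
    ext z <;> simp
  rw [e]
  exact CtxNeg.add
    (C := SM.prod C C') (D := SM.prod D D')
    (CtxNeg.comp_left (C := SM.prod C C') (D := D) (E := SM.prod D D')
      (CtxNeg.comp_right (C := SM.prod C C') (D := C) (E := D) hg _) _)
    (CtxNeg.comp_left (C := SM.prod C C') (D := D') (E := SM.prod D D')
      (CtxNeg.comp_right (C := SM.prod C C') (D := C') (E := D') hg' _) _)

/-! ## `F2.map`, `Fw.map` -/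

theorem F2.map_apply (t : Bool) (i : ℕ) (pos : Bool) {C D : DM O} (f : C.V →ₗ[S O] D.V)
    (z : (F2 t i pos C).V) : F2.map t i pos f z = ((f z.1, D2.map f z.2) : D.V × D2 t i D.V) := rfl

theorem F2.d_apply_pos (t : Bool) (i : ℕ) (C : DM O) (z : (F2 t i true C).V) :
    (F2 t i true C).d z = ((C.d z.1, zip O t i z.1 + D2.map C.d z.2) : C.V × D2 t i C.V) := rfl

theorem F2.d_apply_neg (t : Bool) (i : ℕ) (C : DM O) (z : (F2 t i false C).V) :
    (F2 t i false C).d z = ((C.d z.1 + unzip O t i z.2, D2.map C.d z.2) : C.V × D2 t i C.V) := rfl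

theorem F2.ep_apply (t : Bool) (i : ℕ) (pos : Bool) (C : DM O) (z : (F2 t i pos C).V) :
    (F2 t i pos C).ep z = C.ep z.1 := rfl

theorem F2.map_add (t : Bool) (i : ℕ) (pos : Bool) {C D : DM O} (f g : C.V →ₗ[S O] D.V) :
    F2.map t i pos (f + g) = F2.map t i pos f + F2.map t i pos g := by
  apply LinearMap.ext; intro z
  refine Prod.ext rfl ?_
  change (D2.map (f + g)) z.2 = D2.map f z.2 + D2.map g z.2
  rw [D2.map_add]; rfl

theorem F2.map_zero (t : Bool) (i : ℕ) (pos : Bool) {C D : DM O} :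
    F2.map t i pos (0 : C.V →ₗ[S O] D.V) = 0 := by
  apply LinearMap.ext; intro z
  refine Prod.ext rfl ?_
  change (D2.map (0 : C.V →ₗ[S O] D.V)) z.2 = 0
  rw [D2.map_zero]; rfl

theorem F2.map_id (t : Bool) (i : ℕ) (pos : Bool) {C : DM O} :
    F2.map t i pos (LinearMap.id : C.V →ₗ[S O] C.V) = LinearMap.id := by
  apply LinearMap.ext; intro z
  refine Prod.ext rfl ?_
  change (D2.map (LinearMap.id : C.V →ₗ[S O] C.V)) z.2 = z.2
  rw [D2.map_id]; rfl

theorem F2.map_comp (t : Bool) (i : ℕ) (pos : Bool) {C D E : DM O} (g : D.V →ₗ[S O] E.V)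
    (f : C.V →ₗ[S O] D.V) : F2.map t i pos (g ∘ₗ f) = F2.map t i pos g ∘ₗ F2.map t i pos f := by
  apply LinearMap.ext; intro z
  refine Prod.ext rfl ?_
  change (D2.map (g ∘ₗ f)) z.2 = D2.map g (D2.map f z.2)
  rw [D2.map_comp]; rfl

/-- the commutator `[d, F2.map f] = F2.map [d, f]` -/
theorem F2.map_bracket (t : Bool) (i : ℕ) (pos : Bool) {C D : DM O} (f : C.V →ₗ[S O] D.V) :
    (F2 t i pos D).d ∘ₗ F2.map t i pos f + F2.map t i pos f ∘ₗ (F2 t i pos C).d =
      F2.map t i pos (D.d ∘ₗ f + f ∘ₗ C.d) := by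
  apply LinearMap.ext; intro z
  cases pos
  · refine Prod.ext ?_ ?_
    · change (D.d (f z.1) + unzip O t i (D2.map f z.2)) + f (C.d z.1 + unzip O t i z.2) =
        D.d (f z.1) + f (C.d z.1)
      rw [unzip_nat, _root_.map_add]
      have := add_self_mod (O := O) (f (unzip O t i z.2))
      calc _ = D.d (f z.1) + f (C.d z.1) + (f (unzip O t i z.2) + f (unzip O t i z.2)) := by abel
        _ = _ := by rw [this, add_zero]
    · change D2.map D.d (D2.map f z.2) + D2.map f (D2.map C.d z.2) = D2.map (D.d ∘ₗ f + f ∘ₗ C.d) z.2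
      rw [D2.map_add, D2.map_comp, D2.map_comp]; rfl
  · refine Prod.ext rfl ?_
    change (zip O t i (f z.1) + D2.map D.d (D2.map f z.2)) +
      D2.map f (zip O t i z.1 + D2.map C.d z.2) = D2.map (D.d ∘ₗ f + f ∘ₗ C.d) z.2
    rw [zip_nat, D2.map_add, D2.map_comp, D2.map_comp, _root_.map_add]
    have := add_self_mod (O := O) (D2.map f (zip O t i z.1))
    calc _ = D2.map D.d (D2.map f z.2) + D2.map f (D2.map C.d z.2) +
          (D2.map f (zip O t i z.1) + D2.map f (zip O t i z.1)) := by abel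
      _ = _ := by rw [this, add_zero]; rfl

theorem F2.map_ep (t : Bool) (i : ℕ) (pos : Bool) {C D : DM O} (f : C.V →ₗ[S O] D.V) (a : O)
    (h : ∀ z ∈ HH O C.V, D.ep (f z) = a * C.ep z) (z : (F2 t i pos C).V)
    (hz : z ∈ HH O (F2 t i pos C).V) :
    (F2 t i pos D).ep (F2.map t i pos f z) = a * (F2 t i pos C).ep z :=
  h z.1 (mem_HH_prod.1 hz).1

theorem Fw_append (u v : List (ℕ × Bool)) (C : DM O) : Fw (u ++ v) C = Fw v (Fw u C) := by
  induction u generalizing C with
  | nil => rfl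
  | cons a u ih => exact ih _

theorem Fw.map_add (w : List (ℕ × Bool)) {C D : DM O} (f g : C.V →ₗ[S O] D.V) :
    Fw.map w (f + g) = Fw.map w f + Fw.map w g := by
  induction w generalizing C D with
  | nil => rfl
  | cons a w ih =>
    change Fw.map w (F2.map true a.1 a.2 (f + g)) = _
    rw [F2.map_add]; exact ih _ _

theorem Fw.map_zero (w : List (ℕ × Bool)) {C D : DM O} :
    Fw.map w (0 : C.V →ₗ[S O] D.V) = 0 := by
  induction w generalizing C D with
  | nil => rfl
  | cons a w ih =>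
    change Fw.map w (F2.map true a.1 a.2 (0 : C.V →ₗ[S O] D.V)) = _
    rw [F2.map_zero]; exact ih

theorem Fw.map_id (w : List (ℕ × Bool)) {C : DM O} :
    Fw.map w (LinearMap.id : C.V →ₗ[S O] C.V) = LinearMap.id := by
  induction w generalizing C with
  | nil => rfl
  | cons a w ih =>
    change Fw.map w (F2.map true a.1 a.2 (LinearMap.id : C.V →ₗ[S O] C.V)) = _
    rw [F2.map_id]; exact ih

theorem Fw.map_comp (w : List (ℕ × Bool)) {C D E : DM O} (g : D.V →ₗ[S O] E.V)
    (f : C.V →ₗ[S O] D.V) : Fw.map w (g ∘ₗ f) = Fw.map w g ∘ₗ Fw.map w f := by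
  induction w generalizing C D E with
  | nil => rfl
  | cons a w ih =>
    change Fw.map w (F2.map true a.1 a.2 (g ∘ₗ f)) = _
    rw [F2.map_comp]; exact ih _ _

/-- `[d, Fw.map f] = Fw.map [d, f]` -/
theorem Fw.map_bracket (w : List (ℕ × Bool)) {C D : DM O} (f : C.V →ₗ[S O] D.V) :
    (Fw w D).d ∘ₗ Fw.map w f + Fw.map w f ∘ₗ (Fw w C).d = Fw.map w (D.d ∘ₗ f + f ∘ₗ C.d) := by
  induction w generalizing C D with
  | nil => rfl
  | cons a w ih =>
    change (Fw w (F2 true a.1 a.2 D)).d ∘ₗ Fw.map w (F2.map true a.1 a.2 f) +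
      Fw.map w (F2.map true a.1 a.2 f) ∘ₗ (Fw w (F2 true a.1 a.2 C)).d = _
    rw [ih, F2.map_bracket]; rfl

theorem Fw.map_ep (w : List (ℕ × Bool)) {C D : DM O} (f : C.V →ₗ[S O] D.V) (a : O)
    (h : ∀ z ∈ HH O C.V, D.ep (f z) = a * C.ep z) (z : (Fw w C).V)
    (hz : z ∈ HH O (Fw w C).V) :
    (Fw w D).ep (Fw.map w f z) = a * (Fw w C).ep z := by
  induction w generalizing C D with
  | nil => exact h z hz
  | cons b w ih =>
    exact ih (F2.map true b.1 b.2 f) (F2.map_ep true b.1 b.2 f a h) z hz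

/-- left variables act through the module structure -/
theorem F2.map_xv (i : ℕ) (pos : Bool) {C : DM O} (j : ℕ) :
    F2.map true i pos (xv O j • (LinearMap.id : C.V →ₗ[S O] C.V)) = xv O j • LinearMap.id := by
  apply LinearMap.ext; intro z
  refine Prod.ext rfl ?_
  change (D2.map (xv O j • (LinearMap.id : C.V →ₗ[S O] C.V))) z.2 = xv O j • z.2
  have := D2.map_X_other (t := true) (i := i) (C := C.V) (O := O) j
  exact LinearMap.congr_fun this z.2

theorem Fw.map_xv (w : List (ℕ × Bool)) {C : DM O} (j : ℕ) :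
    Fw.map w (xv O j • (LinearMap.id : C.V →ₗ[S O] C.V)) = xv O j • LinearMap.id := by
  induction w generalizing C with
  | nil => rfl
  | cons a w ih =>
    change Fw.map w (F2.map true a.1 a.2 (xv O j • (LinearMap.id : C.V →ₗ[S O] C.V))) = _
    rw [F2.map_xv]; exact ih

/-! ## `TChain` -/

theorem CtxNeg.F2map {P : Pot O} {C D : DM O} {g : C.V →ₗ[S O] D.V}
    (hg : CtxNeg P (C := C.toSM) (D := D.toSM) g) (i : ℕ) (pos : Bool) :
    CtxNeg P (C := (F2 true i pos C).toSM) (D := (F2 true i pos D).toSM) (F2.map true i pos g) :=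
  CtxNeg.prodMap (C := C.toSM) (D := D.toSM) (C' := SM.D2 true i C.toSM)
    (D' := SM.D2 true i D.toSM) hg (hg.D2map i)

theorem CtxNeg.Fwmap {P : Pot O} {C D : DM O} {g : C.V →ₗ[S O] D.V}
    (hg : CtxNeg P (C := C.toSM) (D := D.toSM) g) (w : List (ℕ × Bool)) :
    CtxNeg P (C := (Fw w C).toSM) (D := (Fw w D).toSM) (Fw.map w g) := by
  induction w generalizing C D with
  | nil => exact hg
  | cons a w ih => exact ih (hg.F2map a.1 a.2)

/-- (T1) -/
theorem TChain.Fwmap {P : Pot O} {C D : DM O} {f : C.V →ₗ[S O] D.V} (hf : TChain P f)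
    (w : List (ℕ × Bool)) : TChain P (C := Fw w C) (D := Fw w D) (Fw.map w f) := by
  unfold TChain
  rw [Fw.map_bracket]
  exact CtxNeg.Fwmap hf w

/-- (T2) -/
theorem TChain.comp {P : Pot O} {C D E : DM O} {g : D.V →ₗ[S O] E.V} {f : C.V →ₗ[S O] D.V}
    (hg : TChain P g) (hf : TChain P f) : TChain P (g ∘ₗ f) := by
  unfold TChain at *
  have : E.d ∘ₗ (g ∘ₗ f) + (g ∘ₗ f) ∘ₗ C.d =
      (E.d ∘ₗ g + g ∘ₗ D.d) ∘ₗ f + g ∘ₗ (D.d ∘ₗ f + f ∘ₗ C.d) := by
    apply LinearMap.ext; intro z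
    simp only [LinearMap.add_apply, LinearMap.comp_apply, _root_.map_add]
    have := add_self_mod (O := O) (g (D.d (f z)))
    calc _ = E.d (g (f z)) + (g (D.d (f z)) + g (D.d (f z))) + g (f (C.d z)) := by
          rw [this]; abel
      _ = _ := by abel
  rw [this]
  exact CtxNeg.add (C := C.toSM) (D := E.toSM)
    (CtxNeg.comp_right (C := C.toSM) (D := D.toSM) (E := E.toSM) hg f)
    (CtxNeg.comp_left (C := C.toSM) (D := D.toSM) (E := E.toSM) hf g)

/-- an honest chain map is a `TChain` -/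
theorem TChain.of_comm {P : Pot O} {C D : DM O} {f : C.V →ₗ[S O] D.V}
    (hf : ∀ z, D.d (f z) = f (C.d z)) : TChain P f := by
  unfold TChain
  have : D.d ∘ₗ f + f ∘ₗ C.d = 0 := by
    apply LinearMap.ext; intro z
    simp only [LinearMap.add_apply, LinearMap.comp_apply, hf]
    exact add_self_mod (O := O) _
  rw [this]; exact CtxNeg.zero

/-- (T3) -/
theorem Idl_mul_le {P : Pot O} {C D : DM O} {f : C.V →ₗ[S O] D.V}
    (hf : NegMap P (D.d ∘ₗ f + f ∘ₗ C.d)) (a : O)
    (he : ∀ z ∈ HH O C.V, D.ep (f z) = a * C.ep z) (k : ℕ) {b : O} (hb : b ∈ Idl P C k) :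
    a * b ∈ Idl P D k := by
  obtain ⟨z, hz, u, hu, h, rfl⟩ := hb
  refine ⟨f z, map_mem_HH f hz, f u, map_mem_HH f hu, ?_, he z hz⟩
  have h1 := hf z hz
  have h2 := map_mem_NN f h
  have : D.d (f z) + xv O k • f u =
      (D.d ∘ₗ f + f ∘ₗ C.d) z + f (C.d z + xv O k • u) := by
    simp only [LinearMap.add_apply, LinearMap.comp_apply, _root_.map_add, map_smul]
    have := add_self_mod (O := O) (f (C.d z))
    calc _ = D.d (f z) + (f (C.d z) + f (C.d z)) + xv O k • f u := by rw [this, add_zero]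
      _ = _ := by abel
  rw [this]; exact add_mem h1 h2

theorem TChain.Idl_mul_le {P : Pot O} {C D : DM O} {f : C.V →ₗ[S O] D.V}
    (hf : TChain P f) (a : O)
    (he : ∀ z ∈ HH O C.V, D.ep (f z) = a * C.ep z) (k : ℕ) {b : O} (hb : b ∈ Idl P C k) :
    a * b ∈ Idl P D k := CQ.Idl_mul_le hf.negMap a he k hb

/-- (T4) an `ε`-preserving chain map gives an inclusion of value ideals -/
theorem TChain.Idl_le {P : Pot O} {C D : DM O} {f : C.V →ₗ[S O] D.V}
    (hf : TChain P f) (he : ∀ z ∈ HH O C.V, D.ep (f z) = C.ep z) (k : ℕ) :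
    Idl P C k ≤ Idl P D k := fun b hb => by
  simpa using hf.Idl_mul_le 1 (fun z hz => by rw [he z hz, one_mul]) k hb

/-- context version -/
theorem TChain.Idl_Fw_mul_le {P : Pot O} {C D : DM O} {f : C.V →ₗ[S O] D.V}
    (hf : TChain P f) (a : O)
    (he : ∀ z ∈ HH O C.V, D.ep (f z) = a * C.ep z) (w : List (ℕ × Bool)) (k : ℕ) {b : O}
    (hb : b ∈ Idl P (Fw w C) k) : a * b ∈ Idl P (Fw w D) k :=
  (hf.Fwmap w).Idl_mul_le a (fun z hz => Fw.map_ep w f a he z hz) k hb

theorem TChain.Idl_Fw_le {P : Pot O} {C D : DM O} {f : C.V →ₗ[S O] D.V}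
    (hf : TChain P f) (he : ∀ z ∈ HH O C.V, D.ep (f z) = C.ep z) (w : List (ℕ × Bool)) (k : ℕ) :
    Idl P (Fw w C) k ≤ Idl P (Fw w D) k := fun b hb => by
  simpa using hf.Idl_Fw_mul_le 1 (fun z hz => by rw [he z hz, one_mul]) w k hb

end CQ
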