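import Pool.Agent.CQ.Moves

/-!
# Left and right letters

`DIso C D`: strict isomorphisms of differential modules.  Left letters commute with right letters;
over the polynomial ring `RS O s` a left letter is the same as a right letter; reversal of words.
-/

set_option autoImplicit false
set_option linter.unusedSectionVars false
set_option linter.unusedSimpArgs false
set_option linter.unreachableTactic false
set_option linter.unusedTactic false
set_option linter.unnecessarySeqFocus false

namespace CQ

open MvPolynomial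

variable {O : Type} [CommRing O] [CharP O 2]

/-- A strict isomorphism of differential modules. -/
structure DIso (C D : DM O) where
  e : C.V ≃ₗ[S O] D.V
  comm : ∀ z, D.d (e z) = e (C.d z)
  ep : ∀ z, D.ep (e z) = C.ep z

namespace DIso

/-- identity -/
noncomputable def refl (C : DM O) : DIso C C := ⟨LinearEquiv.refl _ _, fun _ => rfl, fun _ => rfl⟩

/-- inverse -/
noncomputable def symm {C D : DM O} (f : DIso C D) : DIso D C where
  e := f.e.symm
  comm z := by
    apply f.e.injective
    rw [← f.comm, f.e.apply_symm_apply, f.e.apply_symm_apply]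
  ep z := by rw [← f.ep, f.e.apply_symm_apply]

/-- composition -/
noncomputable def trans {C D E : DM O} (f : DIso C D) (g : DIso D E) : DIso C E where
  e := f.e.trans g.e
  comm z := by
    change E.d (g.e (f.e z)) = g.e (f.e (C.d z))
    rw [g.comm, f.comm]
  ep z := by
    change E.ep (g.e (f.e z)) = C.ep z
    rw [g.ep, f.ep]

theorem Idl_le {C D : DM O} (f : DIso C D) (P : Pot O) (k : ℕ) : Idl P C k ≤ Idl P D k :=
  (TChain.of_comm (P := P) (C := C) (D := D) (f := f.e.toLinearMap) f.comm).Idl_le
    (fun z _ => f.ep z) k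

theorem Idl_eq {C D : DM O} (f : DIso C D) (P : Pot O) (k : ℕ) : Idl P C k = Idl P D k :=
  le_antisymm (f.Idl_le P k) (f.symm.Idl_le P k)

/-- equality -/
noncomputable def ofEq {C D : DM O} (h : C = D) : DIso C D := h ▸ refl C

end DIso

theorem Mv.farf_farf {t : Bool} {i : ℕ} {t' : Bool} {j : ℕ} (h : Mv.FarL t i t' j) {C : Type}
    [AddCommGroup C] [Module (S O) C] (z : (C × D2 t' j C) × D2 t i (C × D2 t' j C)) :
    Mv.farf (O := O) h.symm C (Mv.farf (O := O) h C z) = z := by
  rw [Mv.farf_apply, Mv.farf_apply]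

/-- functoriality of `D2` for isomorphisms -/
noncomputable def D2.mapEquiv (t : Bool) (i : ℕ) {C D : Type} [AddCommGroup C] [Module (S O) C]
    [AddCommGroup D] [Module (S O) D] (e : C ≃ₗ[S O] D) : D2 t i C ≃ₗ[S O] D2 t i D :=
  LinearEquiv.ofLinearMap (D2.map e.toLinearMap) (D2.map e.symm.toLinearMap)
    (by apply LinearMap.ext; intro z; ext <;> simp)
    (by apply LinearMap.ext; intro z; ext <;> simp)

namespace DIso

/-- functoriality of the crossing functors -/
noncomputable def F2 (t : Bool) (i : ℕ) (pos : Bool) {C D : DM O} (f : DIso C D) :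
    DIso (CQ.F2 t i pos C) (CQ.F2 t i pos D) where
  e := LinearEquiv.prodCongr f.e (D2.mapEquiv t i f.e)
  comm z := by
    cases pos
    · refine Prod.ext ?_ ?_
      · change D.d (f.e z.1) + unzip O t i (D2.map f.e.toLinearMap z.2) =
          f.e (C.d z.1 + unzip O t i z.2)
        rw [unzip_nat, f.comm, map_add]; rfl
      · change D2.map D.d (D2.map f.e.toLinearMap z.2) = D2.map f.e.toLinearMap (D2.map C.d z.2)
        ext
        · exact f.comm _
        · exact f.comm _
    · refine Prod.ext (f.comm _) ?_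
      change zip O t i (f.e z.1) + D2.map D.d (D2.map f.e.toLinearMap z.2) =
        D2.map f.e.toLinearMap (zip O t i z.1 + D2.map C.d z.2)
      rw [map_add, ← zip_nat]
      congr 1
      ext
      · exact f.comm _
      · exact f.comm _
  ep z := f.ep z.1

/-- functoriality of words -/
noncomputable def Fw : (w : List (ℕ × Bool)) → {C D : DM O} → DIso C D →
    DIso (CQ.Fw w C) (CQ.Fw w D)
  | [], _, _, f => f
  | a :: w, _, _, f => Fw w (f.F2 true a.1 a.2)

/-- letters with disjoint variables commute -/
noncomputable def far {t : Bool} {i : ℕ} {t' : Bool} {j : ℕ} (h : Mv.FarL t i t' j) (p q : Bool)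
    (C : DM O) : DIso (CQ.F2 t i p (CQ.F2 t' j q C)) (CQ.F2 t' j q (CQ.F2 t i p C)) where
  e := LinearEquiv.ofLinearMap (Mv.farf (O := O) h C.V) (Mv.farf (O := O) h.symm C.V)
    (LinearMap.ext fun z => Mv.farf_farf (O := O) h.symm z)
    (LinearMap.ext fun z => Mv.farf_farf (O := O) h z)
  comm z := Mv.farf_comm h p q C.d z
  ep _ := rfl

/-- a left letter commutes with words of right letters -/
noncomputable def leftFw (i : ℕ) (p : Bool) : (w : List (ℕ × Bool)) → (C : DM O) →
    DIso (CQ.F2 false i p (CQ.Fw w C)) (CQ.Fw w (CQ.F2 false i p C))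
  | [], _ => refl _
  | a :: w, C => (leftFw i p w (CQ.F2 true a.1 a.2 C)).trans
      (Fw w (far (Mv.FarL.left_right i a.1) p a.2 C))

end DIso

/-! ## Left and right letters over the polynomial ring -/

section lift

variable (O) in
/-- the polynomials in the variables of side `t` -/
noncomputable def ren (t : Bool) (s : ℕ) : RS O s →ₐ[O] S O :=
  MvPolynomial.rename (fun j : Fin s => inj t j)

theorem ren_X (t : Bool) (s : ℕ) (j : Fin s) : ren O t s (X j) = X (inj t j) := by
  simp [ren]

theorem ren_C (t : Bool) (s : ℕ) (o : O) : ren O t s (MvPolynomial.C o) = MvPolynomial.C o := by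
  simp [ren]

theorem rho_inj (t : Bool) (s j : ℕ) :
    rho O s (X (inj t j)) = if h : j < s then X ⟨j, h⟩ else 0 := by
  cases t <;> simp [rho, inj]

theorem RS_X_smul (t : Bool) (s j : ℕ) (f : RS O s) :
    (X (inj t j) : S O) • f = (if h : j < s then X ⟨j, h⟩ else 0) * f := by
  rw [RS_smul_def, rho_inj]

theorem rho_ren (t : Bool) (s : ℕ) (f : RS O s) : rho O s (ren O t s f) = f := by
  induction f using MvPolynomial.induction_on with
  | C o => rw [ren_C]; simp [rho]
  | add p q hp hq => rw [map_add, map_add, hp, hq]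
  | mul_X p j hp =>
    rw [map_mul, map_mul, hp, ren_X, rho_inj, dif_pos j.2]

theorem ren_smul_one (t : Bool) (s : ℕ) (f : RS O s) : (ren O t s f) • (1 : RS O s) = f := by
  rw [RS_smul_def, rho_ren, mul_one]

/-- two linear maps from `RS` which agree at `1` are equal -/
theorem RS_hom_ext {s : ℕ} {M : Type} [AddCommGroup M] [Module (S O) M] {f g : RS O s →ₗ[S O] M}
    (h : f 1 = g 1) (z : RS O s) : f z = g z := by
  rw [← ren_smul_one true s z, map_smul, map_smul, h]

variable {M : Type} [AddCommGroup M] [Module (S O) M]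

/-- the relations of the generator of a letter bimodule over the polynomial ring -/
structure LRel (s i : ℕ) (g : M) : Prop where
  h1 : ∀ j, j ≠ i → j ≠ i + 1 → (X (inj false j) : S O) • g = (X (inj true j) : S O) • g
  h2 : e1 O false i • g = e1 O true i • g
  h3 : e2 O false i • g = e2 O true i • g
  h4 : ∀ j, s ≤ j → (X (inj false j) : S O) • g = 0
  hi : i + 1 < s

theorem LRel.h1' {s i : ℕ} {g : M} (h : LRel (O := O) s i g) (t : Bool) (j : ℕ) (h0 : j ≠ i)
    (h1 : j ≠ i + 1) : (X (inj (!t) j) : S O) • g = (X (inj t j) : S O) • g := by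
  cases t
  · exact (h.h1 j h0 h1).symm
  · exact h.h1 j h0 h1

theorem LRel.h2' {s i : ℕ} {g : M} (h : LRel (O := O) s i g) (t : Bool) :
    e1 O (!t) i • g = e1 O t i • g := by
  cases t
  · exact h.h2.symm
  · exact h.h2

theorem LRel.h3' {s i : ℕ} {g : M} (h : LRel (O := O) s i g) (t : Bool) :
    e2 O (!t) i • g = e2 O t i • g := by
  cases t
  · exact h.h3.symm
  · exact h.h3

theorem LRel.h4' {s i : ℕ} {g : M} (h : LRel (O := O) s i g) (t : Bool) (j : ℕ) (hj : s ≤ j) :
    (X (inj t j) : S O) • g = 0 := by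
  cases t
  · exact h.h4 j hj
  · have := h.hi
    rw [← h.h1 j (by omega) (by omega)]
    exact h.h4 j hj

/-- additive map underlying `liftD` -/
noncomputable def liftA (t : Bool) (i s : ℕ) (g : M) : D2 t i (RS O s) →+ M where
  toFun z := ren O (!t) s z.a • g + (X (inj t i) : S O) • (ren O (!t) s z.b • g)
  map_zero' := by simp
  map_add' z w := by
    simp only [D2.add_a, D2.add_b, map_add, add_smul, smul_add]
    abel

theorem liftA_apply (t : Bool) (i s : ℕ) (g : M) (z : D2 t i (RS O s)) :
    liftA (O := O) t i s g z =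
      ren O (!t) s z.a • g + (X (inj t i) : S O) • (ren O (!t) s z.b • g) := rfl

theorem liftA_C (t : Bool) (i s : ℕ) (g : M) (o : O) (z : D2 t i (RS O s)) :
    liftA (O := O) t i s g ((MvPolynomial.C o : S O) • z) =
      (MvPolynomial.C o : S O) • liftA (O := O) t i s g z := by
  have e : ∀ f : RS O s, ren O (!t) s ((MvPolynomial.C o : S O) • f) =
      MvPolynomial.C o * ren O (!t) s f := by
    intro f
    rw [RS_smul_def, map_mul]
    congr 1
    simp [rho, ren]
  rw [liftA_apply, liftA_apply, D2.C_smul_a, D2.C_smul_b, e, e]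
  module

theorem ren_X_smul (t t' : Bool) (s j : ℕ) (h : j < s) (f : RS O s) :
    ren O t s ((X (inj t' j) : S O) • f) = X (inj t j) * ren O t s f := by
  rw [RS_X_smul, dif_pos h, map_mul, ren_X]

theorem ren_X_smul_ge (t t' : Bool) (s j : ℕ) (h : s ≤ j) (f : RS O s) :
    ren O t s ((X (inj t' j) : S O) • f) = 0 := by
  rw [RS_X_smul, dif_neg (by omega), zero_mul, map_zero]

theorem liftA_other (t : Bool) (i s : ℕ) {g : M} (hg : LRel (O := O) s i g) (j : ℕ)
    (z : D2 t i (RS O s)) :
    liftA (O := O) t i s g ((X (inj (!t) j) : S O) • z) =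
      (X (inj (!t) j) : S O) • liftA (O := O) t i s g z := by
  have h1 : inj (!t) j ≠ inj t i := by cases t <;> simp [inj]
  have h2 : inj (!t) j ≠ inj t (i + 1) := by cases t <;> simp [inj]
  rw [liftA_apply, liftA_apply, D2.X_smul_a_of_ne _ h1 h2, D2.X_smul_b_of_ne _ h1 h2]
  by_cases h : j < s
  · rw [ren_X_smul _ _ _ _ h, ren_X_smul _ _ _ _ h]
    module
  · have h' : s ≤ j := by omega
    rw [ren_X_smul_ge _ _ _ _ h', ren_X_smul_ge _ _ _ _ h', smul_add, smul_comm _ (ren O _ _ _) g,
      hg.h4' (!t) j h', smul_comm _ (X (inj t i) : S O), smul_comm _ (ren O _ _ _) g,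
      hg.h4' (!t) j h']
    simp

theorem liftA_far (t : Bool) (i s : ℕ) {g : M} (hg : LRel (O := O) s i g) (j : ℕ) (hj : j ≠ i)
    (hj' : j ≠ i + 1) (z : D2 t i (RS O s)) :
    liftA (O := O) t i s g ((X (inj t j) : S O) • z) =
      (X (inj t j) : S O) • liftA (O := O) t i s g z := by
  have h1 : inj t j ≠ inj t i := fun h => hj (inj_injective t h)
  have h2 : inj t j ≠ inj t (i + 1) := fun h => hj' (inj_injective t h)
  rw [liftA_apply, liftA_apply, D2.X_smul_a_of_ne _ h1 h2, D2.X_smul_b_of_ne _ h1 h2]
  by_cases h : j < s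
  · rw [ren_X_smul _ _ _ _ h, ren_X_smul _ _ _ _ h, smul_add, smul_comm _ (ren O _ _ _) g,
      ← hg.h1' t j hj hj', smul_comm _ (X (inj t i) : S O), smul_comm _ (ren O _ _ _) g,
      ← hg.h1' t j hj hj']
    module
  · have h' : s ≤ j := by omega
    rw [ren_X_smul_ge _ _ _ _ h', ren_X_smul_ge _ _ _ _ h', smul_add, smul_comm _ (ren O _ _ _) g,
      hg.h4' t j h', smul_comm _ (X (inj t i) : S O), smul_comm _ (ren O _ _ _) g,
      hg.h4' t j h']
    simp

theorem ren_e1_smul (t t' : Bool) (s i : ℕ) (h : i + 1 < s) (f : RS O s) :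
    ren O t s (e1 O t' i • f) = e1 O t i * ren O t s f := by
  rw [Mv.R3.e1_split, map_add, ren_X_smul _ _ _ _ (by omega), ren_X_smul _ _ _ _ h, e1_def]
  ring

theorem ren_e2_smul (t t' : Bool) (s i : ℕ) (h : i + 1 < s) (f : RS O s) :
    ren O t s (e2 O t' i • f) = e2 O t i * ren O t s f := by
  rw [Mv.R3.e2_split, ren_X_smul _ _ _ _ (by omega), ren_X_smul _ _ _ _ h, e2_def]
  ring

theorem liftA_i (t : Bool) (i s : ℕ) {g : M} (hg : LRel (O := O) s i g)
    (z : D2 t i (RS O s)) :
    liftA (O := O) t i s g ((X (inj t i) : S O) • z) =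
      (X (inj t i) : S O) • liftA (O := O) t i s g z := by
  rw [liftA_apply, liftA_apply, D2.X_smul_i_a, D2.X_smul_i_b, map_add,
    ren_e1_smul _ _ _ _ hg.hi, ren_e2_smul _ _ _ _ hg.hi, mul_smul, add_smul, mul_smul,
    smul_comm (e2 O (!t) i), smul_comm (e1 O (!t) i) _ g, hg.h2' t, hg.h3' t, e1_def, e2_def]
  (match_scalars <;> (rw [← sub_eq_zero]; ring_nf <;>
      simp only [two0, three1, four0, five1, six0, seven1, eight0, mul_zero, zero_mul, add_zero,
        zero_add, neg_zero, sub_zero, sub_self, mul_one]))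

theorem liftA_succ (t : Bool) (i s : ℕ) {g : M} (hg : LRel (O := O) s i g)
    (z : D2 t i (RS O s)) :
    liftA (O := O) t i s g ((X (inj t (i + 1)) : S O) • z) =
      (X (inj t (i + 1)) : S O) • liftA (O := O) t i s g z := by
  rw [liftA_apply, liftA_apply, D2.X_smul_succ_a, D2.X_smul_succ_b, map_add,
    ren_e1_smul _ _ _ _ hg.hi, ren_e2_smul _ _ _ _ hg.hi, add_smul, mul_smul, mul_smul,
    smul_comm (e2 O (!t) i), smul_comm (e1 O (!t) i) _ g, hg.h2' t, hg.h3' t, e1_def, e2_def]
  (match_scalars <;> (rw [← sub_eq_zero]; ring_nf <;>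
      simp only [two0, three1, four0, five1, six0, seven1, eight0, mul_zero, zero_mul, add_zero,
        zero_add, neg_zero, sub_zero, sub_self, mul_one]))

/-- the linear map `D2 t i (RS s) → M` with `⟨1, 0⟩ ↦ g` -/
noncomputable def liftD (t : Bool) (i s : ℕ) (g : M) (hg : LRel (O := O) s i g) :
    D2 t i (RS O s) →ₗ[S O] M :=
  mkLin (liftA t i s g) (fun o v => liftA_C t i s g o v) (fun v z => by
    have key : ∀ j : ℕ, liftA (O := O) t i s g ((X (inj t j) : S O) • z) =
        (X (inj t j) : S O) • liftA (O := O) t i s g z := by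
      intro j
      by_cases h0 : j = i
      · subst h0; exact liftA_i t j s hg z
      · by_cases h1 : j = i + 1
        · subst h1; exact liftA_succ t i s hg z
        · exact liftA_far t i s hg j h0 h1 z
    rcases v with j | j
    · cases t
      · exact key j
      · exact liftA_other true i s hg j z
    · cases t
      · exact liftA_other false i s hg j z
      · exact key j)

theorem liftD_apply (t : Bool) (i s : ℕ) (g : M) (hg : LRel (O := O) s i g)
    (z : D2 t i (RS O s)) : liftD t i s g hg z =
      ren O (!t) s z.a • g + (X (inj t i) : S O) • (ren O (!t) s z.b • g) := rfl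

theorem liftD_one (t : Bool) (i s : ℕ) (g : M) (hg : LRel (O := O) s i g) :
    liftD t i s g hg ⟨1, 0⟩ = g := by
  rw [liftD_apply]
  simp

end lift

section lr

/-- the generator `1` of a letter bimodule over the polynomial ring -/
noncomputable def one2 (O : Type) [CommRing O] (t : Bool) (i s : ℕ) : D2 t i (RS O s) := ⟨1, 0⟩

theorem X_other_smul {t : Bool} {i : ℕ} {C : Type} [AddCommGroup C] [Module (S O) C] (j : ℕ)
    (z : D2 t i C) : (X (inj (!t) j) : S O) • z =
      ⟨(X (inj (!t) j) : S O) • z.a, (X (inj (!t) j) : S O) • z.b⟩ := by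
  have h1 : inj (!t) j ≠ inj t i := by cases t <;> simp [inj]
  have h2 : inj (!t) j ≠ inj t (i + 1) := by cases t <;> simp [inj]
  ext
  · exact D2.X_smul_a_of_ne _ h1 h2 z
  · exact D2.X_smul_b_of_ne _ h1 h2 z

theorem RS_X_smul_side (t t' : Bool) (s j : ℕ) (f : RS O s) :
    (X (inj t j) : S O) • f = (X (inj t' j) : S O) • f := by
  rw [RS_X_smul, RS_X_smul]

theorem one2_side (t : Bool) (i s j : ℕ) (h0 : j ≠ i) (h1 : j ≠ i + 1) :
    (X (inj t j) : S O) • one2 O t i s = (X (inj (!t) j) : S O) • one2 O t i s := by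
  have h1 : inj t j ≠ inj t i := fun h => h0 (inj_injective t h)
  have h2 : inj t j ≠ inj t (i + 1) := fun h => by
    have := inj_injective t h; omega
  rw [X_other_smul]
  refine D2.ext ?_ ?_
  · rw [D2.X_smul_a_of_ne _ h1 h2, RS_X_smul_side t (!t)]
  · rw [D2.X_smul_b_of_ne _ h1 h2, RS_X_smul_side t (!t)]

theorem one2_e1 (t : Bool) (i s : ℕ) :
    e1 O t i • one2 O t i s = e1 O (!t) i • one2 O t i s := by
  rw [D2.e1_smul, Mv.R3.e1_split (O := O) (t := !t) i (one2 O t i s), X_other_smul, X_other_smul]
  refine D2.ext ?_ ?_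
  · rw [D2.add_a, Mv.R3.e1_split, RS_X_smul_side t (!t), RS_X_smul_side t (!t) s (i + 1)]
  · change e1 O t i • (0 : RS O s) = (X (inj (!t) i) : S O) • (0 : RS O s) +
      (X (inj (!t) (i + 1)) : S O) • (0 : RS O s)
    simp

theorem one2_e2 (t : Bool) (i s : ℕ) :
    e2 O t i • one2 O t i s = e2 O (!t) i • one2 O t i s := by
  rw [D2.e2_smul, Mv.R3.e2_split (O := O) (t := !t) i (one2 O t i s), X_other_smul, X_other_smul]
  refine D2.ext ?_ ?_
  · rw [Mv.R3.e2_split, RS_X_smul_side t (!t) s i, RS_X_smul_side t (!t) s (i + 1)]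
  · change e2 O t i • (0 : RS O s) = (X (inj (!t) i) : S O) •
      (X (inj (!t) (i + 1)) : S O) • (0 : RS O s)
    simp

theorem one2_rel (t : Bool) (i s : ℕ) (hi : i + 1 < s) : LRel (O := O) s i (one2 O t i s) where
  h1 j h0 h1 := by
    cases t
    · exact one2_side false i s j h0 h1
    · exact (one2_side true i s j h0 h1).symm
  h2 := by
    cases t
    · exact one2_e1 false i s
    · exact (one2_e1 true i s).symm
  h3 := by
    cases t
    · exact one2_e2 false i s
    · exact (one2_e2 true i s).symm
  h4 j hj := by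
    have key : (X (inj (!t) j) : S O) • one2 O t i s = 0 := by
      rw [X_other_smul]
      refine D2.ext ?_ ?_
      · rw [RS_X_smul, dif_neg (by omega), zero_mul]; rfl
      · change (X (inj (!t) j) : S O) • (0 : RS O s) = 0
        rw [smul_zero]
    cases t
    · have := one2_side (O := O) false i s j (by omega) (by omega)
      rw [this]; exact key
    · exact key
  hi := hi

/-- two linear maps from `D2 t i (RS s)` which agree at the generator are equal -/
theorem D2RS_hom_ext {t : Bool} {i s : ℕ} {M : Type} [AddCommGroup M] [Module (S O) M]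
    {f g : D2 t i (RS O s) →ₗ[S O] M} (h : f (one2 O t i s) = g (one2 O t i s))
    (z : D2 t i (RS O s)) : f z = g z := by
  have hz : z = ren O (!t) s z.a • one2 O t i s +
      (X (inj t i) : S O) • (ren O (!t) s z.b • one2 O t i s) := by
    have e : ∀ f : RS O s, ren O (!t) s f • one2 O t i s = ⟨f, 0⟩ := by
      intro f
      induction f using MvPolynomial.induction_on with
      | C o =>
        rw [ren_C]
        refine D2.ext ?_ ?_
        · rw [D2.C_smul_a]
          change (MvPolynomial.C o : S O) • (1 : RS O s) = _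
          rw [RS_smul_def]; simp [rho]
        · rw [D2.C_smul_b]
          change (MvPolynomial.C o : S O) • (0 : RS O s) = _
          rw [smul_zero]
      | add p q hp hq =>
        rw [map_add, add_smul, hp, hq]
        refine D2.ext rfl ?_
        simp
      | mul_X p j hp =>
        rw [map_mul, mul_comm, mul_smul, hp, ren_X, X_other_smul]
        refine D2.ext ?_ ?_
        · change (X (inj (!t) (j : ℕ)) : S O) • p = p * X j
          rw [RS_X_smul, dif_pos j.2, mul_comm]
        · change (X (inj (!t) (j : ℕ)) : S O) • (0 : RS O s) = 0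
          rw [smul_zero]
    rw [e, e]
    refine D2.ext ?_ ?_
    · rw [D2.add_a, D2.X_smul_i_a]; simp
    · rw [D2.add_b, D2.X_smul_i_b]; simp
  rw [hz]
  simp only [map_add, map_smul, h]

/-- side `t` letters and side `t'` letters over the polynomial ring -/
noncomputable def lr (t t' : Bool) (i s : ℕ) (hi : i + 1 < s) :
    D2 t i (RS O s) →ₗ[S O] D2 t' i (RS O s) :=
  liftD t i s (one2 O t' i s) (one2_rel t' i s hi)

theorem lr_one (t t' : Bool) (i s : ℕ) (hi : i + 1 < s) :
    lr (O := O) t t' i s hi (one2 O t i s) = one2 O t' i s := liftD_one _ _ _ _ _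

theorem lr_lr (t t' : Bool) (i s : ℕ) (hi : i + 1 < s) (z : D2 t i (RS O s)) :
    lr (O := O) t' t i s hi (lr (O := O) t t' i s hi z) = z := by
  have := D2RS_hom_ext (f := lr (O := O) t' t i s hi ∘ₗ lr (O := O) t t' i s hi)
    (g := LinearMap.id) (by
      change lr (O := O) t' t i s hi (lr (O := O) t t' i s hi (one2 O t i s)) = one2 O t i s
      rw [lr_one, lr_one]) z
  exact this

theorem unzip_lr (t t' : Bool) (i s : ℕ) (hi : i + 1 < s) (z : D2 t i (RS O s)) :
    unzip O t' i (lr (O := O) t t' i s hi z) = unzip O t i z := by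
  have := D2RS_hom_ext (f := unzip O t' i ∘ₗ lr (O := O) t t' i s hi) (g := unzip O t i) (by
      change unzip O t' i (lr (O := O) t t' i s hi (one2 O t i s)) = unzip O t i (one2 O t i s)
      rw [lr_one, unzip_apply, unzip_apply]
      simp [one2]) z
  exact this

theorem zip_one_eq (t : Bool) (i s : ℕ) :
    zip O t i (1 : RS O s) = (X (inj t i) : S O) • one2 O t i s +
      (X (inj (!t) (i + 1)) : S O) • one2 O t i s := by
  rw [X_other_smul]
  refine D2.ext ?_ ?_
  · rw [zip_a, D2.add_a, D2.X_smul_i_a]
    change (X (inj t (i + 1)) : S O) • (1 : RS O s) = e2 O t i • (0 : RS O s) +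
      (X (inj (!t) (i + 1)) : S O) • (1 : RS O s)
    rw [smul_zero, zero_add, RS_X_smul_side t (!t)]
  · rw [zip_b, D2.add_b, D2.X_smul_i_b]
    change (1 : RS O s) = ((1 : RS O s) + e1 O t i • (0 : RS O s)) +
      (X (inj (!t) (i + 1)) : S O) • (0 : RS O s)
    simp

theorem one2_swap (t : Bool) (i s : ℕ) :
    (X (inj t i) : S O) • one2 O t i s + (X (inj (!t) (i + 1)) : S O) • one2 O t i s =
      (X (inj (!t) i) : S O) • one2 O t i s + (X (inj t (i + 1)) : S O) • one2 O t i s := by
  have h := one2_e1 (O := O) t i s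
  rw [Mv.R3.e1_split, Mv.R3.e1_split] at h
  have h1 := add_self_mod (O := O) ((X (inj t (i + 1)) : S O) • one2 O t i s)
  have h2 := add_self_mod (O := O) ((X (inj (!t) (i + 1)) : S O) • one2 O t i s)
  calc (X (inj t i) : S O) • one2 O t i s + (X (inj (!t) (i + 1)) : S O) • one2 O t i s
      = ((X (inj t i) : S O) • one2 O t i s + (X (inj t (i + 1)) : S O) • one2 O t i s) +
        (X (inj (!t) (i + 1)) : S O) • one2 O t i s +
          (X (inj t (i + 1)) : S O) • one2 O t i s := by
          have : (X (inj t i) : S O) • one2 O t i s + (X (inj t (i + 1)) : S O) • one2 O t i s +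
            (X (inj (!t) (i + 1)) : S O) • one2 O t i s +
            (X (inj t (i + 1)) : S O) • one2 O t i s =
            (X (inj t i) : S O) • one2 O t i s + (X (inj (!t) (i + 1)) : S O) • one2 O t i s +
            ((X (inj t (i + 1)) : S O) • one2 O t i s +
              (X (inj t (i + 1)) : S O) • one2 O t i s) := by abel
          rw [this, h1, add_zero]
    _ = ((X (inj (!t) i) : S O) • one2 O t i s + (X (inj (!t) (i + 1)) : S O) • one2 O t i s) +
        (X (inj (!t) (i + 1)) : S O) • one2 O t i s +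
          (X (inj t (i + 1)) : S O) • one2 O t i s := by rw [h]
    _ = (X (inj (!t) i) : S O) • one2 O t i s + (X (inj t (i + 1)) : S O) • one2 O t i s := by
          rw [add_assoc ((X (inj (!t) i) : S O) • one2 O t i s), h2, add_zero]

theorem lr_zip (t t' : Bool) (i s : ℕ) (hi : i + 1 < s) (f : RS O s) :
    lr (O := O) t t' i s hi (zip O t i f) = zip O t' i f := by
  have := RS_hom_ext (f := lr (O := O) t t' i s hi ∘ₗ zip O t i) (g := zip O t' i) (by
      change lr (O := O) t t' i s hi (zip O t i (1 : RS O s)) = zip O t' i (1 : RS O s)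
      rw [zip_one_eq t i s, map_add, map_smul, map_smul, lr_one, zip_one_eq t' i s]
      cases t <;> cases t'
      · rfl
      · exact (one2_swap true i s).symm
      · exact (one2_swap false i s).symm
      · rfl) f
  exact this

theorem lr_comm (t t' : Bool) (i s : ℕ) (hi : i + 1 < s) (pos : Bool)
    (z : RS O s × D2 t i (RS O s)) :
    dF t' i pos (0 : RS O s →ₗ[S O] RS O s) (z.1, lr (O := O) t t' i s hi z.2) =
      ((dF t i pos (0 : RS O s →ₗ[S O] RS O s) z).1,
        lr (O := O) t t' i s hi (dF t i pos (0 : RS O s →ₗ[S O] RS O s) z).2) := by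
  have h0 : ∀ (t : Bool) (z : D2 t i (RS O s)),
      D2.map (0 : RS O s →ₗ[S O] RS O s) z = 0 := fun t z => D2.ext rfl rfl
  cases pos
  · rw [dF_neg, dF_neg, h0, h0, map_zero]
    refine Prod.ext ?_ rfl
    change (0 : RS O s →ₗ[S O] RS O s) z.1 + unzip O t' i (lr (O := O) t t' i s hi z.2) =
      (0 : RS O s →ₗ[S O] RS O s) z.1 + unzip O t i z.2
    rw [unzip_lr]
  · rw [dF_pos, dF_pos, h0, h0, add_zero, add_zero, lr_zip]

/-- left and right letters on the polynomial ring -/
noncomputable def DIso.lr (t t' : Bool) (i s : ℕ) (hi : i + 1 < s) (pos : Bool) :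
    DIso (CQ.F2 t i pos (R0 O s)) (CQ.F2 t' i pos (R0 O s)) where
  e := LinearEquiv.prodCongr (LinearEquiv.refl _ _)
    (LinearEquiv.ofLinearMap (CQ.lr (O := O) t t' i s hi) (CQ.lr (O := O) t' t i s hi)
      (LinearMap.ext fun z => lr_lr (O := O) t' t i s hi z)
      (LinearMap.ext fun z => lr_lr (O := O) t t' i s hi z))
  comm z := lr_comm (O := O) t t' i s hi pos z
  ep _ := rfl

/-- a left letter on a closed word is a first letter -/
theorem Idl_left (P : Pot O) (s i : ℕ) (pos : Bool) (w : List (ℕ × Bool)) (k : ℕ)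
    (hi : i + 1 < s) : Idl P (F2 false i pos (Fw w (R0 O s))) k = IdW P s ((i, pos) :: w) k :=
  ((DIso.leftFw i pos w (R0 O s)).trans
    (DIso.Fw w (DIso.lr false true i s hi pos))).Idl_eq P k

end lr

/-! ## Words of left letters -/

/-- the complex of a word of left letters, the first letter first -/
noncomputable def FwL : List (ℕ × Bool) → DM O → DM O
  | [], C => C
  | a :: w, C => FwL w (F2 false a.1 a.2 C)

namespace DIso

/-- functoriality of words of left letters -/
noncomputable def FwL : (w : List (ℕ × Bool)) → {C D : DM O} → DIso C D →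
    DIso (CQ.FwL w C) (CQ.FwL w D)
  | [], _, _, f => f
  | a :: w, _, _, f => FwL w (f.F2 false a.1 a.2)

/-- a right letter commutes with words of left letters -/
noncomputable def rightFwL (i : ℕ) (p : Bool) : (w : List (ℕ × Bool)) → (C : DM O) →
    DIso (CQ.F2 true i p (CQ.FwL w C)) (CQ.FwL w (CQ.F2 true i p C))
  | [], _ => refl _
  | a :: w, C => (rightFwL i p w (CQ.F2 false a.1 a.2 C)).trans
      (FwL w (far (Mv.FarL.right_left i a.1) p a.2 C))

/-- words of left letters and words of right letters over the polynomial ring -/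
noncomputable def leftRight (s : ℕ) : (w : List (ℕ × Bool)) → (hw : Valid s w) →
    DIso (CQ.FwL w (R0 O s)) (CQ.Fw w.reverse (R0 O s))
  | [], _ => refl _
  | a :: w, hw => (FwL w (lr false true a.1 s (hw a List.mem_cons_self) a.2)).trans
      ((rightFwL a.1 a.2 w (R0 O s)).symm.trans
        (((leftRight s w (fun b hb => hw b (List.mem_cons_of_mem _ hb))).F2 true a.1 a.2).trans
          (ofEq (by rw [List.reverse_cons, Fw_append]; rfl))))

end DIso

/-! ## Exchange of left and right -/

section sw

variable (O) in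
/-- the exchange of the variables `x` and `y` -/
noncomputable def swR : S O →+* S O := (MvPolynomial.rename Sum.swap).toRingHom

theorem swR_C (o : O) : swR O (MvPolynomial.C o) = MvPolynomial.C o := by
  change MvPolynomial.rename Sum.swap (MvPolynomial.C o) = _
  rw [rename_C]

theorem swR_X (t : Bool) (j : ℕ) : swR O (X (inj t j)) = X (inj (!t) j) := by
  change MvPolynomial.rename Sum.swap (X (inj t j)) = _
  rw [rename_X]
  cases t <;> rfl

theorem swR_X' (t : Bool) (j : ℕ) : swR O (X (inj (!t) j)) = X (inj t j) := by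
  have := swR_X (O := O) (!t) j
  rwa [Bool.not_not] at this

theorem swR_e1 (t : Bool) (i : ℕ) : swR O (e1 O t i) = e1 O (!t) i := by
  rw [e1_def, e1_def, map_add, swR_X, swR_X]

theorem swR_e2 (t : Bool) (i : ℕ) : swR O (e2 O t i) = e2 O (!t) i := by
  rw [e2_def, e2_def, map_mul, swR_X, swR_X]

theorem ev_swR (c : ℕ → O) (p : S O) : ev c (swR O p) = ev c p := by
  induction p using MvPolynomial.induction_on with
  | C o => rw [swR_C]
  | add p q hp hq => rw [map_add, map_add, map_add, hp, hq]
  | mul_X p v hp =>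
    rw [map_mul, map_mul, map_mul, hp]
    congr 1
    rcases v with j | j
    · have := swR_X (O := O) false j
      rw [inj_false, Bool.not_false, inj_true] at this
      rw [this, ev_inl, ev_inr]
    · have := swR_X (O := O) true j
      rw [inj_true, Bool.not_true, inj_false] at this
      rw [this, ev_inl, ev_inr]

theorem rho_swR (s : ℕ) (p : S O) : rho O s (swR O p) = rho O s p := by
  induction p using MvPolynomial.induction_on with
  | C o => rw [swR_C]
  | add p q hp hq => rw [map_add, map_add, map_add, hp, hq]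
  | mul_X p v hp =>
    rw [map_mul, map_mul, map_mul, hp]
    congr 1
    rcases v with j | j
    · have := swR_X (O := O) false j
      rw [inj_false] at this
      rw [this, rho_inj, ← inj_false j, rho_inj]
    · have := swR_X (O := O) true j
      rw [inj_true] at this
      rw [this, rho_inj, ← inj_true j, rho_inj]

/-- a module with left and right exchanged -/
def Sw (C : Type) : Type := C

variable {C D : Type} [AddCommGroup C] [Module (S O) C] [AddCommGroup D] [Module (S O) D]

instance : AddCommGroup (Sw C) := inferInstanceAs (AddCommGroup C)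

noncomputable instance : Module (S O) (Sw C) := Module.compHom C (swR O)

/-- the identity -/
def toSw (z : C) : Sw C := z
/-- the identity -/
def ofSw (z : Sw C) : C := z

theorem Sw_smul (p : S O) (z : Sw C) : p • z = toSw (swR O p • ofSw z) := rfl

theorem Sw_X_smul (t : Bool) (j : ℕ) (z : Sw C) :
    (X (inj t j) : S O) • z = toSw ((X (inj (!t) j) : S O) • ofSw z) := by
  rw [Sw_smul, swR_X]

/-- functoriality -/
noncomputable def Sw.map (f : C →ₗ[S O] D) : Sw C →ₗ[S O] Sw D where
  toFun z := toSw (f (ofSw z))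
  map_add' z w := f.map_add z w
  map_smul' p z := f.map_smul (swR O p) z

theorem Sw.mem_HH (z : Sw C) : z ∈ HH O (Sw C) ↔ ofSw z ∈ HH O C := by
  constructor
  · intro h j
    have := h j
    have e1 : xv O j • z = toSw (yv O j • ofSw z) := Sw_X_smul false j z
    have e2 : yv O j • z = toSw (xv O j • ofSw z) := Sw_X_smul true j z
    rw [e1, e2] at this
    exact this.symm
  · intro h j
    have e1 : xv O j • z = toSw (yv O j • ofSw z) := Sw_X_smul false j z
    have e2 : yv O j • z = toSw (xv O j • ofSw z) := Sw_X_smul true j z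
    rw [e1, e2, h j]

theorem Sw.mem_NN {P : Pot O} (z : Sw C) : z ∈ NN P (Sw C) ↔ ofSw z ∈ NN P C := by
  constructor
  · intro h c hc ψ
    exact h c hc
      { toFun := fun w => ψ (ofSw w)
        map_add' := fun v w => ψ.map_add v w
        map_smul' := fun p w => by
          change ψ (swR O p • ofSw w) = ev c p • ψ (ofSw w)
          rw [map_smulₛₗ, ev_swR] }
  · intro h c hc ψ
    exact h c hc
      { toFun := fun w => ψ (toSw w)
        map_add' := fun v w => ψ.map_add v w
        map_smul' := fun p w => by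
          have e : (toSw (p • w) : Sw C) = swR O p • toSw w := by
            rw [Sw_smul]
            change p • w = swR O (swR O p) • w
            congr 1
            change p = MvPolynomial.rename Sum.swap (MvPolynomial.rename Sum.swap p)
            rw [rename_rename, Sum.swap_swap_eq, rename_id_apply]
          change ψ (toSw (p • w)) = ev c p • ψ (toSw w)
          rw [e, map_smulₛₗ, ev_swR] }

/-- a differential module with left and right exchanged -/
noncomputable def DM.sw (C : DM O) : DM O where
  V := Sw C.V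
  d := Sw.map C.d
  dd v := C.dd v
  ep :=
    { toFun := fun w => C.ep (ofSw w)
      map_add' := fun v w => C.ep.map_add v w
      map_smul' := fun p w => by
        change C.ep (swR O p • ofSw w) = ev 0 p • C.ep (ofSw w)
        rw [map_smulₛₗ, ev_swR] }
  epd z hz := C.epd z ((Sw.mem_HH z).1 hz)

theorem Sw_xv_smul (k : ℕ) (u : Sw C) (hu : ofSw u ∈ HH O C) :
    xv O k • u = toSw (xv O k • ofSw u) := by
  have e1 : xv O k • u = toSw (yv O k • ofSw u) := Sw_X_smul false k u
  rw [e1, hu k]

theorem Idl_sw (P : Pot O) (C : DM O) (k : ℕ) : Idl P C.sw k = Idl P C k := by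
  apply le_antisymm
  · rintro a ⟨z, hz, u, hu, h, rfl⟩
    have hz' : ofSw (C := C.V) z ∈ HH O C.V := (Sw.mem_HH (C := C.V) z).1 hz
    have hu' : ofSw (C := C.V) u ∈ HH O C.V := (Sw.mem_HH (C := C.V) u).1 hu
    refine ⟨ofSw (C := C.V) z, hz', ofSw (C := C.V) u, hu', ?_, rfl⟩
    have h1 := (Sw.mem_NN (C := C.V) _).1 h
    have h2 : ofSw (C := C.V) (xv O k • u) = xv O k • ofSw (C := C.V) u :=
      Sw_xv_smul (C := C.V) k u hu'
    rw [← h2]
    exact h1
  · rintro a ⟨z, hz, u, hu, h, rfl⟩
    refine ⟨toSw z, (Sw.mem_HH (C := C.V) _).2 hz, toSw u, (Sw.mem_HH (C := C.V) _).2 hu, ?_, rfl⟩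
    refine (Sw.mem_NN (C := C.V) _).2 ?_
    have h2 : ofSw (xv O k • (toSw u : Sw C.V)) = xv O k • u :=
      Sw_xv_smul (C := C.V) k (toSw u) hu
    change C.d z + ofSw (xv O k • (toSw u : Sw C.V)) ∈ NN P C.V
    rw [h2]
    exact h

theorem Sw_e1 (i : ℕ) (v : Sw C) : e1 O false i • v = toSw (e1 O true i • ofSw v) := by
  rw [Sw_smul, swR_e1]; rfl

theorem Sw_e2 (i : ℕ) (v : Sw C) : e2 O false i • v = toSw (e2 O true i • ofSw v) := by
  rw [Sw_smul, swR_e2]; rfl

/-- the underlying map of `swD` -/
def swA (i : ℕ) (C : Type) (z : Sw (D2 true i C)) : D2 false i (Sw C) :=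
  ⟨toSw (ofSw z).a, toSw (ofSw z).b⟩

theorem swA_a (i : ℕ) (z : Sw (D2 true i C)) : (swA i C z).a = toSw (ofSw z).a := rfl
theorem swA_b (i : ℕ) (z : Sw (D2 true i C)) : (swA i C z).b = toSw (ofSw z).b := rfl

theorem swA_true (i j : ℕ) (z : Sw (D2 true i C)) :
    swA i C ((X (inj true j) : S O) • z) = (X (inj true j) : S O) • swA i C z := by
  have h1 : inj false j ≠ inj true i := by simp [inj]
  have h2 : inj false j ≠ inj true (i + 1) := by simp [inj]
  have h3 : inj true j ≠ inj false i := by simp [inj]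
  have h4 : inj true j ≠ inj false (i + 1) := by simp [inj]
  refine D2.ext ?_ ?_
  · rw [D2.X_smul_a_of_ne _ h3 h4, swA_a, swA_a, Sw_X_smul, Sw_X_smul]
    exact congrArg toSw (D2.X_smul_a_of_ne _ h1 h2 (ofSw z))
  · rw [D2.X_smul_b_of_ne _ h3 h4, swA_b, swA_b, Sw_X_smul, Sw_X_smul]
    exact congrArg toSw (D2.X_smul_b_of_ne _ h1 h2 (ofSw z))

theorem swA_false (i j : ℕ) (z : Sw (D2 true i C)) :
    swA i C ((X (inj false j) : S O) • z) = (X (inj false j) : S O) • swA i C z := by
  by_cases h0 : j = i
  · subst h0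
    refine D2.ext ?_ ?_
    · rw [D2.X_smul_i_a, swA_a, swA_b, Sw_X_smul, Sw_e2]
      exact congrArg toSw (D2.X_smul_i_a (t := true) (ofSw z))
    · rw [D2.X_smul_i_b, swA_a, swA_b, swA_b, Sw_X_smul, Sw_e1]
      exact congrArg toSw (D2.X_smul_i_b (t := true) (ofSw z))
  · by_cases h1 : j = i + 1
    · subst h1
      refine D2.ext ?_ ?_
      · rw [D2.X_smul_succ_a, swA_a, swA_a, swA_b, Sw_X_smul, Sw_e1, Sw_e2]
        exact congrArg toSw (D2.X_smul_succ_a (t := true) (ofSw z))
      · rw [D2.X_smul_succ_b, swA_a, swA_b, Sw_X_smul]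
        exact congrArg toSw (D2.X_smul_succ_b (t := true) (ofSw z))
    · have h2 : inj true j ≠ inj true i := fun h => h0 (inj_injective true h)
      have h3 : inj true j ≠ inj true (i + 1) := fun h => h1 (inj_injective true h)
      have h4 : inj false j ≠ inj false i := fun h => h0 (inj_injective false h)
      have h5 : inj false j ≠ inj false (i + 1) := fun h => h1 (inj_injective false h)
      refine D2.ext ?_ ?_
      · rw [D2.X_smul_a_of_ne _ h4 h5, swA_a, swA_a, Sw_X_smul, Sw_X_smul]
        exact congrArg toSw (D2.X_smul_a_of_ne _ h2 h3 (ofSw z))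
      · rw [D2.X_smul_b_of_ne _ h4 h5, swA_b, swA_b, Sw_X_smul, Sw_X_smul]
        exact congrArg toSw (D2.X_smul_b_of_ne _ h2 h3 (ofSw z))

theorem swA_C (i : ℕ) (o : O) (z : Sw (D2 true i C)) :
    swA i C ((MvPolynomial.C o : S O) • z) = (MvPolynomial.C o : S O) • swA i C z := by
  refine D2.ext ?_ ?_
  · rw [D2.C_smul_a, swA_a, swA_a, Sw_smul, Sw_smul, swR_C]
    exact congrArg toSw (D2.C_smul_a o (ofSw z))
  · rw [D2.C_smul_b, swA_b, swA_b, Sw_smul, Sw_smul, swR_C]
    exact congrArg toSw (D2.C_smul_b o (ofSw z))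

/-- `D2` and the exchange of sides -/
noncomputable def swD (i : ℕ) (C : Type) [AddCommGroup C] [Module (S O) C] :
    Sw (D2 true i C) →ₗ[S O] D2 false i (Sw C) :=
  mkLin
    { toFun := swA i C
      map_zero' := rfl
      map_add' := fun _ _ => rfl }
    (fun o v => swA_C i o v)
    (fun v z => by
      rcases v with j | j
      · exact swA_false i j z
      · exact swA_true i j z)

theorem swD_apply (i : ℕ) (z : Sw (D2 true i C)) :
    swD (O := O) i C z = ⟨toSw (ofSw z).a, toSw (ofSw z).b⟩ := rfl

/-- `F2` and the exchange of sides -/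
noncomputable def DIso.swF2 (i : ℕ) (pos : Bool) (C : DM O) :
    DIso (CQ.F2 true i pos C).sw (CQ.F2 false i pos C.sw) where
  e :=
    { toFun := fun z => (toSw (ofSw (C := C.V × D2 true i C.V) z).1,
        swD (O := O) i C.V (toSw (ofSw (C := C.V × D2 true i C.V) z).2))
      map_add' := fun _ _ => rfl
      map_smul' := fun p z => Prod.ext rfl
        ((swD (O := O) i C.V).map_smul p (toSw (ofSw (C := C.V × D2 true i C.V) z).2))
      invFun := fun z => toSw ((ofSw (C := C.V) z.1, ⟨ofSw (C := C.V) z.2.a,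
        ofSw (C := C.V) z.2.b⟩) : C.V × D2 true i C.V)
      left_inv := fun _ => rfl
      right_inv := fun _ => rfl }
  comm z := by
    cases pos
    · refine Prod.ext ?_ rfl
      change C.d (ofSw (C := C.V × D2 true i C.V) z).1 +
          ((ofSw (C := C.V × D2 true i C.V) z).2.a +
            (swR O (X (inj false i)) : S O) • (ofSw (C := C.V × D2 true i C.V) z).2.b) =
        C.d (ofSw (C := C.V × D2 true i C.V) z).1 +
          ((ofSw (C := C.V × D2 true i C.V) z).2.a +
            (X (inj true i) : S O) • (ofSw (C := C.V × D2 true i C.V) z).2.b)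
      rw [swR_X]; rfl
    · refine Prod.ext rfl (D2.ext ?_ rfl)
      change (swR O (X (inj false (i + 1))) : S O) • (ofSw (C := C.V × D2 true i C.V) z).1 +
          C.d (ofSw (C := C.V × D2 true i C.V) z).2.a =
        (X (inj true (i + 1)) : S O) • (ofSw (C := C.V × D2 true i C.V) z).1 +
          C.d (ofSw (C := C.V × D2 true i C.V) z).2.a
      rw [swR_X]; rfl
  ep _ := rfl

/-- words and the exchange of sides -/
noncomputable def DIso.swFw : (w : List (ℕ × Bool)) → (C : DM O) →
    DIso (CQ.Fw w C).sw (CQ.FwL w C.sw)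
  | [], _ => DIso.refl _
  | a :: w, C => (DIso.swFw w (CQ.F2 true a.1 a.2 C)).trans
      (DIso.FwL w (DIso.swF2 a.1 a.2 C))

/-- the polynomial ring and the exchange of sides -/
noncomputable def DIso.swR0 (s : ℕ) : DIso (R0 O s).sw (R0 O s) where
  e :=
    { toFun := fun z => ofSw z
      map_add' := fun _ _ => rfl
      map_smul' := fun p z => by
        change swR O p • (ofSw z : RS O s) = p • (ofSw z : RS O s)
        rw [RS_smul_def, RS_smul_def, rho_swR]
      invFun := fun z => toSw z
      left_inv := fun _ => rfl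
      right_inv := fun _ => rfl }
  comm _ := rfl
  ep _ := rfl

/-- the value ideal of the reversed word -/
theorem IdW_reverse (P : Pot O) (s : ℕ) (w : List (ℕ × Bool)) (hw : Valid s w) (k : ℕ) :
    IdW P s w.reverse k = IdW P s w k := by
  unfold IdW
  rw [← (DIso.leftRight (O := O) s w hw).Idl_eq P k,
    ← (DIso.FwL (O := O) w (DIso.swR0 s)).Idl_eq P k,
    ← (DIso.swFw (O := O) w (R0 O s)).Idl_eq P k, Idl_sw]

end sw

/-! ## Modules: words of letter bimodules on both sides -/

/-- isomorphisms of bundled modules -/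
abbrev SIso (A B : SM O) : Type := A.V ≃ₗ[S O] B.V

/-- equal modules are isomorphic -/
noncomputable def SIso.ofEq {A B : SM O} (h : A = B) : SIso A B := h ▸ LinearEquiv.refl _ _

/-- functoriality of words of letter bimodules -/
noncomputable def Bw.mapEquiv (t : Bool) : (w : List ℕ) → {C D : SM O} → SIso C D →
    SIso (Bw t w C) (Bw t w D)
  | [], _, _, e => e
  | i :: w, C, D, e => Bw.mapEquiv t w (C := SM.D2 t i C) (D := SM.D2 t i D) (D2.mapEquiv t i e)

theorem Bw.mapEquiv_apply (t : Bool) (w : List ℕ) {C D : SM O} (e : SIso C D)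
    (z : (Bw t w C).V) : Bw.mapEquiv t w e z = Bw.map t w e.toLinearMap z := by
  induction w generalizing C D with
  | nil => rfl
  | cons i w ih => exact ih (C := SM.D2 t i C) (D := SM.D2 t i D) (D2.mapEquiv t i e) z

/-- exchange of two letters with disjoint variables -/
noncomputable def swapE {t : Bool} {i : ℕ} {t' : Bool} {j : ℕ} (h : Mv.FarL t i t' j) (C : SM O) :
    SIso (SM.D2 t i (SM.D2 t' j C)) (SM.D2 t' j (SM.D2 t i C)) :=
  LinearEquiv.ofLinearMap (Mv.swapD (O := O) h C.V) (Mv.swapD (O := O) h.symm C.V)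
    (LinearMap.ext fun z => Mv.swapD_swapD (O := O) h.symm z)
    (LinearMap.ext fun z => Mv.swapD_swapD (O := O) h z)

theorem farL_other (t : Bool) (i j : ℕ) : Mv.FarL t i (!t) j := by
  cases t
  · exact Mv.FarL.left_right i j
  · exact Mv.FarL.right_left i j

/-- a letter of side `t` commutes with a word of the other side -/
noncomputable def bwLetter (t : Bool) (i : ℕ) : (w : List ℕ) → (C : SM O) →
    SIso (SM.D2 t i (Bw (!t) w C)) (Bw (!t) w (SM.D2 t i C))
  | [], _ => LinearEquiv.refl _ _
  | j :: w, C => (bwLetter t i w (SM.D2 (!t) j C)).trans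
      (Bw.mapEquiv (!t) w (swapE (farL_other t i j) C))

/-- words of the two sides commute -/
noncomputable def bwComm (t : Bool) : (u v : List ℕ) → (C : SM O) →
    SIso (Bw t u (Bw (!t) v C)) (Bw (!t) v (Bw t u C))
  | [], _, _ => LinearEquiv.refl _ _
  | i :: u, v, C => (Bw.mapEquiv t u (C := SM.D2 t i (Bw (!t) v C))
      (D := Bw (!t) v (SM.D2 t i C)) (bwLetter t i v C)).trans (bwComm t u v (SM.D2 t i C))

/-- a left letter is a right letter over the polynomial ring -/
noncomputable def lrE (t t' : Bool) (i s : ℕ) (hi : i + 1 < s) :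
    SIso (SM.D2 t i (SM.R O s)) (SM.D2 t' i (SM.R O s)) :=
  LinearEquiv.ofLinearMap (CQ.lr (O := O) t t' i s hi) (CQ.lr (O := O) t' t i s hi)
    (LinearMap.ext fun z => lr_lr (O := O) t' t i s hi z)
    (LinearMap.ext fun z => lr_lr (O := O) t t' i s hi z)

/-- words of left letters and of right letters over the polynomial ring -/
noncomputable def bwLR (s : ℕ) : (v : List ℕ) → (hv : ∀ i ∈ v, i + 1 < s) →
    SIso (Bw false v (SM.R O s)) (Bw true v.reverse (SM.R O s))
  | [], _ => LinearEquiv.refl _ _
  | i :: v, hv =>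
    (Bw.mapEquiv false v (lrE false true i s (hv i List.mem_cons_self))).trans
      ((bwLetter true i v (SM.R O s)).symm.trans
        ((D2.mapEquiv true i (bwLR s v (fun j hj => hv j (List.mem_cons_of_mem _ hj)))).trans
          (SIso.ofEq (A := SM.D2 true i (Bw true v.reverse (SM.R O s)))
            (B := Bw true (i :: v).reverse (SM.R O s))
            (by rw [List.reverse_cons, Bw_append]; rfl))))

/-- words of left letters in reversed order -/
noncomputable def bwLR' (s : ℕ) (v : List ℕ) (hv : ∀ i ∈ v, i + 1 < s) :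
    SIso (Bw false v.reverse (SM.R O s)) (Bw true v (SM.R O s)) :=
  (bwLR s v.reverse (fun i hi => hv i (List.mem_reverse.1 hi))).trans
    (SIso.ofEq (by rw [List.reverse_reverse]))

/-- a word `u` of right letters followed by left letters `v.reverse` -/
noncomputable def bwRot (s : ℕ) (u v : List ℕ) (hv : ∀ i ∈ v, i + 1 < s) :
    SIso (Bw false v.reverse (Bw true u (SM.R O s))) (Bw true (v ++ u) (SM.R O s)) :=
  (bwComm false v.reverse u (SM.R O s)).trans
    ((Bw.mapEquiv true u (C := Bw false v.reverse (SM.R O s)) (D := Bw true v (SM.R O s))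
      (bwLR' s v hv)).trans (SIso.ofEq (by rw [Bw_append])))

end CQ
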