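import Pool.Agent.CQ.Conj
import Pool.Agent.CQ.LeftRight
import Pool.Agent.CQ.Assembly

/-!
# Conjugation and independence of the base point (B9)
-/

set_option autoImplicit false

namespace Pool.Agent.CQ

open _root_.CQ (Pot IdW Valid EPr Fw R0 Fw_append Idl_left Idl_rot)

variable {O : Type} [CommRing O] [CharP O 2] [IsDomain O]

/-- the E-property for all words -/
def EAll (P : Pot O) : Prop :=
  ∀ (s : ℕ) (w : List (ℕ × Bool)) (k : ℕ), Valid s w → k < s → EPr P (Fw w (R0 O s)).V k

theorem IdW_rot {P : Pot O} (hE : EAll P) (s : ℕ) (a : ℕ × Bool) (w : List (ℕ × Bool)) (k : ℕ)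
    (hv : Valid s (a :: w)) (hk : k < s) :
    IdW P s (w ++ [a]) k ≤ IdW P s (a :: w) (Equiv.swap a.1 (a.1 + 1) k) := by
  obtain ⟨i, pos⟩ := a
  have hi : i + 1 < s := hv (i, pos) (by simp)
  have hw : Valid s (w ++ [(i, pos)]) := by
    intro b hb
    rcases List.mem_append.1 hb with h | h
    · exact hv b (List.mem_cons_of_mem _ h)
    · rw [List.mem_singleton] at h
      subst h
      exact hi
  have h1 := hE s _ k hw hk
  rw [← Idl_left P s i pos w _ hi]
  unfold IdW
  rw [Fw_append] at h1 ⊢
  exact Idl_rot P (Fw w (R0 O s)) i pos k h1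

theorem permN_append (u v : List (ℕ × Bool)) : permN (u ++ v) = permN u * permN v := by
  induction u with
  | nil => simp [permN]
  | cons a u ih => rw [List.cons_append, permN, permN, ih, mul_assoc]

theorem permN_lt {s : ℕ} {w : List (ℕ × Bool)} (hw : Valid s w) {k : ℕ} (hk : k < s) :
    permN w k < s := by
  induction w with
  | nil => exact hk
  | cons a w ih =>
    rw [permN, Equiv.Perm.mul_apply]
    have h1 := ih (fun b hb => hw b (List.mem_cons_of_mem _ hb))
    have h2 := hw a (by simp)
    generalize permN w k = m at h1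
    rw [Equiv.swap_apply_def]
    split_ifs <;> omega

theorem valid_append {s : ℕ} {u v : List (ℕ × Bool)} (hu : Valid s u) (hv : Valid s v) :
    Valid s (u ++ v) := by
  intro b hb
  rcases List.mem_append.1 hb with h | h
  · exact hu b h
  · exact hv b h

theorem IdW_rots {P : Pot O} (hE : EAll P) (s : ℕ) (v : List (ℕ × Bool)) :
    ∀ (u : List (ℕ × Bool)) (k : ℕ), Valid s u → Valid s v → k < s →
      IdW P s (u ++ v) k ≤ IdW P s (v ++ u) (permN v k) := by
  induction v using List.reverseRecOn with
  | nil => intro u k _ _ _; simp [permN]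
  | append_singleton v a ih =>
    intro u k hu hv hk
    have hv' : Valid s v := fun b hb => hv b (List.mem_append_left _ hb)
    have ha : Valid s [a] := fun b hb => hv b (List.mem_append_right _ hb)
    have h1 := IdW_rot hE s a (u ++ v) k
      (by
        have := valid_append ha (valid_append hu hv')
        simpa using this) hk
    have h2 : Equiv.swap a.1 (a.1 + 1) k < s := by
      have := permN_lt ha hk
      simpa [permN] using this
    have h3 := ih ([a] ++ u) (Equiv.swap a.1 (a.1 + 1) k) (valid_append ha hu) hv' h2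
    have e1 : u ++ (v ++ [a]) = u ++ v ++ [a] := by simp
    have e2 : (a :: (u ++ v)) = [a] ++ u ++ v := by simp
    have e3 : v ++ [a] ++ u = v ++ ([a] ++ u) := by simp
    have e4 : permN (v ++ [a]) k = permN v (Equiv.swap a.1 (a.1 + 1) k) := by
      rw [permN_append, Equiv.Perm.mul_apply]
      simp [permN]
    rw [e1, e3, e4]
    rw [e2] at h1
    exact h1.trans h3

theorem IdW_iter {P : Pot O} (hE : EAll P) (s : ℕ) (w : List (ℕ × Bool)) (hw : Valid s w)
    (n : ℕ) : ∀ k, k < s → IdW P s w k ≤ IdW P s w ((permN w)^[n] k) := by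
  induction n with
  | zero => intro k _; exact le_rfl
  | succ n ih =>
    intro k hk
    have h1 := IdW_rots hE s w [] k (by intro b hb; simp at hb) hw hk
    rw [List.nil_append, List.append_nil] at h1
    rw [Function.iterate_succ_apply]
    exact h1.trans (ih _ (permN_lt hw hk))

theorem permN_periodic {s : ℕ} {w : List (ℕ × Bool)} (hw : Valid s w) {k : ℕ} (hk : k < s) :
    ∃ n, (permN w)^[n + 1] k = k := by
  have h1 : ∀ n, (permN w)^[n] k ∈ Set.Iio s := by
    intro n
    induction n with
    | zero => exact hk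
    | succ n ih =>
      rw [Function.iterate_succ_apply']
      exact permN_lt hw ih
  obtain ⟨a, b, hab, h2⟩ := Set.Finite.exists_lt_map_eq_of_forall_mem h1 (Set.finite_Iio s)
  obtain ⟨n, rfl⟩ := Nat.exists_eq_add_of_lt hab
  refine ⟨n, ?_⟩
  have h3 : (permN w)^[a] ((permN w)^[n + 1] k) = (permN w)^[a] k := by
    rw [← Function.iterate_add_apply, h2]
    rfl
  exact (Equiv.injective (permN w)).iterate a h3

/-- the value ideal is constant along the orbits of the strand permutation -/
theorem IdW_perm {P : Pot O} (hE : EAll P) (s : ℕ) (w : List (ℕ × Bool)) (hw : Valid s w)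
    (k : ℕ) (hk : k < s) (n : ℕ) : IdW P s w k = IdW P s w ((permN w)^[n] k) := by
  have key : ∀ k, k < s → IdW P s w k = IdW P s w (permN w k) := by
    intro k hk
    refine le_antisymm (IdW_iter hE s w hw 1 k hk) ?_
    obtain ⟨n, hn⟩ := permN_periodic hw hk
    have := IdW_iter hE s w hw n (permN w k) (permN_lt hw hk)
    rwa [← Function.iterate_succ_apply, hn] at this
  induction n with
  | zero => rfl
  | succ n ih =>
    rw [Function.iterate_succ_apply', ih]
    apply key
    clear ih
    induction n with
    | zero => exact hk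
    | succ n ih =>
      rw [Function.iterate_succ_apply']
      exact permN_lt hw ih

/-- the field `conj` of `BlockOut` -/
theorem IdW_conj {P : Pot O} (hE : EAll P) (s : ℕ) (a : ℕ × Bool) (w : List (ℕ × Bool)) (k : ℕ)
    (hv : Valid s (a :: w)) (hk : k < s) :
    IdW P s (w ++ [a]) k = IdW P s (a :: w) (Equiv.swap a.1 (a.1 + 1) k) := by
  refine le_antisymm (IdW_rot hE s a w k hv hk) ?_
  have ha : Valid s [a] := fun b hb => hv b (by
    rw [List.mem_singleton] at hb; subst hb; simp)
  have hw : Valid s w := fun b hb => hv b (List.mem_cons_of_mem _ hb)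
  have h2 : Equiv.swap a.1 (a.1 + 1) k < s := by
    have := permN_lt ha hk
    simpa [permN] using this
  have h1 := IdW_rots hE s w [a] (Equiv.swap a.1 (a.1 + 1) k) ha hw h2
  have e4 : permN (w ++ [a]) k = permN w (Equiv.swap a.1 (a.1 + 1) k) := by
    rw [permN_append, Equiv.Perm.mul_apply]
    simp [permN]
  rw [← e4] at h1
  have h3 := IdW_perm hE s (w ++ [a]) (valid_append hw ha) k hk 1
  rw [h3]
  exact h1

/-- the field `knot` of `BlockOut` -/
theorem IdW_knot {P : Pot O} (hE : EAll P) (s : ℕ) (w : List (ℕ × Bool)) (k k' : ℕ)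
    (hw : Valid s w) (hK : KnotN s w) (hk : k < s) (hk' : k' < s) :
    IdW P s w k = IdW P s w k' := by
  obtain ⟨z, hz⟩ := hK k k' hk hk'
  have key : ∀ (n : ℕ) (j : ℕ), (permN w ^ n) j = (permN w)^[n] j := by
    intro n
    induction n with
    | zero => intro j; rfl
    | succ n ih =>
      intro j
      rw [pow_succ, Equiv.Perm.mul_apply, ih, Function.iterate_succ_apply]
  rcases z with n | n
  · have h1 := IdW_perm hE s w hw k hk n
    rw [h1, ← key, ← hz]
    rfl
  · have h1 := IdW_perm hE s w hw k' hk' (n + 1)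
    rw [h1, ← key, ← hz, zpow_negSucc, ← Equiv.Perm.mul_apply, mul_inv_cancel, Equiv.Perm.one_apply]

end Pool.Agent.CQ
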