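import Pool.Agent.CQ.Rot

/-!
# Far letters commute; the context principle
-/

set_option autoImplicit false
set_option linter.unusedSectionVars false
set_option linter.unusedSimpArgs false
set_option linter.unusedVariables false

namespace CQ

open MvPolynomial

variable {O : Type} [CommRing O] [CharP O 2]

/-- the letters `(t,i)` and `(t',j)` use different variables -/
def FarI (t : Bool) (i : ℕ) (t' : Bool) (j : ℕ) : Prop := t ≠ t' ∨ i + 1 < j ∨ j + 1 < i

theorem FarI.symm {t : Bool} {i : ℕ} {t' : Bool} {j : ℕ} (h : FarI t i t' j) : FarI t' j t i := by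
  rcases h with h | h | h
  · exact Or.inl (Ne.symm h)
  · exact Or.inr (Or.inr h)
  · exact Or.inr (Or.inl h)

theorem FarI.ne {t : Bool} {i : ℕ} {t' : Bool} {j : ℕ} (h : FarI t i t' j) :
    inj t i ≠ inj t' j ∧ inj t i ≠ inj t' (j + 1) ∧ inj t (i + 1) ≠ inj t' j ∧
      inj t (i + 1) ≠ inj t' (j + 1) := by
  rcases h with h | h
  · have hne : ∀ a b, inj t a ≠ inj t' b := by
      intro a b; cases t <;> cases t' <;> simp_all
    exact ⟨hne _ _, hne _ _, hne _ _, hne _ _⟩
  · by_cases ht : t = t'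
    · subst ht
      refine ⟨?_, ?_, ?_, ?_⟩ <;> (intro e; have := inj_injective t e; omega)
    · have hne : ∀ a b, inj t a ≠ inj t' b := by
        intro a b; cases t <;> cases t' <;> simp_all
      exact ⟨hne _ _, hne _ _, hne _ _, hne _ _⟩

theorem farN (t : Bool) (i j : ℕ) : FarI t i (!t) j := Or.inl (by cases t <;> simp)
theorem farN' (t : Bool) (i j : ℕ) : FarI (!t) j t i := Or.inl (by cases t <;> simp)

section
variable {t : Bool} {i : ℕ} {t' : Bool} {j : ℕ} {C : Type} [AddCommGroup C] [Module (S O) C]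

theorem e1_far_a (h : FarI t i t' j) (w : D2 t' j C) : (e1 O t i • w).a = e1 O t i • w.a := by
  obtain ⟨h1, h2, h3, h4⟩ := h.ne
  rw [e1_def, add_smul, add_smul, D2.add_a, D2.X_smul_a_of_ne _ h1 h2, D2.X_smul_a_of_ne _ h3 h4]
theorem e1_far_b (h : FarI t i t' j) (w : D2 t' j C) : (e1 O t i • w).b = e1 O t i • w.b := by
  obtain ⟨h1, h2, h3, h4⟩ := h.ne
  rw [e1_def, add_smul, add_smul, D2.add_b, D2.X_smul_b_of_ne _ h1 h2, D2.X_smul_b_of_ne _ h3 h4]
theorem e2_far_a (h : FarI t i t' j) (w : D2 t' j C) : (e2 O t i • w).a = e2 O t i • w.a := by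
  obtain ⟨h1, h2, h3, h4⟩ := h.ne
  rw [e2_def, mul_smul, mul_smul, D2.X_smul_a_of_ne _ h1 h2, D2.X_smul_a_of_ne _ h3 h4]
theorem e2_far_b (h : FarI t i t' j) (w : D2 t' j C) : (e2 O t i • w).b = e2 O t i • w.b := by
  obtain ⟨h1, h2, h3, h4⟩ := h.ne
  rw [e2_def, mul_smul, mul_smul, D2.X_smul_b_of_ne _ h1 h2, D2.X_smul_b_of_ne _ h3 h4]

/-- exchange of two letters which use different variables -/
noncomputable def swapD (h : FarI t i t' j) :
    D2 t i (D2 t' j C) →ₗ[S O] D2 t' j (D2 t i C) :=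
  mkLin
    { toFun := fun z => ⟨⟨z.a.a, z.b.a⟩, ⟨z.a.b, z.b.b⟩⟩
      map_zero' := by ext <;> simp
      map_add' := fun v w => by ext <;> simp }
    (fun o z => by
      simp only [AddMonoidHom.coe_mk, ZeroHom.coe_mk]
      ext <;> simp)
    (fun s z => by
      obtain ⟨h1, h2, h3, h4⟩ := h.ne
      simp only [AddMonoidHom.coe_mk, ZeroHom.coe_mk]
      by_cases s1 : s = inj t i
      · subst s1
        ext
        · rw [D2.X_smul_a_of_ne _ h1 h2, D2.X_smul_i_a, D2.X_smul_i_a, e2_far_a h]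
        · rw [D2.X_smul_a_of_ne _ h1 h2, D2.X_smul_i_b, D2.X_smul_i_b, D2.add_a, e1_far_a h]
        · rw [D2.X_smul_b_of_ne _ h1 h2, D2.X_smul_i_a, D2.X_smul_i_a, e2_far_b h]
        · rw [D2.X_smul_b_of_ne _ h1 h2, D2.X_smul_i_b, D2.X_smul_i_b, D2.add_b, e1_far_b h]
      by_cases s2 : s = inj t (i + 1)
      · subst s2
        ext
        · rw [D2.X_smul_a_of_ne _ h3 h4, D2.X_smul_succ_a, D2.X_smul_succ_a, D2.add_a,
            e2_far_a h, e1_far_a h]
        · rw [D2.X_smul_a_of_ne _ h3 h4, D2.X_smul_succ_b, D2.X_smul_succ_b]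
        · rw [D2.X_smul_b_of_ne _ h3 h4, D2.X_smul_succ_a, D2.X_smul_succ_a, D2.add_b,
            e2_far_b h, e1_far_b h]
        · rw [D2.X_smul_b_of_ne _ h3 h4, D2.X_smul_succ_b, D2.X_smul_succ_b]
      by_cases s3 : s = inj t' j
      · subst s3
        have g := h.symm
        ext
        · rw [D2.X_smul_i_a, D2.X_smul_a_of_ne _ (Ne.symm h1) (Ne.symm h3), D2.X_smul_i_a,
            e2_far_a g]
        · rw [D2.X_smul_i_a, D2.X_smul_b_of_ne _ (Ne.symm h1) (Ne.symm h3), D2.X_smul_i_a,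
            e2_far_b g]
        · rw [D2.X_smul_i_b, D2.X_smul_a_of_ne _ (Ne.symm h1) (Ne.symm h3), D2.X_smul_i_b,
            D2.add_a, e1_far_a g]
        · rw [D2.X_smul_i_b, D2.X_smul_b_of_ne _ (Ne.symm h1) (Ne.symm h3), D2.X_smul_i_b,
            D2.add_b, e1_far_b g]
      by_cases s4 : s = inj t' (j + 1)
      · subst s4
        have g := h.symm
        ext
        · rw [D2.X_smul_succ_a, D2.X_smul_a_of_ne _ (Ne.symm h2) (Ne.symm h4), D2.X_smul_succ_a,
            D2.add_a, e2_far_a g, e1_far_a g]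
        · rw [D2.X_smul_succ_a, D2.X_smul_b_of_ne _ (Ne.symm h2) (Ne.symm h4), D2.X_smul_succ_a,
            D2.add_b, e2_far_b g, e1_far_b g]
        · rw [D2.X_smul_succ_b, D2.X_smul_a_of_ne _ (Ne.symm h2) (Ne.symm h4), D2.X_smul_succ_b]
        · rw [D2.X_smul_succ_b, D2.X_smul_b_of_ne _ (Ne.symm h2) (Ne.symm h4), D2.X_smul_succ_b]
      ext
      · rw [D2.X_smul_a_of_ne _ s3 s4, D2.X_smul_a_of_ne _ s1 s2, D2.X_smul_a_of_ne _ s1 s2,
          D2.X_smul_a_of_ne _ s3 s4]
      · rw [D2.X_smul_a_of_ne _ s3 s4, D2.X_smul_b_of_ne _ s1 s2, D2.X_smul_b_of_ne _ s1 s2,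
          D2.X_smul_a_of_ne _ s3 s4]
      · rw [D2.X_smul_b_of_ne _ s3 s4, D2.X_smul_a_of_ne _ s1 s2, D2.X_smul_a_of_ne _ s1 s2,
          D2.X_smul_b_of_ne _ s3 s4]
      · rw [D2.X_smul_b_of_ne _ s3 s4, D2.X_smul_b_of_ne _ s1 s2, D2.X_smul_b_of_ne _ s1 s2,
          D2.X_smul_b_of_ne _ s3 s4])

theorem swapD_apply (h : FarI t i t' j) (z : D2 t i (D2 t' j C)) :
    swapD (O := O) h z = ⟨⟨z.a.a, z.b.a⟩, ⟨z.a.b, z.b.b⟩⟩ := rfl

@[simp] theorem swapD_aa (h : FarI t i t' j) (z : D2 t i (D2 t' j C)) :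
    (swapD (O := O) h z).a.a = z.a.a := rfl
@[simp] theorem swapD_ab (h : FarI t i t' j) (z : D2 t i (D2 t' j C)) :
    (swapD (O := O) h z).a.b = z.b.a := rfl
@[simp] theorem swapD_ba (h : FarI t i t' j) (z : D2 t i (D2 t' j C)) :
    (swapD (O := O) h z).b.a = z.a.b := rfl
@[simp] theorem swapD_bb (h : FarI t i t' j) (z : D2 t i (D2 t' j C)) :
    (swapD (O := O) h z).b.b = z.b.b := rfl

/-- the exchange is its own inverse -/
theorem swapD_swapD (h : FarI t i t' j) (z : D2 t i (D2 t' j C)) :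
    swapD (O := O) h.symm (swapD (O := O) h z) = z := by ext <;> simp

/-- naturality of the exchange -/
theorem swapD_nat {D : Type} [AddCommGroup D] [Module (S O) D] (h : FarI t i t' j)
    (g : C →ₗ[S O] D) (z : D2 t i (D2 t' j C)) :
    swapD (O := O) h (D2.map (D2.map g) z) = D2.map (D2.map g) (swapD (O := O) h z) := by
  ext <;> simp

/-- exchange with zip -/
theorem swapD_zip (h : FarI t i t' j) (z : D2 t i C) :
    swapD (O := O) h (D2.map (zip O t' j) z) = zip O t' j z := by
  obtain ⟨h1, h2, h3, h4⟩ := h.symm.ne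
  ext <;> simp [D2.X_smul_a_of_ne _ h3 h4, D2.X_smul_b_of_ne _ h3 h4]

/-- exchange with unzip -/
theorem unzip_swapD (h : FarI t i t' j) (z : D2 t i (D2 t' j C)) :
    unzip O t' j (swapD (O := O) h z) = D2.map (unzip O t' j) z := by
  obtain ⟨h1, h2, h3, h4⟩ := h.symm.ne
  ext <;> simp [unzip_apply, D2.X_smul_a_of_ne _ h1 h2, D2.X_smul_b_of_ne _ h1 h2]

end

/-! ## Transport of `HH` and `NN` -/

section
variable {C D E : Type} [AddCommGroup C] [Module (S O) C] [AddCommGroup D] [Module (S O) D]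
  [AddCommGroup E] [Module (S O) E]

end

/-! ## Contexts with the outermost letter first -/

/-- words of letter bimodules, the first letter of the list is the outermost -/
noncomputable def Cw (t : Bool) : List ℕ → SM O → SM O
  | [], C => C
  | i :: w, C => SM.D2 t i (Cw t w C)

/-- functoriality -/
noncomputable def Cw.map (t : Bool) : (w : List ℕ) → {C D : SM O} → (C.V →ₗ[S O] D.V) →
    ((Cw t w C).V →ₗ[S O] (Cw t w D).V)
  | [], _, _, f => f
  | _ :: w, _, _, f => CQ.D2.map (Cw.map t w f)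

/-- a right letter can be moved out of a left context -/
noncomputable def thetaC (t : Bool) (i : ℕ) : (v : List ℕ) → {C : SM O} →
    ((Cw (!t) v (SM.D2 t i C)).V →ₗ[S O] (SM.D2 t i (Cw (!t) v C)).V)
  | [], _ => LinearMap.id
  | j :: v, C => (swapD (O := O) (C := (Cw (!t) v C).V) (farN' t i j)) ∘ₗ CQ.D2.map (thetaC t i v (C := C))

/-- and back -/
noncomputable def thetaC' (t : Bool) (i : ℕ) : (v : List ℕ) → {C : SM O} →
    ((SM.D2 t i (Cw (!t) v C)).V →ₗ[S O] (Cw (!t) v (SM.D2 t i C)).V)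
  | [], _ => LinearMap.id
  | j :: v, C => CQ.D2.map (thetaC' t i v (C := C)) ∘ₗ
      (swapD (O := O) (C := (Cw (!t) v C).V) (farN t i j))

theorem thetaC'_thetaC (t : Bool) (i : ℕ) (v : List ℕ) {C : SM O}
    (z : (Cw (!t) v (SM.D2 t i C)).V) : thetaC' t i v (thetaC t i v z) = z := by
  induction v with
  | nil => rfl
  | cons j v ih =>
    have e1 := swapD_swapD (O := O) (farN' t i j) (CQ.D2.map (t := !t) (i := j) (thetaC t i v (C := C)) z)
    exact (congrArg (CQ.D2.map (thetaC' t i v)) e1).trans (D2.ext (ih _) (ih _))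

theorem thetaC_nat (t : Bool) (i : ℕ) (v : List ℕ) {C D : SM O} (g : C.V →ₗ[S O] D.V)
    (z : (Cw (!t) v (SM.D2 t i C)).V) :
    thetaC t i v (Cw.map (!t) v (C := SM.D2 t i C) (D := SM.D2 t i D) (CQ.D2.map g) z) =
      CQ.D2.map (Cw.map (!t) v g) (thetaC t i v z) := by
  induction v with
  | nil => rfl
  | cons j v ih =>
    have e1 : CQ.D2.map (t := !t) (i := j) (thetaC t i v (C := D)) (CQ.D2.map (t := !t) (i := j)
        (Cw.map (!t) v (C := SM.D2 t i C) (D := SM.D2 t i D) (CQ.D2.map g)) z) =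
        CQ.D2.map (CQ.D2.map (Cw.map (!t) v g)) (CQ.D2.map (thetaC t i v (C := C)) z) :=
      D2.ext (ih _) (ih _)
    have e2 := swapD_nat (O := O) (farN' t i j) (Cw.map (!t) v g)
      (CQ.D2.map (t := !t) (i := j) (thetaC t i v (C := C)) z)
    exact (congrArg (swapD (O := O) (farN' t i j)) e1).trans e2

theorem thetaC_thetaC' (t : Bool) (i : ℕ) (v : List ℕ) {C : SM O}
    (z : (SM.D2 t i (Cw (!t) v C)).V) : thetaC t i v (thetaC' t i v z) = z := by
  induction v with
  | nil => rfl
  | cons j v ih =>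
    have h1 : CQ.D2.map (t := !t) (i := j) (thetaC t i v (C := C))
        (CQ.D2.map (t := !t) (i := j) (thetaC' t i v (C := C))
        (swapD (O := O) (C := (Cw (!t) v C).V) (farN t i j) z)) =
        swapD (O := O) (C := (Cw (!t) v C).V) (farN t i j) z :=
      D2.ext (ih _) (ih _)
    exact (congrArg (swapD (O := O) (farN' t i j)) h1).trans
      (swapD_swapD (O := O) (C := (Cw (!t) v C).V) (farN t i j) z)

/-! ## The context principle -/

section
variable [IsDomain O]

/-- negligible in every left context implies negligible in every right context -/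
theorem ctxNeg_of_left {P : Pot O} {C D : SM O} (g : C.V →ₗ[S O] D.V)
    (h : ∀ v, NegMap P (Cw.map false v g)) : CtxNeg P g := by
  intro w
  induction w generalizing C D with
  | nil => exact h []
  | cons i w ih =>
    refine ih (C := SM.D2 true i C) (D := SM.D2 true i D) (CQ.D2.map g) ?_
    intro v
    have h1 : NegMap P (CQ.D2.map (t := false) (i := i) (Cw.map false v g)) := h (i :: v)
    have h2 := (negMap_rot P (Cw.map false v g)).2 h1
    have h3 : Cw.map false v (C := SM.D2 true i C) (D := SM.D2 true i D) (CQ.D2.map g) =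
        (thetaC' true i v (C := D)) ∘ₗ (CQ.D2.map (t := true) (i := i) (Cw.map false v g)) ∘ₗ
          (thetaC true i v (C := C)) := by
      apply LinearMap.ext
      intro z
      have h4 := thetaC_nat true i v g z
      have h5 := thetaC'_thetaC true i v (C := D)
        (Cw.map (!true) v (C := SM.D2 true i C) (D := SM.D2 true i D) (CQ.D2.map g) z)
      exact h5.symm.trans (congrArg (thetaC' true i v (C := D)) h4)
    rw [h3]
    exact (h2.comp_right _).comp_left _

end

/-! ## Scalars which use only the variables of the other side -/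

/-- `s` acts diagonally on all `D2 t i C` -/
def Other (O : Type) [CommRing O] [CharP O 2] (t : Bool) (s : S O) : Prop :=
  ∀ (i : ℕ) (C : Type) [AddCommGroup C] [Module (S O) C] (z : D2 t i C),
    s • z = ⟨s • z.a, s • z.b⟩

theorem Other.X (t : Bool) (j : ℕ) : Other O t (X (inj (!t) j)) := by
  intro i C _ _ z
  ext
  · rw [D2.X_smul_a_of_ne _ (inj_ne_not t j i) (inj_ne_not t j (i + 1))]
  · rw [D2.X_smul_b_of_ne _ (inj_ne_not t j i) (inj_ne_not t j (i + 1))]

theorem Other.C (t : Bool) (o : O) : Other O t (MvPolynomial.C o) := by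
  intro i C _ _ z
  ext <;> simp

theorem Other.add {t : Bool} {s s' : S O} (h : Other O t s) (h' : Other O t s') :
    Other O t (s + s') := by
  intro i C _ _ z
  rw [add_smul, h, h']
  ext <;> simp [add_smul]

theorem Other.mul {t : Bool} {s s' : S O} (h : Other O t s) (h' : Other O t s') :
    Other O t (s * s') := by
  intro i C _ _ z
  rw [mul_smul, h', h]
  ext <;> simp [mul_smul]

/-- `h(X_i, X_{i+1})` on side `t` -/
noncomputable def hS (P : Pot O) (t : Bool) (i : ℕ) : S O :=
  P.h (X (inj t i) : S O) (X (inj t (i + 1)))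

theorem Other.hS (P : Pot O) (t : Bool) (i : ℕ) : Other O t (hS P (!t) i) := by
  have hx := Other.X (O := O) t i
  have hy := Other.X (O := O) t (i + 1)
  have e : CQ.hS P (!t) i = (MvPolynomial.X (inj (!t) i)) * MvPolynomial.X (inj (!t) i) +
      MvPolynomial.X (inj (!t) i) * MvPolynomial.X (inj (!t) (i + 1)) +
      MvPolynomial.X (inj (!t) (i + 1)) * MvPolynomial.X (inj (!t) (i + 1)) +
      MvPolynomial.C P.ka * (MvPolynomial.X (inj (!t) i) + MvPolynomial.X (inj (!t) (i + 1))) +
      MvPolynomial.C P.ta := by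
    unfold CQ.hS Pot.h
    rw [MvPolynomial.algebraMap_eq]
    ring
  rw [e]
  exact ((((hx.mul hx).add (hx.mul hy)).add (hy.mul hy)).add
    ((Other.C t P.ka).mul (hx.add hy))).add (Other.C t P.ta)

theorem D2.map_smul_other {t : Bool} {s : S O} (h : Other O t s) {i : ℕ} {C D : Type}
    [AddCommGroup C] [Module (S O) C] [AddCommGroup D] [Module (S O) D] (f : C →ₗ[S O] D) :
    D2.map (t := t) (i := i) (s • f) = s • D2.map f := by
  apply LinearMap.ext
  intro z
  rw [LinearMap.smul_apply, h]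
  rfl

theorem Cw.map_smul_other {t : Bool} {s : S O} (h : Other O t s) (v : List ℕ) {C D : SM O}
    (f : C.V →ₗ[S O] D.V) : Cw.map t v (s • f) = s • Cw.map t v f := by
  induction v with
  | nil => rfl
  | cons j v ih =>
    change CQ.D2.map (Cw.map t v (s • f)) = s • CQ.D2.map (Cw.map t v f)
    rw [ih]
    exact D2.map_smul_other h _

theorem thetaC_zip (t : Bool) (i : ℕ) (v : List ℕ) {C : SM O} (z : (Cw (!t) v C).V) :
    thetaC t i v (Cw.map (!t) v (C := C) (D := SM.D2 t i C) (zip O t i) z) = zip O t i z := by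
  induction v with
  | nil => rfl
  | cons j v ih =>
    have e1 : CQ.D2.map (t := !t) (i := j) (thetaC t i v (C := C)) (CQ.D2.map (t := !t) (i := j)
        (Cw.map (!t) v (C := C) (D := SM.D2 t i C) (zip O t i)) z) =
        CQ.D2.map (zip O t i) z := D2.ext (ih _) (ih _)
    have e2 := swapD_zip (O := O) (C := (Cw (!t) v C).V) (farN' t i j) z
    exact (congrArg (swapD (O := O) (farN' t i j)) e1).trans e2

theorem unzip_thetaC (t : Bool) (i : ℕ) (v : List ℕ) {C : SM O}
    (z : (Cw (!t) v (SM.D2 t i C)).V) :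
    unzip O t i (thetaC t i v z) =
      Cw.map (!t) v (C := SM.D2 t i C) (D := C) (unzip O t i) z := by
  induction v with
  | nil => rfl
  | cons j v ih =>
    have e1 := unzip_swapD (O := O) (C := (Cw (!t) v C).V) (farN' t i j)
      (CQ.D2.map (t := !t) (i := j) (thetaC t i v (C := C)) z)
    have e2 : CQ.D2.map (t := !t) (i := j) (unzip O t i)
        (CQ.D2.map (t := !t) (i := j) (thetaC t i v (C := C)) z) =
        CQ.D2.map (Cw.map (!t) v (C := SM.D2 t i C) (D := C) (unzip O t i)) z :=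
      D2.ext (ih _) (ih _)
    exact e1.trans e2

/-! ## Lemma V and the vanishing of `h • zip`, `h • unzip` -/

theorem Pot.h_root (P : Pot O) {a b : O} (ha : P.IsRoot a) (hb : P.IsRoot b) (hab : a ≠ b) :
    P.h a b = 0 := by
  have h2 : (2 : O) = 0 := two0 O
  unfold Pot.h Pot.ka Pot.ta
  simp only [Algebra.algebraMap_self, RingHom.id_apply]
  rcases ha with rfl | rfl | rfl <;> rcases hb with rfl | rfl | rfl
  · exact absurd rfl hab
  · linear_combination (P.l2 ^ 2 + P.l2 * P.l3) * h2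
  · linear_combination (P.l3 ^ 2 + P.l2 * P.l3) * h2
  · linear_combination (P.l2 ^ 2 + P.l2 * P.l3) * h2
  · exact absurd rfl hab
  · linear_combination (P.l2 ^ 2 + P.l3 ^ 2 + 2 * P.l2 * P.l3) * h2
  · linear_combination (P.l3 ^ 2 + P.l2 * P.l3) * h2
  · linear_combination (P.l2 ^ 2 + P.l3 ^ 2 + 2 * P.l2 * P.l3) * h2
  · exact absurd rfl hab

theorem ev_hS (P : Pot O) (t : Bool) (i : ℕ) (c : ℕ → O) : ev c (hS P t i) = P.h (c i) (c (i + 1)) := by
  unfold hS Pot.h
  rw [MvPolynomial.algebraMap_eq]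
  simp only [map_add, map_mul, map_pow, ev_inj, ev_C, Algebra.algebraMap_self, RingHom.id_apply]

/-- Lemma V -/
theorem lemmaV {t : Bool} {i : ℕ} {C : Type} [AddCommGroup C] [Module (S O) C] (c : ℕ → O)
    (ψ : D2 t i C →ₛₗ[ev c] O) {z : D2 t i C} (hz : z ∈ HH O (D2 t i C)) :
    ψ z = (c i + c (i + 1)) * resEig c ψ z.b := by
  rw [psi_eq c ψ z, (mem_HH_D2.1 hz).2,
    resEig_X c ψ _ z.b (inj_ne_not t _ _) (inj_ne_not t _ _), colT_inj_not]
  ring

theorem lemmaV_zero {t : Bool} {i : ℕ} {C : Type} [AddCommGroup C] [Module (S O) C] (c : ℕ → O)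
    (hc : c i = c (i + 1)) (ψ : D2 t i C →ₛₗ[ev c] O) {z : D2 t i C}
    (hz : z ∈ HH O (D2 t i C)) : ψ z = 0 := by
  rw [lemmaV c ψ hz, hc]
  have h2 : (2 : O) = 0 := two0 O
  linear_combination (c (i + 1) * resEig c ψ z.b) * h2

theorem negMap_h_zip (P : Pot O) (t : Bool) (i : ℕ) (C : Type) [AddCommGroup C]
    [Module (S O) C] : NegMap P (hS P t i • (zip O t i : C →ₗ[S O] D2 t i C)) := by
  intro z hz c hc ψ
  rw [LinearMap.smul_apply, map_smulₛₗ, ev_hS, smul_eq_mul]
  by_cases h : c i = c (i + 1)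
  · rw [lemmaV_zero c h ψ (map_mem_HH _ hz), mul_zero]
  · rw [P.h_root (hc i) (hc (i + 1)) h, zero_mul]

theorem negMap_h_unzip (P : Pot O) (t : Bool) (i : ℕ) (C : Type) [AddCommGroup C]
    [Module (S O) C] : NegMap P (hS P t i • (unzip O t i : D2 t i C →ₗ[S O] C)) := by
  intro z hz c hc ψ
  rw [LinearMap.smul_apply, map_smulₛₗ, ev_hS, smul_eq_mul]
  by_cases h : c i = c (i + 1)
  · have := lemmaV_zero c h (ψ.comp (unzip O t i)) hz
    rw [LinearMap.comp_apply] at this
    rw [this, mul_zero]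
  · rw [P.h_root (hc i) (hc (i + 1)) h, zero_mul]

section
variable [IsDomain O]

/-- B6 -/
theorem ctxNeg_h_zip (P : Pot O) (i : ℕ) (C : SM O) :
    CtxNeg P (C := C) (D := SM.D2 true i C)
      (hS P true i • (zip O true i : C.V →ₗ[S O] D2 true i C.V)) := by
  refine ctxNeg_of_left (C := C) (D := SM.D2 true i C) _ ?_
  intro v
  have h1 := negMap_h_zip P true i (Cw false v C).V
  have h3 : Cw.map false v (C := C) (D := SM.D2 true i C)
      (hS P true i • (zip O true i : C.V →ₗ[S O] D2 true i C.V)) =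
      (thetaC' true i v (C := C)) ∘ₗ
        (hS P true i • (zip O true i : (Cw false v C).V →ₗ[S O] D2 true i (Cw false v C).V)) := by
    have h0 := Cw.map_smul_other (Other.hS P false i) v (C := C) (D := SM.D2 true i C)
      (zip O true i)
    refine h0.trans (LinearMap.ext fun z => ?_)
    have h4 := thetaC_zip true i v (C := C) z
    have h5 := thetaC'_thetaC true i v (C := C)
      (Cw.map (!true) v (C := C) (D := SM.D2 true i C) (zip O true i) z)
    have h6 := (congrArg (thetaC' true i v (C := C)) h4).symm.trans h5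
    have h7 := map_smul (thetaC' true i v (C := C)) (hS P true i) (zip O true i z)
    exact ((h7.trans (congrArg (fun y => hS P true i • y) h6))).symm
  rw [h3]
  exact h1.comp_left _

theorem ctxNeg_h_unzip (P : Pot O) (i : ℕ) (C : SM O) :
    CtxNeg P (C := SM.D2 true i C) (D := C)
      (hS P true i • (unzip O true i : D2 true i C.V →ₗ[S O] C.V)) := by
  refine ctxNeg_of_left (C := SM.D2 true i C) (D := C) _ ?_
  intro v
  have h1 := negMap_h_unzip P true i (Cw false v C).V
  have h3 : Cw.map false v (C := SM.D2 true i C) (D := C)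
      (hS P true i • (unzip O true i : D2 true i C.V →ₗ[S O] C.V)) =
        (hS P true i • (unzip O true i : D2 true i (Cw false v C).V →ₗ[S O] (Cw false v C).V)) ∘ₗ
        (thetaC true i v (C := C)) := by
    have h0 := Cw.map_smul_other (Other.hS P false i) v (C := SM.D2 true i C) (D := C)
      (unzip O true i)
    refine h0.trans (LinearMap.ext fun z => ?_)
    have h4 := unzip_thetaC true i v (C := C) z
    exact congrArg (fun y => hS P true i • y) h4.symm
  rw [h3]
  exact h1.comp_right _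

end

end CQ
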