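import Pool.Agent.CQ.Product
import Pool.Agent.CQ.Ctx

/-!
# Block F: null homotopies along a strand, canonical cycle, insertion of letters, residue
-/

set_option autoImplicit false
set_option linter.unusedSectionVars false
set_option linter.unusedSimpArgs false

namespace CQ.Hm

open MvPolynomial
open Pool.Agent.CQ (permN KnotN)

variable {O : Type} [CommRing O] [CharP O 2]

/-! ## F1: homotopies -/

/-- multiplication by `y_j` as a linear map -/
noncomputable def yL (j : ℕ) (C : DM O) : C.V →ₗ[S O] C.V := yv O j • LinearMap.id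

/-- `old y_{i+1} = new y_i + zip unzip`, in the form of the identity on `D2` -/
theorem zip_unzip_i (i : ℕ) {C : Type} [AddCommGroup C] [Module (S O) C] (z : D2 true i C) :
    zip O true i (unzip O true i z) =
      D2.map (yv O (i + 1) • (LinearMap.id : C →ₗ[S O] C)) z + yv O i • z := by
  have e : (yv O i : S O) = X (inj true i) := rfl
  ext
  · rw [D2.add_a, D2.map_a, e, D2.X_smul_i_a, zip_a, unzip_apply]
    simp only [LinearMap.smul_apply, LinearMap.id_apply, e2_def, inj_true]
    module
  · rw [D2.add_b, D2.map_b, e, D2.X_smul_i_b, zip_b, unzip_apply]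
    simp only [LinearMap.smul_apply, LinearMap.id_apply, e1_def, inj_true]
    (match_scalars <;> (rw [← sub_eq_zero]; ring_nf <;>
      simp only [two0, three1, four0, five1, six0, seven1, eight0, mul_zero, zero_mul,
        add_zero, zero_add, neg_zero, sub_zero, sub_self, mul_one]))

theorem zip_unzip_succ (i : ℕ) {C : Type} [AddCommGroup C] [Module (S O) C] (z : D2 true i C) :
    zip O true i (unzip O true i z) =
      D2.map (yv O i • (LinearMap.id : C →ₗ[S O] C)) z + yv O (i + 1) • z := by
  have e : (yv O (i + 1) : S O) = X (inj true (i + 1)) := rfl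
  ext
  · rw [D2.add_a, D2.map_a, e, D2.X_smul_succ_a, zip_a, unzip_apply]
    simp only [LinearMap.smul_apply, LinearMap.id_apply, e1_def, e2_def, inj_true]
    (match_scalars <;> (rw [← sub_eq_zero]; ring_nf <;>
      simp only [two0, three1, four0, five1, six0, seven1, eight0, mul_zero, zero_mul,
        add_zero, zero_add, neg_zero, sub_zero, sub_self, mul_one]))
  · rw [D2.add_b, D2.map_b, e, D2.X_smul_succ_b, zip_b, unzip_apply]
    simp only [LinearMap.smul_apply, LinearMap.id_apply, inj_true]
    (match_scalars <;> (rw [← sub_eq_zero]; ring_nf <;>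
      simp only [two0, three1, four0, five1, six0, seven1, eight0, mul_zero, zero_mul,
        add_zero, zero_add, neg_zero, sub_zero, sub_self, mul_one]))

theorem unzip_zip (i : ℕ) {C : Type} [AddCommGroup C] [Module (S O) C] (v : C) :
    unzip O true i (zip O true i v) = yv O i • v + yv O (i + 1) • v := by
  rw [unzip_apply, zip_a, zip_b]
  simp only [inj_true]
  abel

/-- the basic homotopy at a crossing -/
noncomputable def H0 (i : ℕ) (pos : Bool) (C : DM O) :
    (F2 true i pos C).V →ₗ[S O] (F2 true i pos C).V :=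
  if pos then LinearMap.inl (S O) C.V (D2 true i C.V) ∘ₗ unzip O true i ∘ₗ
      LinearMap.snd (S O) C.V (D2 true i C.V)
    else LinearMap.inr (S O) C.V (D2 true i C.V) ∘ₗ zip O true i ∘ₗ
      LinearMap.fst (S O) C.V (D2 true i C.V)

theorem H0_bracket (i : ℕ) (pos : Bool) (C : DM O) :
    (F2 true i pos C).d ∘ₗ H0 i pos C + H0 i pos C ∘ₗ (F2 true i pos C).d =
      LinearMap.prodMap (unzip O true i ∘ₗ zip O true i) (zip O true i ∘ₗ unzip O true i) := by
  apply LinearMap.ext; intro z
  cases pos
  · refine Prod.ext ?_ ?_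
    · change (C.d 0 + unzip O true i (zip O true i z.1)) + 0 = _
      rw [_root_.map_zero, zero_add, add_zero]; rfl
    · change D2.map C.d (zip O true i z.1) + zip O true i (C.d z.1 + unzip O true i z.2) = _
      rw [_root_.map_add, ← zip_nat]
      have := add_self_mod (O := O) (zip O true i (C.d z.1))
      rw [← add_assoc, this, zero_add]; rfl
  · refine Prod.ext ?_ ?_
    · change C.d (unzip O true i z.2) + unzip O true i (zip O true i z.1 + D2.map C.d z.2) = _
      rw [_root_.map_add, unzip_nat]
      have := add_self_mod (O := O) (C.d (unzip O true i z.2))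
      calc _ = (C.d (unzip O true i z.2) + C.d (unzip O true i z.2)) +
            unzip O true i (zip O true i z.1) := by abel
        _ = _ := by rw [this, zero_add]; rfl
    · change (zip O true i (unzip O true i z.2) + D2.map C.d 0) + 0 = _
      rw [_root_.map_zero, add_zero, add_zero]; rfl

/-- F1 for one letter: the old variable `y_{s m}` and the new variable `y_m` are homotopic -/
theorem homotopy_letter (i : ℕ) (pos : Bool) (C : DM O) (m : ℕ) :
    ∃ H : (F2 true i pos C).V →ₗ[S O] (F2 true i pos C).V,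
      (F2 true i pos C).d ∘ₗ H + H ∘ₗ (F2 true i pos C).d =
        F2.map true i pos (yL (Equiv.swap i (i + 1) m) C) + yL m (F2 true i pos C) := by
  by_cases h1 : m = i
  · subst h1
    rw [Equiv.swap_apply_left]
    refine ⟨H0 m pos C, ?_⟩
    rw [H0_bracket]
    apply LinearMap.ext; intro z
    refine Prod.ext ?_ ?_
    · change unzip O true m (zip O true m z.1) = yv O (m + 1) • z.1 + yv O m • z.1
      rw [unzip_zip, add_comm]
    · change zip O true m (unzip O true m z.2) = _
      exact zip_unzip_i m z.2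
  · by_cases h2 : m = i + 1
    · subst h2
      rw [Equiv.swap_apply_right]
      refine ⟨H0 i pos C, ?_⟩
      rw [H0_bracket]
      apply LinearMap.ext; intro z
      refine Prod.ext ?_ ?_
      · change unzip O true i (zip O true i z.1) = yv O i • z.1 + yv O (i + 1) • z.1
        rw [unzip_zip]
      · change zip O true i (unzip O true i z.2) = _
        exact zip_unzip_succ i z.2
    · rw [Equiv.swap_apply_of_ne_of_ne h1 h2]
      refine ⟨0, ?_⟩
      have hs : (Sum.inr m : ℕ ⊕ ℕ) ≠ inj true i := by simpa using h1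
      have hs' : (Sum.inr m : ℕ ⊕ ℕ) ≠ inj true (i + 1) := by simpa using h2
      have e : F2.map true i pos (yL m C) = yL m (F2 true i pos C) := by
        apply LinearMap.ext; intro z
        refine Prod.ext rfl ?_
        change D2.map (yv O m • (LinearMap.id : C.V →ₗ[S O] C.V)) z.2 = yv O m • z.2
        ext
        · rw [D2.map_a, D2.X_smul_a_of_ne _ hs hs']; rfl
        · rw [D2.map_b, D2.X_smul_b_of_ne _ hs hs']; rfl
      rw [e]
      apply LinearMap.ext; intro z
      change (F2 true i pos C).d 0 + 0 = yL m (F2 true i pos C) z + yL m (F2 true i pos C) z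
      rw [_root_.map_zero, add_zero]
      exact (add_self_mod (O := O) _).symm

/-- F1 -/
theorem homotopy_word (w : List (ℕ × Bool)) (C : DM O) (m : ℕ) :
    ∃ H : (Fw w C).V →ₗ[S O] (Fw w C).V,
      (Fw w C).d ∘ₗ H + H ∘ₗ (Fw w C).d =
        Fw.map w (yL (permN w m) C) + yL m (Fw w C) := by
  induction w generalizing C with
  | nil =>
    refine ⟨0, ?_⟩
    apply LinearMap.ext; intro z
    change C.d 0 + 0 = yL m C z + yL m C z
    rw [_root_.map_zero, add_zero]
    exact (add_self_mod (O := O) (C := C.V) _).symm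
  | cons a w ih =>
    obtain ⟨H', hH'⟩ := ih (F2 true a.1 a.2 C)
    obtain ⟨H1, hH1⟩ := homotopy_letter a.1 a.2 C (permN w m)
    refine ⟨H' + Fw.map w H1, ?_⟩
    have e1 := Fw.map_bracket w H1
    rw [hH1, Fw.map_add] at e1
    change (Fw w (F2 true a.1 a.2 C)).d ∘ₗ (H' + Fw.map w H1) +
      (H' + Fw.map w H1) ∘ₗ (Fw w (F2 true a.1 a.2 C)).d =
      Fw.map w (F2.map true a.1 a.2 (yL (permN (a :: w) m) C)) + yL m (Fw w (F2 true a.1 a.2 C))
    apply LinearMap.ext; intro z
    have h1 := LinearMap.congr_fun hH' z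
    have h2 := LinearMap.congr_fun e1 z
    simp only [LinearMap.add_apply, LinearMap.comp_apply, _root_.map_add] at h1 h2 ⊢
    have h3 := add_self_mod (O := O)
      (Fw.map w (yL (permN w m) (F2 true a.1 a.2 C)) z)
    calc _ = ((Fw w (F2 true a.1 a.2 C)).d (H' z) + H' ((Fw w (F2 true a.1 a.2 C)).d z)) +
          ((Fw w (F2 true a.1 a.2 C)).d (Fw.map w H1 z) +
            Fw.map w H1 ((Fw w (F2 true a.1 a.2 C)).d z)) := by abel
      _ = (Fw.map w (yL (permN w m) (F2 true a.1 a.2 C)) z + yL m (Fw w (F2 true a.1 a.2 C)) z) +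
          (Fw.map w (F2.map true a.1 a.2
            (yL (Equiv.swap a.1 (a.1 + 1) (permN w m)) C)) z +
            Fw.map w (yL (permN w m) (F2 true a.1 a.2 C)) z) := by rw [h1, h2]
      _ = Fw.map w (F2.map true a.1 a.2 (yL (Equiv.swap a.1 (a.1 + 1) (permN w m)) C)) z +
          yL m (Fw w (F2 true a.1 a.2 C)) z +
          (Fw.map w (yL (permN w m) (F2 true a.1 a.2 C)) z +
            Fw.map w (yL (permN w m) (F2 true a.1 a.2 C)) z) := by abel
      _ = _ := by rw [h3, add_zero]; rfl

theorem RS_xy (s j : ℕ) (f : RS O s) : xv O j • f = yv O j • f := G.mem_HH_RS s f j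

/-- F1 on the closed word: `x_{π m} + x_m` is null homotopic on Hochschild elements -/
theorem homotopy_base (s : ℕ) (w : List (ℕ × Bool)) (m : ℕ) :
    ∃ H : (Fw w (R0 O s)).V →ₗ[S O] (Fw w (R0 O s)).V, ∀ z ∈ HH O (Fw w (R0 O s)).V,
      (Fw w (R0 O s)).d (H z) + H ((Fw w (R0 O s)).d z) =
        xv O (permN w m) • z + xv O m • z := by
  obtain ⟨H, hH⟩ := homotopy_word w (R0 O s) m
  refine ⟨H, fun z hz => ?_⟩
  have h1 := LinearMap.congr_fun hH z
  have e : yL (permN w m) (R0 O s) = xv O (permN w m) • (LinearMap.id : (R0 O s).V →ₗ[S O] _) := by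
    apply LinearMap.ext; intro f
    exact (RS_xy s _ f).symm
  rw [e, Fw.map_xv] at h1
  refine h1.trans ?_
  change xv O (permN w m) • z + yv O m • z = _
  rw [← hz m]

/-- F2 -/
theorem cycle_strands (P : Pot O) (s : ℕ) (w : List (ℕ × Bool)) (hk : KnotN s w) (k : ℕ)
    (hks : k < s)
    (z : (Fw w (R0 O s)).V) (hz : z ∈ HH O (Fw w (R0 O s)).V) (u : (Fw w (R0 O s)).V)
    (hu : u ∈ HH O (Fw w (R0 O s)).V)
    (h : (Fw w (R0 O s)).d z + xv O k • u ∈ NN P (Fw w (R0 O s)).V) (j : ℕ) (hj : j < s) :
    ∃ a ∈ HH O (Fw w (R0 O s)).V, ∃ b ∈ HH O (Fw w (R0 O s)).V,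
      xv O j • z + xv O k • a + (Fw w (R0 O s)).d b ∈ NN P (Fw w (R0 O s)).V := by
  have step : ∀ m x y : ℕ, (x = permN w m ∧ y = m ∨ x = m ∧ y = permN w m) →
      (∃ a ∈ HH O (Fw w (R0 O s)).V, ∃ b ∈ HH O (Fw w (R0 O s)).V, xv O x • z + xv O k • a + (Fw w (R0 O s)).d b ∈ NN P (Fw w (R0 O s)).V) →
      ∃ a ∈ HH O (Fw w (R0 O s)).V, ∃ b ∈ HH O (Fw w (R0 O s)).V, xv O y • z + xv O k • a + (Fw w (R0 O s)).d b ∈ NN P (Fw w (R0 O s)).V := by
    rintro m x y hxy ⟨a, ha, b, hb, hab⟩
    obtain ⟨H, hH⟩ := homotopy_base s w m (O := O)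
    have h1 := hH z hz
    have h2 : H ((Fw w (R0 O s)).d z + xv O k • u) ∈ NN P (Fw w (R0 O s)).V := map_mem_NN H h
    refine ⟨a + H u, add_mem ha (map_mem_HH H hu), b + H z, add_mem hb (map_mem_HH H hz), ?_⟩
    have h3 : xv O y • z + xv O k • (a + H u) + (Fw w (R0 O s)).d (b + H z) =
        (xv O x • z + xv O k • a + (Fw w (R0 O s)).d b) + H ((Fw w (R0 O s)).d z + xv O k • u) := by
      rw [_root_.map_add, _root_.map_add, map_smul, smul_add]
      have h4 : (Fw w (R0 O s)).d (H z) = xv O x • z + xv O y • z + H ((Fw w (R0 O s)).d z) := by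
        have h5 := add_self_mod (O := O) (H ((Fw w (R0 O s)).d z))
        calc (Fw w (R0 O s)).d (H z) = ((Fw w (R0 O s)).d (H z) + H ((Fw w (R0 O s)).d z)) + H ((Fw w (R0 O s)).d z) := by rw [add_assoc, h5, add_zero]
          _ = _ := by
            rw [h1]
            rcases hxy with ⟨h7, h8⟩ | ⟨h7, h8⟩
            · rw [h7, h8]
            · rw [h7, h8, add_comm (xv O (permN w m) • z)]
      rw [h4]
      have h6 := add_self_mod (O := O) (xv O y • z)
      calc _ = (xv O y • z + xv O y • z) + (xv O x • z + xv O k • a + (Fw w (R0 O s)).d b) +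
            (H ((Fw w (R0 O s)).d z) + xv O k • H u) := by abel
        _ = _ := by rw [h6, zero_add]
    rw [h3]
    exact add_mem hab h2
  obtain ⟨n, hn⟩ := hk k j hks hj
  have key : ∀ n : ℤ, ∃ a ∈ HH O (Fw w (R0 O s)).V, ∃ b ∈ HH O (Fw w (R0 O s)).V,
      xv O ((permN w ^ n) k) • z + xv O k • a + (Fw w (R0 O s)).d b ∈ NN P (Fw w (R0 O s)).V := by
    intro n
    induction n using Int.induction_on with
    | zero =>
      refine ⟨z, hz, 0, zero_mem _, ?_⟩
      rw [zpow_zero, Equiv.Perm.one_apply, add_self_mod (O := O), _root_.map_zero, add_zero]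
      exact zero_mem _
    | succ n ih =>
      refine step ((permN w ^ (n : ℤ)) k) ((permN w ^ (n : ℤ)) k) _ (Or.inr ⟨rfl, ?_⟩) ih
      rw [add_comm, zpow_add, zpow_one, Equiv.Perm.mul_apply]
    | pred n ih =>
      refine step ((permN w ^ (-(n : ℤ) - 1)) k) ((permN w ^ (-(n : ℤ))) k) _
        (Or.inl ⟨?_, rfl⟩) ih
      rw [← Equiv.Perm.mul_apply, ← zpow_one_add]
      congr 2; ring_nf
  have := key n
  rw [hn] at this
  exact this

/-! ## F3: the canonical cycle -/

/-- a good element: a cycle modulo `x_k` after every extension by a letter -/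
structure Good (P : Pot O) (s k : ℕ) (C : DM O) (c : C.V) : Prop where
  mem : c ∈ HH O C.V
  dz : ∃ u ∈ HH O C.V, C.d c + xv O k • u ∈ NN P C.V
  zp : ∀ i, i + 1 < s → ∃ u ∈ HH O (D2 true i C.V),
    zip O true i c + xv O k • u ∈ NN P (D2 true i C.V)

theorem Good.F2 {P : Pot O} {s k : ℕ} {C : DM O} {c : C.V} (h : Good P s k C c) (i : ℕ)
    (pos : Bool) (hi : i + 1 < s) :
    Good P s k (F2 true i pos C) ((c, (0 : D2 true i C.V)) : C.V × D2 true i C.V) := by
  have hmap : ∀ {D : Type} [AddCommGroup D] [Module (S O) D] {E : Type} [AddCommGroup E]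
      [Module (S O) E] (f : D →ₗ[S O] E) (v : D),
      (∃ u ∈ HH O D, v + xv O k • u ∈ NN P D) → ∃ u ∈ HH O E, f v + xv O k • u ∈ NN P E := by
    rintro D _ _ E _ _ f v ⟨u, hu, h⟩
    refine ⟨f u, map_mem_HH f hu, ?_⟩
    have := map_mem_NN f h
    rwa [_root_.map_add, map_smul] at this
  have hadd : ∀ {D : Type} [AddCommGroup D] [Module (S O) D] (v w : D),
      (∃ u ∈ HH O D, v + xv O k • u ∈ NN P D) → (∃ u ∈ HH O D, w + xv O k • u ∈ NN P D) →
      ∃ u ∈ HH O D, (v + w) + xv O k • u ∈ NN P D := by
    rintro D _ _ v w ⟨u, hu, h⟩ ⟨u', hu', h'⟩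
    refine ⟨u + u', add_mem hu hu', ?_⟩
    have : v + w + xv O k • (u + u') = (v + xv O k • u) + (w + xv O k • u') := by
      rw [smul_add]; abel
    rw [this]; exact add_mem h h'
  refine ⟨map_mem_HH (LinearMap.inl (S O) C.V (D2 true i C.V)) h.mem, ?_, ?_⟩
  · cases pos
    · have h1 := hmap (LinearMap.inl (S O) C.V (D2 true i C.V)) _ h.dz
      have e : (CQ.F2 true i false C).d ((c, (0 : D2 true i C.V)) : C.V × D2 true i C.V) =
          LinearMap.inl (S O) C.V (D2 true i C.V) (C.d c) := by
        refine Prod.ext ?_ ?_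
        · change C.d c + unzip O true i 0 = C.d c
          rw [_root_.map_zero, add_zero]
        · change D2.map C.d 0 = 0
          rw [_root_.map_zero]
      rw [e]; exact h1
    · have h1 := hmap (LinearMap.inl (S O) C.V (D2 true i C.V)) _ h.dz
      have h2 := hmap (LinearMap.inr (S O) C.V (D2 true i C.V)) _ (h.zp i hi)
      have e : (CQ.F2 true i true C).d ((c, (0 : D2 true i C.V)) : C.V × D2 true i C.V) =
          LinearMap.inl (S O) C.V (D2 true i C.V) (C.d c) +
            LinearMap.inr (S O) C.V (D2 true i C.V) (zip O true i c) := by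
        refine Prod.ext ?_ ?_
        · change C.d c = C.d c + 0
          rw [add_zero]
        · change zip O true i c + D2.map C.d 0 = 0 + zip O true i c
          rw [_root_.map_zero, add_zero, zero_add]
      rw [e]; exact hadd _ _ h1 h2
  · intro j hj
    have h1 := hmap (D2.map (t := true) (i := j) (LinearMap.inl (S O) C.V (D2 true i C.V))) _
      (h.zp j hj)
    rw [← zip_nat] at h1
    exact h1

/-- the inclusion of the all-resolved vertex -/
noncomputable def iota : (w : List (ℕ × Bool)) → (C : DM O) → C.V → (Fw w C).V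
  | [], _, c => c
  | a :: w, C, c => iota w (F2 true a.1 a.2 C) ((c, (0 : D2 true a.1 C.V)) : C.V × D2 true a.1 C.V)

theorem iota_good {P : Pot O} {s k : ℕ} (w : List (ℕ × Bool)) (hw : Valid s w) {C : DM O}
    {c : C.V} (h : Good P s k C c) : Good P s k (Fw w C) (iota w C c) := by
  induction w generalizing C with
  | nil => exact h
  | cons a w ih =>
    exact ih (fun b hb => hw b (List.mem_cons_of_mem _ hb)) (h.F2 a.1 a.2 (hw a List.mem_cons_self))

theorem iota_ep (w : List (ℕ × Bool)) {C : DM O} (c : C.V) :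
    (Fw w C).ep (iota w C c) = C.ep c := by
  induction w generalizing C with
  | nil => rfl
  | cons a w ih => exact ih _

/-- in `O[X]`-modules: `h(x,y) = q(y) + x (x + y + κ)` -/
theorem h_eq_q (P : Pot O) (a b : S O) :
    P.q b = P.h a b + a * (a + b + MvPolynomial.C P.ka) := by
  unfold Pot.q Pot.h
  rw [MvPolynomial.algebraMap_eq]
  rw [← sub_eq_zero]; ring_nf
  simp only [two0, mul_zero, add_zero, neg_zero, sub_zero, zero_add, sub_self]

theorem h_symm (P : Pot O) (a b : S O) : P.h a b = P.h b a := by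
  unfold Pot.h; ring

/-- `p(x_j)` is negligible on Hochschild elements -/
theorem p_smul_mem_NN (P : Pot O) {C : Type} [AddCommGroup C] [Module (S O) C] (j : ℕ) (z : C) :
    (xv O j * P.q (xv O j : S O)) • z ∈ NN P C := by
  intro c hc ψ
  rw [map_smulₛₗ]
  have h1 : ev c (xv O j * P.q (xv O j : S O)) = c j * (c j ^ 2 + P.ka * c j + P.ta) := by
    unfold Pot.q
    rw [MvPolynomial.algebraMap_eq]
    simp only [_root_.map_mul, _root_.map_add, map_pow, ev_inl, ev_C]
  have h2 : c j * (c j ^ 2 + P.ka * c j + P.ta) = 0 := by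
    unfold Pot.ka Pot.ta
    have h2 : (2 : O) = 0 := two0 O
    rcases hc j with h | h | h <;> rw [h]
    · ring
    · linear_combination (P.l2 ^ 3 + P.l2 ^ 2 * P.l3) * h2
    · linear_combination (P.l3 ^ 3 + P.l3 ^ 2 * P.l2) * h2
  rw [h1, h2]; simp


/-- product of the `q(x_i)`, `i < s`, `i ≠ k` -/
noncomputable def Qk (P : Pot O) (s k : ℕ) : S O :=
  ∏ i ∈ (Finset.range s).erase k, P.q (xv O i : S O)

theorem Qk_split (P : Pot O) {s k i : ℕ} (hi : i < s) (hik : i ≠ k) :
    Qk P s k = P.q (xv O i : S O) *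
      ∏ j ∈ ((Finset.range s).erase k).erase i, P.q (xv O j : S O) := by
  unfold Qk
  exact (Finset.mul_prod_erase _ (fun j => P.q (xv O j : S O)) (by simp [hi, hik])).symm

theorem hS_smul_HH (P : Pot O) {C : Type} [AddCommGroup C] [Module (S O) C] (i : ℕ) {z : C}
    (hz : z ∈ HH O C) :
    P.h (xv O i : S O) (xv O (i + 1)) • z = hS P true i • z := by
  have hx : ∀ j (v : C), v ∈ HH O C → xv O j • v = yv O j • v := fun j v hv => hv j
  have e1' := hx i z hz
  have e2' := hx (i + 1) z hz
  have e3 := hx i (xv O i • z) (Submodule.smul_mem _ _ hz)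
  have e4 := hx i (xv O (i + 1) • z) (Submodule.smul_mem _ _ hz)
  have e5 := hx (i + 1) (xv O (i + 1) • z) (Submodule.smul_mem _ _ hz)
  unfold hS Pot.h
  simp only [inj_true]
  have a1 : (xv O i ^ 2) • z = (yv O i ^ 2) • z := by
    rw [pow_two, pow_two, mul_smul, e3, e1', ← mul_smul]
  have a2 : (xv O i * xv O (i + 1)) • z = (yv O i * yv O (i + 1)) • z := by
    rw [mul_smul, e4, e2', ← mul_smul]
  have a3 : (xv O (i + 1) ^ 2) • z = (yv O (i + 1) ^ 2) • z := by
    rw [pow_two, pow_two, mul_smul, e5, e2', ← mul_smul]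
  simp only [add_smul, mul_add, a1, a2, a3, mul_smul, e1', e2']

theorem base_good (P : Pot O) (s k : ℕ) (hk : k < s) :
    Good P s k (R0 O s) (Qk P s k • (1 : RS O s)) := by
  refine ⟨G.mem_HH_RS s _, ⟨0, zero_mem _, ?_⟩, ?_⟩
  · change (0 : RS O s) + xv O k • (0 : RS O s) ∈ NN P (RS O s)
    rw [smul_zero, add_zero]; exact zero_mem _
  · intro i hi
    have h1 : (1 : RS O s) ∈ HH O (RS O s) := G.mem_HH_RS s _
    have hz1 : zip O true i (1 : RS O s) ∈ HH O (D2 true i (RS O s)) := map_mem_HH _ h1
    change ∃ u ∈ HH O (D2 true i (RS O s)), zip O true i (Qk P s k • (1 : RS O s)) +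
      xv O k • u ∈ NN P (D2 true i (RS O s))
    rw [map_smul]
    have hN : ∀ p : S O, (P.h (xv O i : S O) (xv O (i + 1)) * p) • zip O true i (1 : RS O s) ∈
        NN P (D2 true i (RS O s)) := by
      intro p
      rw [mul_comm, mul_smul, hS_smul_HH P i hz1]
      refine Submodule.smul_mem _ _ ?_
      exact negMap_h_zip P true i (RS O s) 1 h1
    by_cases hk1 : k = i
    · -- q(x_{i+1}) = h + x_i (...)
      subst hk1
      rw [Qk_split P hi (by omega : k + 1 ≠ k)]
      set Q' := ∏ j ∈ ((Finset.range s).erase k).erase (k + 1), P.q (xv O j : S O) with hQ'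
      refine ⟨((xv O k + xv O (k + 1) + MvPolynomial.C P.ka) * Q') • zip O true k (1 : RS O s),
        Submodule.smul_mem _ _ hz1, ?_⟩
      have e : (P.q (xv O (k + 1) : S O) * Q') • zip O true k (1 : RS O s) +
          xv O k • ((xv O k + xv O (k + 1) + MvPolynomial.C P.ka) * Q') •
            zip O true k (1 : RS O s) =
          (P.h (xv O k : S O) (xv O (k + 1)) * Q') • zip O true k (1 : RS O s) := by
        rw [h_eq_q P (xv O k) (xv O (k + 1)), ← mul_smul, ← add_smul]
        have hr : ∀ h x m Q : S O, (h + x * m) * Q + x * (m * Q) = h * Q := by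
          intro h x m Q
          linear_combination (x * m * Q) * two0 (S O)
        rw [hr]
      rw [e]; exact hN _
    · have hik : i ≠ k := fun h => hk1 h.symm
      rw [Qk_split P (by omega : i < s) hik]
      set Q' := ∏ j ∈ ((Finset.range s).erase k).erase i, P.q (xv O j : S O) with hQ'
      have e0 : P.q (xv O i : S O) = P.h (xv O i : S O) (xv O (i + 1)) +
          xv O (i + 1) * (xv O i + xv O (i + 1) + MvPolynomial.C P.ka) := by
        rw [h_eq_q P (xv O (i + 1)) (xv O i), h_symm P (xv O (i + 1)) (xv O i)]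
        ring
      by_cases hk2 : k = i + 1
      · subst hk2
        refine ⟨((xv O i + xv O (i + 1) + MvPolynomial.C P.ka) * Q') • zip O true i (1 : RS O s),
          Submodule.smul_mem _ _ hz1, ?_⟩
        have e : (P.q (xv O i : S O) * Q') • zip O true i (1 : RS O s) +
            xv O (i + 1) • ((xv O i + xv O (i + 1) + MvPolynomial.C P.ka) * Q') •
              zip O true i (1 : RS O s) =
            (P.h (xv O i : S O) (xv O (i + 1)) * Q') • zip O true i (1 : RS O s) := by
          rw [e0, ← mul_smul, ← add_smul]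
          have hr : ∀ h x m Q : S O, (h + x * m) * Q + x * (m * Q) = h * Q := by
            intro h x m Q
            linear_combination (x * m * Q) * two0 (S O)
          rw [hr]
        rw [e]; exact hN _
      · refine ⟨0, zero_mem _, ?_⟩
        rw [smul_zero, add_zero]
        -- a second factor `q(x_{i+1})`
        have hQ2 : Q' = P.q (xv O (i + 1) : S O) *
            ∏ j ∈ (((Finset.range s).erase k).erase i).erase (i + 1), P.q (xv O j : S O) := by
          rw [hQ']
          refine (Finset.mul_prod_erase _ (fun j => P.q (xv O j : S O)) ?_).symm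
          simp only [Finset.mem_erase, Finset.mem_range]
          omega
        set Q2 := ∏ j ∈ (((Finset.range s).erase k).erase i).erase (i + 1),
          P.q (xv O j : S O) with hQ2'
        have e : (P.q (xv O i : S O) * Q') • zip O true i (1 : RS O s) =
            (P.h (xv O i : S O) (xv O (i + 1)) * Q') • zip O true i (1 : RS O s) +
            (xv O (i + 1) * P.q (xv O (i + 1) : S O)) •
              ((xv O i + xv O (i + 1) + MvPolynomial.C P.ka) * Q2) •
                zip O true i (1 : RS O s) := by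
          have hr : ∀ h x m q Q : S O, (h + x * m) * (q * Q) = h * (q * Q) + (x * q) * (m * Q) := by
            intro h x m q Q; ring
          rw [e0, hQ2, hr, add_smul, mul_smul (xv O (i + 1) * P.q (xv O (i + 1) : S O))]
        rw [e]
        exact add_mem (hN _) (p_smul_mem_NN P (i + 1) _)

/-- F3: the field `canon` -/
theorem IdW_canon (P : Pot O) (s : ℕ) (w : List (ℕ × Bool)) (k : ℕ) (hw : Valid (s + 1) w)
    (hk : k < s + 1) : P.ta ^ s ∈ IdW P (s + 1) w k := by
  have hg := iota_good (P := P) w hw (base_good P (s + 1) k hk)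
  obtain ⟨u, hu, h⟩ := hg.dz
  refine ⟨_, hg.mem, u, hu, h, ?_⟩
  refine (iota_ep w (C := R0 O (s + 1)) _).trans ?_
  refine (map_smulₛₗ (R0 O (s + 1)).ep (Qk P (s + 1) k) (1 : RS O (s + 1))).trans ?_
  have h1 : MvPolynomial.eval (0 : Fin (s + 1) → O) (1 : MvPolynomial (Fin (s + 1)) O) = 1 :=
    map_one _
  refine (congrArg (fun x => ev (0 : ℕ → O) (Qk P (s + 1) k) • x) h1).trans ?_
  rw [smul_eq_mul, mul_one]
  unfold Qk
  rw [_root_.map_prod]
  have h2 : ∀ i ∈ (Finset.range (s + 1)).erase k,
      ev (0 : ℕ → O) (P.q (xv O i : S O)) = P.ta := by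
    intro i _
    unfold Pot.q
    rw [MvPolynomial.algebraMap_eq]
    simp only [_root_.map_mul, _root_.map_add, map_pow, ev_inl, ev_C]
    simp
  rw [Finset.prod_congr rfl h2, Finset.prod_const, Finset.card_erase_of_mem (by simpa using hk)]
  simp

/-! ## F5: unlink -/

theorem IdW_unlink (P : Pot O) (s k : ℕ) : 1 ∈ IdW P s [] k := by
  refine ⟨(1 : RS O s), G.mem_HH_RS s _, (0 : RS O s), zero_mem _, ?_, ?_⟩
  · change (0 : RS O s) + xv O k • (0 : RS O s) ∈ NN P (RS O s)
    rw [smul_zero, add_zero]; exact zero_mem _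
  · change MvPolynomial.eval (0 : Fin s → O) (1 : MvPolynomial (Fin s) O) = 1
    simp

/-! ## F4: insertion of letters -/

theorem IdW_ins_neg (P : Pot O) (s : ℕ) (u v : List (ℕ × Bool)) (i k : ℕ) (x : O)
    (hx : x ∈ IdW P s (u ++ v) k) : x ∈ IdW P s (u ++ (i, false) :: v) k := by
  unfold IdW at *
  rw [Fw_append] at hx ⊢
  set C := Fw u (R0 O s)
  have hf : TChain P (C := C) (D := F2 true i false C)
      (LinearMap.inl (S O) C.V (D2 true i C.V)) := by
    refine TChain.of_comm (D := F2 true i false C) (fun z => ?_)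
    refine Prod.ext ?_ ?_
    · change C.d z + unzip O true i 0 = C.d z
      rw [_root_.map_zero, add_zero]
    · change D2.map C.d 0 = 0
      rw [_root_.map_zero]
  exact hf.Idl_Fw_le (D := F2 true i false C) (fun z _ => rfl) v k hx

/-- the inclusion of the resolved vertex -/
noncomputable def inlF (i : ℕ) (pos : Bool) (C : DM O) : C.V →ₗ[S O] (F2 true i pos C).V :=
  LinearMap.inl (S O) C.V (D2 true i C.V)

/-- the inclusion of the singular vertex -/
noncomputable def inrF (i : ℕ) (pos : Bool) (C : DM O) :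
    D2 true i C.V →ₗ[S O] (F2 true i pos C).V :=
  LinearMap.inr (S O) C.V (D2 true i C.V)

theorem IdW_ins_pos [IsDomain O] (P : Pot O) (s : ℕ) (u v : List (ℕ × Bool)) (i k : ℕ) (x : O)
    (hx : x ∈ IdW P s (u ++ v) k) : P.ta * x ∈ IdW P s (u ++ (i, true) :: v) k := by
  unfold IdW at *
  rw [Fw_append] at hx ⊢
  set C := Fw u (R0 O s)
  have hf : TChain P (C := C) (D := F2 true i true C)
      (inlF i true C ∘ₗ (hS P true i • LinearMap.id)) := by
    unfold TChain
    have e : (F2 true i true C).d ∘ₗ (inlF i true C ∘ₗ (hS P true i • LinearMap.id)) +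
        (inlF i true C ∘ₗ (hS P true i • LinearMap.id)) ∘ₗ C.d =
        inrF i true C ∘ₗ (hS P true i • (zip O true i : C.V →ₗ[S O] D2 true i C.V)) := by
      apply LinearMap.ext; intro z
      refine Prod.ext ?_ ?_
      · change C.d (hS P true i • z) + hS P true i • C.d z = 0
        rw [map_smul]; exact add_self_mod (O := O) _
      · change (zip O true i (hS P true i • z) + D2.map C.d 0) + 0 = hS P true i • zip O true i z
        rw [_root_.map_zero, add_zero, add_zero, map_smul]
    rw [e]
    exact CtxNeg.comp_left (C := C.toSM) (D := SM.D2 true i C.toSM)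
      (E := (F2 true i true C).toSM) (ctxNeg_h_zip P i C.toSM) (inrF i true C)
  refine hf.Idl_Fw_mul_le (D := F2 true i true C) P.ta (fun z hz => ?_) v k hx
  change C.ep (hS P true i • z) = P.ta * C.ep z
  rw [map_smulₛₗ, ev_hS, smul_eq_mul]
  congr 1
  unfold Pot.h
  simp

/-! ## F6: residue -/

/-- A polynomial in `n` variables with coefficients in `O` which vanishes at all colourings except
possibly `0` has constant term divisible by `τ^n`. -/
theorem residue_aux [IsDomain O] (P : Pot O) (n : ℕ) (f : MvPolynomial (Fin n) O)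
    (hf : ∀ c : Fin n → O, (∀ j, P.IsRoot (c j)) → c ≠ 0 → MvPolynomial.eval c f = 0) :
    P.ta ^ n ∣ MvPolynomial.eval (0 : Fin n → O) f := by
  induction n with
  | zero => simp
  | succ n ih =>
    set G : Polynomial (MvPolynomial (Fin n) O) := MvPolynomial.finSuccEquiv O n f with hG
    set M : Polynomial (MvPolynomial (Fin n) O) :=
      (Polynomial.X - Polynomial.C (MvPolynomial.C P.l2)) *
        (Polynomial.X - Polynomial.C (MvPolynomial.C P.l3)) with hM
    have hmonic : M.Monic := (Polynomial.monic_X_sub_C _).mul (Polynomial.monic_X_sub_C _)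
    have hev : ∀ (c' : Fin n → O) (l : O), MvPolynomial.eval (Fin.cons l c' : Fin (n + 1) → O) f =
        Polynomial.eval l (Polynomial.map (MvPolynomial.eval c') G) := fun c' l => by
      rw [hG]; exact MvPolynomial.eval_eq_eval_mv_eval' c' l f
    have hdiv := Polynomial.modByMonic_add_div G M
    set R := G %ₘ M with hR
    set Q := G /ₘ M with hQ
    have hdeg : R.degree < 2 := by
      have := Polynomial.degree_modByMonic_lt G hmonic
      rw [hM, Polynomial.degree_mul, Polynomial.degree_X_sub_C, Polynomial.degree_X_sub_C] at this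
      exact this
    obtain ⟨a, b, hab⟩ : ∃ a b : MvPolynomial (Fin n) O, R = Polynomial.C a * Polynomial.X +
        Polynomial.C b := by
      have h1 : R.natDegree ≤ 1 := by
        by_cases h0 : R = 0
        · rw [h0]; simp
        · rw [Polynomial.degree_eq_natDegree h0] at hdeg
          have : R.natDegree < 2 := by exact_mod_cast hdeg
          omega
      exact Polynomial.exists_eq_X_add_C_of_natDegree_le_one h1
    have hGev : ∀ (c' : Fin n → O) (l : O),
        Polynomial.eval l (Polynomial.map (MvPolynomial.eval c') G) =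
          (MvPolynomial.eval c' a * l + MvPolynomial.eval c' b) +
            ((l - P.l2) * (l - P.l3)) *
              Polynomial.eval l (Polynomial.map (MvPolynomial.eval c') Q) := by
      intro c' l
      conv_lhs => rw [← hdiv, hab, hM]
      simp only [Polynomial.map_add, Polynomial.map_mul, Polynomial.map_sub, Polynomial.map_X,
        Polynomial.map_C, MvPolynomial.eval_C, Polynomial.eval_add, Polynomial.eval_mul,
        Polynomial.eval_sub, Polynomial.eval_X, Polynomial.eval_C]
    have hab0 : ∀ c' : Fin n → O, (∀ j, P.IsRoot (c' j)) →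
        MvPolynomial.eval c' a = 0 ∧ MvPolynomial.eval c' b = 0 := by
      intro c' hc'
      have h2 : MvPolynomial.eval (Fin.cons P.l2 c' : Fin (n + 1) → O) f = 0 := by
        refine hf _ ?_ ?_
        · intro j; refine Fin.cases ?_ ?_ j
          · exact Or.inr (Or.inl rfl)
          · intro j; exact hc' j
        · intro h
          have := congrFun h 0
          exact P.h2 this
      have h3 : MvPolynomial.eval (Fin.cons P.l3 c' : Fin (n + 1) → O) f = 0 := by
        refine hf _ ?_ ?_
        · intro j; refine Fin.cases ?_ ?_ j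
          · exact Or.inr (Or.inr rfl)
          · intro j; exact hc' j
        · intro h
          have := congrFun h 0
          exact P.h3 this
      rw [hev, hGev] at h2 h3
      have e2 : MvPolynomial.eval c' a * P.l2 + MvPolynomial.eval c' b = 0 := by
        simpa using h2
      have e3 : MvPolynomial.eval c' a * P.l3 + MvPolynomial.eval c' b = 0 := by
        simpa using h3
      have e4 : MvPolynomial.eval c' a * (P.l2 - P.l3) = 0 := by
        linear_combination e2 - e3
      have e5 : MvPolynomial.eval c' a = 0 := by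
        rcases mul_eq_zero.1 e4 with h | h
        · exact h
        · exact absurd (sub_eq_zero.1 h) P.h23
      refine ⟨e5, ?_⟩
      rw [e5, zero_mul, zero_add] at e2
      exact e2
    have hval : ∀ c' : Fin n → O, (∀ j, P.IsRoot (c' j)) →
        MvPolynomial.eval (Fin.cons 0 c' : Fin (n + 1) → O) f =
          P.ta * MvPolynomial.eval c' (Q.coeff 0) := by
      intro c' hc'
      rw [hev, hGev, (hab0 c' hc').1, (hab0 c' hc').2]
      have : Polynomial.eval 0 (Polynomial.map (MvPolynomial.eval c') Q) =
          MvPolynomial.eval c' (Q.coeff 0) := by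
        rw [← Polynomial.coeff_zero_eq_eval_zero, Polynomial.coeff_map]
      rw [this]
      unfold Pot.ta
      ring
    have hta : P.ta ≠ 0 := mul_ne_zero P.h2 P.h3
    have hz : ∀ c' : Fin n → O, (∀ j, P.IsRoot (c' j)) → c' ≠ 0 →
        MvPolynomial.eval c' (Q.coeff 0) = 0 := by
      intro c' hc' h0
      have h1 := hval c' hc'
      rw [hf (Fin.cons 0 c') ?_ ?_] at h1
      · rcases mul_eq_zero.1 h1.symm with h | h
        · exact absurd h hta
        · exact h
      · intro j; refine Fin.cases ?_ ?_ j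
        · exact Or.inl rfl
        · intro j; exact hc' j
      · intro h
        apply h0
        funext j
        exact congrFun h j.succ
    obtain ⟨e, he⟩ := ih (Q.coeff 0) hz
    have h00 : (Fin.cons 0 (0 : Fin n → O) : Fin (n + 1) → O) = 0 := by
      funext j; refine Fin.cases rfl (fun _ => rfl) j
    refine ⟨e, ?_⟩
    rw [← h00, hval 0 (fun _ => Or.inl rfl), he]
    ring

theorem eval_aeval_cons (s : ℕ) (c' : Fin s → O) (f : MvPolynomial (Fin (s + 1)) O) :
    MvPolynomial.eval c' (MvPolynomial.aeval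
      (Fin.cons 0 (fun i => X i) : Fin (s + 1) → MvPolynomial (Fin s) O) f) =
      MvPolynomial.eval (Fin.cons 0 c' : Fin (s + 1) → O) f := by
  induction f using MvPolynomial.induction_on with
  | C o => simp
  | add p q hp hq => rw [_root_.map_add, _root_.map_add, _root_.map_add, hp, hq]
  | mul_X p v hp =>
    rw [_root_.map_mul, _root_.map_mul, _root_.map_mul, hp]
    congr 1
    refine Fin.cases ?_ (fun i => ?_) v
    · simp
    · simp

/-- F6, in the form `hR` of `G.mirror_of` -/
theorem residue [IsDomain O] (P : Pot O) (s : ℕ) (f : RS O (s + 1))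
    (h : ∀ j < s + 1, ∃ g : RS O (s + 1), xv O j • f + xv O 0 • g ∈ NN P (RS O (s + 1))) :
    P.ta ^ s ∣ MvPolynomial.eval (0 : Fin (s + 1) → O) f := by
  -- evaluation functionals
  have hev : ∀ (c : Fin (s + 1) → O), (∀ j, P.IsRoot (c j)) → c 0 = 0 → c ≠ 0 →
      MvPolynomial.eval c f = 0 := by
    intro c hc hc0 hne
    obtain ⟨j, hj⟩ : ∃ j, c j ≠ 0 := by
      by_contra hcon
      push Not at hcon
      exact hne (funext hcon)
    obtain ⟨g, hg⟩ := h j j.2
    let ch : ℕ → O := fun m => if hm : m < s + 1 then c ⟨m, hm⟩ else 0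
    have hch : P.IsCol ch := by
      intro m
      by_cases hm : m < s + 1
      · have : ch m = c ⟨m, hm⟩ := dif_pos hm
        rw [this]; exact hc ⟨m, hm⟩
      · have : ch m = 0 := dif_neg hm
        rw [this]; exact Or.inl rfl
    have hrho : ∀ p : S O, MvPolynomial.eval c (rho O (s + 1) p) = ev ch p := by
      intro p
      induction p using MvPolynomial.induction_on with
      | C o => simp [rho, ev]
      | add p q hp hq => rw [_root_.map_add, _root_.map_add, _root_.map_add, hp, hq]
      | mul_X p v hp =>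
        rw [_root_.map_mul, _root_.map_mul, _root_.map_mul, hp]
        congr 1
        have hcm : ∀ m, (if hm : m < s + 1 then c ⟨m, hm⟩ else 0) = ch m := fun m => rfl
        rcases v with m | m
        · rw [ev_inl]
          by_cases hm : m < s + 1
          · have h1 : ch m = c ⟨m, hm⟩ := dif_pos hm
            rw [h1]; simp only [rho, coe_eval₂Hom, eval₂_X, Sum.elim_inl, dif_pos hm, eval_X]
          · have h1 : ch m = 0 := dif_neg hm
            rw [h1]; simp only [rho, coe_eval₂Hom, eval₂_X, Sum.elim_inl, dif_neg hm,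
              _root_.map_zero]
        · rw [ev_inr]
          by_cases hm : m < s + 1
          · have h1 : ch m = c ⟨m, hm⟩ := dif_pos hm
            rw [h1]; simp only [rho, coe_eval₂Hom, eval₂_X, Sum.elim_inr, dif_pos hm, eval_X]
          · have h1 : ch m = 0 := dif_neg hm
            rw [h1]; simp only [rho, coe_eval₂Hom, eval₂_X, Sum.elim_inr, dif_neg hm,
              _root_.map_zero]
    let ψ : RS O (s + 1) →ₛₗ[ev ch] O :=
      { toFun := fun f => MvPolynomial.eval c f
        map_add' := fun f g => _root_.map_add _ _ _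
        map_smul' := fun p f => by
          change MvPolynomial.eval c (rho O (s + 1) p * f) = _
          rw [_root_.map_mul, hrho]; rfl }
    have h1 := hg ch hch ψ
    rw [_root_.map_add, map_smulₛₗ, map_smulₛₗ, ev_inl, ev_inl] at h1
    have h2 : ch 0 = 0 := by
      have : ch 0 = c ⟨0, by omega⟩ := dif_pos (by omega)
      rw [this]; exact hc0
    have h3 : ch j = c j := dif_pos j.2
    rw [h2, h3, zero_smul, add_zero, smul_eq_mul] at h1
    rcases mul_eq_zero.1 h1 with h | h
    · exact absurd h hj
    · exact h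
  -- put `X_0 = 0`
  have hf' := fun c' : Fin s → O => eval_aeval_cons s c' f
  have h00 : (Fin.cons 0 (0 : Fin s → O) : Fin (s + 1) → O) = 0 := by
    funext j; refine Fin.cases rfl (fun _ => rfl) j
  rw [← h00, ← hf']
  refine residue_aux P s _ (fun c' hc' hne => ?_)
  rw [hf']
  refine hev _ ?_ rfl ?_
  · intro j; refine Fin.cases (Or.inl rfl) (fun j => hc' j) j
  · intro h
    apply hne
    funext j
    exact congrFun h j.succ

/-- the field `mirror` -/
theorem IdW_mirror [IsDomain O] (P : Pot O) (s : ℕ) (w : List (ℕ × Bool))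
    (hw : Valid (s + 1) w) (hk : KnotN (s + 1) w) (x : O) (hx : x ∈ IdW P (s + 1) w 0) (y : O)
    (hy : y ∈ IdW P (s + 1) (Pool.Agent.CQ.ninv w) 0) : P.ta ^ s ∣ x * y :=
  G.mirror_of P s w hw
    (fun z hz u hu h j hj => cycle_strands P (s + 1) w hk 0 (by omega) z hz u hu h j hj)
    (fun f hf => residue P s f hf) x hx y hy

end CQ.Hm
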