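import Pool.Agent.CQ.WPack
import Pool.Agent.CQ.Conj2

/-!
# Block D: outputs for the cube modules `Fw w (R0 O s)`
-/

set_option autoImplicit false
set_option linter.unusedSectionVars false
set_option linter.unusedSimpArgs false

namespace CQ

open MvPolynomial

variable {O : Type} [CommRing O] [CharP O 2]

/-- a property of modules which is closed under summands and products passes from words of letter
bimodules to the cube modules -/
theorem Fw_of_Bw (R : SM O → Prop) (hret : ∀ A B : SM O, Retr A B → R B → R A)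
    (hprod : ∀ A B : SM O, R A → R B → R (SM.prod A B)) (p : ℕ → Prop)
    (w : List (ℕ × Bool)) (hw : ∀ a ∈ w, p a.1) (C : DM O)
    (hC : ∀ v : List ℕ, (∀ a ∈ v, p a) → R (Bw true v C.toSM)) : R (Fw w C).toSM := by
  induction w generalizing C with
  | nil => exact hC [] (by simp)
  | cons a w ih =>
    refine ih (fun b hb => hw b (List.mem_cons_of_mem _ hb)) (F2 true a.1 a.2 C) fun v hv => ?_
    have h1 : Retr (Bw true v (F2 true a.1 a.2 C).toSM)
        (SM.prod (Bw true v C.toSM) (Bw true v (SM.D2 true a.1 C.toSM))) :=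
      Retr.bw_prod true v (A := (F2 true a.1 a.2 C).toSM) (Retr.refl _)
    refine hret _ _ h1 (hprod _ _ (hC v hv) ?_)
    refine hC (a.1 :: v) ?_
    intro b hb
    rcases List.mem_cons.1 hb with rfl | hb
    · exact hw a List.mem_cons_self
    · exact hv b hb

/-- a packed property holds for the cube modules of valid words -/
theorem Pack.Fw {Q0 : SM O → Prop} {Q : OM O → Prop} (hQ : Pack Q0 Q) (hI : WIso O) (s : ℕ)
    (w : List (ℕ × Bool)) (hw : Valid s w) (k : ℕ) (hk : k < s) :
    Q (OM.sc (xv O k) (CQ.Fw w (R0 O s)).toSM) := by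
  refine Fw_of_Bw (fun A => Q (OM.sc (xv O k) A)) (fun A B h hB => ?_)
    (fun A B hA hB => hQ.prod _ _ _ hA hB) (fun a => a + 1 < s) w hw (R0 O s) fun v hv => ?_
  · obtain ⟨a, b, hab⟩ := h
    exact hQ.ret _ _ (Ret.sc _ a b hab) hB
  · exact (hQ.main hI s v hv).2 k hk

theorem q_smul {P : Pot O} {C : Type} [AddCommGroup C] [Module (S O) C] (x : S O) (y : C) :
    P.q x • y = x • x • y + (MvPolynomial.C P.ka : S O) • x • y +
      (MvPolynomial.C P.ta : S O) • y := by
  unfold Pot.q
  rw [add_smul, add_smul, pow_two, mul_smul, mul_smul]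
  rfl

variable [IsDomain O]

/-- the E-property of `x_k` on the cube modules -/
theorem EP_Fw (hI : WIso O) (P : Pot O) (s : ℕ) (w : List (ℕ × Bool)) (hw : Valid s w) (k : ℕ)
    (hk : k < s) : EP P (Fw w (R0 O s)).V (xv O k • LinearMap.id) :=
  (pack_QE P).Fw hI s w hw k hk

/-- finite generation of `T` of the cube modules -/
theorem FG_Fw (hI : WIso O) (P : Pot O) (s : ℕ) (w : List (ℕ × Bool)) (hw : Valid s w) :
    FG P (Fw w (R0 O s)).V := by
  rcases Nat.eq_zero_or_pos s with h0 | h0
  · subst h0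
    have : w = [] := List.eq_nil_iff_forall_not_mem.2 fun a ha => absurd (hw a ha) (by omega)
    subst this
    exact FG_RS0 P
  · exact (pack_QF P).Fw hI s w hw 0 h0

/-- first half of the E-property, in the form used for conjugation -/
theorem EAll_of (hI : WIso O) (P : Pot O) : Pool.Agent.CQ.EAll P := by
  intro s w k hv hk z hz hn
  obtain ⟨u, hu, h⟩ := (EP_Fw hI P s w hv k hk).1 z hz hn
  refine ⟨u, hu, ?_⟩
  rw [q_smul]
  exact h

/-- second half of the E-property -/
theorem ESnd_of (hI : WIso O) (P : Pot O) (s : ℕ) (w : List (ℕ × Bool)) (hw : Valid s w) (k : ℕ)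
    (hk : k < s) (z : (Fw w (R0 O s)).V) (hz : z ∈ HH O (Fw w (R0 O s)).V)
    (hn : P.q (xv O k) • z ∈ NN P (Fw w (R0 O s)).V) :
    ∃ u ∈ HH O (Fw w (R0 O s)).V, z + xv O k • u ∈ NN P (Fw w (R0 O s)).V := by
  refine (EP_Fw hI P s w hw k hk).2 z hz ?_
  rw [q_smul] at hn
  exact hn

theorem Pot.q_root (P : Pot O) {a : O} (ha : P.IsRoot a) (h0 : a ≠ 0) : P.q a = 0 := by
  have h2 : (2 : O) = 0 := two0 O
  unfold Pot.q Pot.ka Pot.ta
  rcases ha with h | h | h
  · exact absurd h h0
  · subst h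
    simp only [Algebra.algebraMap_self, RingHom.id_apply]
    linear_combination (P.l2 ^ 2 + P.l2 * P.l3) * h2
  · subst h
    simp only [Algebra.algebraMap_self, RingHom.id_apply]
    linear_combination (P.l3 ^ 2 + P.l2 * P.l3) * h2

/-- the form used for the towers: a Hochschild element killed by all functionals with `c_k = 0`
is `x_k u` modulo negligible elements -/
theorem E_N0 (hI : WIso O) (P : Pot O) (s : ℕ) (w : List (ℕ × Bool)) (hw : Valid s w) (k : ℕ)
    (hk : k < s) (z : (Fw w (R0 O s)).V) (hz : z ∈ HH O (Fw w (R0 O s)).V)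
    (hn : ∀ c : ℕ → O, P.IsCol c → c k = 0 → ∀ ψ : (Fw w (R0 O s)).V →ₛₗ[ev c] O, ψ z = 0) :
    ∃ u ∈ HH O (Fw w (R0 O s)).V, z + xv O k • u ∈ NN P (Fw w (R0 O s)).V := by
  refine ESnd_of hI P s w hw k hk z hz ?_
  intro c hc ψ
  rw [map_smulₛₗ]
  by_cases h0 : c k = 0
  · rw [hn c hc h0 ψ, smul_zero]
  · have e : ev c (P.q (xv O k)) = P.q (c k) := by
      simp [Pot.q, ev]
    rw [e, P.q_root (hc k) h0, zero_smul]

end CQ
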