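import Pool.Agent.CQ.Moves
import Pool.Agent.CQ.Conj2
import Pool.Agent.CQ.Homotopy
import Pool.Agent.CQ.Word

/-!
# All fields of `BlockOut` except the sum formula
-/

set_option autoImplicit false

namespace Pool.Agent.CQ

open _root_.CQ

/-- `BlockOut` from the two module isomorphisms and the sum formula. -/
theorem blockOut_of {O : Type} [CommRing O] [IsDomain O] [CharP O 2] (P : Pot O)
    (hI : _root_.CQ.WIso O)
    (hsum : ∀ (a b : ℕ) (w w' : List (ℕ × Bool)), Valid (a + 1) w → Valid (b + 1) w' →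
      IdW P (a + b + 1) (w ++ sh a w') a = IdW P (a + 1) w a * IdW P (b + 1) w' 0) :
    BlockOut P where
  r2 s u v i b k _ _ _ _ := IdW_R2 P s u v i b k
  comm s u v i j k hij _ _ _ _ := IdW_comm P s u v i j k hij
  r3 s u v i k _ _ _ _ := IdW_R3 P s u v i k
  conj s a w k hv hk := IdW_conj (_root_.CQ.EAll_of hI P) s a w k hv hk
  knot s w k k' hw hK hk hk' := IdW_knot (_root_.CQ.EAll_of hI P) s w k k' hw hK hk hk'
  sum := hsum
  unlink s k _ := _root_.CQ.Hm.IdW_unlink P s k
  ins_pos s u v i k _ _ _ _ x hx := _root_.CQ.Hm.IdW_ins_pos P s u v i k x hx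
  ins_neg s u v i k _ _ _ _ x hx := _root_.CQ.Hm.IdW_ins_neg P s u v i k x hx
  canon s w k hw hk := _root_.CQ.Hm.IdW_canon P s w k hw hk
  mirror s w hw hK x hx y hy := _root_.CQ.Hm.IdW_mirror P s w hw hK x hx y hy

end Pool.Agent.CQ
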