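import Pool.Agent.CQ.TowBase

/-!
# Block H1: the columns map to the words `σ_i^n`, `σ_i^{-n}`
-/

set_option autoImplicit false
set_option linter.unusedSectionVars false
set_option linter.unusedSimpArgs false

namespace CQ

open MvPolynomial

variable {O : Type} [CommRing O] [CharP O 2]

namespace Col

section ident
variable {i : ℕ} {C : Type} [AddCommGroup C] [Module (S O) C]

/-- `D2.map zip f + zip f = split (al f)` -/
theorem zip_zip_split (f : D2 true i C) :
    D2.map (zip O true i) f + zip O true i f = split O true i (al O i f) := by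
  rw [al_apply]
  refine D2.ext (D2.ext ?_ ?_) (D2.ext ?_ ?_)
  · rw [D2.add_a, D2.add_a, D2.map_a, zip_a, zip_a, D2.X_smul_succ_a, split_aa, D2.add_a, zip_a,
      D2.e1_smul_a, unzip_apply, smul_add, e2_def, mul_smul,
      smul_comm (X (inj true i) : S O) (X (inj true (i + 1)) : S O) f.b]
    abel
  · rw [D2.add_a, D2.add_b, D2.map_a, zip_b, zip_a, D2.X_smul_succ_b, split_ab]
    exact add_self_mod (O := O) _
  · rw [D2.add_b, D2.add_a, D2.map_b, zip_a, zip_b, split_ba, D2.add_b, zip_b,
      D2.e1_smul_b, unzip_apply, e1_def, add_smul]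
    have h := add_self_mod (O := O) ((X (inj true i) : S O) • f.b)
    calc (X (inj true (i + 1)) : S O) • f.b + f.a
        = f.a + ((X (inj true i) : S O) • f.b + (X (inj true i) : S O) • f.b) +
          (X (inj true (i + 1)) : S O) • f.b := by rw [h]; abel
      _ = _ := by abel
  · rw [D2.add_b, D2.add_b, D2.map_b, zip_b, zip_b, split_bb]
    exact add_self_mod (O := O) _

theorem split_e1 (f : D2 true i C) :
    split O true i (e1 O true i • f) = e1 O true i • split O true i f := map_smul _ _ _

/-- the identity for the differential of the column -/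
theorem alp_split (j : ℕ) (f : D2 true i C) :
    alp O i (j + 1) (split O true i f) + D2.map (zip O true i) f =
      split O true i (alp O i (j + 1 + 1) f) := by
  have h0 := zip_zip_split (O := O) f
  rcases Nat.mod_two_eq_zero_or_one j with h | h
  · rw [alp_odd (by omega), alp_even (by omega), al_apply, ← be_apply, be_split]
    have h1 : be O i f = al O i f + e1 O true i • f := by
      rw [al_apply, be_apply, add_assoc, add_self_mod (O := O), add_zero]
    rw [h1, map_add, ← h0, split_e1]
    abel
  · rw [alp_even (by omega), alp_odd (by omega), be_split, ← h0]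
    abel

theorem map_unzip_alp_split (j : ℕ) (f : D2 true i C) :
    D2.map (unzip O true i) (alp O i j (split O true i f)) = alp O i j f := by
  rw [← alp_nat, map_unzip_split]

end ident

section maps
variable (i n : ℕ) (C : Type) [AddCommGroup C] [Module (S O) C]

/-- the columns of `ColP (n+1) C → ColP n (F2 true i true C)` -/
noncomputable def gP (f : ℕ → D2 true i C) (j : ℕ) : D2 true i (C × D2 true i C) :=
  if j < n then D2.map (LinearMap.inl (S O) C (D2 true i C)) (f j) +
    D2.map (LinearMap.inr (S O) C (D2 true i C)) (split O true i (f (j + 1))) else 0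

/-- the columns of `ColM (n+1) C → ColM n (F2 true i false C)` -/
noncomputable def gM (f : ℕ → D2 true i C) (j : ℕ) : D2 true i (C × D2 true i C) :=
  D2.map (LinearMap.inl (S O) C (D2 true i C)) (f j) +
    if j + 1 = n then D2.map (LinearMap.inr (S O) C (D2 true i C))
      (alp O i n (split O true i (f n))) else 0

theorem gP_lt (f : ℕ → D2 true i C) (j : ℕ) (h : j < n) : gP (O := O) i n C f j =
    D2.map (LinearMap.inl (S O) C (D2 true i C)) (f j) +
    D2.map (LinearMap.inr (S O) C (D2 true i C)) (split O true i (f (j + 1))) := if_pos h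

theorem gP_ge (f : ℕ → D2 true i C) (j : ℕ) (h : n ≤ j) : gP (O := O) i n C f j = 0 :=
  if_neg (by omega)

theorem gP_add (f g : ℕ → D2 true i C) (j : ℕ) : gP (O := O) i n C (f + g) j =
    gP (O := O) i n C f j + gP (O := O) i n C g j := by
  by_cases h : j < n
  · rw [gP_lt _ _ _ _ _ h, gP_lt _ _ _ _ _ h, gP_lt _ _ _ _ _ h, Pi.add_apply, Pi.add_apply,
      map_add, map_add, map_add]
    abel
  · rw [gP_ge _ _ _ _ _ (by omega), gP_ge _ _ _ _ _ (by omega), gP_ge _ _ _ _ _ (by omega),
      add_zero]

theorem gP_smul (p : S O) (f : ℕ → D2 true i C) (j : ℕ) : gP (O := O) i n C (p • f) j =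
    p • gP (O := O) i n C f j := by
  by_cases h : j < n
  · rw [gP_lt _ _ _ _ _ h, gP_lt _ _ _ _ _ h, Pi.smul_apply, Pi.smul_apply, map_smul, map_smul,
      map_smul, smul_add]
  · rw [gP_ge _ _ _ _ _ (by omega), gP_ge _ _ _ _ _ (by omega), smul_zero]

theorem gM_eq (f : ℕ → D2 true i C) (j : ℕ) (h : j + 1 = n) : gM (O := O) i n C f j =
    D2.map (LinearMap.inl (S O) C (D2 true i C)) (f j) +
    D2.map (LinearMap.inr (S O) C (D2 true i C)) (alp O i n (split O true i (f n))) := by
  rw [gM, if_pos h]

theorem gM_ne (f : ℕ → D2 true i C) (j : ℕ) (h : j + 1 ≠ n) : gM (O := O) i n C f j =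
    D2.map (LinearMap.inl (S O) C (D2 true i C)) (f j) := by
  rw [gM, if_neg h, add_zero]

theorem gM_add (f g : ℕ → D2 true i C) (j : ℕ) : gM (O := O) i n C (f + g) j =
    gM (O := O) i n C f j + gM (O := O) i n C g j := by
  by_cases h : j + 1 = n
  · rw [gM_eq _ _ _ _ _ h, gM_eq _ _ _ _ _ h, gM_eq _ _ _ _ _ h, Pi.add_apply, Pi.add_apply,
      map_add, map_add, map_add, map_add]
    abel
  · rw [gM_ne _ _ _ _ _ h, gM_ne _ _ _ _ _ h, gM_ne _ _ _ _ _ h, Pi.add_apply, map_add]

theorem gM_smul (p : S O) (f : ℕ → D2 true i C) (j : ℕ) : gM (O := O) i n C (p • f) j =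
    p • gM (O := O) i n C f j := by
  by_cases h : j + 1 = n
  · rw [gM_eq _ _ _ _ _ h, gM_eq _ _ _ _ _ h, Pi.smul_apply, Pi.smul_apply, map_smul, map_smul,
      map_smul, map_smul, smul_add]
  · rw [gM_ne _ _ _ _ _ h, gM_ne _ _ _ _ _ h, Pi.smul_apply, map_smul]

end maps

section chain
variable (i n : ℕ) (C : DM O)

/-- one letter of the positive column -/
noncomputable def stepP : SChain (ColP i (n + 1) C) (ColP i n (F2 true i true C)) where
  f :=
    { toFun := fun z => ((z.1, z.2 0), gP (O := O) i n C.V z.2)
      map_add' := fun z w => Prod.ext rfl (funext fun j => gP_add i n C.V z.2 w.2 j)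
      map_smul' := fun p z => Prod.ext rfl (funext fun j => gP_smul i n C.V p z.2 j) }
  comm z := by
    refine Prod.ext ?_ (funext fun j => ?_)
    · change (C.d z.1, zip O true i z.1 + D2.map C.d (z.2 0)) =
        (C.d z.1, D2.map C.d (z.2 0) + colPin O i (n + 1) z 0)
      rw [colPin_zero _ _ (by omega), add_comm]
    · change D2.map (dF true i true C.d) (gP (O := O) i n C.V z.2 j) +
          colPin O i n ((z.1, z.2 0), gP (O := O) i n C.V z.2) j =
        gP (O := O) i n C.V (fun j => D2.map C.d (z.2 j) + colPin O i (n + 1) z j) j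
      have e1 : ∀ f : D2 true i C.V, D2.map (dF true i true C.d)
          (D2.map (LinearMap.inl (S O) C.V (D2 true i C.V)) f) =
          D2.map (LinearMap.inl (S O) C.V (D2 true i C.V)) (D2.map C.d f) +
          D2.map (LinearMap.inr (S O) C.V (D2 true i C.V)) (D2.map (zip O true i) f) := by
        intro f
        refine D2.ext ?_ ?_ <;> (refine Prod.ext ?_ ?_ <;> simp [dF_pos])
      have e2 : ∀ f : D2 true i (D2 true i C.V), D2.map (dF true i true C.d)
          (D2.map (LinearMap.inr (S O) C.V (D2 true i C.V)) f) =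
          D2.map (LinearMap.inr (S O) C.V (D2 true i C.V)) (D2.map (D2.map C.d) f) := by
        intro f
        refine D2.ext ?_ ?_ <;> (refine Prod.ext ?_ ?_ <;> simp [dF_pos])
      by_cases h : j < n
      · rw [gP_lt _ _ _ _ _ h, gP_lt _ _ _ _ _ h, map_add, e1, e2, ← split_nat,
          colPin_succ _ _ j (by omega)]
        rcases j with _ | j
        · rw [colPin_zero _ _ h, colPin_zero _ _ (by omega)]
          change _ + zip O true i ((z.1, z.2 0) : C.V × D2 true i C.V) = _
          have e3 : zip O true i ((z.1, z.2 0) : C.V × D2 true i C.V) =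
              D2.map (LinearMap.inl (S O) C.V (D2 true i C.V)) (zip O true i z.1) +
              D2.map (LinearMap.inr (S O) C.V (D2 true i C.V)) (zip O true i (z.2 0)) := by
            rw [← zip_nat, ← zip_nat, ← map_add]
            congr 1
            refine Prod.ext ?_ ?_ <;> simp
          rw [e3, alp_odd (by norm_num), map_add, map_add (split O true i), ← zip_zip_split,
            map_add (D2.map (LinearMap.inr (S O) C.V (D2 true i C.V))),
            map_add (D2.map (LinearMap.inr (S O) C.V (D2 true i C.V)))]
          abel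
        · rw [colPin_succ _ _ _ h, colPin_succ _ _ _ (by omega)]
          change _ + alp O i (j + 1) (gP (O := O) i n C.V z.2 j) = _
          rw [gP_lt _ _ _ _ _ (by omega), map_add (alp O i (j + 1)), alp_nat, alp_nat, map_add,
            map_add (split O true i), ← alp_split,
            map_add (D2.map (LinearMap.inr (S O) C.V (D2 true i C.V))),
            map_add (D2.map (LinearMap.inr (S O) C.V (D2 true i C.V)))]
          abel
      · rw [gP_ge _ _ _ _ _ (by omega), gP_ge _ _ _ _ _ (by omega), colPin_ge _ _ _ (by omega),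
          map_zero, add_zero]
  ep _ := rfl

/-- one letter of the negative column -/
noncomputable def stepM : SChain (ColM i (n + 1) C) (ColM i n (F2 true i false C)) where
  f :=
    { toFun := fun z => ((z.1, if n = 0 then z.2 0 else 0), gM (O := O) i n C.V z.2)
      map_add' := fun z w => Prod.ext (Prod.ext rfl (by
        change (if n = 0 then z.2 0 + w.2 0 else 0) =
          (if n = 0 then z.2 0 else 0) + (if n = 0 then w.2 0 else 0)
        split_ifs
        · rfl
        · rw [add_zero])) (funext fun j => gM_add i n C.V z.2 w.2 j)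
      map_smul' := fun p z => Prod.ext (Prod.ext rfl (by
        change (if n = 0 then p • z.2 0 else 0) = p • (if n = 0 then z.2 0 else 0)
        split_ifs
        · rfl
        · rw [smul_zero])) (funext fun j => gM_smul i n C.V p z.2 j) }
  comm z := by
    have e1 : ∀ f : D2 true i C.V, D2.map (dF true i false C.d)
        (D2.map (LinearMap.inl (S O) C.V (D2 true i C.V)) f) =
        D2.map (LinearMap.inl (S O) C.V (D2 true i C.V)) (D2.map C.d f) := by
      intro f
      refine D2.ext ?_ ?_ <;> (refine Prod.ext ?_ ?_ <;> simp [dF_neg])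
    have e2 : ∀ f : D2 true i (D2 true i C.V), D2.map (dF true i false C.d)
        (D2.map (LinearMap.inr (S O) C.V (D2 true i C.V)) f) =
        D2.map (LinearMap.inl (S O) C.V (D2 true i C.V)) (D2.map (unzip O true i) f) +
        D2.map (LinearMap.inr (S O) C.V (D2 true i C.V)) (D2.map (D2.map C.d) f) := by
      intro f
      refine D2.ext ?_ ?_ <;> (refine Prod.ext ?_ ?_ <;> simp [dF_neg])
    have e3 : ∀ j, n ≤ j → colMin O i (n + 1) z j = 0 := fun j h =>
      colMin_ge _ _ _ (by omega) _
    refine Prod.ext ?_ (funext fun j => ?_)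
    · change ((C.d z.1 + unzip O true i (if n = 0 then z.2 0 else 0),
          D2.map C.d (if n = 0 then z.2 0 else 0)) : C.V × D2 true i C.V) +
          (if 0 < n then unzip O true i (gM (O := O) i n C.V z.2 0) else 0) =
        (C.d z.1 + unzip O true i (z.2 0),
          if n = 0 then D2.map C.d (z.2 0) + colMin O i (n + 1) z 0 else 0)
      by_cases h : n = 0
      · rw [if_pos h, if_pos h, if_neg (by omega), e3 0 (by omega), add_zero, add_zero]
      · rw [if_neg h, if_neg h, if_pos (by omega), map_zero, map_zero, add_zero]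
        have e4 : unzip O true i (gM (O := O) i n C.V z.2 0) =
            ((unzip O true i (z.2 0), 0) : C.V × D2 true i C.V) := by
          by_cases h1 : 0 + 1 = n
          · rw [gM_eq _ _ _ _ _ h1, map_add, unzip_nat, unzip_nat, ← h1, alp_odd (by norm_num),
              unzip_al, map_zero, add_zero]
            rfl
          · rw [gM_ne _ _ _ _ _ h1, unzip_nat]
            rfl
        rw [e4]
        refine Prod.ext rfl ?_
        change (0 : D2 true i C.V) + 0 = 0
        rw [add_zero]
    · change D2.map (dF true i false C.d) (gM (O := O) i n C.V z.2 j) +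
          colMin O i n ((z.1, if n = 0 then z.2 0 else 0), gM (O := O) i n C.V z.2) j =
        gM (O := O) i n C.V (fun j => D2.map C.d (z.2 j) + colMin O i (n + 1) z j) j
      rcases lt_trichotomy (j + 1) n with h | h | h
      · rw [gM_ne _ _ _ _ _ (by omega), gM_ne _ _ _ _ _ (by omega), e1, colMin_lt _ _ _ h,
          colMin_lt _ _ _ (by omega), map_add]
        congr 1
        change alp O i (j + 1) (gM (O := O) i n C.V z.2 (j + 1)) = _
        by_cases h1 : j + 1 + 1 = n
        · rw [gM_eq _ _ _ _ _ h1, map_add, alp_nat, alp_nat, ← h1, alp_alp, map_zero, add_zero]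
        · rw [gM_ne _ _ _ _ _ h1, alp_nat]
      · rw [gM_eq _ _ _ _ _ h, gM_eq _ _ _ _ _ h, e3 n le_rfl, colMin_ge _ _ _ (by omega),
          colMin_lt _ _ _ (by omega), add_zero, add_zero, map_add, e1, e2, map_unzip_alp_split,
          split_nat, alp_nat, map_add, h]
        abel
      · rw [gM_ne _ _ _ _ _ (by omega), gM_ne _ _ _ _ _ (by omega), e1, e3 j (by omega),
          colMin_ge _ _ _ (by omega), add_zero, add_zero]
  ep _ := rfl

end chain

end Col

theorem colP_Fw (i : ℕ) : ∀ (n : ℕ) (C : DM O),
    Nonempty (SChain (ColP i n C) (Fw (List.replicate n (i, true)) C))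
  | 0, C => ⟨{
      f := LinearMap.fst (S O) C.V (ℕ → D2 true i C.V)
      comm := fun _ => rfl
      ep := fun _ => rfl }⟩
  | n + 1, C => by
    obtain ⟨g⟩ := colP_Fw i n (F2 true i true C)
    exact ⟨(Col.stepP i n C).trans g⟩

theorem colM_Fw (i : ℕ) : ∀ (n : ℕ) (C : DM O),
    Nonempty (SChain (ColM i n C) (Fw (List.replicate n (i, false)) C))
  | 0, C => ⟨{
      f := LinearMap.fst (S O) C.V (ℕ → D2 true i C.V)
      comm := fun z => (add_zero (C.d z.1)).symm
      ep := fun _ => rfl }⟩
  | n + 1, C => by
    obtain ⟨g⟩ := colM_Fw i n (F2 true i false C)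
    exact ⟨(Col.stepM i n C).trans g⟩

end CQ
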