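import Pool.Agent.CQ.Ctx

/-!
# Conjugation with base point (B8)
-/

set_option autoImplicit false
set_option linter.unusedSectionVars false
set_option linter.unusedSimpArgs false
set_option linter.unusedVariables false

namespace CQ

open MvPolynomial

variable {O : Type} [CommRing O] [CharP O 2]

/-! ## the null homotopy of a single crossing -/

/-- `H(c,b) = (unzip b, 0)` for a positive, `(0, zip c)` for a negative crossing -/
noncomputable def Hc (i : ℕ) (pos : Bool) (C : Type) [AddCommGroup C] [Module (S O) C] :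
    (C × D2 true i C) →ₗ[S O] (C × D2 true i C) :=
  if pos then LinearMap.prod (unzip O true i ∘ₗ LinearMap.snd _ _ _) 0
  else LinearMap.prod 0 (zip O true i ∘ₗ LinearMap.fst _ _ _)

theorem Hc_pos (i : ℕ) {C : Type} [AddCommGroup C] [Module (S O) C] (z : C × D2 true i C) :
    Hc (O := O) i true C z = (unzip O true i z.2, 0) := rfl

theorem Hc_neg (i : ℕ) {C : Type} [AddCommGroup C] [Module (S O) C] (z : C × D2 true i C) :
    Hc (O := O) i false C z = (0, zip O true i z.1) := rfl

/-- the old variable `y_m` on the crossing module -/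
noncomputable def oldY (i m : ℕ) (C : Type) [AddCommGroup C] [Module (S O) C] :
    (C × D2 true i C) →ₗ[S O] (C × D2 true i C) :=
  LinearMap.prodMap (yv O m • LinearMap.id) (D2.map (yv O m • LinearMap.id))

theorem oldY_apply (i m : ℕ) {C : Type} [AddCommGroup C] [Module (S O) C]
    (z : C × D2 true i C) :
    oldY (O := O) i m C z = (yv O m • z.1, ⟨yv O m • z.2.a, yv O m • z.2.b⟩) := rfl

theorem zip_unzip_a {i : ℕ} {C : Type} [AddCommGroup C] [Module (S O) C] (b : D2 true i C) :
    zip O true i (unzip O true i b) =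
      yv O i • b + (⟨yv O (i + 1) • b.a, yv O (i + 1) • b.b⟩ : D2 true i C) := by
  have e : (yv O i : S O) = X (inj true i) := rfl
  have e' : (yv O (i + 1) : S O) = X (inj true (i + 1)) := rfl
  ext
  · rw [zip_a, unzip_apply, D2.add_a, e, e', D2.X_smul_i_a, e2_def]
    (match_scalars <;> (rw [← sub_eq_zero]; ring_nf <;> simp only [two0, three1, four0, five1, six0, seven1,
          eight0, mul_zero, zero_mul, add_zero, zero_add, neg_zero, sub_zero, sub_self, mul_one]))
  · rw [zip_b, unzip_apply, D2.add_b, e, e', D2.X_smul_i_b, e1_def]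
    (match_scalars <;> (rw [← sub_eq_zero]; ring_nf <;> simp only [two0, three1, four0, five1, six0, seven1,
          eight0, mul_zero, zero_mul, add_zero, zero_add, neg_zero, sub_zero, sub_self, mul_one]))

theorem zip_unzip_b {i : ℕ} {C : Type} [AddCommGroup C] [Module (S O) C] (b : D2 true i C) :
    zip O true i (unzip O true i b) =
      yv O (i + 1) • b + (⟨yv O i • b.a, yv O i • b.b⟩ : D2 true i C) := by
  have e : (yv O i : S O) = X (inj true i) := rfl
  have e' : (yv O (i + 1) : S O) = X (inj true (i + 1)) := rfl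
  ext
  · rw [zip_a, unzip_apply, D2.add_a, e, e', D2.X_smul_succ_a, e2_def, e1_def]
    (match_scalars <;> (rw [← sub_eq_zero]; ring_nf <;> simp only [two0, three1, four0, five1, six0, seven1,
          eight0, mul_zero, zero_mul, add_zero, zero_add, neg_zero, sub_zero, sub_self, mul_one]))
  · rw [zip_b, unzip_apply, D2.add_b, e, e', D2.X_smul_succ_b]

theorem unzip_zip_y {i : ℕ} {C : Type} [AddCommGroup C] [Module (S O) C] (c : C) :
    unzip O true i (zip O true i c) = yv O i • c + yv O (i + 1) • c := by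
  have e : (yv O i : S O) = X (inj true i) := rfl
  have e' : (yv O (i + 1) : S O) = X (inj true (i + 1)) := rfl
  rw [unzip_apply, zip_a, zip_b, e, e']
  abel

/-- `[d, H] = y_k^new + y_{k'}^old` for `{k,k'} = {i,i+1}` -/
theorem Hc_bracket (i : ℕ) (pos : Bool) {C : Type} [AddCommGroup C] [Module (S O) C]
    (d : C →ₗ[S O] C) (k k' : ℕ) (hk : (k = i ∧ k' = i + 1) ∨ (k = i + 1 ∧ k' = i))
    (z : C × D2 true i C) :
    dF true i pos d (Hc (O := O) i pos C z) + Hc (O := O) i pos C (dF true i pos d z) =
      yv O k • z + oldY (O := O) i k' C z := by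
  have hzz : zip O true i (unzip O true i z.2) =
      yv O k • z.2 + (⟨yv O k' • z.2.a, yv O k' • z.2.b⟩ : D2 true i C) := by
    rcases hk with ⟨rfl, rfl⟩ | ⟨rfl, rfl⟩
    · exact zip_unzip_a _
    · exact zip_unzip_b _
  have hcc : ∀ c : C, unzip O true i (zip O true i c) = yv O k • c + yv O k' • c := by
    intro c
    rw [unzip_zip_y]
    rcases hk with ⟨rfl, rfl⟩ | ⟨rfl, rfl⟩
    · rfl
    · exact add_comm _ _
  cases pos
  · rw [dF_neg, dF_neg, Hc_neg, Hc_neg, oldY_apply]
    refine Prod.ext ?_ ?_
    · simp only [map_zero, zero_add, Prod.fst_add, add_zero, hcc]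
      rfl
    · change D2.map d (zip O true i z.1) + zip O true i (d z.1 + unzip O true i z.2) =
        yv O k • z.2 + (⟨yv O k' • z.2.a, yv O k' • z.2.b⟩ : D2 true i C)
      rw [map_add, zip_nat true i d z.1, ← add_assoc, add_self_mod (O := O), zero_add, hzz]
  · rw [dF_pos, dF_pos, Hc_pos, Hc_pos, oldY_apply]
    refine Prod.ext ?_ ?_
    · simp only [map_add, Prod.fst_add, unzip_nat, hcc]
      have h1 := add_self_mod (O := O) (d (unzip O true i z.2))
      calc _ = yv O k • z.1 + yv O k' • z.1 + (d (unzip O true i z.2) + d (unzip O true i z.2)) := by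
            abel
        _ = _ := by rw [h1, add_zero]; rfl
    · simp only [map_zero, add_zero, Prod.snd_add]
      rw [hzz]
      rfl

theorem q_eq_h (P : Pot O) (x y : S O) :
    P.q x = P.h x y + y * (x + y + MvPolynomial.C P.ka) := by
  unfold Pot.q Pot.h
  rw [MvPolynomial.algebraMap_eq]
  have h2 : (2 : S O) = 0 := two0 (S O)
  linear_combination (-(x * y) - y ^ 2 - MvPolynomial.C P.ka * y) * h2

theorem Ph_symm (P : Pot O) (x y : S O) : P.h x y = P.h y x := by
  unfold Pot.h; ring

theorem HH_xy {C : Type} [AddCommGroup C] [Module (S O) C] {z : C} (hz : z ∈ HH O C) (k : ℕ) :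
    xv O k • z = yv O k • z := hz k

theorem HH_qxy (P : Pot O) {C : Type} [AddCommGroup C] [Module (S O) C] {z : C}
    (hz : z ∈ HH O C) (k : ℕ) : P.q (xv O k) • z = P.q (yv O k) • z := by
  unfold Pot.q
  simp only [add_smul, mul_smul, pow_two]
  rw [hz k, smul_comm (xv O k), hz k]

theorem old_zip {i : ℕ} {C : Type} [AddCommGroup C] [Module (S O) C] (m : ℕ) (c : C) :
    (⟨yv O m • (zip O true i c).a, yv O m • (zip O true i c).b⟩ : D2 true i C) =
      yv O m • zip O true i c := by
  rw [← map_smul]
  ext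
  · simp only [zip_a]; rw [smul_comm]
  · simp only [zip_b]

/-- the operator `h(y_k^new, y_{k'}^old)` kills `H` on Hochschild elements -/
theorem hH_neg (P : Pot O) (i : ℕ) (pos : Bool) {C : Type} [AddCommGroup C] [Module (S O) C]
    (k k' : ℕ) (hk : (k = i ∧ k' = i + 1) ∨ (k = i + 1 ∧ k' = i))
    {y : C × D2 true i C} (hy : y ∈ HH O (C × D2 true i C)) :
    P.q (yv O k) • Hc (O := O) i pos C y +
      oldY (O := O) i k' C (yv O k • Hc (O := O) i pos C y +
        oldY (O := O) i k' C (Hc (O := O) i pos C y) +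
        (MvPolynomial.C P.ka : S O) • Hc (O := O) i pos C y) ∈ NN P (C × D2 true i C) := by
  have hhS : hS P true i = P.h (yv O k) (yv O k') := by
    rcases hk with ⟨rfl, rfl⟩ | ⟨rfl, rfl⟩
    · rfl
    · exact Ph_symm P _ _
  obtain ⟨h1, h2⟩ := mem_HH_prod.1 hy
  have key : ∀ (E : Type) [AddCommGroup E] [Module (S O) E] (t : E),
      P.q (yv O k) • t + yv O k' • (yv O k • t + yv O k' • t + (MvPolynomial.C P.ka : S O) • t) =
        P.h (yv O k) (yv O k') • t := by
    intro E _ _ t
    rw [q_eq_h P (yv O k) (yv O k')]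
    generalize P.h (yv O k) (yv O k') = hh
    (match_scalars <;> (rw [← sub_eq_zero]; ring_nf <;> simp only [two0, three1, four0, five1, six0, seven1,
          eight0, mul_zero, zero_mul, add_zero, zero_add, neg_zero, sub_zero, sub_self, mul_one]))
  cases pos
  · have h3 := negMap_h_zip P true i C y.1 h1
    rw [LinearMap.smul_apply, hhS] at h3
    rw [mem_NN_prod]
    constructor
    · change P.q (yv O k) • (0 : C) + yv O k' • (yv O k • (0 : C) + yv O k' • (0 : C) +
        (MvPolynomial.C P.ka : S O) • (0 : C)) ∈ _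
      simp
    · have e : ∀ m : ℕ, (⟨yv O m • (zip O true i y.1).a, yv O m • (zip O true i y.1).b⟩ :
          D2 true i C) = yv O m • zip O true i y.1 := fun m => old_zip m y.1
      have e2 : yv O k • zip O true i y.1 + yv O k' • zip O true i y.1 +
          (MvPolynomial.C P.ka : S O) • zip O true i y.1 =
          zip O true i (yv O k • y.1 + yv O k' • y.1 + (MvPolynomial.C P.ka : S O) • y.1) := by
        simp only [map_add, map_smul]
      have e3 : (P.q (yv O k) • Hc (O := O) i false C y +
        oldY (O := O) i k' C (yv O k • Hc (O := O) i false C y +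
        oldY (O := O) i k' C (Hc (O := O) i false C y) +
        (MvPolynomial.C P.ka : S O) • Hc (O := O) i false C y)).2 =
          P.h (yv O k) (yv O k') • zip O true i y.1 := by
        rw [← key (D2 true i C) (zip O true i y.1)]
        change P.q (yv O k) • zip O true i y.1 + D2.map (yv O k' • LinearMap.id)
          (yv O k • zip O true i y.1 + (⟨yv O k' • (zip O true i y.1).a,
            yv O k' • (zip O true i y.1).b⟩ : D2 true i C) +
            (MvPolynomial.C P.ka : S O) • zip O true i y.1) = _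
        rw [e k', e2]
        congr 1
        exact old_zip k' _
      rw [e3]
      exact h3
  · have h3 := negMap_h_unzip P true i C y.2 h2
    rw [LinearMap.smul_apply, hhS] at h3
    rw [mem_NN_prod]
    constructor
    · rw [← key C (unzip O true i y.2)] at h3
      exact h3
    · have e4 : (P.q (yv O k) • Hc (O := O) i true C y +
        oldY (O := O) i k' C (yv O k • Hc (O := O) i true C y +
        oldY (O := O) i k' C (Hc (O := O) i true C y) +
        (MvPolynomial.C P.ka : S O) • Hc (O := O) i true C y)).2 = 0 := by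
        change P.q (yv O k) • (0 : D2 true i C) + D2.map (yv O k' • LinearMap.id)
          (yv O k • (0 : D2 true i C) + D2.map (yv O k' • LinearMap.id) (0 : D2 true i C) +
            (MvPolynomial.C P.ka : S O) • (0 : D2 true i C)) = 0
        simp
      rw [e4]
      exact zero_mem _

/-- moving the base point through the last crossing -/
theorem base_step (P : Pot O) (N : DM O) (i : ℕ) (pos : Bool) (k k' : ℕ)
    (hk : (k = i ∧ k' = i + 1) ∨ (k = i + 1 ∧ k' = i))
    (hE : ∀ z ∈ HH O (N.V × D2 true i N.V), xv O k • z ∈ NN P (N.V × D2 true i N.V) →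
      ∃ y ∈ HH O (N.V × D2 true i N.V), z + P.q (xv O k) • y ∈ NN P (N.V × D2 true i N.V))
    (z u : N.V × D2 true i N.V) (hz : z ∈ HH O (N.V × D2 true i N.V))
    (hu : u ∈ HH O (N.V × D2 true i N.V))
    (h : dF true i pos N.d z + xv O k • u ∈ NN P (N.V × D2 true i N.V)) :
    ∃ z' ∈ HH O (N.V × D2 true i N.V), ∃ u' ∈ HH O (N.V × D2 true i N.V),
      dF true i pos N.d z' + oldY (O := O) i k' N.V u' ∈ NN P (N.V × D2 true i N.V) ∧
      N.ep z'.1 = N.ep z.1 := by
  set d := dF true i pos N.d with hd
  set H := Hc (O := O) i pos N.V with hH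
  set Y' := oldY (O := O) i k' N.V with hY'
  have hdd : ∀ v, d (d v) = 0 := dF_dF true i pos N.d N.dd
  -- `x_k d u` is negligible
  have h1 : xv O k • d u ∈ NN P (N.V × D2 true i N.V) := by
    have := map_mem_NN d h
    rw [map_add, hdd, zero_add, map_smul] at this
    exact this
  obtain ⟨y, hy, h2⟩ := hE (d u) (map_mem_HH d hu) h1
  have h3 := map_mem_NN H h2
  rw [map_add, map_smul] at h3
  have hHy : H y ∈ HH O (N.V × D2 true i N.V) := map_mem_HH H hy
  rw [HH_qxy P hHy k] at h3
  have h4 := hH_neg P i pos k k' hk hy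
  rw [← hH, ← hY'] at h4
  refine ⟨z + H u, add_mem hz (map_mem_HH H hu),
    u + (yv O k • H y + Y' (H y) + (MvPolynomial.C P.ka : S O) • H y), ?_, ?_, ?_⟩
  · exact add_mem hu (add_mem (add_mem (Submodule.smul_mem _ _ hHy) (map_mem_HH Y' hHy))
      (Submodule.smul_mem _ _ hHy))
  · have h5 := Hc_bracket i pos N.d k k' hk u
    rw [← hd, ← hH, ← hY'] at h5
    have h6 := HH_xy hu k
    rw [h6] at h
    have e : d (z + H u) + Y' (u + (yv O k • H y + Y' (H y) +
        (MvPolynomial.C P.ka : S O) • H y)) =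
        (d z + yv O k • u) + (H (d u) + P.q (yv O k) • H y) +
          (P.q (yv O k) • H y + Y' (yv O k • H y + Y' (H y) +
            (MvPolynomial.C P.ka : S O) • H y)) := by
      have h7 : d (H u) = H (d u) + (yv O k • u + Y' u) := by
        rw [← h5]
        have := add_self_mod (O := O) (H (d u))
        calc d (H u) = (H (d u) + H (d u)) + d (H u) := by rw [this, zero_add]
          _ = _ := by abel
      rw [map_add, map_add, h7]
      have a1 := add_self_mod (O := O) (P.q (yv O k) • H y)
      have a3 := add_self_mod (O := O) (Y' u)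
      generalize P.q (yv O k) • H y = A1 at a1 ⊢
      generalize Y' (yv O k • H y + Y' (H y) + (MvPolynomial.C P.ka : S O) • H y) = A2
      generalize Y' u = A3 at a3 ⊢
      generalize H (d u) = A4
      generalize yv O k • u = A5
      calc d z + (A4 + (A5 + A3)) + (A3 + A2) = d z + A5 + A4 + A2 + (A3 + A3) := by abel
        _ = d z + A5 + A4 + A2 + (A1 + A1) := by rw [a3, a1]
        _ = _ := by abel
    rw [e]
    exact add_mem (add_mem h h3) h4
  · have : (H u).1 = 0 ∨ ∃ b ∈ HH O (D2 true i N.V), (H u).1 = unzip O true i b := by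
      rw [hH]
      cases pos
      · exact Or.inl rfl
      · exact Or.inr ⟨u.2, (mem_HH_prod.1 hu).2, rfl⟩
    rw [Prod.fst_add, map_add]
    rcases this with h8 | ⟨b, hb, h8⟩
    · rw [h8, map_zero, add_zero]
    · rw [h8, ep_unzip true i N.ep b hb, add_zero]

/-! ## Rotation of the last letter -/

/-- the Hochschild element of `D2 t i C` with second component `b` -/
noncomputable def tw (t : Bool) (i : ℕ) {C : Type} [AddCommGroup C] [Module (S O) C] (b : C) : D2 t i C :=
  ⟨(X (inj (!t) (i + 1)) : S O) • b, b⟩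

theorem tw_add (t : Bool) (i : ℕ) {C : Type} [AddCommGroup C] [Module (S O) C] (b b' : C) :
    tw (O := O) t i (b + b') = tw (O := O) t i b + tw (O := O) t i b' := by
  ext
  · exact smul_add _ _ _
  · rfl

theorem tw_b {t : Bool} {i : ℕ} {C : Type} [AddCommGroup C] [Module (S O) C] {z : D2 t i C}
    (hz : z ∈ HH O (D2 t i C)) : tw (O := O) t i z.b = z := by
  ext
  · exact (mem_HH_D2.1 hz).2.symm
  · rfl

theorem tw_mem {t : Bool} (t' : Bool) {i : ℕ} {C : Type} [AddCommGroup C] [Module (S O) C]
    {z : D2 t i C} (hz : z ∈ HH O (D2 t i C)) : tw (O := O) t' i z.b ∈ HH O (D2 t' i C) :=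
  mem_HH_D2.2 ⟨(mem_HH_D2.1 hz).1, rfl⟩

theorem map_tw (t : Bool) (i : ℕ) {C D : Type} [AddCommGroup C] [Module (S O) C]
    [AddCommGroup D] [Module (S O) D] (f : C →ₗ[S O] D) (b : C) :
    D2.map f (tw (O := O) t i b) = tw (O := O) t i (f b) := by
  ext
  · exact map_smul f _ _
  · rfl

/-- rotation of a pair -/
noncomputable def rot (t' : Bool) {t : Bool} {i : ℕ} {C : Type} [AddCommGroup C] [Module (S O) C]
    (z : C × D2 t i C) : C × D2 t' i C := (z.1, tw (O := O) t' i z.2.b)

theorem rot_add (t' : Bool) {t : Bool} {i : ℕ} {C : Type} [AddCommGroup C] [Module (S O) C]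
    (z w : C × D2 t i C) : rot (O := O) t' (z + w) = rot (O := O) t' z + rot (O := O) t' w :=
  Prod.ext rfl (tw_add t' i _ _)

theorem rot_mem_HH (t' : Bool) {t : Bool} {i : ℕ} {C : Type} [AddCommGroup C] [Module (S O) C]
    {z : C × D2 t i C} (hz : z ∈ HH O (C × D2 t i C)) :
    rot (O := O) t' z ∈ HH O (C × D2 t' i C) := by
  obtain ⟨h1, h2⟩ := mem_HH_prod.1 hz
  exact mem_HH_prod.2 ⟨h1, tw_mem t' h2⟩

theorem rot_mem_NN [IsDomain O] (P : Pot O) {i : ℕ} {C : Type} [AddCommGroup C] [Module (S O) C]
    {z : C × D2 true i C} (hz : z ∈ HH O (C × D2 true i C)) (h : z ∈ NN P (C × D2 true i C)) :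
    rot (O := O) false z ∈ NN P (C × D2 false i C) := by
  obtain ⟨h1, h2⟩ := mem_HH_prod.1 hz
  obtain ⟨h3, h4⟩ := mem_NN_prod.1 h
  refine mem_NN_prod.2 ⟨h3, ?_⟩
  have h5 := tw_b h2
  rw [← h5] at h4
  exact (neg_rot P z.2.b).1 h4

theorem unzip_tw {i : ℕ} {C : Type} [AddCommGroup C] [Module (S O) C] {b : C}
    (hb : b ∈ HS (O := O) i C) :
    unzip O false i (tw (O := O) false i b) = unzip O true i (tw (O := O) true i b) := by
  have h := hb.2.1
  rw [e1_def, e1_def] at h
  change (yv O (i + 1) : S O) • b + (xv O i : S O) • b =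
    (xv O (i + 1) : S O) • b + (yv O i : S O) • b
  change (xv O i + xv O (i + 1) : S O) • b = (yv O i + yv O (i + 1) : S O) • b at h
  rw [add_smul, add_smul] at h
  have h1 := add_self_mod (O := O) (xv O (i + 1) • b)
  have h2 := add_self_mod (O := O) (yv O (i + 1) • b)
  calc yv O (i + 1) • b + xv O i • b =
      yv O (i + 1) • b + xv O i • b + (xv O (i + 1) • b + xv O (i + 1) • b) := by
        rw [h1, add_zero]
    _ = yv O (i + 1) • b + (xv O i • b + xv O (i + 1) • b) + xv O (i + 1) • b := by abel
    _ = yv O (i + 1) • b + (yv O i • b + yv O (i + 1) • b) + xv O (i + 1) • b := by rw [h]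
    _ = (yv O (i + 1) • b + yv O (i + 1) • b) + (xv O (i + 1) • b + yv O i • b) := by abel
    _ = _ := by rw [h2, zero_add]

theorem zip_tw {t : Bool} {i : ℕ} {C : Type} [AddCommGroup C] [Module (S O) C] {c : C}
    (hc : c ∈ HH O C) : zip O t i c = tw (O := O) t i c := by
  ext
  · exact ((mem_HH_side t).1 hc (i + 1)).symm
  · rfl

/-- the rotation commutes with the differentials on Hochschild elements -/
theorem rot_dF {i : ℕ} (pos : Bool) {C : Type} [AddCommGroup C] [Module (S O) C]
    (d : C →ₗ[S O] C) {z : C × D2 true i C} (hz : z ∈ HH O (C × D2 true i C)) :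
    dF false i pos d (rot (O := O) false z) = rot (O := O) false (dF true i pos d z) := by
  obtain ⟨h1, h2⟩ := mem_HH_prod.1 hz
  have h3 := tw_b h2
  cases pos
  · rw [dF_neg, dF_neg]
    refine Prod.ext ?_ ?_
    · change d z.1 + unzip O false i (tw (O := O) false i z.2.b) = d z.1 + unzip O true i z.2
      rw [unzip_tw (mem_HH_D2.1 h2).1, h3]
    · exact map_tw _ _ _ _
  · rw [dF_pos, dF_pos]
    refine Prod.ext rfl ?_
    change zip O false i z.1 + D2.map d (tw (O := O) false i z.2.b) =
      tw (O := O) false i (z.1 + d z.2.b)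
    rw [zip_tw h1, map_tw, tw_add]

theorem rot_oldY {i : ℕ} (k : ℕ) {C : Type} [AddCommGroup C] [Module (S O) C]
    (u : C × D2 true i C) :
    rot (O := O) false (oldY (O := O) i k C u) = yv O k • rot (O := O) false u := by
  rw [oldY_apply]
  refine Prod.ext rfl ?_
  change tw (O := O) false i (yv O k • u.2.b) = yv O k • tw (O := O) false i u.2.b
  have e : (yv O k : S O) = X (inj (!false) k) := rfl
  ext
  · rw [e, D2.X_smul_a_of_ne _ (inj_ne_not false k i) (inj_ne_not false k (i + 1))]
    exact smul_comm _ _ _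
  · rw [e, D2.X_smul_b_of_ne _ (inj_ne_not false k i) (inj_ne_not false k (i + 1))]
    rfl

/-- a witness for the old variable is a witness after the rotation -/
theorem rot_mem_Idl [IsDomain O] (P : Pot O) (N : DM O) (i : ℕ) (pos : Bool) (k : ℕ)
    (z u : N.V × D2 true i N.V) (hz : z ∈ HH O (N.V × D2 true i N.V))
    (hu : u ∈ HH O (N.V × D2 true i N.V))
    (h : dF true i pos N.d z + oldY (O := O) i k N.V u ∈ NN P (N.V × D2 true i N.V)) :
    N.ep z.1 ∈ Idl P (F2 false i pos N) k := by
  refine ⟨rot (O := O) false z, rot_mem_HH false hz, rot (O := O) false u, rot_mem_HH false hu,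
    ?_, rfl⟩
  have h1 : rot (O := O) false u ∈ HH O (N.V × D2 false i N.V) := rot_mem_HH false hu
  change dF false i pos N.d (rot (O := O) false z) + xv O k • rot (O := O) false u ∈ _
  rw [h1 k, rot_dF pos N.d hz, ← rot_oldY, ← rot_add]
  exact rot_mem_NN P (add_mem (map_mem_HH _ hz) (map_mem_HH _ hu)) h

/-- the E-property of a differential module at the strand `k` -/
def EPr (P : Pot O) (C : Type) [AddCommGroup C] [Module (S O) C] (k : ℕ) : Prop :=
  ∀ z ∈ HH O C, xv O k • z ∈ NN P C → ∃ y ∈ HH O C, z + P.q (xv O k) • y ∈ NN P C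

/-- rotation of the last letter -/
theorem Idl_rot [IsDomain O] (P : Pot O) (N : DM O) (i : ℕ) (pos : Bool) (k : ℕ)
    (hE : EPr P (F2 true i pos N).V k) :
    Idl P (F2 true i pos N) k ≤ Idl P (F2 false i pos N) (Equiv.swap i (i + 1) k) := by
  rintro a ⟨z, hz, u, hu, h, rfl⟩
  change N.ep z.1 ∈ _
  by_cases h0 : k = i
  · subst h0
    rw [Equiv.swap_apply_left]
    obtain ⟨z', hz', u', hu', h', he⟩ :=
      base_step P N k pos k (k + 1) (Or.inl ⟨rfl, rfl⟩) hE z u hz hu h
    rw [← he]
    exact rot_mem_Idl P N k pos (k + 1) z' u' hz' hu' h'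
  · by_cases h1 : k = i + 1
    · subst h1
      rw [Equiv.swap_apply_right]
      obtain ⟨z', hz', u', hu', h', he⟩ :=
        base_step P N i pos (i + 1) i (Or.inr ⟨rfl, rfl⟩) hE z u hz hu h
      rw [← he]
      exact rot_mem_Idl P N i pos i z' u' hz' hu' h'
    · rw [Equiv.swap_apply_of_ne_of_ne h0 h1]
      refine rot_mem_Idl P N i pos k z u hz hu ?_
      have e : oldY (O := O) i k N.V u = xv O k • u := by
        have hu' : xv O k • u = yv O k • u := hu k
        rw [hu', oldY_apply]
        refine Prod.ext rfl ?_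
        have e : (yv O k : S O) = X (inj true k) := rfl
        change (⟨yv O k • u.2.a, yv O k • u.2.b⟩ : D2 true i N.V) = yv O k • u.2
        ext
        · rw [e, D2.X_smul_a_of_ne _ (inj_ne h0) (inj_ne h1)]
        · rw [e, D2.X_smul_b_of_ne _ (inj_ne h0) (inj_ne h1)]
      rw [e]
      exact h

end CQ
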