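import Pool.Agent.CQ.Emb

/-!
# Decomposition of the Hochschild elements of a composite word
-/

set_option autoImplicit false
set_option linter.unusedSectionVars false
set_option linter.unusedSimpArgs false

namespace CQ.K

open MvPolynomial CQ CQ.G CQ.Gen
open Pool.Agent.CQ (sh)

variable {O : Type} [CommRing O] [CharP O 2]

/-! ## coordinatewise conditions -/

theorem range_D2 {J : ℕ → Prop} {i : ℕ} (hi : ∀ j, J j → j ≠ i ∧ j ≠ i + 1) {X Y : Type}
    [AddCommGroup X] [Module (S O) X] [AddCommGroup Y] [Module (S O) Y]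
    (g : X →ₗ[S O] Y)
    (hg : ∀ y : Y, (∀ j, J j → xv O j • y = yv O j • y) → y ∈ LinearMap.range g)
    (y : D2 true i Y) (hy : ∀ j, J j → xv O j • y = yv O j • y) :
    y ∈ LinearMap.range (D2.map g : D2 true i X →ₗ[S O] D2 true i Y) := by
  have key : ∀ j, J j → xv O j • y.a = yv O j • y.a ∧ xv O j • y.b = yv O j • y.b := by
    intro j hj
    have a1 : (Sum.inl j : ℕ ⊕ ℕ) ≠ inj true i := by simp
    have a2 : (Sum.inl j : ℕ ⊕ ℕ) ≠ inj true (i + 1) := by simp
    have a3 : (Sum.inr j : ℕ ⊕ ℕ) ≠ inj true i := by simpa using (hi j hj).1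
    have a4 : (Sum.inr j : ℕ ⊕ ℕ) ≠ inj true (i + 1) := by simpa using (hi j hj).2
    have ha := congrArg D2.a (hy j hj)
    have hb := congrArg D2.b (hy j hj)
    rw [D2.X_smul_a_of_ne _ a1 a2, D2.X_smul_a_of_ne _ a3 a4] at ha
    rw [D2.X_smul_b_of_ne _ a1 a2, D2.X_smul_b_of_ne _ a3 a4] at hb
    exact ⟨ha, hb⟩
  obtain ⟨p, hp⟩ := hg y.a (fun j hj => (key j hj).1)
  obtain ⟨q, hq⟩ := hg y.b (fun j hj => (key j hj).2)
  exact ⟨(⟨p, q⟩ : D2 true i X), D2.ext hp hq⟩

theorem range_Fw {J : ℕ → Prop} {v : List (ℕ × Bool)}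
    (hv : ∀ i ∈ v, ∀ j, J j → j ≠ i.1 ∧ j ≠ i.1 + 1) {X Y : DM O} (g : X.V →ₗ[S O] Y.V)
    (hg : ∀ y : Y.V, (∀ j, J j → xv O j • y = yv O j • y) → y ∈ LinearMap.range g)
    (z : (Fw v Y).V) (hz : ∀ j, J j → xv O j • z = yv O j • z) :
    z ∈ LinearMap.range (Fw.map v g) := by
  induction v generalizing X Y with
  | nil => exact hg z hz
  | cons a v ih =>
    refine ih (fun b hb => hv b (List.mem_cons_of_mem _ hb)) (X := F2 true a.1 a.2 X)
      (Y := F2 true a.1 a.2 Y) (F2.map true a.1 a.2 g) ?_ z hz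
    intro y hy
    obtain ⟨p, hp⟩ := hg y.1 (fun j hj => congrArg Prod.fst (hy j hj))
    obtain ⟨q, hq⟩ := range_D2 (hv a List.mem_cons_self) g hg y.2
      (fun j hj => congrArg Prod.snd (hy j hj))
    exact ⟨(p, q), Prod.ext hp hq⟩

theorem Fw_injective {v : List (ℕ × Bool)} {X Y : DM O} (g : X.V →ₗ[S O] Y.V)
    (hg : Function.Injective g) : Function.Injective (Fw.map v g) := by
  induction v generalizing X Y with
  | nil => exact hg
  | cons a v ih =>
    refine ih (X := F2 true a.1 a.2 X) (Y := F2 true a.1 a.2 Y) (F2.map true a.1 a.2 g) ?_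
    intro x y hxy
    refine Prod.ext (hg (congrArg Prod.fst hxy)) ?_
    have h2 := congrArg Prod.snd hxy
    exact D2.ext (hg (congrArg D2.a h2)) (hg (congrArg D2.b h2))

/-! ## the sum of all variables -/

/-- the sum of all left and right variables of the strands acts by zero -/
def ES (s : ℕ) (C : Type) [AddCommGroup C] [Module (S O) C] : Prop :=
  ∀ v : C, (∑ j ∈ Finset.range s, (xv O j + yv O j)) • v = 0

/-- `p` acts coordinatewise -/
def CW (i : ℕ) (p : S O) (C : Type) [AddCommGroup C] [Module (S O) C] : Prop :=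
  ∀ z : D2 true i C, (p • z).a = p • z.a ∧ (p • z).b = p • z.b

theorem CW.add {i : ℕ} {p q : S O} {C : Type} [AddCommGroup C] [Module (S O) C]
    (hp : CW i p C) (hq : CW i q C) : CW i (p + q) C := by
  intro z
  rw [add_smul, D2.add_a, D2.add_b, (hp z).1, (hp z).2, (hq z).1, (hq z).2, add_smul, add_smul]
  exact ⟨rfl, rfl⟩

theorem CW.sum {i : ℕ} {C : Type} [AddCommGroup C] [Module (S O) C] (J : Finset ℕ)
    (f : ℕ → S O) (h : ∀ j ∈ J, CW i (f j) C) : CW i (∑ j ∈ J, f j) C := by
  classical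
  induction J using Finset.induction_on with
  | empty =>
    intro z
    simp
  | insert a J ha ih =>
    rw [Finset.sum_insert ha]
    exact (h a (Finset.mem_insert_self _ _)).add
      (ih (fun j hj => h j (Finset.mem_insert_of_mem hj)))

theorem CW_x (i j : ℕ) (C : Type) [AddCommGroup C] [Module (S O) C] : CW i (xv O j) C := by
  intro z
  have h1 : (Sum.inl j : ℕ ⊕ ℕ) ≠ inj true i := by simp
  have h2 : (Sum.inl j : ℕ ⊕ ℕ) ≠ inj true (i + 1) := by simp
  exact ⟨D2.X_smul_a_of_ne _ h1 h2 z, D2.X_smul_b_of_ne _ h1 h2 z⟩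

theorem CW_y {i j : ℕ} (h1 : j ≠ i) (h2 : j ≠ i + 1) (C : Type) [AddCommGroup C]
    [Module (S O) C] : CW i (yv O j) C := by
  intro z
  have h3 : (Sum.inr j : ℕ ⊕ ℕ) ≠ inj true i := by simpa using h1
  have h4 : (Sum.inr j : ℕ ⊕ ℕ) ≠ inj true (i + 1) := by simpa using h2
  exact ⟨D2.X_smul_a_of_ne _ h3 h4 z, D2.X_smul_b_of_ne _ h3 h4 z⟩

theorem CW_yy (i : ℕ) (C : Type) [AddCommGroup C] [Module (S O) C] :
    CW i (yv O i + yv O (i + 1)) C := by
  intro z
  have e : (yv O i + yv O (i + 1) : S O) = e1 O true i := rfl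
  rw [e]
  exact ⟨D2.e1_smul_a z, D2.e1_smul_b z⟩

theorem CW_all {s i : ℕ} (h : i + 1 < s) (C : Type) [AddCommGroup C] [Module (S O) C] :
    CW i (∑ j ∈ Finset.range s, (xv O j + yv O j)) C := by
  rw [Finset.sum_add_distrib]
  refine (CW.sum _ _ fun j _ => CW_x i j C).add ?_
  have h1 : i ∈ Finset.range s := by simp; omega
  have h2 : i + 1 ∈ (Finset.range s).erase i := by simp; omega
  rw [← Finset.add_sum_erase _ _ h1, ← Finset.add_sum_erase _ _ h2, ← add_assoc]
  refine (CW_yy i C).add (CW.sum _ _ fun j hj => CW_y ?_ ?_ C)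
  · intro e
    simp [e] at hj
  · intro e
    simp [e] at hj

theorem ES.D2 {s i : ℕ} (h : i + 1 < s) {C : Type} [AddCommGroup C] [Module (S O) C]
    (hC : ES (O := O) s C) : ES (O := O) s (D2 true i C) := by
  intro v
  have := CW_all (O := O) h C v
  ext
  · rw [this.1]; exact hC v.a
  · rw [this.2]; exact hC v.b

theorem ES.Fw {s : ℕ} {w : List (ℕ × Bool)} (hw : Valid s w) {C : DM O}
    (hC : ES (O := O) s C.V) : ES (O := O) s (Fw w C).V := by
  induction w generalizing C with
  | nil => exact hC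
  | cons a w ih =>
    refine ih (fun b hb => hw b (List.mem_cons_of_mem _ hb)) (C := F2 true a.1 a.2 C) ?_
    intro v
    exact Prod.ext (hC v.1) (hC.D2 (hw a List.mem_cons_self) v.2)

theorem ES_RS (s : ℕ) : ES (O := O) s (RS O s) := by
  intro v
  rw [Finset.sum_smul]
  refine Finset.sum_eq_zero fun j _ => ?_
  rw [add_smul, un_RS s j v]
  exact add_self_mod (O := O) _

/-! ## the module of Hochschild elements -/

/-- `HH` with zero differential -/
noncomputable def HD (C : DM O) : DM O where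
  V := HH O C.V
  d := 0
  dd _ := rfl
  ep := 0
  epd _ _ := rfl

/-- inclusion -/
noncomputable def inclH (C : DM O) : (HD C).V →ₗ[S O] C.V := (HH O C.V).subtype

theorem inclH_injective (C : DM O) : Function.Injective (inclH C) := Subtype.coe_injective

theorem inclH_mem (C : DM O) (v : (HD C).V) : inclH C v ∈ HH O C.V := v.2

theorem un_HD (C : DM O) (j : ℕ) : Un (O := O) j (HD C).V := by
  intro v
  exact Subtype.ext (v.2 j)

/-- the maps `pr s v h b` generate -/
theorem gen_pr {s : ℕ} {C : DM O} (hV : Van (O := O) s C.V) (hE : ES (O := O) s C.V) {a : ℕ}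
    (ha : a < s) (hU : ∀ j, a < j → Un (O := O) j C.V) {v : List (ℕ × Bool)} (hv : Valid s v)
    (hv' : ∀ i ∈ v, a ≤ i.1) (z : (Fw v C).V) (hz : z ∈ HH O (Fw v C).V) :
    z ∈ AddSubgroup.closure {y | ∃ h ∈ HH O C.V, ∃ b ∈ HH O (Fw v (R0 O s)).V,
      y = pr s v h b} := by
  have hsub : ∀ y : C.V, (∀ j, j < a → xv O j • y = yv O j • y) → y ∈ HH O C.V := by
    intro y hy j
    rcases lt_trichotomy j a with h | h | h
    · exact hy j h
    · subst h
      have h1 := hE y
      rw [Finset.sum_smul, Finset.sum_eq_single j] at h1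
      · rw [add_smul] at h1
        have h2 := add_self_mod (O := O) (yv O j • y)
        have h3 : xv O j • y + yv O j • y = yv O j • y + yv O j • y := by rw [h1, h2]
        exact add_right_cancel h3
      · intro k _ hk
        have h2 : xv O k • y = yv O k • y := by
          rcases lt_or_gt_of_ne hk with h3 | h3
          · exact hy k h3
          · exact hU k h3 y
        rw [add_smul, h2]
        exact add_self_mod (O := O) _
      · intro h3
        exact absurd (Finset.mem_range.2 ha) h3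
    · exact hU j h y
  obtain ⟨z0, rfl⟩ := range_Fw (J := fun j => j < a) (v := v) (X := HD C) (Y := C)
    (fun i hi j hj => by
      have := hv' i hi
      change j < a at hj
      omega) (inclH C)
    (fun y hy => ⟨⟨y, hsub y hy⟩, rfl⟩) z (fun j _ => hz j)
  have hz0 : z0 ∈ HH O (Fw v (HD C)).V :=
    HH_of_injective _ (Fw_injective (X := HD C) (Y := C) (inclH C) (inclH_injective C)) hz
  have hVH : Van (O := O) s (HD C).V := fun j hj v =>
    ⟨Subtype.ext (hV j hj v.1).1, Subtype.ext (hV j hj v.1).2⟩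
  have hgen := gen_Fw s (HD C) (un_HD C) hVH v hv z0 hz0
  have hle : AddSubgroup.closure {y | ∃ f ∈ (Set.univ : Set ((R0 O s).V →ₗ[S O] (HD C).V)),
      ∃ b ∈ HH O (Fw v (R0 O s)).V, y = Fw.map v f b} ≤
      (AddSubgroup.closure {y | ∃ h ∈ HH O C.V, ∃ b ∈ HH O (Fw v (R0 O s)).V,
        y = pr s v h b}).comap
        (Fw.map v (C := HD C) (D := C) (inclH C)).toAddMonoidHom := by
    rw [AddSubgroup.closure_le]
    rintro _ ⟨f, -, b, hb, rfl⟩
    refine AddSubgroup.subset_closure ⟨inclH C (f (show RS O s from 1)),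
      inclH_mem C _, b, hb, ?_⟩
    change Fw.map v (C := HD C) (D := C) (inclH C) (Fw.map v f b) = _
    rw [pr_eq hV v _ (inclH_mem C _)]
    have e := LinearMap.congr_fun (Fw.map_comp v (C := R0 O s) (D := HD C) (E := C)
      (inclH C) f) b
    have e2 : (inclH C) ∘ₗ f = mD hV (inclH C (f (show RS O s from 1)))
        (inclH_mem C _) := by
      apply LinearMap.ext
      intro p
      have e1 : p = (ren O s (show RS O s from p) • (show RS O s from 1) : RS O s) := by
        rw [RS_smul_def, rho_ren, mul_one]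
      have e3 : f p = ren O s (show RS O s from p) • f (show RS O s from 1) := by
        conv_lhs => rw [e1]
        exact f.map_smul _ _
      rw [LinearMap.comp_apply, e3, mD_apply, map_smul]
    rw [e2] at e
    exact e.symm
  exact hle hgen

/-! ## the decomposition -/

section dec
variable {a b : ℕ} {w w' : List (ℕ × Bool)}

/-- product as an additive map of the first variable -/
noncomputable def prL (s : ℕ) (v : List (ℕ × Bool)) {C : DM O} (z' : (Fw v (R0 O s)).V) :
    C.V →+ (Fw v C).V :=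
  AddMonoidHom.mk' (fun z => pr s v z z') (fun z1 z2 => pr_add_left v z1 z2 z')

/-- product as an additive map of the second variable -/
noncomputable def prR (s : ℕ) (v : List (ℕ × Bool)) {C : DM O} (z : C.V) :
    (Fw v (R0 O s)).V →+ (Fw v C).V :=
  AddMonoidHom.mk' (fun z' => pr s v z z') (fun z1 z2 => pr_add_right v z z1 z2)

theorem pr_smul_right {s : ℕ} {C : DM O} (hC : Van (O := O) s C.V) (w : List (ℕ × Bool)) {z : C.V}
    (hz : z ∈ HH O C.V) (p : S O) (z' : (Fw w (R0 O s)).V) :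
    pr s w z (p • z') = p • pr s w z z' := by
  rw [pr_eq hC w z hz, pr_eq hC w z hz, map_smul]

variable {s : ℕ} (hs : s = a + b + 1) (hw : Valid (a + 1) w) (hw' : Valid (b + 1) w')
  {f : (Fw w (R0 O (a + 1))).V →+ (Fw w (R0 O s)).V} (hf : Emb 0 (a + 1) s w w f)
  {f' : (Fw w' (R0 O (b + 1))).V →+ (Fw (sh a w') (R0 O s)).V}
  (hf' : Emb a (b + 1) s w' (sh a w') f')

/-- products of embedded Hochschild elements -/
noncomputable def TG (a b s : ℕ) (w w' : List (ℕ × Bool)) (f : (Fw w (R0 O (a + 1))).V →+ (Fw w (R0 O s)).V)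
    (f' : (Fw w' (R0 O (b + 1))).V →+ (Fw (sh a w') (R0 O s)).V) :
    AddSubgroup (Fw (sh a w') (Fw w (R0 O s))).V :=
  AddSubgroup.closure {y | ∃ g ∈ HH O (Fw w (R0 O (a + 1))).V,
    ∃ g' ∈ HH O (Fw w' (R0 O (b + 1))).V, y = pr s (sh a w') (C := Fw w (R0 O s)) (f g) (f' g')}

include hs hw in
theorem valid_s : Valid s w := fun i hi => by have := hw i hi; omega

include hs hw' in
theorem valid_sh : Valid s (sh a w') := by
  intro i hi
  obtain ⟨c, hc, rfl⟩ := List.mem_map.1 hi
  have := hw' c hc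
  simp only
  omega

include hs hw hf hf' in
theorem TG_C (o : O) (z : (Fw (sh a w') (Fw w (R0 O s))).V) (hz : z ∈ TG a b s w w' f f') :
    (MvPolynomial.C o : S O) • z ∈ TG a b s w w' f f' := by
  have hle : TG a b s w w' f f' ≤ (TG a b s w w' f f').comap
      (DistribSMul.toAddMonoidHom _ (MvPolynomial.C o : S O)) := by
    unfold TG
    rw [AddSubgroup.closure_le]
    rintro _ ⟨g, hg, g', hg', rfl⟩
    refine AddSubgroup.subset_closure ⟨(MvPolynomial.C o : S O) • g, Submodule.smul_mem _ _ hg,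
      g', hg', ?_⟩
    rw [hf.c, pr_C_left]
    rfl
  exact hle hz

include hs hw hf hf' in
theorem TG_x (j : ℕ) (hj : j < s) (z : (Fw (sh a w') (Fw w (R0 O s))).V)
    (hz : z ∈ TG a b s w w' f f') : xv O j • z ∈ TG a b s w w' f f' := by
  have hV : Van (O := O) s (Fw w (R0 O s)).V := van_Fw (valid_s hs hw)
  have hle : TG a b s w w' f f' ≤ (TG a b s w w' f f').comap
      (DistribSMul.toAddMonoidHom _ (xv O j)) := by
    unfold TG
    rw [AddSubgroup.closure_le]
    rintro _ ⟨g, hg, g', hg', rfl⟩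
    by_cases h : j < a + 1
    · refine AddSubgroup.subset_closure ⟨xv O j • g, Submodule.smul_mem _ _ hg, g', hg', ?_⟩
      rw [hf.x j h, Nat.zero_add, pr_xv_left]
      rfl
    · refine AddSubgroup.subset_closure ⟨g, hg, xv O (j - a) • g', Submodule.smul_mem _ _ hg', ?_⟩
      rw [hf'.x (j - a) (by omega), show a + (j - a) = j by omega,
        pr_smul_right hV _ (hf.hh g hg)]
      rfl
  exact hle hz

include hs hw hw' hf hf' in
theorem dec (z : (Fw (sh a w') (Fw w (R0 O s))).V)
    (hz : z ∈ HH O (Fw (sh a w') (Fw w (R0 O s))).V) : z ∈ TG a b s w w' f f' := by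
  have hV : Van (O := O) s (Fw w (R0 O s)).V := van_Fw (valid_s hs hw)
  -- first variable
  have h1 : ∀ g' ∈ HH O (Fw w' (R0 O (b + 1))).V, ∀ h ∈ HH O (Fw w (R0 O s)).V,
      pr s (sh a w') (C := Fw w (R0 O s)) h (f' g') ∈ TG a b s w w' f f' := by
    intro g' hg' h hh
    refine hf.gen ((TG a b s w w' f f').comap (prL s (sh a w') (C := Fw w (R0 O s)) (f' g')))
      ?_ ?_ ?_ h hh
    · intro g hg
      exact AddSubgroup.subset_closure ⟨g, hg, g', hg', rfl⟩
    · intro o z hz
      change pr s (sh a w') (C := Fw w (R0 O s)) _ (f' g') ∈ TG a b s w w' f f'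
      rw [pr_C_left]
      exact TG_C hs hw hf hf' o _ hz
    · intro j hj z hz
      change pr s (sh a w') (C := Fw w (R0 O s)) _ (f' g') ∈ TG a b s w w' f f'
      rw [pr_xv_left]
      exact TG_x hs hw hf hf' j hj _ hz
  -- second variable
  have h2 : ∀ h ∈ HH O (Fw w (R0 O s)).V, ∀ b' ∈ HH O (Fw (sh a w') (R0 O s)).V,
      pr s (sh a w') (C := Fw w (R0 O s)) h b' ∈ TG a b s w w' f f' := by
    intro h hh b' hb'
    refine hf'.gen ((TG a b s w w' f f').comap (prR s (sh a w') (C := Fw w (R0 O s)) h))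
      ?_ ?_ ?_ b' hb'
    · intro g' hg'
      exact h1 g' hg' h hh
    · intro o z hz
      change pr s (sh a w') (C := Fw w (R0 O s)) h _ ∈ TG a b s w w' f f'
      rw [pr_smul_right hV _ hh]
      exact TG_C hs hw hf hf' o _ hz
    · intro j hj z hz
      change pr s (sh a w') (C := Fw w (R0 O s)) h _ ∈ TG a b s w w' f f'
      rw [pr_smul_right hV _ hh]
      exact TG_x hs hw hf hf' j hj _ hz
  have hE : ES (O := O) s (Fw w (R0 O s)).V := (ES_RS s).Fw (C := R0 O s) (valid_s hs hw)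
  have hU : ∀ j, a < j → Un (O := O) j (Fw w (R0 O s)).V := by
    intro j hj
    refine (un_RS s j).Fw (C := R0 O s) ?_
    intro i hi
    have := hw i hi
    omega
  have h3 := gen_pr hV hE (a := a) (by omega) hU (valid_sh hs hw') (fun i hi => by
    obtain ⟨c, hc, rfl⟩ := List.mem_map.1 hi
    simp only
    omega) z hz
  refine (AddSubgroup.closure_le _).2 ?_ h3
  rintro _ ⟨h, hh, b', hb', rfl⟩
  exact h2 h hh b' hb'

include hs hw hf hf' in
/-- the decomposition as a finite sum -/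
theorem exists_sum (z : (Fw (sh a w') (Fw w (R0 O s))).V) (hz : z ∈ TG a b s w w' f f') :
    ∃ (ι : Type) (_ : Fintype ι) (g : ι → (Fw w (R0 O (a + 1))).V)
      (g' : ι → (Fw w' (R0 O (b + 1))).V), (∀ i, g i ∈ HH O (Fw w (R0 O (a + 1))).V) ∧
      (∀ i, g' i ∈ HH O (Fw w' (R0 O (b + 1))).V) ∧
      z = ∑ i, pr s (sh a w') (C := Fw w (R0 O s)) (f (g i)) (f' (g' i)) := by
  refine AddSubgroup.closure_induction (p := fun z _ => ∃ (ι : Type) (_ : Fintype ι)
      (g : ι → (Fw w (R0 O (a + 1))).V)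
      (g' : ι → (Fw w' (R0 O (b + 1))).V), (∀ i, g i ∈ HH O (Fw w (R0 O (a + 1))).V) ∧
      (∀ i, g' i ∈ HH O (Fw w' (R0 O (b + 1))).V) ∧
      z = ∑ i, pr s (sh a w') (C := Fw w (R0 O s)) (f (g i)) (f' (g' i))) ?_ ?_ ?_ ?_ hz
  · rintro _ ⟨g, hg, g', hg', rfl⟩
    exact ⟨Unit, inferInstance, fun _ => g, fun _ => g', fun _ => hg, fun _ => hg', by simp⟩
  · exact ⟨Empty, inferInstance, fun _ => 0, fun _ => 0, fun _ => zero_mem _,
      fun _ => zero_mem _, by simp⟩
  · rintro x y - - ⟨ι, hι, g, g', h1, h2, rfl⟩ ⟨κ, hκ, k, k', h3, h4, rfl⟩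
    refine ⟨ι ⊕ κ, inferInstance, Sum.elim g k, Sum.elim g' k', ?_, ?_, ?_⟩
    · rintro (i | i)
      · exact h1 i
      · exact h3 i
    · rintro (i | i)
      · exact h2 i
      · exact h4 i
    · rw [Fintype.sum_sum_type]
      rfl
  · rintro x - ⟨ι, hι, g, g', h1, h2, rfl⟩
    refine ⟨ι, hι, g, g', h1, h2, ?_⟩
    have h5 := add_self_mod (O := O) (∑ i, pr s (sh a w') (C := Fw w (R0 O s)) (f (g i))
      (f' (g' i)))
    exact neg_eq_of_add_eq_zero_left h5

end dec

end CQ.K
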