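import Mathlib

/-!
# Closed braid words, `HH⁰` of Bott–Samelson bimodules in characteristic two: definitions

`O` is a commutative ring of characteristic two.  `S O = O[x₀,x₁,…,y₀,y₁,…]`; an `S O`-module is
thought of as a bimodule over `O[X₀,X₁,…]`: `xⱼ` is the left, `yⱼ` the right action of `Xⱼ`.
-/

set_option autoImplicit false
set_option linter.unusedSectionVars false
set_option linter.unusedSimpArgs false

namespace CQ

open MvPolynomial

/-! ## The polynomial ring and the side-`t` variables -/

/-- The ring of pairs of polynomials: `xⱼ` (left) and `yⱼ` (right). -/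
abbrev S (O : Type) [CommRing O] : Type := MvPolynomial (ℕ ⊕ ℕ) O

/-- index of the `j`-th variable on side `t` (`true` = right, `false` = left). -/
def inj (t : Bool) (j : ℕ) : ℕ ⊕ ℕ := if t then Sum.inr j else Sum.inl j

@[simp] theorem inj_true (j : ℕ) : inj true j = Sum.inr j := rfl
@[simp] theorem inj_false (j : ℕ) : inj false j = Sum.inl j := rfl

theorem inj_injective (t : Bool) : Function.Injective (inj t) := by
  intro a b h; cases t <;> simpa [inj] using h

/-- the variable `xⱼ` (left) -/
noncomputable abbrev xv (O : Type) [CommRing O] (j : ℕ) : S O := X (Sum.inl j)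

/-- the variable `yⱼ` (right) -/
noncomputable abbrev yv (O : Type) [CommRing O] (j : ℕ) : S O := X (Sum.inr j)

/-- `e₁` of the `i`-th and `i+1`-st variable of side `t` -/
noncomputable def e1 (O : Type) [CommRing O] (t : Bool) (i : ℕ) : S O :=
  X (inj t i) + X (inj t (i + 1))

/-- `e₂` of the `i`-th and `i+1`-st variable of side `t` -/
noncomputable def e2 (O : Type) [CommRing O] (t : Bool) (i : ℕ) : S O :=
  X (inj t i) * X (inj t (i + 1))

section char2
variable (R : Type) [CommRing R] [CharP R 2]
theorem two0 : (2 : R) = 0 := CharTwo.two_eq_zero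
theorem three1 : (3 : R) = 1 := by
  have := two0 R; linear_combination this
theorem four0 : (4 : R) = 0 := by
  have := two0 R; linear_combination 2 * this
theorem five1 : (5 : R) = 1 := by
  have := two0 R; linear_combination 2 * this
theorem six0 : (6 : R) = 0 := by
  have := two0 R; linear_combination 3 * this
theorem seven1 : (7 : R) = 1 := by
  have := two0 R; linear_combination 3 * this
theorem eight0 : (8 : R) = 0 := by
  have := two0 R; linear_combination 4 * this
end char2

variable {O : Type} [CommRing O] [CharP O 2]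

/-- In a module over a ring of characteristic two, `v + v = 0`. -/
theorem add_self_mod {C : Type} [AddCommGroup C] [Module (S O) C] (v : C) : v + v = 0 := by
  have h : (2 : S O) • v = 0 := by rw [CharTwo.two_eq_zero, zero_smul]
  rwa [two_smul] at h

/-! ## The letter bimodule: `D2 t i C` is `C ⊗_{R^{sᵢ}} R` (right, `t = true`) or
`R ⊗_{R^{sᵢ}} C` (left, `t = false`), with `R^{sᵢ}`-basis `1, X_i`. -/

/-- `⟨a, b⟩ = a ⊗ 1 + b ⊗ X_i` -/
@[ext] structure D2 (t : Bool) (i : ℕ) (C : Type) where
  a : C
  b : C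

namespace D2
variable {t : Bool} {i : ℕ} {C : Type}

/-- underlying pair -/
def equivProd : D2 t i C ≃ C × C where
  toFun z := (z.a, z.b)
  invFun z := ⟨z.1, z.2⟩

section
variable [AddCommGroup C]
instance : Zero (D2 t i C) := ⟨⟨0, 0⟩⟩
instance : Add (D2 t i C) := ⟨fun z w => ⟨z.a + w.a, z.b + w.b⟩⟩
instance : Neg (D2 t i C) := ⟨fun z => ⟨-z.a, -z.b⟩⟩
instance : Sub (D2 t i C) := ⟨fun z w => ⟨z.a - w.a, z.b - w.b⟩⟩
instance instNsmul : SMul ℕ (D2 t i C) := ⟨fun n z => ⟨n • z.a, n • z.b⟩⟩
instance instZsmul : SMul ℤ (D2 t i C) := ⟨fun n z => ⟨n • z.a, n • z.b⟩⟩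
@[simp] theorem zero_a : (0 : D2 t i C).a = 0 := rfl
@[simp] theorem zero_b : (0 : D2 t i C).b = 0 := rfl
@[simp] theorem add_a (z w : D2 t i C) : (z + w).a = z.a + w.a := rfl
@[simp] theorem add_b (z w : D2 t i C) : (z + w).b = z.b + w.b := rfl
@[simp] theorem neg_a (z : D2 t i C) : (-z).a = -z.a := rfl
@[simp] theorem neg_b (z : D2 t i C) : (-z).b = -z.b := rfl
@[simp] theorem sub_a (z w : D2 t i C) : (z - w).a = z.a - w.a := rfl
@[simp] theorem sub_b (z w : D2 t i C) : (z - w).b = z.b - w.b := rfl

instance : AddCommGroup (D2 t i C) :=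
  (equivProd (t := t) (i := i) (C := C)).injective.addCommGroup _ rfl (fun _ _ => rfl)
    (fun _ => rfl) (fun _ _ => rfl) (fun _ _ => rfl) (fun _ _ => rfl)

variable [Module (S O) C]

/-- the action of the quadratic algebra `S[ω]/(ω² = e₁ ω + e₂)` on pairs -/
noncomputable instance instQ : Module (QuadraticAlgebra (S O) (e2 O t i) (e1 O t i)) (D2 t i C) where
  smul q z := ⟨q.re • z.a + (e2 O t i * q.im) • z.b,
    q.im • z.a + q.re • z.b + (e1 O t i * q.im) • z.b⟩
  one_smul z := by
    ext
    · change (1 : S O) • z.a + (e2 O t i * 0) • z.b = z.a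
      simp
    · change (0 : S O) • z.a + (1 : S O) • z.b + (e1 O t i * 0) • z.b = z.b
      simp
  mul_smul p q z := by
    ext
    · change (p * q).re • z.a + (e2 O t i * (p * q).im) • z.b =
        p.re • (q.re • z.a + (e2 O t i * q.im) • z.b) + (e2 O t i * p.im) •
          (q.im • z.a + q.re • z.b + (e1 O t i * q.im) • z.b)
      rw [QuadraticAlgebra.re_mul, QuadraticAlgebra.im_mul]
      module
    · change (p * q).im • z.a + (p * q).re • z.b + (e1 O t i * (p * q).im) • z.b =
        p.im • (q.re • z.a + (e2 O t i * q.im) • z.b) + p.re •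
          (q.im • z.a + q.re • z.b + (e1 O t i * q.im) • z.b) + (e1 O t i * p.im) •
          (q.im • z.a + q.re • z.b + (e1 O t i * q.im) • z.b)
      rw [QuadraticAlgebra.re_mul, QuadraticAlgebra.im_mul]
      module
  smul_zero p := by
    ext
    · change p.re • (0 : C) + (e2 O t i * p.im) • (0 : C) = 0
      simp
    · change p.im • (0 : C) + p.re • (0 : C) + (e1 O t i * p.im) • (0 : C) = 0
      simp
  smul_add p z w := by
    ext
    · change p.re • (z.a + w.a) + (e2 O t i * p.im) • (z.b + w.b) =
        (p.re • z.a + (e2 O t i * p.im) • z.b) + (p.re • w.a + (e2 O t i * p.im) • w.b)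
      module
    · change p.im • (z.a + w.a) + p.re • (z.b + w.b) + (e1 O t i * p.im) • (z.b + w.b) =
        (p.im • z.a + p.re • z.b + (e1 O t i * p.im) • z.b) +
          (p.im • w.a + p.re • w.b + (e1 O t i * p.im) • w.b)
      module
  add_smul p q z := by
    ext
    · change (p.re + q.re) • z.a + (e2 O t i * (p.im + q.im)) • z.b =
        (p.re • z.a + (e2 O t i * p.im) • z.b) + (q.re • z.a + (e2 O t i * q.im) • z.b)
      module
    · change (p.im + q.im) • z.a + (p.re + q.re) • z.b + (e1 O t i * (p.im + q.im)) • z.b =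
        (p.im • z.a + p.re • z.b + (e1 O t i * p.im) • z.b) +
          (q.im • z.a + q.re • z.b + (e1 O t i * q.im) • z.b)
      module
  zero_smul z := by
    ext
    · change (0 : S O) • z.a + (e2 O t i * 0) • z.b = 0
      simp
    · change (0 : S O) • z.a + (0 : S O) • z.b + (e1 O t i * 0) • z.b = 0
      simp

end
end D2

/-- images of the variables in the quadratic algebra -/
noncomputable def phiX (O : Type) [CommRing O] (t : Bool) (i : ℕ) (s : ℕ ⊕ ℕ) :
    QuadraticAlgebra (S O) (e2 O t i) (e1 O t i) :=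
  if s = inj t i then ⟨0, 1⟩ else if s = inj t (i + 1) then ⟨e1 O t i, 1⟩ else ⟨X s, 0⟩

/-- `S → S[ω]`: `X_i ↦ ω`, `X_{i+1} ↦ e₁ + ω` on side `t`; all other variables are constants -/
noncomputable def phi (O : Type) [CommRing O] (t : Bool) (i : ℕ) :
    S O →+* QuadraticAlgebra (S O) (e2 O t i) (e1 O t i) :=
  MvPolynomial.eval₂Hom ((algebraMap (S O) _).comp MvPolynomial.C) (phiX O t i)

noncomputable instance {t : Bool} {i : ℕ} {C : Type} [AddCommGroup C] [Module (S O) C] :
    Module (S O) (D2 t i C) :=
  Module.compHom (D2 t i C) (phi O t i)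

namespace D2
variable {t : Bool} {i : ℕ} {C : Type} [AddCommGroup C] [Module (S O) C]

theorem smul_def (s : S O) (z : D2 t i C) : s • z = (phi O t i s) • z := rfl

theorem Q_smul_a (q : QuadraticAlgebra (S O) (e2 O t i) (e1 O t i)) (z : D2 t i C) :
    (q • z).a = q.re • z.a + (e2 O t i * q.im) • z.b := rfl

theorem Q_smul_b (q : QuadraticAlgebra (S O) (e2 O t i) (e1 O t i)) (z : D2 t i C) :
    (q • z).b = q.im • z.a + q.re • z.b + (e1 O t i * q.im) • z.b := rfl

@[simp] theorem C_smul_a (o : O) (z : D2 t i C) :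
    ((MvPolynomial.C o : S O) • z).a = (MvPolynomial.C o : S O) • z.a := by
  rw [smul_def, Q_smul_a]
  simp [phi, QuadraticAlgebra.algebraMap_eq]

@[simp] theorem C_smul_b (o : O) (z : D2 t i C) :
    ((MvPolynomial.C o : S O) • z).b = (MvPolynomial.C o : S O) • z.b := by
  rw [smul_def, Q_smul_b]
  simp [phi, QuadraticAlgebra.algebraMap_eq]

theorem X_smul_a_of_ne (s : ℕ ⊕ ℕ) (h : s ≠ inj t i) (h' : s ≠ inj t (i + 1)) (z : D2 t i C) :
    ((X s : S O) • z).a = (X s : S O) • z.a := by
  rw [smul_def, Q_smul_a]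
  simp [phi, phiX, h, h']

theorem X_smul_b_of_ne (s : ℕ ⊕ ℕ) (h : s ≠ inj t i) (h' : s ≠ inj t (i + 1)) (z : D2 t i C) :
    ((X s : S O) • z).b = (X s : S O) • z.b := by
  rw [smul_def, Q_smul_b]
  simp [phi, phiX, h, h']

theorem X_smul_i_a (z : D2 t i C) :
    ((X (inj t i) : S O) • z).a = e2 O t i • z.b := by
  rw [smul_def, Q_smul_a]
  simp [phi, phiX]

theorem X_smul_i_b (z : D2 t i C) :
    ((X (inj t i) : S O) • z).b = z.a + e1 O t i • z.b := by
  rw [smul_def, Q_smul_b]
  simp [phi, phiX]

theorem X_smul_succ_a (z : D2 t i C) :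
    ((X (inj t (i + 1)) : S O) • z).a = e1 O t i • z.a + e2 O t i • z.b := by
  have h : inj t (i + 1) ≠ inj t i := fun h => by
    have := inj_injective t h; omega
  rw [smul_def, Q_smul_a]
  simp [phi, phiX, h]

theorem X_smul_succ_b (z : D2 t i C) :
    ((X (inj t (i + 1)) : S O) • z).b = z.a := by
  have h : inj t (i + 1) ≠ inj t i := fun h => by
    have := inj_injective t h; omega
  rw [smul_def, Q_smul_b]
  simp only [phi, phiX, eval₂Hom_X', if_neg h, if_true]
  have : e1 O t i • z.b + e1 O t i • z.b = 0 := add_self_mod (O := O) _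
  rw [one_smul, mul_one, add_assoc, this, add_zero]

end D2


/-- constructor for `S`-linear maps: additive, commutes with constants and variables -/
def mkLin {C D : Type} [AddCommGroup C] [AddCommGroup D] [Module (S O) C] [Module (S O) D]
    (f : C →+ D) (hC : ∀ (o : O) (v : C), f ((MvPolynomial.C o : S O) • v) =
      (MvPolynomial.C o : S O) • f v)
    (hX : ∀ (s : ℕ ⊕ ℕ) (v : C), f ((X s : S O) • v) = (X s : S O) • f v) : C →ₗ[S O] D where
  toFun := f
  map_add' := f.map_add
  map_smul' p v := by
    induction p using MvPolynomial.induction_on generalizing v with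
    | C o => exact hC o v
    | add p q hp hq => simp only [add_smul, map_add, hp, hq, RingHom.id_apply]
    | mul_X p s hp =>
      have := hp ((X s : S O) • v)
      simp only [RingHom.id_apply] at this ⊢
      rw [mul_smul, this, hX, mul_smul]

@[simp] theorem mkLin_apply {C D : Type} [AddCommGroup C] [AddCommGroup D] [Module (S O) C]
    [Module (S O) D] (f : C →+ D) (hC) (hX) (v : C) : mkLin (O := O) f hC hX v = f v := rfl

namespace D2
variable {t : Bool} {i : ℕ} {C D E : Type} [AddCommGroup C] [Module (S O) C]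
  [AddCommGroup D] [Module (S O) D] [AddCommGroup E] [Module (S O) E]

/-- to check that an additive map out of `D2` is `S`-linear -/
noncomputable def mk2 (f : D2 t i C →+ E)
    (hC : ∀ (o : O) (v : D2 t i C), f ((MvPolynomial.C o : S O) • v) =
      (MvPolynomial.C o : S O) • f v)
    (h : ∀ (s : ℕ ⊕ ℕ) (v : D2 t i C), s ≠ inj t i → s ≠ inj t (i + 1) →
      f ((X s : S O) • v) = (X s : S O) • f v)
    (hi : ∀ v : D2 t i C, f ((X (inj t i) : S O) • v) = (X (inj t i) : S O) • f v)
    (hi' : ∀ v : D2 t i C, f ((X (inj t (i + 1)) : S O) • v) =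
      (X (inj t (i + 1)) : S O) • f v) : D2 t i C →ₗ[S O] E :=
  mkLin f hC (fun s v => by
    by_cases h1 : s = inj t i
    · subst h1; exact hi v
    · by_cases h2 : s = inj t (i + 1)
      · subst h2; exact hi' v
      · exact h s v h1 h2)

/-- additive functoriality -/
def mapAdd (f : C →+ D) : D2 t i C →+ D2 t i D where
  toFun z := ⟨f z.a, f z.b⟩
  map_zero' := by ext <;> simp
  map_add' z w := by ext <;> simp

@[simp] theorem mapAdd_a (f : C →+ D) (z : D2 t i C) : (mapAdd f z).a = f z.a := rfl
@[simp] theorem mapAdd_b (f : C →+ D) (z : D2 t i C) : (mapAdd f z).b = f z.b := rfl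

/-- functoriality -/
noncomputable def map (f : C →ₗ[S O] D) : D2 t i C →ₗ[S O] D2 t i D :=
  mk2 (mapAdd f.toAddMonoidHom)
    (fun o v => by ext <;> simp)
    (fun s v h h' => by
      ext <;> simp [X_smul_a_of_ne s h h', X_smul_b_of_ne s h h'])
    (fun v => by ext <;> simp [X_smul_i_a, X_smul_i_b])
    (fun v => by ext <;> simp [X_smul_succ_a, X_smul_succ_b])

@[simp] theorem map_a (f : C →ₗ[S O] D) (z : D2 t i C) : (map f z).a = f z.a := rfl
@[simp] theorem map_b (f : C →ₗ[S O] D) (z : D2 t i C) : (map f z).b = f z.b := rfl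

end D2

/-! ## zip, unzip, split, dig -/

section elementary
variable (t : Bool) (i : ℕ)

theorem e1_def : e1 O t i = X (inj t i) + X (inj t (i + 1)) := rfl
theorem e2_def : e2 O t i = X (inj t i) * X (inj t (i + 1)) := rfl

section
variable {t : Bool} {i : ℕ} {C : Type} [AddCommGroup C] [Module (S O) C]
/-- `e₁` acts diagonally -/
theorem D2.e1_smul (z : D2 t i C) : (e1 O t i) • z = ⟨e1 O t i • z.a, e1 O t i • z.b⟩ := by
  have : e1 O t i • z = (X (inj t i) : S O) • z + (X (inj t (i + 1)) : S O) • z := by
    rw [e1_def]; module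
  rw [this]
  ext
  · simp only [D2.add_a, D2.X_smul_i_a, D2.X_smul_succ_a]; (match_scalars <;> (rw [← sub_eq_zero]; ring_nf <;>
          simp only [two0, three1, four0, five1, six0, seven1, eight0, mul_zero, zero_mul,
            add_zero, zero_add, neg_zero, sub_zero, sub_self, mul_one]))
  · simp only [D2.add_b, D2.X_smul_i_b, D2.X_smul_succ_b]; (match_scalars <;> (rw [← sub_eq_zero]; ring_nf <;>
          simp only [two0, three1, four0, five1, six0, seven1, eight0, mul_zero, zero_mul,
            add_zero, zero_add, neg_zero, sub_zero, sub_self, mul_one]))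
/-- `e₂` acts diagonally -/
theorem D2.e2_smul (z : D2 t i C) : (e2 O t i) • z = ⟨e2 O t i • z.a, e2 O t i • z.b⟩ := by
  have : e2 O t i • z = (X (inj t i) : S O) • (X (inj t (i + 1)) : S O) • z := by
    rw [e2_def]; module
  rw [this]
  ext
  · simp only [D2.X_smul_i_a, D2.X_smul_succ_b]
  · simp only [D2.X_smul_i_b, D2.X_smul_succ_a, D2.X_smul_succ_b]; (match_scalars <;> (rw [← sub_eq_zero]; ring_nf <;>
          simp only [two0, three1, four0, five1, six0, seven1, eight0, mul_zero, zero_mul,
            add_zero, zero_add, neg_zero, sub_zero, sub_self, mul_one]))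
theorem D2.e1_smul_a (z : D2 t i C) : ((e1 O t i) • z).a = e1 O t i • z.a := by
  rw [D2.e1_smul]
theorem D2.e1_smul_b (z : D2 t i C) : ((e1 O t i) • z).b = e1 O t i • z.b := by
  rw [D2.e1_smul]
theorem D2.e2_smul_a (z : D2 t i C) : ((e2 O t i) • z).a = e2 O t i • z.a := by
  rw [D2.e2_smul]
theorem D2.e2_smul_b (z : D2 t i C) : ((e2 O t i) • z).b = e2 O t i • z.b := by
  rw [D2.e2_smul]
end

end elementary

section elementary
variable (O : Type) [CommRing O] [CharP O 2] (t : Bool) (i : ℕ)
variable {C : Type} [AddCommGroup C] [Module (S O) C]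

/-- `zip : C → C ⊗_{R^s} R`, `v ↦ X_{i+1} v ⊗ 1 + v ⊗ X_i` -/
noncomputable def zip : C →ₗ[S O] D2 t i C :=
  mkLin
    { toFun := fun v => ⟨(X (inj t (i + 1)) : S O) • v, v⟩
      map_zero' := by ext <;> simp
      map_add' := fun v w => by ext <;> simp }
    (fun o v => by
      ext
      · change (X (inj t (i + 1)) : S O) • (MvPolynomial.C o : S O) • v =
          ((MvPolynomial.C o : S O) • (⟨(X (inj t (i + 1)) : S O) • v, v⟩ : D2 t i C)).a
        rw [D2.C_smul_a]; module
      · change (MvPolynomial.C o : S O) • v =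
          ((MvPolynomial.C o : S O) • (⟨(X (inj t (i + 1)) : S O) • v, v⟩ : D2 t i C)).b
        rw [D2.C_smul_b])
    (fun s v => by
      change (⟨(X (inj t (i + 1)) : S O) • (X s : S O) • v, (X s : S O) • v⟩ : D2 t i C) =
        (X s : S O) • (⟨(X (inj t (i + 1)) : S O) • v, v⟩ : D2 t i C)
      by_cases h1 : s = inj t i
      · subst h1
        ext
        · rw [D2.X_smul_i_a, e2_def]; module
        · rw [D2.X_smul_i_b, e1_def]
          change (X (inj t i) : S O) • v = (X (inj t (i + 1)) : S O) • v +
            ((X (inj t i) : S O) + X (inj t (i + 1))) • v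
          (match_scalars <;> (rw [← sub_eq_zero]; ring_nf <;>
          simp only [two0, three1, four0, five1, six0, seven1, eight0, mul_zero, zero_mul,
            add_zero, zero_add, neg_zero, sub_zero, sub_self, mul_one]))
      · by_cases h2 : s = inj t (i + 1)
        · subst h2
          ext
          · rw [D2.X_smul_succ_a, e1_def, e2_def]
            change (X (inj t (i + 1)) : S O) • (X (inj t (i + 1)) : S O) • v =
              ((X (inj t i) : S O) + X (inj t (i + 1))) • (X (inj t (i + 1)) : S O) • v +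
                ((X (inj t i) : S O) * X (inj t (i + 1))) • v
            (match_scalars <;> (rw [← sub_eq_zero]; ring_nf <;>
          simp only [two0, three1, four0, five1, six0, seven1, eight0, mul_zero, zero_mul,
            add_zero, zero_add, neg_zero, sub_zero, sub_self, mul_one]))
          · rw [D2.X_smul_succ_b]
        · ext
          · rw [D2.X_smul_a_of_ne s h1 h2]; module
          · rw [D2.X_smul_b_of_ne s h1 h2])

@[simp] theorem zip_a (v : C) : (zip O t i v).a = (X (inj t (i + 1)) : S O) • v := rfl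
@[simp] theorem zip_b (v : C) : (zip O t i v).b = v := rfl

/-- `unzip : C ⊗_{R^s} R → C`, multiplication -/
noncomputable def unzip : D2 t i C →ₗ[S O] C :=
  D2.mk2
    { toFun := fun z => z.a + (X (inj t i) : S O) • z.b
      map_zero' := by simp
      map_add' := fun v w => by simp only [D2.add_a, D2.add_b]; module }
    (fun o z => by
      simp only [AddMonoidHom.coe_mk, ZeroHom.coe_mk, D2.C_smul_a, D2.C_smul_b]; module)
    (fun s z h h' => by
      simp only [AddMonoidHom.coe_mk, ZeroHom.coe_mk, D2.X_smul_a_of_ne s h h',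
        D2.X_smul_b_of_ne s h h']; module)
    (fun z => by
      simp only [AddMonoidHom.coe_mk, ZeroHom.coe_mk, D2.X_smul_i_a, D2.X_smul_i_b, e1_def, e2_def]
      (match_scalars <;> (rw [← sub_eq_zero]; ring_nf <;>
          simp only [two0, three1, four0, five1, six0, seven1, eight0, mul_zero, zero_mul,
            add_zero, zero_add, neg_zero, sub_zero, sub_self, mul_one])))
    (fun z => by
      simp only [AddMonoidHom.coe_mk, ZeroHom.coe_mk, D2.X_smul_succ_a, D2.X_smul_succ_b, e1_def,
        e2_def]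
      (match_scalars <;> (rw [← sub_eq_zero]; ring_nf <;>
          simp only [two0, three1, four0, five1, six0, seven1, eight0, mul_zero, zero_mul,
            add_zero, zero_add, neg_zero, sub_zero, sub_self, mul_one])))

theorem unzip_apply (z : D2 t i C) : unzip O t i z = z.a + (X (inj t i) : S O) • z.b := rfl

/-- `split : C ⊗ R → (C ⊗ R) ⊗ R`, `a ⊗ 1 + b ⊗ X_i ↦ a ⊗ 1 ⊗ 1 + b ⊗ 1 ⊗ X_i` -/
noncomputable def split : D2 t i C →ₗ[S O] D2 t i (D2 t i C) :=
  D2.mk2
    { toFun := fun z => ⟨⟨z.a, 0⟩, ⟨z.b, 0⟩⟩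
      map_zero' := by ext <;> simp
      map_add' := fun v w => by ext <;> simp }
    (fun o z => by ext <;> simp)
    (fun s z h h' => by
      ext <;> simp [D2.X_smul_a_of_ne s h h', D2.X_smul_b_of_ne s h h'])
    (fun z => by
      ext <;> simp [D2.X_smul_i_a, D2.X_smul_i_b, D2.e1_smul_a, D2.e1_smul_b, D2.e2_smul_a,
        D2.e2_smul_b])
    (fun z => by
      ext <;> simp [D2.X_smul_succ_a, D2.X_smul_succ_b, D2.e1_smul_a, D2.e1_smul_b,
        D2.e2_smul_a, D2.e2_smul_b])

@[simp] theorem split_aa (z : D2 t i C) : (split O t i z).a.a = z.a := rfl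
@[simp] theorem split_ab (z : D2 t i C) : (split O t i z).a.b = 0 := rfl
@[simp] theorem split_ba (z : D2 t i C) : (split O t i z).b.a = z.b := rfl
@[simp] theorem split_bb (z : D2 t i C) : (split O t i z).b.b = 0 := rfl

/-- `dig : (C ⊗ R) ⊗ R → C ⊗ R`, divided difference in the middle -/
noncomputable def dig : D2 t i (D2 t i C) →ₗ[S O] D2 t i C :=
  D2.mk2
    { toFun := fun z => ⟨z.a.b, z.b.b⟩
      map_zero' := by ext <;> simp
      map_add' := fun v w => by ext <;> simp }
    (fun o z => by ext <;> simp)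
    (fun s z h h' => by
      ext <;> simp [D2.X_smul_a_of_ne s h h', D2.X_smul_b_of_ne s h h'])
    (fun z => by
      ext <;> simp [D2.X_smul_i_a, D2.X_smul_i_b, D2.e1_smul_a, D2.e1_smul_b, D2.e2_smul_a,
        D2.e2_smul_b])
    (fun z => by
      ext <;> simp [D2.X_smul_succ_a, D2.X_smul_succ_b, D2.e1_smul_a, D2.e1_smul_b,
        D2.e2_smul_a, D2.e2_smul_b])

@[simp] theorem dig_a (z : D2 t i (D2 t i C)) : (dig O t i z).a = z.a.b := rfl
@[simp] theorem dig_b (z : D2 t i (D2 t i C)) : (dig O t i z).b = z.b.b := rfl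

end elementary

/-! ## Potentials, `HH`, negligible elements, `T` -/

/-- three distinct roots `0, l2, l3` -/
structure Pot (O : Type) [CommRing O] where
  l2 : O
  l3 : O
  h2 : l2 ≠ 0
  h3 : l3 ≠ 0
  h23 : l2 ≠ l3

namespace Pot
variable (P : Pot O)
/-- `κ = λ₂ + λ₃` -/
def ka : O := P.l2 + P.l3
/-- `τ = λ₂ λ₃` -/
def ta : O := P.l2 * P.l3
/-- the roots -/
def IsRoot (c : O) : Prop := c = 0 ∨ c = P.l2 ∨ c = P.l3
/-- colourings of the strands by roots -/
def IsCol (c : ℕ → O) : Prop := ∀ j, P.IsRoot (c j)
/-- `q(x) = x² + κ x + τ` in any commutative ring over `O` -/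
def q {A : Type} [CommRing A] [Algebra O A] (x : A) : A :=
  x ^ 2 + algebraMap O A P.ka * x + algebraMap O A P.ta
/-- `p(x) = x q(x)` -/
def p {A : Type} [CommRing A] [Algebra O A] (x : A) : A := x * P.q x
/-- `h(x,y) = x² + x y + y² + κ (x + y) + τ = (p(x) - p(y))/(x - y)` -/
def h {A : Type} [CommRing A] [Algebra O A] (x y : A) : A :=
  x ^ 2 + x * y + y ^ 2 + algebraMap O A P.ka * (x + y) + algebraMap O A P.ta
end Pot

/-- evaluation of all variables (left and right) at a colouring -/
noncomputable def ev (c : ℕ → O) : S O →+* O := MvPolynomial.eval (Sum.elim c c)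

@[simp] theorem ev_C (c : ℕ → O) (o : O) : ev c (MvPolynomial.C o) = o := by simp [ev]
@[simp] theorem ev_inl (c : ℕ → O) (j : ℕ) : ev c (X (Sum.inl j)) = c j := by simp [ev]
@[simp] theorem ev_inr (c : ℕ → O) (j : ℕ) : ev c (X (Sum.inr j)) = c j := by simp [ev]
theorem ev_inj (c : ℕ → O) (t : Bool) (j : ℕ) : ev c (X (inj t j)) = c j := by
  cases t <;> simp [inj]

section T
variable (C : Type) [AddCommGroup C] [Module (S O) C]

/-- `HH⁰`: elements on which left and right actions agree -/
def HH (O : Type) [CommRing O] (C : Type) [AddCommGroup C] [Module (S O) C] :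
    Submodule (S O) C where
  carrier := {z | ∀ j, xv O j • z = yv O j • z}
  add_mem' {z w} hz hw j := by
    simp only [Set.mem_ofPred_eq] at hz hw
    rw [smul_add, smul_add, hz j, hw j]
  zero_mem' j := by simp
  smul_mem' s z hz j := by
    simp only [Set.mem_ofPred_eq] at hz
    rw [smul_comm, hz j, smul_comm]

theorem mem_HH {z : C} : z ∈ HH O C ↔ ∀ j, xv O j • z = yv O j • z := Iff.rfl

/-- elements killed by all functionals which are eigen for a colouring on both sides -/
def NN (P : Pot O) (C : Type) [AddCommGroup C] [Module (S O) C] : Submodule (S O) C where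
  carrier := {z | ∀ c : ℕ → O, P.IsCol c → ∀ ψ : C →ₛₗ[ev c] O, ψ z = 0}
  add_mem' {z w} hz hw c hc ψ := by rw [map_add, hz c hc ψ, hw c hc ψ, add_zero]
  zero_mem' c hc ψ := map_zero ψ
  smul_mem' s z hz c hc ψ := by rw [map_smulₛₗ, hz c hc ψ, smul_zero]

theorem mem_NN {P : Pot O} {C : Type} [AddCommGroup C] [Module (S O) C] {z : C} :
    z ∈ NN P C ↔ ∀ c : ℕ → O, P.IsCol c → ∀ ψ : C →ₛₗ[ev c] O, ψ z = 0 := Iff.rfl

/-- `T(C) = HH⁰(C)/negligible` -/
abbrev TT (P : Pot O) (C : Type) [AddCommGroup C] [Module (S O) C] : Type :=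
  HH O C ⧸ (NN P C).comap (HH O C).subtype
end T

/-! ## Differential modules -/

/-- an `S`-module with a differential and an augmentation (eigen at the colouring `0`) -/
structure DM (O : Type) [CommRing O] where
  V : Type
  [ag : AddCommGroup V]
  [md : Module (S O) V]
  d : V →ₗ[S O] V
  dd : ∀ v, d (d v) = 0
  ep : V →ₛₗ[ev (0 : ℕ → O)] O
  epd : ∀ z ∈ HH O V, ep (d z) = 0

attribute [instance] DM.ag DM.md

/-- The ideal of values at the base point `k`:
`{ε z : z ∈ T, d z ∈ x_k T}` -/
def Idl (P : Pot O) (C : DM O) (k : ℕ) : Ideal O where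
  carrier := {a | ∃ z ∈ HH O C.V, ∃ u ∈ HH O C.V, C.d z + xv O k • u ∈ NN P C.V ∧ C.ep z = a}
  add_mem' := by
    rintro _ _ ⟨z, hz, u, hu, h, rfl⟩ ⟨z', hz', u', hu', h', rfl⟩
    refine ⟨z + z', add_mem hz hz', u + u', add_mem hu hu', ?_, map_add _ _ _⟩
    have : C.d (z + z') + xv O k • (u + u') =
        (C.d z + xv O k • u) + (C.d z' + xv O k • u') := by
      rw [map_add, smul_add]; abel
    rw [this]; exact add_mem h h'
  zero_mem' := ⟨0, zero_mem _, 0, zero_mem _, by simp, map_zero _⟩
  smul_mem' := by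
    rintro a _ ⟨z, hz, u, hu, h, rfl⟩
    refine ⟨(MvPolynomial.C a : S O) • z, Submodule.smul_mem _ _ hz,
      (MvPolynomial.C a : S O) • u, Submodule.smul_mem _ _ hu, ?_, ?_⟩
    · have : C.d ((MvPolynomial.C a : S O) • z) + xv O k • (MvPolynomial.C a : S O) • u =
          (MvPolynomial.C a : S O) • (C.d z + xv O k • u) := by
        rw [map_smul, smul_add, smul_comm (xv O k)]
      rw [this]; exact Submodule.smul_mem _ _ h
    · rw [map_smulₛₗ]; simp

/-! ## The crossing functors -/

section crossing
variable (t : Bool) (i : ℕ) {C : Type} [AddCommGroup C] [Module (S O) C]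

/-- differential of the crossing complex `C ⊕ (C ⊗ R)`:
positive: `C → C ⊗ R` by zip; negative: `C ⊗ R → C` by unzip -/
noncomputable def dF (pos : Bool) (d : C →ₗ[S O] C) : (C × D2 t i C) →ₗ[S O] (C × D2 t i C) :=
  if pos then
    LinearMap.prod (d ∘ₗ LinearMap.fst _ _ _)
      (zip O t i ∘ₗ LinearMap.fst _ _ _ + D2.map d ∘ₗ LinearMap.snd _ _ _)
  else
    LinearMap.prod (d ∘ₗ LinearMap.fst _ _ _ + unzip O t i ∘ₗ LinearMap.snd _ _ _)
      (D2.map d ∘ₗ LinearMap.snd _ _ _)

theorem dF_pos (d : C →ₗ[S O] C) (z : C × D2 t i C) :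
    dF t i true d z = (d z.1, zip O t i z.1 + D2.map d z.2) := rfl

theorem dF_neg (d : C →ₗ[S O] C) (z : C × D2 t i C) :
    dF t i false d z = (d z.1 + unzip O t i z.2, D2.map d z.2) := rfl

/-- naturality of zip -/
theorem zip_nat {D : Type} [AddCommGroup D] [Module (S O) D] (f : C →ₗ[S O] D) (v : C) :
    zip O t i (f v) = D2.map f (zip O t i v) := by
  ext <;> simp

/-- naturality of unzip -/
theorem unzip_nat {D : Type} [AddCommGroup D] [Module (S O) D] (f : C →ₗ[S O] D)
    (v : D2 t i C) : unzip O t i (D2.map f v) = f (unzip O t i v) := by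
  simp [unzip_apply]

theorem dF_dF (pos : Bool) (d : C →ₗ[S O] C) (hd : ∀ v, d (d v) = 0) (z : C × D2 t i C) :
    dF t i pos d (dF t i pos d z) = 0 := by
  cases pos
  · rw [dF_neg, dF_neg]
    refine Prod.ext ?_ ?_
    · simp only [map_add, hd, zero_add, unzip_nat, Prod.fst_zero]
      exact add_self_mod (O := O) _
    · ext <;> simp [hd]
  · rw [dF_pos, dF_pos]
    refine Prod.ext (hd _) ?_
    simp only [map_add, zip_nat, Prod.snd_zero]
    rw [← add_assoc, add_self_mod (O := O), zero_add]
    ext <;> simp [hd]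

/-- `HH` of a product -/
theorem mem_HH_prod {D : Type} [AddCommGroup D] [Module (S O) D] {z : C × D} :
    z ∈ HH O (C × D) ↔ z.1 ∈ HH O C ∧ z.2 ∈ HH O D := by
  constructor
  · intro h
    exact ⟨fun j => congrArg Prod.fst (h j), fun j => congrArg Prod.snd (h j)⟩
  · intro h j
    exact Prod.ext (h.1 j) (h.2 j)

/-- the augmentation kills unzip of Hochschild elements -/
theorem ep_unzip (ep : C →ₛₗ[ev (0 : ℕ → O)] O) (z : D2 t i C) (hz : z ∈ HH O (D2 t i C)) :
    ep (unzip O t i z) = 0 := by
  cases t
  · have h := congrArg D2.b (hz i)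
    have e : (yv O i : S O) = X (inj true i) := rfl
    have e' : (xv O i : S O) = X (inj false i) := rfl
    rw [e, e', D2.X_smul_i_b, D2.X_smul_b_of_ne _ (by simp) (by simp)] at h
    have ha : z.a = (X (inj true i) : S O) • z.b + e1 O false i • z.b := by
      rw [← h]
      have := add_self_mod (O := O) (e1 O false i • z.b)
      rw [add_assoc, this, add_zero]
    rw [unzip_apply, ha]
    simp [e1_def, add_smul]
  · have h := congrArg D2.b (hz i)
    have e : (yv O i : S O) = X (inj true i) := rfl
    have e' : (xv O i : S O) = X (inj false i) := rfl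
    rw [e, e', D2.X_smul_i_b, D2.X_smul_b_of_ne _ (by simp) (by simp)] at h
    have ha : z.a = (X (inj false i) : S O) • z.b + e1 O true i • z.b := by
      rw [h]
      have := add_self_mod (O := O) (e1 O true i • z.b)
      rw [add_assoc, this, add_zero]
    rw [unzip_apply, ha]
    simp [e1_def, add_smul]

end crossing

/-- the crossing functor on differential modules; `t = true`: letter appended on the right -/
noncomputable def F2 (t : Bool) (i : ℕ) (pos : Bool) (C : DM O) : DM O where
  V := C.V × D2 t i C.V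
  d := dF t i pos C.d
  dd := dF_dF t i pos C.d C.dd
  ep := C.ep.comp (LinearMap.fst (S O) C.V (D2 t i C.V))
  epd z hz := by
    have h := (mem_HH_prod).1 hz
    cases pos
    · change C.ep (C.d z.1 + unzip O t i z.2) = 0
      rw [map_add, C.epd _ h.1, ep_unzip t i C.ep _ h.2, add_zero]
    · exact C.epd _ h.1

/-- the complex of a braid word over a differential module: letters are appended on the right,
the first letter of the list first; `(i, true) = σ_i`, `(i, false) = σ_i⁻¹` (0-based: strands
`i` and `i+1`) -/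
noncomputable def Fw : List (ℕ × Bool) → DM O → DM O
  | [], C => C
  | a :: w, C => Fw w (F2 true a.1 a.2 C)

/-! ## The polynomial ring on `s` strands -/

/-- `O[X₀,…,X_{s-1}]` as a bimodule -/
abbrev RS (O : Type) [CommRing O] (s : ℕ) : Type := MvPolynomial (Fin s) O

/-- `x_j, y_j ↦ X_j` for `j < s`, `0` otherwise -/
noncomputable def rho (O : Type) [CommRing O] (s : ℕ) : S O →+* MvPolynomial (Fin s) O :=
  MvPolynomial.eval₂Hom MvPolynomial.C
    (Sum.elim (fun j => if h : j < s then X ⟨j, h⟩ else 0)
      (fun j => if h : j < s then X ⟨j, h⟩ else 0))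

noncomputable instance (s : ℕ) : Module (S O) (RS O s) :=
  Module.compHom (MvPolynomial (Fin s) O) (rho O s)

theorem RS_smul_def {O : Type} [CommRing O] (s : ℕ) (p : S O) (f : RS O s) :
    p • f = rho O s p * f := rfl

theorem eval_rho {O : Type} [CommRing O] (s : ℕ) (p : S O) :
    MvPolynomial.eval (0 : Fin s → O) (rho O s p) = ev (0 : ℕ → O) p := by
  induction p using MvPolynomial.induction_on with
  | C o => simp [rho, ev]
  | add p q hp hq => rw [map_add, map_add, map_add, hp, hq]
  | mul_X p v hp =>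
    rw [map_mul, map_mul, map_mul, hp]
    congr 1
    rcases v with j | j
    · by_cases h : j < s <;> simp [rho, h, ev]
    · by_cases h : j < s <;> simp [rho, h, ev]

/-- the base differential module: `s` strands, no crossing -/
noncomputable def R0 (O : Type) [CommRing O] [CharP O 2] (s : ℕ) : DM O where
  V := RS O s
  d := 0
  dd _ := rfl
  ep :=
    { toFun := fun f => MvPolynomial.eval (0 : Fin s → O) f
      map_add' := fun f g => map_add _ _ _
      map_smul' := fun p f => by
        change MvPolynomial.eval (0 : Fin s → O) (rho O s p * f) = _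
        rw [map_mul, eval_rho]; rfl }
  epd _ _ := map_zero _

/-- The value ideal of a braid word on `s` strands with base point `k` -/
noncomputable def IdW (P : Pot O) (s : ℕ) (w : List (ℕ × Bool)) (k : ℕ) : Ideal O :=
  Idl P (Fw w (R0 O s)) k

/-! ## Adding a strand: polynomials in `X_m` -/

/-- `S → S[X]`, `x_m, y_m ↦ X` -/
noncomputable def psi (O : Type) [CommRing O] (m : ℕ) : S O →+* Polynomial (S O) :=
  MvPolynomial.eval₂Hom (Polynomial.C.comp MvPolynomial.C)
    (fun s => if s = Sum.inl m ∨ s = Sum.inr m then Polynomial.X else Polynomial.C (X s))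

/-- `C[X_m]`, for modules `C` on which `x_m`, `y_m` are not used -/
def PX (O : Type) [CommRing O] (_m : ℕ) (C : Type) [AddCommGroup C] [Module (S O) C] : Type :=
  PolynomialModule (S O) C

namespace PX
variable {m : ℕ} {C : Type} [AddCommGroup C] [Module (S O) C]

noncomputable instance : AddCommGroup (PX O m C) := inferInstanceAs (AddCommGroup (PolynomialModule (S O) C))

noncomputable instance : Module (S O) (PX O m C) :=
  Module.compHom (PolynomialModule (S O) C) (psi O m)

/-- the underlying polynomial -/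
def toPM (f : PX O m C) : PolynomialModule (S O) C := f

/-- coefficients -/
def co (f : PX O m C) (n : ℕ) : C := PolynomialModule.coeff (toPM f) n

/-- monomials -/
noncomputable def mono (n : ℕ) (v : C) : PX O m C := PolynomialModule.single (S O) n v

theorem ext' {f g : PX O m C} (h : ∀ n, f.co n = g.co n) : f = g :=
  PolynomialModule.coeff_injective (R := S O) (Finsupp.ext h)

@[simp] theorem co_add (f g : PX O m C) (n : ℕ) : (f + g).co n = f.co n + g.co n := rfl
@[simp] theorem co_zero (n : ℕ) : (0 : PX O m C).co n = 0 := rfl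

theorem co_mono (n k : ℕ) (v : C) : (mono n v : PX O m C).co k = if n = k then v else 0 := by
  change (PolynomialModule.single (S O) n v).coeff k = _
  rw [PolynomialModule.coeff_single, Finsupp.single_apply]

theorem co_smul (s : S O) (f : PX O m C) (n : ℕ) :
    (s • f).co n = (PolynomialModule.coeff (psi O m s • toPM f)) n := rfl

theorem co_C_smul (o : O) (f : PX O m C) (n : ℕ) :
    ((MvPolynomial.C o : S O) • f).co n = (MvPolynomial.C o : S O) • f.co n := by
  rw [co_smul]
  have : psi O m (MvPolynomial.C o) = Polynomial.monomial 0 (MvPolynomial.C o) := by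
    simp [psi]
  rw [this, PolynomialModule.monomial_smul_apply]; simp [co]

theorem co_X_smul_of_ne (s : ℕ ⊕ ℕ) (h : s ≠ Sum.inl m) (h' : s ≠ Sum.inr m) (f : PX O m C)
    (n : ℕ) : ((X s : S O) • f).co n = (X s : S O) • f.co n := by
  rw [co_smul]
  have : psi O m (X s) = Polynomial.monomial 0 (X s : S O) := by
    simp [psi, h, h']
  rw [this, PolynomialModule.monomial_smul_apply]; simp [co]

theorem co_X_smul_zero (s : ℕ ⊕ ℕ) (h : s = Sum.inl m ∨ s = Sum.inr m) (f : PX O m C) :
    ((X s : S O) • f).co 0 = 0 := by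
  rw [co_smul]
  have : psi O m (X s) = Polynomial.monomial 1 (1 : S O) := by
    simp [psi, h, Polynomial.monomial_one_one_eq_X]
  rw [this, PolynomialModule.monomial_smul_apply]; simp

theorem co_X_smul_succ (s : ℕ ⊕ ℕ) (h : s = Sum.inl m ∨ s = Sum.inr m) (f : PX O m C) (n : ℕ) :
    ((X s : S O) • f).co (n + 1) = f.co n := by
  rw [co_smul]
  have : psi O m (X s) = Polynomial.monomial 1 (1 : S O) := by
    simp [psi, h, Polynomial.monomial_one_one_eq_X]
  rw [this, PolynomialModule.monomial_smul_apply]; simp [co]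

end PX

/-! ## Bundled modules and words of letter bimodules -/

/-- a bundled `S`-module -/
structure SM (O : Type) [CommRing O] where
  V : Type
  [ag : AddCommGroup V]
  [md : Module (S O) V]

attribute [instance] SM.ag SM.md

/-- bundled `D2` -/
noncomputable def SM.D2 (t : Bool) (i : ℕ) (C : SM O) : SM O where
  V := CQ.D2 t i C.V

/-- bundled `C[X_m]` -/
noncomputable def SM.PX (m : ℕ) (C : SM O) : SM O where
  V := CQ.PX O m C.V

/-- bundled product -/
noncomputable def SM.prod (C D : SM O) : SM O where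
  V := C.V × D.V

/-- bundled polynomial ring on `s` strands -/
noncomputable def SM.R (O : Type) [CommRing O] (s : ℕ) : SM O where
  V := RS O s

/-- forget the differential -/
def DM.toSM (C : DM O) : SM O where
  V := C.V

/-- words of letter bimodules on side `t` -/
noncomputable def Bw (t : Bool) : List ℕ → SM O → SM O
  | [], C => C
  | i :: w, C => Bw t w (SM.D2 t i C)

/-- functoriality of `Bw` -/
noncomputable def Bw.map (t : Bool) : (w : List ℕ) → {C D : SM O} → (C.V →ₗ[S O] D.V) →
    ((Bw t w C).V →ₗ[S O] (Bw t w D).V)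
  | [], _, _, f => f
  | i :: w, C, D, f => Bw.map t w (C := SM.D2 t i C) (D := SM.D2 t i D) (CQ.D2.map f)

/-- functoriality of the crossing functor (for all `S`-linear maps) -/
noncomputable def F2.map (t : Bool) (i : ℕ) (pos : Bool) {C D : DM O} (f : C.V →ₗ[S O] D.V) :
    (F2 t i pos C).V →ₗ[S O] (F2 t i pos D).V :=
  LinearMap.prodMap f (CQ.D2.map (t := t) (i := i) f)

/-- functoriality of `Fw` (for all `S`-linear maps) -/
noncomputable def Fw.map : (w : List (ℕ × Bool)) → {C D : DM O} → (C.V →ₗ[S O] D.V) →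
    ((Fw w C).V →ₗ[S O] (Fw w D).V)
  | [], _, _, f => f
  | a :: w, C, D, f => Fw.map w (C := F2 true a.1 a.2 C) (D := F2 true a.1 a.2 D)
      (F2.map true a.1 a.2 f)

/-- a map which sends Hochschild elements to negligible ones (i.e. is zero on `T`) -/
def NegMap (P : Pot O) {C D : Type} [AddCommGroup C] [Module (S O) C] [AddCommGroup D]
    [Module (S O) D] (g : C →ₗ[S O] D) : Prop := ∀ z ∈ HH O C, g z ∈ NN P D

/-- negligible in every right context -/
def CtxNeg (P : Pot O) {C D : SM O} (g : C.V →ₗ[S O] D.V) : Prop :=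
  ∀ w : List ℕ, NegMap P (Bw.map true w g)

/-- chain map up to contextually negligible maps -/
def TChain (P : Pot O) {C D : DM O} (f : C.V →ₗ[S O] D.V) : Prop :=
  CtxNeg P (C := C.toSM) (D := D.toSM) (D.d ∘ₗ f + f ∘ₗ C.d)

/-- the letters of a word use only `s` strands -/
def Valid (s : ℕ) (w : List (ℕ × Bool)) : Prop := ∀ a ∈ w, a.1 + 1 < s

end CQ
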