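import Pool.Agent.CQ.Basic

/-!
# The E-property of an operator and finite generation of `T`: definitions
-/

set_option autoImplicit false
set_option linter.unusedSectionVars false

namespace CQ

open MvPolynomial

/-- the E-property of an operator `f` on `T(C)`: `ker f = im q(f)` and `ker q(f) = im f` -/
def EP {O : Type} [CommRing O] (P : Pot O) (C : Type) [AddCommGroup C] [Module (S O) C]
    (f : C →ₗ[S O] C) : Prop :=
  (∀ z ∈ HH O C, f z ∈ NN P C → ∃ u ∈ HH O C,
    z + (f (f u) + (MvPolynomial.C P.ka : S O) • f u + (MvPolynomial.C P.ta : S O) • u)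
      ∈ NN P C) ∧
  (∀ z ∈ HH O C,
    f (f z) + (MvPolynomial.C P.ka : S O) • f z + (MvPolynomial.C P.ta : S O) • z ∈ NN P C →
    ∃ u ∈ HH O C, z + f u ∈ NN P C)

/-- `T(C)` is a finitely generated `O`-module -/
def FG {O : Type} [CommRing O] (P : Pot O) (C : Type) [AddCommGroup C] [Module (S O) C] : Prop :=
  ∃ G : Finset C, (∀ g ∈ G, g ∈ HH O C) ∧
    ∀ z ∈ HH O C, ∃ o : C → O, z + ∑ g ∈ G, (MvPolynomial.C (o g) : S O) • g ∈ NN P C

/-- a finite family generates -/
theorem FG.of_fun {O : Type} [CommRing O] {P : Pot O} {C : Type} [AddCommGroup C]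
    [Module (S O) C] {ι : Type} [Fintype ι] (G : ι → C) (hG : ∀ j, G j ∈ HH O C)
    (h : ∀ z ∈ HH O C, ∃ o : ι → O, z + ∑ j, (MvPolynomial.C (o j) : S O) • G j ∈ NN P C) :
    FG P C := by
  classical
  refine ⟨Finset.univ.image G, fun g hg => ?_, fun z hz => ?_⟩
  · obtain ⟨j, _, rfl⟩ := Finset.mem_image.1 hg
    exact hG j
  · obtain ⟨o, ho⟩ := h z hz
    refine ⟨fun g => ∑ j ∈ Finset.univ.filter (fun j => G j = g), o j, ?_⟩
    have e : ∑ g ∈ Finset.univ.image G,
        (MvPolynomial.C (∑ j ∈ Finset.univ.filter (fun j => G j = g), o j) : S O) • g =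
        ∑ j, (MvPolynomial.C (o j) : S O) • G j := by
      rw [← Finset.sum_fiberwise_of_maps_to (s := Finset.univ) (t := Finset.univ.image G)
        (g := G) (fun j _ => Finset.mem_image_of_mem G (Finset.mem_univ j))]
      refine Finset.sum_congr rfl fun g _ => ?_
      rw [map_sum, Finset.sum_smul]
      refine Finset.sum_congr rfl fun j hj => ?_
      rw [(Finset.mem_filter.1 hj).2]
    rw [e]
    exact ho

/-- the generators as a family -/
theorem FG.exists_fun {O : Type} [CommRing O] {P : Pot O} {C : Type} [AddCommGroup C]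
    [Module (S O) C] (h : FG P C) : ∃ (n : ℕ) (G : Fin n → C), (∀ j, G j ∈ HH O C) ∧
      ∀ z ∈ HH O C, ∃ o : Fin n → O,
        z + ∑ j, (MvPolynomial.C (o j) : S O) • G j ∈ NN P C := by
  classical
  obtain ⟨G, hG, h⟩ := h
  refine ⟨G.card, fun j => (G.equivFin.symm j : C), fun j => hG _ (G.equivFin.symm j).2,
    fun z hz => ?_⟩
  obtain ⟨o, ho⟩ := h z hz
  refine ⟨fun j => o (G.equivFin.symm j : C), ?_⟩
  have e : ∑ j, (MvPolynomial.C (o (G.equivFin.symm j : C)) : S O) • (G.equivFin.symm j : C) =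
      ∑ g ∈ G, (MvPolynomial.C (o g) : S O) • g := by
    rw [← Finset.sum_coe_sort G (fun g => (MvPolynomial.C (o g) : S O) • g)]
    exact Equiv.sum_comp G.equivFin.symm
      (fun g : G => (MvPolynomial.C (o (g : C)) : S O) • (g : C))
  rw [e]
  exact ho

end CQ
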