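import Pool.Agent.CQ.Shift

/-!
# Adding strands on both sides of a word

`Fw w (R0 m)` embeds into `Fw (sh n w) (R0 s)` for `n + m ≤ s`; the Hochschild elements of the
second are generated by those of the first and by the left variables, and functionals extend.
-/

set_option autoImplicit false
set_option linter.unusedSectionVars false
set_option linter.unusedSimpArgs false

namespace CQ.K

open MvPolynomial CQ CQ.G CQ.Gen
open Pool.Agent.CQ (sh)

variable {O : Type} [CommRing O] [CharP O 2]

/-! ## pull-back of modules -/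

/-- pull-back of a module along a strand map -/
def PB (_θ : ℕ → ℕ ⊕ O) (C : Type) : Type := C

instance {θ : ℕ → ℕ ⊕ O} {C : Type} [AddCommGroup C] : AddCommGroup (PB θ C) :=
  inferInstanceAs (AddCommGroup C)

noncomputable instance {θ : ℕ → ℕ ⊕ O} {C : Type} [AddCommGroup C] [Module (S O) C] :
    Module (S O) (PB θ C) := Module.compHom C (ths θ)

theorem PB_smul {θ : ℕ → ℕ ⊕ O} {C : Type} [AddCommGroup C] [Module (S O) C] (p : S O)
    (v : PB θ C) : p • v = (ths θ p • (show C from v) : C) := rfl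

/-- pull-back of the base module -/
noncomputable def H0 (θ : ℕ → ℕ ⊕ O) (s : ℕ) : DM O where
  V := PB θ (RS O s)
  d := 0
  dd _ := rfl
  ep := 0
  epd _ _ := rfl

/-- the identity of the underlying groups -/
noncomputable def idH (θ : ℕ → ℕ ⊕ O) (s : ℕ) : (H0 θ s).V →+ (R0 O s).V :=
  AddMonoidHom.id (RS O s)

theorem idH_SL (θ : ℕ → ℕ ⊕ O) (s : ℕ) : SL θ (idH θ s) := by
  refine ⟨fun o v => ?_, fun j v => ?_, fun j v => ?_⟩
  · change (ths θ (MvPolynomial.C o) • (show RS O s from v) : RS O s) =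
      (MvPolynomial.C o : S O) • (show RS O s from v)
    rw [ths_C]
  · change (ths θ (xv O j) • (show RS O s from v) : RS O s) =
      tv false (θ j) • (show RS O s from v)
    rw [ths_x]
  · change (ths θ (yv O j) • (show RS O s from v) : RS O s) =
      tv true (θ j) • (show RS O s from v)
    rw [ths_y]

theorem rho_C (s : ℕ) (o : O) : rho O s (MvPolynomial.C o) = MvPolynomial.C o := by simp [rho]

theorem rho_y {s j : ℕ} (h : j < s) : rho O s (X (inj true j)) = X ⟨j, h⟩ := by
  simp [rho, inj, h]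

theorem rho_x {s j : ℕ} (h : j < s) : rho O s (xv O j) = X ⟨j, h⟩ := by
  simp [rho, h]

theorem rho_ren (m : ℕ) (p : RS O m) : rho O m (ren O m p) = p := by
  have h : (rho O m).comp (ren O m) = RingHom.id _ := by
    apply MvPolynomial.ringHom_ext
    · intro o
      rw [RingHom.comp_apply, ren_C, rho_C]; rfl
    · intro i
      rw [RingHom.comp_apply, ren_X]
      exact rho_y i.2
  exact RingHom.congr_fun h p

theorem tv_RS (s : ℕ) (x : ℕ ⊕ O) (v : RS O s) : tv false x • v = tv true x • v := by
  rw [RS_smul_def, RS_smul_def, rho_tv]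

theorem un_H0 (θ : ℕ → ℕ ⊕ O) (s j : ℕ) : Un (O := O) j (H0 θ s).V := by
  intro v
  change (ths θ (xv O j) • (show RS O s from v) : RS O s) =
    ths θ (yv O j) • (show RS O s from v)
  rw [ths_x, ths_y]
  exact tv_RS s _ _

theorem un_RS (s j : ℕ) : Un (O := O) j (RS O s) := fun v => mem_HH_RS s v j

/-! ## strand maps up and down -/

/-- strands `j < m` go to `n + j` -/
def tu (O : Type) [CommRing O] (n m : ℕ) (j : ℕ) : ℕ ⊕ O := if j < m then Sum.inl (n + j) else Sum.inr 0

/-- strands `n + j`, `j < m`, go to `j`, the others are specialised -/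
def td (n m : ℕ) (c : ℕ → O) (j : ℕ) : ℕ ⊕ O :=
  if n ≤ j ∧ j < n + m then Sum.inl (j - n) else Sum.inr (c j)

theorem tu_adm {n m i : ℕ} (h : i + 1 < m) : Adm (tu O n m) i (n + i) := by
  refine ⟨?_, ?_, ?_⟩
  · simp [tu, show i < m by omega]
  · simp [tu, h, add_assoc]
  · intro j h1 h2
    unfold tu
    split_ifs with h3
    · constructor
      · intro e
        have := Sum.inl_injective e
        omega
      · intro e
        have := Sum.inl_injective e
        omega
    · exact ⟨Sum.inr_ne_inl, Sum.inr_ne_inl⟩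

theorem td_adm {n m i : ℕ} {c : ℕ → O} (h : i + 1 < m) : Adm (td n m c) (n + i) i := by
  refine ⟨?_, ?_, ?_⟩
  · have : n + i < n + m := by omega
    simp [td, this]
  · have h1 : n ≤ n + i + 1 := by omega
    have h2 : n + i + 1 < n + m := by omega
    have h3 : n + i + 1 - n = i + 1 := by omega
    simp [td, h1, h2, h3]
  · intro j h1 h2
    unfold td
    split_ifs with h3
    · constructor
      · intro e
        have := Sum.inl_injective e
        omega
      · intro e
        have := Sum.inl_injective e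
        omega
    · exact ⟨Sum.inr_ne_inl, Sum.inr_ne_inl⟩

theorem col_td {n m : ℕ} {c c' : ℕ → O} (h : ∀ j < m, c (n + j) = c' j) :
    col (td n m c) c' = c := by
  funext j
  unfold col td
  split_ifs with h1
  · have h2 : j - n < m := by omega
    have h3 : n + (j - n) = j := by omega
    have h4 := h (j - n) h2
    rw [h3] at h4
    exact h4.symm
  · rfl

/-- multiplication by `q` after the base map -/
noncomputable def mq (m s : ℕ) (θ : ℕ → ℕ ⊕ O) (q : RS O s) : (R0 O m).V →+ (R0 O s).V :=
  (AddMonoidHom.mulLeft (show MvPolynomial (Fin s) O from q)).comp (bm m s θ).toAddMonoidHom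

theorem mq_apply (m s : ℕ) (θ : ℕ → ℕ ⊕ O) (q : RS O s) (p : RS O m) :
    (mq m s θ q p : RS O s) = q * bm m s θ p := rfl

/-- the base map as a map of differential modules -/
noncomputable def bmD (m s : ℕ) (θ : ℕ → ℕ ⊕ O) : (R0 O m).V →+ (R0 O s).V :=
  (bm m s θ).toAddMonoidHom

theorem exists_pull {C D : Type} [AddCommGroup C] [Module (S O) C] [AddCommGroup D]
    [Module (S O) D] {θ : ℕ → ℕ ⊕ O} {f : C →+ D} (hf : SL θ f) {c c' : ℕ → O}
    (h : col θ c' = c) (ψ : D →ₛₗ[ev c'] O) : ∃ ψ' : C →ₛₗ[ev c] O, ∀ v, ψ' v = ψ (f v) := by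
  subst h
  exact ⟨hf.pull ψ, fun v => rfl⟩

/-- Properties of the embedding. -/
structure Emb (n m s : ℕ) (w v : List (ℕ × Bool)) (f : (Fw w (R0 O m)).V →+ (Fw v (R0 O s)).V) :
    Prop where
  c : ∀ (o : O) (g), f ((MvPolynomial.C o : S O) • g) = (MvPolynomial.C o : S O) • f g
  x : ∀ j < m, ∀ g, f (xv O j • g) = xv O (n + j) • f g
  d : ∀ g, f ((Fw w (R0 O m)).d g) = (Fw v (R0 O s)).d (f g)
  ep : ∀ g, (Fw v (R0 O s)).ep (f g) = (Fw w (R0 O m)).ep g
  hh : ∀ g ∈ HH O (Fw w (R0 O m)).V, f g ∈ HH O (Fw v (R0 O s)).V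
  nn : ∀ (P : Pot O), ∀ g ∈ NN P (Fw w (R0 O m)).V, f g ∈ NN P (Fw v (R0 O s)).V
  gen : ∀ T : AddSubgroup (Fw v (R0 O s)).V, (∀ g ∈ HH O (Fw w (R0 O m)).V, f g ∈ T) →
    (∀ (o : O), ∀ z ∈ T, (MvPolynomial.C o : S O) • z ∈ T) →
    (∀ j < s, ∀ z ∈ T, xv O j • z ∈ T) → ∀ z ∈ HH O (Fw v (R0 O s)).V, z ∈ T
  ext : ∀ c c' : ℕ → O, (∀ j < m, c (n + j) = c' j) → (∀ j, s ≤ j → c j = 0) →
    ∀ ψ : (Fw w (R0 O m)).V →ₛₗ[ev c'] O, ∃ ψ' : (Fw v (R0 O s)).V →ₛₗ[ev c] O,
      ∀ g, ψ' (f g) = ψ g

section
variable {n m s : ℕ} (h : n + m ≤ s) {w : List (ℕ × Bool)} (hw : Valid m w)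
include h hw

theorem emb_gen (T : AddSubgroup (Fw (sh n w) (R0 O s)).V)
    (h1 : ∀ g ∈ HH O (Fw w (R0 O m)).V,
      up n w (C := R0 O m) (D := R0 O s) (bmD m s (tu O n m)) g ∈ T)
    (h2 : ∀ (o : O), ∀ z ∈ T, (MvPolynomial.C o : S O) • z ∈ T)
    (h3 : ∀ j < s, ∀ z ∈ T, xv O j • z ∈ T) (z : (Fw (sh n w) (R0 O s)).V)
    (hz : z ∈ HH O (Fw (sh n w) (R0 O s)).V) : z ∈ T := by
  have hadm : ∀ a ∈ w, Adm (tu O n m) a.1 (n + a.1) := fun a ha => tu_adm (hw a ha)
  have hbij : Function.Bijective (up n w (C := H0 (tu O n m) s) (D := R0 O s)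
      (idH (tu O n m) s)) := up_bijective w Function.bijective_id
  have hSL := up_SL (C := H0 (tu O n m) s) (D := R0 O s) w (idH_SL (tu O n m) s) hadm
  obtain ⟨z0, rfl⟩ := hbij.2 z
  have hz0 : z0 ∈ HH O (Fw w (H0 (tu O n m) s)).V := by
    intro j
    apply hbij.1
    rw [hSL.x, hSL.y]
    unfold tu
    split_ifs with hj
    · exact hz (n + j)
    · rfl
  have hV : Van (O := O) m (H0 (tu O n m) s).V := by
    intro j hj v
    have e : ∀ t, tv t (tu O n m j) = 0 := by
      intro t
      rw [tu, if_neg (by omega)]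
      exact map_zero MvPolynomial.C
    constructor
    · change (ths (tu O n m) (xv O j) • (show RS O s from v) : RS O s) = 0
      rw [ths_x, e, zero_smul]
    · change (ths (tu O n m) (yv O j) • (show RS O s from v) : RS O s) = 0
      rw [ths_y, e, zero_smul]
  have hgen := gen_Fw m (H0 (tu O n m) s) (un_H0 _ s) hV w hw z0 hz0
  -- every generator goes to `T`
  have key : ∀ (q : RS O s) (b : (Fw w (R0 O m)).V), b ∈ HH O (Fw w (R0 O m)).V →
      up n w (C := R0 O m) (D := R0 O s) (mq m s (tu O n m) q) b ∈ T := by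
    intro q b hb
    induction q using MvPolynomial.induction_on with
    | C o =>
      have e := up_const (n := n) (C := R0 O m) (D := R0 O s) w (bmD m s (tu O n m))
        (mq m s (tu O n m) (MvPolynomial.C o)) o (fun p => by
          change (MvPolynomial.C o : RS O s) * bm m s (tu O n m) p =
            (MvPolynomial.C o : S O) • (bm m s (tu O n m) p : RS O s)
          rw [RS_smul_def, rho_C]) b
      rw [e]
      exact h2 o _ (h1 b hb)
    | add p q hp hq =>
      have e : mq m s (tu O n m) (p + q) = mq m s (tu O n m) p + mq m s (tu O n m) q := by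
        apply AddMonoidHom.ext
        intro r
        change ((p + q) * bm m s (tu O n m) r : RS O s) =
          (p * bm m s (tu O n m) r : RS O s) + q * bm m s (tu O n m) r
        exact add_mul _ _ _
      rw [e, up_add]
      exact add_mem hp hq
    | mul_X q j hq =>
      have e := up_left (n := n) (C := R0 O m) (D := R0 O s) w (mq m s (tu O n m) q)
        (mq m s (tu O n m) (q * X j)) j (fun p => by
          change ((q * X j) * bm m s (tu O n m) p : RS O s) =
            xv O (j : ℕ) • (q * bm m s (tu O n m) p : RS O s)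
          rw [RS_smul_def, rho_x j.2]
          ring) b
      rw [e]
      exact h3 j j.2 _ hq
  have hle : AddSubgroup.closure {y | ∃ f ∈ (Set.univ : Set ((R0 O m).V →ₗ[S O] (H0 (tu O n m) s).V)),
      ∃ b ∈ HH O (Fw w (R0 O m)).V, y = Fw.map w f b} ≤
      T.comap (up n w (C := H0 (tu O n m) s) (D := R0 O s) (idH (tu O n m) s)) := by
    rw [AddSubgroup.closure_le]
    rintro _ ⟨f, -, b, hb, rfl⟩
    change up n w (C := H0 (tu O n m) s) (D := R0 O s) (idH (tu O n m) s) (Fw.map w f b) ∈ T
    have e := up_map (n := n) (B := R0 O m) (C := H0 (tu O n m) s) (D := R0 O s)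
      (f := idH (tu O n m) s) w f
      (mq m s (tu O n m) (show RS O s from f (show RS O m from 1))) ?_ b
    · rw [← e]
      exact key _ b hb
    · intro p
      have e1 : p = (ren O m (show RS O m from p) • (show RS O m from 1) : RS O m) := by
        rw [RS_smul_def, rho_ren, mul_one]
      have e2 : f p = ren O m (show RS O m from p) • f (show RS O m from 1) := by
        conv_lhs => rw [e1]
        exact f.map_smul _ _
      rw [e2]
      change (show RS O s from f (show RS O m from 1)) * bm m s (tu O n m) p =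
        (ths (tu O n m) (ren O m (show RS O m from p)) •
          (show RS O s from f (show RS O m from 1)) : RS O s)
      rw [RS_smul_def]
      exact mul_comm _ _
  exact hle hgen

theorem emb : Emb n m s w (sh n w)
    (up n w (C := R0 O m) (D := R0 O s) (bmD m s (tu O n m))) := by
  have hadm : ∀ a ∈ w, Adm (tu O n m) a.1 (n + a.1) := fun a ha => tu_adm (hw a ha)
  have h0 : ∀ j, m ≤ j → rho O s (tv true (tu O n m j)) = 0 := by
    intro j hj
    rw [tu, if_neg (by omega)]
    change rho O s (MvPolynomial.C 0) = 0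
    rw [map_zero, map_zero]
  have hSL0 : SL (tu O n m) (C := (R0 O m).V) (D := (R0 O s).V) (bmD m s (tu O n m)) :=
    bm_SL m s (tu O n m) h0
  have hSL := up_SL (n := n) w hSL0 hadm
  have hX : ∀ j : Fin m, bm m s (tu O n m) (X j) = X ⟨n + j, by omega⟩ := by
    intro j
    rw [bm_X, tu, if_pos j.2]
    exact rho_y _
  refine ⟨hSL.c, ?_, ?_, ?_, ?_, ?_, emb_gen h hw, ?_⟩
  · intro j hj g
    rw [hSL.x, tu, if_pos hj]
    rfl
  · exact up_d w hSL0 hadm (fun v => map_zero _)
  · refine up_ep w ?_
    intro v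
    change MvPolynomial.eval (0 : Fin s → O) (bm m s (tu O n m) v) =
      MvPolynomial.eval (0 : Fin m → O) v
    have e : (MvPolynomial.eval (0 : Fin s → O)).comp (bm m s (tu O n m)) =
        MvPolynomial.eval (0 : Fin m → O) := by
      apply MvPolynomial.ringHom_ext
      · intro o
        rw [RingHom.comp_apply, bm_C]; simp
      · intro j
        rw [RingHom.comp_apply, hX]; simp
    exact RingHom.congr_fun e v
  · intro g hg
    refine hSL.mem_HH ?_ hg
    intro j'
    by_cases h1 : n ≤ j' ∧ j' < n + m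
    · left
      refine ⟨j' - n, ?_⟩
      rw [tu, if_pos (by omega)]
      congr 1
      omega
    · right
      refine (un_RS s j').Fw (C := R0 O s) ?_
      intro a ha
      obtain ⟨b, hb, rfl⟩ := List.mem_map.1 ha
      have := hw b hb
      simp only
      omega
  · intro P g hg
    refine hSL.mem_NN ?_ hg
    intro j o ho
    unfold tu at ho
    split_ifs at ho
    have : o = 0 := (Sum.inr_injective ho).symm
    rw [this]
    exact Or.inl rfl
  · intro c c' hc hc0 ψ
    have hadm' : ∀ a ∈ w, Adm (td n m c) (n + a.1) a.1 := fun a ha => td_adm (hw a ha)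
    have h0' : ∀ j, s ≤ j → rho O m (tv true (td n m c j)) = 0 := by
      intro j hj
      rw [td, if_neg (by omega), hc0 j hj]
      change rho O m (MvPolynomial.C 0) = 0
      rw [map_zero, map_zero]
    have hSLd0 : SL (td n m c) (C := (R0 O s).V) (D := (R0 O m).V) (bmD s m (td n m c)) :=
      bm_SL s m (td n m c) h0'
    have hSLd := dn_SL (n := n) (C := R0 O s) (D := R0 O m) w hSLd0 hadm'
    have hr : ∀ v : RS O m, bm s m (td n m c) (bm m s (tu O n m) v) = v := by
      have e : (bm s m (td n m c)).comp (bm m s (tu O n m)) = RingHom.id _ := by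
        apply MvPolynomial.ringHom_ext
        · intro o
          rw [RingHom.comp_apply, bm_C, bm_C]; rfl
        · intro j
          have h1 : n ≤ n + (j : ℕ) ∧ n + (j : ℕ) < n + m := by omega
          have h2 : n + (j : ℕ) - n = j := by omega
          rw [RingHom.comp_apply, hX, bm_X, td, if_pos h1, h2]
          exact rho_y j.2
      exact fun v => RingHom.congr_fun e v
    obtain ⟨ψ', hψ'⟩ := exists_pull hSLd (col_td hc) ψ
    exact ⟨ψ', fun g => (hψ' _).trans (congrArg ψ (dn_up (n := n) (C := R0 O m) (D := R0 O s)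
      (f := bmD m s (tu O n m)) w (bmD s m (td n m c)) hr g))⟩

end

theorem sh_zero (w : List (ℕ × Bool)) : sh 0 w = w := by
  simp [sh]

/-- existence of the embedding -/
theorem exists_emb {n m s : ℕ} (h : n + m ≤ s) {w : List (ℕ × Bool)} (hw : Valid m w) :
    ∃ f : (Fw w (R0 O m)).V →+ (Fw (sh n w) (R0 O s)).V, Emb n m s w (sh n w) f :=
  ⟨_, emb h hw⟩

theorem exists_emb0 {m s : ℕ} (h : m ≤ s) {w : List (ℕ × Bool)} (hw : Valid m w) :
    ∃ f : (Fw w (R0 O m)).V →+ (Fw w (R0 O s)).V, Emb 0 m s w w f := by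
  have key := exists_emb (O := O) (n := 0) (m := m) (s := s) (by omega) hw
  rw [sh_zero] at key
  exact key

end CQ.K
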