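import Pool.Agent.CQ.Stmt

/-!
# From a family of word invariants to the infinite rank of `C / Q`

`WordInv f` is the list of all properties of one invariant `f` (one theory) that have to be proved
by the algebra part.
-/

namespace Pool.Agent.CQ

open scoped TensorProduct

/-- Braid words: `(i, true)` is the letter `σ i`, `(i, false)` the letter `(σ i)⁻¹`. -/
abbrev Word (n : ℕ) : Type := List (Fin n × Bool)

/-- The braid of a word. -/
def toBraid {n : ℕ} (w : Word n) : Braid n := PresentedGroup.mk (artinRels n) (FreeGroup.mk w)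

@[simp] theorem toBraid_nil {n : ℕ} : toBraid ([] : Word n) = 1 := by
  have : FreeGroup.mk ([] : Word n) = 1 := rfl
  rw [toBraid, this, map_one]

theorem toBraid_append {n : ℕ} (u v : Word n) : toBraid (u ++ v) = toBraid u * toBraid v := by
  rw [toBraid, ← FreeGroup.mul_mk, map_mul]; rfl

theorem toBraid_cons {n : ℕ} (a : Fin n × Bool) (v : Word n) :
    toBraid (a :: v) = toBraid [a] * toBraid v := toBraid_append [a] v

@[simp] theorem toBraid_true {n : ℕ} (i : Fin n) : toBraid [(i, true)] = σ i := rfl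

@[simp] theorem toBraid_false {n : ℕ} (i : Fin n) : toBraid [(i, false)] = (σ i)⁻¹ := by
  have : FreeGroup.mk [(i, false)] = (FreeGroup.of i)⁻¹ := rfl
  rw [toBraid, this, map_inv]; rfl

theorem toBraid_surj {n : ℕ} (β : Braid n) : ∃ w : Word n, toBraid w = β := by
  obtain ⟨z, rfl⟩ := PresentedGroup.mk_surjective (artinRels n) β
  exact ⟨z.toWord, by rw [toBraid, FreeGroup.mk_toWord]⟩

/-- The inverse word. -/
def winv {n : ℕ} (w : Word n) : Word n := (w.map fun x => (x.1, !x.2)).reverse

theorem toBraid_winv {n : ℕ} (w : Word n) : toBraid (winv w) = (toBraid w)⁻¹ := by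
  rw [toBraid, toBraid, ← map_inv, FreeGroup.inv_mk]; rfl

/-- The word of the connected sum. -/
def wsum {n m : ℕ} (w : Word n) (w' : Word m) : Word (n + m) :=
  w.map (fun x => (Fin.castAdd m x.1, x.2)) ++ w'.map (fun x => (Fin.natAdd n x.1, x.2))

theorem toBraid_inl {n m : ℕ} (w : Word n) :
    toBraid (w.map fun x => (Fin.castAdd m x.1, x.2)) = inl n m (toBraid w) := by
  induction w with
  | nil => simp
  | cons a w ih =>
    rw [List.map_cons, toBraid_cons, ih, toBraid_cons a w, map_mul]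
    congr 1
    rcases a with ⟨i, b⟩
    cases b <;> simp

theorem toBraid_inr {n m : ℕ} (w : Word m) :
    toBraid (w.map fun x => (Fin.natAdd n x.1, x.2)) = inr n m (toBraid w) := by
  induction w with
  | nil => simp
  | cons a w ih =>
    rw [List.map_cons, toBraid_cons, ih, toBraid_cons a w, map_mul]
    congr 1
    rcases a with ⟨i, b⟩
    cases b <;> simp

theorem toBraid_wsum {n m : ℕ} (w : Word n) (w' : Word m) :
    toBraid (wsum w w') = inl n m (toBraid w) * inr n m (toBraid w') := by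
  rw [wsum, toBraid_append, toBraid_inl, toBraid_inr]

/-- The writhe of a word. -/
def writhe {n : ℕ} (w : Word n) : ℤ := (w.map fun x => if x.2 then (1 : ℤ) else -1).sum

theorem writhe_append {n : ℕ} (u v : Word n) : writhe (u ++ v) = writhe u + writhe v := by
  simp [writhe]

theorem writhe_winv {n : ℕ} (w : Word n) : writhe (winv w) = - writhe w := by
  induction w with
  | nil => simp [writhe, winv]
  | cons a w ih =>
    rcases a with ⟨i, b⟩
    have h1 : winv ((i, b) :: w) = winv w ++ [(i, !b)] := by simp [winv]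
    have h2 : writhe ((i, b) :: w) = writhe [(i, b)] + writhe w := writhe_append [(i, b)] w
    rw [h1, writhe_append, ih, h2]
    cases b <;> simp [writhe]

/-- The properties of one invariant which the algebra has to supply. -/
structure WordInv (f : ∀ n : ℕ, Word n → ℚ) : Prop where
  cancel : ∀ (n : ℕ) (u v : Word n) (i : Fin n) (b : Bool),
    f n (u ++ (i, b) :: (i, !b) :: v) = f n (u ++ v)
  comm : ∀ (n : ℕ) (u v : Word n) (i j : Fin n), (i : ℕ) + 2 ≤ j →
    f n (u ++ (i, true) :: (j, true) :: v) = f n (u ++ (j, true) :: (i, true) :: v)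
  braid : ∀ (n : ℕ) (u v : Word n) (i j : Fin n), (i : ℕ) + 1 = j →
    f n (u ++ (i, true) :: (j, true) :: (i, true) :: v) =
      f n (u ++ (j, true) :: (i, true) :: (j, true) :: v)
  rot : ∀ (n : ℕ) (a : Fin n × Bool) (w : Word n), IsKnot (toBraid (a :: w)) →
    f n (w ++ [a]) = f n (a :: w)
  add : ∀ (n m : ℕ) (w : Word n) (w' : Word m), IsKnot (toBraid w) → IsKnot (toBraid w') →
    f (n + m) (wsum w w') = f n w + f m w'
  unlink : ∀ n : ℕ, (n : ℚ) / 2 ≤ f n []
  insert : ∀ (n : ℕ) (u v : Word n) (a : Fin n × Bool), f n (u ++ v) - 1 / 2 ≤ f n (u ++ a :: v)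
  canon : ∀ (n : ℕ) (w : Word n), ((writhe w : ℚ) - n) / 2 ≤ f n w
  mirror : ∀ (n : ℕ) (w : Word n), IsKnot (toBraid w) → f n w + f n (winv w) ≤ 0

/-! ### Words to braids -/

section descend

variable {n : ℕ} {X : Type*}

/-- The context congruence of `f`. -/
def ctxCon (f : Word n → X) : Con (FreeMonoid (Fin n × Bool)) where
  r w w' := ∀ u v : Word n, f (u ++ FreeMonoid.toList w ++ v) = f (u ++ FreeMonoid.toList w' ++ v)
  iseqv := ⟨fun _ _ _ => rfl, fun h u v => (h u v).symm, fun h h' u v => (h u v).trans (h' u v)⟩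
  mul' := by
    intro w x y z h h' u v
    have h1 := h u (FreeMonoid.toList y ++ v)
    have h2 := h' (u ++ FreeMonoid.toList x) v
    simp only [FreeMonoid.toList_mul, List.append_assoc] at h1 h2 ⊢
    rw [h1, h2]

theorem descend (f : Word n → X)
    (h0 : ∀ (u v : Word n) (i : Fin n) (b : Bool), f (u ++ (i, b) :: (i, !b) :: v) = f (u ++ v))
    (h1 : ∀ (u v : Word n) (i j : Fin n), (i : ℕ) + 2 ≤ j →
      f (u ++ (i, true) :: (j, true) :: v) = f (u ++ (j, true) :: (i, true) :: v))
    (h2 : ∀ (u v : Word n) (i j : Fin n), (i : ℕ) + 1 = j →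
      f (u ++ (i, true) :: (j, true) :: (i, true) :: v) =
        f (u ++ (j, true) :: (i, true) :: (j, true) :: v))
    (w w' : Word n) (h : toBraid w = toBraid w') : f w = f w' := by
  classical
  set c := ctxCon f with hc
  let g : Fin n × Bool → c.Quotient := fun a => ((FreeMonoid.of a : FreeMonoid _) : c.Quotient)
  have hg : ∀ (i : Fin n) (b : Bool), g (i, b) * g (i, !b) = 1 := by
    intro i b
    have : c (FreeMonoid.of (i, b) * FreeMonoid.of (i, !b)) 1 := by
      intro u v
      have := h0 u v i b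
      simpa [FreeMonoid.toList_mul] using this
    have h3 := (Con.eq c).mpr this
    simpa [g] using h3
  let G : Fin n → (c.Quotient)ˣ := fun i =>
    ⟨g (i, true), g (i, false), by simpa using hg i true, by simpa using hg i false⟩
  have hG1 : ∀ i j : Fin n, (i : ℕ) + 2 ≤ j → G i * G j = G j * G i := by
    intro i j hij
    apply Units.ext
    have : c (FreeMonoid.of (i, true) * FreeMonoid.of (j, true))
        (FreeMonoid.of (j, true) * FreeMonoid.of (i, true)) := by
      intro u v
      have := h1 u v i j hij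
      simpa [FreeMonoid.toList_mul] using this
    have h3 := (Con.eq c).mpr this
    simpa [G, g] using h3
  have hG2 : ∀ i j : Fin n, (i : ℕ) + 1 = j → G i * G j * G i = G j * G i * G j := by
    intro i j hij
    apply Units.ext
    have : c (FreeMonoid.of (i, true) * FreeMonoid.of (j, true) * FreeMonoid.of (i, true))
        (FreeMonoid.of (j, true) * FreeMonoid.of (i, true) * FreeMonoid.of (j, true)) := by
      intro u v
      have := h2 u v i j hij
      simpa [FreeMonoid.toList_mul] using this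
    have h3 := (Con.eq c).mpr this
    simpa [G, g] using h3
  let φ : Braid n →* (c.Quotient)ˣ := lift G hG1 hG2
  have hφ : ∀ w : Word n, ((φ (toBraid w) : (c.Quotient)ˣ) : c.Quotient) =
      ((FreeMonoid.ofList w : FreeMonoid _) : c.Quotient) := by
    intro w
    induction w with
    | nil => simp
    | cons a w ih =>
      rw [toBraid_cons, map_mul, Units.val_mul, ih]
      have h4 : (FreeMonoid.ofList (a :: w) : FreeMonoid _) =
        FreeMonoid.of a * FreeMonoid.ofList w := rfl
      rw [h4, Con.coe_mul]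
      congr 1
      rcases a with ⟨i, b⟩
      cases b
      · simp only [toBraid_false, map_inv, φ, lift_σ]
        rfl
      · simp only [toBraid_true, φ, lift_σ]
        rfl
  have h5 : ((FreeMonoid.ofList w : FreeMonoid _) : c.Quotient) =
      ((FreeMonoid.ofList w' : FreeMonoid _) : c.Quotient) := by
    rw [← hφ, ← hφ, h]
  have h6 := (Con.eq c).mp h5 [] []
  simpa using h6

end descend

/-! ### The invariant on braids and its properties -/

section inv

variable {f : ∀ n : ℕ, Word n → ℚ}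

/-- The invariant of a braid. -/
noncomputable def FB (f : ∀ n : ℕ, Word n → ℚ) {n : ℕ} (β : Braid n) : ℚ :=
  f n (toBraid_surj β).choose

theorem FB_toBraid (hf : WordInv f) {n : ℕ} (w : Word n) : FB f (toBraid w) = f n w :=
  descend (f n) (hf.cancel n) (hf.comm n) (hf.braid n) _ _ (toBraid_surj (toBraid w)).choose_spec

theorem FB_rot (hf : WordInv f) {n : ℕ} (u v : Word n) (h : IsKnot (toBraid (u ++ v))) :
    f n (v ++ u) = f n (u ++ v) := by
  induction u generalizing v with
  | nil => simp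
  | cons a u ih =>
    have h1 : IsKnot (toBraid (u ++ (v ++ [a]))) := by
      have h2 := h.conj (toBraid [a])⁻¹
      have h3 : (toBraid [a])⁻¹ * toBraid (a :: u ++ v) * (toBraid [a])⁻¹⁻¹ =
          toBraid (u ++ (v ++ [a])) := by
        simp only [List.cons_append, toBraid_cons a (u ++ v), toBraid_append]
        group
      rwa [h3] at h2
    have h4 := ih (v ++ [a]) h1
    have h5 := hf.rot n a (u ++ v) h
    simp only [List.append_assoc, List.cons_append, List.nil_append] at h4 h5 ⊢
    rw [h4, h5]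

theorem FB_conj (hf : WordInv f) {n : ℕ} (β γ : Braid n) (h : IsKnot β) :
    FB f (γ * β * γ⁻¹) = FB f β := by
  obtain ⟨w, rfl⟩ := toBraid_surj β
  obtain ⟨c, rfl⟩ := toBraid_surj γ
  have h1 : toBraid c * toBraid w * (toBraid c)⁻¹ = toBraid (c ++ (w ++ winv c)) := by
    rw [toBraid_append, toBraid_append, toBraid_winv, mul_assoc]
  have h2 : IsKnot (toBraid (c ++ (w ++ winv c))) := by
    rw [← h1]; exact h.conj _
  rw [h1, FB_toBraid hf, ← FB_rot hf _ _ h2, ← FB_toBraid hf]
  congr 1
  rw [toBraid_append, toBraid_append, toBraid_winv]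
  group

theorem FB_sum (hf : WordInv f) {n m : ℕ} (β : Braid n) (γ : Braid m) (h : IsKnot β)
    (h' : IsKnot γ) : FB f (inl n m β * inr n m γ) = FB f β + FB f γ := by
  obtain ⟨w, rfl⟩ := toBraid_surj β
  obtain ⟨w', rfl⟩ := toBraid_surj γ
  rw [← toBraid_wsum, FB_toBraid hf, FB_toBraid hf, FB_toBraid hf, hf.add n m w w' h h']

theorem FB_mirror (hf : WordInv f) {n : ℕ} (β : Braid n) (h : IsKnot β) :
    FB f β + FB f β⁻¹ ≤ 0 := by
  obtain ⟨w, rfl⟩ := toBraid_surj β
  rw [← toBraid_winv, FB_toBraid hf, FB_toBraid hf]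
  exact hf.mirror n w h

theorem FB_insert (hf : WordInv f) {n : ℕ} (α β : Braid n) (i : Fin n) :
    FB f (α * β) - 1 / 2 ≤ FB f (α * σ i * β) ∧ FB f (α * β) - 1 / 2 ≤ FB f (α * (σ i)⁻¹ * β) := by
  obtain ⟨u, rfl⟩ := toBraid_surj α
  obtain ⟨v, rfl⟩ := toBraid_surj β
  constructor
  · have h1 : toBraid u * σ i * toBraid v = toBraid (u ++ (i, true) :: v) := by
      rw [toBraid_append, toBraid_cons, toBraid_true, mul_assoc]
    rw [h1, ← toBraid_append, FB_toBraid hf, FB_toBraid hf]
    exact hf.insert n u v _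
  · have h1 : toBraid u * (σ i)⁻¹ * toBraid v = toBraid (u ++ (i, false) :: v) := by
      rw [toBraid_append, toBraid_cons, toBraid_false, mul_assoc]
    rw [h1, ← toBraid_append, FB_toBraid hf, FB_toBraid hf]
    exact hf.insert n u v _

theorem FB_band (hf : WordInv f) {n : ℕ} (α b : Braid n) (hb : IsBand b) :
    FB f α - 1 / 2 ≤ FB f (α * b) := by
  rcases hb with ⟨w, i, rfl⟩ | ⟨w, i, hb⟩
  · have h1 := (FB_insert hf (α * w) w⁻¹ i).1
    rw [mul_inv_cancel_right] at h1
    have h2 : α * (w * σ i * w⁻¹) = α * w * σ i * w⁻¹ := by group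
    rw [h2]; exact h1
  · have h1 := (FB_insert hf (α * w) w⁻¹ i).2
    rw [mul_inv_cancel_right] at h1
    have h2 : α * b = α * w * (σ i)⁻¹ * w⁻¹ := by
      have : b = (w * σ i * w⁻¹)⁻¹ := by rw [← hb, inv_inv]
      rw [this]; group
    rw [h2]; exact h1

theorem FB_bands (hf : WordInv f) {n : ℕ} (l : List (Braid n)) (hl : ∀ b ∈ l, IsBand b)
    (α : Braid n) : FB f α - (l.length : ℚ) / 2 ≤ FB f (α * l.prod) := by
  induction l generalizing α with
  | nil => simp
  | cons b l ih =>
    have h1 := ih (fun b hb => hl b (List.mem_cons_of_mem _ hb)) (α * b)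
    have h2 := FB_band hf α b (hl b List.mem_cons_self)
    rw [List.prod_cons, List.length_cons, ← mul_assoc]
    push_cast
    linarith

theorem FB_one (hf : WordInv f) (n : ℕ) : (n : ℚ) / 2 ≤ FB f (1 : Braid n) := by
  rw [← toBraid_nil, FB_toBraid hf]
  exact hf.unlink n

theorem FB_prod (hf : WordInv f) {n : ℕ} (l : List (Braid n)) (hl : ∀ b ∈ l, IsBand b) :
    ((n : ℚ) - l.length) / 2 ≤ FB f l.prod := by
  have h1 := FB_bands hf l hl 1
  have h2 := FB_one hf n
  rw [one_mul] at h1
  linarith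

theorem IsBand.inv {n : ℕ} {b : Braid n} (h : IsBand b) : IsBand b⁻¹ := by
  rcases h with h | h
  · right; rwa [inv_inv]
  · left; exact h

theorem FB_prod_inv (hf : WordInv f) {n : ℕ} (l : List (Braid n)) (hl : ∀ b ∈ l, IsBand b) :
    ((n : ℚ) - l.length) / 2 ≤ FB f (l.prod)⁻¹ := by
  rw [List.prod_inv_reverse]
  have h := FB_prod hf (l.map fun x => x⁻¹).reverse (by
    intro b hb
    rw [List.mem_reverse, List.mem_map] at hb
    obtain ⟨a, ha, rfl⟩ := hb
    exact (hl a ha).inv)
  simpa using h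

theorem FB_ribbon (hf : WordInv f) (K : Knot) (h : K.IsRibbon) : FB f K.braid = 0 := by
  obtain ⟨l, h1, h2, h3⟩ := h
  have h4 := FB_prod hf l h2
  have h5 := FB_prod_inv hf l h2
  have h6 := FB_mirror hf K.braid K.isKnot
  rw [← h3] at h4 h5
  rw [h1] at h4 h5
  linarith

theorem exists_posWord {n : ℕ} (l : List (Braid n)) (hl : ∀ b ∈ l, IsPosBand b) :
    ∃ w : Word n, toBraid w = l.prod ∧ writhe w = l.length := by
  induction l with
  | nil => exact ⟨[], by simp, by simp [writhe]⟩
  | cons b l ih =>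
    obtain ⟨w, h1, h2⟩ := ih (fun b hb => hl b (List.mem_cons_of_mem _ hb))
    obtain ⟨c, i, hb⟩ := hl b List.mem_cons_self
    obtain ⟨u, rfl⟩ := toBraid_surj c
    refine ⟨u ++ ((i, true) :: winv u) ++ w, ?_, ?_⟩
    · rw [toBraid_append, toBraid_append, toBraid_cons, toBraid_true, toBraid_winv, h1,
        List.prod_cons, hb]
      group
    · have h3 : writhe ((i, true) :: winv u) = writhe [(i, true)] + writhe (winv u) :=
        writhe_append [(i, true)] (winv u)
      rw [writhe_append, writhe_append, h3, writhe_winv, h2, List.length_cons]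
      simp [writhe]
      ring

theorem FB_qp (hf : WordInv f) {n : ℕ} (l : List (Braid n)) (hl : ∀ b ∈ l, IsPosBand b)
    (h : IsKnot l.prod) : FB f l.prod = ((l.length : ℚ) - n) / 2 := by
  have h1 := FB_prod_inv hf l (fun b hb => Or.inl (hl b hb))
  have h2 := FB_mirror hf l.prod h
  obtain ⟨w, h3, h4⟩ := exists_posWord l hl
  have h5 := hf.canon n w
  rw [← FB_toBraid hf, h3, h4] at h5
  push_cast at h5
  linarith

theorem FB_stab_aux (hf : WordInv f) (b : Braid 1) (hb : IsKnot b) (hb' : IsBand b) :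
    FB f b = 0 :=
  FB_ribbon hf ⟨1, b, hb⟩ ⟨[b], rfl, by simpa using hb', by simp⟩

theorem isKnot_σ0 : IsKnot (σ 0 : Braid 1) := by
  intro a b
  refine ⟨(b : ℤ) - a, ?_⟩
  rw [perm_σ]
  fin_cases a <;> fin_cases b <;> simp

theorem FB_stab (hf : WordInv f) {n : ℕ} (β : Braid n) (h : IsKnot β) :
    FB f (inl n 1 β * σ (Fin.last n)) = FB f β ∧
      FB f (inl n 1 β * (σ (Fin.last n))⁻¹) = FB f β := by
  have h0 : (Fin.natAdd n (0 : Fin 1) : Fin (n + 1)) = Fin.last n := rfl
  have hb : IsBand (σ 0 : Braid 1) := Or.inl ⟨1, 0, by simp⟩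
  constructor
  · have h1 := FB_sum hf β (σ 0 : Braid 1) h isKnot_σ0
    rw [FB_stab_aux hf _ isKnot_σ0 hb, inr_σ, h0, add_zero] at h1
    exact h1
  · have h1 := FB_sum hf β ((σ 0 : Braid 1)⁻¹) h isKnot_σ0.inv
    rw [FB_stab_aux hf _ isKnot_σ0.inv hb.inv, map_inv, inr_σ, h0, add_zero] at h1
    exact h1

/-- The homomorphism from the concordance group. -/
noncomputable def homC (hf : WordInv f) : C →+ ℚ :=
  QuotientAddGroup.lift _ (FreeAbelianGroup.lift fun K : Knot => FB f K.braid) (by
    rw [AddSubgroup.closure_le]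
    intro x hx
    rw [SetLike.mem_coe, AddMonoidHom.mem_ker]
    cases hx with
    | conj K J h =>
      obtain ⟨n, β, γ, h, rfl, rfl⟩ := h
      simp only [map_sub, FreeAbelianGroup.lift_apply_of]
      rw [FB_conj hf β γ h, sub_self]
    | stab K J h =>
      obtain ⟨n, β, h, h1, h2, rfl, rfl | rfl⟩ := h
      · simp only [map_sub, FreeAbelianGroup.lift_apply_of]
        rw [(FB_stab hf β h).1, sub_self]
      · simp only [map_sub, FreeAbelianGroup.lift_apply_of]
        rw [(FB_stab hf β h).2, sub_self]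
    | sum K J =>
      simp only [map_sub, FreeAbelianGroup.lift_apply_of]
      have := FB_sum hf K.braid J.braid K.isKnot J.isKnot
      simp only [Knot.sum]
      rw [this]; ring
    | ribbon K h =>
      simp only [FreeAbelianGroup.lift_apply_of]
      exact FB_ribbon hf K h)

theorem homC_cls (hf : WordInv f) (K : Knot) : homC hf K.cls = FB f K.braid := by
  rw [homC, Knot.cls]
  erw [QuotientAddGroup.lift_mk]
  simp

/-- The difference of two theories kills `Q`. -/
noncomputable def homCQ {g : ∀ n : ℕ, Word n → ℚ} (hf : WordInv f) (hg : WordInv g) :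
    C ⧸ Q →+ ℚ :=
  QuotientAddGroup.lift Q (homC hf - homC hg) (by
    rw [Q, AddSubgroup.closure_le]
    rintro x ⟨K, ⟨l, h1, h2⟩, rfl⟩
    rw [SetLike.mem_coe, AddMonoidHom.mem_ker, AddMonoidHom.sub_apply, homC_cls, homC_cls, h2,
      FB_qp hf l h1 (h2 ▸ K.isKnot), FB_qp hg l h1 (h2 ▸ K.isKnot), sub_self])

/-- The corresponding functional on the tensor product. -/
noncomputable def funCQ {g : ∀ n : ℕ, Word n → ℚ} (hf : WordInv f) (hg : WordInv g) :
    ℚ ⊗[ℤ] (C ⧸ Q) →ₗ[ℚ] ℚ :=
  TensorProduct.AlgebraTensorModule.lift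
    { toFun := fun q =>
        { toFun := fun x => q * homCQ hf hg x
          map_add' := by intro x y; rw [map_add, mul_add]
          map_smul' := by intro m x; rw [map_zsmul]; simp; ring }
      map_add' := by intro a b; ext x; simp [add_mul]
      map_smul' := by intro a b; ext x; simp [mul_assoc] }

theorem funCQ_tmul {g : ∀ n : ℕ, Word n → ℚ} (hf : WordInv f) (hg : WordInv g) (K : Knot) :
    funCQ hf hg ((1 : ℚ) ⊗ₜ[ℤ] (QuotientAddGroup.mk K.cls : C ⧸ Q)) =
      FB f K.braid - FB g K.braid := by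
  simp only [funCQ, TensorProduct.AlgebraTensorModule.lift_tmul, LinearMap.coe_mk, AddHom.coe_mk,
    one_mul, homCQ]
  erw [QuotientAddGroup.lift_mk]
  rw [AddMonoidHom.sub_apply, homC_cls, homC_cls]

end inv

/-- Soft infinite-dimensionality. -/
theorem soft {V : Type*} [AddCommGroup V] [Module ℚ V] [FiniteDimensional ℚ V] (x : ℕ → V)
    (φ : ℕ → V →ₗ[ℚ] ℚ) (h1 : ∀ r, ∃ k0, ∀ k, k0 ≤ k → φ r (x k) = 0)
    (h2 : ∃ k0, ∀ k, k0 ≤ k → ∃ r, φ r (x k) ≠ 0) : False := by
  let W : ℕ →o (Submodule ℚ V)ᵒᵈ :=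
    ⟨fun m => OrderDual.toDual (Submodule.span ℚ (x '' Set.Ici m)), fun a b hab =>
      Submodule.span_mono (Set.image_mono (Set.Ici_subset_Ici.mpr hab))⟩
  obtain ⟨N, hN⟩ := IsArtinian.monotone_stabilizes W
  obtain ⟨k0, hk0⟩ := h2
  set M := max N k0 with hM
  obtain ⟨r, hr⟩ := hk0 M (le_max_right _ _)
  obtain ⟨k1, hk1⟩ := h1 r
  have h3 : W M = W (max M k1) := by
    rw [← hN M (le_max_left _ _), ← hN (max M k1) (le_trans (le_max_left _ _) (le_max_left _ _))]
  have h4 : x M ∈ OrderDual.ofDual (W M) :=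
    Submodule.subset_span ⟨M, Set.mem_Ici.mpr le_rfl, rfl⟩
  rw [h3] at h4
  have h5 : OrderDual.ofDual (W (max M k1)) ≤ LinearMap.ker (φ r) := by
    change Submodule.span ℚ (x '' Set.Ici (max M k1)) ≤ _
    rw [Submodule.span_le]
    rintro _ ⟨k, hk, rfl⟩
    rw [SetLike.mem_coe, LinearMap.mem_ker]
    exact hk1 k (le_trans (le_max_right _ _) hk)
  exact hr (LinearMap.mem_ker.mp (h5 h4))

/-- The final reduction: a family of invariants and a sequence of knots. -/
theorem rankInfinite_of (f : ℕ → ∀ n : ℕ, Word n → ℚ) (hf : ∀ r, WordInv (f r))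
    (N : ℕ → ℕ) (K : ∀ k, Word (N k)) (hK : ∀ k, IsKnot (toBraid (K k))) (c : ℕ → ℚ)
    (h1 : ∀ r, ∃ k0, ∀ k, k0 ≤ k → c k ≤ f r (N k) (K k) ∧ -c k ≤ f r (N k) (winv (K k)))
    (h2 : ∃ k0, ∀ k, k0 ≤ k → ∃ r, c k < f r (N k) (K k)) : RankInfinite := by
  intro hfin
  have hval : ∀ r k, c k ≤ f r (N k) (K k) ∧ -c k ≤ f r (N k) (winv (K k)) →
      f r (N k) (K k) = c k := by
    intro r k h
    have := (hf r).mirror (N k) (K k) (hK k)
    linarith [h.1, h.2]
  obtain ⟨k2, hk2⟩ := h1 0
  obtain ⟨k3, hk3⟩ := h2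
  refine soft (V := ℚ ⊗[ℤ] (C ⧸ Q))
    (fun k => (1 : ℚ) ⊗ₜ[ℤ] (QuotientAddGroup.mk (Knot.cls ⟨N k, toBraid (K k), hK k⟩) : C ⧸ Q))
    (fun r => funCQ (hf r) (hf 0)) ?_ ?_
  · intro r
    obtain ⟨k1, hk1⟩ := h1 r
    refine ⟨max k1 k2, fun k hk => ?_⟩
    rw [funCQ_tmul]
    simp only
    rw [FB_toBraid (hf r), FB_toBraid (hf 0), hval r k (hk1 k (le_trans (le_max_left _ _) hk)),
      hval 0 k (hk2 k (le_trans (le_max_right _ _) hk)), sub_self]
  · refine ⟨max k2 k3, fun k hk => ?_⟩
    obtain ⟨r, hr⟩ := hk3 k (le_trans (le_max_right _ _) hk)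
    refine ⟨r, ?_⟩
    rw [funCQ_tmul]
    simp only
    rw [FB_toBraid (hf r), FB_toBraid (hf 0), hval 0 k (hk2 k (le_trans (le_max_left _ _) hk))]
    exact sub_ne_zero.mpr hr.ne'

end Pool.Agent.CQ
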