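import Pool.Agent.CQ.Basic
import Pool.Agent.CQ.Assembly

/-!
# Block G1, G2: the composition product and the pairing of a word with its inverse
-/

set_option autoImplicit false
set_option linter.unusedSectionVars false
set_option linter.unusedSimpArgs false

namespace CQ.G

open MvPolynomial CQ

variable {O : Type} [CommRing O] [CharP O 2]

/-! ## Vanishing variables -/

/-- the variables `≥ s` act by zero -/
def Van (s : ℕ) (C : Type) [AddCommGroup C] [Module (S O) C] : Prop :=
  ∀ j, s ≤ j → ∀ v : C, xv O j • v = 0 ∧ yv O j • v = 0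

theorem van_RS (s : ℕ) : Van (O := O) s (RS O s) := by
  intro j hj v
  have h : ¬ j < s := by omega
  constructor
  · rw [RS_smul_def]; simp [rho, h]
  · rw [RS_smul_def]; simp [rho, h]

theorem Van.D2 {s : ℕ} {C : Type} [AddCommGroup C] [Module (S O) C] (hC : Van (O := O) s C)
    {i : ℕ} (hi : i + 1 < s) : Van (O := O) s (D2 true i C) := by
  intro j hj v
  have h1 : (Sum.inl j : ℕ ⊕ ℕ) ≠ inj true i := by simp
  have h2 : (Sum.inl j : ℕ ⊕ ℕ) ≠ inj true (i + 1) := by simp
  have h3 : (Sum.inr j : ℕ ⊕ ℕ) ≠ inj true i := by simp; omega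
  have h4 : (Sum.inr j : ℕ ⊕ ℕ) ≠ inj true (i + 1) := by simp; omega
  constructor
  · ext
    · rw [D2.X_smul_a_of_ne _ h1 h2]; exact (hC j hj v.a).1
    · rw [D2.X_smul_b_of_ne _ h1 h2]; exact (hC j hj v.b).1
  · ext
    · rw [D2.X_smul_a_of_ne _ h3 h4]; exact (hC j hj v.a).2
    · rw [D2.X_smul_b_of_ne _ h3 h4]; exact (hC j hj v.b).2

theorem Van.Fw {s : ℕ} {C : DM O} (hC : Van (O := O) s C.V) {w : List (ℕ × Bool)}
    (hw : Valid s w) : Van (O := O) s (Fw w C).V := by
  induction w generalizing C with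
  | nil => exact hC
  | cons a w ih =>
    refine ih (C := F2 true a.1 a.2 C) ?_ (fun b hb => hw b (List.mem_cons_of_mem _ hb))
    intro j hj v
    have h1 := hC j hj v.1
    have h2 := (hC.D2 (hw a List.mem_cons_self)) j hj v.2
    exact ⟨Prod.ext h1.1 h2.1, Prod.ext h1.2 h2.2⟩

theorem van_Fw {s : ℕ} {w : List (ℕ × Bool)} (hw : Valid s w) :
    Van (O := O) s (Fw w (R0 O s)).V := Van.Fw (van_RS s) hw

/-! ## Additive functoriality -/

/-- additive functoriality of the crossing functor -/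
noncomputable def F2A (t : Bool) (i : ℕ) (pos : Bool) {C D : DM O} (f : C.V →+ D.V) :
    (F2 t i pos C).V →+ (F2 t i pos D).V :=
  AddMonoidHom.prodMap f (D2.mapAdd (t := t) (i := i) f)

/-- additive functoriality of `Fw` -/
noncomputable def FwA : (w : List (ℕ × Bool)) → {C D : DM O} → (C.V →+ D.V) → ((Fw w C).V →+ (Fw w D).V)
  | [], _, _, f => f
  | a :: w, C, D, f => FwA w (C := F2 true a.1 a.2 C) (D := F2 true a.1 a.2 D)
      (F2A true a.1 a.2 f)

theorem FwA_linear (w : List (ℕ × Bool)) {C D : DM O} (f : C.V →ₗ[S O] D.V) (z : (Fw w C).V) :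
    FwA w f.toAddMonoidHom z = Fw.map w f z := by
  induction w generalizing C D with
  | nil => rfl
  | cons a w ih => exact ih (F2.map true a.1 a.2 f) z

theorem FwA_add (w : List (ℕ × Bool)) {C D : DM O} (f g : C.V →+ D.V) (z : (Fw w C).V) :
    FwA w (f + g) z = FwA w f z + FwA w g z := by
  induction w generalizing C D with
  | nil => rfl
  | cons a w ih => exact ih (F2A true a.1 a.2 f) (F2A true a.1 a.2 g) z

theorem FwA_zero (w : List (ℕ × Bool)) {C D : DM O} (z : (Fw w C).V) :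
    FwA w (0 : C.V →+ D.V) z = 0 := by
  induction w generalizing C D with
  | nil => rfl
  | cons a w ih => exact ih (C := F2 true a.1 a.2 C) (D := F2 true a.1 a.2 D) z

/-- if `f' v = p • f v` for a left variable or a constant `p`, the same holds for `Fw` -/
theorem FwA_left (w : List (ℕ × Bool)) {C D : DM O} (f f' : C.V →+ D.V) (j : ℕ)
    (h : ∀ v, f' v = xv O j • f v) (z : (Fw w C).V) :
    FwA w f' z = xv O j • FwA w f z := by
  induction w generalizing C D with
  | nil => exact h z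
  | cons a w ih =>
    refine ih (F2A true a.1 a.2 f) (F2A true a.1 a.2 f') ?_ z
    intro v
    refine Prod.ext (h v.1) ?_
    have h1 : (Sum.inl j : ℕ ⊕ ℕ) ≠ inj true a.1 := by simp
    have h2 : (Sum.inl j : ℕ ⊕ ℕ) ≠ inj true (a.1 + 1) := by simp
    change D2.mapAdd f' v.2 = xv O j • D2.mapAdd f v.2
    ext
    · rw [D2.X_smul_a_of_ne _ h1 h2]; exact h v.2.a
    · rw [D2.X_smul_b_of_ne _ h1 h2]; exact h v.2.b

theorem FwA_const (w : List (ℕ × Bool)) {C D : DM O} (f f' : C.V →+ D.V) (o : O)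
    (h : ∀ v, f' v = (MvPolynomial.C o : S O) • f v) (z : (Fw w C).V) :
    FwA w f' z = (MvPolynomial.C o : S O) • FwA w f z := by
  induction w generalizing C D with
  | nil => exact h z
  | cons a w ih =>
    refine ih (F2A true a.1 a.2 f) (F2A true a.1 a.2 f') ?_ z
    intro v
    refine Prod.ext (h v.1) ?_
    change D2.mapAdd f' v.2 = (MvPolynomial.C o : S O) • D2.mapAdd f v.2
    ext
    · rw [D2.C_smul_a]; exact h v.2.a
    · rw [D2.C_smul_b]; exact h v.2.b

/-- precomposition with a left variable -/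
theorem FwA_left' (w : List (ℕ × Bool)) {C D : DM O} (f f' : C.V →+ D.V) (j : ℕ)
    (h : ∀ v, f' v = f (xv O j • v)) (z : (Fw w C).V) :
    FwA w f' z = FwA w f (xv O j • z) := by
  induction w generalizing C D with
  | nil => exact h z
  | cons a w ih =>
    refine ih (F2A true a.1 a.2 f) (F2A true a.1 a.2 f') ?_ z
    intro v
    refine Prod.ext (h v.1) ?_
    have h1 : (Sum.inl j : ℕ ⊕ ℕ) ≠ inj true a.1 := by simp
    have h2 : (Sum.inl j : ℕ ⊕ ℕ) ≠ inj true (a.1 + 1) := by simp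
    change D2.mapAdd f' v.2 = D2.mapAdd f (xv O j • v.2)
    ext
    · rw [D2.mapAdd_a, D2.mapAdd_a, D2.X_smul_a_of_ne _ h1 h2]; exact h v.2.a
    · rw [D2.mapAdd_b, D2.mapAdd_b, D2.X_smul_b_of_ne _ h1 h2]; exact h v.2.b

/-- right-linear maps -/
def RL {C D : Type} [AddCommGroup C] [Module (S O) C] [AddCommGroup D] [Module (S O) D]
    (f : C →+ D) : Prop := ∀ (j : ℕ) (v : C), f (yv O j • v) = yv O j • f v

theorem RL.e1 {C D : Type} [AddCommGroup C] [Module (S O) C] [AddCommGroup D] [Module (S O) D]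
    {f : C →+ D} (hf : RL (O := O) f) (i : ℕ) (v : C) : f (e1 O true i • v) = e1 O true i • f v := by
  simp only [e1_def, add_smul, map_add]
  rw [show (X (inj true i) : S O) = yv O i from rfl,
    show (X (inj true (i + 1)) : S O) = yv O (i + 1) from rfl, hf, hf]

theorem RL.e2 {C D : Type} [AddCommGroup C] [Module (S O) C] [AddCommGroup D] [Module (S O) D]
    {f : C →+ D} (hf : RL (O := O) f) (i : ℕ) (v : C) : f (e2 O true i • v) = e2 O true i • f v := by
  simp only [e2_def, mul_smul]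
  rw [show (X (inj true i) : S O) = yv O i from rfl,
    show (X (inj true (i + 1)) : S O) = yv O (i + 1) from rfl, hf, hf]

theorem RL.D2 {C D : Type} [AddCommGroup C] [Module (S O) C] [AddCommGroup D] [Module (S O) D]
    {f : C →+ D} (hf : RL (O := O) f) (i : ℕ) :
    RL (O := O) (D2.mapAdd (t := true) (i := i) f) := by
  intro j v
  by_cases h1 : (Sum.inr j : ℕ ⊕ ℕ) = inj true i
  · have e : yv O j = (X (inj true i) : S O) := by rw [← h1]
    rw [e]
    ext
    · rw [D2.X_smul_i_a, D2.mapAdd_a, D2.X_smul_i_a, hf.e2]; rfl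
    · rw [D2.X_smul_i_b, D2.mapAdd_b, D2.X_smul_i_b, map_add, hf.e1]; rfl
  · by_cases h2 : (Sum.inr j : ℕ ⊕ ℕ) = inj true (i + 1)
    · have e : yv O j = (X (inj true (i + 1)) : S O) := by rw [← h2]
      rw [e]
      ext
      · rw [D2.X_smul_succ_a, D2.mapAdd_a, D2.X_smul_succ_a, map_add, hf.e1, hf.e2]; rfl
      · rw [D2.X_smul_succ_b, D2.mapAdd_b, D2.X_smul_succ_b]; rfl
    · ext
      · rw [D2.X_smul_a_of_ne _ h1 h2, D2.mapAdd_a, D2.X_smul_a_of_ne _ h1 h2]; exact hf j v.a
      · rw [D2.X_smul_b_of_ne _ h1 h2, D2.mapAdd_b, D2.X_smul_b_of_ne _ h1 h2]; exact hf j v.b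

theorem RL.FwA {C D : DM O} {f : C.V →+ D.V} (hf : RL (O := O) f) (w : List (ℕ × Bool)) :
    RL (O := O) (FwA w f) := by
  induction w generalizing C D with
  | nil => exact hf
  | cons a w ih =>
    refine ih (C := F2 true a.1 a.2 C) (D := F2 true a.1 a.2 D) ?_
    intro j v
    exact Prod.ext (hf j v.1) ((hf.D2 a.1) j v.2)

/-! ## The product -/

/-- polynomials in the right variables -/
noncomputable def ren (O : Type) [CommRing O] (s : ℕ) : RS O s →+* S O :=
  (MvPolynomial.rename (fun i : Fin s => (Sum.inr (i : ℕ) : ℕ ⊕ ℕ))).toRingHom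

theorem ren_X (s : ℕ) (i : Fin s) : ren O s (X i) = yv O i := by simp [ren]

theorem ren_C (s : ℕ) (o : O) : ren O s (MvPolynomial.C o) = MvPolynomial.C o := by simp [ren]

theorem ev_ren (s : ℕ) (f : RS O s) :
    ev (0 : ℕ → O) (ren O s f) = MvPolynomial.eval (0 : Fin s → O) f := by
  induction f using MvPolynomial.induction_on with
  | C o => rw [ren_C]; simp
  | add p q hp hq => rw [map_add, map_add, map_add, hp, hq]
  | mul_X p v hp => rw [map_mul, map_mul, map_mul, hp, ren_X]; simp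

section prod
variable {s : ℕ} {C : DM O}

/-- `f ↦ f(y) • c` -/
noncomputable def mR (s : ℕ) {C : Type} [AddCommGroup C] [Module (S O) C] (c : C) :
    RS O s →+ C where
  toFun f := ren O s f • c
  map_zero' := by simp
  map_add' f g := by rw [map_add, add_smul]

theorem mR_apply {C : Type} [AddCommGroup C] [Module (S O) C] (c : C) (f : RS O s) :
    mR s c f = ren O s f • c := rfl

theorem mR_add {C : Type} [AddCommGroup C] [Module (S O) C] (c c' : C) :
    mR (O := O) s (c + c') = mR s c + mR s c' := by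
  ext f
  simp [mR_apply]

theorem mR_smul {C : Type} [AddCommGroup C] [Module (S O) C] (p : S O) (c : C) (f : RS O s) :
    mR s (p • c) f = p • mR s c f := by
  rw [mR_apply, mR_apply, smul_comm]

/-- left (or right) multiplication of the polynomial is right multiplication of the element -/
theorem mR_X {C : Type} [AddCommGroup C] [Module (S O) C] (hC : Van (O := O) s C) (c : C)
    (f : RS O s) (j : ℕ) :
    mR s c (xv O j • f) = yv O j • mR s c f ∧ mR s c (yv O j • f) = yv O j • mR s c f := by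
  by_cases h : j < s
  · have h1 : xv O j • f = (X ⟨j, h⟩ : RS O s) * f := by rw [RS_smul_def]; simp [rho, h]
    have h2 : yv O j • f = (X ⟨j, h⟩ : RS O s) * f := by rw [RS_smul_def]; simp [rho, h]
    rw [h1, h2, mR_apply, mR_apply, map_mul, ren_X, mul_smul]
    exact ⟨rfl, rfl⟩
  · have h1 := (van_RS s j (by omega) f).1
    have h2 := (van_RS s j (by omega) f).2
    have h3 := (hC j (by omega) (mR s c f)).2
    rw [h1, h2, h3, map_zero]
    exact ⟨rfl, rfl⟩

/-- the product with a Hochschild element is `S`-linear -/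
noncomputable def mS {C : Type} [AddCommGroup C] [Module (S O) C] (hC : Van (O := O) s C) (z : C)
    (hz : z ∈ HH O C) : RS O s →ₗ[S O] C :=
  mkLin (mR s z)
    (fun o f => by
      have : (MvPolynomial.C o : S O) • f = (MvPolynomial.C o : RS O s) * f := by
        rw [RS_smul_def]; simp [rho]
      rw [this, mR_apply, mR_apply, map_mul, ren_C, mul_smul])
    (fun v f => by
      rcases v with j | j
      · rw [show (X (Sum.inl j) : S O) = xv O j from rfl, (mR_X hC z f j).1, ← mR_smul, ← hz j,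
          mR_smul]
      · exact (mR_X hC z f j).2)

theorem mS_apply {C : Type} [AddCommGroup C] [Module (S O) C] (hC : Van (O := O) s C) (z : C)
    (hz : z ∈ HH O C) (f : RS O s) : mS hC z hz f = ren O s f • z := rfl

/-- the same, from the base module -/
noncomputable def mD {C : DM O} (hC : Van (O := O) s C.V) (z : C.V) (hz : z ∈ HH O C.V) :
    (R0 O s).V →ₗ[S O] C.V := mS hC z hz

theorem mD_apply {C : DM O} (hC : Van (O := O) s C.V) (z : C.V) (hz : z ∈ HH O C.V)
    (f : (R0 O s).V) : mD hC z hz f = ren O s f • z := rfl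

/-- The composition product of `z ∈ C` and `z' ∈ Fw w (R0 s)`. -/
noncomputable def pr (s : ℕ) (w : List (ℕ × Bool)) {C : DM O} (z : C.V)
    (z' : (Fw w (R0 O s)).V) : (Fw w C).V :=
  FwA w (C := R0 O s) (D := C) (mR s z) z'

theorem pr_eq (hC : Van (O := O) s C.V) (w : List (ℕ × Bool)) (z : C.V) (hz : z ∈ HH O C.V)
    (z' : (Fw w (R0 O s)).V) :
    pr s w z z' = Fw.map w (mD hC z hz) z' :=
  FwA_linear w (mD hC z hz) z'

theorem pr_add_left (w : List (ℕ × Bool)) (z1 z2 : C.V) (z' : (Fw w (R0 O s)).V) :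
    pr s w (z1 + z2) z' = pr s w z1 z' + pr s w z2 z' := by
  unfold pr
  rw [mR_add]
  exact FwA_add w (C := R0 O s) (D := C) _ _ z'

theorem pr_add_right (w : List (ℕ × Bool)) (z : C.V) (z1 z2 : (Fw w (R0 O s)).V) :
    pr s w z (z1 + z2) = pr s w z z1 + pr s w z z2 := map_add _ _ _

theorem pr_zero_right (w : List (ℕ × Bool)) (z : C.V) :
    pr s w z (0 : (Fw w (R0 O s)).V) = 0 := map_zero _

theorem pr_xv_left (w : List (ℕ × Bool)) (z : C.V) (z' : (Fw w (R0 O s)).V) (j : ℕ) :
    pr s w (xv O j • z) z' = xv O j • pr s w z z' :=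
  FwA_left w (C := R0 O s) (D := C) _ _ j (fun f => mR_smul _ _ f) z'

theorem pr_C_left (w : List (ℕ × Bool)) (z : C.V) (z' : (Fw w (R0 O s)).V) (o : O) :
    pr s w ((MvPolynomial.C o : S O) • z) z' = (MvPolynomial.C o : S O) • pr s w z z' :=
  FwA_const w (C := R0 O s) (D := C) _ _ o (fun f => mR_smul _ _ f) z'

/-- the right variables of `z` are the left variables of `z'` -/
theorem pr_yv_left (hC : Van (O := O) s C.V) (w : List (ℕ × Bool)) (z : C.V)
    (z' : (Fw w (R0 O s)).V) (j : ℕ) :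
    pr s w (yv O j • z) z' = pr s w z (xv O j • z') := by
  refine FwA_left' w (C := R0 O s) (D := C) _ _ j (fun f => ?_) z'
  change mR s (yv O j • z) (show RS O s from f) = mR s z (xv O j • (show RS O s from f))
  rw [mR_smul]
  exact ((mR_X hC z (show RS O s from f) j).1).symm

theorem pr_yv_right (hC : Van (O := O) s C.V) (w : List (ℕ × Bool)) (z : C.V)
    (z' : (Fw w (R0 O s)).V) (j : ℕ) :
    pr s w z (yv O j • z') = yv O j • pr s w z z' := by
  refine RL.FwA (C := R0 O s) (D := C) (f := mR s z) ?_ w j z'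
  intro j f
  exact (mR_X hC z f j).2

theorem pr_mem_HH (hC : Van (O := O) s C.V) (w : List (ℕ × Bool)) {z : C.V} (hz : z ∈ HH O C.V)
    {z' : (Fw w (R0 O s)).V} (hz' : z' ∈ HH O (Fw w (R0 O s)).V) :
    pr s w z z' ∈ HH O (Fw w C).V := by
  rw [pr_eq hC w z hz]
  exact map_mem_HH _ hz'

theorem pr_mem_NN_right (hC : Van (O := O) s C.V) {P : Pot O} (w : List (ℕ × Bool)) {z : C.V}
    (hz : z ∈ HH O C.V) {z' : (Fw w (R0 O s)).V} (hz' : z' ∈ NN P (Fw w (R0 O s)).V) :
    pr s w z z' ∈ NN P (Fw w C).V := by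
  rw [pr_eq hC w z hz]
  exact map_mem_NN _ hz'

/-- semilinear functionals from additive ones -/
def mkSemi {D : Type} [AddCommGroup D] [Module (S O) D] (c : ℕ → O) (g : D →+ O)
    (hC : ∀ (o : O) (v : D), g ((MvPolynomial.C o : S O) • v) = o * g v)
    (hx : ∀ (j : ℕ) (v : D), g (xv O j • v) = c j * g v)
    (hy : ∀ (j : ℕ) (v : D), g (yv O j • v) = c j * g v) : D →ₛₗ[ev c] O where
  toFun := g
  map_add' := g.map_add
  map_smul' p v := by
    induction p using MvPolynomial.induction_on generalizing v with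
    | C o => rw [hC, ev_C]; rfl
    | add p q hp hq => simp only [add_smul, map_add, hp, hq, smul_eq_mul, add_mul]
    | mul_X p u hp =>
      rw [mul_smul, hp, map_mul]
      simp only [smul_eq_mul]
      rcases u with j | j
      · rw [show (X (Sum.inl j) : S O) = xv O j from rfl, hx, ev_inl]; ring
      · rw [show (X (Sum.inr j) : S O) = yv O j from rfl, hy, ev_inr]; ring

theorem pr_mem_NN_left (hC : Van (O := O) s C.V) {P : Pot O} (w : List (ℕ × Bool)) {z : C.V}
    (hz : z ∈ NN P C.V) {z' : (Fw w (R0 O s)).V} (hz' : z' ∈ HH O (Fw w (R0 O s)).V) :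
    pr s w z z' ∈ NN P (Fw w C).V := by
  intro c hc ψ
  let Ψ : C.V →ₛₗ[ev c] O := mkSemi c
    { toFun := fun v => ψ (pr s w v z')
      map_zero' := by
        have h1 := pr_add_left (s := s) w (0 : C.V) 0 z'
        rw [add_zero] at h1
        have h2 : pr s w (0 : C.V) z' = 0 := by
          rw [h1]
          exact add_self_mod (O := O) _
        rw [h2, map_zero]
      map_add' := fun v v' => by rw [pr_add_left, map_add] }
    (fun o v => by
      simp only [AddMonoidHom.coe_mk, ZeroHom.coe_mk]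
      rw [pr_C_left, map_smulₛₗ, ev_C]; rfl)
    (fun j v => by
      simp only [AddMonoidHom.coe_mk, ZeroHom.coe_mk]
      rw [pr_xv_left, map_smulₛₗ, ev_inl]; rfl)
    (fun j v => by
      simp only [AddMonoidHom.coe_mk, ZeroHom.coe_mk]
      rw [pr_yv_left hC, hz' j, pr_yv_right hC, map_smulₛₗ, ev_inr]; rfl)
  exact hz c hc Ψ

/-- Leibniz rule -/
theorem pr_d (hC : Van (O := O) s C.V) (w : List (ℕ × Bool)) (z : C.V) (hz : z ∈ HH O C.V)
    (z' : (Fw w (R0 O s)).V) :
    (Fw w C).d (pr s w z z') = pr s w (C.d z) z' + pr s w z ((Fw w (R0 O s)).d z') := by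
  have hdz : C.d z ∈ HH O C.V := map_mem_HH C.d hz
  rw [pr_eq hC w z hz, pr_eq hC w z hz, pr_eq hC w _ hdz]
  have h1 := LinearMap.congr_fun (Fw.map_bracket w (mD hC z hz)) z'
  simp only [LinearMap.add_apply, LinearMap.comp_apply] at h1
  have h2 : C.d ∘ₗ (mD hC z hz) + (mD hC z hz) ∘ₗ (R0 O s).d = mD hC (C.d z) hdz := by
    apply LinearMap.ext
    intro f
    simp only [LinearMap.add_apply, LinearMap.comp_apply]
    rw [show (R0 O s).d f = 0 from rfl, map_zero, add_zero, mD_apply, mD_apply, map_smul]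
  rw [h2] at h1
  rw [← h1, add_assoc]
  have h3 := add_self_mod (O := O) (Fw.map w (mD hC z hz) ((Fw w (R0 O s)).d z'))
  rw [h3, add_zero]

theorem pr_ep (hC : Van (O := O) s C.V) (w : List (ℕ × Bool)) (z : C.V) (hz : z ∈ HH O C.V)
    (z' : (Fw w (R0 O s)).V) (hz' : z' ∈ HH O (Fw w (R0 O s)).V) :
    (Fw w C).ep (pr s w z z') = C.ep z * (Fw w (R0 O s)).ep z' := by
  rw [pr_eq hC w z hz]
  refine Fw.map_ep w (mD hC z hz) (C.ep z) ?_ z' hz'
  intro f _
  rw [mD_apply, map_smulₛₗ, ev_ren]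
  exact mul_comm _ _

end prod

/-! ## Cancelling a word with its inverse -/

/-- an honest chain map preserving the augmentation on Hochschild elements -/
def Canc (D C : DM O) : Prop :=
  ∃ Φ : D.V →ₗ[S O] C.V, (∀ z, C.d (Φ z) = Φ (D.d z)) ∧ ∀ z ∈ HH O D.V, C.ep (Φ z) = D.ep z

theorem Canc.trans {E D C : DM O} (h : Canc E D) (h' : Canc D C) : Canc E C := by
  obtain ⟨Φ, h1, h2⟩ := h
  obtain ⟨Ψ, h3, h4⟩ := h'
  refine ⟨Ψ ∘ₗ Φ, fun z => ?_, fun z hz => ?_⟩
  · rw [LinearMap.comp_apply, LinearMap.comp_apply, h3, h1]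
  · rw [LinearMap.comp_apply, h4 _ (map_mem_HH Φ hz), h2 z hz]

theorem Canc.F2 {D C : DM O} (h : Canc D C) (i : ℕ) (b : Bool) :
    Canc (F2 true i b D) (F2 true i b C) := by
  obtain ⟨Φ, h1, h2⟩ := h
  refine ⟨F2.map true i b Φ, fun z => ?_, fun z hz => ?_⟩
  · have h3 := LinearMap.congr_fun (F2.map_bracket true i b (C := D) (D := C) Φ) z
    have h4 : C.d ∘ₗ Φ + Φ ∘ₗ D.d = 0 := by
      apply LinearMap.ext; intro v
      simp only [LinearMap.add_apply, LinearMap.comp_apply, h1]
      exact add_self_mod (O := O) _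
    rw [h4, F2.map_zero] at h3
    simp only [LinearMap.add_apply, LinearMap.comp_apply, LinearMap.zero_apply] at h3
    have h5 := add_self_mod (O := O) (F2.map true i b Φ ((CQ.F2 true i b D).d z))
    calc _ = (CQ.F2 true i b C).d (F2.map true i b Φ z) +
          (F2.map true i b Φ ((CQ.F2 true i b D).d z) +
            F2.map true i b Φ ((CQ.F2 true i b D).d z)) := by rw [h5, add_zero]
      _ = _ := by rw [← add_assoc, h3, zero_add]
  · exact h2 z.1 (mem_HH_prod.1 hz).1

/-- `R2`: cancelling a crossing with its inverse -/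
theorem canc_pair (i : ℕ) (b : Bool) (C : DM O) :
    Canc (CQ.F2 true i (!b) (CQ.F2 true i b C)) C := by
  let Φ : (CQ.F2 true i (!b) (CQ.F2 true i b C)).V →ₗ[S O] C.V :=
    LinearMap.fst (S O) C.V (D2 true i C.V) ∘ₗ
        LinearMap.fst (S O) (C.V × D2 true i C.V) (D2 true i (C.V × D2 true i C.V)) +
      unzip O true i ∘ₗ dig O true i ∘ₗ
        D2.map (LinearMap.snd (S O) C.V (D2 true i C.V)) ∘ₗ
          LinearMap.snd (S O) (C.V × D2 true i C.V) (D2 true i (C.V × D2 true i C.V))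
  have hΦ : ∀ z : (CQ.F2 true i (!b) (CQ.F2 true i b C)).V, Φ z = z.1.1 +
      unzip O true i (dig O true i (D2.map (LinearMap.snd (S O) C.V (D2 true i C.V)) z.2)) :=
    fun _ => rfl
  refine ⟨Φ, fun z => ?_, fun z hz => ?_⟩
  · rcases z with ⟨⟨c, e⟩, ⟨⟨p, q⟩, ⟨r, u⟩⟩⟩
    cases b
    · -- inner negative, outer positive
      rw [hΦ, hΦ]
      change C.d (c + unzip O true i ⟨q.b, u.b⟩) =
        (C.d c + unzip O true i e) + unzip O true i
          ⟨((X (inj true (i + 1)) : S O) • e + D2.map C.d q).b, (e + D2.map C.d u).b⟩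
      simp only [unzip_apply, D2.add_b, D2.X_smul_succ_b, D2.map_b, map_add, map_smul, smul_add]
      have h1 := add_self_mod (O := O) (e.a)
      have h2 := add_self_mod (O := O) ((X (inj true i) : S O) • e.b)
      calc _ = C.d c + (e.a + e.a) + ((X (inj true i) : S O) • e.b + (X (inj true i) : S O) • e.b)
            + C.d q.b + (X (inj true i) : S O) • C.d u.b := by rw [h1, h2]; abel
        _ = _ := by abel
    · -- inner positive, outer negative
      rw [hΦ, hΦ]
      change C.d (c + unzip O true i ⟨q.b, u.b⟩) =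
        (C.d c + (p + (X (inj true i) : S O) • r)) + unzip O true i
          ⟨(zip O true i p + D2.map C.d q).b, (zip O true i r + D2.map C.d u).b⟩
      simp only [unzip_apply, D2.add_b, zip_b, D2.map_b, map_add, map_smul, smul_add]
      have h1 := add_self_mod (O := O) p
      have h2 := add_self_mod (O := O) ((X (inj true i) : S O) • r)
      calc _ = C.d c + (p + p) + ((X (inj true i) : S O) • r + (X (inj true i) : S O) • r)
            + C.d q.b + (X (inj true i) : S O) • C.d u.b := by rw [h1, h2]; abel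
        _ = _ := by abel
  · rw [hΦ, map_add]
    have h1 : dig O true i (D2.map (LinearMap.snd (S O) C.V (D2 true i C.V)) z.2) ∈
        HH O (D2 true i C.V) :=
      map_mem_HH _ (map_mem_HH _ (mem_HH_prod.1 hz).2)
    rw [ep_unzip true i C.ep _ h1, add_zero]
    rfl

open Pool.Agent.CQ (ninv KnotN)

theorem ninv_cons (a : ℕ × Bool) (w : List (ℕ × Bool)) :
    ninv (a :: w) = ninv w ++ [(a.1, !a.2)] := by simp [ninv]

theorem valid_ninv {s : ℕ} {w : List (ℕ × Bool)} (hw : Valid s w) : Valid s (ninv w) := by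
  intro a ha
  simp only [ninv, List.mem_reverse, List.mem_map] at ha
  obtain ⟨x, hx, rfl⟩ := ha
  exact hw x hx

theorem canc_word (w : List (ℕ × Bool)) (C : DM O) : Canc (Fw (w ++ ninv w) C) C := by
  induction w generalizing C with
  | nil => exact ⟨LinearMap.id, fun _ => rfl, fun _ _ => rfl⟩
  | cons a w ih =>
    have h1 : Fw (a :: w ++ ninv (a :: w)) C =
        CQ.F2 true a.1 (!a.2) (Fw (w ++ ninv w) (CQ.F2 true a.1 a.2 C)) := by
      rw [ninv_cons, List.cons_append, ← List.append_assoc]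
      change Fw ((w ++ ninv w) ++ [(a.1, !a.2)]) (CQ.F2 true a.1 a.2 C) = _
      rw [Fw_append]
      rfl
    rw [h1]
    exact ((ih (CQ.F2 true a.1 a.2 C)).F2 a.1 (!a.2)).trans (canc_pair a.1 a.2 C)

/-! ## The pairing -/

theorem mem_HH_RS (s : ℕ) (f : RS O s) : f ∈ HH O (RS O s) := by
  intro j
  by_cases h : j < s
  · rw [RS_smul_def, RS_smul_def]; simp [rho, h]
  · rw [(van_RS s j (by omega) f).1, (van_RS s j (by omega) f).2]

/-- the product of two cycles, pushed to the base -/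
theorem pairing_aux (P : Pot O) (s : ℕ) (w : List (ℕ × Bool)) (C : DM O)
    (hC : Van (O := O) s C.V) (Φ : (Fw w C).V →ₗ[S O] (R0 O s).V)
    (hΦ : ∀ z, (R0 O s).d (Φ z) = Φ ((Fw w C).d z))
    {z a b : C.V} {z' u' : (Fw w (R0 O s)).V} (hb : b ∈ HH O C.V)
    (hz' : z' ∈ HH O (Fw w (R0 O s)).V) (j : ℕ)
    (h3 : xv O j • z + xv O 0 • a + C.d b ∈ NN P C.V)
    (h1' : (Fw w (R0 O s)).d z' + xv O 0 • u' ∈ NN P (Fw w (R0 O s)).V) :
    xv O j • Φ (pr s w z z') + xv O 0 • Φ (pr s w a z' + pr s w b u') ∈ NN P (R0 O s).V := by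
  have h4 := pr_mem_NN_left hC w h3 hz'
  rw [pr_add_left, pr_add_left, pr_xv_left, pr_xv_left] at h4
  have h5 := pr_mem_NN_right hC w hb h1'
  rw [pr_add_right] at h5
  have h6 := pr_d hC w b hb z'
  have h7 : pr s w b (xv O 0 • u') = xv O 0 • pr s w b u' := by
    rw [pr_eq hC _ b hb, pr_eq hC _ b hb, map_smul]
  rw [h7] at h5
  have h8 := map_mem_NN Φ (add_mem h4 h5)
  have h10 : Φ (pr s w (C.d b) z') + Φ (pr s w b ((Fw w (R0 O s)).d z')) = 0 := by
    rw [← map_add, ← h6, ← hΦ]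
    rfl
  have h9 : xv O j • Φ (pr s w z z') + xv O 0 • Φ (pr s w a z' + pr s w b u') =
      Φ (xv O j • pr s w z z' + xv O 0 • pr s w a z' + pr s w (C.d b) z' +
        (pr s w b ((Fw w (R0 O s)).d z') + xv O 0 • pr s w b u')) := by
    simp only [map_add, map_smul, smul_add]
    calc _ = xv O j • Φ (pr s w z z') +
          (xv O 0 • Φ (pr s w a z') + xv O 0 • Φ (pr s w b u')) +
          (Φ (pr s w (C.d b) z') + Φ (pr s w b ((Fw w (R0 O s)).d z'))) := by
            rw [h10, add_zero]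
      _ = _ := by abel
  rw [h9]
  exact h8

/-- The pairing of a word with its inverse, from the null homotopies (`hF`) and the residue lemma
(`hR`). -/
theorem mirror_of (P : Pot O) (s : ℕ) (w : List (ℕ × Bool)) (hw : Valid (s + 1) w)
    (hF : ∀ z ∈ HH O (Fw w (R0 O (s + 1))).V, ∀ u ∈ HH O (Fw w (R0 O (s + 1))).V,
      (Fw w (R0 O (s + 1))).d z + xv O 0 • u ∈ NN P (Fw w (R0 O (s + 1))).V → ∀ j < s + 1,
      ∃ a ∈ HH O (Fw w (R0 O (s + 1))).V, ∃ b ∈ HH O (Fw w (R0 O (s + 1))).V,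
        xv O j • z + xv O 0 • a + (Fw w (R0 O (s + 1))).d b ∈ NN P (Fw w (R0 O (s + 1))).V)
    (hR : ∀ f : RS O (s + 1), (∀ j < s + 1, ∃ g : RS O (s + 1),
      xv O j • f + xv O 0 • g ∈ NN P (RS O (s + 1))) →
      P.ta ^ s ∣ MvPolynomial.eval (0 : Fin (s + 1) → O) f)
    (x : O) (hx : x ∈ IdW P (s + 1) w 0) (y : O) (hy : y ∈ IdW P (s + 1) (ninv w) 0) :
    P.ta ^ s ∣ x * y := by
  obtain ⟨z, hz, u, hu, h1, rfl⟩ := hx
  obtain ⟨z', hz', u', hu', h1', rfl⟩ := hy
  have hC : Van (O := O) (s + 1) (Fw w (R0 O (s + 1))).V := van_Fw hw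
  have hcw := canc_word w (R0 O (s + 1))
  rw [Fw_append] at hcw
  obtain ⟨Φ, hΦ1, hΦ2⟩ := hcw
  have hval := hΦ2 (pr (s + 1) (ninv w) z z') (pr_mem_HH hC _ hz hz')
  rw [pr_ep hC _ z hz z' hz'] at hval
  rw [← hval]
  refine hR (Φ (pr (s + 1) (ninv w) z z')) ?_
  intro j hj
  obtain ⟨a, ha, b, hb, h3⟩ := hF z hz u hu h1 j hj
  exact ⟨Φ (pr (s + 1) (ninv w) a z' + pr (s + 1) (ninv w) b u'),
    pairing_aux P (s + 1) (ninv w) _ hC Φ hΦ1 hb hz' j h3 h1'⟩

end CQ.G
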