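import Mathlib

/-!
# The word principle

A property of words in letters `0, 1, …` which is compatible with far commutation, with
`i i → i`, with `(i+1) i (i+1) → i (i+1) i, (i+1)` and with the removal of a letter larger than
all other letters holds for all words.
-/

set_option autoImplicit false

namespace CQ

section
variable {Pr : List ℕ → Prop}

/-- moving a letter `m` past letters `≤ m - 2` -/
theorem word0_move (hcomm : ∀ u v i j, i + 2 ≤ j → Pr (u ++ i :: j :: v) →
      Pr (u ++ j :: i :: v))
    (m : ℕ) (c : List ℕ) (hc : ∀ a ∈ c, a + 2 ≤ m) (u v : List ℕ) :
    Pr (u ++ (c ++ m :: v)) → Pr (u ++ m :: (c ++ v)) := by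
  induction c generalizing u with
  | nil => exact id
  | cons a c ih =>
    intro h
    have h1 : Pr ((u ++ [a]) ++ (c ++ m :: v)) := by simpa using h
    have h2 := ih (fun b hb => hc b (List.mem_cons_of_mem _ hb)) (u ++ [a]) h1
    have h3 : Pr (u ++ a :: m :: (c ++ v)) := by simpa using h2
    exact hcomm u (c ++ v) a m (hc a List.mem_cons_self) h3

theorem word0_move' (hcomm : ∀ u v i j, i + 2 ≤ j → Pr (u ++ j :: i :: v) →
      Pr (u ++ i :: j :: v))
    (m : ℕ) (c : List ℕ) (hc : ∀ a ∈ c, a + 2 ≤ m) (u v : List ℕ) :
    Pr (u ++ m :: (c ++ v)) → Pr (u ++ (c ++ m :: v)) := by
  induction c generalizing u with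
  | nil => exact id
  | cons a c ih =>
    intro h
    have h3 : Pr (u ++ a :: m :: (c ++ v)) :=
      hcomm u (c ++ v) a m (hc a List.mem_cons_self) h
    have h2 : Pr ((u ++ [a]) ++ m :: (c ++ v)) := by simpa using h3
    have h1 := ih (fun b hb => hc b (List.mem_cons_of_mem _ hb)) (u ++ [a]) h2
    simpa using h1

/-- reduction to words with at most one letter `m` -/
theorem word0_claim
    (hcomm : ∀ u v i j, i + 2 ≤ j → Pr (u ++ i :: j :: v) → Pr (u ++ j :: i :: v))
    (hcomm' : ∀ u v i j, i + 2 ≤ j → Pr (u ++ j :: i :: v) → Pr (u ++ i :: j :: v))
    (hdig : ∀ u v i, Pr (u ++ i :: v) → Pr (u ++ i :: i :: v))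
    (hR : ∀ u v i, Pr (u ++ i :: (i + 1) :: i :: v) → Pr (u ++ (i + 1) :: v) →
      Pr (u ++ (i + 1) :: i :: (i + 1) :: v)) (m : ℕ) :
    ∀ (n : ℕ) (b : List ℕ), (∀ a ∈ b, a ≤ m) → b.count m ≤ n → ∀ u v : List ℕ,
      (∀ b' : List ℕ, (∀ a ∈ b', a ≤ m) → b'.count m ≤ 1 → Pr (u ++ (b' ++ v))) →
      Pr (u ++ (b ++ v)) := by
  induction m with
  | zero =>
    intro n
    induction n with
    | zero => intro b hb hn u v h; exact h b hb (by omega)
    | succ n ihn =>
      intro b hb hn u v h
      by_cases h1 : b.count 0 ≤ 1
      · exact h b hb h1
      · -- `b` consists of zeros
        obtain ⟨c, rfl⟩ : ∃ c, b = 0 :: 0 :: c := by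
          match b, hb, h1 with
          | [], _, h1 => simp at h1
          | [a], _, h1 =>
            exfalso; apply h1
            exact (List.count_le_length).trans (by simp)
          | a :: a' :: c, hb, _ =>
            have e1 : a = 0 := Nat.le_zero.1 (hb a (by simp))
            have e2 : a' = 0 := Nat.le_zero.1 (hb a' (by simp))
            exact ⟨c, by rw [e1, e2]⟩
        have h2 := ihn (0 :: c) (fun a ha => by
            rcases List.mem_cons.1 ha with rfl | ha
            · exact le_refl _
            · exact hb a (by simp [ha])) (by simp at hn ⊢; omega) u v h
        exact hdig u (c ++ v) 0 h2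
  | succ m ihm =>
    intro n
    induction n with
    | zero => intro b hb hn u v h; exact h b hb (by omega)
    | succ n ihn =>
      intro b hb hn u v h
      by_cases h1 : b.count (m + 1) ≤ 1
      · exact h b hb h1
      · -- two consecutive letters `m + 1`
        have hm : (m + 1) ∈ b := List.count_pos_iff.1 (by omega)
        obtain ⟨p, r, rfl, hp⟩ := List.eq_append_cons_of_mem hm
        have hr : (m + 1) ∈ r := by
          apply List.count_pos_iff.1
          rw [List.count_append, List.count_cons_self, List.count_eq_zero_of_not_mem hp] at h1
          omega
        obtain ⟨c, q, rfl, hc⟩ := List.eq_append_cons_of_mem hr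
        have hcnt : (p ++ (m + 1) :: (c ++ (m + 1) :: q)).count (m + 1) = q.count (m + 1) + 2 := by
          rw [List.count_append, List.count_cons_self, List.count_append, List.count_cons_self,
            List.count_eq_zero_of_not_mem hp, List.count_eq_zero_of_not_mem hc]
          omega
        have hbp : ∀ a ∈ p, a ≤ m + 1 := fun a ha => hb a (by simp [ha])
        have hbq : ∀ a ∈ q, a ≤ m + 1 := fun a ha => hb a (by simp [ha])
        have hbc : ∀ a ∈ c, a ≤ m := by
          intro a ha
          have h2 := hb a (by simp [ha])
          have h3 : a ≠ m + 1 := fun e => hc (e ▸ ha)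
          omega
        have key := ihm (c.count m) c hbc le_rfl (u ++ p ++ [m + 1]) ((m + 1) :: (q ++ v)) (by
          intro c' hc' hn'
          rcases Nat.lt_or_ge 0 (c'.count m) with h0 | h0
          · -- one letter `m`
            have hm' : m ∈ c' := List.count_pos_iff.1 h0
            obtain ⟨c1, c2, rfl, hc1⟩ := List.eq_append_cons_of_mem hm'
            have hc2 : m ∉ c2 := by
              intro h2
              have := List.count_pos_iff.2 h2
              rw [List.count_append, List.count_cons_self] at hn'
              omega
            have b1 : ∀ a ∈ c1, a + 2 ≤ m + 1 := by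
              intro a ha
              have h2 := hc' a (by simp [ha])
              have h3 : a ≠ m := fun e => hc1 (e ▸ ha)
              omega
            have b2 : ∀ a ∈ c2, a + 2 ≤ m + 1 := by
              intro a ha
              have h2 := hc' a (by simp [ha])
              have h3 : a ≠ m := fun e => hc2 (e ▸ ha)
              omega
            have n1 : c1.count (m + 1) = 0 := List.count_eq_zero_of_not_mem (fun h4 => by
              have := b1 _ h4; omega)
            have n2 : c2.count (m + 1) = 0 := List.count_eq_zero_of_not_mem (fun h4 => by
              have := b2 _ h4; omega)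
            have w1 := ihn (p ++ (c1 ++ m :: (m + 1) :: m :: (c2 ++ q))) (by
                intro a ha
                simp only [List.mem_append, List.mem_cons] at ha
                rcases ha with ha | ha | ha | ha | ha | ha | ha
                · exact hbp a ha
                · have := b1 a ha; omega
                · omega
                · omega
                · omega
                · have := b2 a ha; omega
                · exact hbq a ha) (by
                rw [hcnt] at hn
                simp only [List.count_append, List.count_cons, n1, n2,
                  List.count_eq_zero_of_not_mem hp]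
                simp
                omega) u v h
            have w2 := ihn (p ++ (c1 ++ (m + 1) :: (c2 ++ q))) (by
                intro a ha
                simp only [List.mem_append, List.mem_cons] at ha
                rcases ha with ha | ha | ha | ha | ha
                · exact hbp a ha
                · have := b1 a ha; omega
                · omega
                · have := b2 a ha; omega
                · exact hbq a ha) (by
                rw [hcnt] at hn
                simp only [List.count_append, List.count_cons, n1, n2,
                  List.count_eq_zero_of_not_mem hp]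
                simp
                omega) u v h
            have w3 := hR (u ++ p ++ c1) (c2 ++ (q ++ v)) m (by simpa using w1) (by simpa using w2)
            -- move the outer letters outwards
            have w4 : Pr ((u ++ p ++ c1 ++ [m + 1] ++ [m]) ++ (c2 ++ (m + 1) :: (q ++ v))) := by
              apply word0_move' hcomm' (m + 1) c2 b2
              simpa using w3
            have w5 : Pr ((u ++ p) ++ (c1 ++ (m + 1) :: (m :: c2 ++ (m + 1) :: (q ++ v)))) := by
              simpa using w4
            have w6 := word0_move hcomm (m + 1) c1 b1 _ _ w5
            simpa using w6
          · -- no letter `m`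
            have b1 : ∀ a ∈ c', a + 2 ≤ m + 1 := by
              intro a ha
              have h2 := hc' a ha
              have h3 : a ≠ m := fun e => by
                have := List.count_pos_iff.2 (e ▸ ha : m ∈ c')
                omega
              omega
            have n1 : c'.count (m + 1) = 0 := List.count_eq_zero_of_not_mem (fun h4 => by
              have := b1 _ h4; omega)
            have w1 := ihn (p ++ (c' ++ (m + 1) :: q)) (by
                intro a ha
                simp only [List.mem_append, List.mem_cons] at ha
                rcases ha with ha | ha | ha | ha
                · exact hbp a ha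
                · have := b1 a ha; omega
                · omega
                · exact hbq a ha) (by
                rw [hcnt] at hn
                simp only [List.count_append, List.count_cons, n1,
                  List.count_eq_zero_of_not_mem hp]
                simp
                omega) u v h
            have w2 := hdig (u ++ p ++ c') (q ++ v) (m + 1) (by simpa using w1)
            have w3 : Pr ((u ++ p) ++ (c' ++ (m + 1) :: ((m + 1) :: (q ++ v)))) := by
              simpa using w2
            have w4 := word0_move hcomm (m + 1) c' b1 _ _ w3
            simpa using w4)
        simpa using key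

/-- the word principle -/
theorem word0 (hnil : Pr [])
    (hcomm : ∀ u v i j, i + 2 ≤ j → Pr (u ++ i :: j :: v) → Pr (u ++ j :: i :: v))
    (hcomm' : ∀ u v i j, i + 2 ≤ j → Pr (u ++ j :: i :: v) → Pr (u ++ i :: j :: v))
    (hdig : ∀ u v i, Pr (u ++ i :: v) → Pr (u ++ i :: i :: v))
    (hR : ∀ u v i, Pr (u ++ i :: (i + 1) :: i :: v) → Pr (u ++ (i + 1) :: v) →
      Pr (u ++ (i + 1) :: i :: (i + 1) :: v))
    (htop : ∀ u v m, (∀ a ∈ u, a < m) → (∀ a ∈ v, a < m) → Pr (u ++ v) → Pr (u ++ m :: v))
    (w : List ℕ) : Pr w := by
  have T : ∀ m : ℕ, ∀ w : List ℕ, (∀ a ∈ w, a < m) → Pr w := by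
    intro m
    induction m with
    | zero =>
      intro w hw
      have : w = [] := List.eq_nil_iff_forall_not_mem.2 fun a ha => absurd (hw a ha) (by omega)
      rw [this]; exact hnil
    | succ m ih =>
      intro w hw
      have h := word0_claim hcomm hcomm' hdig hR m (w.count m) w
        (fun a ha => Nat.lt_succ_iff.1 (hw a ha)) le_rfl [] [] (by
        intro b' hb' hn'
        rcases Nat.lt_or_ge 0 (b'.count m) with h0 | h0
        · have hm' : m ∈ b' := List.count_pos_iff.1 h0
          obtain ⟨c1, c2, rfl, hc1⟩ := List.eq_append_cons_of_mem hm'
          have hc2 : m ∉ c2 := by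
            intro h2
            have := List.count_pos_iff.2 h2
            rw [List.count_append, List.count_cons_self] at hn'
            omega
          have b1 : ∀ a ∈ c1, a < m := by
            intro a ha
            have h2 := hb' a (by simp [ha])
            have h3 : a ≠ m := fun e => hc1 (e ▸ ha)
            omega
          have b2 : ∀ a ∈ c2, a < m := by
            intro a ha
            have h2 := hb' a (by simp [ha])
            have h3 : a ≠ m := fun e => hc2 (e ▸ ha)
            omega
          have := htop c1 c2 m b1 b2 (ih _ (by
            intro a ha
            rcases List.mem_append.1 ha with ha | ha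
            · exact b1 a ha
            · exact b2 a ha))
          simpa using this
        · have := ih b' (by
            intro a ha
            have h2 := hb' a ha
            have h3 : a ≠ m := fun e => by
              have := List.count_pos_iff.2 (e ▸ ha : m ∈ b')
              omega
            omega)
          simpa using this)
      simpa using h
  obtain ⟨m, hm⟩ : ∃ m, ∀ a ∈ w, a < m := by
    induction w with
    | nil => exact ⟨0, by simp⟩
    | cons a w ih =>
      obtain ⟨m, hm⟩ := ih
      refine ⟨max (a + 1) m, ?_⟩
      intro b hb
      rcases List.mem_cons.1 hb with rfl | hb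
      · omega
      · have := hm b hb; omega
  exact T m w hm

end

end CQ
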