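import Pool.Agent.CQ.Moves4
import Pool.Agent.CQ.Product
import Pool.Agent.CQ.Word0

/-!
# Generation of Hochschild elements with coefficients

Let `H` be an `S`-module on which left and right variables agree.  Every Hochschild element of
`Bw w H` is a sum of images of Hochschild elements of `Bw w (RS s)` under maps induced by
`S`-linear maps `RS s → H`; the same for `Fw`.
-/

set_option autoImplicit false
set_option linter.unusedSectionVars false
set_option linter.unusedSimpArgs false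

namespace CQ.Gen

open MvPolynomial CQ CQ.G

variable {O : Type} [CommRing O] [CharP O 2]

/-- The Hochschild elements of `Bw w H` are generated by those of `Bw w R` through the maps in
`F`. -/
def Q (w : List ℕ) {R H : SM O} (F : Set (R.V →ₗ[S O] H.V)) : Prop :=
  ∀ z ∈ HH O (Bw true w H).V, z ∈ AddSubgroup.closure
    {y | ∃ f ∈ F, ∃ b ∈ HH O (Bw true w R).V, y = Bw.map true w f b}

/-- maps induced on `D2` -/
def D2F (i : ℕ) {R H : SM O} (F : Set (R.V →ₗ[S O] H.V)) :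
    Set ((SM.D2 true i R).V →ₗ[S O] (SM.D2 true i H).V) := {g | ∃ f ∈ F, g = D2.map f}

theorem Q_cons (i : ℕ) (w : List ℕ) {R H : SM O} (F : Set (R.V →ₗ[S O] H.V)) :
    Q (i :: w) F ↔ Q w (R := SM.D2 true i R) (H := SM.D2 true i H) (D2F i F) := by
  have e : {y : (Bw true (i :: w) H).V | ∃ f ∈ F, ∃ b ∈ HH O (Bw true (i :: w) R).V,
      y = Bw.map true (i :: w) f b} =
      {y : (Bw true w (SM.D2 true i H)).V | ∃ f ∈ D2F i F,
        ∃ b ∈ HH O (Bw true w (SM.D2 true i R)).V,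
        y = Bw.map true w (C := SM.D2 true i R) (D := SM.D2 true i H) f b} := by
    ext y
    constructor
    · rintro ⟨f, hf, b, hb, rfl⟩
      exact ⟨D2.map f, ⟨f, hf, rfl⟩, b, hb, rfl⟩
    · rintro ⟨_, ⟨f, hf, rfl⟩, b, hb, rfl⟩
      exact ⟨f, hf, b, hb, rfl⟩
  unfold Q
  constructor
  · intro h z hz
    have := h z hz
    rw [e] at this
    exact this
  · intro h z hz
    rw [e]
    exact h z hz

/-- maps induced on `Bw u` -/
def BwF (u : List ℕ) {R H : SM O} (F : Set (R.V →ₗ[S O] H.V)) :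
    Set ((Bw true u R).V →ₗ[S O] (Bw true u H).V) := {g | ∃ f ∈ F, g = Bw.map true u f}

theorem Q_append (u v : List ℕ) {R H : SM O} (F : Set (R.V →ₗ[S O] H.V)) :
    Q (u ++ v) F ↔ Q v (R := Bw true u R) (H := Bw true u H) (BwF u F) := by
  induction u generalizing R H with
  | nil =>
    have e : BwF [] F = F := by
      ext g
      constructor
      · rintro ⟨f, hf, rfl⟩; exact hf
      · intro hg; exact ⟨g, hg, rfl⟩
    rw [e]; rfl
  | cons i u ih =>
    rw [List.cons_append, Q_cons, ih]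
    have e : BwF u (D2F i F) = BwF (i :: u) F := by
      ext g
      constructor
      · rintro ⟨_, ⟨f, hf, rfl⟩, rfl⟩
        exact ⟨f, hf, rfl⟩
      · rintro ⟨f, hf, rfl⟩
        exact ⟨_, ⟨f, hf, rfl⟩, rfl⟩
    rw [e]; rfl

/-- pushing generators forward -/
theorem closure_push {v : List ℕ} {X Y XH YH : SM O} {F : Set (X.V →ₗ[S O] XH.V)}
    {F' : Set (Y.V →ₗ[S O] YH.V)} (p : XH.V →ₗ[S O] YH.V) (q : X.V →ₗ[S O] Y.V)
    (hF : ∀ f ∈ F, ∃ f' ∈ F', p ∘ₗ f = f' ∘ₗ q) {z : (Bw true v XH).V}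
    (hz : z ∈ AddSubgroup.closure
      {y | ∃ f ∈ F, ∃ b ∈ HH O (Bw true v X).V, y = Bw.map true v f b}) :
    Bw.map true v p z ∈ AddSubgroup.closure
      {y | ∃ f ∈ F', ∃ b ∈ HH O (Bw true v Y).V, y = Bw.map true v f b} := by
  have h1 : AddSubgroup.closure {y | ∃ f ∈ F, ∃ b ∈ HH O (Bw true v X).V,
      y = Bw.map true v f b} ≤ (AddSubgroup.closure
      {y | ∃ f ∈ F', ∃ b ∈ HH O (Bw true v Y).V, y = Bw.map true v f b}).comap
        (Bw.map true v p).toAddMonoidHom := by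
    rw [AddSubgroup.closure_le]
    rintro _ ⟨f, hf, b, hb, rfl⟩
    obtain ⟨f', hf', e⟩ := hF f hf
    refine AddSubgroup.subset_closure ⟨f', hf', Bw.map true v q b, map_mem_HH _ hb, ?_⟩
    have e1 := Bw.map_comp true v p f
    have e2 := Bw.map_comp true v f' q
    change Bw.map true v p (Bw.map true v f b) = Bw.map true v f' (Bw.map true v q b)
    have e3 := LinearMap.congr_fun e1 b
    have e4 := LinearMap.congr_fun e2 b
    rw [← e] at e4
    exact e3.symm.trans e4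
  exact h1 hz

/-- retracts of a product of two -/
theorem Q_retr2 {v : List ℕ} {X1 X2 Y X1H X2H YH : SM O} {F1 : Set (X1.V →ₗ[S O] X1H.V)}
    {F2 : Set (X2.V →ₗ[S O] X2H.V)} {F : Set (Y.V →ₗ[S O] YH.V)}
    (ι1 : YH.V →ₗ[S O] X1H.V) (ι2 : YH.V →ₗ[S O] X2H.V)
    (p1 : X1H.V →ₗ[S O] YH.V) (p2 : X2H.V →ₗ[S O] YH.V)
    (q1 : X1.V →ₗ[S O] Y.V) (q2 : X2.V →ₗ[S O] Y.V)
    (hr : ∀ z, p1 (ι1 z) + p2 (ι2 z) = z)
    (h1 : ∀ f ∈ F1, ∃ f' ∈ F, p1 ∘ₗ f = f' ∘ₗ q1) (h2 : ∀ f ∈ F2, ∃ f' ∈ F, p2 ∘ₗ f = f' ∘ₗ q2)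
    (hQ1 : Q v F1) (hQ2 : Q v F2) : Q v F := by
  intro z hz
  have a1 := closure_push p1 q1 h1 (hQ1 (Bw.map true v ι1 z) (map_mem_HH _ hz))
  have a2 := closure_push p2 q2 h2 (hQ2 (Bw.map true v ι2 z) (map_mem_HH _ hz))
  have e : Bw.map true v p1 (Bw.map true v ι1 z) + Bw.map true v p2 (Bw.map true v ι2 z) = z := by
    have e0 : p1 ∘ₗ ι1 + p2 ∘ₗ ι2 = LinearMap.id := LinearMap.ext hr
    have e1 := LinearMap.congr_fun (Bw.map_add true v (C := YH) (D := YH) (p1 ∘ₗ ι1) (p2 ∘ₗ ι2)) z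
    rw [e0, Bw.map_id, Bw.map_comp true v (C := YH) (D := X1H) (E := YH),
      Bw.map_comp true v (C := YH) (D := X2H) (E := YH)] at e1
    exact e1.symm
  have := add_mem a1 a2
  rw [e] at this
  exact this

theorem Q_retr {v : List ℕ} {X Y XH YH : SM O} {F1 : Set (X.V →ₗ[S O] XH.V)}
    {F : Set (Y.V →ₗ[S O] YH.V)}
    (ι1 : YH.V →ₗ[S O] XH.V) (p1 : XH.V →ₗ[S O] YH.V) (q1 : X.V →ₗ[S O] Y.V)
    (hr : ∀ z, p1 (ι1 z) = z) (h1 : ∀ f ∈ F1, ∃ f' ∈ F, p1 ∘ₗ f = f' ∘ₗ q1)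
    (hQ1 : Q v F1) : Q v F := by
  intro z hz
  have a1 := closure_push p1 q1 h1 (hQ1 (Bw.map true v ι1 z) (map_mem_HH _ hz))
  have e : Bw.map true v p1 (Bw.map true v ι1 z) = z := by
    have e0 : p1 ∘ₗ ι1 = LinearMap.id := LinearMap.ext hr
    have e1 := LinearMap.congr_fun (Bw.map_comp true v (C := YH) (D := XH) (E := YH) p1 ι1) z
    rw [e0, Bw.map_id] at e1
    exact e1.symm
  rw [e] at a1
  exact a1

section steps
variable {R H : SM O} (F : Set (R.V →ₗ[S O] H.V)) (v : List ℕ)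

theorem Q_far {i j : ℕ} (h : Mv.FarL true i true j) (h' : Mv.FarL true j true i)
    (hQ : Q (i :: j :: v) F) : Q (j :: i :: v) F := by
  rw [Q_cons, Q_cons] at hQ ⊢
  refine Q_retr (X := SM.D2 true j (SM.D2 true i R)) (XH := SM.D2 true j (SM.D2 true i H))
    (Y := SM.D2 true i (SM.D2 true j R)) (YH := SM.D2 true i (SM.D2 true j H))
    (Mv.swapD (O := O) h H.V) (Mv.swapD (O := O) h' H.V) (Mv.swapD (O := O) h' R.V)
    (fun z => Mv.swapD_swapD (O := O) h z) ?_ hQ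
  rintro _ ⟨_, ⟨f, hf, rfl⟩, rfl⟩
  refine ⟨D2.map (D2.map f), ⟨_, ⟨f, hf, rfl⟩, rfl⟩, ?_⟩
  apply LinearMap.ext
  intro z
  exact Mv.swapD_nat (O := O) h' f z

theorem Q_dig (i : ℕ) (hQ : Q (i :: v) F) : Q (i :: i :: v) F := by
  rw [Q_cons] at hQ
  rw [Q_cons, Q_cons]
  refine Q_retr2 (X1 := SM.D2 true i R) (X1H := SM.D2 true i H) (X2 := SM.D2 true i R)
    (X2H := SM.D2 true i H) (Y := SM.D2 true i (SM.D2 true i R))
    (YH := SM.D2 true i (SM.D2 true i H)) (F1 := D2F i F) (F2 := D2F i F)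
    (Mv.dig0 (O := O) true i H.V) (dig O true i) (split O true i)
    (Mv.split1 (O := O) true i H.V) (split O true i) (Mv.split1 (O := O) true i R.V)
    (fun z => Mv.digon (O := O) z) ?_ ?_ hQ hQ
  · rintro _ ⟨f, hf, rfl⟩
    refine ⟨D2.map (D2.map f), ⟨_, ⟨f, hf, rfl⟩, rfl⟩, ?_⟩
    apply LinearMap.ext
    intro z
    exact Mv.split_nat (O := O) true i f z
  · rintro _ ⟨f, hf, rfl⟩
    refine ⟨D2.map (D2.map f), ⟨_, ⟨f, hf, rfl⟩, rfl⟩, ?_⟩
    apply LinearMap.ext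
    intro z
    change Mv.split1 (O := O) true i H.V (D2.map f z) =
      D2.map (D2.map f) (Mv.split1 (O := O) true i R.V z)
    ext <;> simp [Mv.split1_apply]

theorem Q_R (i : ℕ) (hQ1 : Q (i :: (i + 1) :: i :: v) F) (hQ2 : Q ((i + 1) :: v) F) :
    Q ((i + 1) :: i :: (i + 1) :: v) F := by
  rw [Q_cons, Q_cons, Q_cons] at hQ1
  rw [Q_cons] at hQ2
  rw [Q_cons, Q_cons, Q_cons]
  refine Q_retr2 (X1 := SM.D2 true i (SM.D2 true (i + 1) (SM.D2 true i R)))
    (X1H := SM.D2 true i (SM.D2 true (i + 1) (SM.D2 true i H)))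
    (X2 := SM.D2 true (i + 1) R) (X2H := SM.D2 true (i + 1) H)
    (Y := SM.D2 true (i + 1) (SM.D2 true i (SM.D2 true (i + 1) R)))
    (YH := SM.D2 true (i + 1) (SM.D2 true i (SM.D2 true (i + 1) H)))
    (Mv.R3.nu (O := O) true i H.V) (dig O true (i + 1) ∘ₗ D2.map (unzip O true i))
    (Mv.R3.mu (O := O) true i H.V) (D2.map (zip O true i) ∘ₗ split O true (i + 1))
    (Mv.R3.mu (O := O) true i R.V) (D2.map (zip O true i) ∘ₗ split O true (i + 1))
    (fun z => Mv.R3.ret' (O := O) z) ?_ ?_ hQ1 hQ2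
  · rintro _ ⟨_, ⟨_, ⟨f, hf, rfl⟩, rfl⟩, rfl⟩
    refine ⟨D2.map (D2.map (D2.map f)), ⟨_, ⟨_, ⟨f, hf, rfl⟩, rfl⟩, rfl⟩, ?_⟩
    apply LinearMap.ext
    intro z
    exact Mv.R3.mu_nat (O := O) f z
  · rintro _ ⟨f, hf, rfl⟩
    refine ⟨D2.map (D2.map (D2.map f)), ⟨_, ⟨_, ⟨f, hf, rfl⟩, rfl⟩, rfl⟩, ?_⟩
    apply LinearMap.ext
    intro z
    change D2.map (zip O true i) (split O true (i + 1) (D2.map f z)) =
      D2.map (D2.map (D2.map f)) (D2.map (zip O true i) (split O true (i + 1) z))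
    have e1 : split O true (i + 1) (D2.map f z) = D2.map (D2.map f) (split O true (i + 1) z) :=
      Mv.split_nat (O := O) true (i + 1) f z
    rw [e1]
    refine D2.ext ?_ ?_
    · exact zip_nat (O := O) true i (D2.map f) (split O true (i + 1) z).a
    · exact zip_nat (O := O) true i (D2.map f) (split O true (i + 1) z).b

end steps

/-! ## the top letter -/

/-- the variable `j` acts in the same way on the left and on the right -/
def Un (j : ℕ) (C : Type) [AddCommGroup C] [Module (S O) C] : Prop :=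
  ∀ v : C, xv O j • v = yv O j • v

theorem Un.D2 {j : ℕ} {C : Type} [AddCommGroup C] [Module (S O) C] (hC : Un (O := O) j C) {i : ℕ}
    (h1 : j ≠ i) (h2 : j ≠ i + 1) : Un (O := O) j (D2 true i C) := by
  intro v
  have a1 : (Sum.inl j : ℕ ⊕ ℕ) ≠ inj true i := by simp
  have a2 : (Sum.inl j : ℕ ⊕ ℕ) ≠ inj true (i + 1) := by simp
  have a3 : (Sum.inr j : ℕ ⊕ ℕ) ≠ inj true i := by simpa using h1
  have a4 : (Sum.inr j : ℕ ⊕ ℕ) ≠ inj true (i + 1) := by simpa using h2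
  ext
  · rw [D2.X_smul_a_of_ne _ a1 a2, D2.X_smul_a_of_ne _ a3 a4]; exact hC v.a
  · rw [D2.X_smul_b_of_ne _ a1 a2, D2.X_smul_b_of_ne _ a3 a4]; exact hC v.b

theorem Un.Bw {j : ℕ} {C : SM O} (hC : Un (O := O) j C.V) {w : List ℕ}
    (hw : ∀ i ∈ w, j ≠ i ∧ j ≠ i + 1) : Un (O := O) j (Bw true w C).V := by
  induction w generalizing C with
  | nil => exact hC
  | cons i w ih =>
    exact ih (C := SM.D2 true i C) (hC.D2 (hw i List.mem_cons_self).1 (hw i List.mem_cons_self).2)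
      (fun b hb => hw b (List.mem_cons_of_mem _ hb))

theorem Un.Fw {j : ℕ} {C : DM O} (hC : Un (O := O) j C.V) {w : List (ℕ × Bool)}
    (hw : ∀ a ∈ w, j ≠ a.1 ∧ j ≠ a.1 + 1) : Un (O := O) j (Fw w C).V := by
  induction w generalizing C with
  | nil => exact hC
  | cons a w ih =>
    refine ih (C := F2 true a.1 a.2 C) ?_ (fun b hb => hw b (List.mem_cons_of_mem _ hb))
    intro v
    exact Prod.ext (hC v.1) ((hC.D2 (hw a List.mem_cons_self).1 (hw a List.mem_cons_self).2) v.2)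

theorem zip_range {m : ℕ} {C : Type} [AddCommGroup C] [Module (S O) C]
    (hC : Un (O := O) (m + 1) C) (z : D2 true m C) (hz : xv O (m + 1) • z = yv O (m + 1) • z) :
    z ∈ LinearMap.range (zip O true m : C →ₗ[S O] D2 true m C) := by
  refine ⟨z.b, ?_⟩
  have h1 := congrArg D2.b hz
  have a1 : (Sum.inl (m + 1) : ℕ ⊕ ℕ) ≠ inj true m := by simp
  have a2 : (Sum.inl (m + 1) : ℕ ⊕ ℕ) ≠ inj true (m + 1) := by simp
  have e : (yv O (m + 1) : S O) = X (inj true (m + 1)) := rfl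
  rw [D2.X_smul_b_of_ne _ a1 a2, e, D2.X_smul_succ_b] at h1
  ext
  · rw [zip_a, ← h1]
    exact (hC z.b).symm
  · rfl

theorem range_D2 {j i : ℕ} (h1 : j ≠ i) (h2 : j ≠ i + 1) {X Y : Type} [AddCommGroup X]
    [Module (S O) X] [AddCommGroup Y] [Module (S O) Y]
    (g : X →ₗ[S O] Y) (hg : ∀ y : Y, xv O j • y = yv O j • y → y ∈ LinearMap.range g)
    (y : D2 true i Y) (hy : xv O j • y = yv O j • y) :
    y ∈ LinearMap.range (D2.map g : D2 true i X →ₗ[S O] D2 true i Y) := by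
  have a1 : (Sum.inl j : ℕ ⊕ ℕ) ≠ inj true i := by simp
  have a2 : (Sum.inl j : ℕ ⊕ ℕ) ≠ inj true (i + 1) := by simp
  have a3 : (Sum.inr j : ℕ ⊕ ℕ) ≠ inj true i := by simpa using h1
  have a4 : (Sum.inr j : ℕ ⊕ ℕ) ≠ inj true (i + 1) := by simpa using h2
  have ha := congrArg D2.a hy
  have hb := congrArg D2.b hy
  rw [D2.X_smul_a_of_ne _ a1 a2, D2.X_smul_a_of_ne _ a3 a4] at ha
  rw [D2.X_smul_b_of_ne _ a1 a2, D2.X_smul_b_of_ne _ a3 a4] at hb
  obtain ⟨p, hp⟩ := hg _ ha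
  obtain ⟨q, hq⟩ := hg _ hb
  exact ⟨(⟨p, q⟩ : D2 true i X), D2.ext hp hq⟩

theorem range_Bw {j : ℕ} {v : List ℕ} (hv : ∀ i ∈ v, j ≠ i ∧ j ≠ i + 1) {X Y : SM O}
    (g : X.V →ₗ[S O] Y.V) (hg : ∀ y : Y.V, xv O j • y = yv O j • y → y ∈ LinearMap.range g)
    (z : (Bw true v Y).V) (hz : xv O j • z = yv O j • z) :
    z ∈ LinearMap.range (Bw.map true v g) := by
  induction v generalizing X Y with
  | nil => exact hg z hz
  | cons i v ih =>
    refine ih (fun b hb => hv b (List.mem_cons_of_mem _ hb)) (X := SM.D2 true i X)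
      (Y := SM.D2 true i Y) (D2.map g) ?_ z hz
    intro y hy
    have hi := hv i List.mem_cons_self
    exact range_D2 hi.1 hi.2 g hg y hy

theorem Bw_injective {v : List ℕ} {X Y : SM O} (g : X.V →ₗ[S O] Y.V)
    (hg : Function.Injective g) : Function.Injective (Bw.map true v g) := by
  induction v generalizing X Y with
  | nil => exact hg
  | cons i v ih =>
    refine ih (X := SM.D2 true i X) (Y := SM.D2 true i Y) (D2.map g) ?_
    intro a b hab
    exact D2.ext (hg (congrArg D2.a hab)) (hg (congrArg D2.b hab))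

theorem zip_injective {m : ℕ} {C : Type} [AddCommGroup C] [Module (S O) C] :
    Function.Injective (zip O true m : C →ₗ[S O] D2 true m C) := by
  intro a b hab
  exact congrArg D2.b hab

theorem HH_of_injective {X Y : Type} [AddCommGroup X] [Module (S O) X] [AddCommGroup Y]
    [Module (S O) Y] (g : X →ₗ[S O] Y) (hg : Function.Injective g) {z : X}
    (hz : g z ∈ HH O Y) : z ∈ HH O X := by
  intro j
  apply hg
  rw [map_smul, map_smul]
  exact hz j

theorem Q_top {R H : SM O} (F : Set (R.V →ₗ[S O] H.V)) {m : ℕ} (hH : Un (O := O) (m + 1) H.V)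
    {u v : List ℕ} (hu : ∀ a ∈ u, a < m) (hv : ∀ a ∈ v, a < m) (hQ : Q (u ++ v) F) :
    Q (u ++ m :: v) F := by
  rw [Q_append] at hQ ⊢
  rw [Q_cons]
  have hC : Un (O := O) (m + 1) (Bw true u H).V := hH.Bw (fun i hi => by
    have := hu i hi; omega)
  intro z hz
  obtain ⟨z0, rfl⟩ := range_Bw (j := m + 1) (v := v) (fun i hi => by have := hv i hi; omega)
    (X := Bw true u H) (Y := SM.D2 true m (Bw true u H)) (zip O true m)
    (fun y hy => zip_range hC y hy) z (hz (m + 1))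
  have hz0 : z0 ∈ HH O (Bw true v (Bw true u H)).V :=
    HH_of_injective _ (Bw_injective (X := Bw true u H) (Y := SM.D2 true m (Bw true u H))
      (zip O true m) zip_injective) hz
  refine closure_push (v := v) (X := Bw true u R) (XH := Bw true u H)
    (Y := SM.D2 true m (Bw true u R)) (YH := SM.D2 true m (Bw true u H)) (zip O true m)
    (zip O true m) ?_ (hQ z0 hz0)
  rintro f hf
  refine ⟨D2.map f, ⟨f, hf, rfl⟩, ?_⟩
  apply LinearMap.ext
  intro z
  exact zip_nat (O := O) true m f z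

/-- generation for words of letter bimodules -/
theorem gen_Bw (s : ℕ) (H : SM O) (hH : ∀ j, Un (O := O) j H.V) (hV : Van (O := O) s H.V)
    (w : List ℕ) : (∀ a ∈ w, a + 1 < s) →
      Q w (R := SM.R O s) (H := H) (Set.univ) := by
  refine word0 (Pr := fun w => (∀ a ∈ w, a + 1 < s) →
    Q w (R := SM.R O s) (H := H) (Set.univ)) ?_ ?_ ?_ ?_ ?_ ?_ w
  · intro _ z hz
    refine AddSubgroup.subset_closure ⟨mS hV z hz, trivial, (1 : RS O s), mem_HH_RS s 1, ?_⟩
    change z = ren O s 1 • z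
    rw [map_one, one_smul]
  · intro u v i j hij h hw
    have h1 := h (fun a ha => hw a (by simp at ha ⊢; tauto))
    rw [Q_append] at h1 ⊢
    exact Q_far _ v (Mv.FarL.of_lt true hij) (Mv.FarL.of_gt true hij) h1
  · intro u v i j hij h hw
    have h1 := h (fun a ha => hw a (by simp at ha ⊢; tauto))
    rw [Q_append] at h1 ⊢
    exact Q_far _ v (Mv.FarL.of_gt true hij) (Mv.FarL.of_lt true hij) h1
  · intro u v i h hw
    have h1 := h (fun a ha => hw a (by simp at ha ⊢; tauto))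
    rw [Q_append] at h1 ⊢
    exact Q_dig _ v i h1
  · intro u v i h h' hw
    have h1 := h (fun a ha => hw a (by simp at ha ⊢; tauto))
    have h2 := h' (fun a ha => hw a (by simp at ha ⊢; tauto))
    rw [Q_append] at h1 h2 ⊢
    exact Q_R _ v i h1 h2
  · intro u v m hu hv h hw
    exact Q_top _ (hH (m + 1)) hu hv (h (fun a ha => hw a (by simp at ha ⊢; tauto)))

/-! ## `Fw` -/

/-- The Hochschild elements of `Fw w H` are generated by those of `Fw w R` through the maps in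
`F`. -/
def QF (w : List (ℕ × Bool)) {R H : DM O} (F : Set (R.V →ₗ[S O] H.V)) : Prop :=
  ∀ z ∈ HH O (Fw w H).V, z ∈ AddSubgroup.closure
    {y | ∃ f ∈ F, ∃ b ∈ HH O (Fw w R).V, y = Fw.map w f b}

/-- maps induced on `F2` -/
def F2F (i : ℕ) (p : Bool) {R H : DM O} (F : Set (R.V →ₗ[S O] H.V)) :
    Set ((F2 true i p R).V →ₗ[S O] (F2 true i p H).V) := {g | ∃ f ∈ F, g = F2.map true i p f}

theorem QF_cons (a : ℕ × Bool) (w : List (ℕ × Bool)) {R H : DM O} (F : Set (R.V →ₗ[S O] H.V))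
    (h : QF w (R := F2 true a.1 a.2 R) (H := F2 true a.1 a.2 H) (F2F a.1 a.2 F)) :
    QF (a :: w) F := by
  have e : {y : (Fw (a :: w) H).V | ∃ f ∈ F, ∃ b ∈ HH O (Fw (a :: w) R).V,
      y = Fw.map (a :: w) f b} =
      {y : (Fw w (F2 true a.1 a.2 H)).V | ∃ f ∈ F2F a.1 a.2 F,
        ∃ b ∈ HH O (Fw w (F2 true a.1 a.2 R)).V,
        y = Fw.map w (C := F2 true a.1 a.2 R) (D := F2 true a.1 a.2 H) f b} := by
    ext y
    constructor
    · rintro ⟨f, hf, b, hb, rfl⟩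
      exact ⟨F2.map true a.1 a.2 f, ⟨f, hf, rfl⟩, b, hb, rfl⟩
    · rintro ⟨_, ⟨f, hf, rfl⟩, b, hb, rfl⟩
      exact ⟨f, hf, b, hb, rfl⟩
  intro z hz
  rw [e]
  exact h z hz

theorem Q_F2 (v : List ℕ) (i : ℕ) (p : Bool) {R H : DM O} (F : Set (R.V →ₗ[S O] H.V))
    (h1 : Q v (R := R.toSM) (H := H.toSM) F) (h2 : Q (i :: v) (R := R.toSM) (H := H.toSM) F) :
    Q v (R := (F2 true i p R).toSM) (H := (F2 true i p H).toSM) (F2F i p F) := by
  rw [Q_cons] at h2
  refine Q_retr2 (X1 := R.toSM) (X1H := H.toSM) (X2 := SM.D2 true i R.toSM)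
    (X2H := SM.D2 true i H.toSM) (Y := (F2 true i p R).toSM) (YH := (F2 true i p H).toSM)
    (LinearMap.fst (S O) H.V (D2 true i H.V)) (LinearMap.snd (S O) H.V (D2 true i H.V))
    (LinearMap.inl (S O) H.V (D2 true i H.V)) (LinearMap.inr (S O) H.V (D2 true i H.V))
    (LinearMap.inl (S O) R.V (D2 true i R.V)) (LinearMap.inr (S O) R.V (D2 true i R.V))
    ?_ ?_ ?_ h1 h2
  · intro z
    refine Prod.ext ?_ ?_
    · exact add_zero _
    · exact zero_add _
  · intro f hf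
    refine ⟨F2.map true i p f, ⟨f, hf, rfl⟩, ?_⟩
    apply LinearMap.ext
    intro z
    refine Prod.ext rfl ?_
    exact (map_zero (D2.map f)).symm
  · rintro _ ⟨f, hf, rfl⟩
    refine ⟨F2.map true i p f, ⟨f, hf, rfl⟩, ?_⟩
    apply LinearMap.ext
    intro z
    refine Prod.ext ?_ rfl
    exact (map_zero f).symm

theorem gen_Fw_aux (s : ℕ) (w : List (ℕ × Bool)) (hw : Valid s w) {R H : DM O}
    (F : Set (R.V →ₗ[S O] H.V))
    (h : ∀ v : List ℕ, (∀ a ∈ v, a + 1 < s) → Q v (R := R.toSM) (H := H.toSM) F) : QF w F := by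
  induction w generalizing R H with
  | nil => exact h [] (by simp)
  | cons a w ih =>
    refine QF_cons a w F (ih (fun b hb => hw b (List.mem_cons_of_mem _ hb)) _ ?_)
    intro v hv
    refine Q_F2 v a.1 a.2 F (h v hv) (h (a.1 :: v) ?_)
    intro b hb
    rcases List.mem_cons.1 hb with rfl | hb
    · exact hw a List.mem_cons_self
    · exact hv b hb

/-- generation for cubes of crossings -/
theorem gen_Fw (s : ℕ) (H : DM O) (hH : ∀ j, Un (O := O) j H.V) (hV : Van (O := O) s H.V)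
    (w : List (ℕ × Bool)) (hw : Valid s w) : QF w (R := R0 O s) (H := H) (Set.univ) :=
  gen_Fw_aux s w hw _ (fun v hv => gen_Bw s H.toSM hH hV v hv)

end CQ.Gen
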