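import Pool.Agent.CQ.Final

/-!
# The reduction for invariants with values in the ideals of a discrete valuation ring
-/

namespace Pool.Agent.CQ

open scoped TensorProduct

/-- The properties of the ideals `I n w` of one theory, `τ = p'(l₁)`. -/
structure IdealInv {O : Type*} [CommRing O] (τ : O) (I : ∀ n : ℕ, Word n → Ideal O) : Prop where
  cancel : ∀ (n : ℕ) (u v : Word n) (i : Fin n) (b : Bool),
    I n (u ++ (i, b) :: (i, !b) :: v) = I n (u ++ v)
  comm : ∀ (n : ℕ) (u v : Word n) (i j : Fin n), (i : ℕ) + 2 ≤ j →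
    I n (u ++ (i, true) :: (j, true) :: v) = I n (u ++ (j, true) :: (i, true) :: v)
  braid : ∀ (n : ℕ) (u v : Word n) (i j : Fin n), (i : ℕ) + 1 = j →
    I n (u ++ (i, true) :: (j, true) :: (i, true) :: v) =
      I n (u ++ (j, true) :: (i, true) :: (j, true) :: v)
  rot : ∀ (n : ℕ) (a : Fin n × Bool) (w : Word n), IsKnot (toBraid (a :: w)) →
    I n (w ++ [a]) = I n (a :: w)
  add : ∀ (n m : ℕ) (w : Word n) (w' : Word m), IsKnot (toBraid w) → IsKnot (toBraid w') →
    I (n + m) (wsum w w') = I n w * I m w'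
  unlink : ∀ n : ℕ, I n [] = ⊤
  ins_pos : ∀ (n : ℕ) (u v : Word n) (i : Fin n) (x : O), x ∈ I n (u ++ v) →
    τ * x ∈ I n (u ++ (i, true) :: v)
  ins_neg : ∀ (n : ℕ) (u v : Word n) (i : Fin n) (x : O), x ∈ I n (u ++ v) →
    x ∈ I n (u ++ (i, false) :: v)
  canon : ∀ (n : ℕ) (w : Word n), τ ^ n ∈ I n w
  mirror : ∀ (n : ℕ) (w : Word n), IsKnot (toBraid w) → ∀ x ∈ I n w, ∀ y ∈ I n (winv w),
    τ ^ n ∣ x * y

section dvr

variable {O : Type*} [CommRing O] [IsDomain O] [IsDiscreteValuationRing O]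

open Classical in
/-- The order of an ideal of a discrete valuation ring (of the zero ideal: `0`). -/
noncomputable def ordI (I : Ideal O) : ℕ :=
  if h : ∃ m : ℕ, I = Ideal.span {(IsDiscreteValuationRing.exists_irreducible O).choose ^ m}
  then h.choose else 0

theorem ordI_spec {ϖ : O} (hϖ : Irreducible ϖ) {I : Ideal O} (hI : I ≠ ⊥) :
    I = Ideal.span {ϖ ^ ordI I} := by
  set π := (IsDiscreteValuationRing.exists_irreducible O).choose with hπ
  have hπ' : Irreducible π := (IsDiscreteValuationRing.exists_irreducible O).choose_spec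
  have h : ∃ m : ℕ, I = Ideal.span {π ^ m} :=
    IsDiscreteValuationRing.ideal_eq_span_pow_irreducible hI hπ'
  have h1 : ordI I = h.choose := by rw [ordI]; exact dif_pos h
  have h2 : I = Ideal.span {π ^ ordI I} := by rw [h1]; exact h.choose_spec
  have h3 : Associated π ϖ := IsDiscreteValuationRing.associated_of_irreducible O hπ' hϖ
  rw [h2]
  conv_rhs => rw [← h2]
  rw [Ideal.span_singleton_eq_span_singleton]
  exact h3.pow_pow

theorem mem_iff_ordI {ϖ : O} (hϖ : Irreducible ϖ) {I : Ideal O} (hI : I ≠ ⊥) (x : O) :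
    x ∈ I ↔ ϖ ^ ordI I ∣ x := by
  conv_lhs => rw [ordI_spec hϖ hI]
  rw [Ideal.mem_span_singleton]

theorem pow_mem_iff {ϖ : O} (hϖ : Irreducible ϖ) {I : Ideal O} (hI : I ≠ ⊥) (a : ℕ) :
    ϖ ^ a ∈ I ↔ ordI I ≤ a := by
  rw [mem_iff_ordI hϖ hI, pow_dvd_pow_iff hϖ.ne_zero hϖ.not_isUnit]

theorem ordI_mul {ϖ : O} (hϖ : Irreducible ϖ) {I J : Ideal O} (hI : I ≠ ⊥) (hJ : J ≠ ⊥) :
    ordI (I * J) = ordI I + ordI J := by
  have hIJ : I * J ≠ ⊥ := by
    rw [Ne, Ideal.mul_eq_bot]
    rintro (h | h)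
    · exact hI h
    · exact hJ h
  have h1 : Ideal.span {ϖ ^ ordI (I * J)} = Ideal.span {ϖ ^ (ordI I + ordI J)} := by
    rw [← ordI_spec hϖ hIJ, pow_add, ← Ideal.span_singleton_mul_span_singleton,
      ← ordI_spec hϖ hI, ← ordI_spec hϖ hJ]
  have h2 := Ideal.span_singleton_eq_span_singleton.mp h1
  exact le_antisymm ((pow_dvd_pow_iff hϖ.ne_zero hϖ.not_isUnit).mp h2.dvd)
    ((pow_dvd_pow_iff hϖ.ne_zero hϖ.not_isUnit).mp h2.symm.dvd)

/-- The rational invariant of a theory. -/
noncomputable def nuI (D : ℕ) (I : ∀ n : ℕ, Word n → Ideal O) (n : ℕ) (w : Word n) : ℚ :=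
  ((writhe w : ℚ) + n) / 2 - (ordI (I n w) : ℚ) / D

omit [IsDiscreteValuationRing O] in
theorem IdealInv.ne_bot {τ : O} {I : ∀ n : ℕ, Word n → Ideal O} (h : IdealInv τ I) (hτ : τ ≠ 0)
    (n : ℕ) (w : Word n) : I n w ≠ ⊥ := by
  intro h1
  have h2 := h.canon n w
  rw [h1, Ideal.mem_bot] at h2
  exact pow_ne_zero n hτ h2

theorem wordInv_of_ideal {ϖ : O} (hϖ : Irreducible ϖ) {D : ℕ} (hD : 0 < D) {τ : O}
    (hτ : Associated τ (ϖ ^ D)) {I : ∀ n : ℕ, Word n → Ideal O} (h : IdealInv τ I) :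
    WordInv (nuI D I) := by
  have hτ0 : τ ≠ 0 := fun h0 => by
    rw [h0] at hτ
    exact pow_ne_zero D hϖ.ne_zero ((associated_zero_iff_eq_zero _).mp hτ.symm)
  have hne := h.ne_bot hτ0
  have hD' : (0 : ℚ) < D := by exact_mod_cast hD
  have hτn : ∀ n : ℕ, Associated (τ ^ n) (ϖ ^ (D * n)) := fun n => by
    rw [pow_mul]; exact hτ.pow_pow
  have hassoc : ∀ {x y : O} {J : Ideal O}, Associated x y → x ∈ J → y ∈ J := by
    intro x y J hxy hx
    obtain ⟨u, rfl⟩ := hxy
    exact J.mul_mem_right _ hx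
  refine ⟨?_, ?_, ?_, ?_, ?_, ?_, ?_, ?_, ?_⟩
  · intro n u v i b
    simp only [nuI]
    rw [h.cancel]
    have h1 : writhe (u ++ (i, b) :: (i, !b) :: v) = writhe (u ++ v) := by
      simp only [writhe, List.map_append, List.map_cons, List.sum_append, List.sum_cons]
      cases b <;> simp
    rw [h1]
  · intro n u v i j hij
    simp only [nuI]
    rw [h.comm n u v i j hij]
    have h1 : writhe (u ++ (i, true) :: (j, true) :: v) =
        writhe (u ++ (j, true) :: (i, true) :: v) := by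
      simp [writhe]
    rw [h1]
  · intro n u v i j hij
    simp only [nuI]
    rw [h.braid n u v i j hij]
    have h1 : writhe (u ++ (i, true) :: (j, true) :: (i, true) :: v) =
        writhe (u ++ (j, true) :: (i, true) :: (j, true) :: v) := by
      simp [writhe]
    rw [h1]
  · intro n a w hk
    simp only [nuI]
    rw [h.rot n a w hk]
    have h1 : writhe (w ++ [a]) = writhe (a :: w) := by
      have h2 : writhe (a :: w) = writhe [a] + writhe w := writhe_append [a] w
      rw [writhe_append, h2, add_comm]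
    rw [h1]
  · intro n m w w' hk hk'
    simp only [nuI]
    rw [h.add n m w w' hk hk', ordI_mul hϖ (hne _ _) (hne _ _)]
    have h1 : writhe (wsum w w') = writhe w + writhe w' := by
      rw [wsum, writhe_append]
      simp only [writhe, List.map_map]
      rfl
    rw [h1]
    push_cast
    ring
  · intro n
    simp only [nuI]
    have h1 : ordI (I n []) ≤ 0 := by
      rw [← pow_mem_iff hϖ (hne _ _), h.unlink]
      trivial
    have h2 : ordI (I n []) = 0 := by omega
    rw [h2]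
    simp [writhe]
  · intro n u v a
    rcases a with ⟨i, b⟩
    have h3 : ϖ ^ ordI (I n (u ++ v)) ∈ I n (u ++ v) := (pow_mem_iff hϖ (hne _ _) _).mpr le_rfl
    simp only [nuI]
    cases b
    · have h4 := h.ins_neg n u v i _ h3
      rw [pow_mem_iff hϖ (hne _ _)] at h4
      have h5 : writhe (u ++ (i, false) :: v) = writhe (u ++ v) - 1 := by
        simp only [writhe, List.map_append, List.map_cons, List.sum_append, List.sum_cons]
        simp
        ring
      rw [h5]
      have h6 : (ordI (I n (u ++ (i, false) :: v)) : ℚ) / D ≤ (ordI (I n (u ++ v)) : ℚ) / D := by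
        apply div_le_div_of_nonneg_right _ hD'.le
        exact_mod_cast h4
      push_cast
      linarith
    · have h4 := h.ins_pos n u v i _ h3
      have h7 : ϖ ^ (D + ordI (I n (u ++ v))) ∈ I n (u ++ (i, true) :: v) := by
        rw [pow_add]
        exact hassoc (hτ.mul_right _) h4
      rw [pow_mem_iff hϖ (hne _ _)] at h7
      have h5 : writhe (u ++ (i, true) :: v) = writhe (u ++ v) + 1 := by
        simp only [writhe, List.map_append, List.map_cons, List.sum_append, List.sum_cons]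
        simp
        ring
      rw [h5]
      have h6 : (ordI (I n (u ++ (i, true) :: v)) : ℚ) / D ≤
          (D + ordI (I n (u ++ v)) : ℚ) / D := by
        apply div_le_div_of_nonneg_right _ hD'.le
        exact_mod_cast h7
      rw [add_div, div_self hD'.ne'] at h6
      push_cast
      linarith
  · intro n w
    have h4 := hassoc (hτn n) (h.canon n w)
    rw [pow_mem_iff hϖ (hne _ _)] at h4
    simp only [nuI]
    have h6 : (ordI (I n w) : ℚ) / D ≤ (D * n : ℚ) / D := by
      apply div_le_div_of_nonneg_right _ hD'.le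
      exact_mod_cast h4
    rw [mul_div_cancel_left₀ _ hD'.ne'] at h6
    linarith
  · intro n w hk
    have h3 : ϖ ^ ordI (I n w) ∈ I n w := (pow_mem_iff hϖ (hne _ _) _).mpr le_rfl
    have h4 : ϖ ^ ordI (I n (winv w)) ∈ I n (winv w) := (pow_mem_iff hϖ (hne _ _) _).mpr le_rfl
    have h5 := h.mirror n w hk _ h3 _ h4
    rw [← pow_add] at h5
    have h6 := (hτn n).symm.dvd.trans h5
    rw [pow_dvd_pow_iff hϖ.ne_zero hϖ.not_isUnit] at h6
    simp only [nuI]
    rw [writhe_winv]
    have h7 : (D * n : ℚ) / D ≤ ((ordI (I n w) : ℚ) + ordI (I n (winv w))) / D := by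
      apply div_le_div_of_nonneg_right _ hD'.le
      exact_mod_cast h6
    rw [mul_div_cancel_left₀ _ hD'.ne', add_div] at h7
    push_cast
    linarith

/-- The final reduction with ideals: `K k` is a braid on `N k + 1` strands. -/
theorem rankInfinite_of_ideals {ϖ : O} (hϖ : Irreducible ϖ) (D : ℕ → ℕ) (hD : ∀ r, 0 < D r)
    (τ : ℕ → O) (hτ : ∀ r, Associated (τ r) (ϖ ^ D r))
    (I : ℕ → ∀ n : ℕ, Word n → Ideal O) (hI : ∀ r, IdealInv (τ r) (I r))
    (N : ℕ → ℕ) (K : ∀ k, Word (N k + 1)) (hK : ∀ k, IsKnot (toBraid (K k)))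
    (h1 : ∀ r, ∃ k0, ∀ k, k0 ≤ k →
      τ r ∈ I r (N k + 1) (K k) ∧ τ r ^ (N k) ∈ I r (N k + 1) (winv (K k)))
    (h2 : ∃ k0, ∀ k, k0 ≤ k → ∃ r, ∃ x ∈ I r (N k + 1) (K k), ¬ τ r ∣ x) : RankInfinite := by
  have hτ0 : ∀ r, τ r ≠ 0 := fun r h0 => by
    have h3 := hτ r
    rw [h0] at h3
    exact pow_ne_zero (D r) hϖ.ne_zero ((associated_zero_iff_eq_zero _).mp h3.symm)
  have hne := fun r => (hI r).ne_bot (hτ0 r)
  have hD' : ∀ r, (0 : ℚ) < D r := fun r => by exact_mod_cast hD r
  have hassoc : ∀ {x y : O} {J : Ideal O}, Associated x y → x ∈ J → y ∈ J := by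
    intro x y J hxy hx
    obtain ⟨u, rfl⟩ := hxy
    exact J.mul_mem_right _ hx
  refine rankInfinite_of (fun r => nuI (D r) (I r))
    (fun r => wordInv_of_ideal hϖ (hD r) (hτ r) (hI r)) (fun k => N k + 1) K hK
    (fun k => ((writhe (K k) : ℚ) + (N k + 1 : ℕ)) / 2 - 1) ?_ ?_
  · intro r
    obtain ⟨k0, hk0⟩ := h1 r
    refine ⟨k0, fun k hk => ?_⟩
    obtain ⟨h3, h4⟩ := hk0 k hk
    have h5 := hassoc (hτ r) h3
    rw [pow_mem_iff hϖ (hne r _ _)] at h5
    have h6 : τ r ^ N k ∈ I r (N k + 1) (winv (K k)) := h4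
    have h7 : ϖ ^ (D r * N k) ∈ I r (N k + 1) (winv (K k)) := by
      refine hassoc ?_ h6
      rw [pow_mul]
      exact (hτ r).pow_pow
    rw [pow_mem_iff hϖ (hne r _ _)] at h7
    have h8 : (ordI (I r (N k + 1) (K k)) : ℚ) / D r ≤ 1 := by
      rw [div_le_one (hD' r)]
      exact_mod_cast h5
    have h9 : (ordI (I r (N k + 1) (winv (K k))) : ℚ) / D r ≤ N k := by
      rw [div_le_iff₀ (hD' r)]
      have : (ordI (I r (N k + 1) (winv (K k))) : ℚ) ≤ (D r * N k : ℕ) := by exact_mod_cast h7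
      push_cast at this
      linarith
    constructor
    · simp only [nuI]
      linarith
    · simp only [nuI]
      rw [writhe_winv]
      push_cast
      linarith
  · obtain ⟨k0, hk0⟩ := h2
    refine ⟨k0, fun k hk => ?_⟩
    obtain ⟨r, x, hx, hdvd⟩ := hk0 k hk
    refine ⟨r, ?_⟩
    have h3 : ordI (I r (N k + 1) (K k)) < D r := by
      by_contra h4
      rw [not_lt] at h4
      rw [mem_iff_ordI hϖ (hne r _ _)] at hx
      exact hdvd (((hτ r).dvd.trans (pow_dvd_pow ϖ h4)).trans hx)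
    have h5 : (ordI (I r (N k + 1) (K k)) : ℚ) / D r < 1 := by
      rw [div_lt_one (hD' r)]
      exact_mod_cast h3
    simp only [nuI]
    linarith

end dvr

end Pool.Agent.CQ
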