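import Pool.Agent.CQ.TowJ

/-!
# Block H4: the initial negative tower cycle (general lemma)
-/

set_option autoImplicit false
set_option linter.unusedSectionVars false
set_option linter.unusedSimpArgs false
set_option linter.style.longLine false

namespace CQ

open MvPolynomial

variable {O : Type} [CommRing O] [CharP O 2]

namespace IN

section ops
variable {E F : Type} [AddCommGroup E] [Module (S O) E] [AddCommGroup F] [Module (S O) F]

/-- `h(top, mid)` -/
noncomputable def hT (P : Pot O) : D2 true 0 E →ₗ[S O] D2 true 0 E :=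
  (yv O 1 * yv O 1) • LinearMap.id + yv O 1 • mid O (yv O 1) + mid O (yv O 1 * yv O 1) +
    (MvPolynomial.C P.ka : S O) • al O 0 + (MvPolynomial.C P.ta : S O) • LinearMap.id

/-- `ν_a`: `al` for odd `a`, `h(top, mid)` for even `a` -/
noncomputable def nu (P : Pot O) (a : ℕ) : D2 true 0 E →ₗ[S O] D2 true 0 E :=
  if a % 2 = 1 then al O 0 else hT P

/-- `K_a`: `1` for odd `a`, `top + mid + y₂ + κ` for even `a` -/
noncomputable def Kp (P : Pot O) (a : ℕ) : D2 true 0 E →ₗ[S O] D2 true 0 E :=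
  if a % 2 = 1 then LinearMap.id else
    al O 0 + (yv O 2 + MvPolynomial.C P.ka : S O) • LinearMap.id

theorem al0 (z : D2 true 0 E) : al O 0 z = mid O (yv O 1) z + yv O 1 • z := al_eq z

theorem hT_apply (P : Pot O) (z : D2 true 0 E) : hT P z =
    (yv O 1 * yv O 1) • z + yv O 1 • mid O (yv O 1) z + mid O (yv O 1) (mid O (yv O 1) z) +
    (MvPolynomial.C P.ka : S O) • al O 0 z + (MvPolynomial.C P.ta : S O) • z := by
  rw [← mid_mul]; rfl

theorem nu_odd (P : Pot O) {a : ℕ} (h : a % 2 = 1) (z : D2 true 0 E) : nu P a z = al O 0 z := by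
  simp [nu, h]
theorem nu_even (P : Pot O) {a : ℕ} (h : a % 2 = 0) (z : D2 true 0 E) : nu P a z = hT P z := by
  simp [nu, h]
theorem Kp_odd (P : Pot O) {a : ℕ} (h : a % 2 = 1) (z : D2 true 0 E) : Kp P a z = z := by
  simp [Kp, h]
theorem Kp_even (P : Pot O) {a : ℕ} (h : a % 2 = 0) (z : D2 true 0 E) :
    Kp P a z = al O 0 z + (yv O 2 + MvPolynomial.C P.ka : S O) • z := by
  simp [Kp, h]

theorem hT_nat (P : Pot O) (f : E →ₗ[S O] F) (z : D2 true 0 E) :
    hT P (D2.map f z) = D2.map f (hT P z) := by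
  simp only [hT_apply, mid_nat, al_nat, map_add, map_smul]

theorem nu_nat (P : Pot O) (a : ℕ) (f : E →ₗ[S O] F) (z : D2 true 0 E) :
    nu P a (D2.map f z) = D2.map f (nu P a z) := by
  rcases Nat.mod_two_eq_zero_or_one a with h | h
  · rw [nu_even P h, nu_even P h, hT_nat]
  · rw [nu_odd P h, nu_odd P h, al_nat]

theorem Kp_nat (P : Pot O) (a : ℕ) (f : E →ₗ[S O] F) (z : D2 true 0 E) :
    Kp P a (D2.map f z) = D2.map f (Kp P a z) := by
  rcases Nat.mod_two_eq_zero_or_one a with h | h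
  · rw [Kp_even P h, Kp_even P h, al_nat, map_add, map_smul]
  · rw [Kp_odd P h, Kp_odd P h]

theorem al_mid (p : S O) (z : D2 true 0 E) : al O 0 (mid O p z) = mid O p (al O 0 z) :=
  al_nat (p • (LinearMap.id : E →ₗ[S O] E)) z

theorem alp_al (j : ℕ) (z : D2 true 0 E) : alp O 0 j (al O 0 z) = al O 0 (alp O 0 j z) := by
  rcases Nat.mod_two_eq_zero_or_one j with h | h
  · rw [alp_even h, be_al, al_be]
  · rw [alp_odd h]

theorem Kp_alp (P : Pot O) (a j : ℕ) (z : D2 true 0 E) :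
    alp O 0 j (Kp P a z) = Kp P a (alp O 0 j z) := by
  rcases Nat.mod_two_eq_zero_or_one a with h | h
  · rw [Kp_even P h, Kp_even P h, map_add, map_smul, alp_al]
  · rw [Kp_odd P h, Kp_odd P h]

theorem muv_odd (P : Pot O) {a : ℕ} (h : a % 2 = 1) (i : ℕ) :
    muv P a i = yv O i + yv O (i + 1) := by simp [muv, h]
theorem muv_even (P : Pot O) {a : ℕ} (h : a % 2 = 0) (i : ℕ) :
    muv P a i = P.h (yv O i) (yv O (i + 1)) := by simp [muv, h]

theorem h_expand (P : Pot O) (x y : S O) : P.h x y = x * x + y * x + y * y +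
      MvPolynomial.C P.ka * x + MvPolynomial.C P.ka * y + MvPolynomial.C P.ta := by
    unfold Pot.h; rw [MvPolynomial.algebraMap_eq]; ring

/-- the part of the differential leaving the strand pair `1,2`: first identity -/
theorem id1 (P : Pot O) (a : ℕ) (z : D2 true 0 E) :
    mid O (e1 O true 1) (Kp P a z) + muv P a 1 • z = nu P a z := by
  have e : (e1 O true 1 : S O) = yv O 1 + yv O 2 := rfl
  have h2 : ∀ x : D2 true 0 E, mid O (yv O 2) x = yv O 2 • x := fun x =>
    mid_yv_ne 2 (by omega) (by omega) x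
  rcases Nat.mod_two_eq_zero_or_one a with h | h
  · rw [Kp_even P h, muv_even P h, nu_even P h, hT_apply, h_expand, al0, e]
    simp only [mid_add, mid_mul, mid_C, h2, map_add, map_smul, add_smul, mul_smul, smul_add]
    match_scalars <;> (rw [← sub_eq_zero]; ring_nf <;>
    simp only [two0, three1, four0, five1, six0, seven1, eight0, mul_zero, zero_mul,
            add_zero, zero_add, neg_zero, sub_zero, sub_self, mul_one])
  · rw [Kp_odd P h, muv_odd P h, nu_odd P h, al0, e]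
    simp only [mid_add, h2, add_smul]
    match_scalars <;> (rw [← sub_eq_zero]; ring_nf <;>
    simp only [two0, three1, four0, five1, six0, seven1, eight0, mul_zero, zero_mul,
            add_zero, zero_add, neg_zero, sub_zero, sub_self, mul_one])

/-- second identity -/
theorem id2 (P : Pot O) (a : ℕ) (z : D2 true 0 E) :
    Kp P a (nu P (a + 1) z) + muv P a 1 • Kp P (a + 1) z =
      mid O (P.h (yv O 1) (yv O 2)) z := by
  have h2 : ∀ x : D2 true 0 E, mid O (yv O 2) x = yv O 2 • x := fun x =>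
    mid_yv_ne 2 (by omega) (by omega) x
  rcases Nat.mod_two_eq_zero_or_one a with h | h
  · rw [Kp_even P h, muv_even P h, nu_odd P (by omega), Kp_odd P (by omega), h_expand,
      al0, al0]
    simp only [mid_add, mid_mul, mid_C, h2, map_add, map_smul, add_smul, mul_smul, smul_add]
    match_scalars <;> (rw [← sub_eq_zero]; ring_nf <;>
    simp only [two0, three1, four0, five1, six0, seven1, eight0, mul_zero, zero_mul,
            add_zero, zero_add, neg_zero, sub_zero, sub_self, mul_one])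
  · rw [Kp_odd P h, muv_odd P h, nu_even P (by omega), Kp_even P (by omega), hT_apply, h_expand,
      al0]
    simp only [mid_add, mid_mul, mid_C, h2, map_add, map_smul, add_smul, mul_smul, smul_add]
    match_scalars <;> (rw [← sub_eq_zero]; ring_nf <;>
    simp only [two0, three1, four0, five1, six0, seven1, eight0, mul_zero, zero_mul,
            add_zero, zero_add, neg_zero, sub_zero, sub_self, mul_one])

end ops

/-! ### components of columns -/

section comps
variable {P : Pot O} {B E : Type} [AddCommGroup B] [Module (S O) B] [AddCommGroup E] [Module (S O) E]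

/-- the `j`-th column entry -/
noncomputable def pj (O : Type) [CommRing O] (B E : Type) [AddCommGroup B] [Module (S O) B]
    [AddCommGroup E] [Module (S O) E] (j : ℕ) : (B × (ℕ → E)) →ₗ[S O] E :=
  LinearMap.proj (R := S O) (φ := fun _ : ℕ => E) j ∘ₗ LinearMap.snd (S O) B (ℕ → E)

theorem pj_apply (j : ℕ) (z : B × (ℕ → E)) : pj O B E j z = z.2 j := rfl

theorem colN0 (n : ℕ) {z : B × (ℕ → E)} (h1 : z.1 ∈ N0 P B) (h2 : ∀ j < n, z.2 j ∈ N0 P E)
    (h3 : ∀ j, n ≤ j → z.2 j = 0) : z ∈ N0 P (B × (ℕ → E)) :=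
  mem_N0_prod h1 (mem_N0_pi n (fun j => by
    by_cases h : j < n
    · exact h2 j h
    · rw [h3 j (by omega)]; exact zero_mem _) h3)

theorem colN0D {i : ℕ} (n : ℕ) {z : D2 true i (B × (ℕ → E))}
    (h1 : D2.map (LinearMap.fst (S O) B (ℕ → E)) z ∈ N0 P (D2 true i B))
    (h2 : ∀ j < n, D2.map (pj O B E j) z ∈ N0 P (D2 true i E))
    (h3 : ∀ j, n ≤ j → D2.map (pj O B E j) z = 0) : z ∈ N0 P (D2 true i (B × (ℕ → E))) := by
  refine mem_N0_D2_prod h1 (mem_N0_D2_pi n (fun j => ?_) (fun j hj => ?_))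
  · by_cases h : j < n
    · exact h2 j h
    · have := h3 j (by omega)
      have e : D2.map (LinearMap.proj (R := S O) (φ := fun _ : ℕ => E) j)
        (D2.map (LinearMap.snd (S O) B (ℕ → E)) z) = D2.map (pj O B E j) z := rfl
      rw [e, this]; exact zero_mem _
  · have := h3 j hj
    exact ⟨congrArg D2.a this, congrArg D2.b this⟩

/-- assemble an element of a letter over a column -/
def asm (B : Type) [AddCommGroup B] {t : Bool} {i : ℕ} (g : ℕ → D2 t i E) :
    D2 t i (B × (ℕ → E)) := ⟨(0, fun j => (g j).a), (0, fun j => (g j).b)⟩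

theorem map_pj_asm {i : ℕ} (g : ℕ → D2 true i E) (j : ℕ) :
    D2.map (pj O B E j) (asm B g) = g j := rfl

theorem map_fst_asm {i : ℕ} (g : ℕ → D2 true i E) :
    D2.map (LinearMap.fst (S O) B (ℕ → E)) (asm B g) = 0 := rfl

theorem ext_col {i : ℕ} {z w : D2 true i (B × (ℕ → E))}
    (h1 : D2.map (LinearMap.fst (S O) B (ℕ → E)) z = D2.map (LinearMap.fst (S O) B (ℕ → E)) w)
    (h2 : ∀ j, D2.map (pj O B E j) z = D2.map (pj O B E j) w) : z = w :=
  D2.ext (Prod.ext (congrArg D2.a h1) (funext fun j => congrArg D2.a (h2 j)))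
    (Prod.ext (congrArg D2.b h1) (funext fun j => congrArg D2.b (h2 j)))

theorem asm_HH {i : ℕ} {g : ℕ → D2 true i E} (hg : ∀ j, g j ∈ HH O (D2 true i E)) :
    asm B g ∈ HH O (D2 true i (B × (ℕ → E))) := fun k => by
  refine ext_col (O := O) ?_ (fun j => ?_)
  · rw [map_smul, map_smul, map_fst_asm, smul_zero, smul_zero]
  · rw [map_smul, map_smul, map_pj_asm]; exact hg j k

end comps

section diff
variable (C : DM O)

theorem dn_inl (x : D2 true 0 C.V) : D2.map (dF true 1 false C.d)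
    (D2.map (LinearMap.inl (S O) C.V (D2 true 1 C.V)) x) =
    D2.map (LinearMap.inl (S O) C.V (D2 true 1 C.V)) (D2.map C.d x) := by
  refine D2.ext ?_ ?_ <;> (refine Prod.ext ?_ ?_ <;> simp [dF_neg])

theorem dn_inr (x : D2 true 0 (D2 true 1 C.V)) : D2.map (dF true 1 false C.d)
    (D2.map (LinearMap.inr (S O) C.V (D2 true 1 C.V)) x) =
    D2.map (LinearMap.inl (S O) C.V (D2 true 1 C.V)) (D2.map (unzip O true 1) x) +
    D2.map (LinearMap.inr (S O) C.V (D2 true 1 C.V)) (D2.map (D2.map C.d) x) := by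
  refine D2.ext ?_ ?_ <;> (refine Prod.ext ?_ ?_ <;> simp [dF_neg])

end diff

/-! ### the element `G U` -/

section GG
variable {E F : Type} [AddCommGroup E] [Module (S O) E] [AddCommGroup F] [Module (S O) F]

/-- `G U = (X₁^in + X₁^mid + κ) split(zip U)` -/
noncomputable def GG (P : Pot O) : E →ₗ[S O] D2 true 1 (D2 true 1 E) :=
  (yv O 1 + MvPolynomial.C P.ka : S O) • ZZ O 1 + mid O (yv O 1) ∘ₗ ZZ O 1

theorem GG_apply (P : Pot O) (u : E) : GG P u =
    (yv O 1 + MvPolynomial.C P.ka : S O) • ZZ O 1 u + mid O (yv O 1) (ZZ O 1 u) := rfl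

theorem ZZ_nat (i : ℕ) (f : E →ₗ[S O] F) (u : E) :
    ZZ O i (f u) = D2.map (D2.map f) (ZZ O i u) := by
  rw [ZZ_apply, zip_nat, split_nat]; rfl

theorem GG_nat (P : Pot O) (f : E →ₗ[S O] F) (u : E) :
    GG P (f u) = D2.map (D2.map f) (GG P u) := by
  rw [GG_apply, GG_apply, ZZ_nat, mid_nat, map_add, map_smul]

theorem unzip_GG (P : Pot O) (u : E) :
    unzip O true 1 (GG P u) = (MvPolynomial.C P.ka : S O) • zip O true 1 u := by
  rw [GG_apply, map_add, map_smul, unzip_mid, ZZ_apply, unzip_split, add_smul]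
  have := add_self_mod (O := O) (yv O 1 • zip O true 1 u)
  calc _ = (MvPolynomial.C P.ka : S O) • zip O true 1 u +
      (yv O 1 • zip O true 1 u + yv O 1 • zip O true 1 u) := by abel
    _ = _ := by rw [this, add_zero]

theorem map_unzip_GG (P : Pot O) (u : E) :
    D2.map (unzip O true 1) (GG P u) = (MvPolynomial.C P.ka : S O) • zip O true 1 u := by
  rw [GG_apply, map_add, map_smul, ← mid_nat, ZZ_apply, map_unzip_split, add_smul, mid_zip,
    map_smul]
  have := add_self_mod (O := O) (yv O 1 • zip O true 1 u)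
  calc _ = (MvPolynomial.C P.ka : S O) • zip O true 1 u +
      (yv O 1 • zip O true 1 u + yv O 1 • zip O true 1 u) := by abel
    _ = _ := by rw [this, add_zero]

theorem q_expand (P : Pot O) (x : S O) : P.q x = x * x + MvPolynomial.C P.ka * x +
    MvPolynomial.C P.ta := by
  unfold Pot.q; rw [MvPolynomial.algebraMap_eq]; ring

/-- the failure of `G` to commute with the symmetric function `e₁` of the strands `0,1` -/
theorem GG_e1 (P : Pot O) (u : E) : GG P (e1 O true 0 • u) + mid O (e1 O true 0) (GG P u) =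
    ZZ O 1 (P.q (yv O 1) • u) + mid O (P.q (yv O 1)) (ZZ O 1 u) := by
  have e : (e1 O true 0 : S O) = yv O 0 + yv O 1 := rfl
  have h2 : ∀ x : D2 true 1 (D2 true 1 E), mid O (yv O 0) x = yv O 0 • x := fun x =>
    mid_yv_ne 0 (by omega) (by omega) x
  rw [map_smul, GG_apply, map_smul, q_expand, e]
  simp only [mid_add, mid_mul, mid_C, h2, map_add, map_smul, add_smul, mul_smul, smul_add]
  match_scalars <;> (rw [← sub_eq_zero]; ring_nf <;>
    simp only [two0, three1, four0, five1, six0, seven1, eight0, mul_zero, zero_mul,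
            add_zero, zero_add, neg_zero, sub_zero, sub_self, mul_one])

end GG

/-! ### block B in contexts of length one -/

section ctx
variable {P : Pot O} {E : Type} [AddCommGroup E] [Module (S O) E]

theorem ctx1 (hz : ∀ (j : ℕ) (D : SM O), CtxNeg P (C := D) (D := SM.D2 true j D)
      (P.h (yv O j) (yv O (j + 1)) • (zip O true j : D.V →ₗ[S O] D2 true j D.V)))
    (j i : ℕ) {z : D2 true i E} (h : z ∈ HH O (D2 true i E)) :
    D2.map (P.h (yv O j) (yv O (j + 1)) • (zip O true j : E →ₗ[S O] D2 true j E)) z ∈ NN P _ :=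
  hz j ⟨E⟩ [i] z h

/-- `q(y₁) • zip₀` is negligible up to `N0` in contexts of length one -/
theorem ctx_q (hz : ∀ (j : ℕ) (D : SM O), CtxNeg P (C := D) (D := SM.D2 true j D)
      (P.h (yv O j) (yv O (j + 1)) • (zip O true j : D.V →ₗ[S O] D2 true j D.V)))
    {z : D2 true 1 E} (h : z ∈ HH O (D2 true 1 E)) :
    D2.map (zip O true 0) (mid O (P.q (yv O 1)) z) ∈ N0 P _ := by
  have h1 := NN_le_N0 (ctx1 hz 0 1 h)
  have h2 : D2.map (zip O true 0) (mid O (P.q (yv O 1)) z) =
      D2.map (P.h (yv O 0) (yv O (0 + 1)) • (zip O true 0 : E →ₗ[S O] D2 true 0 E)) z +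
      yv O 0 • D2.map (zip O true 0)
        (mid O (yv O 0 + yv O 1 + MvPolynomial.C P.ka) z) := by
    have e : P.h (yv O 0) (yv O (0 + 1)) = P.q (yv O 1) +
        yv O 0 * (yv O 0 + yv O 1 + MvPolynomial.C P.ka) := by
      rw [h_expand, q_expand]; ring
    have h3 : D2.map (P.h (yv O 0) (yv O (0 + 1)) • (zip O true 0 : E →ₗ[S O] D2 true 0 E)) z =
        D2.map (zip O true 0) (mid O (P.q (yv O 1)) z) +
        mid O (yv O 0) (D2.map (zip O true 0)
          (mid O (yv O 0 + yv O 1 + MvPolynomial.C P.ka) z)) := by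
      rw [e]
      refine D2.ext ?_ ?_
      · rw [D2.map_a, D2.add_a, mid_a, D2.map_a, D2.map_a, mid_a, mid_a, LinearMap.smul_apply,
          map_smul, map_smul, add_smul, mul_smul]
      · rw [D2.map_b, D2.add_b, mid_b, D2.map_b, D2.map_b, mid_b, mid_b, LinearMap.smul_apply,
          map_smul, map_smul, add_smul, mul_smul]
    rw [h3, mid_yv_ne 0 (by omega) (by omega), add_assoc, add_self_mod (O := O), add_zero]
  rw [h2]
  exact add_mem h1 (yv0_smul_mem_N0 _)

end ctx

/-! ### the general lemma -/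

section gen

/-- the underlying module of the outer column -/
abbrev VV (C : DM O) : Type := (C.V × D2 true 1 C.V) × (ℕ → D2 true 0 (C.V × D2 true 1 C.V))

/-- the differential of the outer column -/
noncomputable def dM (n : ℕ) (C : DM O) : VV C →ₗ[S O] VV C := (ColM 0 n (F2 true 1 false C)).d

variable (P : Pot O) (C : DM O) (A : ℕ → ℕ → D2 true 0 C.V) (U : ℕ → C.V) (a0 : C.V)

/-- the elements of the tower -/
noncomputable def zz (c : ℕ) : VV C :=
  ((if c = 0 then a0 else 0, 0), fun j =>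
    D2.map (LinearMap.inl (S O) C.V (D2 true 1 C.V)) (A c j) +
    D2.map (LinearMap.inr (S O) C.V (D2 true 1 C.V))
      (D2.map (zip O true 1) (Kp P (c + 1) (A (c + 1) j))))

/-- the second part of the last element -/
noncomputable def YY (j : ℕ) : D2 true 1 (D2 true 0 (C.V × D2 true 1 C.V)) :=
  D2.map (D2.map (LinearMap.inr (S O) C.V (D2 true 1 C.V))) (D2.map (zip O true 0) (GG P (U j)))

/-- the first part of the last element -/
noncomputable def XX (K : ℕ) : VV C :=
  ((0, 0), fun j => D2.map (LinearMap.inl (S O) C.V (D2 true 1 C.V)) (A K j))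

/-- the last element -/
noncomputable def ww (K : ℕ) : D2 true 1 (VV C) :=
  zip O true 1 (XX C A K) + asm (C.V × D2 true 1 C.V) (YY P C U)

variable {P C A U a0} {n : ℕ}

theorem zz_snd_zero (hAn : ∀ c j, n ≤ j → A c j = 0) (c j : ℕ) (h : n ≤ j) :
    (zz P C A a0 c).2 j = 0 := by
  change D2.map (LinearMap.inl (S O) C.V (D2 true 1 C.V)) (A c j) +
    D2.map (LinearMap.inr (S O) C.V (D2 true 1 C.V))
      (D2.map (zip O true 1) (Kp P (c + 1) (A (c + 1) j))) = 0
  rw [hAn _ _ h, hAn _ _ h]; simp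

theorem colMin_eq {B : Type} [AddCommGroup B] [Module (S O) B] {z : B × (ℕ → D2 true 0 B)}
    (hz : ∀ j, n ≤ j → z.2 j = 0) (j : ℕ) :
    colMin O 0 n z j = alp O 0 (j + 1) (z.2 (j + 1)) := by
  by_cases h : j + 1 < n
  · rw [colMin_lt _ _ _ h]
  · rw [colMin_ge _ _ _ (by omega), hz _ (by omega), map_zero]

theorem zz_d_fst (hn : 0 < n) (h0 : C.d a0 + unzip O true 0 (A 0 0) = 0)
    (hc0 : ∀ c, 1 ≤ c → A c 0 = 0) (c : ℕ) :
    (dM n C (zz P C A a0 c)).1 = 0 := by
  change dF true 1 false C.d (if c = 0 then a0 else 0, 0) +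
    colMu O 0 n (zz P C A a0 c) = 0
  have e : colMu O 0 n (zz P C A a0 c) =
      ((unzip O true 0 (A c 0), 0) : C.V × D2 true 1 C.V) := by
    unfold colMu
    rw [if_pos hn]
    change unzip O true 0 (D2.map (LinearMap.inl (S O) C.V (D2 true 1 C.V)) (A c 0) +
      D2.map (LinearMap.inr (S O) C.V (D2 true 1 C.V))
      (D2.map (zip O true 1) (Kp P (c + 1) (A (c + 1) 0)))) = _
    rw [hc0 (c + 1) (by omega), map_zero, map_zero, map_zero, add_zero, unzip_nat]
    rfl
  rw [e, dF_neg]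
  refine Prod.ext ?_ ?_
  · change C.d (if c = 0 then a0 else 0) + unzip O true 1 0 + unzip O true 0 (A c 0) = 0
    rw [map_zero, add_zero]
    by_cases h : c = 0
    · subst h; rw [if_pos rfl]; exact h0
    · rw [if_neg h, hc0 c (by omega), map_zero, map_zero, add_zero]
  · change D2.map C.d 0 + 0 = 0
    rw [map_zero, add_zero]

theorem zz_d_snd (hAn : ∀ c j, n ≤ j → A c j = 0) (c j : ℕ) :
    (dM n C (zz P C A a0 c)).2 j =
      D2.map (LinearMap.inl (S O) C.V (D2 true 1 C.V))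
        (D2.map C.d (A c j) + alp O 0 (j + 1) (A c (j + 1)) +
          mid O (e1 O true 1) (Kp P (c + 1) (A (c + 1) j))) +
      D2.map (LinearMap.inr (S O) C.V (D2 true 1 C.V)) (D2.map (zip O true 1)
        (Kp P (c + 1) (D2.map C.d (A (c + 1) j) + alp O 0 (j + 1) (A (c + 1) (j + 1))))) := by
  change D2.map (dF true 1 false C.d) ((zz P C A a0 c).2 j) + colMin O 0 n (zz P C A a0 c) j = _
  rw [colMin_eq (zz_snd_zero hAn c)]
  change D2.map (dF true 1 false C.d)
      (D2.map (LinearMap.inl (S O) C.V (D2 true 1 C.V)) (A c j) +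
    D2.map (LinearMap.inr (S O) C.V (D2 true 1 C.V))
      (D2.map (zip O true 1) (Kp P (c + 1) (A (c + 1) j)))) +
    alp O 0 (j + 1) (D2.map (LinearMap.inl (S O) C.V (D2 true 1 C.V)) (A c (j + 1)) +
    D2.map (LinearMap.inr (S O) C.V (D2 true 1 C.V))
      (D2.map (zip O true 1) (Kp P (c + 1) (A (c + 1) (j + 1))))) = _
  have e1 : ∀ x : D2 true 0 C.V, D2.map (unzip O true 1) (D2.map (zip O true 1) x) =
      mid O (e1 O true 1) x := fun x => by
    refine D2.ext ?_ ?_ <;> simp [unzip_zip]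
  have e2 : ∀ x : D2 true 0 C.V, D2.map (D2.map C.d) (D2.map (zip O true 1) x) =
      D2.map (zip O true 1) (D2.map C.d x) := fun x => by
    refine D2.ext ?_ ?_
    · exact (zip_nat true 1 C.d x.a).symm
    · exact (zip_nat true 1 C.d x.b).symm
  rw [map_add, dn_inl, dn_inr, e1, e2, ← Kp_nat, map_add (alp O 0 (j + 1)), alp_nat, alp_nat,
    alp_nat, Kp_alp]
  simp only [map_add]
  abel

/-- the elements are Hochschild -/
theorem zz_HH (ha0 : a0 ∈ HH O C.V) (hA : ∀ c j, A c j ∈ HH O (D2 true 0 C.V)) (c : ℕ) :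
    zz P C A a0 c ∈ HH O (VV C) := by
  refine mem_HH_prod.2 ⟨mem_HH_prod.2 ⟨?_, zero_mem _⟩, mem_HH_pi fun j => ?_⟩
  · change (if c = 0 then a0 else 0) ∈ HH O C.V
    split_ifs
    · exact ha0
    · exact zero_mem _
  · exact add_mem (map_mem_HH _ (hA _ _))
      (map_mem_HH _ (map_mem_HH _ (map_mem_HH _ (hA _ _))))

theorem ww_HH (hA : ∀ c j, A c j ∈ HH O (D2 true 0 C.V)) (hU : ∀ j, U j ∈ HH O C.V) (K : ℕ) :
    ww P C A U K ∈ HH O (D2 true 1 (VV C)) := by
  refine add_mem (map_mem_HH _ (mem_HH_prod.2 ⟨zero_mem _, mem_HH_pi fun j => ?_⟩))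
    (asm_HH fun j => ?_)
  · exact map_mem_HH _ (hA _ _)
  · exact map_mem_HH _ (map_mem_HH _ (map_mem_HH _ (hU _)))

/-- first-level relation in the form used for the `inr` part -/
theorem fl_add {x y : D2 true 0 C.V} {a : ℕ}
    (h : x + nu P (a + 1) y ∈ N0 P (D2 true 0 C.V)) (f : D2 true 0 C.V →ₗ[S O] D2 true 0 C.V)
    (hf : f = Kp P a) (hz : D2.map (zip O true 1) (mid O (P.h (yv O 1) (yv O 2)) y) ∈ N0 P _) :
    D2.map (zip O true 1) (f x) + muv P a 1 • D2.map (zip O true 1) (Kp P (a + 1) y) ∈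
      N0 P (D2 true 0 (D2 true 1 C.V)) := by
  subst hf
  have h1 : D2.map (zip O true 1) (Kp P a x) +
      muv P a 1 • D2.map (zip O true 1) (Kp P (a + 1) y) =
      D2.map (zip O true 1) (Kp P a (x + nu P (a + 1) y)) +
      D2.map (zip O true 1) (mid O (P.h (yv O 1) (yv O 2)) y) := by
    rw [← id2 P a y, map_add (Kp P a), map_add, map_add, map_smul]
    have := add_self_mod (O := O) (D2.map (zip O true 1) (Kp P a (nu P (a + 1) y)))
    calc _ = D2.map (zip O true 1) (Kp P a x) + 0 +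
        muv P a 1 • D2.map (zip O true 1) (Kp P (a + 1) y) := by rw [add_zero]
      _ = _ := by rw [← this]; abel
  rw [h1]
  exact add_mem (map_mem_N0 _ (map_mem_N0 _ h)) hz

theorem zip_mid_h (x : D2 true 0 C.V) :
    D2.map (zip O true 1) (mid O (P.h (yv O 1) (yv O 2)) x) =
      D2.map (P.h (yv O 1) (yv O (1 + 1)) • (zip O true 1 : C.V →ₗ[S O] D2 true 1 C.V)) x := by
  refine D2.ext ?_ ?_
  · rw [D2.map_a, D2.map_a, mid_a, map_smul]; rfl
  · rw [D2.map_b, D2.map_b, mid_b, map_smul]; rfl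

theorem zz_step (hz : ∀ (j : ℕ) (D : SM O), CtxNeg P (C := D) (D := SM.D2 true j D)
      (P.h (yv O j) (yv O (j + 1)) • (zip O true j : D.V →ₗ[S O] D2 true j D.V)))
    (hn : 0 < n) (hA : ∀ c j, A c j ∈ HH O (D2 true 0 C.V)) (hAn : ∀ c j, n ≤ j → A c j = 0)
    (h0 : C.d a0 + unzip O true 0 (A 0 0) = 0) (hc0 : ∀ c, 1 ≤ c → A c 0 = 0) (c : ℕ)
    (hFL : ∀ c', c ≤ c' → c' ≤ c + 1 → ∀ j < n, D2.map C.d (A c' j) + alp O 0 (j + 1) (A c' (j + 1)) +
      nu P (c' + 1) (A (c' + 1) j) ∈ N0 P (D2 true 0 C.V)) :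
    dM n C (zz P C A a0 c) + muv P (c + 1) 1 • zz P C A a0 (c + 1) ∈ N0 P (VV C) := by
  refine colN0 n ?_ (fun j hj => ?_) (fun j hj => ?_)
  · change (dM n C (zz P C A a0 c)).1 +
      muv P (c + 1) 1 • (zz P C A a0 (c + 1)).1 ∈ _
    rw [zz_d_fst hn h0 hc0, zero_add]
    change muv P (c + 1) 1 • (((if c + 1 = 0 then a0 else 0), 0) : C.V × D2 true 1 C.V) ∈ _
    rw [if_neg (by omega)]
    exact Submodule.smul_mem _ _ (zero_mem _)
  · change (dM n C (zz P C A a0 c)).2 j +
      muv P (c + 1) 1 • (zz P C A a0 (c + 1)).2 j ∈ _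
    rw [zz_d_snd hAn]
    change _ + muv P (c + 1) 1 •
      (D2.map (LinearMap.inl (S O) C.V (D2 true 1 C.V)) (A (c + 1) j) +
      D2.map (LinearMap.inr (S O) C.V (D2 true 1 C.V))
      (D2.map (zip O true 1) (Kp P (c + 1 + 1) (A (c + 1 + 1) j)))) ∈ _
    have h1 := hFL c le_rfl (by omega) j hj
    have h2 := hFL (c + 1) (by omega) le_rfl j hj
    have h3 := fl_add (P := P) (C := C) h2 _ rfl (by
      rw [zip_mid_h]; exact NN_le_N0 (ctx1 hz 1 0 (hA _ _)))
    have h4 := add_mem (map_mem_N0 (D2.map (LinearMap.inl (S O) C.V (D2 true 1 C.V))) h1)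
      (map_mem_N0 (D2.map (LinearMap.inr (S O) C.V (D2 true 1 C.V))) h3)
    rw [← id1 P (c + 1)] at h4
    refine (congrArg (fun x => x ∈ N0 P _) ?_).mp h4
    simp only [map_add, map_smul, smul_add]
    abel
  · change (dM n C (zz P C A a0 c)).2 j +
      muv P (c + 1) 1 • (zz P C A a0 (c + 1)).2 j = 0
    rw [zz_d_snd hAn, zz_snd_zero hAn _ _ hj, hAn _ _ hj, hAn _ _ hj, hAn _ _ (by omega),
      hAn _ _ (by omega)]
    simp

theorem unzip_YY (j : ℕ) : unzip O true 1 (YY P C U j) =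
    D2.map (LinearMap.inr (S O) C.V (D2 true 1 C.V)) (D2.map (zip O true 1)
      (zip O true 0 ((MvPolynomial.C P.ka : S O) • U j))) := by
  rw [YY, unzip_nat, unzip_nat, unzip_GG, ← map_smul (zip O true 1),
    zip_nat true 0 (zip O true 1)]

theorem YY_zero {j : ℕ} (h : U j = 0) : YY P C U j = 0 := by
  rw [YY, h]; simp

theorem zz_last (hn : 0 < n) (r : ℕ) (hAn : ∀ c j, n ≤ j → A c j = 0)
    (hUn : ∀ j, n ≤ j → U j = 0)
    (h0 : C.d a0 + unzip O true 0 (A 0 0) = 0) (hc0 : ∀ c, 1 ≤ c → A c 0 = 0)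
    (hFL : ∀ j < n, D2.map C.d (A (2 * r) j) + alp O 0 (j + 1) (A (2 * r) (j + 1)) +
      nu P (2 * r + 1) (A (2 * r + 1) j) ∈ N0 P (D2 true 0 C.V))
    (hAK : ∀ j < n, D2.map C.d (A (2 * r + 1) j) + alp O 0 (j + 1) (A (2 * r + 1) (j + 1)) =
      zip O true 0 ((MvPolynomial.C P.ka : S O) • U j)) :
    dM n C (zz P C A a0 (2 * r)) + unzip O true 1 (ww P C A U (2 * r + 1)) ∈ N0 P (VV C) := by
  have hu : unzip O true 1 (ww P C A U (2 * r + 1)) = e1 O true 1 • XX C A (2 * r + 1) +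
      unzip O true 1 (asm (C.V × D2 true 1 C.V) (YY P C U)) := by
    rw [ww, map_add, unzip_zip]
  have hmu : muv P (2 * r + 1) 1 = (e1 O true 1 : S O) := muv_odd P (by omega) 1
  rw [hu]
  refine colN0 n ?_ (fun j hj => ?_) (fun j hj => ?_)
  · change (dM n C (zz P C A a0 (2 * r))).1 + (e1 O true 1 • ((0, 0) : C.V × D2 true 1 C.V) +
      unzip O true 1 (0 : D2 true 1 (C.V × D2 true 1 C.V))) ∈ _
    rw [zz_d_fst hn h0 hc0, zero_add, map_zero, add_zero]
    exact Submodule.smul_mem _ _ (zero_mem _)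
  · change (dM n C (zz P C A a0 (2 * r))).2 j + (e1 O true 1 •
      (D2.map (LinearMap.inl (S O) C.V (D2 true 1 C.V)) (A (2 * r + 1) j)) +
      unzip O true 1 (YY P C U j)) ∈ _
    rw [zz_d_snd hAn, unzip_YY, hAK j hj, Kp_odd P (by omega), Kp_odd P (by omega)]
    have h4 := map_mem_N0 (D2.map (LinearMap.inl (S O) C.V (D2 true 1 C.V))) (hFL j hj)
    rw [← id1 P (2 * r + 1), Kp_odd P (by omega), hmu] at h4
    refine (congrArg (fun x => x ∈ N0 P _) ?_).mp h4
    have h5 := add_self_mod (O := O) (D2.map (LinearMap.inr (S O) C.V (D2 true 1 C.V))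
      (D2.map (zip O true 1) (zip O true 0 ((MvPolynomial.C P.ka : S O) • U j))))
    simp only [map_add, map_smul, smul_add] at h5 ⊢
    refine (add_zero _).symm.trans ?_
    rw [← h5]; abel
  · change (dM n C (zz P C A a0 (2 * r))).2 j + (e1 O true 1 •
      (D2.map (LinearMap.inl (S O) C.V (D2 true 1 C.V)) (A (2 * r + 1) j)) +
      unzip O true 1 (YY P C U j)) = 0
    rw [zz_d_snd hAn, YY_zero (hUn j hj), hAn _ _ hj, hAn _ _ hj, hAn _ _ (by omega),
      hAn _ _ (by omega)]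
    simp

/-- the `j`-entry of the last element -/
theorem pj_ww (K j : ℕ) : D2.map (pj O (C.V × D2 true 1 C.V) (D2 true 0 (C.V × D2 true 1 C.V)) j)
    (ww P C A U K) =
    zip O true 1 (D2.map (LinearMap.inl (S O) C.V (D2 true 1 C.V)) (A K j)) + YY P C U j := by
  rw [ww, map_add, map_pj_asm, ← zip_nat]; rfl

theorem fst_ww (K : ℕ) : D2.map (LinearMap.fst (S O) (C.V × D2 true 1 C.V)
    (ℕ → D2 true 0 (C.V × D2 true 1 C.V))) (ww P C A U K) = 0 := by
  rw [ww, map_add, map_fst_asm, add_zero, ← zip_nat]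
  change zip O true 1 (0 : C.V × D2 true 1 C.V) = 0
  rw [map_zero]

theorem map_fst_dM (hn : 0 < n) (w : D2 true 1 (VV C)) :
    D2.map (LinearMap.fst (S O) (C.V × D2 true 1 C.V)
      (ℕ → D2 true 0 (C.V × D2 true 1 C.V))) (D2.map (dM n C) w) =
    D2.map (dF true 1 false C.d) (D2.map (LinearMap.fst (S O) (C.V × D2 true 1 C.V)
      (ℕ → D2 true 0 (C.V × D2 true 1 C.V))) w) + D2.map (unzip O true 0)
      (D2.map (pj O (C.V × D2 true 1 C.V) (D2 true 0 (C.V × D2 true 1 C.V)) 0) w) := by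
  have e : ∀ x : VV C, (dM n C x).1 = dF true 1 false C.d x.1 + unzip O true 0 (x.2 0) := by
    intro x
    change dF true 1 false C.d x.1 + colMu O 0 n x = _
    unfold colMu
    rw [if_pos hn]
  refine D2.ext ?_ ?_
  · exact e w.a
  · exact e w.b

theorem map_pj_dM (w : D2 true 1 (VV C)) (j : ℕ)
    (hw : ∀ j, n ≤ j → D2.map (pj O (C.V × D2 true 1 C.V)
      (D2 true 0 (C.V × D2 true 1 C.V)) j) w = 0) :
    D2.map (pj O (C.V × D2 true 1 C.V) (D2 true 0 (C.V × D2 true 1 C.V)) j)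
      (D2.map (dM n C) w) =
    D2.map (D2.map (dF true 1 false C.d))
      (D2.map (pj O (C.V × D2 true 1 C.V) (D2 true 0 (C.V × D2 true 1 C.V)) j) w) +
    D2.map (alp O 0 (j + 1))
      (D2.map (pj O (C.V × D2 true 1 C.V) (D2 true 0 (C.V × D2 true 1 C.V)) (j + 1)) w) := by
  have e : ∀ x : VV C, (∀ j, n ≤ j → x.2 j = 0) → (dM n C x).2 j =
      D2.map (dF true 1 false C.d) (x.2 j) + alp O 0 (j + 1) (x.2 (j + 1)) := by
    intro x hx
    change D2.map (dF true 1 false C.d) (x.2 j) + colMin O 0 n x j = _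
    rw [colMin_eq hx]
  refine D2.ext ?_ ?_
  · exact e w.a fun j hj => congrArg D2.a (hw j hj)
  · exact e w.b fun j hj => congrArg D2.b (hw j hj)

theorem YY_d (j : ℕ) : D2.map (D2.map (dF true 1 false C.d)) (YY P C U j) =
    D2.map (D2.map (LinearMap.inl (S O) C.V (D2 true 1 C.V)))
      (zip O true 1 (zip O true 0 ((MvPolynomial.C P.ka : S O) • U j))) +
    D2.map (D2.map (LinearMap.inr (S O) C.V (D2 true 1 C.V)))
      (D2.map (zip O true 0) (GG P (C.d (U j)))) := by
  have h1 : ∀ x : D2 true 1 (D2 true 0 (D2 true 1 C.V)),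
      D2.map (D2.map (dF true 1 false C.d))
        (D2.map (D2.map (LinearMap.inr (S O) C.V (D2 true 1 C.V))) x) =
      D2.map (D2.map (LinearMap.inl (S O) C.V (D2 true 1 C.V)))
        (D2.map (D2.map (unzip O true 1)) x) +
      D2.map (D2.map (LinearMap.inr (S O) C.V (D2 true 1 C.V)))
        (D2.map (D2.map (D2.map C.d)) x) := by
    intro x
    exact D2.ext (dn_inr C x.a) (dn_inr C x.b)
  have h2 : ∀ {F G : Type} [AddCommGroup F] [Module (S O) F] [AddCommGroup G] [Module (S O) G]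
      (f : F →ₗ[S O] G) (x : D2 true 1 F), D2.map (D2.map f) (D2.map (zip O true 0) x) =
      D2.map (zip O true 0) (D2.map f x) := by
    intro F G _ _ _ _ f x
    exact D2.ext (zip_nat true 0 f x.a).symm (zip_nat true 0 f x.b).symm
  rw [YY, h1, h2 (unzip O true 1), h2 (D2.map C.d), map_unzip_GG, ← map_smul (zip O true 1),
    ← GG_nat, zip_nat true 1 (zip O true 0)]

theorem ww_d (hz : ∀ (j : ℕ) (D : SM O), CtxNeg P (C := D) (D := SM.D2 true j D)
      (P.h (yv O j) (yv O (j + 1)) • (zip O true j : D.V →ₗ[S O] D2 true j D.V)))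
    (hn : 0 < n) (K : ℕ) (hAn : ∀ c j, n ≤ j → A c j = 0) (hUn : ∀ j, n ≤ j → U j = 0)
    (hU : ∀ j, U j ∈ HH O C.V) (hK0 : A K 0 = 0) (hU0 : U 0 = 0)
    (hAK : ∀ j < n, D2.map C.d (A K j) + alp O 0 (j + 1) (A K (j + 1)) =
      zip O true 0 ((MvPolynomial.C P.ka : S O) • U j))
    (hdU : ∀ j < n, C.d (U j) = if j % 2 = 1 then e1 O true 0 • U (j + 1) else 0)
    (hq : ∀ j, P.q (yv O 1) • U j ∈ N0 P C.V) :
    D2.map (dM n C) (ww P C A U K) ∈ N0 P (D2 true 1 (VV C)) := by
  have hzero : ∀ j, n ≤ j → D2.map (pj O (C.V × D2 true 1 C.V)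
      (D2 true 0 (C.V × D2 true 1 C.V)) j) (ww P C A U K) = 0 := by
    intro j hj
    rw [pj_ww, hAn _ _ hj, YY_zero (hUn j hj)]; simp
  refine colN0D n ?_ (fun j hj => ?_) (fun j hj => ?_)
  · rw [map_fst_dM hn, fst_ww, pj_ww, hK0, YY_zero hU0]
    have : D2.map (dF true 1 false C.d) (0 : D2 true 1 (C.V × D2 true 1 C.V)) +
      D2.map (unzip O true 0) (zip O true 1 (D2.map (LinearMap.inl (S O) C.V (D2 true 1 C.V))
        (0 : D2 true 0 C.V)) + 0) = 0 := by simp
    rw [this]; exact zero_mem _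
  · rw [map_pj_dM _ _ hzero, pj_ww, pj_ww, map_add, YY_d, map_add (D2.map (alp O 0 (j + 1)))]
    have e1' : D2.map (D2.map (dF true 1 false C.d))
        (zip O true 1 (D2.map (LinearMap.inl (S O) C.V (D2 true 1 C.V)) (A K j))) =
        zip O true 1 (D2.map (LinearMap.inl (S O) C.V (D2 true 1 C.V)) (D2.map C.d (A K j))) := by
      rw [← zip_nat, dn_inl]
    have e2' : D2.map (alp O 0 (j + 1))
        (zip O true 1 (D2.map (LinearMap.inl (S O) C.V (D2 true 1 C.V)) (A K (j + 1)))) =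
        zip O true 1 (D2.map (LinearMap.inl (S O) C.V (D2 true 1 C.V))
          (alp O 0 (j + 1) (A K (j + 1)))) := by
      rw [← zip_nat, alp_nat]
    have e3' : D2.map (alp O 0 (j + 1)) (YY P C U (j + 1)) =
        D2.map (D2.map (LinearMap.inr (S O) C.V (D2 true 1 C.V)))
          (D2.map (alp O 0 (j + 1)) (D2.map (zip O true 0) (GG P (U (j + 1))))) := by
      rw [YY]
      exact D2.ext (alp_nat _ _ _) (alp_nat _ _ _)
    have e4' : D2.map (D2.map (LinearMap.inl (S O) C.V (D2 true 1 C.V)))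
      (zip O true 1 (zip O true 0 ((MvPolynomial.C P.ka : S O) • U j))) =
      zip O true 1 (D2.map (LinearMap.inl (S O) C.V (D2 true 1 C.V)) (D2.map C.d (A K j))) +
      zip O true 1 (D2.map (LinearMap.inl (S O) C.V (D2 true 1 C.V))
          (alp O 0 (j + 1) (A K (j + 1)))) := by
      rw [← hAK j hj, ← zip_nat, map_add, map_add]
    rw [e1', e2', e3', e4']
    have key : D2.map (zip O true 0) (GG P (C.d (U j))) +
        D2.map (alp O 0 (j + 1)) (D2.map (zip O true 0) (GG P (U (j + 1)))) ∈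
        N0 P (D2 true 1 (D2 true 0 (D2 true 1 C.V))) := by
      rcases Nat.mod_two_eq_zero_or_one j with h | h
      · rw [hdU j hj, if_neg (by omega), map_zero, map_zero, zero_add, alp_odd (by omega)]
        have : D2.map (al O 0) (D2.map (zip O true 0) (GG P (U (j + 1)))) = 0 :=
          D2.ext (al_zip _) (al_zip _)
        rw [this]; exact zero_mem _
      · rw [hdU j hj, if_pos h, alp_even (by omega)]
        have e5 : D2.map (be O 0) (D2.map (zip O true 0) (GG P (U (j + 1)))) =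
            D2.map (zip O true 0) (mid O (e1 O true 0) (GG P (U (j + 1)))) := by
          refine D2.ext ?_ ?_
          · exact (be_zip _).trans (map_smul _ _ _).symm
          · exact (be_zip _).trans (map_smul _ _ _).symm
        rw [e5, ← map_add, GG_e1, map_add]
        refine add_mem (map_mem_N0 _ (map_mem_N0 _ (hq _))) (ctx_q hz (map_mem_HH _ (hU _)))
    refine (congrArg (fun x => x ∈ N0 P _) ?_).mp
      (map_mem_N0 (D2.map (D2.map (LinearMap.inr (S O) C.V (D2 true 1 C.V)))) key)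
    have h5 := add_self_mod (O := O)
      (zip O true 1 (D2.map (LinearMap.inl (S O) C.V (D2 true 1 C.V)) (D2.map C.d (A K j))) +
      zip O true 1 (D2.map (LinearMap.inl (S O) C.V (D2 true 1 C.V))
          (alp O 0 (j + 1) (A K (j + 1)))))
    rw [map_add]
    refine (add_zero _).symm.trans ?_
    rw [← h5]; abel
  · rw [map_pj_dM _ _ hzero, hzero j hj, hzero (j + 1) (by omega), map_zero, map_zero, add_zero]

/-- **the general lemma**: first-level data give a cycle of the negative tower -/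
theorem initN_gen (hz : ∀ (j : ℕ) (D : SM O), CtxNeg P (C := D) (D := SM.D2 true j D)
      (P.h (yv O j) (yv O (j + 1)) • (zip O true j : D.V →ₗ[S O] D2 true j D.V)))
    (hn : 0 < n) (r : ℕ) (ha0 : a0 ∈ HH O C.V) (hA : ∀ c j, A c j ∈ HH O (D2 true 0 C.V))
    (hU : ∀ j, U j ∈ HH O C.V) (hAn : ∀ c j, n ≤ j → A c j = 0) (hUn : ∀ j, n ≤ j → U j = 0)
    (h0 : C.d a0 + unzip O true 0 (A 0 0) = 0) (hc0 : ∀ c, 1 ≤ c → A c 0 = 0) (hU0 : U 0 = 0)
    (hFL : ∀ c < 2 * r + 1, ∀ j < n, D2.map C.d (A c j) + alp O 0 (j + 1) (A c (j + 1)) +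
      nu P (c + 1) (A (c + 1) j) ∈ N0 P (D2 true 0 C.V))
    (hAK : ∀ j < n, D2.map C.d (A (2 * r + 1) j) + alp O 0 (j + 1) (A (2 * r + 1) (j + 1)) =
      zip O true 0 ((MvPolynomial.C P.ka : S O) • U j))
    (hdU : ∀ j < n, C.d (U j) = if j % 2 = 1 then e1 O true 0 • U (j + 1) else 0)
    (hq : ∀ j, P.q (yv O 1) • U j ∈ N0 P C.V) :
    TCycN P 1 r (ColM 0 n (F2 true 1 false C)) (C.ep a0) :=
  ⟨zz P C A a0, ww P C A U (2 * r + 1), fun c => zz_HH ha0 hA c, ww_HH hA hU _,
    fun c hc => zz_step hz hn hA hAn h0 hc0 c fun c' _ h' => hFL c' (by omega),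
    zz_last hn r hAn hUn h0 hc0 (hFL _ (by omega)) hAK,
    ww_d hz hn _ hAn hUn hU (hc0 _ (by omega)) hU0 hAK hdU hq, rfl⟩

end gen

end IN

end CQ
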