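import Pool.Agent.CQ.InitN
import Pool.Agent.CQ.Ctx

/-!
# Block H: the instance of the general lemma for the negative initial tower

`C1 = ColP 0 (4k+1) (R0 s)`, `Z i = D2.map ιᵢ (split (zip 1))`, `F i = zip (ιᵢ (zip 1))`.
-/

set_option autoImplicit false
set_option linter.unusedSectionVars false
set_option linter.unusedSimpArgs false
set_option linter.unusedVariables false
set_option linter.style.longLine false

namespace CQ

open MvPolynomial

variable {O : Type} [CommRing O] [CharP O 2]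

namespace INI

section inc
variable {C : Type} [AddCommGroup C] [Module (S O) C]

/-- inclusion of the index `i` of a column -/
noncomputable def inc (O : Type) [CommRing O] [CharP O 2] {C : Type} [AddCommGroup C]
    [Module (S O) C] (i : ℕ) : D2 true 0 C →ₗ[S O] C × (ℕ → D2 true 0 C) :=
  LinearMap.inr (S O) C (ℕ → D2 true 0 C) ∘ₗ
    LinearMap.single (S O) (fun _ : ℕ => D2 true 0 C) i

theorem inc_fst (i : ℕ) (w : D2 true 0 C) : (inc O i w).1 = 0 := rfl
theorem inc_snd_self (i : ℕ) (w : D2 true 0 C) : (inc O i w).2 i = w := by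
  change (Pi.single i w : ℕ → D2 true 0 C) i = w
  simp
theorem inc_snd_ne (i j : ℕ) (h : j ≠ i) (w : D2 true 0 C) : (inc O i w).2 j = 0 := by
  change (Pi.single i w : ℕ → D2 true 0 C) j = 0
  simp [h]

end inc

section zf
variable (O) (s : ℕ)

/-- the inner element `zip 1` -/
noncomputable def zt : D2 true 0 (RS O s) := zip O true 0 (1 : RS O s)

/-- `Z i` -/
noncomputable def Zi (i : ℕ) : D2 true 0 (RS O s × (ℕ → D2 true 0 (RS O s))) :=
  D2.map (inc O i) (split O true 0 (zt O s))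

/-- `F i` -/
noncomputable def Fi (i : ℕ) : D2 true 0 (RS O s × (ℕ → D2 true 0 (RS O s))) :=
  zip O true 0 (inc O i (zt O s))

variable {O} {s}

theorem one_mem_HH : (1 : RS O s) ∈ HH O (RS O s) := by
  intro j
  change rho O s (X (Sum.inl j)) * 1 = rho O s (X (Sum.inr j)) * 1
  by_cases h : j < s <;> simp [rho, h]

theorem zt_mem_HH : zt O s ∈ HH O (D2 true 0 (RS O s)) := map_mem_HH _ one_mem_HH

theorem Zi_mem_HH (i : ℕ) : Zi O s i ∈ HH O (D2 true 0 (RS O s × (ℕ → D2 true 0 (RS O s)))) :=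
  map_mem_HH _ (map_mem_HH _ zt_mem_HH)

theorem inc_mem_HH (i : ℕ) : inc O i (zt O s) ∈ HH O (RS O s × (ℕ → D2 true 0 (RS O s))) :=
  map_mem_HH _ zt_mem_HH

theorem Fi_mem_HH (i : ℕ) : Fi O s i ∈ HH O (D2 true 0 (RS O s × (ℕ → D2 true 0 (RS O s)))) :=
  map_mem_HH _ (inc_mem_HH i)

theorem be_Z (i : ℕ) : be O 0 (Zi O s i) = Fi O s i := by
  unfold Zi Fi
  rw [be_nat, be_split, zip_nat]

theorem al_Z (i : ℕ) : al O 0 (Zi O s i) = Fi O s i + e1 O true 0 • Zi O s i := by
  have : al O 0 (Zi O s i) = be O 0 (Zi O s i) + e1 O true 0 • Zi O s i := rfl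
  rw [this, be_Z]

theorem be_F (i : ℕ) : be O 0 (Fi O s i) = e1 O true 0 • Fi O s i := be_zip _
theorem al_F (i : ℕ) : al O 0 (Fi O s i) = 0 := al_zip _

theorem unzip_Z (i : ℕ) : unzip O true 0 (Zi O s i) = inc O i (zt O s) := by
  unfold Zi
  rw [unzip_nat, unzip_split]

/-- `D2.map (y_1 •)` on `Z` -/
theorem mid_Z (i : ℕ) : mid O (yv O 1) (Zi O s i) = Fi O s i + yv O 0 • Zi O s i := by
  have h := be_eq (O := O) (i := 0) (Zi O s i)
  rw [be_Z] at h
  rw [h]
  have := add_self_mod (O := O) (yv O 0 • Zi O s i)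
  change _ = mid O (yv O (0 + 1)) (Zi O s i) + yv O 0 • Zi O s i + yv O 0 • Zi O s i
  rw [add_assoc, this, add_zero]

theorem mid_F (i : ℕ) : mid O (yv O 1) (Fi O s i) = yv O 1 • Fi O s i := by
  unfold Fi
  rw [mid_zip, map_smul]

/-- `h(top, mid)` on `Z` -/
theorem hT_Z (P : Pot O) (i : ℕ) :
    (yv O 1 * yv O 1) • Zi O s i + yv O 1 • mid O (yv O 1) (Zi O s i) +
      mid O (yv O 1 * yv O 1) (Zi O s i) + (MvPolynomial.C P.ka : S O) • al O 0 (Zi O s i) +
      (MvPolynomial.C P.ta : S O) • Zi O s i =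
    P.h (yv O 0) (yv O 1) • Zi O s i + (yv O 0 + MvPolynomial.C P.ka) • Fi O s i := by
  have e : P.h (yv O 0) (yv O 1) = yv O 0 * yv O 0 + yv O 0 * yv O 1 + yv O 1 * yv O 1 +
      MvPolynomial.C P.ka * yv O 0 + MvPolynomial.C P.ka * yv O 1 + MvPolynomial.C P.ta := by
    unfold Pot.h; rw [MvPolynomial.algebraMap_eq]; ring
  have e' : (e1 O true 0 : S O) = yv O 0 + yv O 1 := rfl
  rw [mid_mul, mid_Z, map_add, map_smul, mid_Z, mid_F, al_Z, e, e']
  match_scalars <;> (rw [← sub_eq_zero]; ring_nf <;>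
    simp only [two0, three1, four0, five1, six0, seven1, eight0, mul_zero, zero_mul,
            add_zero, zero_add, neg_zero, sub_zero, sub_self, mul_one])

/-- `h(y_0,y_1) Z` is negligible -/
theorem h_Z_mem (P : Pot O) (i : ℕ) : P.h (yv O 0) (yv O 1) • Zi O s i ∈
    N0 P (D2 true 0 (RS O s × (ℕ → D2 true 0 (RS O s)))) := by
  have h1 : P.h (yv O 0) (yv O 1) • zt O s ∈ NN P (D2 true 0 (RS O s)) := by
    exact h_zip_mem P 0 one_mem_HH
  have h2 := map_mem_NN (D2.map (inc O i) ∘ₗ split O true 0) h1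
  rw [map_smul] at h2
  exact NN_le_N0 h2

/-- the image of `Z` under `ν` for even indices -/
theorem hT_Z_mem (P : Pot O) (i : ℕ) :
    ((yv O 1 * yv O 1) • Zi O s i + yv O 1 • mid O (yv O 1) (Zi O s i) +
      mid O (yv O 1 * yv O 1) (Zi O s i) + (MvPolynomial.C P.ka : S O) • al O 0 (Zi O s i) +
      (MvPolynomial.C P.ta : S O) • Zi O s i) + (MvPolynomial.C P.ka : S O) • Fi O s i ∈
    N0 P (D2 true 0 (RS O s × (ℕ → D2 true 0 (RS O s)))) := by
  rw [hT_Z]
  have : P.h (yv O 0) (yv O 1) • Zi O s i + (yv O 0 + MvPolynomial.C P.ka) • Fi O s i +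
      (MvPolynomial.C P.ka : S O) • Fi O s i = P.h (yv O 0) (yv O 1) • Zi O s i + yv O 0 • Fi O s i := by
    have h := add_self_mod (O := O) ((MvPolynomial.C P.ka : S O) • Fi O s i)
    rw [add_smul]
    calc _ = P.h (yv O 0) (yv O 1) • Zi O s i + yv O 0 • Fi O s i +
          ((MvPolynomial.C P.ka : S O) • Fi O s i + (MvPolynomial.C P.ka : S O) • Fi O s i) := by abel
      _ = _ := by rw [h, add_zero]
  rw [this]
  exact add_mem (h_Z_mem P i) (yv0_smul_mem_N0 _)

/-- `q(y_1)` on the inclusion of `zip 1` -/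
theorem q_inc_mem (P : Pot O) (i : ℕ) : P.q (yv O 1) • inc O i (zt O s) ∈
    N0 P (RS O s × (ℕ → D2 true 0 (RS O s))) := by
  have e : P.q (yv O 1) = P.h (yv O 0) (yv O 1) +
      yv O 0 * (yv O 0 + yv O 1 + MvPolynomial.C P.ka) := by
    unfold Pot.h Pot.q
    rw [MvPolynomial.algebraMap_eq]
    have h2 := two0 (S O)
    linear_combination (- (yv O 0 * yv O 0) - (yv O 0 * yv O 1) - (MvPolynomial.C P.ka * yv O 0)) * h2
  rw [e, add_smul, mul_smul]
  refine add_mem ?_ (yv0_smul_mem_N0 _)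
  have h1 : P.h (yv O 0) (yv O 1) • zt O s ∈ NN P (D2 true 0 (RS O s)) := by
    exact h_zip_mem P 0 one_mem_HH
  have h2 := map_mem_NN (inc O i) h1
  rw [map_smul] at h2
  exact NN_le_N0 h2

/-! ### The differential of the inner column -/

variable {n : ℕ}

/-- the differential of `ColP 0 n (R0 O s)` -/
noncomputable def cd (O : Type) [CommRing O] [CharP O 2] (n s : ℕ) :
    (RS O s × (ℕ → D2 true 0 (RS O s))) →ₗ[S O] (RS O s × (ℕ → D2 true 0 (RS O s))) :=
  (ColP 0 n (R0 O s)).d

theorem cd_fst (z : RS O s × (ℕ → D2 true 0 (RS O s))) : (cd O n s z).1 = 0 := rfl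

theorem cd_snd (z : RS O s × (ℕ → D2 true 0 (RS O s))) (j : ℕ) :
    (cd O n s z).2 j = colPin O 0 n z j := by
  change D2.map (0 : RS O s →ₗ[S O] RS O s) (z.2 j) + colPin O 0 n z j = _
  rw [D2.map_zero, LinearMap.zero_apply, zero_add]

theorem d_inc (i : ℕ) (hi : i + 1 < n) (w : D2 true 0 (RS O s)) :
    cd O n s (inc O i w) = inc O (i + 1) (alp O 0 (i + 1) w) := by
  refine Prod.ext rfl (funext fun j => ?_)
  rw [cd_snd]
  rcases j with _ | j
  · rw [colPin_zero _ _ (by omega), inc_fst, map_zero, inc_snd_ne _ _ (by omega)]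
  · by_cases hj : j = i
    · subst hj
      rw [colPin_succ _ _ _ hi, inc_snd_self, inc_snd_self]
    · rw [inc_snd_ne (i + 1) (j + 1) (by omega)]
      by_cases hn : j + 1 < n
      · rw [colPin_succ _ _ _ hn, inc_snd_ne i j hj, map_zero]
      · rw [colPin_ge _ _ _ (by omega)]

theorem d_inc_last (i : ℕ) (hi : n ≤ i + 1) (w : D2 true 0 (RS O s)) :
    cd O n s (inc O i w) = 0 := by
  refine Prod.ext rfl (funext fun j => ?_)
  rw [cd_snd]
  by_cases hn : j < n
  · rcases j with _ | j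
    · rw [colPin_zero _ _ hn, inc_fst, map_zero]; rfl
    · rw [colPin_succ _ _ _ hn, inc_snd_ne i j (by omega), map_zero]; rfl
  · rw [colPin_ge _ _ _ (by omega)]; rfl

/-- `d U` for odd indices of the column -/
theorem d_inc_zt_odd (i : ℕ) (h : i % 2 = 1) (hi : i + 1 < n) :
    cd O n s (inc O i (zt O s)) = e1 O true 0 • inc O (i + 1) (zt O s) := by
  rw [d_inc i hi, alp_even (by omega)]
  have : be O 0 (zt O s) = e1 O true 0 • zt O s := be_zip _
  rw [this, map_smul]

/-- `d U` for even indices of the column -/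
theorem d_inc_zt_even (i : ℕ) (h : i % 2 = 0) :
    cd O n s (inc O i (zt O s)) = 0 := by
  by_cases hi : i + 1 < n
  · rw [d_inc i hi, alp_odd (by omega)]
    have : al O 0 (zt O s) = 0 := al_zip _
    rw [this, map_zero]
  · exact d_inc_last i (by omega) _

theorem map_d_Z_aux (i : ℕ) (hi : i + 1 < n) : D2.map (cd O n s) (Zi O s i) =
    D2.map (inc O (i + 1)) (D2.map (alp O 0 (i + 1)) (split O true 0 (zt O s))) := by
  refine D2.ext ?_ ?_
  · exact d_inc i hi _
  · exact d_inc i hi _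

theorem map_be_zt : D2.map (be O 0) (split O true 0 (zt O s)) = zip O true 0 (zt O s) := by
  rw [map_be_split]
  unfold zt
  rw [← zip_nat]

/-- `D2.map d Z_i = F_{i+1}` for odd `i` -/
theorem map_d_Z_odd (i : ℕ) (h : i % 2 = 1) (hi : i + 1 < n) :
    D2.map (cd O n s) (Zi O s i) = Fi O s (i + 1) := by
  rw [map_d_Z_aux i hi, alp_even (by omega), map_be_zt, ← zip_nat]; rfl

/-- `D2.map d Z_i = F_{i+1} + e₁ Z_{i+1}` for even `i` -/
theorem map_d_Z_even (i : ℕ) (h : i % 2 = 0) (hi : i + 1 < n) :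
    D2.map (cd O n s) (Zi O s i) = Fi O s (i + 1) + e1 O true 0 • Zi O s (i + 1) := by
  rw [map_d_Z_aux i hi, alp_odd (by omega)]
  have e : D2.map (al O 0) (split O true 0 (zt O s)) =
      zip O true 0 (zt O s) + e1 O true 0 • split O true 0 (zt O s) := by
    have e1' : (al O 0 : D2 true 0 (RS O s) →ₗ[S O] D2 true 0 (RS O s)) =
        be O 0 + e1 O true 0 • LinearMap.id := rfl
    rw [e1', D2.map_add, LinearMap.add_apply, map_be_zt]
    congr 1
    rw [D2.e1_smul]; rfl
  rw [e, map_add, map_smul, ← zip_nat]; rfl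

/-- the first component -/
theorem d_zero (hn : 0 < n) (v : RS O s) :
    cd O n s ((v, 0) : RS O s × (ℕ → D2 true 0 (RS O s))) = inc O 0 (zip O true 0 v) := by
  refine Prod.ext rfl (funext fun j => ?_)
  rw [cd_snd]
  rcases j with _ | j
  · rw [colPin_zero _ _ hn, inc_snd_self]
  · rw [inc_snd_ne 0 (j + 1) (by omega)]
    by_cases hj : j + 1 < n
    · rw [colPin_succ _ _ _ hj]
      change alp O 0 (j + 1) 0 = 0
      rw [map_zero]
    · rw [colPin_ge _ _ _ (by omega)]

end zf

/-! ### The coefficients -/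

/-- `P^l_s` -/
noncomputable def Pc (P : Pot O) (k l s : ℕ) : O :=
  if k < s ∨ k < l then 0 else
    if l = 0 then P.ka ^ k else ((Nat.choose (l - 1) (k - s) : ℕ) : O) * P.ka ^ (k - l)

theorem natCast_mod {a b : ℕ} (h : a % 2 = b % 2) : (a : O) = (b : O) := by
  have h2 : ∀ n : ℕ, (n : O) = ((n % 2 : ℕ) : O) := by
    intro n
    conv_lhs => rw [← Nat.div_add_mod n 2]
    rw [Nat.cast_add, Nat.cast_mul, Nat.cast_ofNat, two0, zero_mul, zero_add]
  rw [h2 a, h2 b, h]

/-- Pascal -/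
theorem Pc_rec (P : Pot O) (k l s : ℕ) (hl : l + 1 ≤ k) :
    P.ka * Pc P k (l + 1) s = Pc P k l s + Pc P k l (s + 1) := by
  unfold Pc
  by_cases hs : k < s
  · rw [if_pos (Or.inl hs), if_pos (Or.inl hs), if_pos (Or.inl (by omega)), mul_zero, add_zero]
  · rw [if_neg (by omega), if_neg (by omega : ¬ (l + 1 = 0)), if_neg (by omega : ¬ (k < s ∨ k < l))]
    have hk : P.ka * (((Nat.choose (l + 1 - 1) (k - s) : ℕ) : O) * P.ka ^ (k - (l + 1))) =
        ((Nat.choose l (k - s) : ℕ) : O) * P.ka ^ (k - l) := by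
      have e : k - l = (k - (l + 1)) + 1 := by omega
      rw [e, pow_succ, Nat.add_sub_cancel]; ring
    rw [hk]
    rcases Nat.eq_zero_or_pos l with h0 | h0
    · subst h0
      rw [if_pos rfl, Nat.sub_zero]
      by_cases hks : s = k
      · subst hks
        rw [if_pos (Or.inl (by omega)), add_zero, Nat.sub_self, Nat.choose_self, Nat.cast_one, one_mul]
      · rw [if_neg (by omega), if_pos rfl]
        have e1 : Nat.choose 0 (k - s) = 0 := Nat.choose_eq_zero_of_lt (by omega)
        rw [e1, Nat.cast_zero, zero_mul]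
        have h2 := two0 O
        linear_combination (- P.ka ^ k) * h2
    · rw [if_neg (by omega : ¬ l = 0)]
      by_cases hks : s = k
      · subst hks
        rw [if_pos (Or.inl (by omega)), add_zero, Nat.sub_self, Nat.choose_zero_right,
          Nat.choose_zero_right]
      · rw [if_neg (by omega), if_neg (by omega : ¬ l = 0)]
        have e1 : Nat.choose l (k - s) = Nat.choose (l - 1) (k - s) + Nat.choose (l - 1) (k - (s + 1)) := by
          obtain ⟨p, hp⟩ : ∃ p, l = p + 1 := ⟨l - 1, by omega⟩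
          obtain ⟨q, hq⟩ : ∃ q, k - s = q + 1 := ⟨k - s - 1, by omega⟩
          have hq' : k - (s + 1) = q := by omega
          rw [hp, hq, hq', Nat.add_sub_cancel, Nat.choose_succ_succ, add_comm]
        rw [e1]
        push_cast
        ring

theorem Pc_zero (P : Pot O) (k l : ℕ) (hl : 1 ≤ l) : Pc P k l 0 = 0 := by
  unfold Pc
  by_cases h : k < l
  · rw [if_pos (Or.inr h)]
  · rw [if_neg (by omega), if_neg (by omega), Nat.choose_eq_zero_of_lt (by omega), Nat.cast_zero,
      zero_mul]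

theorem Pc_zero_zero (P : Pot O) (k : ℕ) : Pc P k 0 0 = P.ka ^ k := by
  unfold Pc; rw [if_neg (by omega), if_pos rfl]

theorem Pc_gt (P : Pot O) (k l s : ℕ) (hs : k < s) : Pc P k l s = 0 := by
  unfold Pc; rw [if_pos (Or.inl hs)]

/-- `y(c, j+1)` -/
noncomputable def yy (P : Pot O) (k c j : ℕ) : O :=
  if c % 2 = 0 then Pc P k (c / 2) ((j + 1) / 2) else
    if j % 2 = 0 then P.ka * Pc P k ((c + 1) / 2) (j / 2) else 0

/-! ### The data -/

/-- `A_{c,j+1} = y(c,j+1) Z` -/
noncomputable def Aa (P : Pot O) (s k c j : ℕ) : D2 true 0 (RS O s × (ℕ → D2 true 0 (RS O s))) :=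
  (MvPolynomial.C (yy P k c j) : S O) • Zi O s (c + j)

/-- coefficient of `U` -/
def uu (O : Type) [CommRing O] (k j : ℕ) : O :=
  if j < 2 * k + 1 then ((Nat.choose (k - 1) (k - (j + 1) / 2) : ℕ) : O) else 0

/-- `U_{j+1}` -/
noncomputable def Uu (O : Type) [CommRing O] [CharP O 2] (s k j : ℕ) :
    RS O s × (ℕ → D2 true 0 (RS O s)) :=
  (MvPolynomial.C (uu O k j) : S O) • inc O (2 * k + j) (zt O s)

/-- `C κ^k • 1` -/
noncomputable def a0 (P : Pot O) (s k : ℕ) : RS O s × (ℕ → D2 true 0 (RS O s)) :=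
  ((MvPolynomial.C (P.ka ^ k) : S O) • (1 : RS O s), 0)

section data
variable (P : Pot O) (s k : ℕ)

theorem Aa_mem_HH (c j : ℕ) : Aa P s k c j ∈ HH O (D2 true 0 (RS O s × (ℕ → D2 true 0 (RS O s)))) :=
  Submodule.smul_mem _ _ (Zi_mem_HH _)

theorem Uu_mem_HH (j : ℕ) : Uu O s k j ∈ HH O (RS O s × (ℕ → D2 true 0 (RS O s))) :=
  Submodule.smul_mem _ _ (inc_mem_HH _)

theorem a0_mem_HH : a0 P s k ∈ HH O (RS O s × (ℕ → D2 true 0 (RS O s))) :=
  mem_HH_prod.2 ⟨Submodule.smul_mem _ _ one_mem_HH, zero_mem _⟩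

theorem yy_ge (c j : ℕ) (hj : 2 * k + 1 ≤ j) : yy P k c j = 0 := by
  unfold yy
  split_ifs
  · exact Pc_gt P k _ _ (by omega)
  · rw [Pc_gt P k _ _ (by omega), mul_zero]
  · rfl

theorem Aa_ge (c j : ℕ) (hj : 2 * k + 1 ≤ j) : Aa P s k c j = 0 := by
  unfold Aa; rw [yy_ge P k c j hj, MvPolynomial.C_0, zero_smul]

theorem Uu_ge (j : ℕ) (hj : 2 * k + 1 ≤ j) : Uu O s k j = 0 := by
  unfold Uu uu; rw [if_neg (by omega), MvPolynomial.C_0, zero_smul]

theorem Uu_zero (hk : 1 ≤ k) : Uu O s k 0 = 0 := by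
  unfold Uu uu
  rw [if_pos (by omega), Nat.choose_eq_zero_of_lt (by omega), Nat.cast_zero, MvPolynomial.C_0,
    zero_smul]

theorem Aa_zero (c : ℕ) (hc : 1 ≤ c) : Aa P s k c 0 = 0 := by
  unfold Aa yy
  split_ifs with h1 h2
  · rw [show (0 + 1) / 2 = 0 from rfl, Pc_zero P k _ (by omega), MvPolynomial.C_0, zero_smul]
  · rw [show 0 / 2 = 0 from rfl, Pc_zero P k _ (by omega), mul_zero, MvPolynomial.C_0, zero_smul]
  · rw [MvPolynomial.C_0, zero_smul]

theorem d_a0 : (cd O (4 * k + 1) s) (a0 P s k) + unzip O true 0 (Aa P s k 0 0) = 0 := by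
  have h1 : (cd O (4 * k + 1) s) (a0 P s k) =
      inc O 0 (zip O true 0 ((MvPolynomial.C (P.ka ^ k) : S O) • (1 : RS O s))) :=
    d_zero (by omega) _
  have h2 : unzip O true 0 (Aa P s k 0 0) = inc O 0 (zip O true 0 ((MvPolynomial.C (P.ka ^ k) : S O) • (1 : RS O s))) := by
    unfold Aa
    rw [map_smul, unzip_Z]
    have : yy P k 0 0 = P.ka ^ k := by
      unfold yy
      rw [if_pos rfl]
      exact Pc_zero_zero P k
    rw [this, map_smul, map_smul]; rfl
  rw [h1, h2]
  exact add_self_mod (O := O) _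

theorem ep_a0 : (ColP 0 (4 * k + 1) (R0 O s)).ep (a0 P s k) = P.ka ^ k := by
  refine (LinearMap.map_smulₛₗ (R0 O s).ep (MvPolynomial.C (P.ka ^ k) : S O) (1 : RS O s)).trans ?_
  rw [ev_C]
  change P.ka ^ k • MvPolynomial.eval (0 : Fin s → O) 1 = _
  rw [map_one, smul_eq_mul, mul_one]

theorem q_U (j : ℕ) : P.q (yv O 1) • Uu O s k j ∈ N0 P (RS O s × (ℕ → D2 true 0 (RS O s))) := by
  unfold Uu
  rw [smul_comm]
  exact Submodule.smul_mem _ _ (q_inc_mem P _)

/-- `d U_j` -/
theorem d_U (j : ℕ) (hj : j < 2 * k + 1) : (cd O (4 * k + 1) s) (Uu O s k j) =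
    if j % 2 = 1 then e1 O true 0 • Uu O s k (j + 1) else 0 := by
  have h0 : (cd O (4 * k + 1) s) (Uu O s k j) =
      (MvPolynomial.C (uu O k j) : S O) • (cd O (4 * k + 1) s) (inc O (2 * k + j) (zt O s)) :=
    map_smul _ _ _
  split_ifs with h
  · rw [h0, d_inc_zt_odd _ (by omega) (by omega), smul_comm]
    congr 1
    unfold Uu uu
    rw [if_pos hj, if_pos (by omega)]
    have : (j + 1 + 1) / 2 = (j + 1) / 2 := by omega
    rw [this]; rfl
  · rw [h0, d_inc_zt_even _ (by omega), smul_zero]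

/-- first-level conditions -/
theorem fl (c j : ℕ) (hk : 1 ≤ k) (hc : c < 2 * k - 1) (hj : j < 2 * k + 1) :
    D2.map (cd O (4 * k + 1) s) (Aa P s k c j) + alp O 0 (j + 1) (Aa P s k c (j + 1)) +
      (if (c + 1) % 2 = 1 then al O 0 (Aa P s k (c + 1) j) else
        (yv O 1 * yv O 1) • Aa P s k (c + 1) j + yv O 1 • mid O (yv O 1) (Aa P s k (c + 1) j) +
        mid O (yv O 1 * yv O 1) (Aa P s k (c + 1) j) +
        (MvPolynomial.C P.ka : S O) • al O 0 (Aa P s k (c + 1) j) +
        (MvPolynomial.C P.ta : S O) • Aa P s k (c + 1) j) ∈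
      N0 P (D2 true 0 (RS O s × (ℕ → D2 true 0 (RS O s)))) := by
  have hd : D2.map (cd O (4 * k + 1) s) (Aa P s k c j) =
      (MvPolynomial.C (yy P k c j) : S O) • D2.map (cd O (4 * k + 1) s) (Zi O s (c + j)) :=
    map_smul _ _ _
  have e1' : c + 1 + j = c + j + 1 := by omega
  have e2' : c + (j + 1) = c + j + 1 := by omega
  unfold Aa at *
  rw [hd, e1', e2']
  rcases Nat.mod_two_eq_zero_or_one c with hc2 | hc2
  · -- c even
    rw [if_pos (by omega), map_smul, map_smul, al_Z]
    rcases Nat.mod_two_eq_zero_or_one j with hj2 | hj2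
    · -- j even: everything cancels by Pascal
      rw [map_d_Z_even _ (by omega) (by omega), alp_odd (by omega), al_Z]
      have y1 : yy P k c j = Pc P k (c / 2) (j / 2) := by
        unfold yy; rw [if_pos hc2]; congr 1; omega
      have y2 : yy P k c (j + 1) = Pc P k (c / 2) (j / 2 + 1) := by
        unfold yy; rw [if_pos hc2]; congr 1; omega
      have y3 : yy P k (c + 1) j = P.ka * Pc P k (c / 2 + 1) (j / 2) := by
        unfold yy; rw [if_neg (by omega), if_pos hj2]; congr 2; omega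
      rw [y1, y2, y3, Pc_rec P k _ _ (by omega), MvPolynomial.C_add, add_smul]
      have : ∀ (u v w : D2 true 0 (RS O s × (ℕ → D2 true 0 (RS O s)))),
          u + v + (u + v) = 0 := fun u v _ => add_self_mod (O := O) _
      rw [this _ _ 0]
      exact zero_mem _
    · -- j odd
      rw [map_d_Z_odd _ (by omega) (by omega), alp_even (by omega), be_Z]
      have y1 : yy P k c j = Pc P k (c / 2) (j / 2 + 1) := by
        unfold yy; rw [if_pos hc2]; congr 1; omega
      have y2 : yy P k c (j + 1) = Pc P k (c / 2) (j / 2 + 1) := by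
        unfold yy; rw [if_pos hc2]; congr 1; omega
      have y3 : yy P k (c + 1) j = 0 := by
        unfold yy; rw [if_neg (by omega), if_neg (by omega)]
      rw [y1, y2, y3, MvPolynomial.C_0, zero_smul, add_zero, add_self_mod (O := O)]
      exact zero_mem _
  · -- c odd
    rw [if_neg (by omega)]
    have hT : ∀ (y : O) (i : ℕ), (yv O 1 * yv O 1) • (MvPolynomial.C y : S O) • Zi O s i +
        yv O 1 • mid O (yv O 1) ((MvPolynomial.C y : S O) • Zi O s i) +
        mid O (yv O 1 * yv O 1) ((MvPolynomial.C y : S O) • Zi O s i) +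
        (MvPolynomial.C P.ka : S O) • al O 0 ((MvPolynomial.C y : S O) • Zi O s i) +
        (MvPolynomial.C P.ta : S O) • (MvPolynomial.C y : S O) • Zi O s i =
      (MvPolynomial.C y : S O) • ((yv O 1 * yv O 1) • Zi O s i + yv O 1 • mid O (yv O 1) (Zi O s i) +
      mid O (yv O 1 * yv O 1) (Zi O s i) + (MvPolynomial.C P.ka : S O) • al O 0 (Zi O s i) +
      (MvPolynomial.C P.ta : S O) • Zi O s i) := by
      intro y i
      rw [map_smul, map_smul, map_smul]
      module
    rw [hT]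
    have fin : ∀ (y : O) (i : ℕ), (MvPolynomial.C (P.ka * y) : S O) • Fi O s i +
        (MvPolynomial.C y : S O) • ((yv O 1 * yv O 1) • Zi O s i + yv O 1 • mid O (yv O 1) (Zi O s i) +
      mid O (yv O 1 * yv O 1) (Zi O s i) + (MvPolynomial.C P.ka : S O) • al O 0 (Zi O s i) +
      (MvPolynomial.C P.ta : S O) • Zi O s i) ∈ N0 P (D2 true 0 (RS O s × (ℕ → D2 true 0 (RS O s)))) := by
      intro y i
      have h := Submodule.smul_mem _ (MvPolynomial.C y : S O) (hT_Z_mem (s := s) P i)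
      rw [smul_add, add_comm, smul_smul, mul_comm (MvPolynomial.C y : S O),
        ← MvPolynomial.C_mul] at h
      exact h
    rcases Nat.mod_two_eq_zero_or_one j with hj2 | hj2
    · -- j even
      rw [map_d_Z_odd _ (by omega) (by omega)]
      have y1 : yy P k c j = P.ka * Pc P k ((c + 1) / 2) (j / 2) := by
        unfold yy; rw [if_neg (by omega), if_pos hj2]
      have y2 : yy P k c (j + 1) = 0 := by
        unfold yy; rw [if_neg (by omega), if_neg (by omega)]
      have y3 : yy P k (c + 1) j = Pc P k ((c + 1) / 2) (j / 2) := by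
        unfold yy; rw [if_pos (by omega)]; congr 1; omega
      rw [y1, y2, y3, MvPolynomial.C_0, zero_smul, map_zero, add_zero]
      exact fin _ _
    · -- j odd
      have y1 : yy P k c j = 0 := by
        unfold yy; rw [if_neg (by omega), if_neg (by omega)]
      have y2 : yy P k c (j + 1) = P.ka * Pc P k ((c + 1) / 2) ((j + 1) / 2) := by
        unfold yy; rw [if_neg (by omega), if_pos (by omega)]
      have y3 : yy P k (c + 1) j = Pc P k ((c + 1) / 2) ((j + 1) / 2) := by
        unfold yy; rw [if_pos (by omega)]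
      rw [y1, y2, y3, MvPolynomial.C_0, zero_smul, zero_add, alp_even (by omega), map_smul, be_Z]
      exact fin _ _

/-- the last level -/
theorem last (j : ℕ) (hk : 1 ≤ k) (hj : j < 2 * k + 1) :
    D2.map (cd O (4 * k + 1) s) (Aa P s k (2 * k - 1) j) +
      alp O 0 (j + 1) (Aa P s k (2 * k - 1) (j + 1)) =
    zip O true 0 ((MvPolynomial.C P.ka : S O) • Uu O s k j) := by
  have hd : D2.map (cd O (4 * k + 1) s) (Aa P s k (2 * k - 1) j) =
      (MvPolynomial.C (yy P k (2 * k - 1) j) : S O) •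
        D2.map (cd O (4 * k + 1) s) (Zi O s (2 * k - 1 + j)) :=
    map_smul _ _ _
  have hU : zip O true 0 ((MvPolynomial.C P.ka : S O) • Uu O s k j) =
      (MvPolynomial.C (P.ka * uu O k j) : S O) • Fi O s (2 * k + j) := by
    unfold Uu
    rw [smul_smul, ← MvPolynomial.C_mul, map_smul]; rfl
  have hl : (2 * k - 1 + 1) / 2 = k := by omega
  have hP : ∀ t, t ≤ k → Pc P k k t = ((Nat.choose (k - 1) (k - t) : ℕ) : O) := by
    intro t ht
    unfold Pc
    rw [if_neg (by omega), if_neg (by omega), Nat.sub_self, pow_zero, mul_one]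
  rw [hU]
  unfold Aa at *
  rw [hd]
  have e1' : 2 * k - 1 + j + 1 = 2 * k + j := by omega
  have e2' : 2 * k - 1 + (j + 1) = 2 * k + j := by omega
  rw [e2']
  rcases Nat.mod_two_eq_zero_or_one j with hj2 | hj2
  · rw [map_d_Z_odd _ (by omega) (by omega), e1']
    have y1 : yy P k (2 * k - 1) j = P.ka * Pc P k k (j / 2) := by
      unfold yy; rw [if_neg (by omega), if_pos hj2, hl]
    have y2 : yy P k (2 * k - 1) (j + 1) = 0 := by
      unfold yy; rw [if_neg (by omega), if_neg (by omega)]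
    rw [y1, y2, MvPolynomial.C_0, zero_smul, map_zero, add_zero, hP _ (by omega)]
    unfold uu
    rw [if_pos hj]
    congr 4
    congr 1
    omega
  · have y1 : yy P k (2 * k - 1) j = 0 := by
      unfold yy; rw [if_neg (by omega), if_neg (by omega)]
    have y2 : yy P k (2 * k - 1) (j + 1) = P.ka * Pc P k k ((j + 1) / 2) := by
      unfold yy; rw [if_neg (by omega), if_pos (by omega), hl]
    rw [y1, y2, MvPolynomial.C_0, zero_smul, zero_add, alp_even (by omega), map_smul, be_Z,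
      hP _ (by omega)]
    unfold uu
    rw [if_pos hj]

/-- **H4**: the initial tower cycle of the test words, negative case -/
theorem initN [IsDomain O] (hk : 1 ≤ k) :
    TCycN P 1 (k - 1) (ColM 0 (2 * k + 1) (F2 true 1 false (ColP 0 (4 * k + 1) (R0 O s))))
      (P.ka ^ k) := by
  have hr : 2 * (k - 1) + 1 = 2 * k - 1 := by omega
  have key := IN.initN_gen (P := P) (C := ColP 0 (4 * k + 1) (R0 O s)) (n := 2 * k + 1)
    (A := Aa P s k) (U := Uu O s k) (a0 := a0 P s k)
    (fun j D => ctxNeg_h_zip P j D) (by omega) (k - 1) (a0_mem_HH P s k) (fun c j => Aa_mem_HH P s k c j)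
    (fun j => Uu_mem_HH s k j) (fun c j h => Aa_ge P s k c j h) (fun j h => Uu_ge s k j h)
    (d_a0 P s k) (fun c h => Aa_zero P s k c h) (Uu_zero s k hk)
    (fun c hc j hj => by
      have h := fl P s k c j hk (by omega) hj
      by_cases h1 : (c + 1) % 2 = 1
      · rw [if_pos h1] at h
        unfold IN.nu
        rw [if_pos h1]
        exact h
      · rw [if_neg h1] at h
        unfold IN.nu
        rw [if_neg h1]
        exact h)
    (fun j hj => by
      rw [hr]
      exact last P s k j hk hj)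
    (fun j hj => d_U s k j hj) (fun j => q_U P s k j)
  rw [ep_a0] at key
  exact key

end data

/-- the form used in the assembly -/
theorem initNeg [IsDomain O] (P : Pot O) (j : ℕ) :
    TCycN P 1 j (ColM 0 (2 * (j + 1) + 1)
      (F2 true 1 false (ColP 0 (4 * (j + 1) + 1) (R0 O (j + 3))))) (P.ka ^ (j + 1)) :=
  initN P (j + 3) (j + 1) (Nat.le_add_left 1 j)

end INI

end CQ
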