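import Pool.Agent.CQ.TowBase
import Pool.Agent.CQ.Ctx

/-!
# Block H5: the initial tower cycle of the positive tower over the test column
-/

set_option autoImplicit false
set_option linter.unusedSectionVars false
set_option linter.unusedSimpArgs false
set_option linter.style.longLine false

namespace CQ.IP

open MvPolynomial

variable {O : Type} [CommRing O] [CharP O 2]

/-! ## Operators on `D2 true 0 C` -/

section ops
variable {C D : Type} [AddCommGroup C] [Module (S O) C] [AddCommGroup D] [Module (S O) D]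

/-- `X_{i+1}` acting below the letter -/
noncomputable def mid (O : Type) [CommRing O] [CharP O 2] (i : ℕ) {C : Type} [AddCommGroup C]
    [Module (S O) C] : D2 true i C →ₗ[S O] D2 true i C :=
  D2.map (yv O (i + 1) • LinearMap.id)

@[simp] theorem mid_a {i : ℕ} (z : D2 true i C) : (mid O i z).a = yv O (i + 1) • z.a := rfl
@[simp] theorem mid_b {i : ℕ} (z : D2 true i C) : (mid O i z).b = yv O (i + 1) • z.b := rfl

theorem yi_a {i : ℕ} (z : D2 true i C) :
    (yv O i • z).a = (yv O i * yv O (i + 1)) • z.b := D2.X_smul_i_a z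
theorem yi_b {i : ℕ} (z : D2 true i C) :
    (yv O i • z).b = z.a + (yv O i + yv O (i + 1)) • z.b := D2.X_smul_i_b z
theorem yi1_a {i : ℕ} (z : D2 true i C) :
    (yv O (i + 1) • z).a = (yv O i + yv O (i + 1)) • z.a + (yv O i * yv O (i + 1)) • z.b :=
  D2.X_smul_succ_a z
theorem yi1_b {i : ℕ} (z : D2 true i C) : (yv O (i + 1) • z).b = z.a := D2.X_smul_succ_b z

theorem be_eq {i : ℕ} (z : D2 true i C) : be O i z = mid O i z + yv O i • z := by
  rw [be_apply]
  refine D2.ext ?_ ?_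
  · rw [zip_a, unzip_apply, D2.add_a, mid_a, yi_a]
    change yv O (i + 1) • (z.a + yv O i • z.b) = _
    module
  · rw [zip_b, unzip_apply, D2.add_b, mid_b, yi_b]
    change z.a + yv O i • z.b = _
    (match_scalars <;> (rw [← sub_eq_zero]; ring_nf <;>
          simp only [two0, three1, four0, five1, six0, seven1, eight0, mul_zero, zero_mul,
            add_zero, zero_add, neg_zero, sub_zero, sub_self, mul_one]))

theorem al_eq {i : ℕ} (z : D2 true i C) : al O i z = mid O i z + yv O (i + 1) • z := by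
  have h : al O i z = be O i z + e1 O true i • z := rfl
  rw [h, be_eq, e1_def]
  change mid O i z + yv O i • z + (yv O i + yv O (i + 1)) • z = _
  have h2 := add_self_mod (O := O) (yv O i • z)
  rw [add_smul]
  calc _ = mid O i z + (yv O i • z + yv O i • z) + yv O (i + 1) • z := by abel
    _ = _ := by rw [h2, add_zero]

theorem mid_nat {i : ℕ} (f : C →ₗ[S O] D) (z : D2 true i C) :
    mid O i (D2.map f z) = D2.map f (mid O i z) := by
  refine D2.ext ?_ ?_ <;> simp

/-- `h(t, mid)` -/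
noncomputable def hTM (P : Pot O) {C : Type} [AddCommGroup C] [Module (S O) C] :
    D2 true 0 C →ₗ[S O] D2 true 0 C :=
  (yv O 1 * yv O 1 + MvPolynomial.C P.ka * yv O 1 + MvPolynomial.C P.ta) • LinearMap.id +
    (yv O 1 + MvPolynomial.C P.ka) • mid O 0 + mid O 0 ∘ₗ mid O 0

theorem hTM_apply (P : Pot O) (z : D2 true 0 C) : hTM P z =
    (yv O 1 * yv O 1 + MvPolynomial.C P.ka * yv O 1 + MvPolynomial.C P.ta) • z +
    (yv O 1 + MvPolynomial.C P.ka) • mid O 0 z + mid O 0 (mid O 0 z) := rfl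

/-- `t + mid + y₂ + κ` -/
noncomputable def Kp (P : Pot O) {C : Type} [AddCommGroup C] [Module (S O) C] :
    D2 true 0 C →ₗ[S O] D2 true 0 C :=
  (yv O 1 + yv O 2 + MvPolynomial.C P.ka) • LinearMap.id + mid O 0

theorem Kp_apply (P : Pot O) (z : D2 true 0 C) :
    Kp P z = (yv O 1 + yv O 2 + MvPolynomial.C P.ka) • z + mid O 0 z := rfl

theorem hTM_nat (P : Pot O) (f : C →ₗ[S O] D) (z : D2 true 0 C) :
    hTM P (D2.map f z) = D2.map f (hTM P z) := by
  rw [hTM_apply, hTM_apply, mid_nat, mid_nat]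
  simp only [map_add, map_smul]

theorem Kp_nat (P : Pot O) (f : C →ₗ[S O] D) (z : D2 true 0 C) :
    Kp P (D2.map f z) = D2.map f (Kp P z) := by
  rw [Kp_apply, Kp_apply, mid_nat]
  simp only [map_add, map_smul]

/-- `h(X₁, X₂)` -/
noncomputable def h12 (P : Pot O) : S O := P.h (yv O 1) (yv O 2)

theorem h12_eq (P : Pot O) : h12 P = yv O 1 * yv O 1 + yv O 1 * yv O 2 + yv O 2 * yv O 2 +
    MvPolynomial.C P.ka * (yv O 1 + yv O 2) + MvPolynomial.C P.ta := by
  unfold h12 Pot.h
  rw [MvPolynomial.algebraMap_eq]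
  ring

theorem h12_hS (P : Pot O) : h12 P = hS P true 1 := rfl

/-- `h(mid, X₂)` -/
noncomputable def hM (P : Pot O) {C : Type} [AddCommGroup C] [Module (S O) C] :
    D2 true 0 C →ₗ[S O] D2 true 0 C := D2.map (h12 P • LinearMap.id)

theorem y2_a (z : D2 true 0 C) : (yv O 2 • z).a = yv O 2 • z.a :=
  D2.X_smul_a_of_ne _ (by simp) (by simp) z
theorem y2_b (z : D2 true 0 C) : (yv O 2 • z).b = yv O 2 • z.b :=
  D2.X_smul_b_of_ne _ (by simp) (by simp) z

theorem hM_eq (P : Pot O) (z : D2 true 0 C) : hM P z =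
    mid O 0 (mid O 0 z) + yv O 2 • mid O 0 z + yv O 2 • yv O 2 • z +
      (MvPolynomial.C P.ka : S O) • (mid O 0 z + yv O 2 • z) +
      (MvPolynomial.C P.ta : S O) • z := by
  refine D2.ext ?_ ?_
  · change h12 P • z.a = _
    simp only [D2.add_a, mid_a, y2_a, D2.C_smul_a, h12_eq]
    change _ = yv O 1 • yv O 1 • z.a + yv O 2 • yv O 1 • z.a + yv O 2 • yv O 2 • z.a +
      (MvPolynomial.C P.ka : S O) • (yv O 1 • z.a + yv O 2 • z.a) + _
    module
  · change h12 P • z.b = _
    simp only [D2.add_b, mid_b, y2_b, D2.C_smul_b, h12_eq]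
    change _ = yv O 1 • yv O 1 • z.b + yv O 2 • yv O 1 • z.b + yv O 2 • yv O 2 • z.b +
      (MvPolynomial.C P.ka : S O) • (yv O 1 • z.b + yv O 2 • z.b) + _
    module

/-- (id1) -/
theorem id1 (P : Pot O) (z : D2 true 0 C) :
    hTM P z + (yv O 1 + yv O 2) • Kp P z = hM P z := by
  rw [hTM_apply, Kp_apply, hM_eq]
  (match_scalars <;> (rw [← sub_eq_zero]; ring_nf <;>
          simp only [two0, three1, four0, five1, six0, seven1, eight0, mul_zero, zero_mul,
            add_zero, zero_add, neg_zero, sub_zero, sub_self, mul_one]))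

/-- (id2) -/
theorem id2 (P : Pot O) (z : D2 true 0 C) :
    Kp P (al O 0 z) + h12 P • z = hM P z := by
  rw [Kp_apply, hM_eq, al_eq, map_add, map_smul, h12_eq]
  (match_scalars <;> (rw [← sub_eq_zero]; ring_nf <;>
          simp only [two0, three1, four0, five1, six0, seven1, eight0, mul_zero, zero_mul,
            add_zero, zero_add, neg_zero, sub_zero, sub_self, mul_one]))

end ops

/-! ## The key identity -/

section KI
variable {P : Pot O} {C D : Type} [AddCommGroup C] [Module (S O) C] [AddCommGroup D]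
  [Module (S O) D]

/-- `X₁` acting below the letter -/
noncomputable def mid1 (O : Type) [CommRing O] [CharP O 2] {C : Type} [AddCommGroup C]
    [Module (S O) C] : D2 true 1 C →ₗ[S O] D2 true 1 C := D2.map (yv O 1 • LinearMap.id)

@[simp] theorem mid1_a (z : D2 true 1 C) : (mid1 O z).a = yv O 1 • z.a := rfl
@[simp] theorem mid1_b (z : D2 true 1 C) : (mid1 O z).b = yv O 1 • z.b := rfl

/-- `(x₁ + κ + x₁^mid) split (zip z)` -/
noncomputable def GG (P : Pot O) {C : Type} [AddCommGroup C] [Module (S O) C] :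
    C →ₗ[S O] D2 true 1 (D2 true 1 C) :=
  ((xv O 1 + MvPolynomial.C P.ka) • LinearMap.id + mid1 O) ∘ₗ split O true 1 ∘ₗ zip O true 1

theorem GG_apply (z : C) : GG P z =
    (xv O 1 + MvPolynomial.C P.ka) • split O true 1 (zip O true 1 z) +
      mid1 O (split O true 1 (zip O true 1 z)) := rfl

theorem GG_nat (f : C →ₗ[S O] D) (z : C) : GG P (f z) = D2.map (D2.map f) (GG P z) := by
  rw [GG_apply, GG_apply, zip_nat, split_nat, map_add, map_smul]
  congr 1
  refine D2.ext ?_ ?_ <;> simp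

theorem Da_y {t : Bool} {i : ℕ} (s : S O) (z : D2 t i C) (hs : ∀ w : D2 t i C, s • w = ⟨s • w.a, s • w.b⟩) :
    s • (⟨z.a, 0⟩ : D2 t i C) = ⟨s • z.a, 0⟩ := by
  rw [hs]; simp

theorem y0_smul_D1 (z : D2 true 1 C) : yv O 0 • z = ⟨yv O 0 • z.a, yv O 0 • z.b⟩ :=
  D2.ext (D2.X_smul_a_of_ne _ (by simp) (by simp) z) (D2.X_smul_b_of_ne _ (by simp) (by simp) z)

theorem xv_smul_D {i : ℕ} (j : ℕ) (z : D2 true i C) : xv O j • z = ⟨xv O j • z.a, xv O j • z.b⟩ :=
  D2.ext (D2.X_smul_a_of_ne _ (by simp) (by simp) z) (D2.X_smul_b_of_ne _ (by simp) (by simp) z)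

theorem y2_smul_D0 (z : D2 true 0 C) : yv O 2 • z = ⟨yv O 2 • z.a, yv O 2 • z.b⟩ :=
  D2.ext (y2_a z) (y2_b z)

theorem y01_smul_D0 (z : D2 true 0 C) :
    (yv O 0 + yv O 1) • z = ⟨(yv O 0 + yv O 1) • z.a, (yv O 0 + yv O 1) • z.b⟩ := D2.e1_smul z

theorem y01m_smul_D0 (z : D2 true 0 C) :
    (yv O 0 * yv O 1) • z = ⟨(yv O 0 * yv O 1) • z.a, (yv O 0 * yv O 1) • z.b⟩ := D2.e2_smul z

theorem y12_smul_D1 (z : D2 true 1 C) :
    (yv O 1 + yv O 2) • z = ⟨(yv O 1 + yv O 2) • z.a, (yv O 1 + yv O 2) • z.b⟩ := D2.e1_smul z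

/-- `s ↦ s ⊗ 1 ⊗ 1` -/
def emb (s : C) : D2 true 1 (D2 true 0 C) := ⟨⟨s, 0⟩, 0⟩

theorem emb_add (s s' : C) : emb (s + s') = emb s + emb s' := by
  refine D2.ext (D2.ext ?_ ?_) ?_ <;> simp [emb]

theorem emb_x (j : ℕ) (s : C) : emb (xv O j • s) = xv O j • emb s := by
  rw [emb, emb, xv_smul_D]
  refine D2.ext ?_ ?_
  · change _ = xv O j • (⟨s, 0⟩ : D2 true 0 C)
    rw [xv_smul_D]; simp
  · simp

theorem emb_C (o : O) (s : C) : emb ((MvPolynomial.C o : S O) • s) = (MvPolynomial.C o : S O) • emb s := by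
  refine D2.ext (D2.ext ?_ ?_) ?_ <;> simp [emb]

theorem emb_r (s : C) : emb ((yv O 0 + yv O 1 + yv O 2) • s) = (yv O 0 + yv O 1 + yv O 2) • emb s := by
  have h1 : (yv O 0 + yv O 1 + yv O 2) • emb s =
      yv O 0 • emb s + (yv O 1 + yv O 2) • emb s := by module
  rw [h1, y0_smul_D1, y12_smul_D1]
  refine D2.ext ?_ ?_
  · change (⟨(yv O 0 + yv O 1 + yv O 2) • s, 0⟩ : D2 true 0 C) =
      yv O 0 • (⟨s, 0⟩ : D2 true 0 C) + (yv O 1 + yv O 2) • (⟨s, 0⟩ : D2 true 0 C)
    have h2 : yv O 0 • (⟨s, 0⟩ : D2 true 0 C) + (yv O 1 + yv O 2) • (⟨s, 0⟩ : D2 true 0 C) =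
      (yv O 0 + yv O 1) • (⟨s, 0⟩ : D2 true 0 C) + yv O 2 • (⟨s, 0⟩ : D2 true 0 C) := by module
    rw [h2, y01_smul_D0, y2_smul_D0]
    refine D2.ext ?_ ?_
    · change _ = (yv O 0 + yv O 1) • s + yv O 2 • s
      module
    · simp
  · simp [emb]

theorem emb_y01 (s : C) : emb ((yv O 0 * yv O 1) • s) =
    yv O 0 • (⟨yv O 1 • (⟨s, 0⟩ : D2 true 0 C), 0⟩ : D2 true 1 (D2 true 0 C)) := by
  rw [y0_smul_D1]
  refine D2.ext ?_ ?_
  · change (⟨(yv O 0 * yv O 1) • s, 0⟩ : D2 true 0 C) = yv O 0 • yv O 1 • (⟨s, 0⟩ : D2 true 0 C)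
    rw [smul_smul, y01m_smul_D0]; simp
  · simp [emb]

theorem psi_emb {c : ℕ → O} (h0 : c 0 = 0) (ψ : D2 true 1 (D2 true 0 C) →ₛₗ[ev c] O)
    (z : D2 true 0 C) : ψ ⟨z, 0⟩ = ψ (emb z.a) := by
  have h : (⟨z, 0⟩ : D2 true 1 (D2 true 0 C)) = emb z.a +
      yv O 0 • (emb z.b : D2 true 1 (D2 true 0 C)) := by
    rw [y0_smul_D1]
    refine D2.ext ?_ ?_
    · change z = ⟨z.a, 0⟩ + yv O 0 • (⟨z.b, 0⟩ : D2 true 0 C)
      refine D2.ext ?_ ?_
      · rw [D2.add_a, yi_a]; simp
      · rw [D2.add_b, yi_b]; simp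
    · simp [emb]
  rw [h, map_add, map_smulₛₗ, ev_inr, h0, zero_smul, add_zero]

/-- the first coordinates, all elements of `HH (D2 true 0 C)` are `(x₁ + y₀) ⟨u, 0⟩` -/
theorem HH_form {ζ : D2 true 0 C} (hζ : ζ ∈ HH O (D2 true 0 C)) :
    ζ = (xv O 1 + yv O 0) • (⟨ζ.b, 0⟩ : D2 true 0 C) := by
  have h := HH_D2_a hζ
  rw [add_smul, xv_smul_D]
  refine D2.ext ?_ ?_
  · rw [D2.add_a, yi_a]; simp [h]
  · rw [D2.add_b, yi_b]; simp

theorem keyI {ζ : D2 true 0 C} (hζ : ζ ∈ HH O (D2 true 0 C)) :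
    zip O true 1 (Kp P (D2.map (zip O true 1) (split O true 0 ζ))) +
      D2.map (zip O true 0) (GG P ζ) ∈ N0 P (D2 true 1 (D2 true 0 (D2 true 1 (D2 true 0 C)))) := by
  intro c hc h0 ψ
  have hHH : zip O true 1 (Kp P (D2.map (zip O true 1) (split O true 0 ζ))) +
      D2.map (zip O true 0) (GG P ζ) ∈ HH O (D2 true 1 (D2 true 0 (D2 true 1 (D2 true 0 C)))) :=
    add_mem (map_mem_HH _ (map_mem_HH _ (map_mem_HH _ (map_mem_HH _ hζ))))
      (map_mem_HH _ (map_mem_HH _ hζ))
  rw [lemV ψ hHH, psi_emb h0]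
  -- the coordinates
  set e : D2 true 0 C := ⟨ζ.b, 0⟩ with he
  set E0 : D2 true 1 (D2 true 0 C) := ⟨e, 0⟩ with hE0
  have hu2 : yv O 2 • ζ.b = xv O 2 • ζ.b := by
    have h := congrArg D2.b (hζ 2)
    rw [y2_b, xv_smul_D] at h
    exact h.symm
  have hze : zip O true 1 e = (xv O 2 + yv O 1) • E0 := by
    rw [add_smul, xv_smul_D]
    refine D2.ext ?_ ?_
    · rw [D2.add_a, yi_a, zip_a]
      change yv O 2 • e = xv O 2 • e + _ • (0 : D2 true 0 C)
      rw [smul_zero, add_zero, y2_smul_D0, xv_smul_D]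
      refine D2.ext hu2 ?_
      simp [he]
    · rw [D2.add_b, yi_b, zip_b]; simp [hE0]
  have hζe : ζ = (xv O 1 + yv O 0) • e := HH_form hζ
  have hG0 : (⟨ζ, 0⟩ : D2 true 1 (D2 true 0 C)) = (xv O 1 + yv O 0) • E0 := by
    rw [add_smul, xv_smul_D, y0_smul_D1]
    refine D2.ext ?_ ?_
    · rw [D2.add_a]
      change ζ = xv O 1 • e + yv O 0 • e
      rw [← add_smul]; exact hζe
    · simp [hE0]
  have hVb : (D2.map (zip O true 1) (split O true 0 ζ)).b = (xv O 2 + yv O 1) • E0 := by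
    rw [← hze]; rfl
  have hVa : (D2.map (zip O true 1) (split O true 0 ζ)).a = (xv O 1 * (xv O 2 + yv O 1)) • E0 := by
    rw [mul_smul, ← hze, ← map_smul, xv_smul_D]
    change zip O true 1 (⟨ζ.a, 0⟩ : D2 true 0 C) = _
    rw [HH_D2_a hζ]
    congr 1
    refine D2.ext rfl ?_
    simp [he]
  have hb : (zip O true 1 (Kp P (D2.map (zip O true 1) (split O true 0 ζ))) +
      D2.map (zip O true 0) (GG P ζ)).b.a =
      (xv O 1 * xv O 2 * (xv O 1 + xv O 2 + MvPolynomial.C P.ka)) • E0 +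
      ((yv O 0 + yv O 1 + yv O 2) • (xv O 1 * xv O 2 + xv O 1 * yv O 1) • E0 +
        (xv O 1 + xv O 2) • (xv O 1 * xv O 2 + xv O 1 * yv O 1) • E0) +
      (yv O 0 * yv O 1) • (xv O 1 + xv O 2 + MvPolynomial.C P.ka) • E0 := by
    have h1 : (zip O true 1 (Kp P (D2.map (zip O true 1) (split O true 0 ζ))) +
      D2.map (zip O true 0) (GG P ζ)).b.a =
        (Kp P (D2.map (zip O true 1) (split O true 0 ζ))).a +
        yv O 1 • (GG P ζ).b := rfl
    have h2 : (GG P ζ).b = (xv O 1 + MvPolynomial.C P.ka) • (⟨ζ, 0⟩ : D2 true 1 (D2 true 0 C)) +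
        yv O 1 • (⟨ζ, 0⟩ : D2 true 1 (D2 true 0 C)) := by
      rw [GG_apply, D2.add_b, add_smul, add_smul, D2.add_b, xv_smul_D, D2.C_smul_b]
      rfl
    rw [h1, h2, hG0, Kp_apply, D2.add_a, mid_a]
    have h3 : ∀ z : D2 true 0 (D2 true 1 (D2 true 0 C)),
        ((yv O 1 + yv O 2 + MvPolynomial.C P.ka) • z).a =
        (yv O 0 + yv O 1) • z.a + (yv O 0 * yv O 1) • z.b + yv O 2 • z.a +
          (MvPolynomial.C P.ka : S O) • z.a := by
      intro z
      rw [add_smul, add_smul, D2.add_a, D2.add_a, D2.C_smul_a, y2_a]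
      rw [yi1_a (i := 0)]
    rw [h3, hVa, hVb]
    (match_scalars <;> (rw [← sub_eq_zero]; ring_nf <;>
          simp only [two0, three1, four0, five1, six0, seven1, eight0, mul_zero, zero_mul,
            add_zero, zero_add, neg_zero, sub_zero, sub_self, mul_one]))
  rw [hb, emb_add, emb_add, emb_add, emb_r, emb_y01]
  have e1 : ∀ X : D2 true 1 (D2 true 0 C),
      emb ((xv O 1 * xv O 2 * (xv O 1 + xv O 2 + MvPolynomial.C P.ka)) • X) =
      (xv O 1 * xv O 2 * (xv O 1 + xv O 2 + MvPolynomial.C P.ka)) • emb X := by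
    intro X
    simp only [mul_smul, add_smul, emb_x, emb_C, emb_add]
  have e2 : ∀ X : D2 true 1 (D2 true 0 C),
      emb ((xv O 1 + xv O 2) • X) = (xv O 1 + xv O 2) • emb X := by
    intro X
    simp only [add_smul, emb_x, emb_add]
  rw [e1, e2, map_add, map_add, map_add, map_smulₛₗ, map_smulₛₗ, map_smulₛₗ, map_smulₛₗ]
  simp only [map_add, map_mul, ev_inl, ev_inr, ev_C, smul_eq_mul, h0]
  have hcol : (c 1 + c 2) * (c 1 * c 2 * (c 1 + c 2 + P.ka)) = 0 := by
    have h2 : (2 : O) = 0 := two0 O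
    unfold Pot.ka
    rcases hc 1 with h | h | h <;> rcases hc 2 with h' | h' | h' <;> rw [h, h']
    · ring
    · ring
    · ring
    · ring
    · linear_combination (P.l2 * P.l2 * P.l2 * (P.l2 + P.l2 + (P.l2 + P.l3))) * h2
    · linear_combination ((P.l2 + P.l3) * (P.l2 * P.l3) * (P.l2 + P.l3)) * h2
    · ring
    · linear_combination ((P.l2 + P.l3) * (P.l2 * P.l3) * (P.l2 + P.l3)) * h2
    · linear_combination (P.l3 * P.l3 * P.l3 * (P.l3 + P.l3 + (P.l2 + P.l3))) * h2
  have h2 : (2 : O) = 0 := two0 O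
  linear_combination (ψ (emb E0)) * hcol + (c 1 + c 2) * (c 1 + c 2) *
    (ψ (emb ((xv O 1 * xv O 2 + xv O 1 * yv O 1) • E0))) * h2

end KI

/-! ## More on `N0` -/

section N0
variable {P : Pot O} {C D : Type} [AddCommGroup C] [Module (S O) C] [AddCommGroup D]
  [Module (S O) D]

theorem smul_mem_N0_of {s : S O} (hs : ∀ c : ℕ → O, P.IsCol c → c 0 = 0 → ev c s = 0) (z : C) :
    s • z ∈ N0 P C := fun c hc h0 ψ => by
  rw [map_smulₛₗ, hs c hc h0, zero_smul]

theorem ev_h12 (c : ℕ → O) : ev c (h12 P) = P.h (c 1) (c 2) := ev_hS P true 1 c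

theorem h_zero (P : Pot O) : P.h (0 : O) (0 : O) = P.ta := by
  unfold Pot.h
  simp

/-- `(X₁ + X₂) h(X₁, X₂)` is negligible -/
theorem mu_h12_mem_N0 (z : C) : ((yv O 1 + yv O 2) * h12 P) • z ∈ N0 P C := by
  refine smul_mem_N0_of (fun c hc _ => ?_) z
  rw [map_mul, map_add, ev_h12, ev_inr, ev_inr]
  by_cases h : c 1 = c 2
  · rw [h, CharTwo.add_self_eq_zero, zero_mul]
  · rw [P.h_root (hc 1) (hc 2) h, mul_zero]

theorem h12_zip_mem_N0 {z : C} (hz : z ∈ HH O C) : h12 P • zip O true 1 z ∈ N0 P (D2 true 1 C) :=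
  NN_le_N0 (negMap_h_zip P true 1 C z hz)

theorem mem_HH_D2_prod {t : Bool} {i : ℕ} {z : D2 t i (C × D)}
    (h1 : D2.map (LinearMap.fst (S O) C D) z ∈ HH O (D2 t i C))
    (h2 : D2.map (LinearMap.snd (S O) C D) z ∈ HH O (D2 t i D)) : z ∈ HH O (D2 t i (C × D)) := by
  intro j
  have e1 := h1 j
  have e2 := h2 j
  rw [← map_smul, ← map_smul] at e1 e2
  exact D2.ext (Prod.ext (congrArg D2.a e1) (congrArg D2.a e2))
    (Prod.ext (congrArg D2.b e1) (congrArg D2.b e2))

theorem mem_HH_D2_pi {t : Bool} {i : ℕ} {z : D2 t i (ℕ → D)}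
    (h : ∀ j, D2.map (LinearMap.proj (R := S O) (φ := fun _ : ℕ => D) j) z ∈ HH O (D2 t i D)) :
    z ∈ HH O (D2 t i (ℕ → D)) := by
  intro l
  have e : ∀ j, D2.map (LinearMap.proj (R := S O) (φ := fun _ : ℕ => D) j) (xv O l • z) =
      D2.map (LinearMap.proj (R := S O) (φ := fun _ : ℕ => D) j) (yv O l • z) := by
    intro j
    rw [map_smul, map_smul]; exact h j l
  exact D2.ext (funext fun j => congrArg D2.a (e j)) (funext fun j => congrArg D2.b (e j))

end N0

/-! ## `ν`, `K'` and the general lemma -/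

section gen
variable {P : Pot O} {C D : Type} [AddCommGroup C] [Module (S O) C] [AddCommGroup D]
  [Module (S O) D]

/-- `K'_a` -/
noncomputable def Kq (P : Pot O) (a : ℕ) {C : Type} [AddCommGroup C] [Module (S O) C] :
    D2 true 0 C →ₗ[S O] D2 true 0 C := if a % 2 = 1 then Kp P else LinearMap.id

/-- `ν_a` -/
noncomputable def nuP (P : Pot O) (a : ℕ) {C : Type} [AddCommGroup C] [Module (S O) C] :
    D2 true 0 C →ₗ[S O] D2 true 0 C := if a % 2 = 1 then al O 0 else hTM P

theorem idK (a : ℕ) (z : D2 true 0 C) :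
    Kq P (a + 1) (nuP P (a + 1) z) + muv P a 1 • Kq P a z = hM P z := by
  rcases Nat.mod_two_eq_zero_or_one a with h | h
  · have h' : (a + 1) % 2 = 1 := by omega
    have h'' : ¬ (a % 2 = 1) := by omega
    simp only [Kq, nuP, muv, h', if_true, if_neg h'']
    exact id2 P z
  · have h' : ¬ ((a + 1) % 2 = 1) := by omega
    simp only [Kq, nuP, muv, h, if_true, if_neg h']
    exact id1 P z

theorem Kp_al_eq (z : D2 true 0 C) :
    Kp P z = (yv O 2 + MvPolynomial.C P.ka) • z + al O 0 z := by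
  rw [Kp_apply, al_eq]
  module

theorem al_al_comm_be (z : D2 true 0 C) : al O 0 (be O 0 z) = be O 0 (al O 0 z) := by
  rw [al_be, be_al]

theorem Kp_al (z : D2 true 0 C) : Kp P (al O 0 z) = al O 0 (Kp P z) := by
  rw [Kp_al_eq, Kp_al_eq, map_add, map_smul]

theorem Kp_be (z : D2 true 0 C) : Kp P (be O 0 z) = be O 0 (Kp P z) := by
  rw [Kp_al_eq, Kp_al_eq, map_add, map_smul, al_be, be_al]

theorem Kq_alp (a j : ℕ) (z : D2 true 0 C) : Kq P a (alp O 0 j z) = alp O 0 j (Kq P a z) := by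
  unfold Kq alp
  split_ifs
  · exact Kp_al z
  · exact Kp_be z
  · rfl
  · rfl

theorem Kq_nat (a : ℕ) (f : C →ₗ[S O] D) (z : D2 true 0 C) :
    Kq P a (D2.map f z) = D2.map f (Kq P a z) := by
  unfold Kq
  split_ifs
  · exact Kp_nat P f z
  · rfl

/-- functoriality of the columns on modules -/
noncomputable def colMap (i : ℕ) {C D : Type} [AddCommGroup C] [Module (S O) C] [AddCommGroup D]
    [Module (S O) D] (f : C →ₗ[S O] D) :
    (C × (ℕ → D2 true i C)) →ₗ[S O] (D × (ℕ → D2 true i D)) where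
  toFun z := (f z.1, fun j => D2.map f (z.2 j))
  map_add' z w := by
    refine Prod.ext (map_add f _ _) (funext fun j => ?_)
    exact map_add (D2.map f) _ _
  map_smul' s z := by
    refine Prod.ext (map_smul f _ _) (funext fun j => ?_)
    exact map_smul (D2.map f) _ _

theorem colMap_fst (i : ℕ) (f : C →ₗ[S O] D) (z : C × (ℕ → D2 true i C)) :
    (colMap i f z).1 = f z.1 := rfl
theorem colMap_snd (i : ℕ) (f : C →ₗ[S O] D) (z : C × (ℕ → D2 true i C)) (j : ℕ) :
    (colMap i f z).2 j = D2.map f (z.2 j) := rfl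

theorem colPin_colMap (i n : ℕ) (f : C →ₗ[S O] D) (z : C × (ℕ → D2 true i C)) (j : ℕ) :
    colPin O i n (colMap i f z) j = D2.map f (colPin O i n z j) := by
  by_cases h : j < n
  · rcases j with _ | j
    · rw [colPin_zero _ _ h, colPin_zero _ _ h, colMap_fst, zip_nat]
    · rw [colPin_succ _ _ _ h, colPin_succ _ _ _ h, colMap_snd, alp_nat]
  · rw [colPin_ge _ _ _ (by omega), colPin_ge _ _ _ (by omega), map_zero]

theorem ColP_d_colMap (i n : ℕ) {C D : DM O} (f g : C.V →ₗ[S O] D.V)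
    (hf : ∀ z, D.d (f z) = f (C.d z) + g z) (z : (ColP i n C).V) :
    (ColP i n D).d (colMap i f z) = colMap i f ((ColP i n C).d z) + colMap i g z := by
  refine Prod.ext (hf _) (funext fun j => ?_)
  change D2.map D.d (D2.map f (z.2 j)) + colPin O i n (colMap i f z) j =
    D2.map f (D2.map C.d (z.2 j) + colPin O i n z j) + D2.map g (z.2 j)
  have h : D2.map D.d (D2.map f (z.2 j)) = D2.map f (D2.map C.d (z.2 j)) + D2.map g (z.2 j) := by
    refine D2.ext ?_ ?_ <;> simp [hf]
  rw [h, colPin_colMap, map_add]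
  abel

/-- the map `K'` on the dumbbell part of a column -/
noncomputable def KC (P : Pot O) (a : ℕ) {C : Type} [AddCommGroup C] [Module (S O) C] :
    (C × (ℕ → D2 true 0 C)) →ₗ[S O] (C × (ℕ → D2 true 0 C)) where
  toFun z := (z.1, fun j => Kq P a (z.2 j))
  map_add' z w := by
    refine Prod.ext rfl (funext fun j => ?_)
    exact map_add (Kq P a) _ _
  map_smul' s z := by
    refine Prod.ext rfl (funext fun j => ?_)
    exact map_smul (Kq P a) _ _

theorem KC_d (n a : ℕ) {C : DM O} (f : ℕ → D2 true 0 C.V) :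
    (ColP 0 n C).d ((0, fun j => Kq P a (f j)) : C.V × (ℕ → D2 true 0 C.V)) =
      KC P a ((ColP 0 n C).d ((0, f) : C.V × (ℕ → D2 true 0 C.V))) := by
  refine Prod.ext rfl (funext fun j => ?_)
  change D2.map C.d (Kq P a (f j)) + colPin O 0 n ((0, fun j => Kq P a (f j)) :
    C.V × (ℕ → D2 true 0 C.V)) j = Kq P a (D2.map C.d (f j) + colPin O 0 n
      ((0, f) : C.V × (ℕ → D2 true 0 C.V)) j)
  rw [map_add, Kq_nat]
  congr 1
  by_cases h : j < n
  · rcases j with _ | j
    · rw [colPin_zero _ _ h, colPin_zero _ _ h]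
      change zip O true 0 (0 : C.V) = Kq P a (zip O true 0 (0 : C.V))
      rw [map_zero, map_zero]
    · rw [colPin_succ _ _ _ h, colPin_succ _ _ _ h]
      change alp O 0 (j + 1) (Kq P a (f j)) = Kq P a (alp O 0 (j + 1) (f j))
      rw [Kq_alp]
  · rw [colPin_ge _ _ _ (by omega), colPin_ge _ _ _ (by omega), map_zero]

/-- the inclusion `j₁ = inr ∘ zip₁` -/
noncomputable def j1 (O : Type) [CommRing O] [CharP O 2] (C : Type) [AddCommGroup C]
    [Module (S O) C] : C →ₗ[S O] C × D2 true 1 C :=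
  LinearMap.inr (S O) C (D2 true 1 C) ∘ₗ zip O true 1

/-- an element of a column -/
def cel (n : ℕ) (C : DM O) (u : C.V) (f : ℕ → D2 true 0 C.V) : (ColP 0 n C).V := (u, f)

/-- `j₁` as a map into `F2` -/
noncomputable def fj1 (C : DM O) : C.V →ₗ[S O] (F2 true 1 true C).V := j1 O C.V

/-- `inl` as a map into `F2` -/
noncomputable def finl (C : DM O) : C.V →ₗ[S O] (F2 true 1 true C).V :=
  LinearMap.inl (S O) C.V (D2 true 1 C.V)

/-- `inr` as a map into `F2` -/
noncomputable def finr (C : DM O) : D2 true 1 C.V →ₗ[S O] (F2 true 1 true C).V :=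
  LinearMap.inr (S O) C.V (D2 true 1 C.V)

/-- `j₁` on columns -/
noncomputable def cj1 (n : ℕ) (C : DM O) :
    (ColP 0 n C).V →ₗ[S O] (ColP 0 n (F2 true 1 true C)).V := colMap 0 (fj1 C)

/-- `inl` on columns -/
noncomputable def cinl (n : ℕ) (C : DM O) :
    (ColP 0 n C).V →ₗ[S O] (ColP 0 n (F2 true 1 true C)).V := colMap 0 (finl C)

/-- `K'` on columns -/
noncomputable def cK (P : Pot O) (a n : ℕ) (C : DM O) :
    (ColP 0 n C).V →ₗ[S O] (ColP 0 n C).V := KC P a

theorem F2_inl {C : DM O} (z : C.V) :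
    (F2 true 1 true C).d (finl C z) = finl C (C.d z) + fj1 C z := by
  refine Prod.ext ?_ ?_
  · change C.d z = C.d z + 0
    rw [add_zero]
  · change zip O true 1 z + D2.map C.d (0 : D2 true 1 C.V) = 0 + zip O true 1 z
    rw [map_zero, add_comm]

theorem F2_j1 {C : DM O} (z : C.V) :
    (F2 true 1 true C).d (fj1 C z) = fj1 C (C.d z) + (0 : C.V →ₗ[S O] (F2 true 1 true C).V) z := by
  refine Prod.ext ?_ ?_
  · change C.d 0 = 0 + 0
    rw [map_zero, add_zero]
  · change zip O true 1 (0 : C.V) + D2.map C.d (zip O true 1 z) = zip O true 1 (C.d z) + 0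
    rw [map_zero, zip_nat, zero_add, add_zero]

theorem d_cinl (n : ℕ) {C : DM O} (z : (ColP 0 n C).V) :
    (ColP 0 n (F2 true 1 true C)).d (cinl n C z) = cinl n C ((ColP 0 n C).d z) + cj1 n C z :=
  ColP_d_colMap 0 n (C := C) (D := F2 true 1 true C) (finl C) (fj1 C) F2_inl z

theorem d_cj1 (n : ℕ) {C : DM O} (z : (ColP 0 n C).V) :
    (ColP 0 n (F2 true 1 true C)).d (cj1 n C z) = cj1 n C ((ColP 0 n C).d z) := by
  have h := ColP_d_colMap 0 n (C := C) (D := F2 true 1 true C) (fj1 C) 0 F2_j1 z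
  refine h.trans ?_
  have h3 : colMap 0 (0 : C.V →ₗ[S O] (F2 true 1 true C).V) z = 0 := by
    refine Prod.ext rfl (funext fun j => ?_)
    change D2.map (0 : C.V →ₗ[S O] (F2 true 1 true C).V) (z.2 j) = 0
    rw [D2.map_zero]; rfl
  rw [h3, add_zero]; rfl

end gen

section general
variable [IsDomain O] {P : Pot O} {C : DM O} {n r : ℕ} {a0 : C.V} {A : ℕ → ℕ → D2 true 0 C.V}

theorem hM_mem {f : ℕ → D2 true 0 C.V}
    (hf : ∀ j, f j ∈ HH O (D2 true 0 C.V)) (hn : ∀ j, n ≤ j → f j = 0) :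
    cj1 n C (cel n C 0 (fun j => hM P (f j))) ∈ N0 P (ColP 0 n (F2 true 1 true C)).V := by
  refine mem_N0_prod ?_ ?_
  · change j1 O C.V 0 ∈ _
    rw [map_zero]; exact zero_mem _
  · refine mem_N0_pi (D := D2 true 0 (F2 true 1 true C).V) n (fun j => ?_) (fun j hj => ?_)
    · change D2.map (fj1 C) (hM P (f j)) ∈ _
      have e : D2.map (fj1 C) (hM P (f j)) =
          D2.map (finr C)
            (D2.map (hS P true 1 • (zip O true 1 : C.V →ₗ[S O] D2 true 1 C.V)) (f j)) := by
        refine D2.ext ?_ ?_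
        · change finr C (zip O true 1 (h12 P • (f j).a)) =
            finr C (hS P true 1 • zip O true 1 (f j).a)
          rw [map_smul (zip O true 1)]; rfl
        · change finr C (zip O true 1 (h12 P • (f j).b)) =
            finr C (hS P true 1 • zip O true 1 (f j).b)
          rw [map_smul (zip O true 1)]; rfl
      rw [e]
      refine map_mem_N0 _ (NN_le_N0 ?_)
      exact ctxNeg_h_zip P 1 ⟨C.V⟩ [0] (f j) (hf j)
    · change D2.map (fj1 C) (hM P (f j)) = 0
      rw [hn j hj, map_zero, map_zero]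

/-- first level: the step -/
theorem first_step (h1 : ∀ a, a < 2 * r + 1 →
      (ColP 0 n C).d (cel n C 0 (A (a + 1))) + cel n C 0 (fun j => nuP P (a + 1) (A a j)) ∈
          N0 P (ColP 0 n C).V) (a : ℕ) (ha : a < 2 * r + 1) :
    (ColP 0 n (F2 true 1 true C)).d (cj1 n C (cel n C 0 (fun j => Kq P (a + 1) (A (a + 1) j)))) +
      cj1 n C (cel n C 0 (fun j => Kq P (a + 1) (nuP P (a + 1) (A a j)))) ∈
      N0 P (ColP 0 n (F2 true 1 true C)).V := by
  have h := map_mem_N0 (cj1 n C ∘ₗ cK P (a + 1) n C) (h1 a ha)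
  rw [map_add] at h
  rw [d_cj1]
  have e1 : (ColP 0 n C).d (cel n C 0 (fun j => Kq P (a + 1) (A (a + 1) j))) =
      cK P (a + 1) n C ((ColP 0 n C).d (cel n C 0 (A (a + 1)))) := KC_d n (a + 1) (A (a + 1))
  rw [e1]
  exact h

/-- the second step -/
theorem second_step (hA : ∀ a j, A a j ∈ HH O (D2 true 0 C.V)) (hn : ∀ a j, n ≤ j → A a j = 0)
    (a : ℕ) :
    cj1 n C (cel n C 0 (fun j => Kq P (a + 1) (nuP P (a + 1) (A a j)))) +
      muv P a 1 • cj1 n C (cel n C 0 (fun j => Kq P a (A a j))) ∈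
      N0 P (ColP 0 n (F2 true 1 true C)).V := by
  have e : cj1 n C (cel n C 0 (fun j => Kq P (a + 1) (nuP P (a + 1) (A a j)))) +
      muv P a 1 • cj1 n C (cel n C 0 (fun j => Kq P a (A a j))) =
      cj1 n C (cel n C 0 (fun j => hM P (A a j))) := by
    rw [← map_smul, ← map_add]
    congr 1
    refine Prod.ext ?_ (funext fun j => ?_)
    · change (0 : C.V) + muv P a 1 • (0 : C.V) = 0
      rw [smul_zero, add_zero]
    · exact idK a (A a j)
  rw [e]
  exact hM_mem (hA a) (hn a)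

/-- the general lemma: first-level data give a tower cycle -/
theorem tcycP_of_first (ha0 : a0 ∈ HH O C.V) (hA : ∀ a j, A a j ∈ HH O (D2 true 0 C.V))
    (hn : ∀ a j, n ≤ j → A a j = 0)
    (h0 : (ColP 0 n C).d (cel n C a0 (A 0)) ∈ N0 P (ColP 0 n C).V)
    (h1 : ∀ a, a < 2 * r + 1 →
      (ColP 0 n C).d (cel n C 0 (A (a + 1))) + cel n C 0 (fun j => nuP P (a + 1) (A a j)) ∈
          N0 P (ColP 0 n C).V)
    (w : D2 true 1 (ColP 0 n (F2 true 1 true C)).V)
    (hw : w ∈ HH O (D2 true 1 (ColP 0 n (F2 true 1 true C)).V))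
    (hw' : D2.map (ColP 0 n (F2 true 1 true C)).d w +
      zip O true 1 (cj1 n C (cel n C 0 (fun j => Kp P (A (2 * r + 1) j)))) ∈
        N0 P (D2 true 1 (ColP 0 n (F2 true 1 true C)).V)) :
    TCycP P 1 r (ColP 0 n (F2 true 1 true C)) (P.ta * C.ep a0) := by
  -- the elements
  set zz : ℕ → (ColP 0 n (F2 true 1 true C)).V :=
    fun c => cj1 n C (cel n C 0 (fun j => Kq P (c + 1) (A (c + 1) j))) with hzz
  set X : (ColP 0 n C).V := cel n C a0 (A 0) with hX
  have hXH : X ∈ HH O (ColP 0 n C).V := mem_HH_prod.2 ⟨ha0, mem_HH_pi (hA 0)⟩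
  have hzzH : ∀ c, zz c ∈ HH O (ColP 0 n (F2 true 1 true C)).V := by
    intro c
    refine map_mem_HH _ (mem_HH_prod.2 ⟨zero_mem _, mem_HH_pi fun j => ?_⟩)
    exact map_mem_HH _ (hA (c + 1) j)
  have hstep : ∀ c, c + 1 < 2 * r + 1 →
      (ColP 0 n (F2 true 1 true C)).d (zz (c + 1)) + muv P (c + 1) 1 • zz c ∈
        N0 P (ColP 0 n (F2 true 1 true C)).V := by
    intro c hc
    have e1 := first_step h1 (c + 1) hc
    have e2 := second_step (P := P) hA hn (c + 1)
    have e3 := add_mem e1 e2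
    have e4 : ∀ x y z : (ColP 0 n (F2 true 1 true C)).V, (x + y) + (y + z) = x + z := by
      intro x y z
      calc _ = x + (y + y) + z := by abel
        _ = _ := by rw [add_self_mod (O := O), add_zero]
    rw [e4] at e3
    exact e3
  refine ⟨fun c => if c = 0 then h12 P • cinl n C X + zz 0 else zz c, w, ?_, hw, ?_, ?_, ?_, ?_⟩
  · intro c
    dsimp only
    split_ifs
    · exact add_mem (Submodule.smul_mem _ _ (map_mem_HH _ hXH)) (hzzH 0)
    · exact hzzH c
  · dsimp only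
    rw [if_pos rfl, map_add, map_smul, d_cinl]
    have e1 := first_step h1 0 (by omega)
    have e2 := second_step (P := P) hA hn 0
    have e3 := add_mem e1 e2
    have e5 : h12 P • cinl n C ((ColP 0 n C).d X) ∈ N0 P (ColP 0 n (F2 true 1 true C)).V :=
      Submodule.smul_mem _ _ (map_mem_N0 _ h0)
    have e6 : h12 P • cj1 n C (cel n C a0 (fun _ => 0)) ∈
        N0 P (ColP 0 n (F2 true 1 true C)).V := by
      refine mem_N0_prod ?_ ?_
      · refine mem_N0_prod ?_ ?_
        · change h12 P • (0 : C.V) ∈ _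
          rw [smul_zero]; exact zero_mem _
        · exact h12_zip_mem_N0 ha0
      · refine mem_N0_pi (D := D2 true 0 (F2 true 1 true C).V) n (fun j => ?_) (fun j _ => ?_)
        · change h12 P • D2.map (fj1 C) 0 ∈ _
          rw [map_zero, smul_zero]; exact zero_mem _
        · change h12 P • D2.map (fj1 C) 0 = 0
          rw [map_zero, smul_zero]
    have e7 : cj1 n C X = cj1 n C (cel n C a0 (fun _ => 0)) +
        cj1 n C (cel n C 0 (fun j => Kq P 0 (A 0 j))) := by
      rw [← map_add]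
      congr 1
      refine Prod.ext (add_zero _).symm (funext fun j => ?_)
      exact (zero_add _).symm
    have e8 := add_mem (add_mem e5 e6) e3
    refine (congrArg (· ∈ N0 P (ColP 0 n (F2 true 1 true C)).V) ?_).mp e8
    have h4 : muv P 0 1 = h12 P := rfl
    rw [e7, h4]
    have e9 : ∀ x y z u v : (ColP 0 n (F2 true 1 true C)).V,
        h12 P • x + h12 P • y + ((z + u) + (u + h12 P • v)) = h12 P • (x + (y + v)) + z := by
      intro x y z u v
      calc _ = h12 P • (x + (y + v)) + z + (u + u) := by module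
        _ = _ := by rw [add_self_mod (O := O), add_zero]
    exact e9 _ _ _ _ _
  · intro c hc
    dsimp only
    rw [if_neg (by omega)]
    by_cases h : c = 0
    · subst h
      rw [if_pos rfl, smul_add, smul_smul]
      have e1 := hstep 0 (by omega)
      have e2 : (muv P (0 + 1) 1 * h12 P) • cinl n C X ∈
          N0 P (ColP 0 n (F2 true 1 true C)).V := mu_h12_mem_N0 _
      have e3 := add_mem e2 e1
      refine (congrArg (· ∈ N0 P (ColP 0 n (F2 true 1 true C)).V) ?_).mp e3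
      abel
    · rw [if_neg h]
      exact hstep c (by omega)
  · have e0 : zz (2 * r) = cj1 n C (cel n C 0 (fun j => Kp P (A (2 * r + 1) j))) := by
      have : (2 * r + 1) % 2 = 1 := by omega
      simp only [hzz, Kq, this, if_true]
    dsimp only
    split_ifs with h
    · have hr : r = 0 := by omega
      subst hr
      rw [map_add, map_smul]
      have e1 : zz 0 = _ := e0
      rw [e1]
      have e2 : h12 P • zip O true 1 (cinl n C X) ∈ N0 P (D2 true 1 (ColP 0 n (F2 true 1 true C)).V) :=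
        h12_zip_mem_N0 (map_mem_HH _ hXH)
      have e3 := add_mem hw' e2
      refine (congrArg (· ∈ N0 P (D2 true 1 (ColP 0 n (F2 true 1 true C)).V)) ?_).mp e3
      abel
    · rw [e0]; exact hw'
  · dsimp only
    rw [if_pos rfl]
    change C.ep (h12 P • a0 + 0) = _
    rw [add_zero, map_smulₛₗ]
    have : ev (0 : ℕ → O) (h12 P) = P.ta := by
      rw [ev_h12]; exact h_zero P
    rw [this]; rfl

end general

/-! ## The inner elements -/

section q0
variable {P : Pot O} {C : Type} [AddCommGroup C] [Module (S O) C]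

/-- `q(y₁)` -/
noncomputable def q1 (P : Pot O) : S O :=
  yv O 1 * yv O 1 + MvPolynomial.C P.ka * yv O 1 + MvPolynomial.C P.ta

theorem q1_zip_mem {v : C} (hv : v ∈ HH O C) : q1 P • zip O true 0 v ∈ N0 P (D2 true 0 C) := by
  have h : hS P true 0 = yv O 0 * yv O 0 + yv O 0 * yv O 1 + yv O 1 * yv O 1 +
      MvPolynomial.C P.ka * (yv O 0 + yv O 1) + MvPolynomial.C P.ta := by
    unfold hS Pot.h
    rw [MvPolynomial.algebraMap_eq]
    change (yv O 0) ^ 2 + yv O 0 * yv O 1 + (yv O 1) ^ 2 + _ * (yv O 0 + yv O 1) + _ = _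
    ring
  have e : q1 P = hS P true 0 + yv O 0 * (yv O 0 + yv O 1 + MvPolynomial.C P.ka) := by
    rw [h, q1]
    have h2 : (2 : S O) = 0 := two0 (S O)
    linear_combination (-(yv O 0 * yv O 0) - yv O 0 * yv O 1 - MvPolynomial.C P.ka * yv O 0) * h2
  rw [e, add_smul, mul_smul]
  refine add_mem (NN_le_N0 (negMap_h_zip P true 0 C v hv)) (yv0_smul_mem_N0 _)

theorem mid_zip (v : C) : mid O 0 (zip O true 0 v) = yv O 1 • zip O true 0 v := by
  have h := al_zip (O := O) (i := 0) v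
  rw [al_eq] at h
  have h2 := add_self_mod (O := O) (yv O 1 • zip O true 0 v)
  calc mid O 0 (zip O true 0 v) = (mid O 0 (zip O true 0 v) + yv O (0 + 1) • zip O true 0 v) +
        yv O 1 • zip O true 0 v := by
        rw [zero_add, add_assoc, h2, add_zero]
    _ = _ := by rw [h, zero_add]

theorem mid_split (z : D2 true 0 C) :
    mid O 0 (split O true 0 z) = zip O true 0 z + yv O 0 • split O true 0 z := by
  have h := be_split (O := O) (i := 0) z
  rw [be_eq] at h
  have h2 := add_self_mod (O := O) (yv O 0 • split O true 0 z)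
  rw [← h, add_assoc, h2, add_zero]

theorem hTM_split {v : C} (hv : v ∈ HH O C) :
    hTM P (split O true 0 (zip O true 0 v)) +
      (MvPolynomial.C P.ka : S O) • zip O true 0 (zip O true 0 v) ∈
      N0 P (D2 true 0 (D2 true 0 C)) := by
  have e : hTM P (split O true 0 (zip O true 0 v)) +
      (MvPolynomial.C P.ka : S O) • zip O true 0 (zip O true 0 v) =
      split O true 0 (q1 P • zip O true 0 v) +
      yv O 0 • ((yv O 1 + MvPolynomial.C P.ka) • split O true 0 (zip O true 0 v) +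
        zip O true 0 (zip O true 0 v) + yv O 0 • split O true 0 (zip O true 0 v)) := by
    rw [hTM_apply, mid_split, map_add, map_smul, mid_split, mid_zip, map_smul, q1]
    (match_scalars <;> (rw [← sub_eq_zero]; ring_nf <;>
          simp only [two0, three1, four0, five1, six0, seven1, eight0, mul_zero, zero_mul,
            add_zero, zero_add, neg_zero, sub_zero, sub_self, mul_one]))
  rw [e]
  exact add_mem (map_mem_N0 _ (q1_zip_mem hv)) (yv0_smul_mem_N0 _)

end q0

section inner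
variable {P : Pot O} {B : DM O} {m : ℕ}

/-- inclusion of `W_{i+1}` -/
noncomputable def io (m : ℕ) (B : DM O) (i : ℕ) : D2 true 0 B.V →ₗ[S O] (ColM 0 m B).V :=
  LinearMap.inr (S O) B.V (ℕ → D2 true 0 B.V) ∘ₗ
    LinearMap.single (S O) (fun _ : ℕ => D2 true 0 B.V) i

theorem io_fst (i : ℕ) (z : D2 true 0 B.V) : (io m B i z).1 = 0 := rfl
theorem io_snd (i j : ℕ) (z : D2 true 0 B.V) : (io m B i z).2 j = if j = i then z else 0 := by
  change (Pi.single i z : ℕ → D2 true 0 B.V) j = _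
  rw [Pi.single_apply]

/-- inclusion of `W₀` -/
noncomputable def io0 (m : ℕ) (B : DM O) : B.V →ₗ[S O] (ColM 0 m B).V :=
  LinearMap.inl (S O) B.V (ℕ → D2 true 0 B.V)

theorem d_io_succ (i : ℕ) (hi : i + 1 < m) (z : D2 true 0 B.V) :
    (ColM 0 m B).d (io m B (i + 1) z) =
      io m B (i + 1) (D2.map B.d z) + io m B i (alp O 0 (i + 1) z) := by
  refine Prod.ext ?_ (funext fun j => ?_)
  · change B.d (0 : B.V) + colMu O 0 m (io m B (i + 1) z) = (0 : B.V) + 0
    rw [map_zero, zero_add, add_zero]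
    unfold colMu
    rw [if_pos (by omega), io_snd, if_neg (by omega), map_zero]
  · change D2.map B.d ((io m B (i + 1) z).2 j) + colMin O 0 m (io m B (i + 1) z) j =
      (io m B (i + 1) (D2.map B.d z)).2 j + (io m B i (alp O 0 (i + 1) z)).2 j
    rw [io_snd, io_snd, io_snd]
    congr 1
    · split_ifs
      · rfl
      · rw [map_zero]
    · by_cases h : j + 1 < m
      · rw [colMin_lt _ _ _ h, io_snd]
        by_cases h' : j = i
        · subst h'; rw [if_pos rfl, if_pos rfl]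
        · rw [if_neg (by omega), if_neg h', map_zero]
      · rw [colMin_ge _ _ _ (by omega), if_neg (by omega)]

theorem d_io_zero (hm : 0 < m) (z : D2 true 0 B.V) :
    (ColM 0 m B).d (io m B 0 z) = io m B 0 (D2.map B.d z) + io0 m B (unzip O true 0 z) := by
  refine Prod.ext ?_ (funext fun j => ?_)
  · change B.d (0 : B.V) + colMu O 0 m (io m B 0 z) = (0 : B.V) + unzip O true 0 z
    rw [map_zero, zero_add, zero_add]
    unfold colMu
    rw [if_pos hm, io_snd, if_pos rfl]
  · change D2.map B.d ((io m B 0 z).2 j) + colMin O 0 m (io m B 0 z) j =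
      (io m B 0 (D2.map B.d z)).2 j + 0
    rw [io_snd, io_snd, add_zero]
    have h : colMin O 0 m (io m B 0 z) j = 0 := by
      by_cases h : j + 1 < m
      · rw [colMin_lt _ _ _ h, io_snd, if_neg (by omega), map_zero]
      · rw [colMin_ge _ _ _ (by omega)]
    rw [h, add_zero]
    split_ifs
    · rfl
    · rw [map_zero]

theorem d_io0 (v : B.V) : (ColM 0 m B).d (io0 m B v) = io0 m B (B.d v) := by
  refine Prod.ext ?_ (funext fun j => ?_)
  · change B.d v + colMu O 0 m ((v, 0) : B.V × (ℕ → D2 true 0 B.V)) = B.d v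
    unfold colMu
    split_ifs
    · change B.d v + unzip O true 0 (0 : D2 true 0 B.V) = _
      rw [map_zero, add_zero]
    · rw [add_zero]
  · change D2.map B.d (0 : D2 true 0 B.V) + colMin O 0 m ((v, 0) : B.V × (ℕ → D2 true 0 B.V)) j = 0
    rw [map_zero, zero_add]
    by_cases h : j + 1 < m
    · rw [colMin_lt _ _ _ h]
      change alp O 0 (j + 1) (0 : D2 true 0 B.V) = 0
      rw [map_zero]
    · rw [colMin_ge _ _ _ (by omega)]

/-- `Z_{i+1}` -/
noncomputable def ZZ (m : ℕ) (B : DM O) (v : B.V) (i : ℕ) : D2 true 0 (ColM 0 m B).V :=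
  D2.map (io m B i) (split O true 0 (zip O true 0 v))

/-- `F_{i+1}` -/
noncomputable def FF (m : ℕ) (B : DM O) (v : B.V) (i : ℕ) : D2 true 0 (ColM 0 m B).V :=
  zip O true 0 (io m B i (zip O true 0 v))

variable {v : B.V}

theorem be_ZZ (i : ℕ) : be O 0 (ZZ m B v i) = FF m B v i := by
  rw [ZZ, FF, be_nat, be_split, ← zip_nat]

theorem al_ZZ (i : ℕ) : al O 0 (ZZ m B v i) = FF m B v i + e1 O true 0 • ZZ m B v i := by
  rw [← be_ZZ]; rfl

theorem alp_ZZ (j i : ℕ) : alp O 0 j (ZZ m B v i) =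
    FF m B v i + if j % 2 = 1 then e1 O true 0 • ZZ m B v i else 0 := by
  unfold alp
  split_ifs
  · exact al_ZZ i
  · rw [be_ZZ, add_zero]

theorem hTM_ZZ (hv : v ∈ HH O B.V) (i : ℕ) :
    hTM P (ZZ m B v i) + (MvPolynomial.C P.ka : S O) • FF m B v i ∈
      N0 P (D2 true 0 (ColM 0 m B).V) := by
  have h := map_mem_N0 (D2.map (io m B i)) (hTM_split (P := P) hv)
  rw [map_add, map_smul, ← hTM_nat, ← zip_nat] at h
  exact h

theorem ZZ_HH (hv : v ∈ HH O B.V) (i : ℕ) : ZZ m B v i ∈ HH O (D2 true 0 (ColM 0 m B).V) :=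
  map_mem_HH _ (map_mem_HH _ (map_mem_HH _ hv))

theorem map_e1_split (z : D2 true 0 B.V) :
    D2.map (e1 O true 0 • (LinearMap.id : D2 true 0 B.V →ₗ[S O] D2 true 0 B.V))
      (split O true 0 z) = e1 O true 0 • split O true 0 z := by
  rw [D2.e1_smul]; rfl

theorem dZ_succ (hd : B.d v = 0) (i : ℕ) (hi : i + 1 < m) :
    D2.map (ColM 0 m B).d (ZZ m B v (i + 1)) =
      FF m B v i + if (i + 1) % 2 = 1 then e1 O true 0 • ZZ m B v i else 0 := by
  have hζ : D2.map B.d (zip O true 0 v) = 0 := by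
    rw [← zip_nat, hd, map_zero]
  have h1 : D2.map (ColM 0 m B).d (ZZ m B v (i + 1)) =
      D2.map (io m B i) (D2.map (alp O 0 (i + 1)) (split O true 0 (zip O true 0 v))) := by
    have h2 : D2.map (D2.map B.d) (split O true 0 (zip O true 0 v)) = 0 := by
      rw [← split_nat, hζ, map_zero]
    have h3 : D2.map (ColM 0 m B).d (ZZ m B v (i + 1)) =
      D2.map (io m B (i + 1)) (D2.map (D2.map B.d) (split O true 0 (zip O true 0 v))) +
      D2.map (io m B i) (D2.map (alp O 0 (i + 1)) (split O true 0 (zip O true 0 v))) :=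
      D2.ext (d_io_succ i hi _) (d_io_succ i hi _)
    rw [h3, h2, map_zero, zero_add]
  rw [h1]
  have hF : D2.map (io m B i) (D2.map (be O 0) (split O true 0 (zip O true 0 v))) =
      FF m B v i := by
    rw [map_be_split, ← zip_nat true 0 (zip O true 0) v, ← zip_nat]; rfl
  unfold alp
  split_ifs with h
  · have h4 : D2.map (al O 0) (split O true 0 (zip O true 0 v)) =
        D2.map (be O 0) (split O true 0 (zip O true 0 v)) +
          e1 O true 0 • split O true 0 (zip O true 0 v) := by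
      rw [← map_e1_split]; rfl
    rw [h4, map_add, hF, map_smul]; rfl
  · rw [hF, add_zero]

theorem dZ_zero (hd : B.d v = 0) (hm : 0 < m) :
    D2.map (ColM 0 m B).d (ZZ m B v 0) = zip O true 0 (io0 m B v) := by
  have hζ : D2.map B.d (zip O true 0 v) = 0 := by
    rw [← zip_nat, hd, map_zero]
  have h2 : D2.map (D2.map B.d) (split O true 0 (zip O true 0 v)) = 0 := by
    rw [← split_nat, hζ, map_zero]
  have h3 : D2.map (ColM 0 m B).d (ZZ m B v 0) =
      D2.map (io m B 0) (D2.map (D2.map B.d) (split O true 0 (zip O true 0 v))) +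
      D2.map (io0 m B) (D2.map (unzip O true 0) (split O true 0 (zip O true 0 v))) :=
      D2.ext (d_io_zero hm _) (d_io_zero hm _)
  rw [h3, h2, map_zero, zero_add, map_unzip_split, ← zip_nat]

/-- the inner differential on `ι_{i+1} ζ` -/
theorem d_io_zip (hd : B.d v = 0) (i : ℕ) (hi : i + 1 < m) :
    (ColM 0 m B).d (io m B (i + 1) (zip O true 0 v)) =
      if (i + 1) % 2 = 1 then 0 else e1 O true 0 • io m B i (zip O true 0 v) := by
  rw [d_io_succ i hi, ← zip_nat, hd, map_zero, map_zero, zero_add]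
  unfold alp
  split_ifs
  · rw [al_zip, map_zero]
  · rw [be_zip, map_smul]

end inner

/-! ## Elements of `D2 true 1` of a column -/

section mkw
variable [IsDomain O] {P : Pot O}

/-- an element of `D2 true 1` of a column -/
def mkw (n : ℕ) (C : DM O) (G : D2 true 1 C.V) (W : ℕ → D2 true 1 (D2 true 0 C.V)) :
    D2 true 1 (ColP 0 n C).V := ⟨(G.a, fun i => (W i).a), (G.b, fun i => (W i).b)⟩

theorem mkw_HH (n : ℕ) {C : DM O} {G : D2 true 1 C.V} {W : ℕ → D2 true 1 (D2 true 0 C.V)}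
    (hG : G ∈ HH O (D2 true 1 C.V)) (hW : ∀ i, W i ∈ HH O (D2 true 1 (D2 true 0 C.V))) :
    mkw n C G W ∈ HH O (D2 true 1 (ColP 0 n C).V) :=
  mem_HH_D2_prod (C := C.V) (D := ℕ → D2 true 0 C.V) hG (mem_HH_D2_pi hW)

theorem mkw_N0 (n : ℕ) {C : DM O} {G : D2 true 1 C.V} {W : ℕ → D2 true 1 (D2 true 0 C.V)}
    {u : C.V} {f : ℕ → D2 true 0 C.V}
    (hG : D2.map C.d G + zip O true 1 u ∈ N0 P (D2 true 1 C.V))
    (hW0 : 0 < n → D2.map (D2.map C.d) (W 0) + D2.map (zip O true 0) G + zip O true 1 (f 0) ∈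
      N0 P (D2 true 1 (D2 true 0 C.V)))
    (hWs : ∀ i, i + 1 < n → D2.map (D2.map C.d) (W (i + 1)) + D2.map (alp O 0 (i + 1)) (W i) +
      zip O true 1 (f (i + 1)) ∈ N0 P (D2 true 1 (D2 true 0 C.V)))
    (hWn : ∀ i, n ≤ i → W i = 0) (hfn : ∀ i, n ≤ i → f i = 0) :
    D2.map (ColP 0 n C).d (mkw n C G W) + zip O true 1 (cel n C u f) ∈
      N0 P (D2 true 1 (ColP 0 n C).V) := by
  have e0 : ∀ i, n ≤ i → D2.map (LinearMap.proj (R := S O) (φ := fun _ : ℕ => D2 true 0 C.V) i)
      (D2.map (LinearMap.snd (S O) C.V (ℕ → D2 true 0 C.V))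
        (D2.map (ColP 0 n C).d (mkw n C G W) + zip O true 1 (cel n C u f))) = 0 := by
    intro i hi
    refine D2.ext ?_ ?_
    · change (D2.map C.d (W i).a + colPin O 0 n ((G.a, fun i => (W i).a) :
        C.V × (ℕ → D2 true 0 C.V)) i) + yv O 2 • f i = 0
      rw [hWn i hi, hfn i hi, colPin_ge _ _ _ hi]
      change (D2.map C.d 0 + 0) + _ • (0 : D2 true 0 C.V) = 0
      rw [map_zero, smul_zero, add_zero, add_zero]
    · change (D2.map C.d (W i).b + colPin O 0 n ((G.b, fun i => (W i).b) :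
        C.V × (ℕ → D2 true 0 C.V)) i) + f i = 0
      rw [hWn i hi, hfn i hi, colPin_ge _ _ _ hi]
      change (D2.map C.d 0 + 0) + (0 : D2 true 0 C.V) = 0
      rw [map_zero, add_zero, add_zero]
  refine mem_N0_D2_prod (C := C.V) (D := ℕ → D2 true 0 C.V) hG ?_
  refine mem_N0_D2_pi n (fun i => ?_) (fun i hi => ?_)
  · by_cases hi : i < n
    · rcases i with _ | i
      · refine (congrArg (· ∈ N0 P (D2 true 1 (D2 true 0 C.V))) ?_).mp (hW0 hi)
        refine D2.ext ?_ ?_
        · change (D2.map C.d (W 0).a + zip O true 0 G.a) + yv O 2 • f 0 =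
            (D2.map C.d (W 0).a + colPin O 0 n ((G.a, fun i => (W i).a) :
              C.V × (ℕ → D2 true 0 C.V)) 0) + yv O 2 • f 0
          rw [colPin_zero _ _ hi]
        · change (D2.map C.d (W 0).b + zip O true 0 G.b) + f 0 =
            (D2.map C.d (W 0).b + colPin O 0 n ((G.b, fun i => (W i).b) :
              C.V × (ℕ → D2 true 0 C.V)) 0) + f 0
          rw [colPin_zero _ _ hi]
      · refine (congrArg (· ∈ N0 P (D2 true 1 (D2 true 0 C.V))) ?_).mp (hWs i hi)
        refine D2.ext ?_ ?_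
        · change (D2.map C.d (W (i + 1)).a + alp O 0 (i + 1) (W i).a) + yv O 2 • f (i + 1) =
            (D2.map C.d (W (i + 1)).a + colPin O 0 n ((G.a, fun i => (W i).a) :
              C.V × (ℕ → D2 true 0 C.V)) (i + 1)) + yv O 2 • f (i + 1)
          rw [colPin_succ _ _ _ hi]
        · change (D2.map C.d (W (i + 1)).b + alp O 0 (i + 1) (W i).b) + f (i + 1) =
            (D2.map C.d (W (i + 1)).b + colPin O 0 n ((G.b, fun i => (W i).b) :
              C.V × (ℕ → D2 true 0 C.V)) (i + 1)) + f (i + 1)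
          rw [colPin_succ _ _ _ hi]
    · rw [e0 i (by omega)]; exact zero_mem _
  · exact ⟨congrArg D2.a (e0 i hi), congrArg D2.b (e0 i hi)⟩

theorem F2_finr {C : DM O} (z : D2 true 1 C.V) :
    (F2 true 1 true C).d (finr C z) = finr C (D2.map C.d z) := by
  refine Prod.ext ?_ ?_
  · change C.d 0 = 0
    rw [map_zero]
  · change zip O true 1 (0 : C.V) + D2.map C.d z = D2.map C.d z
    rw [map_zero, zero_add]

/-- the general lemma, second form -/
theorem tcycP_of_first' {C : DM O} {n r : ℕ} {a0 : C.V} {A : ℕ → ℕ → D2 true 0 C.V}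
    (ha0 : a0 ∈ HH O C.V) (hA : ∀ a j, A a j ∈ HH O (D2 true 0 C.V))
    (hn : ∀ a j, n ≤ j → A a j = 0)
    (h0 : (ColP 0 n C).d (cel n C a0 (A 0)) ∈ N0 P (ColP 0 n C).V)
    (h1 : ∀ a, a < 2 * r + 1 →
      (ColP 0 n C).d (cel n C 0 (A (a + 1))) + cel n C 0 (fun j => nuP P (a + 1) (A a j)) ∈
          N0 P (ColP 0 n C).V)
    (G : D2 true 1 (D2 true 1 C.V)) (W : ℕ → D2 true 1 (D2 true 0 (D2 true 1 C.V)))
    (hG : G ∈ HH O (D2 true 1 (D2 true 1 C.V)))
    (hW : ∀ i, W i ∈ HH O (D2 true 1 (D2 true 0 (D2 true 1 C.V))))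
    (hWn : ∀ i, n ≤ i → W i = 0)
    (hdG : D2.map (D2.map C.d) G ∈ N0 P (D2 true 1 (D2 true 1 C.V)))
    (hW0 : 0 < n → D2.map (D2.map (D2.map C.d)) (W 0) + D2.map (zip O true 0) G +
      zip O true 1 (D2.map (zip O true 1) (Kp P (A (2 * r + 1) 0))) ∈
      N0 P (D2 true 1 (D2 true 0 (D2 true 1 C.V))))
    (hWs : ∀ i, i + 1 < n → D2.map (D2.map (D2.map C.d)) (W (i + 1)) +
      D2.map (alp O 0 (i + 1)) (W i) +
      zip O true 1 (D2.map (zip O true 1) (Kp P (A (2 * r + 1) (i + 1)))) ∈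
      N0 P (D2 true 1 (D2 true 0 (D2 true 1 C.V)))) :
    TCycP P 1 r (ColP 0 n (F2 true 1 true C)) (P.ta * C.ep a0) := by
  have e1 : ∀ z : D2 true 1 (D2 true 1 C.V),
      D2.map (F2 true 1 true C).d (D2.map (finr C) z) =
        D2.map (finr C) (D2.map (D2.map C.d) z) := fun z => D2.ext (F2_finr _) (F2_finr _)
  have e2 : ∀ z : D2 true 1 (D2 true 0 (D2 true 1 C.V)),
      D2.map (D2.map (F2 true 1 true C).d) (D2.map (D2.map (finr C)) z) =
        D2.map (D2.map (finr C)) (D2.map (D2.map (D2.map C.d)) z) := fun z =>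
    D2.ext (D2.ext (F2_finr _) (F2_finr _)) (D2.ext (F2_finr _) (F2_finr _))
  have e3 : ∀ z : D2 true 0 C.V, zip O true 1 (D2.map (fj1 C) z) =
      D2.map (D2.map (finr C)) (zip O true 1 (D2.map (zip O true 1) z)) := by
    intro z
    rw [← zip_nat]; rfl
  have e4 : ∀ z : D2 true 1 (D2 true 1 C.V), D2.map (zip O true 0) (D2.map (finr C) z) =
      D2.map (D2.map (finr C)) (D2.map (zip O true 0) z) := fun z =>
    D2.ext (zip_nat true 0 (finr C) z.a) (zip_nat true 0 (finr C) z.b)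
  have e5 : ∀ (j : ℕ) (z : D2 true 1 (D2 true 0 (D2 true 1 C.V))),
      D2.map (alp O 0 j) (D2.map (D2.map (finr C)) z) =
      D2.map (D2.map (finr C)) (D2.map (alp O 0 j) z) := fun j z =>
    D2.ext (alp_nat (finr C) j z.a) (alp_nat (finr C) j z.b)
  refine tcycP_of_first ha0 hA hn h0 h1
    (mkw n (F2 true 1 true C) (D2.map (finr C) G) (fun i => D2.map (D2.map (finr C)) (W i)))
    (mkw_HH n (map_mem_HH _ hG) fun i => map_mem_HH _ (hW i)) ?_
  refine mkw_N0 n ?_ (fun hn0 => ?_) (fun i hi => ?_) (fun i hi => ?_) (fun i hi => ?_)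
  · change _ + zip O true 1 (fj1 C 0) ∈ _
    rw [e1, map_zero, map_zero, add_zero]
    exact map_mem_N0 _ hdG
  · change _ + zip O true 1 (D2.map (fj1 C) (Kp P (A (2 * r + 1) 0))) ∈ _
    rw [e2, e3, e4, ← map_add, ← map_add]
    exact map_mem_N0 _ (hW0 hn0)
  · change _ + zip O true 1 (D2.map (fj1 C) (Kp P (A (2 * r + 1) (i + 1)))) ∈ _
    rw [e2, e3, e5, ← map_add, ← map_add]
    exact map_mem_N0 _ (hWs i hi)
  · rw [hWn i hi, map_zero]
  · change D2.map (fj1 C) (Kp P (A (2 * r + 1) i)) = 0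
    rw [hn _ i hi, map_zero, map_zero]

end mkw

/-! ## Coefficients -/

section coeff
variable (P : Pot O)

/-- `R^l_s = κ^l C(s+l, l)` -/
def Rc (l s : ℕ) : O := P.ka ^ l * ((Nat.choose (s + l) l : ℕ) : O)

/-- `y(a, i+1)` -/
def Yc (a i : ℕ) : O := if a % 2 = 1 ∧ i % 2 = 1 then 0 else Rc P (a / 2) (i / 2)

theorem Rc_zero (s : ℕ) : Rc P 0 s = 1 := by simp [Rc]

theorem Rc_l_zero (l : ℕ) : Rc P l 0 = P.ka ^ l := by simp [Rc]

theorem Rc_pascal (l s : ℕ) :
    Rc P (l + 1) (s + 1) + Rc P (l + 1) s + P.ka * Rc P l (s + 1) = 0 := by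
  have h : Nat.choose (s + 1 + (l + 1)) (l + 1) =
      Nat.choose (s + 1 + l) l + Nat.choose (s + (l + 1)) (l + 1) := by
    have e1 : s + 1 + (l + 1) = (s + 1 + l) + 1 := by ring
    have e2 : s + (l + 1) = s + 1 + l := by ring
    rw [e1, e2, Nat.choose_succ_succ]
  unfold Rc
  rw [h]
  push_cast
  have h2 : (2 : O) = 0 := two0 O
  linear_combination (P.ka ^ (l + 1) * ((Nat.choose (s + 1 + l) l : ℕ) : O) +
    P.ka ^ (l + 1) * ((Nat.choose (s + (l + 1)) (l + 1) : ℕ) : O)) * h2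

theorem Yc_ee (l s : ℕ) : Yc P (2 * l) (2 * s) = Rc P l s := by
  unfold Yc
  rw [if_neg (by omega)]
  congr 1 <;> omega
theorem Yc_eo (l s : ℕ) : Yc P (2 * l) (2 * s + 1) = Rc P l s := by
  unfold Yc
  rw [if_neg (by omega)]
  congr 1 <;> omega
theorem Yc_oe (l s : ℕ) : Yc P (2 * l + 1) (2 * s) = Rc P l s := by
  unfold Yc
  rw [if_neg (by omega)]
  congr 1 <;> omega
theorem Yc_oo (l s : ℕ) : Yc P (2 * l + 1) (2 * s + 1) = 0 := by
  unfold Yc
  rw [if_pos (by omega)]
theorem Yc_zero (i : ℕ) : Yc P 0 i = 1 := by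
  unfold Yc
  rw [if_neg (by omega)]
  exact Rc_zero P _

/-- the bracket at index `0` -/
theorem br_zero {C : Type} [AddCommGroup C] [Module (S O) C] (a : ℕ) (F E : C) :
    (MvPolynomial.C (Yc P (a + 1) 0) : S O) • (F + if (a + 1) % 2 = 1 then E else 0) +
      (MvPolynomial.C (Yc P a 0) : S O) •
        (if (a + 1) % 2 = 1 then F + E else (MvPolynomial.C P.ka : S O) • F) = 0 := by
  obtain ⟨l, rfl | rfl⟩ : ∃ l, a = 2 * l ∨ a = 2 * l + 1 := ⟨a / 2, by omega⟩
  · have h1 : Yc P (2 * l + 1) 0 = Rc P l 0 := Yc_oe P l 0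
    have h2 : Yc P (2 * l) 0 = Rc P l 0 := Yc_ee P l 0
    have h3 : (2 * l + 1) % 2 = 1 := by omega
    rw [h1, h2, if_pos h3, if_pos h3]
    exact add_self_mod (O := O) _
  · have h1 : Yc P (2 * l + 1 + 1) 0 = P.ka ^ (l + 1) := by
      have := Yc_ee P (l + 1) 0
      rw [Rc_l_zero] at this
      exact this
    have h2 : Yc P (2 * l + 1) 0 = P.ka ^ l := by
      have := Yc_oe P l 0
      rw [Rc_l_zero] at this
      exact this
    have h3 : ¬ ((2 * l + 1 + 1) % 2 = 1) := by omega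
    rw [h1, h2, if_neg h3, if_neg h3, smul_smul, ← map_mul, pow_succ, add_zero]
    exact add_self_mod (O := O) _

/-- the bracket at index `j + 1` -/
theorem br_succ {C : Type} [AddCommGroup C] [Module (S O) C] (a j q : ℕ) (hq : q = a + j + 1)
    (F E : C) :
    (MvPolynomial.C (Yc P (a + 1) (j + 1)) : S O) • (F + if (q + 1) % 2 = 1 then E else 0) +
      (MvPolynomial.C (Yc P (a + 1) j) : S O) • (F + if (j + 1) % 2 = 1 then E else 0) +
      (MvPolynomial.C (Yc P a (j + 1)) : S O) •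
        (if (a + 1) % 2 = 1 then F + E else (MvPolynomial.C P.ka : S O) • F) = 0 := by
  obtain ⟨l, rfl | rfl⟩ : ∃ l, a = 2 * l ∨ a = 2 * l + 1 := ⟨a / 2, by omega⟩
  · obtain ⟨s, rfl | rfl⟩ : ∃ s, j = 2 * s ∨ j = 2 * s + 1 := ⟨j / 2, by omega⟩
    · rw [Yc_oo, Yc_oe, Yc_eo, if_pos (by omega : (2 * s + 1) % 2 = 1),
        if_pos (by omega : (2 * l + 1) % 2 = 1), map_zero, zero_smul, zero_add]
      exact add_self_mod (O := O) _
    · have h1 : Yc P (2 * l + 1) (2 * s + 1 + 1) = Rc P l (s + 1) := Yc_oe P l (s + 1)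
      have h2 : Yc P (2 * l) (2 * s + 1 + 1) = Rc P l (s + 1) := Yc_ee P l (s + 1)
      rw [h1, h2, Yc_oo, if_pos (by omega : (q + 1) % 2 = 1),
        if_pos (by omega : (2 * l + 1) % 2 = 1), map_zero, zero_smul, add_zero]
      exact add_self_mod (O := O) _
  · obtain ⟨s, rfl | rfl⟩ : ∃ s, j = 2 * s ∨ j = 2 * s + 1 := ⟨j / 2, by omega⟩
    · have h1 : Yc P (2 * l + 1 + 1) (2 * s + 1) = Rc P (l + 1) s := Yc_eo P (l + 1) s
      have h2 : Yc P (2 * l + 1 + 1) (2 * s) = Rc P (l + 1) s := Yc_ee P (l + 1) s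
      rw [h1, h2, Yc_oo, if_pos (by omega : (q + 1) % 2 = 1),
        if_pos (by omega : (2 * s + 1) % 2 = 1), map_zero, zero_smul, add_zero]
      exact add_self_mod (O := O) _
    · have h1 : Yc P (2 * l + 1 + 1) (2 * s + 1 + 1) = Rc P (l + 1) (s + 1) :=
        Yc_ee P (l + 1) (s + 1)
      have h2 : Yc P (2 * l + 1 + 1) (2 * s + 1) = Rc P (l + 1) s := Yc_eo P (l + 1) s
      have h3 : Yc P (2 * l + 1) (2 * s + 1 + 1) = Rc P l (s + 1) := Yc_oe P l (s + 1)
      rw [h1, h2, h3, if_neg (by omega : ¬ ((q + 1) % 2 = 1)),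
        if_neg (by omega : ¬ ((2 * s + 1 + 1) % 2 = 1)),
        if_neg (by omega : ¬ ((2 * l + 1 + 1) % 2 = 1)), add_zero, smul_smul, ← map_mul,
        ← add_smul, ← add_smul, ← map_add, ← map_add]
      have := Rc_pascal P l s
      rw [mul_comm] at this
      rw [this, map_zero, zero_smul]

end coeff

/-! ## The first level -/

section firstlevel
variable {P : Pot O} {B : DM O} {m n : ℕ} {v : B.V}

/-- `A_{a,i+1}` -/
noncomputable def AA (P : Pot O) (m n : ℕ) (B : DM O) (v : B.V) (a i : ℕ) :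
    D2 true 0 (ColM 0 m B).V :=
  if i < n then (MvPolynomial.C (Yc P a i) : S O) • ZZ m B v (a + i) else 0

theorem AA_lt {a i : ℕ} (h : i < n) : AA P m n B v a i =
    (MvPolynomial.C (Yc P a i) : S O) • ZZ m B v (a + i) := if_pos h

theorem AA_ge {a i : ℕ} (h : n ≤ i) : AA P m n B v a i = 0 := if_neg (by omega)

theorem AA_HH (hv : v ∈ HH O B.V) (a i : ℕ) :
    AA P m n B v a i ∈ HH O (D2 true 0 (ColM 0 m B).V) := by
  unfold AA
  split_ifs
  · exact Submodule.smul_mem _ _ (ZZ_HH hv _)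
  · exact zero_mem _

/-- `ν_a Z` up to `N0` -/
theorem nuP_ZZ (hv : v ∈ HH O B.V) (a q : ℕ) :
    nuP P a (ZZ m B v q) + (if a % 2 = 1 then FF m B v q + e1 O true 0 • ZZ m B v q
      else (MvPolynomial.C P.ka : S O) • FF m B v q) ∈ N0 P (D2 true 0 (ColM 0 m B).V) := by
  unfold nuP
  split_ifs with h
  · rw [al_ZZ, add_self_mod (O := O)]; exact zero_mem _
  · exact hTM_ZZ hv q

theorem io0_HH (hv : v ∈ HH O B.V) : io0 m B v ∈ HH O (ColM 0 m B).V := map_mem_HH _ hv

theorem first0 (hd : B.d v = 0) (hm : n ≤ m) (hv : v ∈ HH O B.V) :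
    (ColP 0 n (ColM 0 m B)).d (cel n (ColM 0 m B) (io0 m B v) (AA P m n B v 0)) ∈
      N0 P (ColP 0 n (ColM 0 m B)).V := by
  have e : (ColP 0 n (ColM 0 m B)).d (cel n (ColM 0 m B) (io0 m B v) (AA P m n B v 0)) = 0 := by
    refine Prod.ext ?_ (funext fun j => ?_)
    · change (ColM 0 m B).d (io0 m B v) = 0
      rw [d_io0, hd, map_zero]
    · change D2.map (ColM 0 m B).d (AA P m n B v 0 j) + colPin O 0 n ((io0 m B v, AA P m n B v 0) :
        (ColM 0 m B).V × (ℕ → D2 true 0 (ColM 0 m B).V)) j = 0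
      by_cases h : j < n
      · rcases j with _ | j
        · rw [colPin_zero _ _ h, AA_lt h, Yc_zero, map_one, one_smul, zero_add,
            dZ_zero hd (by omega)]
          exact add_self_mod (O := O) _
        · rw [colPin_succ _ _ _ h, AA_lt h, Yc_zero, map_one, one_smul]
          change _ + alp O 0 (j + 1) (AA P m n B v 0 j) = 0
          rw [AA_lt (by omega), Yc_zero, map_one, one_smul, zero_add, zero_add,
            dZ_succ hd j (by omega), alp_ZZ]
          exact add_self_mod (O := O) _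
      · rw [colPin_ge _ _ _ (by omega), AA_ge (by omega), map_zero, add_zero]
  rw [e]; exact zero_mem _

theorem first1 (hd : B.d v = 0) (hv : v ∈ HH O B.V) (a : ℕ) (hm : a + 1 + n ≤ m) :
    (ColP 0 n (ColM 0 m B)).d (cel n (ColM 0 m B) 0 (AA P m n B v (a + 1))) +
      cel n (ColM 0 m B) 0 (fun j => nuP P (a + 1) (AA P m n B v a j)) ∈
      N0 P (ColP 0 n (ColM 0 m B)).V := by
  have e0 : ∀ j, n ≤ j → D2.map (ColM 0 m B).d (AA P m n B v (a + 1) j) +
      colPin O 0 n ((0, AA P m n B v (a + 1)) :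
        (ColM 0 m B).V × (ℕ → D2 true 0 (ColM 0 m B).V)) j +
      nuP P (a + 1) (AA P m n B v a j) = 0 := by
    intro j hj
    rw [colPin_ge _ _ _ hj, AA_ge hj, AA_ge hj, map_zero, map_zero, add_zero, add_zero]
  refine mem_N0_prod ?_ ?_
  · change (ColM 0 m B).d 0 + 0 ∈ _
    rw [map_zero, add_zero]; exact zero_mem _
  · refine mem_N0_pi (D := D2 true 0 (ColM 0 m B).V) n (fun j => ?_) (fun j hj => e0 j hj)
    change D2.map (ColM 0 m B).d (AA P m n B v (a + 1) j) +
      colPin O 0 n ((0, AA P m n B v (a + 1)) :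
        (ColM 0 m B).V × (ℕ → D2 true 0 (ColM 0 m B).V)) j +
      nuP P (a + 1) (AA P m n B v a j) ∈ N0 P (D2 true 0 (ColM 0 m B).V)
    by_cases h : j < n
    · rcases j with _ | j
      · rw [colPin_zero _ _ h, AA_lt h, AA_lt h, map_smul, map_smul]
        change _ + zip O true 0 (0 : (ColM 0 m B).V) + _ ∈ _
        rw [map_zero, add_zero, add_zero, add_zero, dZ_succ hd a (by omega)]
        have h1 := Submodule.smul_mem _ (MvPolynomial.C (Yc P a 0) : S O)
          (nuP_ZZ (P := P) (m := m) hv (a + 1) a)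
        rw [smul_add] at h1
        have h2 := br_zero P a (FF m B v a) (e1 O true 0 • ZZ m B v a)
        have h3 : ∀ x y z : D2 true 0 (ColM 0 m B).V, x + y = 0 → x + z = z + y := by
          intro x y z hxy
          have : x = y := by
            calc x = x + (y + y) := by rw [add_self_mod (O := O), add_zero]
              _ = (x + y) + y := by abel
              _ = y := by rw [hxy, zero_add]
          rw [this, add_comm]
        rw [h3 _ _ _ h2]
        exact h1
      · rw [colPin_succ _ _ _ h, AA_lt h, AA_lt h, map_smul, map_smul]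
        change _ + alp O 0 (j + 1) (AA P m n B v (a + 1) j) + _ ∈ _
        have hq : a + 1 + (j + 1) = (a + j + 1) + 1 := by omega
        have hq' : a + 1 + j = a + j + 1 := by omega
        have hq'' : a + (j + 1) = a + j + 1 := by omega
        rw [AA_lt (by omega), map_smul, hq, hq', hq'', dZ_succ hd (a + j + 1) (by omega), alp_ZZ]
        have h1 := Submodule.smul_mem _ (MvPolynomial.C (Yc P a (j + 1)) : S O)
          (nuP_ZZ (P := P) (m := m) hv (a + 1) (a + j + 1))
        rw [smul_add] at h1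
        have h2 := br_succ P a j (a + j + 1) rfl (FF m B v (a + j + 1))
          (e1 O true 0 • ZZ m B v (a + j + 1))
        have h3 : ∀ x y z : D2 true 0 (ColM 0 m B).V, x + y = 0 → x + z = z + y := by
          intro x y z hxy
          have : x = y := by
            calc x = x + (y + y) := by rw [add_self_mod (O := O), add_zero]
              _ = (x + y) + y := by abel
              _ = y := by rw [hxy, zero_add]
          rw [this, add_comm]
        rw [h3 _ _ _ h2]
        exact h1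
    · rw [e0 j (by omega)]; exact zero_mem _

end firstlevel

/-! ## The last letter -/

section last
variable {P : Pot O} {B : DM O} {m n : ℕ} {v : B.V}

/-- `zip₀ split₁ zip₁ ι_{q+1} ζ` -/
noncomputable def UU (m : ℕ) (B : DM O) (v : B.V) (q : ℕ) :
    D2 true 1 (D2 true 0 (D2 true 1 (ColM 0 m B).V)) :=
  D2.map (zip O true 0) (split O true 1 (zip O true 1 (io m B q (zip O true 0 v))))

/-- the same with `X₁` in the middle -/
noncomputable def MM (m : ℕ) (B : DM O) (v : B.V) (q : ℕ) :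
    D2 true 1 (D2 true 0 (D2 true 1 (ColM 0 m B).V)) :=
  D2.map (zip O true 0) (mid1 O (split O true 1 (zip O true 1 (io m B q (zip O true 0 v)))))

theorem map_GG (q : ℕ) : D2.map (zip O true 0) (GG P (io m B q (zip O true 0 v))) =
    (xv O 1 + MvPolynomial.C P.ka) • UU m B v q + MM m B v q := by
  rw [GG_apply, map_add, map_smul]; rfl

theorem keyZ (hv : v ∈ HH O B.V) (q : ℕ) :
    zip O true 1 (D2.map (zip O true 1) (Kp P (ZZ m B v q))) +
      D2.map (zip O true 0) (GG P (io m B q (zip O true 0 v))) ∈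
      N0 P (D2 true 1 (D2 true 0 (D2 true 1 (ColM 0 m B).V))) := by
  have h := map_mem_N0 (D2.map (t := true) (i := 1) (D2.map (t := true) (i := 0)
    (D2.map (t := true) (i := 1) (io m B q))))
    (keyI (P := P) (map_mem_HH (zip O true 0) hv))
  refine (congrArg (· ∈ N0 P (D2 true 1 (D2 true 0 (D2 true 1 (ColM 0 m B).V)))) ?_).mp h
  rw [map_add]
  congr 1
  · rw [← zip_nat, ← Kp_nat]
    have e : D2.map (t := true) (i := 0) (D2.map (t := true) (i := 1) (io m B q))
        (D2.map (zip O true 1) (split O true 0 (zip O true 0 v))) =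
        D2.map (zip O true 1) (ZZ m B v q) :=
      D2.ext (zip_nat true 1 (io m B q) _).symm (zip_nat true 1 (io m B q) _).symm
    rw [e, Kp_nat]
  · rw [GG_nat (io m B q)]
    exact D2.ext (zip_nat true 0 _ _).symm (zip_nat true 0 _ _).symm

theorem UU_HH (hv : v ∈ HH O B.V) (q : ℕ) :
    UU m B v q ∈ HH O (D2 true 1 (D2 true 0 (D2 true 1 (ColM 0 m B).V))) :=
  map_mem_HH _ (map_mem_HH _ (map_mem_HH _ (map_mem_HH _ (map_mem_HH _ hv))))

theorem UU_q1 (hv : v ∈ HH O B.V) (q : ℕ) :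
    q1 P • UU m B v q ∈ N0 P (D2 true 1 (D2 true 0 (D2 true 1 (ColM 0 m B).V))) := by
  have h := map_mem_N0 (D2.map (zip O true 0) ∘ₗ split O true 1 ∘ₗ zip O true 1 ∘ₗ io m B q)
    (q1_zip_mem (P := P) hv)
  rw [map_smul] at h
  exact h

theorem UU_d (hd : B.d v = 0) (q : ℕ) (hq : q + 1 < m) :
    D2.map (D2.map (D2.map (ColM 0 m B).d)) (UU m B v (q + 1)) =
      if (q + 1) % 2 = 1 then 0 else e1 O true 0 • UU m B v q := by
  have e : D2.map (D2.map (D2.map (ColM 0 m B).d)) (UU m B v (q + 1)) =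
      D2.map (zip O true 0) (split O true 1 (zip O true 1
        ((ColM 0 m B).d (io m B (q + 1) (zip O true 0 v))))) := by
    rw [zip_nat, split_nat]
    exact D2.ext (zip_nat true 0 _ _).symm (zip_nat true 0 _ _).symm
  rw [e, d_io_zip hd q hq]
  split_ifs
  · rw [map_zero, map_zero, map_zero]
  · rw [map_smul, map_smul, map_smul]; rfl

theorem UU_alp (i q : ℕ) : D2.map (alp O 0 i) (UU m B v q) =
    if i % 2 = 1 then 0 else yv O 0 • UU m B v q + MM m B v q := by
  unfold alp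
  split_ifs
  · exact D2.ext (al_zip _) (al_zip _)
  · have e : ∀ X : D2 true 1 (D2 true 1 (ColM 0 m B).V),
        D2.map (be O 0) (D2.map (zip O true 0) X) =
        D2.map (zip O true 0) (yv O 0 • X) + D2.map (zip O true 0) (mid1 O X) := by
      intro X
      rw [y0_smul_D1]
      refine D2.ext ?_ ?_
      · change be O 0 (zip O true 0 X.a) = zip O true 0 (yv O 0 • X.a) + zip O true 0 (yv O 1 • X.a)
        rw [be_zip, map_smul, map_smul, ← add_smul]; rfl
      · change be O 0 (zip O true 0 X.b) = zip O true 0 (yv O 0 • X.b) + zip O true 0 (yv O 1 • X.b)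
        rw [be_zip, map_smul, map_smul, ← add_smul]; rfl
    have h := e (split O true 1 (zip O true 1 (io m B q (zip O true 0 v))))
    rw [map_smul] at h
    exact h

/-- the coefficients of the last letter -/
noncomputable def cf (P : Pot O) (r : ℕ) (c : O) (i : ℕ) : S O :=
  if i = 0 then 0 else if i % 2 = 1 then MvPolynomial.C (Rc P r ((i + 1) / 2))
  else MvPolynomial.C (Rc P r (i / 2)) +
    MvPolynomial.C (c * ((Nat.choose (i / 2 + r) r : ℕ) : O)) * (yv O 1 + MvPolynomial.C P.ka)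

/-- the algebra of the last letter -/
theorem last_alg {M : Type} [AddCommGroup M] [Module (S O) M] (R ch c : O) (r : ℕ)
    (hR : R = P.ka ^ r * ch) (hc : c * P.ta = P.ka ^ (r + 1)) (U Mm K : M)
    (hU : xv O 1 • U = yv O 1 • U)
    (hK : K + ((xv O 1 + MvPolynomial.C P.ka) • U + Mm) ∈ N0 P M)
    (hq : q1 P • U ∈ N0 P M) :
    (MvPolynomial.C R + MvPolynomial.C (c * ch) * (yv O 1 + MvPolynomial.C P.ka) : S O) •
        e1 O true 0 • U + (MvPolynomial.C R : S O) • (yv O 0 • U + Mm) +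
      (MvPolynomial.C R : S O) • K ∈ N0 P M := by
  have hRk : (MvPolynomial.C R * MvPolynomial.C P.ka : S O) =
      MvPolynomial.C (c * ch) * MvPolynomial.C P.ta := by
    rw [← map_mul, ← map_mul, hR]
    congr 1
    have : c * ch * P.ta = (c * P.ta) * ch := by ring
    rw [this, hc]; ring
  have e : (MvPolynomial.C R + MvPolynomial.C (c * ch) * (yv O 1 + MvPolynomial.C P.ka) : S O) •
        e1 O true 0 • U + (MvPolynomial.C R : S O) • (yv O 0 • U + Mm) +
      (MvPolynomial.C R : S O) • K =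
      (MvPolynomial.C R : S O) • (K + ((xv O 1 + MvPolynomial.C P.ka) • U + Mm)) +
      (MvPolynomial.C (c * ch) : S O) • (q1 P • U) +
      yv O 0 • ((MvPolynomial.C (c * ch) * (yv O 1 + MvPolynomial.C P.ka) : S O) • U) := by
    have e1' : e1 O true 0 = yv O 0 + yv O 1 := rfl
    have h1 : (xv O 1 + MvPolynomial.C P.ka : S O) • U =
        yv O 1 • U + (MvPolynomial.C P.ka : S O) • U := by
      rw [add_smul, hU]
    have h2 : (MvPolynomial.C R * MvPolynomial.C P.ka : S O) • U =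
        (MvPolynomial.C (c * ch) * MvPolynomial.C P.ta : S O) • U := by rw [hRk]
    rw [h1, e1', q1]
    have h3 : (MvPolynomial.C R : S O) • (K + (yv O 1 • U + (MvPolynomial.C P.ka : S O) • U + Mm)) =
        (MvPolynomial.C R : S O) • K + (MvPolynomial.C R * yv O 1 : S O) • U +
          (MvPolynomial.C (c * ch) * MvPolynomial.C P.ta : S O) • U +
          (MvPolynomial.C R : S O) • Mm := by
      rw [← h2]
      module
    rw [h3]
    (match_scalars <;> (rw [← sub_eq_zero]; ring_nf <;>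
          simp only [two0, three1, four0, five1, six0, seven1, eight0, mul_zero, zero_mul,
            add_zero, zero_add, neg_zero, sub_zero, sub_self, mul_one]))
  rw [e]
  exact add_mem (add_mem (Submodule.smul_mem _ _ hK) (Submodule.smul_mem _ _ hq))
    (yv0_smul_mem_N0 _)

variable [IsDomain O]

/-- (H5) the initial tower cycle, general base -/
theorem initP_general (hd : B.d v = 0) (hv : v ∈ HH O B.V) (r : ℕ) (hm : 2 * r + 1 + n < m)
    (c : O) (hc : c * P.ta = P.ka ^ (r + 1)) :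
    TCycP P 1 r (ColP 0 n (F2 true 1 true (ColM 0 m B))) (P.ta * B.ep v) := by
  have h2r : 2 * r + 1 = 2 * r + 1 := rfl
  refine tcycP_of_first' (C := ColM 0 m B) (a0 := io0 m B v) (A := AA P m n B v)
    (io0_HH hv) (AA_HH hv) (fun a j hj => AA_ge hj) (first0 hd (by omega) hv)
    (fun a ha => first1 hd hv a (by omega))
    ((MvPolynomial.C (P.ka ^ r) : S O) • GG P (io m B (2 * r + 1) (zip O true 0 v)))
    (fun i => if i < n then cf P r c i • UU m B v (2 * r + 2 + i) else 0)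
    (Submodule.smul_mem _ _ (map_mem_HH _ (map_mem_HH _ (map_mem_HH _ hv))))
    (fun i => ?_) (fun i hi => if_neg (by omega)) ?_ (fun hn0 => ?_) (fun i hi => ?_)
  · split_ifs
    · exact Submodule.smul_mem _ _ (UU_HH hv _)
    · exact zero_mem _
  · rw [map_smul, ← GG_nat, d_io_zip hd (2 * r) (by omega), if_pos (by omega), map_zero, smul_zero]
    exact zero_mem _
  · rw [if_pos hn0, cf, if_pos rfl, zero_smul, map_zero, zero_add, AA_lt hn0, map_smul, map_smul,
      map_smul, map_smul]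
    have hY : Yc P (2 * r + 1) 0 = P.ka ^ r := by
      have := Yc_oe P r 0
      rw [Rc_l_zero] at this
      exact this
    rw [hY, add_zero, ← smul_add, add_comm]
    exact Submodule.smul_mem _ _ (keyZ hv _)
  · have hq : 2 * r + 2 + (i + 1) = (2 * r + 2 + i) + 1 := by omega
    have hq' : 2 * r + 1 + (i + 1) = 2 * r + 2 + i := by omega
    rw [if_pos hi, if_pos (by omega : i < n), AA_lt hi, map_smul, map_smul, map_smul, map_smul,
      map_smul, hq, hq', UU_d hd _ (by omega), UU_alp]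
    by_cases h : (i + 1) % 2 = 1
    · obtain ⟨s, rfl⟩ : ∃ s, i = 2 * s := ⟨i / 2, by omega⟩
      rw [if_pos (by omega), if_pos h, Yc_oo, map_zero, zero_smul, smul_zero, smul_zero, add_zero,
        add_zero]
      exact zero_mem _
    · obtain ⟨s, rfl⟩ : ∃ s, i = 2 * s + 1 := ⟨i / 2, by omega⟩
      have hcf1 : cf P r c (2 * s + 1 + 1) = MvPolynomial.C (Rc P r (s + 1)) +
          MvPolynomial.C (c * ((Nat.choose (s + 1 + r) r : ℕ) : O)) *
            (yv O 1 + MvPolynomial.C P.ka) := by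
        unfold cf
        rw [if_neg (by omega), if_neg (by omega)]
        have : (2 * s + 1 + 1) / 2 = s + 1 := by omega
        rw [this]
      have hcf0 : cf P r c (2 * s + 1) = MvPolynomial.C (Rc P r (s + 1)) := by
        unfold cf
        rw [if_neg (by omega), if_pos (by omega)]
        have : (2 * s + 1 + 1) / 2 = s + 1 := by omega
        rw [this]
      have hY : Yc P (2 * r + 1) (2 * s + 1 + 1) = Rc P r (s + 1) := Yc_oe P r (s + 1)
      rw [if_neg (by omega), if_neg (by omega), hcf1, hcf0, hY]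
      have hK := keyZ (P := P) (m := m) hv (2 * r + 2 + (2 * s + 1))
      rw [map_GG] at hK
      exact last_alg (P := P) (Rc P r (s + 1)) ((Nat.choose (s + 1 + r) r : ℕ) : O) c r rfl hc _ _ _
        (UU_HH hv _ 1) hK (UU_q1 hv _)

/-- (H5) -/
theorem initP (P : Pot O) (k s : ℕ) (hk : 1 ≤ k) (hdvd : P.ta ∣ P.ka ^ k) :
    TCycP P 1 (k - 1) (ColP 0 (2 * k + 1) (F2 true 1 true (ColM 0 (4 * k + 1) (R0 O s)))) P.ta := by
  obtain ⟨c, hc⟩ := hdvd
  have h1 : (1 : RS O s) ∈ HH O (R0 O s).V := by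
    intro j
    change rho O s (xv O j) * 1 = rho O s (yv O j) * 1
    simp [rho]
  have h := initP_general (P := P) (B := R0 O s) (v := (1 : RS O s)) (m := 4 * k + 1)
    (n := 2 * k + 1) rfl h1 (k - 1) (by omega) c (by
      rw [mul_comm, ← hc]
      congr 1; omega)
  have hep : (R0 O s).ep (1 : RS O s) = 1 := by
    change MvPolynomial.eval (0 : Fin s → O) 1 = 1
    rw [map_one]
  rw [hep, mul_one] at h
  exact h

/-- (H5), the form used in the assembly -/
theorem initPos (P : Pot O) (j : ℕ) (h : P.ta ∣ P.ka ^ (j + 1)) :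
    TCycP P 1 j (ColP 0 (2 * (j + 1) + 1) (F2 true 1 true
      (ColM 0 (4 * (j + 1) + 1) (R0 O (j + 3))))) P.ta :=
  initP P (j + 1) (j + 3) (by omega) h

end last

end CQ.IP
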