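import Pool.Agent.CQ.EPFG

/-!
# Künneth: separation of points and the functional `π`
-/

set_option autoImplicit false
set_option linter.unusedSectionVars false

namespace CQ

open MvPolynomial

variable {O : Type} [CommRing O]

/-! ## Separation -/

/-- The functionals with `c_k = 0` separate the points of `HH/(x_k HH + NN)`. -/
def Sep (P : Pot O) (k : ℕ) (C : Type) [AddCommGroup C] [Module (S O) C] : Prop :=
  ∀ z ∈ HH O C, (∀ c : ℕ → O, P.IsCol c → c k = 0 → ∀ ψ : C →ₛₗ[ev c] O, ψ z = 0) →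
    ∃ u ∈ HH O C, z + xv O k • u ∈ NN P C

theorem Pot.q_root_kl [CharP O 2] (P : Pot O) {c : O} (hc : P.IsRoot c) (h0 : c ≠ 0) :
    c * c + P.ka * c + P.ta = 0 := by
  have h2 := two0 O
  rcases hc with h | h | h
  · exact absurd h h0
  · rw [h, Pot.ka, Pot.ta]
    linear_combination (P.l2 * P.l2 + P.l2 * P.l3) * h2
  · rw [h, Pot.ka, Pot.ta]
    linear_combination (P.l3 * P.l3 + P.l2 * P.l3) * h2

/-- `q(x_k) z` is negligible if the functionals with `c_k = 0` vanish on `z`. -/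
theorem q_mem_NN [CharP O 2] {P : Pot O} {k : ℕ} {C : Type} [AddCommGroup C] [Module (S O) C]
    {z : C} (hz : ∀ c : ℕ → O, P.IsCol c → c k = 0 → ∀ ψ : C →ₛₗ[ev c] O, ψ z = 0) :
    xv O k • xv O k • z + (MvPolynomial.C P.ka : S O) • xv O k • z +
      (MvPolynomial.C P.ta : S O) • z ∈ NN P C := by
  intro c hc ψ
  have e : ψ (xv O k • xv O k • z + (MvPolynomial.C P.ka : S O) • xv O k • z +
      (MvPolynomial.C P.ta : S O) • z) = (c k * c k + P.ka * c k + P.ta) * ψ z := by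
    simp only [map_add, map_smulₛₗ, ev_inl, ev_C, smul_eq_mul]
    ring
  rw [e]
  by_cases h0 : c k = 0
  · rw [hz c hc h0 ψ, mul_zero]
  · rw [P.q_root_kl (hc k) h0, zero_mul]

/-- (SEP) from the second half of the E-property. -/
theorem sep_of_E [CharP O 2] {P : Pot O} {k : ℕ} {C : Type} [AddCommGroup C] [Module (S O) C]
    (hE : ∀ z ∈ HH O C, xv O k • xv O k • z + (MvPolynomial.C P.ka : S O) • xv O k • z +
      (MvPolynomial.C P.ta : S O) • z ∈ NN P C → ∃ u ∈ HH O C, z + xv O k • u ∈ NN P C) :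
    Sep P k C := fun z hz h => hE z hz (q_mem_NN h)

/-- (SEP) from the E-property of `x_k`. -/
theorem sep_of_EP [CharP O 2] {P : Pot O} {k : ℕ} {C : Type} [AddCommGroup C] [Module (S O) C]
    (hE : EP P C (xv O k • LinearMap.id)) : Sep P k C := sep_of_E fun z hz h => hE.2 z hz h

/-- (SEP) from the E-property with `P.q`. -/
theorem sep_of_q [CharP O 2] {P : Pot O} {k : ℕ} {C : Type} [AddCommGroup C] [Module (S O) C]
    (hE : ∀ z ∈ HH O C, P.q (xv O k) • z ∈ NN P C → ∃ u ∈ HH O C, z + xv O k • u ∈ NN P C) :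
    Sep P k C := by
  refine sep_of_E fun z hz h => hE z hz ?_
  have e : P.q (xv O k) • z = xv O k • xv O k • z + (MvPolynomial.C P.ka : S O) • xv O k • z +
      (MvPolynomial.C P.ta : S O) • z := by
    unfold Pot.q
    rw [add_smul, add_smul, mul_smul, sq, mul_smul]
    rfl
  rw [e]
  exact h

/-! ## Linear algebra over a principal ideal domain -/

theorem exists_pi_aux [IsDomain O] [IsPrincipalIdealRing O] {M : Type} [AddCommGroup M]
    [Module O M] [Module.Finite O M] [Module.IsTorsionFree O M] (d : M →ₗ[O] M)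
    (ε : M →ₗ[O] O) (hε : ∀ v, ε (d v) = 0) (hdd : ∀ v, d (d v) = 0) (g : O) (hg : g ≠ 0)
    (h : ∀ v, d v = 0 → g ∣ ε v) :
    ∃ π : M →ₗ[O] O, (∀ v, π (d v) = 0) ∧ ∀ v, d v = 0 → g * π v = ε v := by
  obtain ⟨s, hs⟩ := d.rangeRestrict.exists_rightInverse_of_surjective d.range_rangeRestrict
  have hs' : ∀ v, d (s v) = v := fun v => congrArg Subtype.val (LinearMap.congr_fun hs v)
  let p : M →ₗ[O] M := LinearMap.id - s ∘ₗ d.rangeRestrict
  have hpv : ∀ v, p v = v - s (d.rangeRestrict v) := fun v => rfl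
  have hp : ∀ v, d (p v) = 0 := by
    intro v
    rw [hpv, map_sub, hs']
    exact sub_self _
  have hp2 : ∀ v, d v = 0 → p v = v := by
    intro v hv
    have h1 : d.rangeRestrict v = 0 := Subtype.ext hv
    rw [hpv, h1, map_zero, sub_zero]
  choose π hπ using fun v => h (p v) (hp v)
  refine ⟨{ toFun := π, map_add' := fun v w => ?_, map_smul' := fun o v => ?_ }, ?_, ?_⟩
  · apply mul_left_cancel₀ hg
    rw [← hπ, map_add, map_add, mul_add, ← hπ, ← hπ]
  · apply mul_left_cancel₀ hg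
    rw [← hπ, map_smul, map_smul, RingHom.id_apply, smul_eq_mul, smul_eq_mul, hπ]
    ring
  · intro v
    apply mul_left_cancel₀ hg
    change g * π (d v) = g * 0
    rw [← hπ, hp2 _ (hdd v), hε, mul_zero]
  · intro v hv
    change g * π v = ε v
    rw [← hπ, hp2 v hv]

section pi
variable [CharP O 2] (P : Pot O) (B : DM O) (k : ℕ)

/-- The elements of `x_k HH + NN`. -/
def Wk : Submodule (S O) (HH O B.V) where
  carrier := {v | ∃ u ∈ HH O B.V, (v : B.V) + xv O k • u ∈ NN P B.V}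
  zero_mem' := ⟨0, zero_mem _, by
    rw [smul_zero, add_zero]
    exact zero_mem _⟩
  add_mem' := by
    rintro v w ⟨u, hu, h⟩ ⟨u', hu', h'⟩
    refine ⟨u + u', add_mem hu hu', ?_⟩
    have e : ((v + w : HH O B.V) : B.V) + xv O k • (u + u') =
        (v + xv O k • u) + (w + xv O k • u') := by
      rw [smul_add, Submodule.coe_add]
      abel
    rw [e]
    exact add_mem h h'
  smul_mem' := by
    rintro s v ⟨u, hu, h⟩
    refine ⟨s • u, Submodule.smul_mem _ _ hu, ?_⟩
    have e : ((s • v : HH O B.V) : B.V) + xv O k • s • u = s • (v + xv O k • u) := by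
      rw [smul_add, smul_comm s (xv O k), Submodule.coe_smul]
    rw [e]
    exact Submodule.smul_mem _ _ h

theorem mem_Wk {v : HH O B.V} :
    v ∈ Wk P B k ↔ ∃ u ∈ HH O B.V, (v : B.V) + xv O k • u ∈ NN P B.V := Iff.rfl

theorem ep_NN {z : B.V} (hz : z ∈ NN P B.V) : B.ep z = 0 := hz 0 (fun _ => Or.inl rfl) B.ep

/-- the differential on `HH` -/
noncomputable def dHH : HH O B.V →ₗ[S O] HH O B.V :=
  B.d.restrict fun _ hv => map_mem_HH B.d hv

theorem dHH_coe (v : HH O B.V) : ((dHH B v : HH O B.V) : B.V) = B.d v := rfl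

/-- (LA) the functional `π` on `HH`. -/
theorem exists_pi [IsDomain O] [IsPrincipalIdealRing O] (hsep : Sep P k B.V) (hfg : FG P B.V)
    (g : O) (hg : g ≠ 0) (hI : Idl P B k ≤ Ideal.span {g}) :
    ∃ π : HH O B.V →+ O, (∀ (o : O) (v : HH O B.V), π ((MvPolynomial.C o : S O) • v) = o * π v) ∧
      (∀ v : HH O B.V, (∃ u ∈ HH O B.V, (v : B.V) + xv O k • u ∈ NN P B.V) → π v = 0) ∧
      (∀ v : HH O B.V, π (dHH B v) = 0) ∧
      ∀ v : HH O B.V, (∃ u ∈ HH O B.V, B.d v + xv O k • u ∈ NN P B.V) → g * π v = B.ep v := by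
  letI modO : Module O (HH O B.V) := Module.compHom (HH O B.V) (MvPolynomial.C : O →+* S O)
  have hsm : ∀ (o : O) (v : HH O B.V), o • v = (MvPolynomial.C o : S O) • v := fun _ _ => rfl
  let W : Submodule O (HH O B.V) :=
    { carrier := Wk P B k
      zero_mem' := zero_mem _
      add_mem' := fun h h' => add_mem h h'
      smul_mem' := fun o v h => Submodule.smul_mem (Wk P B k) _ h }
  have hW : ∀ v : HH O B.V, v ∈ W ↔ v ∈ Wk P B k := fun _ => Iff.rfl
  let dO : HH O B.V →ₗ[O] HH O B.V :=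
    { toFun := dHH B
      map_add' := fun v w => map_add _ _ _
      map_smul' := fun o v => by
        rw [hsm, hsm, map_smul, RingHom.id_apply] }
  have hdW : W ≤ W.comap dO := by
    rintro v ⟨u, hu, h⟩
    refine ⟨B.d u, map_mem_HH B.d hu, ?_⟩
    have e : B.d v + xv O k • B.d u = B.d (v + xv O k • u) := by
      rw [map_add, map_smul]
    change B.d v + xv O k • B.d u ∈ NN P B.V
    rw [e]
    exact map_mem_NN B.d h
  let εO : HH O B.V →ₗ[O] O :=
    { toFun := fun v => B.ep v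
      map_add' := fun v w => by rw [Submodule.coe_add, map_add]
      map_smul' := fun o v => by
        rw [hsm, Submodule.coe_smul, map_smulₛₗ, ev_C, RingHom.id_apply] }
  have hεW : W ≤ LinearMap.ker εO := by
    rintro v ⟨u, hu, h⟩
    have h1 := ep_NN P B h
    rw [map_add, map_smulₛₗ, ev_inl] at h1
    change B.ep v = 0
    simpa using h1
  let M := HH O B.V ⧸ W
  let d : M →ₗ[O] M := W.mapQ W dO hdW
  let ε : M →ₗ[O] O := W.liftQ εO hεW
  have hd : ∀ v : HH O B.V, d (W.mkQ v) = W.mkQ (dHH B v) := fun _ => rfl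
  have hε : ∀ v : HH O B.V, ε (W.mkQ v) = B.ep v := fun _ => rfl
  have hmk : ∀ v : HH O B.V, W.mkQ v = 0 ↔ v ∈ Wk P B k := fun v => by
    rw [Submodule.mkQ_apply, Submodule.Quotient.mk_eq_zero]
    exact hW v
  have hfin : Module.Finite O M := by
    obtain ⟨n, G, hG, hgen⟩ := hfg.exists_fun
    let f : (Fin n → O) →ₗ[O] M := Fintype.linearCombination O fun j => W.mkQ ⟨G j, hG j⟩
    refine Module.Finite.of_surjective f ?_
    intro q
    obtain ⟨v, rfl⟩ := W.mkQ_surjective q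
    obtain ⟨o, ho⟩ := hgen v v.2
    refine ⟨o, ?_⟩
    have e1 : f o = W.mkQ (∑ j, o j • (⟨G j, hG j⟩ : HH O B.V)) := by
      rw [Fintype.linearCombination_apply, map_sum]
      rfl
    rw [e1, ← sub_eq_zero, ← map_sub, hmk]
    refine ⟨0, zero_mem _, ?_⟩
    rw [smul_zero, add_zero]
    have e2 : ((∑ j, o j • (⟨G j, hG j⟩ : HH O B.V) - v : HH O B.V) : B.V) =
        v + ∑ j, (MvPolynomial.C (o j) : S O) • G j := by
      have e3 : ((∑ j, o j • (⟨G j, hG j⟩ : HH O B.V) : HH O B.V) : B.V) =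
          ∑ j, (MvPolynomial.C (o j) : S O) • G j := by
        rw [AddSubmonoidClass.coe_finsetSum]
        rfl
      rw [AddSubgroupClass.coe_sub, e3, sub_eq_add_neg, add_comm]
      congr 1
      exact (eq_neg_of_add_eq_zero_left (add_self_mod (O := O) (v : B.V))).symm
    rw [e2]
    exact ho
  have htf : Module.IsTorsionFree O M := by
    refine ⟨fun r hr => ?_⟩
    have hr0 : r ≠ 0 := hr.ne_zero
    have key : ∀ q : M, r • q = 0 → q = 0 := by
      intro q hq
      obtain ⟨v, rfl⟩ := W.mkQ_surjective q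
      rw [← map_smul, hmk] at hq
      rw [hmk]
      obtain ⟨u, hu, h⟩ := hq
      refine hsep v v.2 fun c hc hck ψ => ?_
      have h1 := h c hc ψ
      rw [hsm, Submodule.coe_smul, map_add, map_smulₛₗ, map_smulₛₗ, ev_C, ev_inl, hck, zero_smul,
        add_zero, smul_eq_mul] at h1
      exact (mul_eq_zero.1 h1).resolve_left hr0
    intro q q' hqq
    have h1 : r • q = r • q' := hqq
    have h2 : r • (q - q') = 0 := by rw [smul_sub, h1, sub_self]
    exact sub_eq_zero.1 (key _ h2)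
  have hεd : ∀ q, ε (d q) = 0 := by
    intro q
    obtain ⟨v, rfl⟩ := W.mkQ_surjective q
    exact B.epd v v.2
  have hdd : ∀ q, d (d q) = 0 := by
    intro q
    obtain ⟨v, rfl⟩ := W.mkQ_surjective q
    rw [hd, hd, hmk]
    refine ⟨0, zero_mem _, ?_⟩
    rw [smul_zero, add_zero, dHH_coe, dHH_coe, B.dd]
    exact zero_mem _
  have hdvd : ∀ q, d q = 0 → g ∣ ε q := by
    intro q hq
    obtain ⟨v, rfl⟩ := W.mkQ_surjective q
    rw [hd, hmk] at hq
    obtain ⟨u, hu, h⟩ := hq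
    rw [hε, ← Ideal.mem_span_singleton]
    exact hI ⟨v, v.2, u, hu, h, rfl⟩
  obtain ⟨π, hπ1, hπ2⟩ := exists_pi_aux (M := M) d ε hεd hdd g hg hdvd
  refine ⟨(π ∘ₗ W.mkQ).toAddMonoidHom, fun o v => ?_, fun v hv => ?_, fun v => ?_,
    fun v hv => ?_⟩
  · change π (W.mkQ ((MvPolynomial.C o : S O) • v)) = o * π (W.mkQ v)
    rw [← hsm, map_smul, map_smul, smul_eq_mul]
  · change π (W.mkQ v) = 0
    rw [(hmk v).2 hv, map_zero]
  · exact hπ1 (W.mkQ v)
  · refine hπ2 (W.mkQ v) ?_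
    rw [hd, hmk]
    exact hv

/-- (LA) the functional `π` as a function on the whole module. -/
theorem exists_pi' [IsDomain O] [IsPrincipalIdealRing O] (hsep : Sep P k B.V) (hfg : FG P B.V)
    (g : O) (hg : g ≠ 0) (hI : Idl P B k ≤ Ideal.span {g}) :
    ∃ π : B.V → O, (∀ v ∈ HH O B.V, ∀ w ∈ HH O B.V, π (v + w) = π v + π w) ∧
      (∀ (o : O), ∀ v ∈ HH O B.V, π ((MvPolynomial.C o : S O) • v) = o * π v) ∧
      (∀ v ∈ HH O B.V, (∃ u ∈ HH O B.V, v + xv O k • u ∈ NN P B.V) → π v = 0) ∧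
      (∀ v ∈ HH O B.V, π (B.d v) = 0) ∧
      ∀ v ∈ HH O B.V, (∃ u ∈ HH O B.V, B.d v + xv O k • u ∈ NN P B.V) → g * π v = B.ep v := by
  classical
  obtain ⟨π, h1, h2, h3, h4⟩ := exists_pi P B k hsep hfg g hg hI
  have e : ∀ (v : B.V) (hv : v ∈ HH O B.V),
      (if h : v ∈ HH O B.V then π ⟨v, h⟩ else 0) = π ⟨v, hv⟩ := fun v hv => dif_pos hv
  refine ⟨fun v => if h : v ∈ HH O B.V then π ⟨v, h⟩ else 0, fun v hv w hw => ?_, fun o v hv => ?_,
    fun v hv h => ?_, fun v hv => ?_, fun v hv h => ?_⟩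
  · change (if h : v + w ∈ HH O B.V then π ⟨v + w, h⟩ else 0) = (if h : v ∈ HH O B.V then π ⟨v, h⟩
      else 0) + (if h : w ∈ HH O B.V then π ⟨w, h⟩ else 0)
    rw [e v hv, e w hw, e (v + w) (add_mem hv hw), ← map_add]
    rfl
  · change (if h : (MvPolynomial.C o : S O) • v ∈ HH O B.V then
      π ⟨(MvPolynomial.C o : S O) • v, h⟩ else 0) = o * (if h : v ∈ HH O B.V then π ⟨v, h⟩ else 0)
    rw [e v hv, e _ (Submodule.smul_mem _ _ hv), ← h1]
    rfl
  · change (if h : v ∈ HH O B.V then π ⟨v, h⟩ else 0) = 0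
    rw [e v hv]
    exact h2 ⟨v, hv⟩ h
  · change (if h : B.d v ∈ HH O B.V then π ⟨B.d v, h⟩ else 0) = 0
    rw [e _ (map_mem_HH B.d hv)]
    exact h3 ⟨v, hv⟩
  · change g * (if h : v ∈ HH O B.V then π ⟨v, h⟩ else 0) = B.ep v
    rw [e v hv]
    exact h4 ⟨v, hv⟩ h

end pi

end CQ
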