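import Pool.Agent.CQ.Markov

/-!
# Block E, fourth part: `C[X_m]` commutes with letters below `m`, and `RS (m+1) = (RS m)[X_m]`
-/

set_option autoImplicit false
set_option linter.unusedSectionVars false
set_option linter.unusedSimpArgs false
set_option linter.unusedVariables false
set_option linter.unnecessarySeqFocus false

namespace CQ
open MvPolynomial

variable {O : Type} [CommRing O] [CharP O 2]

namespace Mk

/-! ## `NoVar` -/

theorem NoVar.D2 {m : ℕ} {C : Type} [AddCommGroup C] [Module (S O) C] (h : NoVar O m C) (t : Bool)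
    {i : ℕ} (hi : i + 1 < m) : NoVar O m (CQ.D2 t i C) := by
  have h1 : ∀ t' t'' : Bool, inj t' m ≠ inj t'' i := by
    intro t' t''; cases t' <;> cases t'' <;> simp [inj] <;> omega
  have h2 : ∀ t' t'' : Bool, inj t' m ≠ inj t'' (i + 1) := by
    intro t' t''; cases t' <;> cases t'' <;> simp [inj] <;> omega
  intro z
  constructor
  · change (X (inj false m) : S O) • z = 0
    ext1
    · rw [D2.X_smul_a_of_ne _ (h1 _ _) (h2 _ _)]; exact (h z.a).1
    · rw [D2.X_smul_b_of_ne _ (h1 _ _) (h2 _ _)]; exact (h z.b).1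
  · change (X (inj true m) : S O) • z = 0
    ext1
    · rw [D2.X_smul_a_of_ne _ (h1 _ _) (h2 _ _)]; exact (h z.a).2
    · rw [D2.X_smul_b_of_ne _ (h1 _ _) (h2 _ _)]; exact (h z.b).2

theorem NoVar.Bw {m : ℕ} (t : Bool) (w : List ℕ) (hw : ∀ i ∈ w, i + 1 < m) (C : SM O)
    (h : NoVar O m C.V) : NoVar O m (Bw t w C).V := by
  induction w generalizing C with
  | nil => exact h
  | cons i w ih =>
    exact ih (fun j hj => hw j (List.mem_cons_of_mem _ hj)) (SM.D2 t i C)
      (h.D2 t (hw i List.mem_cons_self))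

theorem noVar_RS {m s : ℕ} (h : s ≤ m) : NoVar O m (RS O s) := by
  intro v
  have h' : ¬ m < s := by omega
  constructor
  · change rho O s (X (Sum.inl m)) * v = 0
    simp [rho, h']
  · change rho O s (X (Sum.inr m)) * v = 0
    simp [rho, h']

theorem NoVar.PX {j m : ℕ} {C : Type} [AddCommGroup C] [Module (S O) C] (h : NoVar O j C)
    (hj : j ≠ m) : NoVar O j (CQ.PX O m C) := by
  intro f
  constructor
  · apply PX.ext'; intro n
    rw [PX.co_X_smul_of_ne (m := m) (Sum.inl j) (by simpa using hj) (by simp)]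
    exact (h _).1
  · apply PX.ext'; intro n
    rw [PX.co_X_smul_of_ne (m := m) (Sum.inr j) (by simp) (by simpa using hj)]
    exact (h _).2

/-! ## `D2 t i (C[X_m]) ≃ (D2 t i C)[X_m]` for `i + 1 < m` -/

section swap
variable {m : ℕ} {t : Bool} {i : ℕ} {C D : Type} [AddCommGroup C] [Module (S O) C]
  [AddCommGroup D] [Module (S O) D]

theorem inj_ne_l {m i : ℕ} (t : Bool) (h : i ≠ m) : inj t i ≠ Sum.inl m := by
  cases t <;> simp [inj, h]
theorem inj_ne_r {m i : ℕ} (t : Bool) (h : i ≠ m) : inj t i ≠ Sum.inr m := by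
  cases t <;> simp [inj, h]

theorem co_e1_smul (t : Bool) (hi : i + 1 < m) (f : PX O m C) (n : ℕ) :
    (e1 O t i • f).co n = e1 O t i • f.co n := by
  rw [e1_def, add_smul, add_smul, PX.co_add,
    PX.co_X_smul_of_ne _ (inj_ne_l t (by omega)) (inj_ne_r t (by omega)),
    PX.co_X_smul_of_ne _ (inj_ne_l t (by omega)) (inj_ne_r t (by omega))]

theorem co_e2_smul (t : Bool) (hi : i + 1 < m) (f : PX O m C) (n : ℕ) :
    (e2 O t i • f).co n = e2 O t i • f.co n := by
  rw [e2_def, mul_smul, mul_smul,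
    PX.co_X_smul_of_ne _ (inj_ne_l t (by omega)) (inj_ne_r t (by omega)),
    PX.co_X_smul_of_ne _ (inj_ne_l t (by omega)) (inj_ne_r t (by omega))]

/-- first coordinate inclusion -/
def inA (t : Bool) (i : ℕ) (C : Type) [AddCommGroup C] : C →+ D2 t i C where
  toFun v := ⟨v, 0⟩
  map_zero' := rfl
  map_add' v w := by ext1 <;> simp
/-- second coordinate inclusion -/
def inB (t : Bool) (i : ℕ) (C : Type) [AddCommGroup C] : C →+ D2 t i C where
  toFun v := ⟨0, v⟩
  map_zero' := rfl
  map_add' v w := by ext1 <;> simp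
/-- first coordinate -/
def prA (t : Bool) (i : ℕ) (C : Type) [AddCommGroup C] : D2 t i C →+ C where
  toFun v := v.a
  map_zero' := rfl
  map_add' v w := rfl
/-- second coordinate -/
def prB (t : Bool) (i : ℕ) (C : Type) [AddCommGroup C] : D2 t i C →+ C where
  toFun v := v.b
  map_zero' := rfl
  map_add' v w := rfl

/-- the additive map `D2 t i (C[X_m]) → (D2 t i C)[X_m]` -/
noncomputable def dpAdd (m : ℕ) (t : Bool) (i : ℕ) (C : Type) [AddCommGroup C] [Module (S O) C] :
    D2 t i (PX O m C) →+ PX O m (D2 t i C) where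
  toFun z := PX.mapAdd (m := m) (inA t i C) z.a + PX.mapAdd (m := m) (inB t i C) z.b
  map_zero' := by simp
  map_add' z w := by simp only [D2.add_a, D2.add_b, map_add]; abel

theorem co_dpAdd (z : D2 t i (PX O m C)) (n : ℕ) :
    (dpAdd m t i C z).co n = ⟨z.a.co n, z.b.co n⟩ := by
  change (PX.mapAdd (m := m) (inA t i C) z.a + PX.mapAdd (m := m) (inB t i C) z.b).co n = _
  rw [PX.co_add, PX.co_mapAdd, PX.co_mapAdd]
  ext1
  · change z.a.co n + 0 = z.a.co n
    rw [add_zero]
  · change 0 + z.b.co n = z.b.co n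
    rw [zero_add]

/-- `D2 t i (C[X_m]) → (D2 t i C)[X_m]` -/
noncomputable def dp (hi : i + 1 < m) (t : Bool) (C : Type) [AddCommGroup C] [Module (S O) C] :
    D2 t i (PX O m C) →ₗ[S O] PX O m (D2 t i C) :=
  D2.mk2 (dpAdd m t i C)
    (fun o z => by
      apply PX.ext'; intro n
      rw [co_dpAdd, PX.co_C_smul, co_dpAdd]
      ext1
      · rw [D2.C_smul_a, D2.C_smul_a, PX.co_C_smul]
      · rw [D2.C_smul_b, D2.C_smul_b, PX.co_C_smul])
    (fun s z h h' => by
      apply PX.ext'; intro n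
      by_cases hs : s = Sum.inl m ∨ s = Sum.inr m
      · cases n with
        | zero =>
          rw [PX.co_X_smul_zero s hs, co_dpAdd]
          ext1
          · rw [D2.X_smul_a_of_ne s h h', PX.co_X_smul_zero s hs]; rfl
          · rw [D2.X_smul_b_of_ne s h h', PX.co_X_smul_zero s hs]; rfl
        | succ n =>
          rw [PX.co_X_smul_succ s hs, co_dpAdd, co_dpAdd]
          ext1
          · rw [D2.X_smul_a_of_ne s h h', PX.co_X_smul_succ s hs]
          · rw [D2.X_smul_b_of_ne s h h', PX.co_X_smul_succ s hs]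
      · rw [not_or] at hs
        rw [PX.co_X_smul_of_ne s hs.1 hs.2, co_dpAdd, co_dpAdd]
        ext1
        · rw [D2.X_smul_a_of_ne s h h', D2.X_smul_a_of_ne s h h', PX.co_X_smul_of_ne s hs.1 hs.2]
        · rw [D2.X_smul_b_of_ne s h h', D2.X_smul_b_of_ne s h h', PX.co_X_smul_of_ne s hs.1 hs.2])
    (fun z => by
      apply PX.ext'; intro n
      rw [PX.co_X_smul_of_ne _ (inj_ne_l t (by omega)) (inj_ne_r t (by omega)), co_dpAdd, co_dpAdd]
      ext1
      · rw [D2.X_smul_i_a, D2.X_smul_i_a, co_e2_smul t hi]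
      · rw [D2.X_smul_i_b, D2.X_smul_i_b, PX.co_add, co_e1_smul t hi])
    (fun z => by
      apply PX.ext'; intro n
      rw [PX.co_X_smul_of_ne _ (inj_ne_l t (by omega)) (inj_ne_r t (by omega)), co_dpAdd, co_dpAdd]
      ext1
      · rw [D2.X_smul_succ_a, D2.X_smul_succ_a, PX.co_add, co_e1_smul t hi, co_e2_smul t hi]
      · rw [D2.X_smul_succ_b, D2.X_smul_succ_b])

theorem co_dp (hi : i + 1 < m) (z : D2 t i (PX O m C)) (n : ℕ) :
    (dp hi t C z).co n = ⟨z.a.co n, z.b.co n⟩ := co_dpAdd z n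

/-- `D2 t i (C[X_m]) ≃ (D2 t i C)[X_m]` -/
noncomputable def dpE (hi : i + 1 < m) (t : Bool) (C : Type) [AddCommGroup C] [Module (S O) C] :
    D2 t i (PX O m C) ≃ₗ[S O] PX O m (D2 t i C) :=
  { dp hi t C with
    invFun := fun f => ⟨PX.mapAdd (m := m) (prA t i C) f, PX.mapAdd (m := m) (prB t i C) f⟩
    left_inv := fun z => by
      ext1
      · apply PX.ext'; intro n
        change prA t i C ((dp hi t C z).co n) = _
        rw [co_dp]; rfl
      · apply PX.ext'; intro n
        change prB t i C ((dp hi t C z).co n) = _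
        rw [co_dp]; rfl
    right_inv := fun f => by
      apply PX.ext'; intro n
      change (dp hi t C ⟨PX.mapAdd (m := m) (prA t i C) f, PX.mapAdd (m := m) (prB t i C) f⟩).co n = _
      rw [co_dp]; rfl }

theorem co_dpE (hi : i + 1 < m) (z : D2 t i (PX O m C)) (n : ℕ) :
    (dpE hi t C z).co n = ⟨z.a.co n, z.b.co n⟩ := co_dpAdd z n

theorem dpE_nat (hi : i + 1 < m) (g : C →ₗ[S O] D) (z : D2 t i (PX O m C)) :
    dpE hi t D (D2.map (PX.map (m := m) g) z) = PX.map (m := m) (D2.map g) (dpE hi t C z) := by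
  apply PX.ext'; intro n
  rw [co_dpE, PX.co_map, co_dpE]
  ext1 <;> simp

end swap

/-! ## Words -/

/-- functoriality of `Bw` for isomorphisms -/
theorem Bw_map_inv (t : Bool) (w : List ℕ) {C D : SM O} (e : C.V ≃ₗ[S O] D.V) :
    (∀ z, Bw.map t w (e.symm : D.V →ₗ[S O] C.V) (Bw.map t w (e : C.V →ₗ[S O] D.V) z) = z) ∧
    (∀ z, Bw.map t w (e : C.V →ₗ[S O] D.V) (Bw.map t w (e.symm : D.V →ₗ[S O] C.V) z) = z) := by
  constructor
  · intro z
    have h := Bw.map_comp t w (C := C) (D := D) (E := C) (e.symm : D.V →ₗ[S O] C.V)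
      (e : C.V →ₗ[S O] D.V)
    have h1 : (e.symm : D.V →ₗ[S O] C.V) ∘ₗ (e : C.V →ₗ[S O] D.V) = LinearMap.id := by
      ext x; simp
    rw [h1, Bw.map_id] at h
    exact (LinearMap.congr_fun h z).symm
  · intro z
    have h := Bw.map_comp t w (C := D) (D := C) (E := D) (e : C.V →ₗ[S O] D.V)
      (e.symm : D.V →ₗ[S O] C.V)
    have h1 : (e : C.V →ₗ[S O] D.V) ∘ₗ (e.symm : D.V →ₗ[S O] C.V) = LinearMap.id := by
      ext x; simp
    rw [h1, Bw.map_id] at h
    exact (LinearMap.congr_fun h z).symm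

/-- `Bw` of an isomorphism -/
noncomputable def BwE (t : Bool) (w : List ℕ) {C D : SM O} (e : C.V ≃ₗ[S O] D.V) :
    (Bw t w C).V ≃ₗ[S O] (Bw t w D).V :=
  { Bw.map t w (e : C.V →ₗ[S O] D.V) with
    invFun := Bw.map t w (e.symm : D.V →ₗ[S O] C.V)
    left_inv := (Bw_map_inv t w e).1
    right_inv := (Bw_map_inv t w e).2 }

theorem BwE_apply (t : Bool) (w : List ℕ) {C D : SM O} (e : C.V ≃ₗ[S O] D.V) (z : (Bw t w C).V) :
    BwE t w e z = Bw.map t w (e : C.V →ₗ[S O] D.V) z := rfl

/-- `Bw t w (C[X_m]) ≃ (Bw t w C)[X_m]` for words with letters `i`, `i + 1 < m` -/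
noncomputable def bp (m : ℕ) (t : Bool) : (w : List ℕ) → (∀ i ∈ w, i + 1 < m) → (C : SM O) →
    ((Bw t w (SM.PX m C)).V ≃ₗ[S O] (SM.PX m (Bw t w C)).V)
  | [], _, C => LinearEquiv.refl _ _
  | i :: w, hw, C =>
    (BwE t w (C := SM.D2 t i (SM.PX m C)) (D := SM.PX m (SM.D2 t i C))
      (dpE (hw i List.mem_cons_self) t C.V)).trans
      (bp m t w (fun j hj => hw j (List.mem_cons_of_mem _ hj)) (SM.D2 t i C))

theorem bp_nat (m : ℕ) (t : Bool) (w : List ℕ) (hw : ∀ i ∈ w, i + 1 < m) {C D : SM O}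
    (g : C.V →ₗ[S O] D.V) (z : (Bw t w (SM.PX m C)).V) :
    bp m t w hw D (Bw.map t w (C := SM.PX m C) (D := SM.PX m D) (PX.map (m := m) g) z) =
      PX.map (m := m) (Bw.map t w g) (bp m t w hw C z) := by
  induction w generalizing C D with
  | nil => rfl
  | cons i w ih =>
    have hi := hw i List.mem_cons_self
    have h1 := ih (fun j hj => hw j (List.mem_cons_of_mem _ hj)) (C := SM.D2 t i C)
      (D := SM.D2 t i D) (D2.map g)
      (BwE t w (C := SM.D2 t i (SM.PX m C)) (D := SM.PX m (SM.D2 t i C)) (dpE hi t C.V) z)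
    refine Eq.trans ?_ h1
    change bp m t w _ (SM.D2 t i D) (BwE t w (C := SM.D2 t i (SM.PX m D))
      (D := SM.PX m (SM.D2 t i D)) (dpE hi t D.V) (Bw.map t w (C := SM.D2 t i (SM.PX m C))
        (D := SM.D2 t i (SM.PX m D)) (D2.map (PX.map (m := m) g)) z)) = _
    congr 1
    have c1 := Bw.map_comp t w (C := SM.D2 t i (SM.PX m C)) (D := SM.D2 t i (SM.PX m D))
      (E := SM.PX m (SM.D2 t i D)) (dpE (O := O) hi t D.V).toLinearMap
      (D2.map (PX.map (m := m) g))
    have c2 := Bw.map_comp t w (C := SM.D2 t i (SM.PX m C)) (D := SM.PX m (SM.D2 t i C))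
      (E := SM.PX m (SM.D2 t i D)) (PX.map (m := m) (D2.map g))
      (dpE (O := O) hi t C.V).toLinearMap
    have e : (dpE (O := O) hi t D.V).toLinearMap ∘ₗ
        (D2.map (PX.map (m := m) g)) = (PX.map (m := m) (D2.map g)) ∘ₗ
        (dpE (O := O) hi t C.V).toLinearMap :=
      LinearMap.ext (fun z => dpE_nat hi g z)
    have c3 : Bw.map t w (C := SM.D2 t i (SM.PX m C)) (D := SM.PX m (SM.D2 t i D))
      ((dpE (O := O) hi t D.V).toLinearMap ∘ₗ
        (D2.map (PX.map (m := m) g))) =
      Bw.map t w (C := SM.D2 t i (SM.PX m C)) (D := SM.PX m (SM.D2 t i D))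
      ((PX.map (m := m) (D2.map g)) ∘ₗ
        (dpE (O := O) hi t C.V).toLinearMap) :=
      congrArg (fun q : D2 t i (PX O m C.V) →ₗ[S O] PX O m (D2 t i D.V) =>
        Bw.map t w (C := SM.D2 t i (SM.PX m C)) (D := SM.PX m (SM.D2 t i D)) q) e
    exact LinearMap.congr_fun (c1.symm.trans (c3.trans c2)) z

theorem bp_symm_nat (m : ℕ) (t : Bool) (w : List ℕ) (hw : ∀ i ∈ w, i + 1 < m) {C D : SM O}
    (g : C.V →ₗ[S O] D.V) (z : (SM.PX m (Bw t w C)).V) :
    (bp m t w hw D).symm (PX.map (m := m) (Bw.map t w g) z) =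
      Bw.map t w (C := SM.PX m C) (D := SM.PX m D) (PX.map (m := m) g) ((bp m t w hw C).symm z) := by
  apply (bp m t w hw D).injective
  have h1 := (bp m t w hw D).apply_symm_apply (PX.map (m := m) (Bw.map t w g) z)
  have h2 := bp_nat m t w hw g ((bp m t w hw C).symm z)
  have h3 := (bp m t w hw C).apply_symm_apply z
  exact h1.trans ((congrArg (PX.map (m := m) (Bw.map t w g)) h3).symm.trans h2.symm)

/-- the form used in the word induction -/
theorem exists_bp (m : ℕ) (t : Bool) (w : List ℕ) (hw : ∀ i ∈ w, i + 1 < m) (C : SM O) :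
    ∃ (i : (Bw t w (SM.PX m C)).V →ₗ[S O] (SM.PX m (Bw t w C)).V)
      (r : (SM.PX m (Bw t w C)).V →ₗ[S O] (Bw t w (SM.PX m C)).V),
      (∀ z, r (i z) = z) ∧ (∀ z, i (r z) = z) ∧
      (∀ (g : C.V →ₗ[S O] C.V) z, PX.map (m := m) (Bw.map t w g) (i z) =
        i (Bw.map t w (C := SM.PX m C) (D := SM.PX m C) (PX.map (m := m) g) z)) ∧
      (∀ (g : C.V →ₗ[S O] C.V) z, r (PX.map (m := m) (Bw.map t w g) z) =
        Bw.map t w (C := SM.PX m C) (D := SM.PX m C) (PX.map (m := m) g) (r z)) :=
  ⟨(bp m t w hw C).toLinearMap, (bp m t w hw C).symm.toLinearMap,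
    fun z => (bp m t w hw C).symm_apply_apply z, fun z => (bp m t w hw C).apply_symm_apply z,
    fun g z => (bp_nat m t w hw g z).symm, fun g z => bp_symm_nat m t w hw g z⟩

/-! ## `RS (m+1) ≃ (RS m)[X_m]` -/

section RS
variable {m : ℕ}

/-- the element of `S` of a polynomial on `s` strands (right variables) -/
noncomputable def rn (O : Type) [CommRing O] (s : ℕ) : RS O s →ₐ[O] S O :=
  MvPolynomial.rename (fun j : Fin s => Sum.inr j.val)

theorem rho_rn (s : ℕ) (f : RS O s) : rho O s (rn O s f) = f := by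
  have : ((rho O s).comp (rn O s).toRingHom) = RingHom.id _ := by
    apply MvPolynomial.ringHom_ext
    · intro o; simp [rn, rho]
    · intro j; simp [rn, rho]
  exact RingHom.congr_fun this f

theorem rn_smul_one (s : ℕ) (f : RS O s) : rn O s f • (1 : RS O s) = f := by
  change rho O s (rn O s f) * 1 = f
  rw [rho_rn, mul_one]

theorem rho_X_l (s j : ℕ) : rho O s (X (Sum.inl j)) = if h : j < s then X ⟨j, h⟩ else 0 := by
  simp [rho]
theorem rho_X_r (s j : ℕ) : rho O s (X (Sum.inr j)) = if h : j < s then X ⟨j, h⟩ else 0 := by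
  simp [rho]

/-- on modules with `x_j = y_j` everywhere and `y_j = 0` for `j ≥ s`, the action factors through
`rho` -/
theorem rn_rho_smul {s : ℕ} {M : Type} [AddCommGroup M] [Module (S O) M]
    (h1 : ∀ (j : ℕ) (v : M), xv O j • v = yv O j • v) (h2 : ∀ j, s ≤ j → ∀ v : M, yv O j • v = 0)
    (p : S O) (v : M) : rn O s (rho O s p) • v = p • v := by
  induction p using MvPolynomial.induction_on generalizing v with
  | C o =>
    have : rn O s (rho O s (MvPolynomial.C o)) = MvPolynomial.C o := by simp [rn, rho]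
    rw [this]
  | add p q hp hq => rw [map_add, map_add, add_smul, add_smul, hp, hq]
  | mul_X p j hp =>
    rw [map_mul, map_mul, mul_smul, mul_smul, hp]
    congr 1
    rcases j with j | j
    · rw [rho_X_l]
      by_cases h : j < s
      · rw [dif_pos h]
        have : rn O s (X ⟨j, h⟩) = yv O j := by simp [rn]
        rw [this]; exact (h1 j v).symm
      · rw [dif_neg h, map_zero, zero_smul]
        exact ((h1 j v).trans (h2 j (by omega) v)).symm
    · rw [rho_X_r]
      by_cases h : j < s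
      · rw [dif_pos h]
        have : rn O s (X ⟨j, h⟩) = yv O j := by simp [rn]
        rw [this]
      · rw [dif_neg h, map_zero, zero_smul]
        exact (h2 j (by omega) v).symm

theorem RS_xy (s j : ℕ) (v : RS O s) : xv O j • v = yv O j • v := by
  change rho O s (X (Sum.inl j)) * v = rho O s (X (Sum.inr j)) * v
  rw [rho_X_l, rho_X_r]

theorem PXRS_xy (m : ℕ) (j : ℕ) (v : PX O m (RS O m)) : xv O j • v = yv O j • v := by
  by_cases hj : j = m
  · subst hj; exact PX.x_smul_eq v
  · apply PX.ext'; intro n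
    rw [PX.co_X_smul_of_ne (m := m) (Sum.inl j) (by simpa using hj) (by simp),
        PX.co_X_smul_of_ne (m := m) (Sum.inr j) (by simp) (by simpa using hj)]
    exact RS_xy _ _ _

/-- `RS (m+1) → (RS m)[X_m]` -/
noncomputable def rsI (O : Type) [CommRing O] [CharP O 2] (m : ℕ) :
    RS O (m + 1) →ₗ[S O] PX O m (RS O m) where
  toFun p := rn O (m + 1) p • (PX.mono 0 1 : PX O m (RS O m))
  map_add' p q := by rw [map_add, add_smul]
  map_smul' s p := by
    change rn O (m + 1) (rho O (m + 1) s * p) • _ = s • rn O (m + 1) p • _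
    rw [map_mul, mul_smul]
    exact rn_rho_smul (PXRS_xy m)
      (fun j hj v => ((noVar_RS (O := O) (s := m) (m := j) (by omega)).PX (by omega) v).2) s _

/-- `(RS m)[X_m] → RS (m+1)`, additive -/
noncomputable def rsRAdd (O : Type) [CommRing O] [CharP O 2] (m : ℕ) :
    PX O m (RS O m) →+ RS O (m + 1) where
  toFun f := (PX.toPM f).coeff.sum
    (fun n v => rename Fin.castSucc v * X (Fin.last m) ^ n)
  map_zero' := by
    change (PolynomialModule.coeff (0 : PolynomialModule (S O) (RS O m))).sum _ = 0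
    rw [PolynomialModule.coeff_zero]; exact Finsupp.sum_zero_index
  map_add' f g := by
    change (PolynomialModule.coeff (PX.toPM f + PX.toPM g)).sum _ = _
    rw [PolynomialModule.coeff_add]
    exact Finsupp.sum_add_index' (fun _ => by simp) (fun _ _ _ => by rw [map_add, add_mul])

theorem rsRAdd_mono (n : ℕ) (v : RS O m) :
    rsRAdd O m (PX.mono n v) = rename Fin.castSucc v * X (Fin.last m) ^ n := by
  change (PolynomialModule.coeff (PolynomialModule.single (S O) n v)).sum
    (fun (n : ℕ) (v : RS O m) => (rename Fin.castSucc v * X (Fin.last m) ^ n : RS O (m + 1))) = _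
  rw [PolynomialModule.coeff_single]
  refine Finsupp.sum_single_index ?_
  rw [map_zero, zero_mul]

theorem rsRAdd_C (o : O) (f : PX O m (RS O m)) :
    rsRAdd O m ((MvPolynomial.C o : S O) • f) = (MvPolynomial.C o : S O) • rsRAdd O m f := by
  induction f using PX.induction with
  | h0 => simp
  | ha f g hf hg => rw [smul_add, map_add, map_add, smul_add, hf, hg]
  | hm n v =>
    rw [PX.C_smul_mono, rsRAdd_mono, rsRAdd_mono]
    change rename Fin.castSucc (rho O m (MvPolynomial.C o) * v) * _ =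
      rho O (m + 1) (MvPolynomial.C o) * (rename Fin.castSucc v * _)
    have h1 : rho O m (MvPolynomial.C o) = MvPolynomial.C o := by simp [rho]
    have h2 : rho O (m + 1) (MvPolynomial.C o) = MvPolynomial.C o := by simp [rho]
    rw [h1, h2, map_mul, rename_C, mul_assoc]

theorem rsRAdd_X (s : ℕ ⊕ ℕ) (f : PX O m (RS O m)) :
    rsRAdd O m ((X s : S O) • f) = (X s : S O) • rsRAdd O m f := by
  obtain ⟨j, h⟩ : ∃ j, s = Sum.inl j ∨ s = Sum.inr j := by
    rcases s with j | j
    · exact ⟨j, Or.inl rfl⟩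
    · exact ⟨j, Or.inr rfl⟩
  have r1 : ∀ k, rho O k (X s) = if h : j < k then X ⟨j, h⟩ else 0 := by
    intro k; rcases h with rfl | rfl
    · exact rho_X_l k j
    · exact rho_X_r k j
  induction f using PX.induction with
  | h0 => simp
  | ha f g hf hg => rw [smul_add, map_add, map_add, smul_add, hf, hg]
  | hm n v =>
    rw [rsRAdd_mono]
    change _ = rho O (m + 1) (X s) * _
    by_cases hj : j = m
    · subst hj
      have hs : s = Sum.inl j ∨ s = Sum.inr j := h
      rw [PX.X_smul_mono s hs, rsRAdd_mono, r1, dif_pos (Nat.lt_succ_self j)]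
      have : (⟨j, Nat.lt_succ_self j⟩ : Fin (j + 1)) = Fin.last j := rfl
      rw [this, pow_succ]; ring
    · have hs1 : s ≠ Sum.inl m := by
        rcases h with rfl | rfl
        · simpa using hj
        · simp
      have hs2 : s ≠ Sum.inr m := by
        rcases h with rfl | rfl
        · simp
        · simpa using hj
      rw [PX.X_smul_mono_of_ne s hs1 hs2, rsRAdd_mono]
      change rename Fin.castSucc (rho O m (X s) * v) * _ = _
      rw [r1, r1]
      by_cases hjm : j < m
      · rw [dif_pos hjm, dif_pos (by omega), map_mul, rename_X, mul_assoc]; rfl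
      · rw [dif_neg hjm, dif_neg (by omega), zero_mul, zero_mul, map_zero, zero_mul]

/-- `(RS m)[X_m] → RS (m+1)` -/
noncomputable def rsR (O : Type) [CommRing O] [CharP O 2] (m : ℕ) :
    PX O m (RS O m) →ₗ[S O] RS O (m + 1) :=
  mkLin (rsRAdd O m) rsRAdd_C rsRAdd_X

theorem rsR_mono (n : ℕ) (v : RS O m) :
    rsR O m (PX.mono n v) = rename Fin.castSucc v * X (Fin.last m) ^ n := rsRAdd_mono n v

theorem rsR_rsI (p : RS O (m + 1)) : rsR O m (rsI O m p) = p := by
  change rsR O m (rn O (m + 1) p • (PX.mono 0 1 : PX O m (RS O m))) = p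
  rw [map_smul, rsR_mono, map_one, pow_zero, one_mul]
  exact rn_smul_one _ _

theorem rn_castSucc (v : RS O m) : rn O (m + 1) (rename Fin.castSucc v) = rn O m v := by
  unfold rn
  rw [rename_rename]; rfl

theorem rn_smul_mono (n : ℕ) (v w : RS O m) :
    rn O m v • (PX.mono n w : PX O m (RS O m)) = PX.mono n (v * w) := by
  induction v using MvPolynomial.induction_on generalizing w with
  | C o =>
    have : rn O m (MvPolynomial.C o) = MvPolynomial.C o := by simp [rn]
    rw [this, PX.C_smul_mono]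
    change PX.mono n (rho O m (MvPolynomial.C o) * w) = _
    simp [rho]
  | add p q hp hq => rw [map_add, add_smul, hp, hq, add_mul, PX.mono_add]
  | mul_X p j hp =>
    have : rn O m (X j) = X (Sum.inr j.val) := by simp [rn]
    rw [map_mul, mul_smul, this,
      PX.X_smul_mono_of_ne (m := m) (Sum.inr j.val) (by simp) (by simpa using (ne_of_lt j.isLt)), hp]
    congr 1
    change p * (rho O m (X (Sum.inr j.val)) * w) = _
    rw [rho_X_r, dif_pos j.isLt]; ring

theorem rsI_rsR (f : PX O m (RS O m)) : rsI O m (rsR O m f) = f := by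
  induction f using PX.induction with
  | h0 => rw [map_zero, map_zero]
  | ha f g hf hg => rw [map_add, map_add, hf, hg]
  | hm n v =>
    rw [rsR_mono]
    change rn O (m + 1) (rename Fin.castSucc v * X (Fin.last m) ^ n) •
      (PX.mono 0 1 : PX O m (RS O m)) = _
    rw [map_mul, rn_castSucc, map_pow, mul_smul]
    have : rn O (m + 1) (X (Fin.last m)) = X (Sum.inr m) := by simp [rn]
    rw [this]
    have h2 : ∀ n : ℕ, (X (Sum.inr m) : S O) ^ n • (PX.mono 0 1 : PX O m (RS O m)) =
        PX.mono n 1 := by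
      intro n
      induction n with
      | zero => rw [pow_zero, one_smul]
      | succ n ih => rw [pow_succ', mul_smul, ih, PX.X_smul_mono (m := m) _ (Or.inr rfl)]
    rw [h2, rn_smul_mono, mul_one]

/-- `RS (m+1) ≃ (RS m)[X_m]` -/
noncomputable def rsE (O : Type) [CommRing O] [CharP O 2] (m : ℕ) :
    RS O (m + 1) ≃ₗ[S O] PX O m (RS O m) :=
  { rsI O m with
    invFun := rsR O m
    left_inv := rsR_rsI
    right_inv := rsI_rsR }

end RS

end Mk
end CQ
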