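import Pool.Agent.CQ.Word
import Pool.Agent.CQ.Markov4

/-!
# Block D, unconditional form: `WIso` holds
-/

set_option autoImplicit false

namespace CQ

open MvPolynomial

variable {O : Type} [CommRing O] [CharP O 2]

/-- the isomorphisms of the word induction -/
theorem wIso : WIso O where
  rs m := ⟨(Mk.rsE O m).toLinearMap, (Mk.rsE O m).symm.toLinearMap,
    fun z => (Mk.rsE O m).symm_apply_apply z⟩
  bw t m w hw C := by
    obtain ⟨i, r, h1, _, h2, h3⟩ := Mk.exists_bp m t w hw C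
    exact ⟨i, r, h1, fun g => ⟨h2 g, h3 g⟩⟩

variable [IsDomain O]

/-- the E-property of `x_k` on the cube modules -/
theorem EP_word (P : Pot O) (s : ℕ) (w : List (ℕ × Bool)) (hw : Valid s w) (k : ℕ)
    (hk : k < s) : EP P (Fw w (R0 O s)).V (xv O k • LinearMap.id) := EP_Fw wIso P s w hw k hk

/-- finite generation of `T` of the cube modules -/
theorem FG_word (P : Pot O) (s : ℕ) (w : List (ℕ × Bool)) (hw : Valid s w) :
    FG P (Fw w (R0 O s)).V := FG_Fw wIso P s w hw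

/-- first half of the E-property -/
theorem eAll (P : Pot O) : Pool.Agent.CQ.EAll P := EAll_of wIso P

/-- second half of the E-property -/
theorem eSnd (P : Pot O) (s : ℕ) (w : List (ℕ × Bool)) (hw : Valid s w) (k : ℕ)
    (hk : k < s) (z : (Fw w (R0 O s)).V) (hz : z ∈ HH O (Fw w (R0 O s)).V)
    (hn : P.q (xv O k) • z ∈ NN P (Fw w (R0 O s)).V) :
    ∃ u ∈ HH O (Fw w (R0 O s)).V, z + xv O k • u ∈ NN P (Fw w (R0 O s)).V :=
  ESnd_of wIso P s w hw k hk z hz hn

/-- the form used for the towers -/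
theorem eN0 (P : Pot O) (s : ℕ) (w : List (ℕ × Bool)) (hw : Valid s w) (k : ℕ)
    (hk : k < s) (z : (Fw w (R0 O s)).V) (hz : z ∈ HH O (Fw w (R0 O s)).V)
    (hn : ∀ c : ℕ → O, P.IsCol c → c k = 0 → ∀ ψ : (Fw w (R0 O s)).V →ₛₗ[ev c] O, ψ z = 0) :
    ∃ u ∈ HH O (Fw w (R0 O s)).V, z + xv O k • u ∈ NN P (Fw w (R0 O s)).V :=
  E_N0 wIso P s w hw k hk z hz hn

end CQ
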