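import Pool.Agent.CQ.Kunneth
import Pool.Agent.CQ.WIsoP
import Pool.Agent.CQ.Blocks

/-!
# The sum formula for value ideals
-/

set_option autoImplicit false

namespace CQ.K

open CQ
open Pool.Agent.CQ (sh)

variable {O : Type} [CommRing O] [CharP O 2]

/-- The value ideal of the composite word (field `sum` of `BlockOut`). -/
theorem IdW_sum [IsDomain O] [IsPrincipalIdealRing O] (P : Pot O) (a b : ℕ)
    (w w' : List (ℕ × Bool)) (hw : Valid (a + 1) w) (hw' : Valid (b + 1) w') :
    IdW P (a + b + 1) (w ++ sh a w') a = IdW P (a + 1) w a * IdW P (b + 1) w' 0 :=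
  IdW_sum_of_Sep P a b w w' hw hw'
    (fun z hz h => E_N0 wIso P (a + 1) w hw a (by omega) z hz h)
    (fun z hz h => E_N0 wIso P (b + 1) w' hw' 0 (by omega) z hz h)
    (FG_Fw wIso P (b + 1) w' hw')

/-- All properties of the value ideals. -/
theorem blockOut [IsDomain O] [IsPrincipalIdealRing O] (P : Pot O) :
    Pool.Agent.CQ.BlockOut P :=
  Pool.Agent.CQ.blockOut_of P wIso (fun a b w w' hw hw' => IdW_sum P a b w w' hw hw')

end CQ.K
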