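import Pool.Agent.CQ.Final

/-!
# The braid words of the pretzel knots `P(2(j+1); m, -n)` on `j + 3` strands

`kW m n j = σ₀^m σ₁⁻¹ σ₀^(-n) σ₁⁻¹ ∏_{i=1}^{j} (σ_{i+1}⁻¹ σ_i σ_{i+1}⁻¹)`, a word for `Braid (j+2)`.
-/

namespace Pool.Agent.CQ

/-- Words, letters seen in the braid group with one more strand. -/
def wcast {n : ℕ} (w : Word n) : Word (n + 1) := w.map fun x => (Fin.castAdd 1 x.1, x.2)

/-- The words of the pretzel knots. -/
def kW (m n : ℕ) : ∀ j : ℕ, Word (j + 2)
  | 0 => List.replicate m (0, true) ++ [(1, false)] ++ List.replicate n (0, false) ++ [(1, false)]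
  | j + 1 => wcast (kW m n j) ++
      [(Fin.last (j + 2), false), (⟨j + 1, by omega⟩, true), (Fin.last (j + 2), false)]

theorem toBraid_wcast {n : ℕ} (w : Word n) : toBraid (wcast w) = inl n 1 (toBraid w) :=
  toBraid_inl w

theorem toBraid_replicate_true {n : ℕ} (m : ℕ) (i : Fin n) :
    toBraid (List.replicate m (i, true)) = σ i ^ m := by
  induction m with
  | zero => simp
  | succ m ih => rw [List.replicate_succ, toBraid_cons, ih, toBraid_true, pow_succ']

theorem toBraid_replicate_false {n : ℕ} (m : ℕ) (i : Fin n) :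
    toBraid (List.replicate m (i, false)) = (σ i)⁻¹ ^ m := by
  induction m with
  | zero => simp
  | succ m ih => rw [List.replicate_succ, toBraid_cons, ih, toBraid_false, pow_succ']

/-- Adding a strand by a transposition keeps knots. -/
theorem IsKnot.addStrand {n : ℕ} {β : Braid n} (hβ : IsKnot β) (a : Fin (n + 1))
    {γ : Braid (n + 1)} (hγ : perm γ = Equiv.swap (eL n 1 a) (Fin.last (n + 1))) :
    IsKnot (inl n 1 β * γ) := by
  set g := perm (inl n 1 β * γ) with hg
  have hlast : ∀ b : Fin (n + 1), eL n 1 b ≠ Fin.last (n + 1) := by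
    intro b h
    have h1 := congrArg Fin.val h
    simp only [eL, Fin.val_last] at h1
    omega
  have hinj : ∀ b c : Fin (n + 1), eL n 1 b = eL n 1 c → b = c := by
    intro b c h
    have h1 := congrArg Fin.val h
    simp only [eL] at h1
    exact Fin.ext h1
  have hL : ∀ b : Fin (n + 1), b ≠ a → g (eL n 1 b) = eL n 1 (perm β b) := by
    intro b hb
    rw [hg, map_mul, Equiv.Perm.mul_apply, hγ, Equiv.swap_apply_of_ne_of_ne _ (hlast b),
      perm_inl_eL]
    exact fun h => hb (hinj _ _ h)
  have h1 : ∀ b : Fin (n + 1), g.SameCycle (eL n 1 b) (eL n 1 a) := fun b =>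
    sameCycle_of_embedding (perm β) g (eL n 1) a hL b (hβ _ _)
  have h2 : g (Fin.last (n + 1)) = eL n 1 (perm β a) := by
    rw [hg, map_mul, Equiv.Perm.mul_apply, hγ, Equiv.swap_apply_right, perm_inl_eL]
  have h3 : ∀ x : Fin (n + 1 + 1), g.SameCycle x (eL n 1 a) := by
    intro x
    by_cases hx : (x : ℕ) < n + 1
    · have : x = eL n 1 ⟨x, hx⟩ := Fin.ext rfl
      rw [this]
      exact h1 _
    · have : x = Fin.last (n + 1) := by
        apply Fin.ext
        simp only [Fin.val_last]
        omega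
      rw [this, ← Equiv.Perm.sameCycle_apply_left, h2]
      exact h1 _
  intro x y
  exact (h3 x).trans (h3 y).symm

theorem swap_pow_odd {α : Type*} [DecidableEq α] (a b : α) {m : ℕ} (hm : Odd m) :
    Equiv.swap a b ^ m = Equiv.swap a b := by
  obtain ⟨k, rfl⟩ := hm
  rw [pow_succ, pow_mul, sq, Equiv.swap_mul_self, one_pow, one_mul]

/-- The closures of the words are knots. -/
theorem isKnot_kW {m n : ℕ} (hm : Odd m) (hn : Odd n) (j : ℕ) : IsKnot (toBraid (kW m n j)) := by
  induction j with
  | zero =>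
    have h1 : perm (toBraid (kW m n 0)) =
        Equiv.swap (0 : Fin 3) 1 * Equiv.swap 1 2 * Equiv.swap 0 1 * Equiv.swap 1 2 := by
      rw [kW, toBraid_append, toBraid_append, toBraid_append, toBraid_replicate_true,
        toBraid_replicate_false, toBraid_false, map_mul, map_mul, map_mul, map_pow, map_pow,
        map_inv, map_inv, perm_σ, perm_σ, Equiv.swap_inv, Equiv.swap_inv, swap_pow_odd _ _ hm,
        swap_pow_odd _ _ hn]
      rfl
    intro a b
    rw [h1]
    have h2 : ∀ a b : Fin 3, ∃ i : Fin 3, ((Equiv.swap (0 : Fin 3) 1 * Equiv.swap 1 2 *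
        Equiv.swap 0 1 * Equiv.swap 1 2 : Equiv.Perm (Fin 3)) ^ (i : ℕ)) a = b := by decide
    obtain ⟨i, hi⟩ := h2 a b
    exact ⟨(i : ℕ), by rw [zpow_natCast]; exact hi⟩
  | succ j ih =>
    have h1 : toBraid (kW m n (j + 1)) = inl (j + 2) 1 (toBraid (kW m n j)) *
        ((σ (Fin.last (j + 2)))⁻¹ * σ ⟨j + 1, by omega⟩ * (σ (Fin.last (j + 2)))⁻¹) := by
      rw [kW, toBraid_append, toBraid_wcast, toBraid_cons, toBraid_cons _ [_], toBraid_false,
        toBraid_true, mul_assoc (σ (Fin.last (j + 2)))⁻¹]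
    rw [h1]
    refine ih.addStrand ⟨j + 1, by omega⟩ ?_
    apply Equiv.ext
    intro x
    apply Fin.ext
    simp only [map_mul, map_inv, perm_σ, Equiv.swap_inv, Equiv.Perm.mul_apply,
      Fin.val_last, eL, Equiv.swap_apply_def, Fin.ext_iff]
    have hx := x.2
    split_ifs <;> simp_all

theorem writhe_wcast {n : ℕ} (w : Word n) : writhe (wcast w) = writhe w := by
  simp [writhe, wcast, List.map_map, Function.comp_def]

theorem writhe_kW (m n : ℕ) (j : ℕ) : writhe (kW m n j) = m - n - 2 - j := by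
  induction j with
  | zero =>
    simp only [kW, writhe_append]
    simp [writhe]
    ring
  | succ j ih =>
    rw [kW, writhe_append, writhe_wcast, ih]
    simp [writhe]
    ring

end Pool.Agent.CQ
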