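import Pool.Agent.CQ.Product

/-!
# Tensor products of functionals for the composition product
-/

set_option autoImplicit false
set_option linter.unusedSectionVars false
set_option linter.unusedSimpArgs false

namespace CQ.G

open MvPolynomial CQ

variable {O : Type} [CommRing O] [CharP O 2]

/-! ## More additive functoriality -/

theorem F2A_comp (i : ℕ) (b : Bool) {C D E : DM O} (g : D.V →+ E.V) (f : C.V →+ D.V)
    (z : (F2 true i b C).V) :
    F2A true i b (g.comp f) z = F2A (C := D) (D := E) true i b g (F2A true i b f z) := rfl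

theorem FwA_comp (w : List (ℕ × Bool)) {C D E : DM O} (g : D.V →+ E.V) (f : C.V →+ D.V)
    (z : (Fw w C).V) : FwA w (g.comp f) z = FwA w g (FwA w f z) := by
  induction w generalizing C D E with
  | nil => rfl
  | cons a w ih =>
    exact ih (C := F2 true a.1 a.2 C) (D := F2 true a.1 a.2 D) (E := F2 true a.1 a.2 E)
      (F2A true a.1 a.2 g) (F2A true a.1 a.2 f) z

theorem FwA_id (w : List (ℕ × Bool)) {C : DM O} (z : (Fw w C).V) :
    FwA w (AddMonoidHom.id C.V) z = z := by
  induction w generalizing C with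
  | nil => rfl
  | cons a w ih => exact ih (C := F2 true a.1 a.2 C) z

/-- precomposition with a constant -/
theorem FwA_const' (w : List (ℕ × Bool)) {C D : DM O} (f f' : C.V →+ D.V) (o : O)
    (h : ∀ v, f' v = f ((MvPolynomial.C o : S O) • v)) (z : (Fw w C).V) :
    FwA w f' z = FwA w f ((MvPolynomial.C o : S O) • z) := by
  induction w generalizing C D with
  | nil => exact h z
  | cons a w ih =>
    refine ih (F2A true a.1 a.2 f) (F2A true a.1 a.2 f') ?_ z
    intro v
    refine Prod.ext (h v.1) ?_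
    change D2.mapAdd f' v.2 = D2.mapAdd f ((MvPolynomial.C o : S O) • v.2)
    ext
    · rw [D2.mapAdd_a, D2.mapAdd_a, D2.C_smul_a]; exact h v.2.a
    · rw [D2.mapAdd_b, D2.mapAdd_b, D2.C_smul_b]; exact h v.2.b

/-- additive functionals which are eigenfunctionals for the left variables -/
def LE (c : ℕ → O) {C : Type} [AddCommGroup C] [Module (S O) C] (ξ : C →+ O) : Prop :=
  (∀ (o : O) (v : C), ξ ((MvPolynomial.C o : S O) • v) = o * ξ v) ∧
    ∀ (j : ℕ) (v : C), ξ (xv O j • v) = c j * ξ v

/-- two additive maps which cannot be distinguished by left eigenfunctionals -/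
def LEq (c : ℕ → O) {C D : Type} [AddCommGroup C] [AddCommGroup D] [Module (S O) D]
    (g g' : C →+ D) : Prop := ∀ ξ : D →+ O, LE c ξ → ∀ v, ξ (g v) = ξ (g' v)

theorem LEq.F2A {c : ℕ → O} {C D : DM O} {g g' : C.V →+ D.V} (h : LEq c g g') (i : ℕ) (b : Bool) :
    LEq (O := O) c (G.F2A true i b g) (G.F2A true i b g') := by
  intro ξ hξ v
  let ξ1 : D.V →+ O := ξ.comp (AddMonoidHom.inl D.V (D2 true i D.V))
  let A : D.V →+ D2 true i D.V :=
    { toFun := fun v => ⟨v, 0⟩
      map_zero' := rfl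
      map_add' := fun u v => by ext <;> simp }
  let B : D.V →+ D2 true i D.V :=
    { toFun := fun v => ⟨0, v⟩
      map_zero' := rfl
      map_add' := fun u v => by ext <;> simp }
  let ξ2 : D.V →+ O := ξ.comp ((AddMonoidHom.inr D.V (D2 true i D.V)).comp A)
  let ξ3 : D.V →+ O := ξ.comp ((AddMonoidHom.inr D.V (D2 true i D.V)).comp B)
  have e : ∀ u : D.V × D2 true i D.V, ξ u = ξ1 u.1 + ξ2 u.2.a + ξ3 u.2.b := by
    intro u
    change ξ u = ξ (u.1, 0) + ξ (0, ⟨u.2.a, 0⟩) + ξ (0, ⟨0, u.2.b⟩)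
    rw [← map_add, ← map_add]
    congr 1
    refine Prod.ext ?_ ?_
    · change u.1 = u.1 + 0 + 0
      rw [add_zero, add_zero]
    · change u.2 = (0 : D2 true i D.V) + (⟨u.2.a, 0⟩ : D2 true i D.V) + ⟨0, u.2.b⟩
      ext
      · change u.2.a = 0 + u.2.a + 0
        rw [zero_add, add_zero]
      · change u.2.b = 0 + 0 + u.2.b
        rw [zero_add, zero_add]
  have n1 : ∀ j : ℕ, (Sum.inl j : ℕ ⊕ ℕ) ≠ inj true i := by intro j; simp
  have n2 : ∀ j : ℕ, (Sum.inl j : ℕ ⊕ ℕ) ≠ inj true (i + 1) := by intro j; simp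
  have l1 : LE c ξ1 := by
    refine ⟨fun o v => ?_, fun j v => ?_⟩
    · change ξ ((MvPolynomial.C o : S O) • v, 0) = o * ξ (v, 0)
      rw [← hξ.1]
      congr 1
      exact Prod.ext rfl (smul_zero (MvPolynomial.C o : S O)).symm
    · change ξ (xv O j • v, 0) = c j * ξ (v, 0)
      rw [← hξ.2]
      congr 1
      exact Prod.ext rfl (smul_zero (xv O j)).symm
  have l2 : LE c ξ2 := by
    refine ⟨fun o v => ?_, fun j v => ?_⟩
    · change ξ (0, ⟨(MvPolynomial.C o : S O) • v, 0⟩) = o * ξ (0, ⟨v, 0⟩)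
      rw [← hξ.1]
      congr 1
      refine Prod.ext (smul_zero (MvPolynomial.C o : S O)).symm ?_
      · change _ = (MvPolynomial.C o : S O) • (⟨v, 0⟩ : D2 true i D.V)
        ext
        · rw [D2.C_smul_a]
        · rw [D2.C_smul_b]; simp
    · change ξ (0, ⟨xv O j • v, 0⟩) = c j * ξ (0, ⟨v, 0⟩)
      rw [← hξ.2]
      congr 1
      refine Prod.ext (smul_zero (xv O j)).symm ?_
      · change _ = xv O j • (⟨v, 0⟩ : D2 true i D.V)
        ext
        · rw [D2.X_smul_a_of_ne _ (n1 j) (n2 j)]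
        · rw [D2.X_smul_b_of_ne _ (n1 j) (n2 j)]; simp
  have l3 : LE c ξ3 := by
    refine ⟨fun o v => ?_, fun j v => ?_⟩
    · change ξ (0, ⟨0, (MvPolynomial.C o : S O) • v⟩) = o * ξ (0, ⟨0, v⟩)
      rw [← hξ.1]
      congr 1
      refine Prod.ext (smul_zero (MvPolynomial.C o : S O)).symm ?_
      · change _ = (MvPolynomial.C o : S O) • (⟨0, v⟩ : D2 true i D.V)
        ext
        · rw [D2.C_smul_a]; simp
        · rw [D2.C_smul_b]
    · change ξ (0, ⟨0, xv O j • v⟩) = c j * ξ (0, ⟨0, v⟩)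
      rw [← hξ.2]
      congr 1
      refine Prod.ext (smul_zero (xv O j)).symm ?_
      · change _ = xv O j • (⟨0, v⟩ : D2 true i D.V)
        ext
        · rw [D2.X_smul_a_of_ne _ (n1 j) (n2 j)]; simp
        · rw [D2.X_smul_b_of_ne _ (n1 j) (n2 j)]
  rw [e, e]
  have k1 := h ξ1 l1 v.1
  have k2 := h ξ2 l2 v.2.a
  have k3 := h ξ3 l3 v.2.b
  change ξ1 (g v.1) + ξ2 (g v.2.a) + ξ3 (g v.2.b) = ξ1 (g' v.1) + ξ2 (g' v.2.a) + ξ3 (g' v.2.b)
  rw [k1, k2, k3]

theorem LEq.FwA {c : ℕ → O} {C D : DM O} {g g' : C.V →+ D.V} (h : LEq c g g')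
    (w : List (ℕ × Bool)) : LEq (O := O) c (G.FwA w g) (G.FwA w g') := by
  induction w generalizing C D with
  | nil => exact h
  | cons a w ih =>
    exact ih (C := F2 true a.1 a.2 C) (D := F2 true a.1 a.2 D) (h.F2A a.1 a.2)

/-! ## The one dimensional module of a colouring -/

/-- `O` with the variables acting through the colouring -/
def Oc (_c : ℕ → O) : Type := O

noncomputable instance (c : ℕ → O) : AddCommGroup (Oc c) := inferInstanceAs (AddCommGroup O)
noncomputable instance (c : ℕ → O) : Module (S O) (Oc c) := Module.compHom O (ev c)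

theorem Oc_smul (c : ℕ → O) (p : S O) (v : O) :
    p • (show Oc c from v) = (show Oc c from (ev c p * v : O)) := rfl

/-- the same as a differential module -/
noncomputable def DMc (c : ℕ → O) : DM O where
  V := Oc c
  d := 0
  dd _ := rfl
  ep := 0
  epd _ _ := rfl

/-- evaluation at a colouring -/
noncomputable def evS (s : ℕ) (c : ℕ → O) (hc : ∀ j, s ≤ j → c j = 0) : RS O s →ₗ[S O] Oc c :=
  mkLin (C := RS O s) (D := Oc c)
    { toFun := fun f => (MvPolynomial.eval (fun i : Fin s => c i) f : O)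
      map_zero' := map_zero _
      map_add' := fun f g => map_add _ _ _ }
    (fun o f => by
      change (MvPolynomial.eval (fun i : Fin s => c i) (rho O s (MvPolynomial.C o) * f) : O) =
        ev c (MvPolynomial.C o) * MvPolynomial.eval (fun i : Fin s => c i) f
      rw [map_mul, ev_C]
      simp [rho])
    (fun v f => by
      change (MvPolynomial.eval (fun i : Fin s => c i) (rho O s (X v) * f) : O) =
        ev c (X v) * MvPolynomial.eval (fun i : Fin s => c i) f
      rw [map_mul]
      rcases v with j | j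
      · by_cases h : j < s
        · simp [rho, h]
        · simp [rho, h, hc j (by omega)]
      · by_cases h : j < s
        · simp [rho, h]
        · simp [rho, h, hc j (by omega)])

/-- evaluation on the base module -/
noncomputable def evC (s : ℕ) (c : ℕ → O) (hc : ∀ j, s ≤ j → c j = 0) :
    (R0 O s).V →ₗ[S O] (DMc c).V := evS s c hc

theorem evC_apply (s : ℕ) (c : ℕ → O) (hc : ∀ j, s ≤ j → c j = 0) (f : RS O s) :
    evC s c hc (f : (R0 O s).V) = (MvPolynomial.eval (fun i : Fin s => c i) f : O) := rfl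

/-- constants -/
noncomputable def cst (s : ℕ) (c : ℕ → O) : (DMc c).V →+ (R0 O s).V where
  toFun o := (MvPolynomial.C (show O from o) : RS O s)
  map_zero' := MvPolynomial.C_0
  map_add' _ _ := MvPolynomial.C_add

theorem cst_apply (s : ℕ) (c : ℕ → O) (o : O) :
    cst s c (show (DMc c).V from o) = (MvPolynomial.C o : RS O s) := rfl

theorem leq_base (s : ℕ) (c : ℕ → O) (hc : ∀ j, s ≤ j → c j = 0) :
    LEq (O := O) c (C := (R0 O s).V) (D := (R0 O s).V)
      ((cst s c).comp (evC s c hc).toAddMonoidHom) (AddMonoidHom.id _) := by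
  intro ξ hξ f
  change ξ (MvPolynomial.C (MvPolynomial.eval (fun i : Fin s => c i) (show RS O s from f)) : RS O s)
    = ξ f
  revert f
  change ∀ f : RS O s, ξ (MvPolynomial.C (MvPolynomial.eval (fun i : Fin s => c i) f) : RS O s)
    = ξ f
  intro f
  induction f using MvPolynomial.induction_on with
  | C o => rw [MvPolynomial.eval_C]
  | add p q hp hq =>
    rw [map_add, map_add]
    calc _ = ξ (MvPolynomial.C (MvPolynomial.eval (fun i : Fin s => c i) p) : RS O s) +
          ξ (MvPolynomial.C (MvPolynomial.eval (fun i : Fin s => c i) q) : RS O s) :=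
            ξ.map_add _ _
      _ = ξ p + ξ q := by rw [hp, hq]
      _ = _ := (ξ.map_add _ _).symm
  | mul_X p i hp =>
    have h1 : xv O i • p = p * X i := by rw [RS_smul_def]; simp [rho, i.2, mul_comm]
    have h2 : ξ (xv O i • p : RS O s) = c i * ξ p := hξ.2 i p
    have h3 : (MvPolynomial.C (MvPolynomial.eval (fun i : Fin s => c i) (p * X i)) : RS O s) =
        (MvPolynomial.C (c i) : S O) •
          (MvPolynomial.C (MvPolynomial.eval (fun i : Fin s => c i) p) : RS O s) := by
      rw [RS_smul_def, map_mul, MvPolynomial.eval_X, MvPolynomial.C_mul]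
      simp [rho, mul_comm]
    have h4 : ξ ((MvPolynomial.C (c i) : S O) •
        (MvPolynomial.C (MvPolynomial.eval (fun i : Fin s => c i) p) : RS O s)) =
        c i * ξ (MvPolynomial.C (MvPolynomial.eval (fun i : Fin s => c i) p) : RS O s) :=
      hξ.1 (c i) _
    rw [h3, h4, hp, ← h2, h1]

theorem leq_Fw (s : ℕ) (c : ℕ → O) (hc : ∀ j, s ≤ j → c j = 0) (w : List (ℕ × Bool))
    (ξ : (Fw w (R0 O s)).V →+ O) (hξ : LE c ξ) (v : (Fw w (R0 O s)).V) :
    ξ (FwA w (cst s c) (Fw.map w (evC s c hc) v)) = ξ v := by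
  have h1 := (leq_base s c hc).FwA w ξ hξ v
  rw [FwA_id, FwA_comp, FwA_linear] at h1
  exact h1

theorem evC_cst (s : ℕ) (c : ℕ → O) (hc : ∀ j, s ≤ j → c j = 0) (w : List (ℕ × Bool))
    (v : (Fw w (DMc c)).V) :
    Fw.map w (evC s c hc) (FwA w (cst s c) v) = v := by
  rw [← FwA_linear, ← FwA_comp]
  have h1 : ((evC s c hc).toAddMonoidHom).comp (cst s c) = AddMonoidHom.id _ := by
    ext o
    change (MvPolynomial.eval (fun i : Fin s => c i) (MvPolynomial.C (show O from o)) : O) = o
    rw [MvPolynomial.eval_C]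
  rw [h1, FwA_id]

/-- descent of an eigenfunctional to `Fw w (DMc c)` -/
theorem exists_descent (s : ℕ) (c : ℕ → O) (hc : ∀ j, s ≤ j → c j = 0) (w : List (ℕ × Bool))
    (ψ : (Fw w (R0 O s)).V →ₛₗ[ev c] O) :
    ∃ χ : (Fw w (DMc c)).V →ₛₗ[ev c] O, ∀ v, χ (Fw.map w (evC s c hc) v) = ψ v := by
  have hLE : LE c (ψ : (Fw w (R0 O s)).V →+ O) := by
    refine ⟨fun o v => ?_, fun j v => ?_⟩
    · change ψ _ = o * ψ v
      rw [map_smulₛₗ, ev_C]; rfl
    · change ψ _ = c j * ψ v
      rw [map_smulₛₗ, ev_inl]; rfl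
  have key : ∀ v, ψ (FwA w (cst s c) (Fw.map w (evC s c hc) v)) = ψ v := fun v =>
    leq_Fw s c hc w (ψ : (Fw w (R0 O s)).V →+ O) hLE v
  refine ⟨{ toFun := fun v => ψ (FwA w (cst s c) v)
            map_add' := fun u v => by rw [map_add, map_add]
            map_smul' := fun p v => ?_ }, key⟩
  have h1 : p • v = Fw.map w (evC s c hc) (p • FwA w (cst s c) v) := by
    rw [map_smul, evC_cst]
  rw [h1, key, map_smulₛₗ]

/-- Tensor functional: the composition product is compatible with eigenfunctionals. -/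
theorem exists_tensor [IsDomain O] (s : ℕ) {C : DM O} (hC : Van (O := O) s C.V)
    (w : List (ℕ × Bool)) (c : ℕ → O) (ψ : C.V →ₛₗ[ev c] O)
    (ψ' : (Fw w (R0 O s)).V →ₛₗ[ev c] O) :
    ∃ Ψ : (Fw w C).V →ₛₗ[ev c] O, ∀ (z : C.V) (z' : (Fw w (R0 O s)).V),
      Ψ (pr s w z z') = ψ z * ψ' z' := by
  by_cases hc : ∀ j, s ≤ j → c j = 0
  · obtain ⟨χ, hχ⟩ := exists_descent s c hc w ψ'
    let ψs : C.V →ₗ[S O] (DMc c).V :=
      { toFun := fun v => (ψ v : O)
        map_add' := fun u v => map_add ψ u v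
        map_smul' := fun p v => by
          rw [map_smulₛₗ]; rfl }
    refine ⟨χ.comp (Fw.map w ψs), fun z z' => ?_⟩
    rw [LinearMap.comp_apply]
    have h1 : Fw.map w ψs (pr s w z z') =
        (MvPolynomial.C (ψ z) : S O) • Fw.map w (evC s c hc) z' := by
      rw [← FwA_linear, ← FwA_linear]
      unfold pr
      rw [← FwA_comp]
      refine FwA_const w (C := R0 O s) (D := DMc c) _ _ (ψ z) (fun f => ?_) z'
      change (ψ (ren O s f • z) : O) = ev c (MvPolynomial.C (ψ z)) *
        MvPolynomial.eval (fun i : Fin s => c i) (show RS O s from f)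
      rw [map_smulₛₗ, ev_C, smul_eq_mul, mul_comm]
      congr 1
      revert f
      change ∀ f : RS O s, ev c (ren O s f) = MvPolynomial.eval (fun i : Fin s => c i) f
      intro f
      induction f using MvPolynomial.induction_on with
      | C o => rw [ren_C]; simp
      | add p q hp hq => rw [map_add, map_add, map_add, hp, hq]
      | mul_X p v hp => rw [map_mul, map_mul, map_mul, hp, ren_X]; simp
    rw [h1, map_smulₛₗ, ev_C, hχ]
    rfl
  · -- some variable beyond `s` has a nonzero value: `ψ' = 0`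
    push Not at hc
    obtain ⟨j, hj, hcj⟩ := hc
    refine ⟨0, fun z z' => ?_⟩
    have h1 : ψ z = 0 := by
      have h2 := (hC j hj z).1
      have h3 : ψ (xv O j • z) = c j * ψ z := by rw [map_smulₛₗ, ev_inl]; rfl
      rw [h2, map_zero] at h3
      rcases mul_eq_zero.mp h3.symm with h | h
      · exact absurd h hcj
      · exact h
    rw [h1, zero_mul]
    rfl

end CQ.G
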