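import Pool.Agent.CQ.Dec
import Pool.Agent.CQ.TF
import Pool.Agent.CQ.KLem

/-!
# The value ideal of a composite word
-/

set_option autoImplicit false
set_option linter.unusedSectionVars false
set_option linter.unusedSimpArgs false

namespace CQ.K

open MvPolynomial CQ CQ.G CQ.Gen
open Pool.Agent.CQ (sh)

variable {O : Type} [CommRing O] [CharP O 2]

section
variable {a b s : ℕ} {w w' : List (ℕ × Bool)} (hs : s = a + b + 1) (hw : Valid (a + 1) w)
  (hw' : Valid (b + 1) w')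
  {f : (Fw w (R0 O (a + 1))).V →+ (Fw w (R0 O s)).V} (hf : Emb 0 (a + 1) s w w f)
  {f' : (Fw w' (R0 O (b + 1))).V →+ (Fw (sh a w') (R0 O s)).V}
  (hf' : Emb a (b + 1) s w' (sh a w') f')

include hs hw hf hf' in
/-- differential of a product of embedded elements -/
theorem d_prod {g : (Fw w (R0 O (a + 1))).V} (hg : g ∈ HH O (Fw w (R0 O (a + 1))).V)
    (g' : (Fw w' (R0 O (b + 1))).V) :
    (Fw (sh a w') (Fw w (R0 O s))).d (pr s (sh a w') (C := Fw w (R0 O s)) (f g) (f' g')) =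
      pr s (sh a w') (C := Fw w (R0 O s)) (f ((Fw w (R0 O (a + 1))).d g)) (f' g') +
      pr s (sh a w') (C := Fw w (R0 O s)) (f g) (f' ((Fw w' (R0 O (b + 1))).d g')) := by
  have hV : Van (O := O) s (Fw w (R0 O s)).V := van_Fw (valid_s hs hw)
  rw [pr_d hV (sh a w') (f g) (hf.hh g hg), hf.d, hf'.d]

include hs hw hf hf' in
theorem prod_le (P : Pot O) : Idl P (Fw w (R0 O (a + 1))) a * Idl P (Fw w' (R0 O (b + 1))) 0 ≤
    Idl P (Fw (sh a w') (Fw w (R0 O s))) a := by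
  have hV : Van (O := O) s (Fw w (R0 O s)).V := van_Fw (valid_s hs hw)
  rw [Ideal.mul_le]
  rintro _ ⟨g, hg, u, hu, hgu, rfl⟩ _ ⟨g', hg', u', hu', hgu', rfl⟩
  refine ⟨pr s (sh a w') (C := Fw w (R0 O s)) (f g) (f' g'),
    pr_mem_HH hV _ (hf.hh g hg) (hf'.hh g' hg'),
    pr s (sh a w') (C := Fw w (R0 O s)) (f u) (f' g') +
      pr s (sh a w') (C := Fw w (R0 O s)) (f g) (f' u'),
    add_mem (pr_mem_HH hV _ (hf.hh u hu) (hf'.hh g' hg'))
      (pr_mem_HH hV _ (hf.hh g hg) (hf'.hh u' hu')), ?_, ?_⟩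
  · rw [d_prod hs hw hf hf' hg]
    have e1 : xv O a • pr s (sh a w') (C := Fw w (R0 O s)) (f u) (f' g') =
        pr s (sh a w') (C := Fw w (R0 O s)) (f (xv O a • u)) (f' g') := by
      rw [hf.x a (by omega), Nat.zero_add, pr_xv_left]
    have e2 : xv O a • pr s (sh a w') (C := Fw w (R0 O s)) (f g) (f' u') =
        pr s (sh a w') (C := Fw w (R0 O s)) (f g) (f' (xv O 0 • u')) := by
      have e0 : f' (xv O 0 • u') = xv O a • f' u' := hf'.x 0 (by omega) u'
      rw [e0, pr_smul_right hV _ (hf.hh g hg)]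
    have e3 : pr s (sh a w') (C := Fw w (R0 O s)) (f ((Fw w (R0 O (a + 1))).d g)) (f' g') +
        pr s (sh a w') (C := Fw w (R0 O s)) (f g) (f' ((Fw w' (R0 O (b + 1))).d g')) +
        xv O a • (pr s (sh a w') (C := Fw w (R0 O s)) (f u) (f' g') +
          pr s (sh a w') (C := Fw w (R0 O s)) (f g) (f' u')) =
        pr s (sh a w') (C := Fw w (R0 O s))
          (f ((Fw w (R0 O (a + 1))).d g + xv O a • u)) (f' g') +
        pr s (sh a w') (C := Fw w (R0 O s)) (f g)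
          (f' ((Fw w' (R0 O (b + 1))).d g' + xv O 0 • u')) := by
      rw [smul_add, e1, e2, map_add, map_add, pr_add_left, pr_add_right]
      abel
    rw [e3]
    exact add_mem (pr_mem_NN_left hV _ (hf.nn P _ hgu) (hf'.hh g' hg'))
      (pr_mem_NN_right hV _ (hf.hh g hg) (hf'.nn P _ hgu'))
  · rw [pr_ep hV _ _ (hf.hh g hg) _ (hf'.hh g' hg'), hf.ep, hf'.ep]

/-- the common colouring -/
def cc (a s : ℕ) (c c' : ℕ → O) (j : ℕ) : O :=
  if j ≤ a then c j else if j < s then c' (j - a) else 0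

include hs hw hw' hf hf' in
theorem le_prod [IsDomain O] [IsPrincipalIdealRing O] (P : Pot O)
    (hA : Sep P a (Fw w (R0 O (a + 1))).V)
    (hB : Sep P 0 (Fw w' (R0 O (b + 1))).V) (hFG : FG P (Fw w' (R0 O (b + 1))).V) :
    Idl P (Fw (sh a w') (Fw w (R0 O s))) a ≤
      Idl P (Fw w (R0 O (a + 1))) a * Idl P (Fw w' (R0 O (b + 1))) 0 := by
  have hV : Van (O := O) s (Fw w (R0 O s)).V := van_Fw (valid_s hs hw)
  rintro _ ⟨z, hz, u, hu, hzu, rfl⟩
  obtain ⟨ι, hι, g, g', hg, hg', rfl⟩ := exists_sum hs hw hf hf' z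
    (dec hs hw hw' hf hf' z hz)
  -- the basic relation
  have hstar : ∀ c c' : ℕ → O, P.IsCol c → P.IsCol c' → c a = 0 → c' 0 = 0 →
      ∀ (ψ : (Fw w (R0 O (a + 1))).V →ₛₗ[ev c] O) (ψ' : (Fw w' (R0 O (b + 1))).V →ₛₗ[ev c'] O),
      ∑ i, (ψ ((Fw w (R0 O (a + 1))).d (g i)) * ψ' (g' i) +
        ψ (g i) * ψ' ((Fw w' (R0 O (b + 1))).d (g' i))) = 0 := by
    intro c c' hc hc' h0 h0' ψ ψ'
    have k1 : ∀ j < a + 1, cc a s c c' (0 + j) = c j := by
      intro j hj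
      rw [Nat.zero_add, cc, if_pos (by omega)]
    have k2 : ∀ j < b + 1, cc a s c c' (a + j) = c' j := by
      intro j hj
      rcases Nat.eq_zero_or_pos j with h | h
      · subst h
        rw [Nat.add_zero, cc, if_pos le_rfl, h0, h0']
      · rw [cc, if_neg (by omega), if_pos (by omega), show a + j - a = j by omega]
    have k3 : ∀ j, s ≤ j → cc a s c c' j = 0 := by
      intro j hj
      rw [cc, if_neg (by omega), if_neg (by omega)]
    have k4 : P.IsCol (cc a s c c') := by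
      intro j
      unfold cc
      split_ifs
      · exact hc j
      · exact hc' _
      · exact Or.inl rfl
    have k5 : cc a s c c' a = 0 := by rw [cc, if_pos le_rfl, h0]
    obtain ⟨χ, hχ⟩ := hf.ext (cc a s c c') c k1 k3 ψ
    obtain ⟨χ', hχ'⟩ := hf'.ext (cc a s c c') c' k2 k3 ψ'
    obtain ⟨Ψ, hΨ⟩ := exists_tensor s hV (sh a w') (cc a s c c') χ χ'
    have h1 := hzu _ k4 Ψ
    rw [map_add, map_smulₛₗ, ev_inl, k5, zero_smul, add_zero, map_sum, map_sum] at h1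
    rw [← h1]
    refine Finset.sum_congr rfl fun i _ => ?_
    rw [d_prod hs hw hf hf' (hg i), map_add, hΨ, hΨ, hχ, hχ, hχ', hχ']
  have hdg : ∀ i, (Fw w (R0 O (a + 1))).d (g i) ∈ HH O (Fw w (R0 O (a + 1))).V :=
    fun i => map_mem_HH _ (hg i)
  have hdg' : ∀ i, (Fw w' (R0 O (b + 1))).d (g' i) ∈ HH O (Fw w' (R0 O (b + 1))).V :=
    fun i => map_mem_HH _ (hg' i)
  -- separation for `B`
  have hstar2 : ∀ c : ℕ → O, P.IsCol c → c a = 0 →
      ∀ (ψ : (Fw w (R0 O (a + 1))).V →ₛₗ[ev c] O),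
      ∃ u ∈ HH O (Fw w' (R0 O (b + 1))).V,
        ∑ i, ((MvPolynomial.C (ψ ((Fw w (R0 O (a + 1))).d (g i))) : S O) • g' i +
          (MvPolynomial.C (ψ (g i)) : S O) • (Fw w' (R0 O (b + 1))).d (g' i)) + xv O 0 • u ∈
          NN P (Fw w' (R0 O (b + 1))).V := by
    intro c hc h0 ψ
    refine hB _ ?_ ?_
    · exact Submodule.sum_mem _ fun i _ => add_mem (Submodule.smul_mem _ _ (hg' i))
        (Submodule.smul_mem _ _ (hdg' i))
    · intro c' hc' h0' ψ'
      rw [map_sum]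
      rw [← hstar c c' hc hc' h0 h0' ψ ψ']
      refine Finset.sum_congr rfl fun i _ => ?_
      rw [map_add, map_smulₛₗ, map_smulₛₗ, ev_C, ev_C]
      rfl
  -- the value
  have hval : (Fw (sh a w') (Fw w (R0 O s))).ep
      (∑ i, pr s (sh a w') (C := Fw w (R0 O s)) (f (g i)) (f' (g' i))) =
      (Fw w' (R0 O (b + 1))).ep (∑ i, (MvPolynomial.C ((Fw w (R0 O (a + 1))).ep (g i)) : S O) •
        g' i) := by
    rw [map_sum, map_sum]
    refine Finset.sum_congr rfl fun i _ => ?_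
    rw [pr_ep hV _ _ (hf.hh _ (hg i)) _ (hf'.hh _ (hg' i)), hf.ep, hf'.ep, map_smulₛₗ, ev_C]
    rfl
  -- `w_ε` is a cycle of `B` modulo `x_0`
  have hweHH : ∑ i, (MvPolynomial.C ((Fw w (R0 O (a + 1))).ep (g i)) : S O) • g' i ∈
      HH O (Fw w' (R0 O (b + 1))).V :=
    Submodule.sum_mem _ fun i _ => Submodule.smul_mem _ _ (hg' i)
  have hwe : ∃ u ∈ HH O (Fw w' (R0 O (b + 1))).V,
      (Fw w' (R0 O (b + 1))).d
        (∑ i, (MvPolynomial.C ((Fw w (R0 O (a + 1))).ep (g i)) : S O) • g' i) + xv O 0 • u ∈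
          NN P (Fw w' (R0 O (b + 1))).V := by
    obtain ⟨u, hu, h⟩ := hstar2 0 (fun _ => Or.inl rfl) rfl (Fw w (R0 O (a + 1))).ep
    refine ⟨u, hu, ?_⟩
    have e : ∑ i, ((MvPolynomial.C ((Fw w (R0 O (a + 1))).ep
          ((Fw w (R0 O (a + 1))).d (g i))) : S O) • g' i +
          (MvPolynomial.C ((Fw w (R0 O (a + 1))).ep (g i)) : S O) •
            (Fw w' (R0 O (b + 1))).d (g' i)) =
        (Fw w' (R0 O (b + 1))).d
          (∑ i, (MvPolynomial.C ((Fw w (R0 O (a + 1))).ep (g i)) : S O) • g' i) := by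
      rw [map_sum]
      refine Finset.sum_congr rfl fun i _ => ?_
      rw [(Fw w (R0 O (a + 1))).epd _ (hg i), map_zero, zero_smul, zero_add, map_smul]
    rw [e] at h
    exact h
  have hweI : (Fw w' (R0 O (b + 1))).ep
      (∑ i, (MvPolynomial.C ((Fw w (R0 O (a + 1))).ep (g i)) : S O) • g' i) ∈
      Idl P (Fw w' (R0 O (b + 1))) 0 := by
    obtain ⟨u, hu, h⟩ := hwe
    exact ⟨_, hweHH, u, hu, h, rfl⟩
  rw [hval]
  obtain ⟨γ, hγ⟩ := (IsPrincipalIdealRing.principal (Idl P (Fw w' (R0 O (b + 1))) 0)).principal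
  have hγ' : Idl P (Fw w' (R0 O (b + 1))) 0 = Ideal.span {γ} := hγ
  by_cases hγ0 : γ = 0
  · rw [hγ', hγ0] at hweI
    have : (Ideal.span {(0 : O)}) = ⊥ := by simp
    rw [this, Ideal.mem_bot] at hweI
    rw [hweI]
    exact zero_mem _
  obtain ⟨π, π1, π2, π3, π4, π5⟩ := exists_pi' P (Fw w' (R0 O (b + 1))) 0 hB hFG γ hγ0 hγ'.le
  -- `π` of finite sums
  have πsum : ∀ (J : Finset ι) (v : ι → (Fw w' (R0 O (b + 1))).V),
      (∀ i, v i ∈ HH O (Fw w' (R0 O (b + 1))).V) → π (∑ i ∈ J, v i) = ∑ i ∈ J, π (v i) := by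
    classical
    intro J v hv
    induction J using Finset.induction_on with
    | empty =>
      rw [Finset.sum_empty, Finset.sum_empty]
      have h1 := π2 0 0 (zero_mem _)
      rw [smul_zero, zero_mul] at h1
      exact h1
    | insert i J hi ih =>
      rw [Finset.sum_insert hi, Finset.sum_insert hi, π1 _ (hv i) _
        (Submodule.sum_mem _ fun k _ => hv k), ih]
  -- the cycle of `A`
  have hzA : ∃ u ∈ HH O (Fw w (R0 O (a + 1))).V,
      (Fw w (R0 O (a + 1))).d (∑ i, (MvPolynomial.C (π (g' i)) : S O) • g i) + xv O a • u ∈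
        NN P (Fw w (R0 O (a + 1))).V := by
    refine hA _ (map_mem_HH _ (Submodule.sum_mem _ fun i _ => Submodule.smul_mem _ _ (hg i))) ?_
    intro c hc h0 ψ
    obtain ⟨u, hu, h⟩ := hstar2 c hc h0 ψ
    have h1 := π3 _ (Submodule.sum_mem _ fun i _ => add_mem (Submodule.smul_mem _ _ (hg' i))
        (Submodule.smul_mem _ _ (hdg' i))) ⟨u, hu, h⟩
    rw [πsum _ _ (fun i => add_mem (Submodule.smul_mem _ _ (hg' i))
        (Submodule.smul_mem _ _ (hdg' i)))] at h1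
    rw [map_sum, map_sum, ← h1]
    refine Finset.sum_congr rfl fun i _ => ?_
    rw [π1 _ (Submodule.smul_mem _ _ (hg' i)) _ (Submodule.smul_mem _ _ (hdg' i)),
      π2 _ _ (hg' i), π2 _ _ (hdg' i), π4 _ (hg' i), mul_zero, add_zero, map_smul,
      map_smulₛₗ, ev_C]
    exact mul_comm _ _
  have hzAI : (Fw w (R0 O (a + 1))).ep (∑ i, (MvPolynomial.C (π (g' i)) : S O) • g i) ∈
      Idl P (Fw w (R0 O (a + 1))) a := by
    obtain ⟨u, hu, h⟩ := hzA
    exact ⟨_, Submodule.sum_mem _ fun i _ => Submodule.smul_mem _ _ (hg i), u, hu, h, rfl⟩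
  have e5 := π5 _ hweHH hwe
  rw [← e5, πsum _ _ (fun i => Submodule.smul_mem _ _ (hg' i))]
  have e6 : ∑ i, π ((MvPolynomial.C ((Fw w (R0 O (a + 1))).ep (g i)) : S O) • g' i) =
      (Fw w (R0 O (a + 1))).ep (∑ i, (MvPolynomial.C (π (g' i)) : S O) • g i) := by
    rw [map_sum]
    refine Finset.sum_congr rfl fun i _ => ?_
    rw [π2 _ _ (hg' i), map_smulₛₗ, ev_C]
    exact mul_comm _ _
  rw [e6, mul_comm γ]
  refine Ideal.mul_mem_mul hzAI ?_
  rw [hγ']
  exact Ideal.mem_span_singleton_self γ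

end

/-- The value ideal of a composite word. -/
theorem IdW_sum_of_Sep [IsDomain O] [IsPrincipalIdealRing O] (P : Pot O) (a b : ℕ)
    (w w' : List (ℕ × Bool)) (hw : Valid (a + 1) w) (hw' : Valid (b + 1) w')
    (hA : Sep P a (Fw w (R0 O (a + 1))).V)
    (hB : Sep P 0 (Fw w' (R0 O (b + 1))).V) (hFG : FG P (Fw w' (R0 O (b + 1))).V) :
    IdW P (a + b + 1) (w ++ sh a w') a = IdW P (a + 1) w a * IdW P (b + 1) w' 0 := by
  obtain ⟨f, hf⟩ := exists_emb0 (O := O) (m := a + 1) (s := a + b + 1) (by omega) hw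
  obtain ⟨f', hf'⟩ := exists_emb (O := O) (n := a) (m := b + 1) (s := a + b + 1) (by omega) hw'
  unfold IdW
  rw [Fw_append]
  exact le_antisymm (le_prod rfl hw hw' hf hf' P hA hB hFG) (prod_le rfl hw hf hf' P)

end CQ.K
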