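import Pool.Agent.CQ.Basic

/-!
# Block E: adding a strand

`PX m C = C[X_m]` and `D2 true (m-1) (C[X_m])`: Hochschild elements and negligible elements.
-/

set_option autoImplicit false
set_option linter.unusedSectionVars false
set_option linter.unusedSimpArgs false
set_option linter.unusedVariables false
set_option linter.unnecessarySeqFocus false

namespace CQ

open MvPolynomial

variable {O : Type} [CommRing O] [CharP O 2]

namespace Mk

/-- constructor for eigenfunctionals -/
noncomputable def mkEv {C : Type} [AddCommGroup C] [Module (S O) C] (c : ℕ → O) (f : C →+ O)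
    (hC : ∀ (o : O) (v : C), f ((MvPolynomial.C o : S O) • v) = o * f v)
    (hx : ∀ (j : ℕ) (v : C), f (xv O j • v) = c j * f v)
    (hy : ∀ (j : ℕ) (v : C), f (yv O j • v) = c j * f v) : C →ₛₗ[ev c] O where
  toFun := f
  map_add' := f.map_add
  map_smul' p v := by
    induction p using MvPolynomial.induction_on generalizing v with
    | C o => rw [ev_C]; exact hC o v
    | add p q hp hq => rw [add_smul, map_add, hp, hq, map_add, add_smul]
    | mul_X p s hp =>
      rw [mul_smul, hp, map_mul, smul_eq_mul, smul_eq_mul, mul_assoc]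
      congr 1
      rcases s with j | j
      · rw [ev_inl]; exact hx j v
      · rw [ev_inr]; exact hy j v

@[simp] theorem mkEv_apply {C : Type} [AddCommGroup C] [Module (S O) C] (c : ℕ → O) (f : C →+ O)
    (hC) (hx) (hy) (v : C) : mkEv c f hC hx hy v = f v := rfl

/-- the variables of the `m`-th strand act by zero -/
def NoVar (O : Type) [CommRing O] (m : ℕ) (C : Type) [AddCommGroup C] [Module (S O) C] : Prop :=
  ∀ v : C, xv O m • v = 0 ∧ yv O m • v = 0

/-- negligible elements are saturated -/
theorem NN_sat [IsDomain O] {P : Pot O} {C : Type} [AddCommGroup C] [Module (S O) C] {a : O}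
    (ha : a ≠ 0) {v : C} (h : (MvPolynomial.C a : S O) • v ∈ NN P C) : v ∈ NN P C := by
  intro c hc ψ
  have := h c hc ψ
  rw [map_smulₛₗ, ev_C, smul_eq_mul] at this
  exact (mul_eq_zero.1 this).resolve_left ha

/-- `p` of a variable kills Hochschild elements modulo negligible ones, more generally: elements of
`S` which vanish at all colourings act by zero -/
theorem smul_mem_NN {P : Pot O} {C : Type} [AddCommGroup C] [Module (S O) C] {s : S O}
    (hs : ∀ c : ℕ → O, P.IsCol c → ev c s = 0) (v : C) : s • v ∈ NN P C := by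
  intro c hc ψ
  rw [map_smulₛₗ, hs c hc, zero_smul]

section Pot
variable (P : Pot O)

theorem ka_ne_zero : P.ka ≠ 0 := by
  intro h
  apply P.h23
  have h2 : P.l3 + P.l3 = 0 := by
    have := two0 O; linear_combination P.l3 * this
  have : P.l2 + P.l3 = 0 := h
  linear_combination this - h2

theorem ta_ne_zero [IsDomain O] : P.ta ≠ 0 := mul_ne_zero P.h2 P.h3

theorem root_p {l : O} (h : P.IsRoot l) : l ^ 3 = P.ka * l ^ 2 + P.ta * l := by
  have h2 := two0 O
  rcases h with rfl | rfl | rfl
  · ring
  · simp only [Pot.ka, Pot.ta]; linear_combination (- P.l2 ^ 2 * P.l3) * h2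
  · simp only [Pot.ka, Pot.ta]; linear_combination (- P.l3 ^ 2 * P.l2) * h2

/-- two distinct roots: `h(λ, μ) = 0` -/
theorem root_h {l n : O} (h : P.IsRoot l) (h' : P.IsRoot n) (hne : l ≠ n) :
    l ^ 2 = (n + P.ka) * l + (n ^ 2 + P.ka * n + P.ta) := by
  have h2 := two0 O
  rcases h with rfl | rfl | rfl <;> rcases h' with rfl | rfl | rfl <;> first | exact absurd rfl hne | skip
  all_goals simp only [Pot.ka, Pot.ta]
  · linear_combination (- P.l2 ^ 2 - P.l2 * P.l3) * h2
  · linear_combination (- P.l3 ^ 2 - P.l2 * P.l3) * h2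
  · linear_combination (- P.l2 * P.l3) * h2
  · linear_combination (- P.l2 * P.l3 - P.l3 ^ 2 - P.l2 * P.l3) * h2
  · linear_combination (- P.l2 * P.l3) * h2
  · linear_combination (- P.l2 * P.l3 - P.l2 ^ 2 - P.l2 * P.l3) * h2

end Pot

end Mk

open Mk

/-! ## Monomials and `lin` -/

namespace PX
variable {m : ℕ} {C D E : Type} [AddCommGroup C] [Module (S O) C] [AddCommGroup D] [Module (S O) D]
  [AddCommGroup E] [Module (S O) E]

@[simp] theorem co_mono' (n k : ℕ) (v : C) : (mono n v : PX O m C).co k = if n = k then v else 0 :=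
  co_mono n k v

theorem mono_zero (n : ℕ) : (mono n (0 : C) : PX O m C) = 0 := by
  apply ext'; intro k; simp

theorem mono_add (n : ℕ) (v w : C) : (mono n (v + w) : PX O m C) = mono n v + mono n w := by
  apply ext'; intro k; simp only [co_mono', co_add]; split <;> simp

theorem C_smul_mono (o : O) (n : ℕ) (v : C) :
    (MvPolynomial.C o : S O) • (mono n v : PX O m C) = mono n ((MvPolynomial.C o : S O) • v) := by
  apply ext'; intro k; rw [co_C_smul, co_mono, co_mono]; split <;> simp

theorem X_smul_mono_of_ne (s : ℕ ⊕ ℕ) (h : s ≠ Sum.inl m) (h' : s ≠ Sum.inr m) (n : ℕ) (v : C) :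
    (X s : S O) • (mono n v : PX O m C) = mono n ((X s : S O) • v) := by
  apply ext'; intro k; rw [co_X_smul_of_ne s h h', co_mono, co_mono]; split <;> simp

theorem X_smul_mono (s : ℕ ⊕ ℕ) (h : s = Sum.inl m ∨ s = Sum.inr m) (n : ℕ) (v : C) :
    (X s : S O) • (mono n v : PX O m C) = mono (n + 1) v := by
  apply ext'; intro k
  cases k with
  | zero => rw [co_X_smul_zero s h, co_mono]; simp
  | succ k => rw [co_X_smul_succ s h, co_mono, co_mono]; simp

theorem induction {p : PX O m C → Prop} (f : PX O m C) (h0 : p 0)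
    (ha : ∀ f g, p f → p g → p (f + g)) (hm : ∀ n v, p (mono n v)) : p f :=
  PolynomialModule.induction_linear (R := S O) (M := C) (p := p) f h0 ha hm

/-- `f ↦ Σ rₙ • fₙ` -/
noncomputable def lin (m : ℕ) (r : ℕ → S O) : PX O m C →+ C where
  toFun f := (toPM f).coeff.sum (fun n v => r n • v)
  map_zero' := by
    change (PolynomialModule.coeff (0 : PolynomialModule (S O) C)).sum _ = 0
    rw [PolynomialModule.coeff_zero]; exact Finsupp.sum_zero_index
  map_add' f g := by
    change (PolynomialModule.coeff (toPM f + toPM g)).sum _ = _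
    rw [PolynomialModule.coeff_add]
    exact Finsupp.sum_add_index' (fun _ => smul_zero _) (fun _ _ _ => smul_add _ _ _)

@[simp] theorem lin_mono (r : ℕ → S O) (n : ℕ) (v : C) : lin m r (mono n v) = r n • v := by
  change (PolynomialModule.coeff (PolynomialModule.single (S O) n v)).sum _ = _
  rw [PolynomialModule.coeff_single]
  exact Finsupp.sum_single_index (smul_zero _)

theorem lin_C_smul (r : ℕ → S O) (o : O) (f : PX O m C) :
    lin m r ((MvPolynomial.C o : S O) • f) = (MvPolynomial.C o : S O) • lin m r f := by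
  induction f using induction with
  | h0 => simp
  | ha f g hf hg => rw [smul_add, map_add, map_add, smul_add, hf, hg]
  | hm n v => rw [C_smul_mono, lin_mono, lin_mono, smul_comm]

theorem lin_X_smul_of_ne (r : ℕ → S O) (s : ℕ ⊕ ℕ) (h : s ≠ Sum.inl m) (h' : s ≠ Sum.inr m)
    (f : PX O m C) : lin m r ((X s : S O) • f) = (X s : S O) • lin m r f := by
  induction f using induction with
  | h0 => simp
  | ha f g hf hg => rw [smul_add, map_add, map_add, smul_add, hf, hg]
  | hm n v => rw [X_smul_mono_of_ne s h h', lin_mono, lin_mono, smul_comm]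

theorem lin_X_smul (r : ℕ → S O) (s : ℕ ⊕ ℕ) (h : s = Sum.inl m ∨ s = Sum.inr m)
    (f : PX O m C) : lin m r ((X s : S O) • f) = lin m (fun n => r (n + 1)) f := by
  induction f using induction with
  | h0 => simp
  | ha f g hf hg => rw [smul_add, map_add, map_add, hf, hg]
  | hm n v => rw [X_smul_mono s h, lin_mono, lin_mono]

theorem lin_add (r r' : ℕ → S O) (f : PX O m C) :
    lin m (fun n => r n + r' n) f = lin m r f + lin m r' f := by
  induction f using induction with
  | h0 => simp
  | ha f g hf hg => rw [map_add, map_add, map_add, hf, hg]; abel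
  | hm n v => rw [lin_mono, lin_mono, lin_mono, add_smul]

theorem lin_smul (s : S O) (r : ℕ → S O) (f : PX O m C) :
    lin m (fun n => s * r n) f = s • lin m r f := by
  induction f using induction with
  | h0 => simp
  | ha f g hf hg => rw [map_add, map_add, smul_add, hf, hg]
  | hm n v => rw [lin_mono, lin_mono, mul_smul]

theorem lin_mem (r : ℕ → S O) (N : Submodule (S O) C) (f : PX O m C) (h : ∀ n, f.co n ∈ N) :
    lin m r f ∈ N :=
  Submodule.sum_mem _ (fun n _ => Submodule.smul_mem _ _ (h n))

/-- coefficientwise additive functoriality -/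
noncomputable def mapAdd (g : C →+ D) : PX O m C →+ PX O m D where
  toFun f := PolynomialModule.ofCoeff (S O) ((toPM f).coeff.mapRange g (map_zero g))
  map_zero' := by
    apply ext'; intro n
    change ((Finsupp.mapRange g (map_zero g) (PolynomialModule.coeff
      (0 : PolynomialModule (S O) C))) n) = 0
    rw [PolynomialModule.coeff_zero, Finsupp.mapRange_zero]; rfl
  map_add' f f' := by
    apply ext'; intro n
    change g ((PolynomialModule.coeff (toPM f + toPM f')) n) = g _ + g _
    rw [PolynomialModule.coeff_add, Finsupp.add_apply, map_add]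

@[simp] theorem co_mapAdd (g : C →+ D) (f : PX O m C) (n : ℕ) :
    (mapAdd (m := m) g f).co n = g (f.co n) := rfl

/-- coefficientwise functoriality -/
noncomputable def map (g : C →ₗ[S O] D) : PX O m C →ₗ[S O] PX O m D :=
  mkLin (mapAdd g.toAddMonoidHom)
    (fun o f => by
      apply ext'; intro n
      rw [co_mapAdd, co_C_smul, co_C_smul, co_mapAdd]
      exact map_smul g _ _)
    (fun s f => by
      apply ext'; intro n
      by_cases h : s = Sum.inl m ∨ s = Sum.inr m
      · cases n with
        | zero => rw [co_mapAdd, co_X_smul_zero s h, co_X_smul_zero s h]; exact map_zero g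
        | succ n => rw [co_mapAdd, co_X_smul_succ s h, co_X_smul_succ s h, co_mapAdd]
      · rw [not_or] at h
        rw [co_mapAdd, co_X_smul_of_ne s h.1 h.2, co_X_smul_of_ne s h.1 h.2, co_mapAdd]
        exact map_smul g _ _)

@[simp] theorem co_map (g : C →ₗ[S O] D) (f : PX O m C) (n : ℕ) :
    (map (m := m) g f).co n = g (f.co n) := rfl

theorem map_mono (g : C →ₗ[S O] D) (n : ℕ) (v : C) :
    map (m := m) g (mono n v) = mono n (g v) := by
  apply ext'; intro k; simp only [co_map, co_mono']; split <;> simp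

theorem lin_map (r : ℕ → S O) (g : C →ₗ[S O] D) (f : PX O m C) :
    lin m r (map g f) = g (lin m r f) := by
  induction f using induction with
  | h0 => simp
  | ha f f' hf hg => rw [map_add, map_add, map_add, map_add, hf, hg]
  | hm n v => rw [map_mono, lin_mono, lin_mono, map_smul]

theorem map_add' (g g' : C →ₗ[S O] D) : map (m := m) (g + g') = map g + map g' := by
  apply LinearMap.ext; intro f; apply ext'; intro n; simp

theorem map_zero' : map (m := m) (0 : C →ₗ[S O] D) = 0 := by
  apply LinearMap.ext; intro f; apply ext'; intro n; simp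

theorem map_id : map (m := m) (LinearMap.id : C →ₗ[S O] C) = LinearMap.id := by
  apply LinearMap.ext; intro f; apply ext'; intro n; simp

theorem map_comp (g : D →ₗ[S O] E) (f : C →ₗ[S O] D) :
    map (m := m) (g ∘ₗ f) = map g ∘ₗ map f := by
  apply LinearMap.ext; intro f; apply ext'; intro n; simp

/-! ## `HH` and `NN` of `C[X_m]` -/

/-- the two variables of the new strand agree -/
theorem x_smul_eq (f : PX O m C) : xv O m • f = yv O m • f := by
  apply ext'; intro n
  cases n with
  | zero => rw [co_X_smul_zero _ (Or.inl rfl), co_X_smul_zero _ (Or.inr rfl)]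
  | succ n => rw [co_X_smul_succ _ (Or.inl rfl), co_X_smul_succ _ (Or.inr rfl)]

/-- (M1) -/
theorem mem_HH (hz : ∀ v : C, xv O m • v = yv O m • v) {f : PX O m C} :
    f ∈ HH O (PX O m C) ↔ ∀ n, f.co n ∈ HH O C := by
  constructor
  · intro h n j
    by_cases hj : j = m
    · subst hj; exact hz _
    · have := congrArg (fun g : PX O m C => g.co n) (h j)
      simpa only [co_X_smul_of_ne (m := m) (Sum.inl j) (by simpa using hj) (by simp),
        co_X_smul_of_ne (m := m) (Sum.inr j) (by simp) (by simpa using hj)] using this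
  · intro h j
    by_cases hj : j = m
    · subst hj; exact x_smul_eq f
    · apply ext'; intro n
      rw [co_X_smul_of_ne (m := m) (Sum.inl j) (by simpa using hj) (by simp),
        co_X_smul_of_ne (m := m) (Sum.inr j) (by simp) (by simpa using hj)]
      exact h n j

theorem mono_mem_HH {v : C} (hv : v ∈ HH O C) (n : ℕ) : (mono n v : PX O m C) ∈ HH O (PX O m C) := by
  intro j
  by_cases hj : j = m
  · subst hj; exact x_smul_eq _
  · rw [X_smul_mono_of_ne (m := m) (Sum.inl j) (by simpa using hj) (by simp),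
        X_smul_mono_of_ne (m := m) (Sum.inr j) (by simp) (by simpa using hj), hv j]

/-- evaluation at a scalar -/
noncomputable def evl (m : ℕ) (l : O) : PX O m C →+ C :=
  lin m (fun n => MvPolynomial.C (l ^ n))

@[simp] theorem evl_mono (l : O) (n : ℕ) (v : C) :
    evl m l (mono n v) = (MvPolynomial.C (l ^ n) : S O) • v := lin_mono _ _ _

theorem evl_X_smul (l : O) (s : ℕ ⊕ ℕ) (h : s = Sum.inl m ∨ s = Sum.inr m) (f : PX O m C) :
    evl m l ((X s : S O) • f) = (MvPolynomial.C l : S O) • evl m l f := by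
  unfold evl
  rw [lin_X_smul _ s h, ← lin_smul]
  congr 1; congr 1
  funext n; rw [pow_succ', MvPolynomial.C_mul]

theorem evl_X_smul_of_ne (l : O) (s : ℕ ⊕ ℕ) (h : s ≠ Sum.inl m) (h' : s ≠ Sum.inr m)
    (f : PX O m C) : evl m l ((X s : S O) • f) = (X s : S O) • evl m l f :=
  lin_X_smul_of_ne _ s h h' f

theorem evl_C_smul (l o : O) (f : PX O m C) :
    evl m l ((MvPolynomial.C o : S O) • f) = (MvPolynomial.C o : S O) • evl m l f :=
  lin_C_smul _ o f

theorem evl_map (l : O) (g : C →ₗ[S O] D) (f : PX O m C) : evl m l (map g f) = g (evl m l f) :=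
  lin_map _ g f

/-- the functional `f ↦ ψ(f(λ))` -/
noncomputable def psiL (m : ℕ) (l : O) {c : ℕ → O} (ψ : C →ₛₗ[ev c] O) :
    PX O m C →ₛₗ[ev (Function.update c m l)] O :=
  mkEv (Function.update c m l) (ψ.toAddMonoidHom.comp (evl m l))
    (fun o f => by
      change ψ (evl m l _) = o * ψ (evl m l f)
      rw [evl_C_smul, map_smulₛₗ, ev_C, smul_eq_mul])
    (fun j f => by
      change ψ (evl m l _) = _ * ψ (evl m l f)
      by_cases hj : j = m
      · subst hj
        rw [evl_X_smul l _ (Or.inl rfl), map_smulₛₗ, ev_C, smul_eq_mul, Function.update_self]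
      · rw [evl_X_smul_of_ne (m := m) l (Sum.inl j) (by simpa using hj) (by simp), map_smulₛₗ, ev_inl,
          smul_eq_mul, Function.update_of_ne hj])
    (fun j f => by
      change ψ (evl m l _) = _ * ψ (evl m l f)
      by_cases hj : j = m
      · subst hj
        rw [evl_X_smul l _ (Or.inr rfl), map_smulₛₗ, ev_C, smul_eq_mul, Function.update_self]
      · rw [evl_X_smul_of_ne (m := m) l (Sum.inr j) (by simp) (by simpa using hj), map_smulₛₗ, ev_inr,
          smul_eq_mul, Function.update_of_ne hj])

@[simp] theorem psiL_apply (l : O) {c : ℕ → O} (ψ : C →ₛₗ[ev c] O) (f : PX O m C) :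
    psiL m l ψ f = ψ (evl m l f) := rfl

/-- the functional on coefficients of a functional on `C[X_m]` -/
noncomputable def psi0 (hz : NoVar O m C) {c : ℕ → O} (ψ : PX O m C →ₛₗ[ev c] O) :
    C →ₛₗ[ev (Function.update c m 0)] O :=
  mkEv (Function.update c m 0)
    { toFun := fun v => ψ (mono 0 v)
      map_zero' := by rw [mono_zero, map_zero]
      map_add' := fun v w => by rw [mono_add, map_add] }
    (fun o v => by
      change ψ (mono 0 _) = o * ψ (mono 0 v)
      rw [← C_smul_mono, map_smulₛₗ, ev_C, smul_eq_mul])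
    (fun j v => by
      change ψ (mono 0 _) = _ * ψ (mono 0 v)
      by_cases hj : j = m
      · subst hj
        rw [(hz v).1, mono_zero, map_zero, Function.update_self, zero_mul]
      · rw [← X_smul_mono_of_ne (m := m) (Sum.inl j) (by simpa using hj) (by simp), map_smulₛₗ,
          ev_inl, smul_eq_mul, Function.update_of_ne hj])
    (fun j v => by
      change ψ (mono 0 _) = _ * ψ (mono 0 v)
      by_cases hj : j = m
      · subst hj
        rw [(hz v).2, mono_zero, map_zero, Function.update_self, zero_mul]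
      · rw [← X_smul_mono_of_ne (m := m) (Sum.inr j) (by simp) (by simpa using hj), map_smulₛₗ,
          ev_inr, smul_eq_mul, Function.update_of_ne hj])

@[simp] theorem psi0_apply (hz : NoVar O m C) {c : ℕ → O} (ψ : PX O m C →ₛₗ[ev c] O) (v : C) :
    psi0 hz ψ v = ψ (mono 0 v) := rfl

theorem psi0_evl (hz : NoVar O m C) {c : ℕ → O} (ψ : PX O m C →ₛₗ[ev c] O) (f : PX O m C) :
    ψ f = psi0 hz ψ (evl m (c m) f) := by
  induction f using induction with
  | h0 => rw [map_zero, map_zero, map_zero]
  | ha f g hf hg => rw [map_add, map_add, map_add, hf, hg]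
  | hm n v =>
    rw [evl_mono, map_smulₛₗ, ev_C, psi0_apply]
    induction n with
    | zero => simp
    | succ n ih =>
      rw [← X_smul_mono (m := m) (Sum.inl m) (Or.inl rfl), map_smulₛₗ, ev_inl, ih, smul_eq_mul,
        smul_eq_mul, smul_eq_mul, pow_succ', mul_assoc]

theorem isCol_update {P : Pot O} {c : ℕ → O} (hc : P.IsCol c) {l : O} (hl : P.IsRoot l) (m : ℕ) :
    P.IsCol (Function.update c m l) := by
  intro j
  by_cases hj : j = m
  · subst hj; rwa [Function.update_self]
  · rw [Function.update_of_ne hj]; exact hc j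

/-- (M2) -/
theorem mem_NN {P : Pot O} (hz : NoVar O m C) {f : PX O m C} :
    f ∈ NN P (PX O m C) ↔ ∀ l, P.IsRoot l → evl m l f ∈ NN P C := by
  constructor
  · intro h l hl c hc ψ
    exact h (Function.update c m l) (isCol_update hc hl m) (psiL m l ψ)
  · intro h c hc ψ
    rw [psi0_evl hz]
    exact h (c m) (hc m) _ (isCol_update hc (Or.inl rfl) m) _

theorem evl_mem_NN {P : Pot O} {f : PX O m C} (h : f ∈ NN P (PX O m C)) {l : O} (hl : P.IsRoot l) :
    evl m l f ∈ NN P C := by
  intro c hc ψ
  exact h (Function.update c m l) (isCol_update hc hl m) (psiL m l ψ)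

/-! ## Remainders modulo `p` -/

/-- coefficients of `X^n` modulo `p(X) = X³ + κX² + τX` -/
noncomputable def rp (P : Pot O) : ℕ → O × O × O
  | 0 => (1, 0, 0)
  | n + 1 => (0, (rp P n).1 + P.ta * (rp P n).2.2, (rp P n).2.1 + P.ka * (rp P n).2.2)

theorem rp_spec (P : Pot O) {l : O} (hl : P.IsRoot l) (n : ℕ) :
    l ^ n = (rp P n).1 + (rp P n).2.1 * l + (rp P n).2.2 * l ^ 2 := by
  induction n with
  | zero => simp [rp]
  | succ n ih =>
    rw [pow_succ, ih]
    simp only [rp]
    linear_combination (rp P n).2.2 * root_p P hl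

/-- the three coefficients of the remainder modulo `p` -/
noncomputable def r0 (P : Pot O) (m : ℕ) : PX O m C →+ C := lin m (fun n => MvPolynomial.C (rp P n).1)
noncomputable def r1 (P : Pot O) (m : ℕ) : PX O m C →+ C := lin m (fun n => MvPolynomial.C (rp P n).2.1)
noncomputable def r2 (P : Pot O) (m : ℕ) : PX O m C →+ C := lin m (fun n => MvPolynomial.C (rp P n).2.2)

theorem evl_eq (P : Pot O) {l : O} (hl : P.IsRoot l) (f : PX O m C) :
    evl m l f = r0 P m f + (MvPolynomial.C l : S O) • r1 P m f +
      (MvPolynomial.C (l ^ 2) : S O) • r2 P m f := by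
  unfold evl r0 r1 r2
  rw [← lin_smul, ← lin_smul, ← lin_add, ← lin_add]
  congr 1; congr 1
  funext n
  rw [rp_spec P hl n]
  simp only [MvPolynomial.C_add, MvPolynomial.C_mul]
  ring

theorem r0_map (P : Pot O) (g : C →ₗ[S O] D) (f : PX O m C) : r0 P m (map g f) = g (r0 P m f) :=
  lin_map _ g f
theorem r1_map (P : Pot O) (g : C →ₗ[S O] D) (f : PX O m C) : r1 P m (map g f) = g (r1 P m f) :=
  lin_map _ g f
theorem r2_map (P : Pot O) (g : C →ₗ[S O] D) (f : PX O m C) : r2 P m (map g f) = g (r2 P m f) :=
  lin_map _ g f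

/-- `a + bX + cX²` -/
noncomputable def tri (m : ℕ) (a b c : C) : PX O m C := mono 0 a + mono 1 b + mono 2 c

theorem tri_mem_HH {a b c : C} (ha : a ∈ HH O C) (hb : b ∈ HH O C) (hc : c ∈ HH O C) :
    tri m a b c ∈ HH O (PX O m C) :=
  add_mem (add_mem (mono_mem_HH ha 0) (mono_mem_HH hb 1)) (mono_mem_HH hc 2)

@[simp] theorem evl_tri (l : O) (a b c : C) : evl m l (tri m a b c) =
    a + (MvPolynomial.C l : S O) • b + (MvPolynomial.C (l ^ 2) : S O) • c := by
  unfold tri
  rw [_root_.map_add, _root_.map_add, evl_mono, evl_mono, evl_mono, pow_zero, pow_one, MvPolynomial.C_1, one_smul]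

/-- (M3) a value at three roots which vanishes, vanishes coefficientwise -/
theorem tri_NN [IsDomain O] {P : Pot O} {a b c : C}
    (h : ∀ l, P.IsRoot l → a + (MvPolynomial.C l : S O) • b + (MvPolynomial.C (l ^ 2) : S O) • c ∈
      NN P C) : a ∈ NN P C ∧ b ∈ NN P C ∧ c ∈ NN P C := by
  have h0 := h 0 (Or.inl rfl)
  have h2 := h P.l2 (Or.inr (Or.inl rfl))
  have h3 := h P.l3 (Or.inr (Or.inr rfl))
  have ha : a ∈ NN P C := by simpa using h0
  have hb2 : b + (MvPolynomial.C P.l2 : S O) • c ∈ NN P C := by
    apply NN_sat P.h2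
    have : (MvPolynomial.C P.l2 : S O) • (b + (MvPolynomial.C P.l2 : S O) • c) =
        (a + (MvPolynomial.C P.l2 : S O) • b + (MvPolynomial.C (P.l2 ^ 2) : S O) • c) - a := by
      rw [pow_two, MvPolynomial.C_mul]; module
    rw [this]; exact sub_mem h2 ha
  have hb3 : b + (MvPolynomial.C P.l3 : S O) • c ∈ NN P C := by
    apply NN_sat P.h3
    have : (MvPolynomial.C P.l3 : S O) • (b + (MvPolynomial.C P.l3 : S O) • c) =
        (a + (MvPolynomial.C P.l3 : S O) • b + (MvPolynomial.C (P.l3 ^ 2) : S O) • c) - a := by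
      rw [pow_two, MvPolynomial.C_mul]; module
    rw [this]; exact sub_mem h3 ha
  have hc : c ∈ NN P C := by
    have hne : P.l2 - P.l3 ≠ 0 := sub_ne_zero.2 P.h23
    apply NN_sat hne
    have : (MvPolynomial.C (P.l2 - P.l3) : S O) • c =
        (b + (MvPolynomial.C P.l2 : S O) • c) - (b + (MvPolynomial.C P.l3 : S O) • c) := by
      rw [MvPolynomial.C_sub]; module
    rw [this]; exact sub_mem hb2 hb3
  refine ⟨ha, ?_, hc⟩
  have : b = (b + (MvPolynomial.C P.l2 : S O) • c) - (MvPolynomial.C P.l2 : S O) • c := by abel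
  rw [this]; exact sub_mem hb2 (Submodule.smul_mem _ _ hc)

theorem mem_NN_iff [IsDomain O] {P : Pot O} (hz : NoVar O m C) {f : PX O m C} :
    f ∈ NN P (PX O m C) ↔ r0 P m f ∈ NN P C ∧ r1 P m f ∈ NN P C ∧ r2 P m f ∈ NN P C := by
  rw [mem_NN hz]
  constructor
  · intro h
    apply tri_NN
    intro l hl
    rw [← evl_eq P hl]; exact h l hl
  · rintro ⟨h0, h1, h2⟩ l hl
    rw [evl_eq P hl]
    exact add_mem (add_mem h0 (Submodule.smul_mem _ _ h1)) (Submodule.smul_mem _ _ h2)

theorem r0_mem_HH (P : Pot O) (hz : ∀ v : C, xv O m • v = yv O m • v) {f : PX O m C}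
    (hf : f ∈ HH O (PX O m C)) : r0 P m f ∈ HH O C := lin_mem _ _ _ ((mem_HH hz).1 hf)
theorem r1_mem_HH (P : Pot O) (hz : ∀ v : C, xv O m • v = yv O m • v) {f : PX O m C}
    (hf : f ∈ HH O (PX O m C)) : r1 P m f ∈ HH O C := lin_mem _ _ _ ((mem_HH hz).1 hf)
theorem r2_mem_HH (P : Pot O) (hz : ∀ v : C, xv O m • v = yv O m • v) {f : PX O m C}
    (hf : f ∈ HH O (PX O m C)) : r2 P m f ∈ HH O C := lin_mem _ _ _ ((mem_HH hz).1 hf)

/-- every element is congruent to its remainder -/
theorem add_tri_mem_NN {P : Pot O} (hz : NoVar O m C) (f : PX O m C) :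
    f + tri m (r0 P m f) (r1 P m f) (r2 P m f) ∈ NN P (PX O m C) := by
  rw [mem_NN hz]
  intro l hl
  rw [_root_.map_add, evl_tri, ← evl_eq P hl, add_self_mod (O := O)]
  exact zero_mem _

end PX

theorem Mk.NoVar.eq {m : ℕ} {C : Type} [AddCommGroup C] [Module (S O) C] (hz : NoVar O m C) (v : C) :
    xv O m • v = yv O m • v := by rw [(hz v).1, (hz v).2]

end CQ
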