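import Pool.Agent.CQ.Markov

/-!
# Block E, second part: `HH` and `NN` of `D2 true i (C[X_{i+1}])`

Hochschild elements are exactly `zip f`, `f` a Hochschild element of `C[X_{i+1}]`; modulo
negligible elements only the remainder of `f` modulo `h(y_i, X)` counts.
-/

set_option autoImplicit false
set_option linter.unusedSectionVars false
set_option linter.unusedSimpArgs false
set_option linter.unusedVariables false
set_option linter.unnecessarySeqFocus false

namespace CQ
open MvPolynomial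

variable {O : Type} [CommRing O] [CharP O 2]

namespace Mk

section top
variable {i : ℕ} {C D : Type} [AddCommGroup C] [Module (S O) C] [AddCommGroup D] [Module (S O) D]

theorem mono_smul_of {s : S O} {m : ℕ} (hs : ∀ f : PX O m C, ∀ n, (s • f).co n = s • f.co n)
    (n : ℕ) (v : C) : s • (PX.mono n v : PX O m C) = PX.mono n (s • v) := by
  apply PX.ext'; intro k; rw [hs, PX.co_mono, PX.co_mono]; split <;> simp

/-- Hochschild elements of the letter bimodule over `C[X_{i+1}]` -/
theorem top_HH (z : D2 true i (PX O (i + 1) C)) :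
    z ∈ HH O (D2 true i (PX O (i + 1) C)) ↔
      z.b ∈ HH O (PX O (i + 1) C) ∧ z = zip O true i z.b := by
  constructor
  · intro h
    have h1 := congrArg D2.b (h (i + 1))
    have h0 := congrArg D2.b (h i)
    have e : (yv O (i + 1) : S O) = X (inj true (i + 1)) := rfl
    have e' : (yv O i : S O) = X (inj true i) := rfl
    rw [e, D2.X_smul_succ_b, D2.X_smul_b_of_ne _ (by simp) (by simp)] at h1
    rw [e', D2.X_smul_i_b, D2.X_smul_b_of_ne _ (by simp) (by simp)] at h0
    -- h1 : x_{i+1} b = a ; h0 : x_i b = a + e1 b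
    have hx : (X (Sum.inl (i + 1)) : S O) • z.b = (X (inj true (i + 1)) : S O) • z.b :=
      PX.x_smul_eq z.b
    refine ⟨?_, ?_⟩
    · intro j
      by_cases hj1 : j = i + 1
      · subst hj1; exact PX.x_smul_eq z.b
      · by_cases hj : j = i
        · subst hj
          change (X (Sum.inl j) : S O) • z.b = (X (inj true j) : S O) • z.b
          rw [h0, ← h1, hx, e1_def, add_smul, add_comm ((X (inj true j) : S O) • z.b), ← add_assoc,
            add_self_mod (O := O), zero_add]
        · have := congrArg D2.b (h j)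
          rwa [D2.X_smul_b_of_ne _ (by simp) (by simp), D2.X_smul_b_of_ne _ (by simpa using hj)
            (by simpa using hj1)] at this
    · ext1
      · rw [zip_a, ← hx, h1]
      · rfl
  · rintro ⟨h, hz⟩
    rw [hz]; exact map_mem_HH _ h

theorem top_HH_zip {f : PX O (i + 1) C} (hf : f ∈ HH O (PX O (i + 1) C)) :
    zip O true i f ∈ HH O (D2 true i (PX O (i + 1) C)) := map_mem_HH _ hf

/-! ### Remainders modulo `h(y_i, X)` -/

/-- coefficients of `X^n` modulo `h(y,X) = X² + (y+κ)X + q(y)`, `y = y_i` -/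
noncomputable def rh (P : Pot O) (i : ℕ) : ℕ → S O × S O
  | 0 => (1, 0)
  | n + 1 => ((yv O i ^ 2 + MvPolynomial.C P.ka * yv O i + MvPolynomial.C P.ta) * (rh P i n).2,
      (rh P i n).1 + (yv O i + MvPolynomial.C P.ka) * (rh P i n).2)

theorem rh_spec (P : Pot O) (i : ℕ) {c : ℕ → O} (hc : P.IsCol c) {l : O} (hl : P.IsRoot l)
    (hne : l ≠ c i) (n : ℕ) : l ^ n = ev c (rh P i n).1 + ev c (rh P i n).2 * l := by
  induction n with
  | zero => simp [rh]
  | succ n ih =>
    rw [pow_succ, ih]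
    simp only [rh, map_add, map_mul, map_pow, ev_C, ev_inr]
    linear_combination (ev c (rh P i n).2) * root_h P hl (hc i) hne

/-- remainder modulo `h(y_i,X)`: constant coefficient -/
noncomputable def ra (P : Pot O) (i : ℕ) : PX O (i + 1) C →+ C := PX.lin (i + 1) (fun n => (rh P i n).1)
/-- remainder modulo `h(y_i,X)`: linear coefficient -/
noncomputable def rb (P : Pot O) (i : ℕ) : PX O (i + 1) C →+ C := PX.lin (i + 1) (fun n => (rh P i n).2)

theorem ra_map (P : Pot O) (g : C →ₗ[S O] D) (f : PX O (i + 1) C) :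
    ra P i (PX.map g f) = g (ra P i f) := PX.lin_map _ g f
theorem rb_map (P : Pot O) (g : C →ₗ[S O] D) (f : PX O (i + 1) C) :
    rb P i (PX.map g f) = g (rb P i f) := PX.lin_map _ g f

theorem ra_X (P : Pot O) (s : ℕ ⊕ ℕ) (h : s = Sum.inl (i + 1) ∨ s = Sum.inr (i + 1))
    (f : PX O (i + 1) C) : ra P i ((X s : S O) • f) =
      (yv O i ^ 2 + MvPolynomial.C P.ka * yv O i + MvPolynomial.C P.ta) • rb P i f := by
  unfold ra rb
  rw [PX.lin_X_smul _ s h, ← PX.lin_smul]; rfl

theorem rb_X (P : Pot O) (s : ℕ ⊕ ℕ) (h : s = Sum.inl (i + 1) ∨ s = Sum.inr (i + 1))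
    (f : PX O (i + 1) C) : rb P i ((X s : S O) • f) =
      ra P i f + (yv O i + MvPolynomial.C P.ka) • rb P i f := by
  unfold ra rb
  rw [PX.lin_X_smul _ s h, ← PX.lin_smul, ← PX.lin_add]; rfl

theorem ra_C_smul (P : Pot O) (o : O) (f : PX O (i + 1) C) :
    ra P i ((MvPolynomial.C o : S O) • f) = (MvPolynomial.C o : S O) • ra P i f :=
  PX.lin_C_smul _ o f
theorem rb_C_smul (P : Pot O) (o : O) (f : PX O (i + 1) C) :
    rb P i ((MvPolynomial.C o : S O) • f) = (MvPolynomial.C o : S O) • rb P i f :=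
  PX.lin_C_smul _ o f

theorem ra_X_of_ne (P : Pot O) (s : ℕ ⊕ ℕ) (h : s ≠ Sum.inl (i + 1)) (h' : s ≠ Sum.inr (i + 1))
    (f : PX O (i + 1) C) : ra P i ((X s : S O) • f) = (X s : S O) • ra P i f :=
  PX.lin_X_smul_of_ne _ s h h' f
theorem rb_X_of_ne (P : Pot O) (s : ℕ ⊕ ℕ) (h : s ≠ Sum.inl (i + 1)) (h' : s ≠ Sum.inr (i + 1))
    (f : PX O (i + 1) C) : rb P i ((X s : S O) • f) = (X s : S O) • rb P i f :=
  PX.lin_X_smul_of_ne _ s h h' f

theorem ra_mem_HH (P : Pot O) (hz : ∀ v : C, xv O (i + 1) • v = yv O (i + 1) • v)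
    {f : PX O (i + 1) C} (hf : f ∈ HH O (PX O (i + 1) C)) : ra P i f ∈ HH O C :=
  PX.lin_mem _ _ _ ((PX.mem_HH hz).1 hf)
theorem rb_mem_HH (P : Pot O) (hz : ∀ v : C, xv O (i + 1) • v = yv O (i + 1) • v)
    {f : PX O (i + 1) C} (hf : f ∈ HH O (PX O (i + 1) C)) : rb P i f ∈ HH O C :=
  PX.lin_mem _ _ _ ((PX.mem_HH hz).1 hf)

/-- `a + bX` -/
noncomputable def duo (m : ℕ) (a b : C) : PX O m C := PX.mono 0 a + PX.mono 1 b

theorem duo_mem_HH {m : ℕ} {a b : C} (ha : a ∈ HH O C) (hb : b ∈ HH O C) :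
    duo m a b ∈ HH O (PX O m C) := add_mem (PX.mono_mem_HH ha 0) (PX.mono_mem_HH hb 1)

@[simp] theorem ra_duo (P : Pot O) (a b : C) : ra P i (duo (i + 1) a b) = a := by
  unfold ra duo
  rw [map_add, PX.lin_mono, PX.lin_mono]; simp [rh]
@[simp] theorem rb_duo (P : Pot O) (a b : C) : rb P i (duo (i + 1) a b) = b := by
  unfold rb duo
  rw [map_add, PX.lin_mono, PX.lin_mono]; simp [rh]

/-- value at a functional: for `λ ≠ c_i` the value `ψ(f(λ))` is given by the remainder -/
theorem psi_evl (P : Pot O) {c : ℕ → O} (hc : P.IsCol c) {l : O} (hl : P.IsRoot l) (hne : l ≠ c i)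
    (ψ : C →ₛₗ[ev c] O) (f : PX O (i + 1) C) :
    ψ (PX.evl (i + 1) l f) = ψ (ra P i f) + l * ψ (rb P i f) := by
  unfold ra rb
  induction f using PX.induction with
  | h0 => simp only [map_zero, mul_zero, add_zero]
  | ha f g hf hg => simp only [map_add, hf, hg]; ring
  | hm n v =>
    rw [PX.evl_mono, PX.lin_mono, PX.lin_mono, map_smulₛₗ, map_smulₛₗ, map_smulₛₗ, ev_C,
      rh_spec P i hc hl hne n]
    simp only [smul_eq_mul]; ring

/-- the functional on the letter bimodule attached to `λ ≠ c_i` and `ψ`: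
`⟨a, b⟩ ↦ ψ(a(λ)) + c_i ψ(b(λ))` (unzip followed by `ψ` at `λ`), where `y_{i+1}` is the eigenvalue
`λ`; it takes the value `(λ + c_i) ψ(f(λ))` on `zip f` -/
noncomputable def topPsi (i : ℕ) (l : O) {c : ℕ → O} (ψ : C →ₛₗ[ev c] O) :
    D2 true i (PX O (i + 1) C) →ₛₗ[ev (Function.update c (i + 1) l)] O :=
  (PX.psiL (i + 1) l ψ).comp (unzip O true i)

theorem topPsi_zip (l : O) {c : ℕ → O} (ψ : C →ₛₗ[ev c] O) (f : PX O (i + 1) C) :
    topPsi i l ψ (zip O true i f) = (l + c i) * ψ (PX.evl (i + 1) l f) := by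
  change ψ (PX.evl (i + 1) l (unzip O true i (zip O true i f))) = _
  rw [unzip_apply, zip_a, zip_b, map_add]
  have h1 := PX.evl_X_smul (m := i + 1) l (Sum.inr (i + 1)) (Or.inr rfl) f
  have h2 := PX.evl_X_smul_of_ne (m := i + 1) l (Sum.inr i) (by simp) (by simp) f
  have e1 : (X (inj true (i + 1)) : S O) = X (Sum.inr (i + 1)) := rfl
  have e2 : (X (inj true i) : S O) = X (Sum.inr i) := rfl
  rw [e1, e2, h1, h2, map_add, map_smulₛₗ, map_smulₛₗ, ev_C, ev_inr, smul_eq_mul, smul_eq_mul]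
  ring

/-- an eigenfunctional on the letter bimodule whose colours at `i`, `i+1` agree kills Hochschild
elements -/
theorem lemmaV {j : ℕ} {D : Type} [AddCommGroup D] [Module (S O) D] {c : ℕ → O}
    (ψ : D2 true j D →ₛₗ[ev c] O) (z : D2 true j D) (hz : z ∈ HH O (D2 true j D)) :
    ψ z = (c j + c (j + 1)) * ψ ⟨z.b, 0⟩ := by
  have h1 := congrArg D2.b (hz (j + 1))
  have e : (yv O (j + 1) : S O) = X (inj true (j + 1)) := rfl
  rw [e, D2.X_smul_succ_b, D2.X_smul_b_of_ne _ (by simp) (by simp)] at h1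
  have e0 : z = xv O (j + 1) • (⟨z.b, 0⟩ : D2 true j D) + yv O j • (⟨z.b, 0⟩ : D2 true j D) := by
    have e' : (yv O j : S O) = X (inj true j) := rfl
    ext1
    · rw [D2.add_a, e', D2.X_smul_i_a, D2.X_smul_a_of_ne _ (by simp) (by simp), h1, smul_zero,
        add_zero]
    · rw [D2.add_b, e', D2.X_smul_i_b, D2.X_smul_b_of_ne _ (by simp) (by simp), smul_zero,
        smul_zero, add_zero, zero_add]
  have := congrArg ψ e0
  rw [map_add, map_smulₛₗ, map_smulₛₗ, ev_inl, ev_inr, smul_eq_mul, smul_eq_mul] at this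
  rw [this]; ring

/-- (M5) -/
theorem top_NN [IsDomain O] {P : Pot O} (hz : NoVar O (i + 1) C) {f : PX O (i + 1) C}
    (hf : f ∈ HH O (PX O (i + 1) C)) :
    zip O true i f ∈ NN P (D2 true i (PX O (i + 1) C)) ↔
      ra P i f ∈ NN P C ∧ rb P i f ∈ NN P C := by
  constructor
  · intro h
    -- for all colourings, all `λ ≠ c_i`
    have key : ∀ c : ℕ → O, P.IsCol c → ∀ ψ : C →ₛₗ[ev c] O, ∀ l, P.IsRoot l → l ≠ c i →
        ψ (ra P i f) + l * ψ (rb P i f) = 0 := by
      intro c hc ψ l hl hne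
      have h1 := h _ (PX.isCol_update hc hl (i + 1)) (topPsi i l ψ)
      rw [topPsi_zip] at h1
      have h2 : l + c i ≠ 0 := by
        intro h3
        apply hne
        have h4 : c i + c i = 0 := by have := two0 O; linear_combination (c i) * this
        linear_combination h3 - h4
      rw [← psi_evl P hc hl hne]
      exact (mul_eq_zero.1 h1).resolve_left h2
    have two : ∀ c : ℕ → O, P.IsCol c → ∀ ψ : C →ₛₗ[ev c] O,
        ψ (ra P i f) = 0 ∧ ψ (rb P i f) = 0 := by
      intro c hc ψ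
      obtain ⟨l, l', hl, hl', hne, hne', hll⟩ : ∃ l l', P.IsRoot l ∧ P.IsRoot l' ∧ l ≠ c i ∧
          l' ≠ c i ∧ l ≠ l' := by
        rcases hc i with h | h | h
        · exact ⟨P.l2, P.l3, Or.inr (Or.inl rfl), Or.inr (Or.inr rfl), by rw [h]; exact P.h2,
            by rw [h]; exact P.h3, P.h23⟩
        · exact ⟨0, P.l3, Or.inl rfl, Or.inr (Or.inr rfl), by rw [h]; exact P.h2.symm,
            by rw [h]; exact P.h23.symm, P.h3.symm⟩
        · exact ⟨0, P.l2, Or.inl rfl, Or.inr (Or.inl rfl), by rw [h]; exact P.h3.symm,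
            by rw [h]; exact P.h23, P.h2.symm⟩
      have k1 := key c hc ψ l hl hne
      have k2 := key c hc ψ l' hl' hne'
      have hb : ψ (rb P i f) = 0 := by
        have : (l - l') * ψ (rb P i f) = 0 := by linear_combination k1 - k2
        exact (mul_eq_zero.1 this).resolve_left (sub_ne_zero.2 hll)
      refine ⟨?_, hb⟩
      rw [hb, mul_zero, add_zero] at k1; exact k1
    exact ⟨fun c hc ψ => (two c hc ψ).1, fun c hc ψ => (two c hc ψ).2⟩
  · rintro ⟨h1, h2⟩ c hc ψ
    by_cases he : c i = c (i + 1)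
    · rw [lemmaV ψ _ (map_mem_HH _ hf), he]
      have h4 : c (i + 1) + c (i + 1) = 0 := by
        have := two0 O; linear_combination (c (i + 1)) * this
      rw [h4, zero_mul]
    · have h3 := PX.psi0_evl hz (ψ.comp (zip O true i)) f
      have h4 : ψ (zip O true i f) = PX.psi0 hz (ψ.comp (zip O true i)) (PX.evl (i + 1) (c (i + 1)) f) := h3
      rw [h4, psi_evl P (PX.isCol_update hc (Or.inl rfl) (i + 1)) (hc (i + 1)) (by
        rw [Function.update_of_ne (by simp)]; exact fun h => he h.symm)]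
      rw [h1 _ (PX.isCol_update hc (Or.inl rfl) (i + 1)), h2 _ (PX.isCol_update hc (Or.inl rfl) (i + 1)),
        mul_zero, add_zero]

/-- every `zip f` is congruent to `zip (a + bX)`, `a + bX` the remainder modulo `h` -/
theorem top_add_duo [IsDomain O] {P : Pot O} (hz : NoVar O (i + 1) C) {f : PX O (i + 1) C}
    (hf : f ∈ HH O (PX O (i + 1) C)) :
    zip O true i f + zip O true i (duo (i + 1) (ra P i f) (rb P i f)) ∈
      NN P (D2 true i (PX O (i + 1) C)) := by
  have h1 := duo_mem_HH (m := i + 1) (ra_mem_HH P hz.eq hf) (rb_mem_HH P hz.eq hf)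
  rw [← map_add, top_NN hz (add_mem hf h1), map_add, map_add, ra_duo, rb_duo,
    add_self_mod (O := O), add_self_mod (O := O)]
  exact ⟨zero_mem _, zero_mem _⟩

end top

end Mk
end CQ
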