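import Pool.Agent.CQ.Markov2
import Pool.Agent.CQ.EPFG

/-!
# Block E, third part: the E-property and finite generation of `T` when a strand is added
-/

set_option autoImplicit false
set_option linter.unusedSectionVars false
set_option linter.unusedSimpArgs false
set_option linter.unusedVariables false
set_option linter.unnecessarySeqFocus false

namespace CQ
open MvPolynomial

variable {O : Type} [CommRing O] [CharP O 2]

namespace Mk

section defs
variable {C D : Type} [AddCommGroup C] [Module (S O) C] [AddCommGroup D] [Module (S O) D]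

/-- `q(f) v = f² v + κ f v + τ v` -/
noncomputable def qf (P : Pot O) (f : C →ₗ[S O] C) : C →ₗ[S O] C :=
  f ∘ₗ f + (MvPolynomial.C P.ka : S O) • f + (MvPolynomial.C P.ta : S O) • LinearMap.id

theorem qf_apply (P : Pot O) (f : C →ₗ[S O] C) (v : C) :
    qf P f v = f (f v) + (MvPolynomial.C P.ka : S O) • f v + (MvPolynomial.C P.ta : S O) • v := rfl

/-- the E-property of an operator: on `T(C)` one has `ker f = im q(f)`, `ker q(f) = im f` -/
def EPq (P : Pot O) (f : C →ₗ[S O] C) : Prop :=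
  (∀ z ∈ HH O C, f z ∈ NN P C → ∃ u ∈ HH O C, z + qf P f u ∈ NN P C) ∧
  (∀ z ∈ HH O C, qf P f z ∈ NN P C → ∃ u ∈ HH O C, z + f u ∈ NN P C)

/-- finite generation of `T(C)` over `O` -/
def FGf (P : Pot O) (C : Type) [AddCommGroup C] [Module (S O) C] : Prop :=
  ∃ (n : ℕ) (g : Fin n → C), (∀ j, g j ∈ HH O C) ∧
    ∀ z ∈ HH O C, ∃ o : Fin n → O, z + ∑ j, (MvPolynomial.C (o j) : S O) • g j ∈ NN P C

/-- in characteristic two, `v + w ∈ N` and `w + u ∈ N` give `v + u ∈ N` -/
theorem add_trans {N : Submodule (S O) C} {v w u : C} (h : v + w ∈ N) (h' : w + u ∈ N) :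
    v + u ∈ N := by
  have h1 := add_mem h h'
  have : v + w + (w + u) = v + u := by
    have h2 := add_self_mod (O := O) w
    calc _ = v + u + (w + w) := by abel
      _ = _ := by rw [h2, add_zero]
  rwa [this] at h1

theorem mem_of_add {N : Submodule (S O) C} {v w : C} (h : v + w ∈ N) (h' : w ∈ N) : v ∈ N := by
  have : v = v + w - w := by abel
  rw [this]; exact sub_mem h h'

end defs

section PX
variable {m : ℕ} {C : Type} [AddCommGroup C] [Module (S O) C]

/-- coefficientwise operators on `C[X_m]` -/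
theorem EPq_PX_map [IsDomain O] {P : Pot O} (hz : NoVar O m C) {f : C →ₗ[S O] C} (hf : EPq P f) :
    EPq P (PX.map (m := m) f) := by
  have hq : ∀ u : PX O m C, qf P (PX.map (m := m) f) u = PX.map (m := m) (qf P f) u := by
    intro u; apply PX.ext'; intro n
    simp only [qf_apply, PX.co_add, PX.co_C_smul, PX.co_map]
  constructor
  · intro z hzz hN
    rw [PX.mem_NN_iff hz, PX.r0_map, PX.r1_map, PX.r2_map] at hN
    obtain ⟨u0, h0, k0⟩ := hf.1 _ (PX.r0_mem_HH P hz.eq hzz) hN.1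
    obtain ⟨u1, h1, k1⟩ := hf.1 _ (PX.r1_mem_HH P hz.eq hzz) hN.2.1
    obtain ⟨u2, h2, k2⟩ := hf.1 _ (PX.r2_mem_HH P hz.eq hzz) hN.2.2
    refine ⟨PX.tri m u0 u1 u2, PX.tri_mem_HH h0 h1 h2, ?_⟩
    rw [hq, PX.mem_NN hz]
    intro l hl
    rw [map_add, PX.evl_map, PX.evl_tri, PX.evl_eq P hl z]
    have : PX.r0 P m z + (MvPolynomial.C l : S O) • PX.r1 P m z +
        (MvPolynomial.C (l ^ 2) : S O) • PX.r2 P m z +
        qf P f (u0 + (MvPolynomial.C l : S O) • u1 + (MvPolynomial.C (l ^ 2) : S O) • u2) =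
        (PX.r0 P m z + qf P f u0) + (MvPolynomial.C l : S O) • (PX.r1 P m z + qf P f u1) +
        (MvPolynomial.C (l ^ 2) : S O) • (PX.r2 P m z + qf P f u2) := by
      simp only [map_add, map_smul]; module
    rw [this]
    exact add_mem (add_mem k0 (Submodule.smul_mem _ _ k1)) (Submodule.smul_mem _ _ k2)
  · intro z hzz hN
    rw [hq, PX.mem_NN_iff hz, PX.r0_map, PX.r1_map, PX.r2_map] at hN
    obtain ⟨u0, h0, k0⟩ := hf.2 _ (PX.r0_mem_HH P hz.eq hzz) hN.1
    obtain ⟨u1, h1, k1⟩ := hf.2 _ (PX.r1_mem_HH P hz.eq hzz) hN.2.1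
    obtain ⟨u2, h2, k2⟩ := hf.2 _ (PX.r2_mem_HH P hz.eq hzz) hN.2.2
    refine ⟨PX.tri m u0 u1 u2, PX.tri_mem_HH h0 h1 h2, ?_⟩
    rw [PX.mem_NN hz]
    intro l hl
    rw [map_add, PX.evl_map, PX.evl_tri, PX.evl_eq P hl z]
    have : PX.r0 P m z + (MvPolynomial.C l : S O) • PX.r1 P m z +
        (MvPolynomial.C (l ^ 2) : S O) • PX.r2 P m z +
        f (u0 + (MvPolynomial.C l : S O) • u1 + (MvPolynomial.C (l ^ 2) : S O) • u2) =
        (PX.r0 P m z + f u0) + (MvPolynomial.C l : S O) • (PX.r1 P m z + f u1) +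
        (MvPolynomial.C (l ^ 2) : S O) • (PX.r2 P m z + f u2) := by
      simp only [map_add, map_smul]; module
    rw [this]
    exact add_mem (add_mem k0 (Submodule.smul_mem _ _ k1)) (Submodule.smul_mem _ _ k2)

/-- evaluation of `q(X) u` -/
theorem evl_qf (P : Pot O) (l : O) (s : ℕ ⊕ ℕ) (h : s = Sum.inl m ∨ s = Sum.inr m) (u : PX O m C) :
    PX.evl m l (qf P ((X s : S O) • LinearMap.id) u) =
      (MvPolynomial.C (l ^ 2 + P.ka * l + P.ta) : S O) • PX.evl m l u := by
  rw [qf_apply]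
  simp only [LinearMap.smul_apply, LinearMap.id_apply, map_add]
  rw [PX.evl_X_smul l s h, PX.evl_X_smul l s h, PX.evl_C_smul, PX.evl_C_smul,
    PX.evl_X_smul l s h]
  simp only [MvPolynomial.C_add, MvPolynomial.C_mul, MvPolynomial.C_pow]
  module

theorem q_root2 (P : Pot O) : P.l2 ^ 2 + P.ka * P.l2 + P.ta = 0 := by
  simp only [Pot.ka, Pot.ta]
  linear_combination (P.l2 ^ 2 + P.l2 * P.l3) * (two0 O)

theorem q_root3 (P : Pot O) : P.l3 ^ 2 + P.ka * P.l3 + P.ta = 0 := by
  simp only [Pot.ka, Pot.ta]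
  linear_combination (P.l3 ^ 2 + P.l2 * P.l3) * (two0 O)

/-- the new variable on `C[X_m]` -/
theorem EPq_PX_X [IsDomain O] {P : Pot O} (hz : NoVar O m C) (s : ℕ ⊕ ℕ)
    (h : s = Sum.inl m ∨ s = Sum.inr m) :
    EPq P ((X s : S O) • (LinearMap.id : PX O m C →ₗ[S O] PX O m C)) := by
  constructor
  · intro z hzz hN
    simp only [LinearMap.smul_apply, LinearMap.id_apply] at hN
    -- `z(l2), z(l3)` are negligible
    have h2 : PX.evl m P.l2 z ∈ NN P C := by
      have := PX.evl_mem_NN hN (Or.inr (Or.inl rfl) : P.IsRoot P.l2)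
      rw [PX.evl_X_smul _ s h] at this
      exact NN_sat P.h2 this
    have h3 : PX.evl m P.l3 z ∈ NN P C := by
      have := PX.evl_mem_NN hN (Or.inr (Or.inr rfl) : P.IsRoot P.l3)
      rw [PX.evl_X_smul _ s h] at this
      exact NN_sat P.h3 this
    -- `r0 ≡ τ r2`
    have k : PX.r0 P m z + (MvPolynomial.C P.ta : S O) • PX.r2 P m z ∈ NN P C := by
      rw [PX.evl_eq P (Or.inr (Or.inl rfl) : P.IsRoot P.l2)] at h2
      rw [PX.evl_eq P (Or.inr (Or.inr rfl) : P.IsRoot P.l3)] at h3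
      have hk : (MvPolynomial.C P.ka : S O) • (PX.r0 P m z + (MvPolynomial.C P.ta : S O) • PX.r2 P m z) ∈ NN P C := by
        have e : (MvPolynomial.C P.ka : S O) • (PX.r0 P m z + (MvPolynomial.C P.ta : S O) • PX.r2 P m z) =
            (MvPolynomial.C P.l3 : S O) • (PX.r0 P m z + (MvPolynomial.C P.l2 : S O) • PX.r1 P m z +
              (MvPolynomial.C (P.l2 ^ 2) : S O) • PX.r2 P m z) +
            (MvPolynomial.C P.l2 : S O) • (PX.r0 P m z + (MvPolynomial.C P.l3 : S O) • PX.r1 P m z +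
              (MvPolynomial.C (P.l3 ^ 2) : S O) • PX.r2 P m z) := by
          simp only [Pot.ka, Pot.ta, MvPolynomial.C_add, MvPolynomial.C_mul, MvPolynomial.C_pow]
          (match_scalars <;> (rw [← sub_eq_zero]; ring_nf <;>
            simp only [two0, three1, four0, five1, six0, seven1, eight0, mul_zero, zero_mul,
            add_zero, zero_add, neg_zero, sub_zero, sub_self, mul_one]))
        rw [e]; exact add_mem (Submodule.smul_mem _ _ h2) (Submodule.smul_mem _ _ h3)
      exact NN_sat (ka_ne_zero P) hk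
    refine ⟨PX.mono 0 (PX.r2 P m z), PX.mono_mem_HH (PX.r2_mem_HH P hz.eq hzz) 0, ?_⟩
    rw [PX.mem_NN hz]
    intro l hl
    rw [map_add, evl_qf P l s h, PX.evl_mono, pow_zero, MvPolynomial.C_1, one_smul]
    rcases hl with rfl | rfl | rfl
    · rw [PX.evl_eq P (Or.inl rfl : P.IsRoot 0)]
      simpa using k
    · rw [q_root2, MvPolynomial.C_0, zero_smul, add_zero]; exact h2
    · rw [q_root3, MvPolynomial.C_0, zero_smul, add_zero]; exact h3
  · intro z hzz hN
    have h0 : PX.r0 P m z ∈ NN P C := by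
      have := PX.evl_mem_NN hN (Or.inl rfl : P.IsRoot 0)
      rw [evl_qf P 0 s h] at this
      have h1 : (MvPolynomial.C P.ta : S O) • PX.evl m 0 z ∈ NN P C := by simpa using this
      have h2 := NN_sat (ta_ne_zero P) h1
      rw [PX.evl_eq P (Or.inl rfl : P.IsRoot 0)] at h2
      simpa using h2
    refine ⟨duo m (PX.r1 P m z) (PX.r2 P m z),
      duo_mem_HH (PX.r1_mem_HH P hz.eq hzz) (PX.r2_mem_HH P hz.eq hzz), ?_⟩
    rw [PX.mem_NN hz]
    intro l hl
    simp only [LinearMap.smul_apply, LinearMap.id_apply]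
    rw [map_add, PX.evl_X_smul l s h, PX.evl_eq P hl z]
    unfold duo
    rw [map_add, PX.evl_mono, PX.evl_mono, pow_zero, pow_one, MvPolynomial.C_1, one_smul]
    have : PX.r0 P m z + (MvPolynomial.C l : S O) • PX.r1 P m z +
        (MvPolynomial.C (l ^ 2) : S O) • PX.r2 P m z +
        (MvPolynomial.C l : S O) • (PX.r1 P m z + (MvPolynomial.C l : S O) • PX.r2 P m z) =
        PX.r0 P m z := by
      simp only [MvPolynomial.C_pow]
      (match_scalars <;> (rw [← sub_eq_zero]; ring_nf <;>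
            simp only [two0, three1, four0, five1, six0, seven1, eight0, mul_zero, zero_mul,
            add_zero, zero_add, neg_zero, sub_zero, sub_self, mul_one]))
    rw [this]; exact h0

theorem FGf_PX {P : Pot O} (hz : NoVar O m C) (h : FGf P C) : FGf P (PX O m C) := by
  obtain ⟨n, g, hg, hG⟩ := h
  let G : Fin 3 × Fin n → PX O m C := fun k => PX.mono k.1.val (g k.2)
  let e : Fin (3 * n) ≃ Fin 3 × Fin n := finProdFinEquiv.symm
  refine ⟨3 * n, fun k => G (e k), fun k => PX.mono_mem_HH (hg _) _, ?_⟩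
  intro z hzz
  obtain ⟨o0, k0⟩ := hG _ (PX.r0_mem_HH P hz.eq hzz)
  obtain ⟨o1, k1⟩ := hG _ (PX.r1_mem_HH P hz.eq hzz)
  obtain ⟨o2, k2⟩ := hG _ (PX.r2_mem_HH P hz.eq hzz)
  let oo : Fin 3 × Fin n → O := fun k => ![o0 k.2, o1 k.2, o2 k.2] k.1
  refine ⟨fun k => oo (e k), ?_⟩
  have hs : ∑ k, (MvPolynomial.C (oo (e k)) : S O) • G (e k) =
      ∑ k : Fin 3 × Fin n, (MvPolynomial.C (oo k) : S O) • G k :=
    Equiv.sum_comp e (fun k => (MvPolynomial.C (oo k) : S O) • G k)
  rw [hs, Fintype.sum_prod_type, Fin.sum_univ_three, PX.mem_NN hz]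
  intro l hl
  rw [map_add, map_add, map_add, map_sum, map_sum, map_sum, PX.evl_eq P hl z]
  have e0 : ∀ j, PX.evl m l ((MvPolynomial.C (oo (0, j)) : S O) • G (0, j)) =
      (MvPolynomial.C (o0 j) : S O) • g j := by
    intro j; rw [PX.evl_C_smul]; change _ • PX.evl m l (PX.mono 0 (g j)) = _
    rw [PX.evl_mono, pow_zero, MvPolynomial.C_1, one_smul]; rfl
  have e1 : ∀ j, PX.evl m l ((MvPolynomial.C (oo (1, j)) : S O) • G (1, j)) =
      (MvPolynomial.C l : S O) • (MvPolynomial.C (o1 j) : S O) • g j := by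
    intro j; rw [PX.evl_C_smul]; change _ • PX.evl m l (PX.mono 1 (g j)) = _
    rw [PX.evl_mono, pow_one, smul_comm]; rfl
  have e2 : ∀ j, PX.evl m l ((MvPolynomial.C (oo (2, j)) : S O) • G (2, j)) =
      (MvPolynomial.C (l ^ 2) : S O) • (MvPolynomial.C (o2 j) : S O) • g j := by
    intro j; rw [PX.evl_C_smul]; change _ • PX.evl m l (PX.mono 2 (g j)) = _
    rw [PX.evl_mono, smul_comm]; rfl
  simp only [e0, e1, e2]
  rw [← Finset.smul_sum, ← Finset.smul_sum]
  have : PX.r0 P m z + (MvPolynomial.C l : S O) • PX.r1 P m z +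
        (MvPolynomial.C (l ^ 2) : S O) • PX.r2 P m z +
        (∑ j, (MvPolynomial.C (o0 j) : S O) • g j +
          (MvPolynomial.C l : S O) • ∑ j, (MvPolynomial.C (o1 j) : S O) • g j +
          (MvPolynomial.C (l ^ 2) : S O) • ∑ j, (MvPolynomial.C (o2 j) : S O) • g j) =
      (PX.r0 P m z + ∑ j, (MvPolynomial.C (o0 j) : S O) • g j) +
        (MvPolynomial.C l : S O) • (PX.r1 P m z + ∑ j, (MvPolynomial.C (o1 j) : S O) • g j) +
        (MvPolynomial.C (l ^ 2) : S O) • (PX.r2 P m z + ∑ j, (MvPolynomial.C (o2 j) : S O) • g j) := by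
    module
  rw [this]
  exact add_mem (add_mem k0 (Submodule.smul_mem _ _ k1)) (Submodule.smul_mem _ _ k2)

end PX

section top
variable {i : ℕ} {C : Type} [AddCommGroup C] [Module (S O) C]

/-- coefficientwise operators -/
theorem EPq_top_map [IsDomain O] {P : Pot O} (hz : NoVar O (i + 1) C) {f : C →ₗ[S O] C}
    (hf : EPq P f) : EPq P (D2.map (t := true) (i := i) (PX.map (m := i + 1) f)) := by
  have hzip : ∀ g : PX O (i + 1) C, D2.map (t := true) (i := i) (PX.map (m := i + 1) f)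
      (zip O true i g) = zip O true i (PX.map (m := i + 1) f g) := fun g => (zip_nat true i _ _).symm
  have hq : ∀ g : PX O (i + 1) C, qf P (D2.map (t := true) (i := i) (PX.map (m := i + 1) f))
      (zip O true i g) = zip O true i (PX.map (m := i + 1) (qf P f) g) := by
    intro g
    have e : PX.map (m := i + 1) (qf P f) g = PX.map (m := i + 1) f (PX.map (m := i + 1) f g) +
        (MvPolynomial.C P.ka : S O) • PX.map (m := i + 1) f g +
        (MvPolynomial.C P.ta : S O) • g := by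
      apply PX.ext'; intro n
      simp only [qf_apply, PX.co_add, PX.co_C_smul, PX.co_map]
    rw [e, qf_apply, hzip, hzip, map_add, map_add, map_smul, map_smul]
  constructor
  · intro z hzz hN
    obtain ⟨hb, hzb⟩ := (top_HH z).1 hzz
    rw [hzb, hzip, top_NN hz (map_mem_HH _ hb), ra_map, rb_map] at hN
    obtain ⟨u0, h0, k0⟩ := hf.1 _ (ra_mem_HH P hz.eq hb) hN.1
    obtain ⟨u1, h1, k1⟩ := hf.1 _ (rb_mem_HH P hz.eq hb) hN.2
    refine ⟨zip O true i (duo (i + 1) u0 u1), top_HH_zip (duo_mem_HH h0 h1), ?_⟩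
    rw [hzb, hq, ← map_add, top_NN hz (add_mem hb (map_mem_HH _ (duo_mem_HH h0 h1))), map_add,
      map_add, ra_map, rb_map, ra_duo, rb_duo]
    exact ⟨k0, k1⟩
  · intro z hzz hN
    obtain ⟨hb, hzb⟩ := (top_HH z).1 hzz
    rw [hzb, hq, top_NN hz (map_mem_HH _ hb), ra_map, rb_map] at hN
    obtain ⟨u0, h0, k0⟩ := hf.2 _ (ra_mem_HH P hz.eq hb) hN.1
    obtain ⟨u1, h1, k1⟩ := hf.2 _ (rb_mem_HH P hz.eq hb) hN.2
    refine ⟨zip O true i (duo (i + 1) u0 u1), top_HH_zip (duo_mem_HH h0 h1), ?_⟩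
    rw [hzb, hzip, ← map_add, top_NN hz (add_mem hb (map_mem_HH _ (duo_mem_HH h0 h1))), map_add,
      map_add, ra_map, rb_map, ra_duo, rb_duo]
    exact ⟨k0, k1⟩

/-- any operator which acts on Hochschild elements `zip f` as `zip (X f)` -/
theorem EPq_top_X [IsDomain O] {P : Pot O} (hz : NoVar O (i + 1) C)
    (hf : EPq P ((yv O i) • (LinearMap.id : C →ₗ[S O] C)))
    (g : D2 true i (PX O (i + 1) C) →ₗ[S O] D2 true i (PX O (i + 1) C))
    (hg : ∀ f : PX O (i + 1) C, g (zip O true i f) =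
      zip O true i ((X (Sum.inr (i + 1)) : S O) • f)) : EPq P g := by
  have hXH : ∀ {f : PX O (i + 1) C}, f ∈ HH O (PX O (i + 1) C) →
      (X (Sum.inr (i + 1)) : S O) • f ∈ HH O (PX O (i + 1) C) :=
    fun h => Submodule.smul_mem _ _ h
  -- `q(X)` on remainders
  have hq : ∀ f : PX O (i + 1) C, ∃ f' : PX O (i + 1) C,
      (f ∈ HH O (PX O (i + 1) C) → f' ∈ HH O (PX O (i + 1) C)) ∧
      qf P g (zip O true i f) = zip O true i f' ∧
      ra P i f' = (yv O i ^ 2 + MvPolynomial.C P.ka * yv O i) • ra P i f +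
        ((yv O i ^ 2 + MvPolynomial.C P.ka * yv O i + MvPolynomial.C P.ta) * yv O i) • rb P i f ∧
      rb P i f' = yv O i • ra P i f +
        (yv O i * (yv O i + MvPolynomial.C P.ka) +
          (yv O i ^ 2 + MvPolynomial.C P.ka * yv O i)) • rb P i f := by
    intro f
    refine ⟨(X (Sum.inr (i + 1)) : S O) • (X (Sum.inr (i + 1)) : S O) • f +
      (MvPolynomial.C P.ka : S O) • (X (Sum.inr (i + 1)) : S O) • f +
      (MvPolynomial.C P.ta : S O) • f, ?_, ?_, ?_, ?_⟩
    · intro hf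
      exact add_mem (add_mem (hXH (hXH hf)) (Submodule.smul_mem _ _ (hXH hf)))
        (Submodule.smul_mem _ _ hf)
    · rw [qf_apply, hg, hg, ← map_smul, ← map_smul, ← map_add, ← map_add]
    · rw [map_add, map_add, ra_C_smul, ra_C_smul, ra_X P _ (Or.inr rfl), ra_X P _ (Or.inr rfl),
        rb_X P _ (Or.inr rfl)]
      (match_scalars <;> (rw [← sub_eq_zero]; ring_nf <;>
            simp only [two0, three1, four0, five1, six0, seven1, eight0, mul_zero, zero_mul,
            add_zero, zero_add, neg_zero, sub_zero, sub_self, mul_one]))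
    · rw [map_add, map_add, rb_C_smul, rb_C_smul, rb_X P _ (Or.inr rfl), ra_X P _ (Or.inr rfl),
        rb_X P _ (Or.inr rfl)]
      (match_scalars <;> (rw [← sub_eq_zero]; ring_nf <;>
            simp only [two0, three1, four0, five1, six0, seven1, eight0, mul_zero, zero_mul,
            add_zero, zero_add, neg_zero, sub_zero, sub_self, mul_one]))
  -- `p(y)` kills everything modulo negligible elements
  have hp : ∀ v : C, ((yv O i ^ 2 + MvPolynomial.C P.ka * yv O i + MvPolynomial.C P.ta) * yv O i) • v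
      ∈ NN P C := by
    intro v
    apply smul_mem_NN
    intro c hc
    simp only [map_add, map_mul, map_pow, ev_C, ev_inr]
    have := root_p P (hc i)
    have h2 := two0 O
    linear_combination this + (P.ka * c i ^ 2 + P.ta * c i) * h2
  constructor
  · intro z hzz hN
    obtain ⟨b0, hb, hzb⟩ : ∃ b0, b0 ∈ HH O (PX O (i + 1) C) ∧ z = zip O true i b0 :=
      ⟨z.b, (top_HH z).1 hzz⟩
    rw [hzb, hg, top_NN hz (hXH hb), ra_X P _ (Or.inr rfl), rb_X P _ (Or.inr rfl)] at hN
    obtain ⟨n1, n2⟩ := hN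
    -- b = y b'
    obtain ⟨b', hb', k⟩ := hf.2 _ (rb_mem_HH P hz.eq hb) (by
      have : qf P (yv O i • (LinearMap.id : C →ₗ[S O] C)) (rb P i b0) =
          (yv O i ^ 2 + MvPolynomial.C P.ka * yv O i + MvPolynomial.C P.ta) • rb P i b0 := by
        rw [qf_apply]; simp only [LinearMap.smul_apply, LinearMap.id_apply]; module
      rw [this]; exact n1)
    simp only [LinearMap.smul_apply, LinearMap.id_apply] at k
    obtain ⟨f', hf', q1, q2, q3⟩ := hq (duo (i + 1) b' 0)
    refine ⟨zip O true i (duo (i + 1) b' 0), top_HH_zip (duo_mem_HH hb' (zero_mem _)), ?_⟩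
    rw [hzb, q1, ← map_add, top_NN hz (add_mem hb (hf' (duo_mem_HH hb' (zero_mem _)))), map_add,
      map_add, q2, q3, ra_duo, rb_duo, smul_zero, smul_zero, add_zero, add_zero]
    refine ⟨?_, k⟩
    -- a ≡ (y+κ) b ≡ (y+κ) y b'
    have h1 : (yv O i + MvPolynomial.C P.ka) • rb P i b0 +
        (yv O i ^ 2 + MvPolynomial.C P.ka * yv O i) • b' ∈ NN P C := by
      have : (yv O i + MvPolynomial.C P.ka) • rb P i b0 +
          (yv O i ^ 2 + MvPolynomial.C P.ka * yv O i) • b' =
          (yv O i + MvPolynomial.C P.ka) • (rb P i b0 + yv O i • b') := by module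
      rw [this]; exact Submodule.smul_mem _ _ k
    exact add_trans n2 h1
  · intro z hzz hN
    obtain ⟨b0, hb, hzb⟩ : ∃ b0, b0 ∈ HH O (PX O (i + 1) C) ∧ z = zip O true i b0 :=
      ⟨z.b, (top_HH z).1 hzz⟩
    obtain ⟨f', hf', q1, q2, q3⟩ := hq b0
    rw [hzb, q1, top_NN hz (hf' hb), q2, q3] at hN
    obtain ⟨n1, n2⟩ := hN
    have n1' : (yv O i ^ 2 + MvPolynomial.C P.ka * yv O i) • ra P i b0 ∈ NN P C :=
      mem_of_add n1 (hp _)
    have n2' : yv O i • ra P i b0 ∈ NN P C := by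
      refine mem_of_add n2 ?_
      have : (yv O i * (yv O i + MvPolynomial.C P.ka) +
          (yv O i ^ 2 + MvPolynomial.C P.ka * yv O i)) • rb P i b0 = 0 := by
        have e : (yv O i * (yv O i + MvPolynomial.C P.ka) +
          (yv O i ^ 2 + MvPolynomial.C P.ka * yv O i) : S O) = 0 := by
          linear_combination (yv O i ^ 2 + MvPolynomial.C P.ka * yv O i) * two0 (S O)
        rw [e, zero_smul]
      rw [this]; exact zero_mem _
    obtain ⟨a', ha', k⟩ := hf.1 _ (ra_mem_HH P hz.eq hb) (by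
      simpa only [LinearMap.smul_apply, LinearMap.id_apply] using n2')
    have k' : ra P i b0 + (yv O i ^ 2 + MvPolynomial.C P.ka * yv O i + MvPolynomial.C P.ta) • a' ∈
        NN P C := by
      have : qf P (yv O i • (LinearMap.id : C →ₗ[S O] C)) a' =
          (yv O i ^ 2 + MvPolynomial.C P.ka * yv O i + MvPolynomial.C P.ta) • a' := by
        rw [qf_apply]; simp only [LinearMap.smul_apply, LinearMap.id_apply]; module
      rwa [this] at k
    have hu : duo (i + 1) (rb P i b0 + (yv O i + MvPolynomial.C P.ka) • a') a' ∈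
        HH O (PX O (i + 1) C) :=
      duo_mem_HH (add_mem (rb_mem_HH P hz.eq hb) (Submodule.smul_mem _ _ ha')) ha'
    refine ⟨zip O true i (duo (i + 1) (rb P i b0 + (yv O i + MvPolynomial.C P.ka) • a') a'),
      top_HH_zip hu, ?_⟩
    rw [hzb, hg, ← map_add, top_NN hz (add_mem hb (hXH hu)), map_add, map_add,
      ra_X P _ (Or.inr rfl), rb_X P _ (Or.inr rfl), ra_duo, rb_duo]
    refine ⟨k', ?_⟩
    have : rb P i b0 + (rb P i b0 + (yv O i + MvPolynomial.C P.ka) • a' +
        (yv O i + MvPolynomial.C P.ka) • a') = 0 := by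
      rw [add_assoc (rb P i b0), add_self_mod (O := O), add_zero, add_self_mod (O := O)]
    rw [this]; exact zero_mem _

/-- the new right variable -/
theorem EPq_top_y [IsDomain O] {P : Pot O} (hz : NoVar O (i + 1) C)
    (hf : EPq P ((yv O i) • (LinearMap.id : C →ₗ[S O] C))) :
    EPq P (yv O (i + 1) • (LinearMap.id : D2 true i (PX O (i + 1) C) →ₗ[S O] _)) :=
  EPq_top_X hz hf _ (fun f => by
    rw [LinearMap.smul_apply, LinearMap.id_apply, map_smul])

/-- the new variable at the middle level -/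
theorem EPq_top_mid [IsDomain O] {P : Pot O} (hz : NoVar O (i + 1) C)
    (hf : EPq P ((yv O i) • (LinearMap.id : C →ₗ[S O] C))) :
    EPq P (D2.map (t := true) (i := i)
      (yv O (i + 1) • (LinearMap.id : PX O (i + 1) C →ₗ[S O] _))) :=
  EPq_top_X hz hf _ (fun f => by
    rw [← zip_nat, LinearMap.smul_apply, LinearMap.id_apply])

theorem FGf_top [IsDomain O] {P : Pot O} (hz : NoVar O (i + 1) C) (h : FGf P C) :
    FGf P (D2 true i (PX O (i + 1) C)) := by
  obtain ⟨n, g, hg, hG⟩ := h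
  let G : Fin 2 × Fin n → D2 true i (PX O (i + 1) C) := fun k =>
    zip O true i (PX.mono k.1.val (g k.2))
  let e : Fin (2 * n) ≃ Fin 2 × Fin n := finProdFinEquiv.symm
  refine ⟨2 * n, fun k => G (e k), fun k => top_HH_zip (PX.mono_mem_HH (hg _) _), ?_⟩
  intro z hzz
  obtain ⟨b0, hb, hzb⟩ : ∃ b0, b0 ∈ HH O (PX O (i + 1) C) ∧ z = zip O true i b0 :=
    ⟨z.b, (top_HH z).1 hzz⟩
  obtain ⟨o0, k0⟩ := hG _ (ra_mem_HH P hz.eq hb)
  obtain ⟨o1, k1⟩ := hG _ (rb_mem_HH P hz.eq hb)
  let oo : Fin 2 × Fin n → O := fun k => ![o0 k.2, o1 k.2] k.1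
  refine ⟨fun k => oo (e k), ?_⟩
  have hs : ∑ k, (MvPolynomial.C (oo (e k)) : S O) • G (e k) =
      ∑ k : Fin 2 × Fin n, (MvPolynomial.C (oo k) : S O) • G k :=
    Equiv.sum_comp e (fun k => (MvPolynomial.C (oo k) : S O) • G k)
  have hw0 : ∑ j, (MvPolynomial.C (o0 j) : S O) • g j ∈ HH O C :=
    Submodule.sum_mem _ (fun j _ => Submodule.smul_mem _ _ (hg j))
  have hw1 : ∑ j, (MvPolynomial.C (o1 j) : S O) • g j ∈ HH O C :=
    Submodule.sum_mem _ (fun j _ => Submodule.smul_mem _ _ (hg j))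
  have hsum : ∑ k : Fin 2 × Fin n, (MvPolynomial.C (oo k) : S O) • G k =
      zip O true i (duo (i + 1) (∑ j, (MvPolynomial.C (o0 j) : S O) • g j)
        (∑ j, (MvPolynomial.C (o1 j) : S O) • g j)) := by
    rw [Fintype.sum_prod_type, Fin.sum_univ_two]
    unfold duo
    rw [map_add]
    have m0 : ∀ (k : ℕ) (o : Fin n → O), zip O true i (PX.mono k
        (∑ j, (MvPolynomial.C (o j) : S O) • g j) : PX O (i + 1) C) =
        ∑ j, (MvPolynomial.C (o j) : S O) • zip O true i (PX.mono k (g j) : PX O (i + 1) C) := by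
      intro k o
      have : (PX.mono (m := i + 1) k (∑ j, (MvPolynomial.C (o j) : S O) • g j) : PX O (i + 1) C) =
          ∑ j, (MvPolynomial.C (o j) : S O) • (PX.mono (m := i + 1) k (g j) : PX O (i + 1) C) := by
        have hadd : ∀ s : Finset (Fin n), (PX.mono (m := i + 1) k
            (∑ j ∈ s, (MvPolynomial.C (o j) : S O) • g j) : PX O (i + 1) C) =
            ∑ j ∈ s, (MvPolynomial.C (o j) : S O) • (PX.mono (m := i + 1) k (g j) : PX O (i + 1) C) := by
          intro s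
          induction s using Finset.induction_on with
          | empty => simp [PX.mono_zero]
          | insert a s ha ih =>
            rw [Finset.sum_insert ha, Finset.sum_insert ha, PX.mono_add, ih, PX.C_smul_mono]
        exact hadd Finset.univ
      rw [this, map_sum]
      simp only [map_smul]
    rw [m0, m0]; rfl
  rw [hs, hsum, hzb, ← map_add, top_NN hz (add_mem hb (duo_mem_HH hw0 hw1)), map_add, map_add,
    ra_duo, rb_duo]
  exact ⟨k0, k1⟩

end top

/-! ## The outputs, in terms of `EP` and `FG` -/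

section outputs
variable {C : Type} [AddCommGroup C] [Module (S O) C]

theorem EP_iff {P : Pot O} {f : C →ₗ[S O] C} : EP P C f ↔ EPq P f := Iff.rfl

theorem FG_iff {P : Pot O} : FG P C ↔ FGf P C :=
  ⟨fun h => h.exists_fun, fun ⟨_, g, hg, h⟩ => FG.of_fun g hg h⟩

theorem EP_PX_map [IsDomain O] {P : Pot O} {m : ℕ} (hz : NoVar O m C) {f : C →ₗ[S O] C}
    (hf : EP P C f) : EP P (PX O m C) (PX.map (m := m) f) := EPq_PX_map hz hf

theorem EP_PX_X [IsDomain O] {P : Pot O} {m : ℕ} (hz : NoVar O m C) (s : ℕ ⊕ ℕ)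
    (h : s = Sum.inl m ∨ s = Sum.inr m) :
    EP P (PX O m C) ((X s : S O) • (LinearMap.id : PX O m C →ₗ[S O] PX O m C)) :=
  EPq_PX_X hz s h

theorem FG_PX {P : Pot O} {m : ℕ} (hz : NoVar O m C) (h : FG P C) : FG P (PX O m C) :=
  FG_iff.2 (FGf_PX hz (FG_iff.1 h))

theorem EP_top_map [IsDomain O] {P : Pot O} {i : ℕ} (hz : NoVar O (i + 1) C) {f : C →ₗ[S O] C}
    (hf : EP P C f) : EP P (D2 true i (PX O (i + 1) C))
      (D2.map (t := true) (i := i) (PX.map (m := i + 1) f)) := EPq_top_map hz hf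

theorem EP_top_X [IsDomain O] {P : Pot O} {i : ℕ} (hz : NoVar O (i + 1) C)
    (hf : EP P C ((yv O i) • (LinearMap.id : C →ₗ[S O] C)))
    (g : D2 true i (PX O (i + 1) C) →ₗ[S O] D2 true i (PX O (i + 1) C))
    (hg : ∀ f : PX O (i + 1) C, g (zip O true i f) =
      zip O true i ((X (Sum.inr (i + 1)) : S O) • f)) : EP P (D2 true i (PX O (i + 1) C)) g :=
  EPq_top_X hz hf g hg

theorem EP_top_y [IsDomain O] {P : Pot O} {i : ℕ} (hz : NoVar O (i + 1) C)
    (hf : EP P C ((yv O i) • (LinearMap.id : C →ₗ[S O] C))) :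
    EP P (D2 true i (PX O (i + 1) C))
      (yv O (i + 1) • (LinearMap.id : D2 true i (PX O (i + 1) C) →ₗ[S O] _)) :=
  EPq_top_y hz hf

theorem EP_top_mid [IsDomain O] {P : Pot O} {i : ℕ} (hz : NoVar O (i + 1) C)
    (hf : EP P C ((yv O i) • (LinearMap.id : C →ₗ[S O] C))) :
    EP P (D2 true i (PX O (i + 1) C)) (D2.map (t := true) (i := i)
      (yv O (i + 1) • (LinearMap.id : PX O (i + 1) C →ₗ[S O] _))) :=
  EPq_top_mid hz hf

theorem FG_top [IsDomain O] {P : Pot O} {i : ℕ} (hz : NoVar O (i + 1) C) (h : FG P C) :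
    FG P (D2 true i (PX O (i + 1) C)) :=
  FG_iff.2 (FGf_top hz (FG_iff.1 h))

end outputs

end Mk
end CQ
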