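import Pool.Agent.CQ.Basic

/-!
# Block C: the moves R2, far commutation and R3 (positive) as natural chain maps

All maps are explicit `S`-linear chain maps which preserve the augmentation on Hochschild elements,
for every differential module.
-/

set_option autoImplicit false
set_option linter.unusedSectionVars false
set_option linter.unusedSimpArgs false
set_option linter.unreachableTactic false
set_option linter.unusedTactic false
set_option linter.unnecessarySeqFocus false

namespace CQ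

open MvPolynomial

variable {O : Type} [CommRing O] [CharP O 2]

namespace Mv

/-- an `S`-linear chain map that preserves the augmentation on Hochschild elements gives an
inequality of value ideals in every context -/
theorem Idl_ctx {P : Pot O} {C D : DM O} (f : C.V →ₗ[S O] D.V) (hf : ∀ z, D.d (f z) = f (C.d z))
    (he : ∀ z ∈ HH O C.V, D.ep (f z) = C.ep z) (w : List (ℕ × Bool)) (k : ℕ) :
    Idl P (Fw w C) k ≤ Idl P (Fw w D) k := (TChain.of_comm hf).Idl_Fw_le he w k

/-! ## R2 -/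

section R2
variable (t : Bool) (i : ℕ)

theorem unzip_split {C : Type} [AddCommGroup C] [Module (S O) C] (z : D2 t i C) :
    unzip O t i (split O t i z) = z := by
  rw [unzip_apply]
  ext <;> simp [D2.X_smul_i_a, D2.X_smul_i_b]

theorem map_unzip_split {C : Type} [AddCommGroup C] [Module (S O) C] (z : D2 t i C) :
    D2.map (unzip O t i) (split O t i z) = z := by
  ext <;> simp [unzip_apply]

theorem dig_zip {C : Type} [AddCommGroup C] [Module (S O) C] (z : D2 t i C) :
    dig O t i (zip O t i z) = z := by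
  ext <;> simp [D2.X_smul_succ_b]

theorem dig_map_zip {C : Type} [AddCommGroup C] [Module (S O) C] (z : D2 t i C) :
    dig O t i (D2.map (zip O t i) z) = z := by
  ext <;> simp

theorem split_nat {C D : Type} [AddCommGroup C] [Module (S O) C] [AddCommGroup D] [Module (S O) D]
    (f : C →ₗ[S O] D) (z : D2 t i C) :
    split O t i (D2.map f z) = D2.map (D2.map f) (split O t i z) := by
  ext <;> simp

theorem dig_nat {C D : Type} [AddCommGroup C] [Module (S O) C] [AddCommGroup D] [Module (S O) D]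
    (f : C →ₗ[S O] D) (z : D2 t i (D2 t i C)) :
    dig O t i (D2.map (D2.map f) z) = D2.map f (dig O t i z) := by
  ext <;> simp

/-- the insertion map of R2 -/
noncomputable def r2f (C : Type) [AddCommGroup C] [Module (S O) C] :
    C →ₗ[S O] ((C × D2 t i C) × D2 t i (C × D2 t i C)) :=
  LinearMap.prod (LinearMap.inl (S O) C (D2 t i C))
    (D2.map (LinearMap.inr (S O) C (D2 t i C)) ∘ₗ split O t i ∘ₗ zip O t i)

/-- the deletion map of R2 -/
noncomputable def r2g (C : Type) [AddCommGroup C] [Module (S O) C] :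
    ((C × D2 t i C) × D2 t i (C × D2 t i C)) →ₗ[S O] C :=
  LinearMap.fst (S O) C (D2 t i C) ∘ₗ LinearMap.fst (S O) _ _ +
    unzip O t i ∘ₗ dig O t i ∘ₗ D2.map (LinearMap.snd (S O) C (D2 t i C)) ∘ₗ
      LinearMap.snd (S O) (C × D2 t i C) _

theorem r2f_apply {C : Type} [AddCommGroup C] [Module (S O) C] (y : C) :
    r2f (O := O) t i C y =
      ((y, 0), D2.map (LinearMap.inr (S O) C (D2 t i C)) (split O t i (zip O t i y))) := rfl

theorem r2g_apply {C : Type} [AddCommGroup C] [Module (S O) C]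
    (z : (C × D2 t i C) × D2 t i (C × D2 t i C)) :
    r2g (O := O) t i C z = z.1.1 +
      unzip O t i (dig O t i (D2.map (LinearMap.snd (S O) C (D2 t i C)) z.2)) := rfl

theorem r2f_comm (p : Bool) {C : Type} [AddCommGroup C] [Module (S O) C] (d : C →ₗ[S O] C)
    (y : C) : dF t i (!p) (dF t i p d) (r2f (O := O) t i C y) = r2f (O := O) t i C (d y) := by
  rw [r2f_apply, r2f_apply]
  cases p
  · refine Prod.ext ?_ ?_
    · change dF t i false d (y, 0) = (d y, 0)
      simp [dF_neg]
    · change zip O t i ((y, 0) : C × D2 t i C) + D2.map (dF t i false d)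
        (D2.map (LinearMap.inr (S O) C (D2 t i C)) (split O t i (zip O t i y))) =
          D2.map (LinearMap.inr (S O) C (D2 t i C)) (split O t i (zip O t i (d y)))
      have h1 := add_self_mod (O := O) ((X (inj t (i + 1)) : S O) • y)
      have h2 := add_self_mod (O := O) y
      ext <;> simp [dF_neg, unzip_apply, h1, h2]
  · refine Prod.ext ?_ ?_
    · change dF t i true d (y, 0) + unzip O t i (D2.map (LinearMap.inr (S O) C (D2 t i C))
          (split O t i (zip O t i y))) = (d y, 0)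
      rw [unzip_nat, unzip_split]
      refine Prod.ext ?_ ?_
      · simp [dF_pos]
      · simp only [dF_pos, map_zero, add_zero, LinearMap.inr_apply, Prod.snd_add]
        exact add_self_mod (O := O) _
    · change D2.map (dF t i true d)
        (D2.map (LinearMap.inr (S O) C (D2 t i C)) (split O t i (zip O t i y))) =
          D2.map (LinearMap.inr (S O) C (D2 t i C)) (split O t i (zip O t i (d y)))
      ext <;> simp [dF_pos]

theorem r2g_comm (p : Bool) {C : Type} [AddCommGroup C] [Module (S O) C] (d : C →ₗ[S O] C)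
    (z : (C × D2 t i C) × D2 t i (C × D2 t i C)) :
    d (r2g (O := O) t i C z) = r2g (O := O) t i C (dF t i (!p) (dF t i p d) z) := by
  rw [r2g_apply, r2g_apply]
  cases p
  · have e1 : (dF t i (!false) (dF t i false d) z).1.1 = d z.1.1 + unzip O t i z.1.2 := rfl
    have e2 : D2.map (LinearMap.snd (S O) C (D2 t i C)) (dF t i (!false) (dF t i false d) z).2 =
        zip O t i z.1.2 + D2.map (D2.map d) (D2.map (LinearMap.snd (S O) C (D2 t i C)) z.2) := by
      change D2.map (LinearMap.snd (S O) C (D2 t i C)) (zip O t i z.1 +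
        D2.map (dF t i false d) z.2) = _
      rw [map_add, ← zip_nat]
      rfl
    rw [e1, e2, map_add, map_add, map_add, dig_zip, dig_nat, unzip_nat]
    have := add_self_mod (O := O) (unzip O t i z.1.2)
    have h : d z.1.1 + unzip O t i z.1.2 + (unzip O t i z.1.2 +
      d (unzip O t i (dig O t i (D2.map (LinearMap.snd (S O) C (D2 t i C)) z.2)))) =
      d z.1.1 + (unzip O t i z.1.2 + unzip O t i z.1.2) +
      d (unzip O t i (dig O t i (D2.map (LinearMap.snd (S O) C (D2 t i C)) z.2))) := by abel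
    rw [h, this, add_zero]
  · have e1 : (dF t i (!true) (dF t i true d) z).1.1 = d z.1.1 +
        unzip O t i (D2.map (LinearMap.fst (S O) C (D2 t i C)) z.2) := rfl
    have e2 : D2.map (LinearMap.snd (S O) C (D2 t i C)) (dF t i (!true) (dF t i true d) z).2 =
        D2.map (zip O t i) (D2.map (LinearMap.fst (S O) C (D2 t i C)) z.2) +
          D2.map (D2.map d) (D2.map (LinearMap.snd (S O) C (D2 t i C)) z.2) := by
      change D2.map (LinearMap.snd (S O) C (D2 t i C)) (D2.map (dF t i true d) z.2) = _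
      rfl
    rw [e1, e2, map_add, map_add, map_add, dig_map_zip, dig_nat, unzip_nat t i d]
    have := add_self_mod (O := O) (unzip O t i (D2.map (LinearMap.fst (S O) C (D2 t i C)) z.2))
    have h : d z.1.1 + unzip O t i (D2.map (LinearMap.fst (S O) C (D2 t i C)) z.2) +
      (unzip O t i (D2.map (LinearMap.fst (S O) C (D2 t i C)) z.2) +
      d (unzip O t i (dig O t i (D2.map (LinearMap.snd (S O) C (D2 t i C)) z.2)))) =
      d z.1.1 + (unzip O t i (D2.map (LinearMap.fst (S O) C (D2 t i C)) z.2) +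
        unzip O t i (D2.map (LinearMap.fst (S O) C (D2 t i C)) z.2)) +
      d (unzip O t i (dig O t i (D2.map (LinearMap.snd (S O) C (D2 t i C)) z.2))) := by abel
    rw [h, this, add_zero]

/-- R2, insertion -/
theorem r2_le {P : Pot O} (p : Bool) (C : DM O) (w : List (ℕ × Bool)) (k : ℕ) :
    Idl P (Fw w C) k ≤ Idl P (Fw w (F2 t i (!p) (F2 t i p C))) k :=
  Idl_ctx (C := C) (D := F2 t i (!p) (F2 t i p C)) (r2f (O := O) t i C.V)
    (fun y => r2f_comm t i p C.d y) (fun _ _ => rfl) w k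

/-- R2, deletion -/
theorem le_r2 {P : Pot O} (p : Bool) (C : DM O) (w : List (ℕ × Bool)) (k : ℕ) :
    Idl P (Fw w (F2 t i (!p) (F2 t i p C))) k ≤ Idl P (Fw w C) k :=
  Idl_ctx (C := F2 t i (!p) (F2 t i p C)) (D := C) (r2g (O := O) t i C.V)
    (fun z => (r2g_comm t i p C.d z)) (fun z hz => by
      change C.ep (r2g (O := O) t i C.V z) = C.ep z.1.1
      rw [r2g_apply, map_add, ep_unzip, add_zero]
      exact map_mem_HH (dig O t i) (map_mem_HH (D2.map (LinearMap.snd (S O) C.V (D2 t i C.V)))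
        (mem_HH_prod.1 hz).2)) w k

end R2

/-- the letters `(t, i)` and `(t', j)` use different variables -/
structure FarL (t : Bool) (i : ℕ) (t' : Bool) (j : ℕ) : Prop where
  h00 : inj t i ≠ inj t' j
  h01 : inj t i ≠ inj t' (j + 1)
  h10 : inj t (i + 1) ≠ inj t' j
  h11 : inj t (i + 1) ≠ inj t' (j + 1)

theorem FarL.symm {t : Bool} {i : ℕ} {t' : Bool} {j : ℕ} (h : FarL t i t' j) : FarL t' j t i :=
  ⟨h.h00.symm, h.h10.symm, h.h01.symm, h.h11.symm⟩

theorem FarL.of_lt (t : Bool) {i j : ℕ} (h : i + 2 ≤ j) : FarL t i t j := by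
  refine ⟨?_, ?_, ?_, ?_⟩ <;> (intro hh; have := inj_injective t hh; omega)

theorem FarL.of_gt (t : Bool) {i j : ℕ} (h : j + 2 ≤ i) : FarL t i t j := (FarL.of_lt t h).symm

theorem FarL.left_right (i j : ℕ) : FarL false i true j := by
  refine ⟨?_, ?_, ?_, ?_⟩ <;> simp

theorem FarL.right_left (i j : ℕ) : FarL true i false j := (FarL.left_right j i).symm

section
variable {t : Bool} {i : ℕ} {t' : Bool} {j : ℕ} {C : Type} [AddCommGroup C] [Module (S O) C]

theorem dF_pos_1 (d : C →ₗ[S O] C) (z : C × D2 t i C) : (dF t i true d z).1 = d z.1 := rfl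

theorem dF_pos_2 (d : C →ₗ[S O] C) (z : C × D2 t i C) :
    (dF t i true d z).2 = zip O t i z.1 + D2.map d z.2 := rfl

theorem dF_neg_1 (d : C →ₗ[S O] C) (z : C × D2 t i C) :
    (dF t i false d z).1 = d z.1 + unzip O t i z.2 := rfl

theorem dF_neg_2 (d : C →ₗ[S O] C) (z : C × D2 t i C) :
    (dF t i false d z).2 = D2.map d z.2 := rfl

theorem e1_smul_far_a (h : FarL t i t' j) (z : D2 t' j C) :
    (e1 O t i • z).a = e1 O t i • z.a := by
  rw [e1_def, add_smul, add_smul, D2.add_a, D2.X_smul_a_of_ne _ h.h00 h.h01,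
    D2.X_smul_a_of_ne _ h.h10 h.h11]

theorem e1_smul_far_b (h : FarL t i t' j) (z : D2 t' j C) :
    (e1 O t i • z).b = e1 O t i • z.b := by
  rw [e1_def, add_smul, add_smul, D2.add_b, D2.X_smul_b_of_ne _ h.h00 h.h01,
    D2.X_smul_b_of_ne _ h.h10 h.h11]

theorem e2_smul_far_a (h : FarL t i t' j) (z : D2 t' j C) :
    (e2 O t i • z).a = e2 O t i • z.a := by
  rw [e2_def, mul_smul, mul_smul, D2.X_smul_a_of_ne _ h.h00 h.h01,
    D2.X_smul_a_of_ne _ h.h10 h.h11]

theorem e2_smul_far_b (h : FarL t i t' j) (z : D2 t' j C) :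
    (e2 O t i • z).b = e2 O t i • z.b := by
  rw [e2_def, mul_smul, mul_smul, D2.X_smul_b_of_ne _ h.h00 h.h01,
    D2.X_smul_b_of_ne _ h.h10 h.h11]

/-- exchange of two far letter bimodules -/
noncomputable def swapD (h : FarL t i t' j) (C : Type) [AddCommGroup C] [Module (S O) C] :
    D2 t i (D2 t' j C) →ₗ[S O] D2 t' j (D2 t i C) :=
  D2.mk2
    { toFun := fun z => ⟨⟨z.a.a, z.b.a⟩, ⟨z.a.b, z.b.b⟩⟩
      map_zero' := by ext <;> simp
      map_add' := fun z w => by ext <;> simp }
    (fun o z => by ext <;> simp)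
    (fun s z hs hs' => by
      by_cases h1 : s = inj t' j
      · subst h1
        ext <;> simp [D2.X_smul_a_of_ne _ hs hs', D2.X_smul_b_of_ne _ hs hs', D2.X_smul_i_a,
          D2.X_smul_i_b, e1_smul_far_a h.symm, e1_smul_far_b h.symm, e2_smul_far_a h.symm,
          e2_smul_far_b h.symm]
      · by_cases h2 : s = inj t' (j + 1)
        · subst h2
          ext <;> simp [D2.X_smul_a_of_ne _ hs hs', D2.X_smul_b_of_ne _ hs hs', D2.X_smul_succ_a,
            D2.X_smul_succ_b, e1_smul_far_a h.symm, e1_smul_far_b h.symm, e2_smul_far_a h.symm,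
            e2_smul_far_b h.symm]
        · ext <;> simp [D2.X_smul_a_of_ne _ hs hs', D2.X_smul_b_of_ne _ hs hs',
            D2.X_smul_a_of_ne _ h1 h2, D2.X_smul_b_of_ne _ h1 h2])
    (fun z => by
      ext <;> simp [D2.X_smul_a_of_ne _ h.h00 h.h01, D2.X_smul_b_of_ne _ h.h00 h.h01,
        D2.X_smul_i_a, D2.X_smul_i_b, e1_smul_far_a h, e1_smul_far_b h, e2_smul_far_a h,
        e2_smul_far_b h])
    (fun z => by
      ext <;> simp [D2.X_smul_a_of_ne _ h.h10 h.h11, D2.X_smul_b_of_ne _ h.h10 h.h11,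
        D2.X_smul_succ_a, D2.X_smul_succ_b, e1_smul_far_a h, e1_smul_far_b h, e2_smul_far_a h,
        e2_smul_far_b h])

theorem swapD_apply (h : FarL t i t' j) (z : D2 t i (D2 t' j C)) :
    swapD (O := O) h C z = ⟨⟨z.a.a, z.b.a⟩, ⟨z.a.b, z.b.b⟩⟩ := rfl

theorem swapD_swapD (h : FarL t i t' j) (z : D2 t i (D2 t' j C)) :
    swapD (O := O) h.symm C (swapD (O := O) h C z) = z := rfl

theorem swapD_nat (h : FarL t i t' j) {D : Type} [AddCommGroup D] [Module (S O) D]
    (f : C →ₗ[S O] D) (z : D2 t i (D2 t' j C)) :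
    swapD (O := O) h D (D2.map (D2.map f) z) = D2.map (D2.map f) (swapD (O := O) h C z) := rfl

theorem swapD_zip (h : FarL t i t' j) (z : D2 t' j C) :
    swapD (O := O) h C (zip O t i z) = D2.map (zip O t i) z := by
  rw [swapD_apply]
  ext <;> simp [D2.X_smul_a_of_ne _ h.h10 h.h11, D2.X_smul_b_of_ne _ h.h10 h.h11]

theorem swapD_map_zip (h : FarL t i t' j) (z : D2 t i C) :
    swapD (O := O) h C (D2.map (zip O t' j) z) = zip O t' j z := by
  rw [← swapD_zip h.symm z, swapD_swapD]

theorem map_unzip_swapD (h : FarL t i t' j) (z : D2 t i (D2 t' j C)) :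
    D2.map (unzip O t i) (swapD (O := O) h C z) = unzip O t i z := by
  rw [swapD_apply]
  ext <;> simp [unzip_apply, D2.X_smul_a_of_ne _ h.h00 h.h01, D2.X_smul_b_of_ne _ h.h00 h.h01]

theorem unzip_swapD (h : FarL t i t' j) (z : D2 t i (D2 t' j C)) :
    unzip O t' j (swapD (O := O) h C z) = D2.map (unzip O t' j) z := by
  rw [← map_unzip_swapD h.symm (swapD (O := O) h C z), swapD_swapD]

/-- the exchange map on crossing complexes -/
noncomputable def farf (h : FarL t i t' j) (C : Type) [AddCommGroup C] [Module (S O) C] :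
    ((C × D2 t' j C) × D2 t i (C × D2 t' j C)) →ₗ[S O]
      ((C × D2 t i C) × D2 t' j (C × D2 t i C)) :=
  LinearMap.prod
    (LinearMap.prod (LinearMap.fst (S O) C (D2 t' j C) ∘ₗ LinearMap.fst (S O) _ _)
      (D2.map (LinearMap.fst (S O) C (D2 t' j C)) ∘ₗ LinearMap.snd (S O) _ _))
    (D2.map (LinearMap.inl (S O) C (D2 t i C)) ∘ₗ LinearMap.snd (S O) C (D2 t' j C) ∘ₗ
        LinearMap.fst (S O) _ _ +
      D2.map (LinearMap.inr (S O) C (D2 t i C)) ∘ₗ swapD (O := O) h C ∘ₗ
        D2.map (LinearMap.snd (S O) C (D2 t' j C)) ∘ₗ LinearMap.snd (S O) _ _)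

theorem farf_apply (h : FarL t i t' j) (z : (C × D2 t' j C) × D2 t i (C × D2 t' j C)) :
    farf (O := O) h C z = ((z.1.1, ⟨z.2.a.1, z.2.b.1⟩), ⟨(z.1.2.a, ⟨z.2.a.2.a, z.2.b.2.a⟩),
      (z.1.2.b, ⟨z.2.a.2.b, z.2.b.2.b⟩)⟩) := by
  refine Prod.ext rfl ?_
  change D2.map (LinearMap.inl (S O) C (D2 t i C)) z.1.2 +
    D2.map (LinearMap.inr (S O) C (D2 t i C)) (swapD (O := O) h C
      (D2.map (LinearMap.snd (S O) C (D2 t' j C)) z.2)) = _
  rw [swapD_apply]
  ext <;> simp

theorem farf_comm (h : FarL t i t' j) (p q : Bool) (d : C →ₗ[S O] C)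
    (z : (C × D2 t' j C) × D2 t i (C × D2 t' j C)) :
    dF t' j q (dF t i p d) (farf (O := O) h C z) = farf (O := O) h C (dF t i p (dF t' j q d) z) := by
  rw [farf_apply, farf_apply]
  have h' := h.symm
  cases p <;> cases q
  · refine Prod.ext (Prod.ext ?_ ?_) ?_
    · simp [unzip_apply, dF_neg_1, dF_neg_2]; abel
    · ext <;> simp [unzip_apply, dF_neg_1, dF_neg_2, D2.X_smul_a_of_ne _ h'.h00 h'.h01,
        D2.X_smul_b_of_ne _ h'.h00 h'.h01]
    · ext <;> simp [unzip_apply, dF_neg_1, dF_neg_2, D2.X_smul_a_of_ne _ h.h00 h.h01,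
        D2.X_smul_b_of_ne _ h.h00 h.h01]
  · refine Prod.ext (Prod.ext ?_ ?_) ?_
    · simp [unzip_apply, dF_neg_1, dF_neg_2, dF_pos_1, dF_pos_2]
    · ext <;> simp [unzip_apply, dF_neg_1, dF_neg_2, dF_pos_1, dF_pos_2]
    · ext <;> simp [unzip_apply, dF_neg_1, dF_neg_2, dF_pos_1, dF_pos_2,
        D2.X_smul_a_of_ne _ h.h00 h.h01, D2.X_smul_b_of_ne _ h.h00 h.h01,
        D2.X_smul_a_of_ne _ h'.h10 h'.h11, D2.X_smul_b_of_ne _ h'.h10 h'.h11, add_assoc]
  · refine Prod.ext (Prod.ext ?_ ?_) ?_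
    · simp [unzip_apply, dF_neg_1, dF_neg_2, dF_pos_1, dF_pos_2]
    · ext <;> simp [unzip_apply, dF_neg_1, dF_neg_2, dF_pos_1, dF_pos_2,
        D2.X_smul_a_of_ne _ h'.h00 h'.h01, D2.X_smul_b_of_ne _ h'.h00 h'.h01, add_assoc]
    · ext <;> simp [unzip_apply, dF_neg_1, dF_neg_2, dF_pos_1, dF_pos_2,
        D2.X_smul_a_of_ne _ h.h10 h.h11, D2.X_smul_b_of_ne _ h.h10 h.h11, add_assoc]
  · refine Prod.ext (Prod.ext ?_ ?_) ?_
    · simp [unzip_apply, dF_neg_1, dF_neg_2, dF_pos_1, dF_pos_2]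
    · ext <;> simp [unzip_apply, dF_neg_1, dF_neg_2, dF_pos_1, dF_pos_2]
    · ext <;> simp [unzip_apply, dF_neg_1, dF_neg_2, dF_pos_1, dF_pos_2,
        D2.X_smul_a_of_ne _ h.h10 h.h11, D2.X_smul_b_of_ne _ h.h10 h.h11,
        D2.X_smul_a_of_ne _ h'.h10 h'.h11, D2.X_smul_b_of_ne _ h'.h10 h'.h11] <;> abel

/-- far commutation -/
theorem far_le {P : Pot O} (h : FarL t i t' j) (p q : Bool) (C : DM O) (w : List (ℕ × Bool))
    (k : ℕ) : Idl P (Fw w (F2 t i p (F2 t' j q C))) k ≤ Idl P (Fw w (F2 t' j q (F2 t i p C))) k :=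
  Idl_ctx (C := F2 t i p (F2 t' j q C)) (D := F2 t' j q (F2 t i p C)) (farf (O := O) h C.V)
    (fun z => farf_comm h p q C.d z) (fun _ _ => rfl) w k

end

namespace R3

section
variable (t : Bool) (i j k : ℕ) (C : Type) [AddCommGroup C] [Module (S O) C]

/-- the underlying module of three crossings -/
abbrev W3 : Type :=
  ((C × D2 t i C) × D2 t j (C × D2 t i C)) × D2 t k ((C × D2 t i C) × D2 t j (C × D2 t i C))

/-- assembling -/
noncomputable def mk {E : Type} [AddCommGroup E] [Module (S O) E]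
    (f000 : E →ₗ[S O] C) (f100 : E →ₗ[S O] D2 t i C) (f010 : E →ₗ[S O] D2 t j C)
    (f110 : E →ₗ[S O] D2 t j (D2 t i C)) (f001 : E →ₗ[S O] D2 t k C)
    (f101 : E →ₗ[S O] D2 t k (D2 t i C)) (f011 : E →ₗ[S O] D2 t k (D2 t j C))
    (f111 : E →ₗ[S O] D2 t k (D2 t j (D2 t i C))) : E →ₗ[S O] W3 t i j k C :=
  LinearMap.prod
    (LinearMap.prod (LinearMap.prod f000 f100)
      (D2.map (LinearMap.inl (S O) C (D2 t i C)) ∘ₗ f010 +
        D2.map (LinearMap.inr (S O) C (D2 t i C)) ∘ₗ f110))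
    (D2.map (LinearMap.inl (S O) (C × D2 t i C) (D2 t j (C × D2 t i C)) ∘ₗ
        LinearMap.inl (S O) C (D2 t i C)) ∘ₗ f001 +
      D2.map (LinearMap.inl (S O) (C × D2 t i C) (D2 t j (C × D2 t i C)) ∘ₗ
        LinearMap.inr (S O) C (D2 t i C)) ∘ₗ f101 +
      D2.map (LinearMap.inr (S O) (C × D2 t i C) (D2 t j (C × D2 t i C)) ∘ₗ
        D2.map (LinearMap.inl (S O) C (D2 t i C))) ∘ₗ f011 +
      D2.map (LinearMap.inr (S O) (C × D2 t i C) (D2 t j (C × D2 t i C)) ∘ₗ
        D2.map (LinearMap.inr (S O) C (D2 t i C))) ∘ₗ f111)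

/-- projections -/
noncomputable def p000 : W3 t i j k C →ₗ[S O] C :=
  LinearMap.fst (S O) _ _ ∘ₗ LinearMap.fst (S O) _ _ ∘ₗ LinearMap.fst (S O) _ _
noncomputable def p100 : W3 t i j k C →ₗ[S O] D2 t i C :=
  LinearMap.snd (S O) _ _ ∘ₗ LinearMap.fst (S O) _ _ ∘ₗ LinearMap.fst (S O) _ _
noncomputable def p010 : W3 t i j k C →ₗ[S O] D2 t j C :=
  D2.map (LinearMap.fst (S O) _ _) ∘ₗ LinearMap.snd (S O) _ _ ∘ₗ LinearMap.fst (S O) _ _
noncomputable def p110 : W3 t i j k C →ₗ[S O] D2 t j (D2 t i C) :=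
  D2.map (LinearMap.snd (S O) _ _) ∘ₗ LinearMap.snd (S O) _ _ ∘ₗ LinearMap.fst (S O) _ _
noncomputable def p001 : W3 t i j k C →ₗ[S O] D2 t k C :=
  D2.map (LinearMap.fst (S O) _ _ ∘ₗ LinearMap.fst (S O) _ _) ∘ₗ LinearMap.snd (S O) _ _
noncomputable def p101 : W3 t i j k C →ₗ[S O] D2 t k (D2 t i C) :=
  D2.map (LinearMap.snd (S O) _ _ ∘ₗ LinearMap.fst (S O) _ _) ∘ₗ LinearMap.snd (S O) _ _
noncomputable def p011 : W3 t i j k C →ₗ[S O] D2 t k (D2 t j C) :=
  D2.map (D2.map (LinearMap.fst (S O) _ _) ∘ₗ LinearMap.snd (S O) _ _) ∘ₗ LinearMap.snd (S O) _ _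
noncomputable def p111 : W3 t i j k C →ₗ[S O] D2 t k (D2 t j (D2 t i C)) :=
  D2.map (D2.map (LinearMap.snd (S O) _ _) ∘ₗ LinearMap.snd (S O) _ _) ∘ₗ LinearMap.snd (S O) _ _

/-- the differential of three positive crossings -/
noncomputable def dd3 (d : C →ₗ[S O] C) : W3 t i j k C →ₗ[S O] W3 t i j k C :=
  dF t k true (dF t j true (dF t i true d))
end

section
variable {t : Bool} {i j k : ℕ} {C : Type} [AddCommGroup C] [Module (S O) C]

theorem ext3 {z w : W3 t i j k C} (h000 : p000 (O := O) t i j k C z = p000 (O := O) t i j k C w)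
    (h100 : p100 (O := O) t i j k C z = p100 (O := O) t i j k C w)
    (h010 : p010 (O := O) t i j k C z = p010 (O := O) t i j k C w)
    (h110 : p110 (O := O) t i j k C z = p110 (O := O) t i j k C w)
    (h001 : p001 (O := O) t i j k C z = p001 (O := O) t i j k C w)
    (h101 : p101 (O := O) t i j k C z = p101 (O := O) t i j k C w)
    (h011 : p011 (O := O) t i j k C z = p011 (O := O) t i j k C w)
    (h111 : p111 (O := O) t i j k C z = p111 (O := O) t i j k C w) : z = w := by
  refine Prod.ext (Prod.ext (Prod.ext h000 h100) ?_) ?_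
  · exact D2.ext (Prod.ext (congrArg D2.a h010) (congrArg D2.a h110))
      (Prod.ext (congrArg D2.b h010) (congrArg D2.b h110))
  · refine D2.ext (Prod.ext (Prod.ext (congrArg D2.a h001) (congrArg D2.a h101)) ?_)
      (Prod.ext (Prod.ext (congrArg D2.b h001) (congrArg D2.b h101)) ?_)
    · exact D2.ext (Prod.ext (congrArg (fun q => q.a.a) h011) (congrArg (fun q => q.a.a) h111))
        (Prod.ext (congrArg (fun q => q.a.b) h011) (congrArg (fun q => q.a.b) h111))
    · exact D2.ext (Prod.ext (congrArg (fun q => q.b.a) h011) (congrArg (fun q => q.b.a) h111))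
        (Prod.ext (congrArg (fun q => q.b.b) h011) (congrArg (fun q => q.b.b) h111))

section mk
variable {E : Type} [AddCommGroup E] [Module (S O) E]
    (f000 : E →ₗ[S O] C) (f100 : E →ₗ[S O] D2 t i C) (f010 : E →ₗ[S O] D2 t j C)
    (f110 : E →ₗ[S O] D2 t j (D2 t i C)) (f001 : E →ₗ[S O] D2 t k C)
    (f101 : E →ₗ[S O] D2 t k (D2 t i C)) (f011 : E →ₗ[S O] D2 t k (D2 t j C))
    (f111 : E →ₗ[S O] D2 t k (D2 t j (D2 t i C))) (z : E)

theorem p000_mk : p000 (O := O) t i j k C (mk t i j k C f000 f100 f010 f110 f001 f101 f011 f111 z) =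
    f000 z := rfl
theorem p100_mk : p100 (O := O) t i j k C (mk t i j k C f000 f100 f010 f110 f001 f101 f011 f111 z) =
    f100 z := rfl
theorem p010_mk : p010 (O := O) t i j k C (mk t i j k C f000 f100 f010 f110 f001 f101 f011 f111 z) =
    f010 z := by
  ext <;> simp [p010, mk]
theorem p110_mk : p110 (O := O) t i j k C (mk t i j k C f000 f100 f010 f110 f001 f101 f011 f111 z) =
    f110 z := by
  ext <;> simp [p110, mk]
theorem p001_mk : p001 (O := O) t i j k C (mk t i j k C f000 f100 f010 f110 f001 f101 f011 f111 z) =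
    f001 z := by
  ext <;> simp [p001, mk]
theorem p101_mk : p101 (O := O) t i j k C (mk t i j k C f000 f100 f010 f110 f001 f101 f011 f111 z) =
    f101 z := by
  ext <;> simp [p101, mk]
theorem p011_mk : p011 (O := O) t i j k C (mk t i j k C f000 f100 f010 f110 f001 f101 f011 f111 z) =
    f011 z := by
  ext <;> simp [p011, mk]
theorem p111_mk : p111 (O := O) t i j k C (mk t i j k C f000 f100 f010 f110 f001 f101 f011 f111 z) =
    f111 z := by
  ext <;> simp [p111, mk]
end mk

variable (d : C →ₗ[S O] C) (z : W3 t i j k C)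

theorem p000_d : p000 (O := O) t i j k C (dd3 t i j k C d z) = d (p000 (O := O) t i j k C z) := rfl
theorem p100_d : p100 (O := O) t i j k C (dd3 t i j k C d z) =
    zip O t i (p000 (O := O) t i j k C z) + D2.map d (p100 (O := O) t i j k C z) := rfl
theorem p010_d : p010 (O := O) t i j k C (dd3 t i j k C d z) =
    zip O t j (p000 (O := O) t i j k C z) + D2.map d (p010 (O := O) t i j k C z) := rfl
theorem p001_d : p001 (O := O) t i j k C (dd3 t i j k C d z) =
    zip O t k (p000 (O := O) t i j k C z) + D2.map d (p001 (O := O) t i j k C z) := rfl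
theorem p110_d : p110 (O := O) t i j k C (dd3 t i j k C d z) =
    zip O t j (p100 (O := O) t i j k C z) + (D2.map (zip O t i) (p010 (O := O) t i j k C z) +
      D2.map (D2.map d) (p110 (O := O) t i j k C z)) := rfl
theorem p101_d : p101 (O := O) t i j k C (dd3 t i j k C d z) =
    zip O t k (p100 (O := O) t i j k C z) + (D2.map (zip O t i) (p001 (O := O) t i j k C z) +
      D2.map (D2.map d) (p101 (O := O) t i j k C z)) := rfl
theorem p011_d : p011 (O := O) t i j k C (dd3 t i j k C d z) =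
    zip O t k (p010 (O := O) t i j k C z) + (D2.map (zip O t j) (p001 (O := O) t i j k C z) +
      D2.map (D2.map d) (p011 (O := O) t i j k C z)) := rfl
theorem p111_d : p111 (O := O) t i j k C (dd3 t i j k C d z) =
    zip O t k (p110 (O := O) t i j k C z) + (D2.map (zip O t j) (p101 (O := O) t i j k C z) +
      (D2.map (D2.map (zip O t i)) (p011 (O := O) t i j k C z) +
      D2.map (D2.map (D2.map d)) (p111 (O := O) t i j k C z))) := rfl

end

/-! ## the bimodule maps `B_i B_{i+1} B_i → B_{i+1} B_i B_{i+1}` and back -/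

section mu
variable {t : Bool} {i : ℕ} {C : Type} [AddCommGroup C] [Module (S O) C]

theorem one_cancel {D : Type} [AddCommGroup D] [Module (S O) D] {x y : D}
    (h : (1 : S O) • x = (1 : S O) • y) : x = y := by simpa only [one_smul] using h

theorem ne1 (t : Bool) (i : ℕ) : inj t i ≠ inj t (i + 1) := fun h => by
  have := inj_injective t h; omega
theorem ne2 (t : Bool) (i : ℕ) : inj t i ≠ inj t (i + 1 + 1) := fun h => by
  have := inj_injective t h; omega

theorem X0_1a (z : D2 t (i + 1) C) : ((X (inj t i) : S O) • z).a = (X (inj t i) : S O) • z.a :=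
  D2.X_smul_a_of_ne _ (ne1 t i) (ne2 t i) z
theorem X0_1b (z : D2 t (i + 1) C) : ((X (inj t i) : S O) • z).b = (X (inj t i) : S O) • z.b :=
  D2.X_smul_b_of_ne _ (ne1 t i) (ne2 t i) z
theorem X2_0a (z : D2 t i C) :
    ((X (inj t (i + 1 + 1)) : S O) • z).a = (X (inj t (i + 1 + 1)) : S O) • z.a :=
  D2.X_smul_a_of_ne _ (ne2 t i).symm (ne1 t (i + 1)).symm z
theorem X2_0b (z : D2 t i C) :
    ((X (inj t (i + 1 + 1)) : S O) • z).b = (X (inj t (i + 1 + 1)) : S O) • z.b :=
  D2.X_smul_b_of_ne _ (ne2 t i).symm (ne1 t (i + 1)).symm z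

theorem e1_split {D : Type} [AddCommGroup D] [Module (S O) D] (i : ℕ) (v : D) :
    e1 O t i • v = (X (inj t i) : S O) • v + (X (inj t (i + 1)) : S O) • v := by
  rw [e1_def, add_smul]
theorem e2_split {D : Type} [AddCommGroup D] [Module (S O) D] (i : ℕ) (v : D) :
    e2 O t i • v = (X (inj t i) : S O) • (X (inj t (i + 1)) : S O) • v := by
  rw [e2_def, mul_smul]

/-- additive map underlying `mu` -/
noncomputable def muA (t : Bool) (i : ℕ) (C : Type) [AddCommGroup C] [Module (S O) C] :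
    D2 t i (D2 t (i + 1) (D2 t i C)) →+ D2 t (i + 1) (D2 t i (D2 t (i + 1) C)) where
  toFun z := ⟨⟨⟨z.a.a.a + (X (inj t (i + 1 + 1)) : S O) • z.a.a.b +
        (X (inj t (i + 1 + 1)) : S O) • z.a.b.a, (X (inj t i) : S O) • z.b.a.b⟩,
      ⟨z.a.a.b + z.b.a.a + (X (inj t i) : S O) • z.b.a.b + (X (inj t (i + 1 + 1)) : S O) • z.b.a.b +
        (X (inj t (i + 1 + 1)) : S O) • z.b.b.a, z.b.a.b⟩⟩,
    ⟨⟨z.a.a.b, (X (inj t i) : S O) • z.b.b.b⟩,
      ⟨z.a.b.b + z.b.a.b + (X (inj t i) : S O) • z.b.b.b, z.b.b.b⟩⟩⟩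
  map_zero' := by ext <;> simp
  map_add' z w := by ext <;> (simp; try module)

theorem muA_apply (z : D2 t i (D2 t (i + 1) (D2 t i C))) :
    muA (O := O) t i C z = ⟨⟨⟨z.a.a.a + (X (inj t (i + 1 + 1)) : S O) • z.a.a.b +
        (X (inj t (i + 1 + 1)) : S O) • z.a.b.a, (X (inj t i) : S O) • z.b.a.b⟩,
      ⟨z.a.a.b + z.b.a.a + (X (inj t i) : S O) • z.b.a.b + (X (inj t (i + 1 + 1)) : S O) • z.b.a.b +
        (X (inj t (i + 1 + 1)) : S O) • z.b.b.a, z.b.a.b⟩⟩,
    ⟨⟨z.a.a.b, (X (inj t i) : S O) • z.b.b.b⟩,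
      ⟨z.a.b.b + z.b.a.b + (X (inj t i) : S O) • z.b.b.b, z.b.b.b⟩⟩⟩ := rfl

theorem muA_0 (z : D2 t i (D2 t (i + 1) (D2 t i C))) :
    muA (O := O) t i C ((X (inj t i) : S O) • z) = (X (inj t i) : S O) • muA (O := O) t i C z := by
  rw [muA_apply, muA_apply]
  ext
  all_goals
    simp only [D2.X_smul_i_a, D2.X_smul_i_b, D2.X_smul_succ_a, D2.X_smul_succ_b, X0_1a, X0_1b,
      X2_0a, X2_0b, e1_split, e2_split, D2.add_a, D2.add_b, smul_add, smul_zero] <;>
    first
      | module
      | (match_scalars <;> (rw [← sub_eq_zero]; ring_nf <;>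
      simp only [two0, three1, four0, five1, six0, seven1, eight0, mul_zero, zero_mul, add_zero,
        zero_add, neg_zero, sub_zero, sub_self, mul_one]))
      | (refine one_cancel (O := O) ?_
         match_scalars <;> (rw [← sub_eq_zero]; ring_nf <;>
      simp only [two0, three1, four0, five1, six0, seven1, eight0, mul_zero, zero_mul, add_zero,
        zero_add, neg_zero, sub_zero, sub_self, mul_one]))

theorem muA_1 (z : D2 t i (D2 t (i + 1) (D2 t i C))) :
    muA (O := O) t i C ((X (inj t (i + 1)) : S O) • z) =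
      (X (inj t (i + 1)) : S O) • muA (O := O) t i C z := by
  rw [muA_apply, muA_apply]
  ext
  all_goals
    simp only [D2.X_smul_i_a, D2.X_smul_i_b, D2.X_smul_succ_a, D2.X_smul_succ_b, X0_1a, X0_1b,
      X2_0a, X2_0b, e1_split, e2_split, D2.add_a, D2.add_b, smul_add, smul_zero] <;>
    first
      | module
      | (match_scalars <;> (rw [← sub_eq_zero]; ring_nf <;>
      simp only [two0, three1, four0, five1, six0, seven1, eight0, mul_zero, zero_mul, add_zero,
        zero_add, neg_zero, sub_zero, sub_self, mul_one]))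
      | (refine one_cancel (O := O) ?_
         match_scalars <;> (rw [← sub_eq_zero]; ring_nf <;>
      simp only [two0, three1, four0, five1, six0, seven1, eight0, mul_zero, zero_mul, add_zero,
        zero_add, neg_zero, sub_zero, sub_self, mul_one]))

theorem muA_2 (z : D2 t i (D2 t (i + 1) (D2 t i C))) :
    muA (O := O) t i C ((X (inj t (i + 1 + 1)) : S O) • z) =
      (X (inj t (i + 1 + 1)) : S O) • muA (O := O) t i C z := by
  rw [muA_apply, muA_apply]
  ext
  all_goals
    simp only [D2.X_smul_i_a, D2.X_smul_i_b, D2.X_smul_succ_a, D2.X_smul_succ_b, X0_1a, X0_1b,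
      X2_0a, X2_0b, e1_split, e2_split, D2.add_a, D2.add_b, smul_add, smul_zero] <;>
    first
      | module
      | (match_scalars <;> (rw [← sub_eq_zero]; ring_nf <;>
      simp only [two0, three1, four0, five1, six0, seven1, eight0, mul_zero, zero_mul, add_zero,
        zero_add, neg_zero, sub_zero, sub_self, mul_one]))
      | (refine one_cancel (O := O) ?_
         match_scalars <;> (rw [← sub_eq_zero]; ring_nf <;>
      simp only [two0, three1, four0, five1, six0, seven1, eight0, mul_zero, zero_mul, add_zero,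
        zero_add, neg_zero, sub_zero, sub_self, mul_one]))

theorem muA_far (s : ℕ ⊕ ℕ) (h0 : s ≠ inj t i) (h1 : s ≠ inj t (i + 1))
    (h2 : s ≠ inj t (i + 1 + 1)) (z : D2 t i (D2 t (i + 1) (D2 t i C))) :
    muA (O := O) t i C ((X s : S O) • z) = (X s : S O) • muA (O := O) t i C z := by
  rw [muA_apply, muA_apply]
  ext
  all_goals
    simp only [D2.X_smul_a_of_ne s h0 h1, D2.X_smul_b_of_ne s h0 h1, D2.X_smul_a_of_ne s h1 h2,
      D2.X_smul_b_of_ne s h1 h2, D2.add_a, D2.add_b, smul_add, smul_zero]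
    try first | module | (match_scalars <;> (rw [← sub_eq_zero]; ring_nf <;>
      simp only [two0, three1, four0, five1, six0, seven1, eight0, mul_zero, zero_mul, add_zero,
        zero_add, neg_zero, sub_zero, sub_self, mul_one]))

theorem muA_C (o : O) (z : D2 t i (D2 t (i + 1) (D2 t i C))) :
    muA (O := O) t i C ((MvPolynomial.C o : S O) • z) =
      (MvPolynomial.C o : S O) • muA (O := O) t i C z := by
  rw [muA_apply, muA_apply]
  ext
  all_goals
    simp only [D2.C_smul_a, D2.C_smul_b, D2.add_a, D2.add_b, smul_add, smul_zero]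
    try module

/-- `B_i B_{i+1} B_i → B_{i+1} B_i B_{i+1}`, `1 ↦ 1` -/
noncomputable def mu (t : Bool) (i : ℕ) (C : Type) [AddCommGroup C] [Module (S O) C] :
    D2 t i (D2 t (i + 1) (D2 t i C)) →ₗ[S O] D2 t (i + 1) (D2 t i (D2 t (i + 1) C)) :=
  mkLin (muA t i C) (fun o v => muA_C o v) (fun s v => by
    by_cases h0 : s = inj t i
    · subst h0; exact muA_0 v
    · by_cases h1 : s = inj t (i + 1)
      · subst h1; exact muA_1 v
      · by_cases h2 : s = inj t (i + 1 + 1)
        · subst h2; exact muA_2 v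
        · exact muA_far s h0 h1 h2 v)

/-- additive map underlying `nu` -/
def nuA (t : Bool) (i : ℕ) (C : Type) [AddCommGroup C] :
    D2 t (i + 1) (D2 t i (D2 t (i + 1) C)) →+ D2 t i (D2 t (i + 1) (D2 t i C)) where
  toFun z := ⟨⟨⟨z.a.a.a, z.b.a.a⟩, ⟨z.b.a.a, z.a.b.b + z.b.a.b + z.b.b.a⟩⟩,
    ⟨⟨z.a.a.b + z.a.b.a + z.b.a.a, z.a.b.b⟩, ⟨z.a.b.b, z.b.b.b⟩⟩⟩
  map_zero' := by ext <;> simp
  map_add' z w := by ext <;> (simp; try abel)

theorem nuA_apply (z : D2 t (i + 1) (D2 t i (D2 t (i + 1) C))) :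
    nuA t i C z = ⟨⟨⟨z.a.a.a, z.b.a.a⟩, ⟨z.b.a.a, z.a.b.b + z.b.a.b + z.b.b.a⟩⟩,
    ⟨⟨z.a.a.b + z.a.b.a + z.b.a.a, z.a.b.b⟩, ⟨z.a.b.b, z.b.b.b⟩⟩⟩ := rfl

theorem nuA_0 (z : D2 t (i + 1) (D2 t i (D2 t (i + 1) C))) :
    nuA t i C ((X (inj t i) : S O) • z) = (X (inj t i) : S O) • nuA t i C z := by
  rw [nuA_apply, nuA_apply]
  ext
  all_goals
    simp only [D2.X_smul_i_a, D2.X_smul_i_b, D2.X_smul_succ_a, D2.X_smul_succ_b, X0_1a, X0_1b,
      X2_0a, X2_0b, e1_split, e2_split, D2.add_a, D2.add_b, smul_add, smul_zero] <;>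
    first
      | module
      | (match_scalars <;> (rw [← sub_eq_zero]; ring_nf <;>
      simp only [two0, three1, four0, five1, six0, seven1, eight0, mul_zero, zero_mul, add_zero,
        zero_add, neg_zero, sub_zero, sub_self, mul_one]))
      | (refine one_cancel (O := O) ?_
         match_scalars <;> (rw [← sub_eq_zero]; ring_nf <;>
      simp only [two0, three1, four0, five1, six0, seven1, eight0, mul_zero, zero_mul, add_zero,
        zero_add, neg_zero, sub_zero, sub_self, mul_one]))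

theorem nuA_1 (z : D2 t (i + 1) (D2 t i (D2 t (i + 1) C))) :
    nuA t i C ((X (inj t (i + 1)) : S O) • z) = (X (inj t (i + 1)) : S O) • nuA t i C z := by
  rw [nuA_apply, nuA_apply]
  ext
  all_goals
    simp only [D2.X_smul_i_a, D2.X_smul_i_b, D2.X_smul_succ_a, D2.X_smul_succ_b, X0_1a, X0_1b,
      X2_0a, X2_0b, e1_split, e2_split, D2.add_a, D2.add_b, smul_add, smul_zero] <;>
    first
      | module
      | (match_scalars <;> (rw [← sub_eq_zero]; ring_nf <;>
      simp only [two0, three1, four0, five1, six0, seven1, eight0, mul_zero, zero_mul, add_zero,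
        zero_add, neg_zero, sub_zero, sub_self, mul_one]))
      | (refine one_cancel (O := O) ?_
         match_scalars <;> (rw [← sub_eq_zero]; ring_nf <;>
      simp only [two0, three1, four0, five1, six0, seven1, eight0, mul_zero, zero_mul, add_zero,
        zero_add, neg_zero, sub_zero, sub_self, mul_one]))

theorem nuA_2 (z : D2 t (i + 1) (D2 t i (D2 t (i + 1) C))) :
    nuA t i C ((X (inj t (i + 1 + 1)) : S O) • z) =
      (X (inj t (i + 1 + 1)) : S O) • nuA t i C z := by
  rw [nuA_apply, nuA_apply]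
  ext
  all_goals
    simp only [D2.X_smul_i_a, D2.X_smul_i_b, D2.X_smul_succ_a, D2.X_smul_succ_b, X0_1a, X0_1b,
      X2_0a, X2_0b, e1_split, e2_split, D2.add_a, D2.add_b, smul_add, smul_zero] <;>
    first
      | module
      | (match_scalars <;> (rw [← sub_eq_zero]; ring_nf <;>
      simp only [two0, three1, four0, five1, six0, seven1, eight0, mul_zero, zero_mul, add_zero,
        zero_add, neg_zero, sub_zero, sub_self, mul_one]))
      | (refine one_cancel (O := O) ?_
         match_scalars <;> (rw [← sub_eq_zero]; ring_nf <;>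
      simp only [two0, three1, four0, five1, six0, seven1, eight0, mul_zero, zero_mul, add_zero,
        zero_add, neg_zero, sub_zero, sub_self, mul_one]))

theorem nuA_far (s : ℕ ⊕ ℕ) (h0 : s ≠ inj t i) (h1 : s ≠ inj t (i + 1))
    (h2 : s ≠ inj t (i + 1 + 1)) (z : D2 t (i + 1) (D2 t i (D2 t (i + 1) C))) :
    nuA t i C ((X s : S O) • z) = (X s : S O) • nuA t i C z := by
  rw [nuA_apply, nuA_apply]
  ext
  all_goals
    simp only [D2.X_smul_a_of_ne s h0 h1, D2.X_smul_b_of_ne s h0 h1, D2.X_smul_a_of_ne s h1 h2,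
      D2.X_smul_b_of_ne s h1 h2, D2.add_a, D2.add_b, smul_add, smul_zero]
    try first | module | (match_scalars <;> (rw [← sub_eq_zero]; ring_nf <;>
      simp only [two0, three1, four0, five1, six0, seven1, eight0, mul_zero, zero_mul, add_zero,
        zero_add, neg_zero, sub_zero, sub_self, mul_one]))

theorem nuA_C (o : O) (z : D2 t (i + 1) (D2 t i (D2 t (i + 1) C))) :
    nuA t i C ((MvPolynomial.C o : S O) • z) = (MvPolynomial.C o : S O) • nuA t i C z := by
  rw [nuA_apply, nuA_apply]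
  ext
  all_goals
    simp only [D2.C_smul_a, D2.C_smul_b, D2.add_a, D2.add_b, smul_add, smul_zero]
    try module

/-- `B_{i+1} B_i B_{i+1} → B_i B_{i+1} B_i`, `1 ↦ 1` -/
noncomputable def nu (t : Bool) (i : ℕ) (C : Type) [AddCommGroup C] [Module (S O) C] :
    D2 t (i + 1) (D2 t i (D2 t (i + 1) C)) →ₗ[S O] D2 t i (D2 t (i + 1) (D2 t i C)) :=
  mkLin (nuA t i C) (fun o v => nuA_C o v) (fun s v => by
    by_cases h0 : s = inj t i
    · subst h0; exact nuA_0 v
    · by_cases h1 : s = inj t (i + 1)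
      · subst h1; exact nuA_1 v
      · by_cases h2 : s = inj t (i + 1 + 1)
        · subst h2; exact nuA_2 v
        · exact nuA_far s h0 h1 h2 v)

theorem mu_apply (z : D2 t i (D2 t (i + 1) (D2 t i C))) :
    mu (O := O) t i C z = ⟨⟨⟨z.a.a.a + (X (inj t (i + 1 + 1)) : S O) • z.a.a.b +
        (X (inj t (i + 1 + 1)) : S O) • z.a.b.a, (X (inj t i) : S O) • z.b.a.b⟩,
      ⟨z.a.a.b + z.b.a.a + (X (inj t i) : S O) • z.b.a.b + (X (inj t (i + 1 + 1)) : S O) • z.b.a.b +
        (X (inj t (i + 1 + 1)) : S O) • z.b.b.a, z.b.a.b⟩⟩,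
    ⟨⟨z.a.a.b, (X (inj t i) : S O) • z.b.b.b⟩,
      ⟨z.a.b.b + z.b.a.b + (X (inj t i) : S O) • z.b.b.b, z.b.b.b⟩⟩⟩ := rfl

theorem nu_apply (z : D2 t (i + 1) (D2 t i (D2 t (i + 1) C))) :
    nu (O := O) t i C z = ⟨⟨⟨z.a.a.a, z.b.a.a⟩, ⟨z.b.a.a, z.a.b.b + z.b.a.b + z.b.b.a⟩⟩,
    ⟨⟨z.a.a.b + z.a.b.a + z.b.a.a, z.a.b.b⟩, ⟨z.a.b.b, z.b.b.b⟩⟩⟩ := rfl

theorem mu_nat {D : Type} [AddCommGroup D] [Module (S O) D] (f : C →ₗ[S O] D)
    (z : D2 t i (D2 t (i + 1) (D2 t i C))) :
    mu (O := O) t i D (D2.map (D2.map (D2.map f)) z) =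
      D2.map (D2.map (D2.map f)) (mu (O := O) t i C z) := by
  rw [mu_apply, mu_apply]
  ext <;> simp

theorem nu_nat {D : Type} [AddCommGroup D] [Module (S O) D] (f : C →ₗ[S O] D)
    (z : D2 t (i + 1) (D2 t i (D2 t (i + 1) C))) :
    nu (O := O) t i D (D2.map (D2.map (D2.map f)) z) =
      D2.map (D2.map (D2.map f)) (nu (O := O) t i C z) := by
  rw [nu_apply, nu_apply]
  ext <;> simp

end mu

/-! ## the chain maps -/

section chain
variable (t : Bool) (i : ℕ) (C : Type) [AddCommGroup C] [Module (S O) C]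

/-- `σ_i σ_{i+1} σ_i → σ_{i+1} σ_i σ_{i+1}` -/
noncomputable def f3 : W3 t i (i + 1) i C →ₗ[S O] W3 t (i + 1) i (i + 1) C :=
  mk t (i + 1) i (i + 1) C
    (p000 t i (i + 1) i C) (p010 t i (i + 1) i C) (p100 t i (i + 1) i C)
    (p011 t i (i + 1) i C + D2.map (zip O t (i + 1)) ∘ₗ dig O t i ∘ₗ p101 t i (i + 1) i C)
    (p010 t i (i + 1) i C)
    (split O t (i + 1) ∘ₗ (D2.map (unzip O t i) ∘ₗ p110 t i (i + 1) i C +
      unzip O t i ∘ₗ p011 t i (i + 1) i C +
      zip O t (i + 1) ∘ₗ unzip O t i ∘ₗ dig O t i ∘ₗ p101 t i (i + 1) i C))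
    (p110 t i (i + 1) i C)
    (mu t i C ∘ₗ p111 t i (i + 1) i C)

/-- `σ_{i+1} σ_i σ_{i+1} → σ_i σ_{i+1} σ_i` -/
noncomputable def g3 : W3 t (i + 1) i (i + 1) C →ₗ[S O] W3 t i (i + 1) i C :=
  mk t i (i + 1) i C
    (p000 t (i + 1) i (i + 1) C) (p010 t (i + 1) i (i + 1) C) (p100 t (i + 1) i (i + 1) C)
    (p011 t (i + 1) i (i + 1) C + D2.map (zip O t i) ∘ₗ dig O t (i + 1) ∘ₗ
      p101 t (i + 1) i (i + 1) C)
    (p010 t (i + 1) i (i + 1) C)
    (split O t i ∘ₗ (D2.map (unzip O t (i + 1)) ∘ₗ p110 t (i + 1) i (i + 1) C +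
      unzip O t (i + 1) ∘ₗ p011 t (i + 1) i (i + 1) C +
      zip O t i ∘ₗ unzip O t (i + 1) ∘ₗ dig O t (i + 1) ∘ₗ p101 t (i + 1) i (i + 1) C))
    (p110 t (i + 1) i (i + 1) C)
    (nu t i C ∘ₗ p111 t (i + 1) i (i + 1) C)

variable {t i C}

theorem f3_comm (d : C →ₗ[S O] C) (z : W3 t i (i + 1) i C) :
    dd3 t (i + 1) i (i + 1) C d (f3 (O := O) t i C z) =
      f3 (O := O) t i C (dd3 t i (i + 1) i C d z) := by
  apply ext3 (O := O)
  · rw [p000_d, f3, p000_mk, p000_mk, p000_d]
  · rw [p100_d, f3, p100_mk, p000_mk, p100_mk, p010_d]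
  · rw [p010_d, f3, p010_mk, p000_mk, p010_mk, p100_d]
  · rw [p110_d, f3, p110_mk, p100_mk, p010_mk, p110_mk]
    simp only [LinearMap.add_apply, LinearMap.comp_apply, p011_d, p101_d]
    (ext <;> simp only [D2.X_smul_i_a, D2.X_smul_i_b, D2.X_smul_succ_a, D2.X_smul_succ_b, X0_1a,
      X0_1b, X2_0a, X2_0b, e1_split, e2_split, D2.add_a, D2.add_b, smul_add, smul_zero,
      zip_a, zip_b, unzip_apply, D2.map_a, D2.map_b, split_aa, split_ab, split_ba, split_bb,
      dig_a, dig_b, map_add, map_smul, map_zero, D2.zero_a, D2.zero_b, mu_apply, nu_apply]) <;>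
    first
      | module
      | (match_scalars <;> (rw [← sub_eq_zero]; ring_nf <;>
      simp only [two0, three1, four0, five1, six0, seven1, eight0, mul_zero, zero_mul, add_zero,
        zero_add, neg_zero, sub_zero, sub_self, mul_one]))
      | (refine one_cancel (O := O) ?_
         match_scalars <;> (rw [← sub_eq_zero]; ring_nf <;>
      simp only [two0, three1, four0, five1, six0, seven1, eight0, mul_zero, zero_mul, add_zero,
        zero_add, neg_zero, sub_zero, sub_self, mul_one]))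
  · rw [p001_d, f3, p001_mk, p000_mk, p001_mk, p010_d]
  · rw [p101_d, f3, p100_mk, p001_mk, p101_mk, p101_mk]
    simp only [LinearMap.add_apply, LinearMap.comp_apply, p011_d, p101_d, p110_d]
    (ext <;> simp only [D2.X_smul_i_a, D2.X_smul_i_b, D2.X_smul_succ_a, D2.X_smul_succ_b, X0_1a,
      X0_1b, X2_0a, X2_0b, e1_split, e2_split, D2.add_a, D2.add_b, smul_add, smul_zero,
      zip_a, zip_b, unzip_apply, D2.map_a, D2.map_b, split_aa, split_ab, split_ba, split_bb,
      dig_a, dig_b, map_add, map_smul, map_zero, D2.zero_a, D2.zero_b, mu_apply, nu_apply]) <;>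
    first
      | module
      | (match_scalars <;> (rw [← sub_eq_zero]; ring_nf <;>
      simp only [two0, three1, four0, five1, six0, seven1, eight0, mul_zero, zero_mul, add_zero,
        zero_add, neg_zero, sub_zero, sub_self, mul_one]))
      | (refine one_cancel (O := O) ?_
         match_scalars <;> (rw [← sub_eq_zero]; ring_nf <;>
      simp only [two0, three1, four0, five1, six0, seven1, eight0, mul_zero, zero_mul, add_zero,
        zero_add, neg_zero, sub_zero, sub_self, mul_one]))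
  · rw [p011_d, f3, p001_mk, p010_mk, p011_mk, p011_mk]
    simp only [LinearMap.add_apply, LinearMap.comp_apply, p011_d, p101_d, p110_d]
  · rw [p111_d, f3, p110_mk, p101_mk, p011_mk, p111_mk, p111_mk]
    simp only [LinearMap.add_apply, LinearMap.comp_apply, p011_d, p101_d, p110_d, p111_d]
    (ext <;> simp only [D2.X_smul_i_a, D2.X_smul_i_b, D2.X_smul_succ_a, D2.X_smul_succ_b, X0_1a,
      X0_1b, X2_0a, X2_0b, e1_split, e2_split, D2.add_a, D2.add_b, smul_add, smul_zero,
      zip_a, zip_b, unzip_apply, D2.map_a, D2.map_b, split_aa, split_ab, split_ba, split_bb,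
      dig_a, dig_b, map_add, map_smul, map_zero, D2.zero_a, D2.zero_b, mu_apply, nu_apply]) <;>
    first
      | module
      | (match_scalars <;> (rw [← sub_eq_zero]; ring_nf <;>
      simp only [two0, three1, four0, five1, six0, seven1, eight0, mul_zero, zero_mul, add_zero,
        zero_add, neg_zero, sub_zero, sub_self, mul_one]))
      | (refine one_cancel (O := O) ?_
         match_scalars <;> (rw [← sub_eq_zero]; ring_nf <;>
      simp only [two0, three1, four0, five1, six0, seven1, eight0, mul_zero, zero_mul, add_zero,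
        zero_add, neg_zero, sub_zero, sub_self, mul_one]))

theorem g3_comm (d : C →ₗ[S O] C) (z : W3 t (i + 1) i (i + 1) C) :
    dd3 t i (i + 1) i C d (g3 (O := O) t i C z) =
      g3 (O := O) t i C (dd3 t (i + 1) i (i + 1) C d z) := by
  apply ext3 (O := O)
  · rw [p000_d, g3, p000_mk, p000_mk, p000_d]
  · rw [p100_d, g3, p100_mk, p000_mk, p100_mk, p010_d]
  · rw [p010_d, g3, p010_mk, p000_mk, p010_mk, p100_d]
  · rw [p110_d, g3, p110_mk, p100_mk, p010_mk, p110_mk]
    simp only [LinearMap.add_apply, LinearMap.comp_apply, p011_d, p101_d]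
    (ext <;> simp only [D2.X_smul_i_a, D2.X_smul_i_b, D2.X_smul_succ_a, D2.X_smul_succ_b, X0_1a,
      X0_1b, X2_0a, X2_0b, e1_split, e2_split, D2.add_a, D2.add_b, smul_add, smul_zero,
      zip_a, zip_b, unzip_apply, D2.map_a, D2.map_b, split_aa, split_ab, split_ba, split_bb,
      dig_a, dig_b, map_add, map_smul, map_zero, D2.zero_a, D2.zero_b, mu_apply, nu_apply]) <;>
    first
      | module
      | (match_scalars <;> (rw [← sub_eq_zero]; ring_nf <;>
      simp only [two0, three1, four0, five1, six0, seven1, eight0, mul_zero, zero_mul, add_zero,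
        zero_add, neg_zero, sub_zero, sub_self, mul_one]))
      | (refine one_cancel (O := O) ?_
         match_scalars <;> (rw [← sub_eq_zero]; ring_nf <;>
      simp only [two0, three1, four0, five1, six0, seven1, eight0, mul_zero, zero_mul, add_zero,
        zero_add, neg_zero, sub_zero, sub_self, mul_one]))
  · rw [p001_d, g3, p001_mk, p000_mk, p001_mk, p010_d]
  · rw [p101_d, g3, p100_mk, p001_mk, p101_mk, p101_mk]
    simp only [LinearMap.add_apply, LinearMap.comp_apply, p011_d, p101_d, p110_d]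
    (ext <;> simp only [D2.X_smul_i_a, D2.X_smul_i_b, D2.X_smul_succ_a, D2.X_smul_succ_b, X0_1a,
      X0_1b, X2_0a, X2_0b, e1_split, e2_split, D2.add_a, D2.add_b, smul_add, smul_zero,
      zip_a, zip_b, unzip_apply, D2.map_a, D2.map_b, split_aa, split_ab, split_ba, split_bb,
      dig_a, dig_b, map_add, map_smul, map_zero, D2.zero_a, D2.zero_b, mu_apply, nu_apply]) <;>
    first
      | module
      | (match_scalars <;> (rw [← sub_eq_zero]; ring_nf <;>
      simp only [two0, three1, four0, five1, six0, seven1, eight0, mul_zero, zero_mul, add_zero,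
        zero_add, neg_zero, sub_zero, sub_self, mul_one]))
      | (refine one_cancel (O := O) ?_
         match_scalars <;> (rw [← sub_eq_zero]; ring_nf <;>
      simp only [two0, three1, four0, five1, six0, seven1, eight0, mul_zero, zero_mul, add_zero,
        zero_add, neg_zero, sub_zero, sub_self, mul_one]))
  · rw [p011_d, g3, p001_mk, p010_mk, p011_mk, p011_mk]
    simp only [LinearMap.add_apply, LinearMap.comp_apply, p011_d, p101_d, p110_d]
  · rw [p111_d, g3, p110_mk, p101_mk, p011_mk, p111_mk, p111_mk]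
    simp only [LinearMap.add_apply, LinearMap.comp_apply, p011_d, p101_d, p110_d, p111_d]
    (ext <;> simp only [D2.X_smul_i_a, D2.X_smul_i_b, D2.X_smul_succ_a, D2.X_smul_succ_b, X0_1a,
      X0_1b, X2_0a, X2_0b, e1_split, e2_split, D2.add_a, D2.add_b, smul_add, smul_zero,
      zip_a, zip_b, unzip_apply, D2.map_a, D2.map_b, split_aa, split_ab, split_ba, split_bb,
      dig_a, dig_b, map_add, map_smul, map_zero, D2.zero_a, D2.zero_b, mu_apply, nu_apply]) <;>
    first
      | module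
      | (match_scalars <;> (rw [← sub_eq_zero]; ring_nf <;>
      simp only [two0, three1, four0, five1, six0, seven1, eight0, mul_zero, zero_mul, add_zero,
        zero_add, neg_zero, sub_zero, sub_self, mul_one]))
      | (refine one_cancel (O := O) ?_
         match_scalars <;> (rw [← sub_eq_zero]; ring_nf <;>
      simp only [two0, three1, four0, five1, six0, seven1, eight0, mul_zero, zero_mul, add_zero,
        zero_add, neg_zero, sub_zero, sub_self, mul_one]))

end chain

/-- R3 -/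
theorem r3_le {P : Pot O} (t : Bool) (i : ℕ) (C : DM O) (w : List (ℕ × Bool)) (k : ℕ) :
    Idl P (Fw w (F2 t i true (F2 t (i + 1) true (F2 t i true C)))) k ≤
      Idl P (Fw w (F2 t (i + 1) true (F2 t i true (F2 t (i + 1) true C)))) k :=
  Idl_ctx (C := F2 t i true (F2 t (i + 1) true (F2 t i true C)))
    (D := F2 t (i + 1) true (F2 t i true (F2 t (i + 1) true C))) (f3 (O := O) t i C.V)
    (fun z => f3_comm C.d z) (fun _ _ => rfl) w k

/-- R3, backwards -/
theorem le_r3 {P : Pot O} (t : Bool) (i : ℕ) (C : DM O) (w : List (ℕ × Bool)) (k : ℕ) :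
    Idl P (Fw w (F2 t (i + 1) true (F2 t i true (F2 t (i + 1) true C)))) k ≤
      Idl P (Fw w (F2 t i true (F2 t (i + 1) true (F2 t i true C)))) k :=
  Idl_ctx (C := F2 t (i + 1) true (F2 t i true (F2 t (i + 1) true C)))
    (D := F2 t i true (F2 t (i + 1) true (F2 t i true C))) (g3 (O := O) t i C.V)
    (fun z => g3_comm C.d z) (fun _ _ => rfl) w k

end R3

end Mv

/-! ## The outputs of block C -/

theorem IdW_R2 (P : Pot O) (s : ℕ) (u v : List (ℕ × Bool)) (i : ℕ) (b : Bool) (k : ℕ) :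
    IdW P s (u ++ (i, b) :: (i, !b) :: v) k = IdW P s (u ++ v) k := by
  unfold IdW
  rw [Fw_append, Fw_append]
  exact le_antisymm (Mv.le_r2 true i b _ v k) (Mv.r2_le true i b _ v k)

theorem IdW_far (P : Pot O) (s : ℕ) (u v : List (ℕ × Bool)) (i j : ℕ) (p q : Bool) (k : ℕ)
    (hij : i + 2 ≤ j) :
    IdW P s (u ++ (i, p) :: (j, q) :: v) k = IdW P s (u ++ (j, q) :: (i, p) :: v) k := by
  unfold IdW
  rw [Fw_append, Fw_append]
  exact le_antisymm (Mv.far_le (Mv.FarL.of_gt true hij) q p _ v k)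
    (Mv.far_le (Mv.FarL.of_lt true hij) p q _ v k)

theorem IdW_comm (P : Pot O) (s : ℕ) (u v : List (ℕ × Bool)) (i j : ℕ) (k : ℕ)
    (hij : i + 2 ≤ j) :
    IdW P s (u ++ (i, true) :: (j, true) :: v) k = IdW P s (u ++ (j, true) :: (i, true) :: v) k :=
  IdW_far P s u v i j true true k hij

theorem IdW_R3 (P : Pot O) (s : ℕ) (u v : List (ℕ × Bool)) (i : ℕ) (k : ℕ) :
    IdW P s (u ++ (i, true) :: (i + 1, true) :: (i, true) :: v) k =
      IdW P s (u ++ (i + 1, true) :: (i, true) :: (i + 1, true) :: v) k := by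
  unfold IdW
  rw [Fw_append, Fw_append]
  exact le_antisymm (Mv.R3.r3_le true i _ v k) (Mv.R3.le_r3 true i _ v k)

end CQ
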