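import Pool.Agent.CQ.Moves

/-!
# Block C4: retracts between words of letter bimodules

`Retr A B`: the `S`-module `A` is a direct summand of `B`.
-/

set_option autoImplicit false
set_option linter.unusedSectionVars false
set_option linter.unusedSimpArgs false
set_option linter.unreachableTactic false
set_option linter.unusedTactic false
set_option linter.unnecessarySeqFocus false

namespace CQ

open MvPolynomial

variable {O : Type} [CommRing O] [CharP O 2]

/-- `A` is a retract of `B` -/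
def Retr (A B : SM O) : Prop :=
  ∃ (ι : A.V →ₗ[S O] B.V) (π : B.V →ₗ[S O] A.V), ∀ z, π (ι z) = z

namespace Retr

theorem refl (A : SM O) : Retr A A := ⟨LinearMap.id, LinearMap.id, fun _ => rfl⟩

theorem trans {A B C : SM O} (h : Retr A B) (h' : Retr B C) : Retr A C := by
  obtain ⟨ι, π, e⟩ := h
  obtain ⟨ι', π', e'⟩ := h'
  refine ⟨ι' ∘ₗ ι, π ∘ₗ π', fun z => ?_⟩
  change π (π' (ι' (ι z))) = z
  rw [e', e]

/-- context -/
theorem bw (t : Bool) (w : List ℕ) {A B : SM O} (h : Retr A B) : Retr (Bw t w A) (Bw t w B) := by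
  obtain ⟨ι, π, e⟩ := h
  refine ⟨Bw.map t w ι, Bw.map t w π, fun z => ?_⟩
  have e1 : π ∘ₗ ι = LinearMap.id := LinearMap.ext e
  have e2 := Bw.map_comp t w (C := A) (D := B) (E := A) π ι
  rw [e1, Bw.map_id] at e2
  exact (LinearMap.congr_fun e2 z).symm

/-- context, for a summand of a product -/
theorem bw_prod (t : Bool) (w : List ℕ) {A B C : SM O} (h : Retr A (SM.prod B C)) :
    Retr (Bw t w A) (SM.prod (Bw t w B) (Bw t w C)) := by
  obtain ⟨ι, π, e⟩ := h
  let ι1 : A.V →ₗ[S O] B.V := LinearMap.fst (S O) B.V C.V ∘ₗ ι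
  let ι2 : A.V →ₗ[S O] C.V := LinearMap.snd (S O) B.V C.V ∘ₗ ι
  let π1 : B.V →ₗ[S O] A.V := π ∘ₗ LinearMap.inl (S O) B.V C.V
  let π2 : C.V →ₗ[S O] A.V := π ∘ₗ LinearMap.inr (S O) B.V C.V
  have e1 : π1 ∘ₗ ι1 + π2 ∘ₗ ι2 = LinearMap.id := by
    apply LinearMap.ext
    intro z
    change π ((ι z).1, 0) + π (0, (ι z).2) = z
    have h1 := (map_add π (((ι z).1, 0) : B.V × C.V) (0, (ι z).2)).symm
    refine h1.trans ?_
    have h2 : (((ι z).1, 0) : B.V × C.V) + (0, (ι z).2) = ι z := by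
      refine Prod.ext ?_ ?_
      · exact add_zero _
      · exact zero_add _
    exact (congrArg π h2).trans (e z)
  refine ⟨LinearMap.prod (Bw.map t w ι1) (Bw.map t w ι2),
    Bw.map t w π1 ∘ₗ LinearMap.fst (S O) (Bw t w B).V (Bw t w C).V +
      Bw.map t w π2 ∘ₗ LinearMap.snd (S O) (Bw t w B).V (Bw t w C).V, fun z => ?_⟩
  change Bw.map t w π1 (Bw.map t w ι1 z) + Bw.map t w π2 (Bw.map t w ι2 z) = z
  have e2 := Bw.map_add t w (C := A) (D := A) (π1 ∘ₗ ι1) (π2 ∘ₗ ι2)
  rw [e1, Bw.map_id, Bw.map_comp t w (C := A) (D := B) (E := A),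
    Bw.map_comp t w (C := A) (D := C) (E := A)] at e2
  exact (LinearMap.congr_fun e2 z).symm

end Retr

namespace Mv

section
variable {t : Bool} {i : ℕ} {C : Type} [AddCommGroup C] [Module (S O) C]

/-- the other coordinate of the middle ring -/
noncomputable def dig0 (t : Bool) (i : ℕ) (C : Type) [AddCommGroup C] [Module (S O) C] :
    D2 t i (D2 t i C) →ₗ[S O] D2 t i C :=
  D2.mk2
    { toFun := fun z => ⟨z.a.a, z.b.a⟩
      map_zero' := by ext <;> simp
      map_add' := fun v w => by ext <;> simp }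
    (fun o z => by ext <;> simp)
    (fun s z h h' => by
      ext <;> simp [D2.X_smul_a_of_ne s h h', D2.X_smul_b_of_ne s h h'])
    (fun z => by
      ext <;> simp [D2.X_smul_i_a, D2.X_smul_i_b, D2.e1_smul_a, D2.e1_smul_b, D2.e2_smul_a,
        D2.e2_smul_b])
    (fun z => by
      ext <;> simp [D2.X_smul_succ_a, D2.X_smul_succ_b, D2.e1_smul_a, D2.e1_smul_b,
        D2.e2_smul_a, D2.e2_smul_b])

theorem dig0_apply (z : D2 t i (D2 t i C)) : dig0 (O := O) t i C z = ⟨z.a.a, z.b.a⟩ := rfl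

/-- `a ⊗ 1 + b ⊗ X_i ↦ a ⊗ X_i ⊗ 1 + b ⊗ X_i ⊗ X_i` -/
noncomputable def split1 (t : Bool) (i : ℕ) (C : Type) [AddCommGroup C] [Module (S O) C] :
    D2 t i C →ₗ[S O] D2 t i (D2 t i C) :=
  D2.mk2
    { toFun := fun z => ⟨⟨0, z.a⟩, ⟨0, z.b⟩⟩
      map_zero' := by ext <;> simp
      map_add' := fun v w => by ext <;> simp }
    (fun o z => by ext <;> simp)
    (fun s z h h' => by
      ext <;> simp [D2.X_smul_a_of_ne s h h', D2.X_smul_b_of_ne s h h'])
    (fun z => by
      ext <;> simp [D2.X_smul_i_a, D2.X_smul_i_b, D2.e1_smul_a, D2.e1_smul_b, D2.e2_smul_a,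
        D2.e2_smul_b])
    (fun z => by
      ext <;> simp [D2.X_smul_succ_a, D2.X_smul_succ_b, D2.e1_smul_a, D2.e1_smul_b,
        D2.e2_smul_a, D2.e2_smul_b])

theorem split1_apply (z : D2 t i C) : split1 (O := O) t i C z = ⟨⟨0, z.a⟩, ⟨0, z.b⟩⟩ := rfl

theorem split_apply (z : D2 t i C) : split O t i z = ⟨⟨z.a, 0⟩, ⟨z.b, 0⟩⟩ := rfl

theorem dig_apply (z : D2 t i (D2 t i C)) : dig O t i z = ⟨z.a.b, z.b.b⟩ := rfl

theorem digon (z : D2 t i (D2 t i C)) :
    split O t i (dig0 (O := O) t i C z) + split1 (O := O) t i C (dig O t i z) = z := by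
  ext <;> simp [dig0_apply, split1_apply]

end

namespace R3

section
variable {t : Bool} {i : ℕ} {C : Type} [AddCommGroup C] [Module (S O) C]

/-- `B_i B_{i+1} B_i` is a summand of `B_{i+1} B_i B_{i+1} ⊕ B_i` -/
theorem ret (z : D2 t i (D2 t (i + 1) (D2 t i C))) :
    nu (O := O) t i C (mu (O := O) t i C z) +
      D2.map (zip O t (i + 1)) (split O t i (dig O t i (D2.map (unzip O t (i + 1)) z))) = z := by
  (ext <;> simp only [D2.X_smul_i_a, D2.X_smul_i_b, D2.X_smul_succ_a, D2.X_smul_succ_b, X0_1a,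
      X0_1b, X2_0a, X2_0b, e1_split, e2_split, D2.add_a, D2.add_b, smul_add, smul_zero,
      zip_a, zip_b, unzip_apply, D2.map_a, D2.map_b, split_aa, split_ab, split_ba, split_bb,
      dig_a, dig_b, map_add, map_smul, map_zero, D2.zero_a, D2.zero_b, mu_apply, nu_apply]) <;>
    first
      | module
      | (match_scalars <;> (rw [← sub_eq_zero]; ring_nf <;>
      simp only [two0, three1, four0, five1, six0, seven1, eight0, mul_zero, zero_mul, add_zero,
        zero_add, neg_zero, sub_zero, sub_self, mul_one]))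
      | (refine one_cancel (O := O) ?_
         match_scalars <;> (rw [← sub_eq_zero]; ring_nf <;>
      simp only [two0, three1, four0, five1, six0, seven1, eight0, mul_zero, zero_mul, add_zero,
        zero_add, neg_zero, sub_zero, sub_self, mul_one]))

/-- `B_{i+1} B_i B_{i+1}` is a summand of `B_i B_{i+1} B_i ⊕ B_{i+1}` -/
theorem ret' (z : D2 t (i + 1) (D2 t i (D2 t (i + 1) C))) :
    mu (O := O) t i C (nu (O := O) t i C z) +
      D2.map (zip O t i) (split O t (i + 1) (dig O t (i + 1) (D2.map (unzip O t i) z))) = z := by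
  (ext <;> simp only [D2.X_smul_i_a, D2.X_smul_i_b, D2.X_smul_succ_a, D2.X_smul_succ_b, X0_1a,
      X0_1b, X2_0a, X2_0b, e1_split, e2_split, D2.add_a, D2.add_b, smul_add, smul_zero,
      zip_a, zip_b, unzip_apply, D2.map_a, D2.map_b, split_aa, split_ab, split_ba, split_bb,
      dig_a, dig_b, map_add, map_smul, map_zero, D2.zero_a, D2.zero_b, mu_apply, nu_apply]) <;>
    first
      | module
      | (match_scalars <;> (rw [← sub_eq_zero]; ring_nf <;>
      simp only [two0, three1, four0, five1, six0, seven1, eight0, mul_zero, zero_mul, add_zero,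
        zero_add, neg_zero, sub_zero, sub_self, mul_one]))
      | (refine one_cancel (O := O) ?_
         match_scalars <;> (rw [← sub_eq_zero]; ring_nf <;>
      simp only [two0, three1, four0, five1, six0, seven1, eight0, mul_zero, zero_mul, add_zero,
        zero_add, neg_zero, sub_zero, sub_self, mul_one]))

end

end R3

end Mv

/-! ## Outputs for block D -/

theorem retr_comm (t : Bool) {i j : ℕ} (h : i + 2 ≤ j) (u v : List ℕ) (N : SM O) :
    Retr (Bw t (u ++ i :: j :: v) N) (Bw t (u ++ j :: i :: v) N) := by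
  rw [Bw_append, Bw_append]
  have hf : Mv.FarL t j t i := Mv.FarL.of_gt t h
  exact Retr.bw t v (A := SM.D2 t j (SM.D2 t i (Bw t u N)))
    (B := SM.D2 t i (SM.D2 t j (Bw t u N)))
    ⟨Mv.swapD (O := O) hf _, Mv.swapD (O := O) hf.symm _, fun z => Mv.swapD_swapD (O := O) hf z⟩

theorem retr_comm' (t : Bool) {i j : ℕ} (h : i + 2 ≤ j) (u v : List ℕ) (N : SM O) :
    Retr (Bw t (u ++ j :: i :: v) N) (Bw t (u ++ i :: j :: v) N) := by
  rw [Bw_append, Bw_append]
  have hf : Mv.FarL t i t j := Mv.FarL.of_lt t h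
  exact Retr.bw t v (A := SM.D2 t i (SM.D2 t j (Bw t u N)))
    (B := SM.D2 t j (SM.D2 t i (Bw t u N)))
    ⟨Mv.swapD (O := O) hf _, Mv.swapD (O := O) hf.symm _, fun z => Mv.swapD_swapD (O := O) hf z⟩

theorem retr_digon (t : Bool) (i : ℕ) (u v : List ℕ) (N : SM O) :
    Retr (Bw t (u ++ i :: i :: v) N)
      (SM.prod (Bw t (u ++ i :: v) N) (Bw t (u ++ i :: v) N)) := by
  rw [Bw_append, Bw_append]
  refine Retr.bw_prod t v (A := SM.D2 t i (SM.D2 t i (Bw t u N)))
    (B := SM.D2 t i (Bw t u N)) (C := SM.D2 t i (Bw t u N))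
    ⟨LinearMap.prod (Mv.dig0 (O := O) t i _) (dig O t i),
      split O t i ∘ₗ LinearMap.fst (S O) _ _ + Mv.split1 (O := O) t i _ ∘ₗ LinearMap.snd (S O) _ _,
      fun z => Mv.digon (O := O) z⟩

theorem retr_R (t : Bool) (i : ℕ) (u v : List ℕ) (N : SM O) :
    Retr (Bw t (u ++ i :: (i + 1) :: i :: v) N)
      (SM.prod (Bw t (u ++ (i + 1) :: i :: (i + 1) :: v) N) (Bw t (u ++ i :: v) N)) := by
  rw [Bw_append, Bw_append, Bw_append]
  refine Retr.bw_prod t v (A := SM.D2 t i (SM.D2 t (i + 1) (SM.D2 t i (Bw t u N))))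
    (B := SM.D2 t (i + 1) (SM.D2 t i (SM.D2 t (i + 1) (Bw t u N))))
    (C := SM.D2 t i (Bw t u N))
    ⟨LinearMap.prod (Mv.R3.mu (O := O) t i _) (dig O t i ∘ₗ D2.map (unzip O t (i + 1))),
      Mv.R3.nu (O := O) t i _ ∘ₗ LinearMap.fst (S O) _ _ +
        (D2.map (zip O t (i + 1)) ∘ₗ split O t i) ∘ₗ LinearMap.snd (S O) _ _,
      fun z => Mv.R3.ret (O := O) z⟩

theorem retr_R' (t : Bool) (i : ℕ) (u v : List ℕ) (N : SM O) :
    Retr (Bw t (u ++ (i + 1) :: i :: (i + 1) :: v) N)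
      (SM.prod (Bw t (u ++ i :: (i + 1) :: i :: v) N) (Bw t (u ++ (i + 1) :: v) N)) := by
  rw [Bw_append, Bw_append, Bw_append]
  refine Retr.bw_prod t v (A := SM.D2 t (i + 1) (SM.D2 t i (SM.D2 t (i + 1) (Bw t u N))))
    (B := SM.D2 t i (SM.D2 t (i + 1) (SM.D2 t i (Bw t u N))))
    (C := SM.D2 t (i + 1) (Bw t u N))
    ⟨LinearMap.prod (Mv.R3.nu (O := O) t i _) (dig O t (i + 1) ∘ₗ D2.map (unzip O t i)),
      Mv.R3.mu (O := O) t i _ ∘ₗ LinearMap.fst (S O) _ _ +
        (D2.map (zip O t i) ∘ₗ split O t (i + 1)) ∘ₗ LinearMap.snd (S O) _ _,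
      fun z => Mv.R3.ret' (O := O) z⟩

end CQ
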