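import Pool.Agent.CQ.Basic

/-!
# Rotation: `T(D2 true i C)` and `T(D2 false i C)`, the context principle
-/

set_option autoImplicit false
set_option linter.unusedSectionVars false
set_option linter.unusedSimpArgs false

namespace CQ

open MvPolynomial

variable {O : Type} [CommRing O] [CharP O 2]

/-! ## Functionals with two colourings -/

/-- eigenvalues: `c'` on side `t`, `c` on the other side -/
def colT (t : Bool) (c c' : ℕ → O) : ℕ ⊕ ℕ → O
  | Sum.inl j => if t then c j else c' j
  | Sum.inr j => if t then c' j else c j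

/-- evaluation at `colT` -/
noncomputable def evT (t : Bool) (c c' : ℕ → O) : S O →+* O := MvPolynomial.eval (colT t c c')

@[simp] theorem evT_C (t : Bool) (c c' : ℕ → O) (o : O) : evT t c c' (MvPolynomial.C o) = o := by
  simp [evT]
@[simp] theorem evT_X (t : Bool) (c c' : ℕ → O) (s : ℕ ⊕ ℕ) :
    evT t c c' (X s) = colT t c c' s := by simp [evT]
@[simp] theorem colT_inj (t : Bool) (c c' : ℕ → O) (j : ℕ) : colT t c c' (inj t j) = c' j := by
  cases t <;> simp [colT]
@[simp] theorem colT_inj_not (t : Bool) (c c' : ℕ → O) (j : ℕ) :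
    colT t c c' (inj (!t) j) = c j := by
  cases t <;> simp [colT]
theorem evT_self (t : Bool) (c : ℕ → O) : evT t c c = ev c := by
  have : colT t c c = Sum.elim c c := by
    funext s; rcases s with j | j <;> cases t <;> simp [colT]
  rw [evT, this]; rfl

theorem mem_NN_T {P : Pot O} {C : Type} [AddCommGroup C] [Module (S O) C] (t : Bool) {z : C} :
    z ∈ NN P C ↔ ∀ c : ℕ → O, P.IsCol c → ∀ ψ : C →ₛₗ[evT t c c] O, ψ z = 0 := by
  rw [mem_NN]
  constructor
  · intro h c hc
    rw [evT_self]; exact h c hc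
  · intro h c hc
    have := h c hc
    rw [evT_self] at this; exact this

/-- constructor for eigen functionals -/
noncomputable def mkEig {C : Type} [AddCommGroup C] [Module (S O) C] (col : ℕ ⊕ ℕ → O)
    (f : C →+ O) (hC : ∀ (o : O) (v : C), f ((MvPolynomial.C o : S O) • v) = o * f v)
    (hX : ∀ (s : ℕ ⊕ ℕ) (v : C), f ((X s : S O) • v) = col s * f v) :
    C →ₛₗ[(MvPolynomial.eval col : S O →+* O)] O where
  toFun := f
  map_add' := f.map_add
  map_smul' p v := by
    induction p using MvPolynomial.induction_on generalizing v with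
    | C o => rw [hC, MvPolynomial.eval_C, smul_eq_mul]
    | add p q hp hq => simp only [add_smul, map_add, hp, hq]
    | mul_X p s hp =>
      rw [mul_smul, hp, hX, map_mul, MvPolynomial.eval_X, smul_eq_mul, smul_eq_mul, mul_assoc]

@[simp] theorem mkEig_apply {C : Type} [AddCommGroup C] [Module (S O) C] (col : ℕ ⊕ ℕ → O)
    (f : C →+ O) (hC) (hX) (v : C) : mkEig col f hC hX v = f v := rfl

/-- the colouring with `i` and `i+1` exchanged -/
def sw (i : ℕ) (c : ℕ → O) : ℕ → O := fun j => c (Equiv.swap i (i + 1) j)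

@[simp] theorem sw_i (i : ℕ) (c : ℕ → O) : sw i c i = c (i + 1) := by simp [sw]
@[simp] theorem sw_succ (i : ℕ) (c : ℕ → O) : sw i c (i + 1) = c i := by simp [sw]
theorem sw_ne (i : ℕ) (c : ℕ → O) {j : ℕ} (h : j ≠ i) (h' : j ≠ i + 1) : sw i c j = c j := by
  simp [sw, Equiv.swap_apply_of_ne_of_ne h h']
@[simp] theorem sw_sw (i : ℕ) (c : ℕ → O) : sw i (sw i c) = c := by
  funext j; simp [sw]

/-! ## Functionals on `D2 t i C` -/

section
variable {t : Bool} {i : ℕ} {C : Type} [AddCommGroup C] [Module (S O) C]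

/-- a functional on `C` which is eigen for the symmetric functions of `X_i, X_{i+1}` on side `t`
extends to `D2 t i C` -/
noncomputable def extEig (c : ℕ → O) (f : C →+ O)
    (hC : ∀ (o : O) (v : C), f ((MvPolynomial.C o : S O) • v) = o * f v)
    (hX : ∀ (s : ℕ ⊕ ℕ) (v : C), s ≠ inj t i → s ≠ inj t (i + 1) →
      f ((X s : S O) • v) = colT t c c s * f v)
    (h1 : ∀ v, f (e1 O t i • v) = (c i + c (i + 1)) * f v)
    (h2 : ∀ v, f (e2 O t i • v) = (c i * c (i + 1)) * f v) :
    D2 t i C →ₛₗ[evT t c c] O :=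
  mkEig (colT t c c)
    { toFun := fun z => f z.a + c i * f z.b
      map_zero' := by simp
      map_add' := fun z w => by simp only [D2.add_a, D2.add_b, map_add]; ring }
    (fun o v => by
      simp only [AddMonoidHom.coe_mk, ZeroHom.coe_mk, D2.C_smul_a, D2.C_smul_b, hC]; ring)
    (fun s v => by
      simp only [AddMonoidHom.coe_mk, ZeroHom.coe_mk]
      by_cases hs : s = inj t i
      · subst hs
        rw [D2.X_smul_i_a, D2.X_smul_i_b, map_add, h1, h2, colT_inj]
        (rw [← sub_eq_zero]; ring_nf <;> simp only [two0, three1, four0, five1, six0, seven1,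
          eight0, mul_zero, zero_mul, add_zero, zero_add, neg_zero, sub_zero, sub_self, mul_one])
      · by_cases hs' : s = inj t (i + 1)
        · subst hs'
          rw [D2.X_smul_succ_a, D2.X_smul_succ_b, map_add, h1, h2, colT_inj]
          (rw [← sub_eq_zero]; ring_nf <;> simp only [two0, three1, four0, five1, six0, seven1,
          eight0, mul_zero, zero_mul, add_zero, zero_add, neg_zero, sub_zero, sub_self, mul_one])
        · rw [D2.X_smul_a_of_ne s hs hs', D2.X_smul_b_of_ne s hs hs', hX s _ hs hs',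
            hX s _ hs hs']
          ring)

theorem extEig_apply (c : ℕ → O) (f : C →+ O) (hC) (hX) (h1) (h2) (z : D2 t i C) :
    extEig (t := t) (i := i) c f hC hX h1 h2 z = f z.a + c i * f z.b := rfl

/-- the first component of an eigen functional on `D2 t i C` -/
noncomputable def resEig (c : ℕ → O) (ψ : D2 t i C →ₛₗ[ev c] O) : C →+ O where
  toFun v := ψ ⟨v, 0⟩
  map_zero' := by
    have : (⟨0, 0⟩ : D2 t i C) = 0 := rfl
    rw [this, map_zero]
  map_add' v w := by
    have : (⟨v + w, 0⟩ : D2 t i C) = ⟨v, 0⟩ + ⟨w, 0⟩ := by ext <;> simp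
    rw [this, map_add]

theorem resEig_C (c : ℕ → O) (ψ : D2 t i C →ₛₗ[ev c] O) (o : O) (v : C) :
    resEig c ψ ((MvPolynomial.C o : S O) • v) = o * resEig c ψ v := by
  change ψ ⟨_, _⟩ = o * ψ ⟨_, _⟩
  have : (⟨(MvPolynomial.C o : S O) • v, 0⟩ : D2 t i C) = (MvPolynomial.C o : S O) • ⟨v, 0⟩ := by
    ext <;> simp
  rw [this, map_smulₛₗ]; simp

theorem resEig_X (c : ℕ → O) (ψ : D2 t i C →ₛₗ[ev c] O) (s : ℕ ⊕ ℕ) (v : C)
    (h : s ≠ inj t i) (h' : s ≠ inj t (i + 1)) :
    resEig c ψ ((X s : S O) • v) = colT t c c s * resEig c ψ v := by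
  change ψ ⟨_, _⟩ = _ * ψ ⟨_, _⟩
  have : (⟨(X s : S O) • v, 0⟩ : D2 t i C) = (X s : S O) • ⟨v, 0⟩ := by
    ext
    · rw [D2.X_smul_a_of_ne s h h']
    · rw [D2.X_smul_b_of_ne s h h']; simp
  have hev : ev c (X s) = colT t c c s := by rw [← evT_self t c, evT_X]
  rw [this, map_smulₛₗ, hev, smul_eq_mul]

theorem psi_zero_b (c : ℕ → O) (ψ : D2 t i C →ₛₗ[ev c] O) (v : C) :
    ψ ⟨0, v⟩ = c i * resEig c ψ v := by
  have : (⟨0, v⟩ : D2 t i C) = (X (inj t i) : S O) • ⟨v, 0⟩ := by
    ext
    · rw [D2.X_smul_i_a]; simp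
    · rw [D2.X_smul_i_b]; simp
  rw [this, map_smulₛₗ, ev_inj, smul_eq_mul]; rfl

theorem psi_eq (c : ℕ → O) (ψ : D2 t i C →ₛₗ[ev c] O) (z : D2 t i C) :
    ψ z = resEig c ψ z.a + c i * resEig c ψ z.b := by
  have : z = ⟨z.a, 0⟩ + ⟨0, z.b⟩ := by ext <;> simp
  conv_lhs => rw [this, map_add, psi_zero_b]
  rfl

theorem resEig_e1 (c : ℕ → O) (ψ : D2 t i C →ₛₗ[ev c] O) (v : C) :
    resEig c ψ (e1 O t i • v) = (c i + c (i + 1)) * resEig c ψ v := by
  have h := map_smulₛₗ ψ (X (inj t (i + 1)) : S O) (⟨v, 0⟩ : D2 t i C)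
  rw [ev_inj, smul_eq_mul, psi_eq c ψ ((X (inj t (i + 1)) : S O) • _), D2.X_smul_succ_a,
    D2.X_smul_succ_b, psi_eq c ψ ⟨v, 0⟩] at h
  simp only [smul_zero, add_zero, map_zero, mul_zero] at h
  have h2 : (2 : O) = 0 := two0 O
  linear_combination h + (-(c i) * resEig c ψ v) * h2

theorem resEig_e2 (c : ℕ → O) (ψ : D2 t i C →ₛₗ[ev c] O) (v : C) :
    resEig c ψ (e2 O t i • v) = (c i * c (i + 1)) * resEig c ψ v := by
  have h := map_smulₛₗ ψ (X (inj t i) : S O) (⟨0, v⟩ : D2 t i C)
  rw [ev_inj, smul_eq_mul, psi_eq c ψ ((X (inj t i) : S O) • _), D2.X_smul_i_a,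
    D2.X_smul_i_b, psi_eq c ψ ⟨0, v⟩] at h
  simp only [zero_add, map_zero, resEig_e1] at h
  have h2 : (2 : O) = 0 := two0 O
  linear_combination h + (-(c i) * c (i + 1) * resEig c ψ v) * h2

end

/-! ## Hochschild elements of `D2 t i C` -/

/-- the commutant of the symmetric polynomials in `X_i, X_{i+1}` -/
def HS (i : ℕ) (C : Type) [AddCommGroup C] [Module (S O) C] : Set C :=
  {b | (∀ j, j ≠ i → j ≠ i + 1 → xv O j • b = yv O j • b) ∧
    e1 O false i • b = e1 O true i • b ∧ e2 O false i • b = e2 O true i • b}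

section
variable {t : Bool} {i : ℕ} {C : Type} [AddCommGroup C] [Module (S O) C]

theorem HS_comm {b : C} (hb : b ∈ HS (O := O) i C) (j : ℕ) (h : j ≠ i) (h' : j ≠ i + 1) :
    (X (inj (!t) j) : S O) • b = (X (inj t j) : S O) • b := by
  cases t
  · exact (hb.1 j h h').symm
  · exact hb.1 j h h'

theorem HS_e1 {b : C} (hb : b ∈ HS (O := O) i C) : e1 O (!t) i • b = e1 O t i • b := by
  cases t
  · exact hb.2.1.symm
  · exact hb.2.1

theorem HS_e2 {b : C} (hb : b ∈ HS (O := O) i C) : e2 O (!t) i • b = e2 O t i • b := by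
  cases t
  · exact hb.2.2.symm
  · exact hb.2.2

/-- `HH` on a side-free form -/
theorem mem_HH_side {D : Type} [AddCommGroup D] [Module (S O) D] (t : Bool) {z : D} :
    z ∈ HH O D ↔ ∀ j, (X (inj (!t) j) : S O) • z = (X (inj t j) : S O) • z := by
  cases t
  · exact ⟨fun h j => (h j).symm, fun h j => (h j).symm⟩
  · exact Iff.rfl

theorem inj_ne_not (t : Bool) (j k : ℕ) : inj (!t) j ≠ inj t k := by cases t <;> simp

theorem inj_ne {t : Bool} {j k : ℕ} (h : j ≠ k) : inj t j ≠ inj t k :=
  fun e => h (inj_injective t e)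

theorem mem_HH_D2 {z : D2 t i C} :
    z ∈ HH O (D2 t i C) ↔ z.b ∈ HS (O := O) i C ∧ z.a = (X (inj (!t) (i + 1)) : S O) • z.b := by
  rw [mem_HH_side t]
  constructor
  · intro h
    have hne : ∀ j, j ≠ i → j ≠ i + 1 →
        (X (inj (!t) j) : S O) • z.b = (X (inj t j) : S O) • z.b := by
      intro j h1 h2
      have := congrArg D2.b (h j)
      rwa [D2.X_smul_b_of_ne _ (inj_ne_not t j i) (inj_ne_not t j (i + 1)),
        D2.X_smul_b_of_ne _ (inj_ne h1) (inj_ne h2)] at this
    have hia := congrArg D2.a (h i)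
    have hib := congrArg D2.b (h i)
    have hsa := congrArg D2.a (h (i + 1))
    have hsb := congrArg D2.b (h (i + 1))
    rw [D2.X_smul_a_of_ne _ (inj_ne_not t i i) (inj_ne_not t i (i + 1)), D2.X_smul_i_a] at hia
    rw [D2.X_smul_b_of_ne _ (inj_ne_not t i i) (inj_ne_not t i (i + 1)), D2.X_smul_i_b] at hib
    rw [D2.X_smul_b_of_ne _ (inj_ne_not t (i + 1) i) (inj_ne_not t (i + 1) (i + 1)),
      D2.X_smul_succ_b] at hsb
    have he1 : e1 O (!t) i • z.b = e1 O t i • z.b := by
      rw [e1_def (t := !t), add_smul, hib, hsb]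
      (match_scalars <;> (rw [← sub_eq_zero]; ring_nf <;> simp only [two0, three1, four0, five1, six0, seven1,
          eight0, mul_zero, zero_mul, add_zero, zero_add, neg_zero, sub_zero, sub_self, mul_one]))
    have he2 : e2 O (!t) i • z.b = e2 O t i • z.b := by
      rw [e2_def (t := !t), mul_smul, hsb, hia]
    refine ⟨⟨fun j h1 h2 => ?_, ?_, ?_⟩, hsb.symm⟩
    · cases t
      · exact (hne j h1 h2).symm
      · exact hne j h1 h2
    · cases t
      · exact he1.symm
      · exact he1
    · cases t
      · exact he2.symm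
      · exact he2
  · rintro ⟨hb, ha⟩ j
    have he1 := HS_e1 (t := t) hb
    have he2 := HS_e2 (t := t) hb
    by_cases h1 : j = i
    · subst h1
      ext
      · rw [D2.X_smul_a_of_ne _ (inj_ne_not t j j) (inj_ne_not t j (j + 1)), D2.X_smul_i_a, ha,
          ← he2, e2_def, mul_smul]
      · rw [D2.X_smul_b_of_ne _ (inj_ne_not t j j) (inj_ne_not t j (j + 1)), D2.X_smul_i_b, ha,
          ← he1, e1_def]
        (match_scalars <;> (rw [← sub_eq_zero]; ring_nf <;> simp only [two0, three1, four0, five1, six0, seven1,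
          eight0, mul_zero, zero_mul, add_zero, zero_add, neg_zero, sub_zero, sub_self, mul_one]))
    · by_cases h2 : j = i + 1
      · subst h2
        ext
        · rw [D2.X_smul_a_of_ne _ (inj_ne_not t _ _) (inj_ne_not t _ _), D2.X_smul_succ_a, ha,
            ← he2, smul_comm (e1 O t i), ← he1, e1_def, e2_def]
          (match_scalars <;> (rw [← sub_eq_zero]; ring_nf <;> simp only [two0, three1, four0, five1, six0, seven1,
          eight0, mul_zero, zero_mul, add_zero, zero_add, neg_zero, sub_zero, sub_self, mul_one]))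
        · rw [D2.X_smul_b_of_ne _ (inj_ne_not t _ _) (inj_ne_not t _ _), D2.X_smul_succ_b, ha]
      · have hc := HS_comm (t := t) hb j h1 h2
        ext
        · rw [D2.X_smul_a_of_ne _ (inj_ne_not t j i) (inj_ne_not t j (i + 1)),
            D2.X_smul_a_of_ne _ (inj_ne h1) (inj_ne h2), ha, smul_comm, hc, smul_comm]
        · rw [D2.X_smul_b_of_ne _ (inj_ne_not t j i) (inj_ne_not t j (i + 1)),
            D2.X_smul_b_of_ne _ (inj_ne h1) (inj_ne h2), hc]

end

/-! ## Negligible Hochschild elements of `D2 t i C` -/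

section
variable [IsDomain O] {t : Bool} {i : ℕ} {C : Type} [AddCommGroup C] [Module (S O) C]

/-- eigen functional for two colourings, restricted to an additive map with the properties needed
for `extEig` -/
theorem neg_D2_iff (P : Pot O) (b : C) :
    (⟨(X (inj (!t) (i + 1)) : S O) • b, b⟩ : D2 t i C) ∈ NN P (D2 t i C) ↔
      ∀ c : ℕ → O, P.IsCol c → c i ≠ c (i + 1) →
        (∀ ψ : C →ₛₗ[evT t c c] O, ψ b = 0) ∧ (∀ ψ : C →ₛₗ[evT t c (sw i c)] O, ψ b = 0) := by
  have h2 : (2 : O) = 0 := two0 O
  constructor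
  · intro h c hc hne
    have key : ∀ (c' : ℕ → O), (c' = c ∨ c' = sw i c) → ∀ ψ : C →ₛₗ[evT t c c'] O, ψ b = 0 := by
      intro c' hc' ψ
      have hsum : c' i + c' (i + 1) = c i + c (i + 1) := by
        rcases hc' with rfl | rfl
        · rfl
        · rw [sw_i, sw_succ, add_comm]
      have hprod : c' i * c' (i + 1) = c i * c (i + 1) := by
        rcases hc' with rfl | rfl
        · rfl
        · rw [sw_i, sw_succ, mul_comm]
      have hoth : ∀ j, j ≠ i → j ≠ i + 1 → c' j = c j := by
        intro j h1 h2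
        rcases hc' with rfl | rfl
        · rfl
        · exact sw_ne i c h1 h2
      let Ψ : D2 t i C →ₛₗ[evT t c c] O := extEig (t := t) (i := i) c
        ψ.toAddMonoidHom
        (fun o v => by
          change ψ _ = o * ψ _
          rw [map_smulₛₗ]; simp)
        (fun s v h1 h2 => by
          change ψ _ = _ * ψ _
          rw [map_smulₛₗ, evT_X, smul_eq_mul]
          congr 1
          rcases s with j | j
          · cases t
            · change c' j = c j
              exact hoth j (fun e => h1 (by rw [e]; rfl)) (fun e => h2 (by rw [e]; rfl))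
            · rfl
          · cases t
            · rfl
            · change c' j = c j
              exact hoth j (fun e => h1 (by rw [e]; rfl)) (fun e => h2 (by rw [e]; rfl)))
        (fun v => by
          change ψ _ = _ * ψ _
          rw [map_smulₛₗ, e1_def, map_add, evT_X, evT_X, colT_inj, colT_inj, hsum, smul_eq_mul])
        (fun v => by
          change ψ _ = _ * ψ _
          rw [map_smulₛₗ, e2_def, map_mul, evT_X, evT_X, colT_inj, colT_inj, hprod, smul_eq_mul])
      have h0 := (mem_NN_T t).1 h c hc Ψ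
      have h1 : ψ ((X (inj (!t) (i + 1)) : S O) • b) + c i * ψ b = 0 := h0
      rw [map_smulₛₗ, evT_X, colT_inj_not, smul_eq_mul, ← add_mul] at h1
      rcases mul_eq_zero.1 h1 with h3 | h3
      · exact absurd (by linear_combination h3 - c (i + 1) * h2) hne
      · exact h3
    exact ⟨key c (Or.inl rfl), key (sw i c) (Or.inr rfl)⟩
  · intro h c hc ψ
    rw [psi_eq]
    set f := resEig c ψ with hf
    have hleft : f ((X (inj (!t) (i + 1)) : S O) • b) = c (i + 1) * f b := by
      rw [hf, resEig_X c ψ _ b (inj_ne_not t _ _) (inj_ne_not t _ _), colT_inj_not]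
    change f ((X (inj (!t) (i + 1)) : S O) • b) + c i * f b = 0
    rw [hleft, ← add_mul]
    by_cases hne : c i = c (i + 1)
    · rw [hne]; linear_combination (c (i + 1) * f b) * h2
    · obtain ⟨hA, hB⟩ := h c hc hne
      -- the two functionals
      have hquad : ∀ v : C, (X (inj t i) : S O) • (X (inj t i) : S O) • v =
          e1 O t i • (X (inj t i) : S O) • v + e2 O t i • v := by
        intro v; rw [e1_def, e2_def]; (match_scalars <;> (rw [← sub_eq_zero]; ring_nf <;> simp only [two0, three1, four0, five1, six0, seven1,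
          eight0, mul_zero, zero_mul, add_zero, zero_add, neg_zero, sub_zero, sub_self, mul_one]))
      have hsucc : ∀ v : C, (X (inj t (i + 1)) : S O) • v =
          e1 O t i • v + (X (inj t i) : S O) • v := by
        intro v; rw [e1_def]; (match_scalars <;> (rw [← sub_eq_zero]; ring_nf <;> simp only [two0, three1, four0, five1, six0, seven1,
          eight0, mul_zero, zero_mul, add_zero, zero_add, neg_zero, sub_zero, sub_self, mul_one]))
      have mk : ∀ (c' : ℕ → O), (c' i + c' (i + 1) = c i + c (i + 1)) →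
          (c' i * c' (i + 1) = c i * c (i + 1)) →
          (∀ j, j ≠ i → j ≠ i + 1 → c' j = c j) →
          ∃ Φ : C →ₛₗ[evT t c c'] O, ∀ v, Φ v = f ((X (inj t i) : S O) • v) + c' (i + 1) * f v := by
        intro c' hs hp ho
        refine ⟨mkEig (colT t c c')
          { toFun := fun v => f ((X (inj t i) : S O) • v) + c' (i + 1) * f v
            map_zero' := by simp
            map_add' := fun v w => by simp only [smul_add, map_add]; ring }
          (fun o v => ?_) (fun s v => ?_), fun v => rfl⟩
        · simp only [AddMonoidHom.coe_mk, ZeroHom.coe_mk]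
          rw [smul_comm, hf, resEig_C, resEig_C]; ring
        · simp only [AddMonoidHom.coe_mk, ZeroHom.coe_mk]
          by_cases h1 : s = inj t i
          · subst h1
            rw [hquad, map_add, hf, resEig_e1, resEig_e2, ← hf, colT_inj, ← hs, ← hp]
            linear_combination (c' (i + 1) * f ((X (inj t i) : S O) • v)) * h2
          · by_cases h3 : s = inj t (i + 1)
            · subst h3
              rw [smul_comm, hsucc, hsucc, map_add, map_add, hquad, map_add, hf, resEig_e1,
                resEig_e2, resEig_e1, ← hf, colT_inj, ← hs, ← hp]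
              linear_combination ((c' i + c' (i + 1)) * f ((X (inj t i) : S O) • v) +
                c' i * c' (i + 1) * f v) * h2
            · have hcs : colT t c c s = colT t c c' s := by
                rcases s with j | j
                · cases t
                  · change c j = c' j
                    exact (ho j (fun e => h1 (by rw [e]; rfl)) (fun e => h3 (by rw [e]; rfl))).symm
                  · rfl
                · cases t
                  · rfl
                  · change c j = c' j
                    exact (ho j (fun e => h1 (by rw [e]; rfl)) (fun e => h3 (by rw [e]; rfl))).symm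
              rw [smul_comm, hf, resEig_X c ψ s _ h1 h3, resEig_X c ψ s _ h1 h3, hcs]
              ring
      obtain ⟨Φ1, h1⟩ := mk c rfl rfl (fun _ _ _ => rfl)
      obtain ⟨Φ2, h3⟩ := mk (sw i c) (by simp [add_comm]) (by simp [mul_comm])
        (fun j a b => sw_ne i c a b)
      have e1 := h1 b
      have e2 := h3 b
      rw [hA Φ1] at e1
      rw [hB Φ2] at e2
      rw [sw_succ] at e2
      linear_combination (-1 : O) * e1 - e2 + (0 : O) * h2 - (f ((X (inj t i) : S O) • b)) * h2

end

/-! ## Rotation -/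

section
variable [IsDomain O] {i : ℕ} {C D : Type} [AddCommGroup C] [Module (S O) C]
  [AddCommGroup D] [Module (S O) D]

/-- colourings stay colourings after exchange -/
theorem Pot.IsCol.sw {P : Pot O} {c : ℕ → O} (hc : P.IsCol c) : P.IsCol (sw i c) :=
  fun j => hc _

theorem evT_flip (t : Bool) (c c' : ℕ → O) : evT t c c' = evT (!t) c' c := by
  have : colT t c c' = colT (!t) c' c := by
    funext s; rcases s with j | j <;> cases t <;> simp [colT]
  rw [evT, evT, this]

theorem neg_rot_aux (P : Pot O) (t : Bool) (b : C)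
    (h : (⟨(X (inj (!t) (i + 1)) : S O) • b, b⟩ : D2 t i C) ∈ NN P (D2 t i C)) :
    (⟨(X (inj t (i + 1)) : S O) • b, b⟩ : D2 (!t) i C) ∈ NN P (D2 (!t) i C) := by
  have h' := (neg_D2_iff P b).1 h
  have goal : (⟨(X (inj (!(!t)) (i + 1)) : S O) • b, b⟩ : D2 (!t) i C) ∈ NN P (D2 (!t) i C) := by
    rw [neg_D2_iff P b]
    intro c hc hne
    constructor
    · have := (h' c hc hne).1
      rw [evT_self] at this ⊢
      exact this
    · have hne' : sw i c i ≠ sw i c (i + 1) := by
        rw [sw_i, sw_succ]; exact fun e => hne e.symm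
      have := (h' (sw i c) hc.sw hne').2
      rw [sw_sw] at this
      rw [evT_flip, Bool.not_not]
      exact this
  rwa [Bool.not_not] at goal

/-- rotation: the element with second component `b` is negligible on one side iff on the other -/
theorem neg_rot (P : Pot O) (b : C) :
    (⟨xv O (i + 1) • b, b⟩ : D2 true i C) ∈ NN P (D2 true i C) ↔
      (⟨yv O (i + 1) • b, b⟩ : D2 false i C) ∈ NN P (D2 false i C) :=
  ⟨fun h => neg_rot_aux P true b h, fun h => neg_rot_aux P false b h⟩

/-- rotation of negligible maps -/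
theorem negMap_rot (P : Pot O) (g : C →ₗ[S O] D) :
    NegMap P (D2.map (t := true) (i := i) g) ↔ NegMap P (D2.map (t := false) (i := i) g) := by
  constructor
  · intro h z hz
    obtain ⟨hb, ha⟩ := mem_HH_D2.1 hz
    have hz' : (⟨xv O (i + 1) • z.b, z.b⟩ : D2 true i C) ∈ HH O (D2 true i C) :=
      mem_HH_D2.2 ⟨hb, rfl⟩
    have h1 := h _ hz'
    have e1 : D2.map (t := true) (i := i) g ⟨xv O (i + 1) • z.b, z.b⟩ =
        ⟨xv O (i + 1) • g z.b, g z.b⟩ := by ext <;> simp
    have e2 : D2.map (t := false) (i := i) g z = ⟨yv O (i + 1) • g z.b, g z.b⟩ := by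
      ext
      · rw [D2.map_a, ha, map_smul]; rfl
      · simp
    rw [e1, neg_rot] at h1
    rw [e2]; exact h1
  · intro h z hz
    obtain ⟨hb, ha⟩ := mem_HH_D2.1 hz
    have hz' : (⟨yv O (i + 1) • z.b, z.b⟩ : D2 false i C) ∈ HH O (D2 false i C) :=
      mem_HH_D2.2 ⟨hb, rfl⟩
    have h1 := h _ hz'
    have e1 : D2.map (t := false) (i := i) g ⟨yv O (i + 1) • z.b, z.b⟩ =
        ⟨yv O (i + 1) • g z.b, g z.b⟩ := by ext <;> simp
    have e2 : D2.map (t := true) (i := i) g z = ⟨xv O (i + 1) • g z.b, g z.b⟩ := by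
      ext
      · rw [D2.map_a, ha, map_smul]; rfl
      · simp
    rw [e1, ← neg_rot] at h1
    rw [e2]; exact h1

end

end CQ
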