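import Pool.Agent.CQ.Gen

/-!
# Changing the strands of a word

Additive maps between `Fw w C` and `Fw (sh n w) D` induced by additive maps `C → D` which are
compatible with a map of strands.
-/

set_option autoImplicit false
set_option linter.unusedSectionVars false
set_option linter.unusedSimpArgs false

namespace CQ.K

open MvPolynomial CQ CQ.G CQ.Gen
open Pool.Agent.CQ (sh)

variable {O : Type} [CommRing O] [CharP O 2]

/-! ## strand maps -/

/-- image of a variable on side `t` -/
noncomputable def tv (t : Bool) : ℕ ⊕ O → S O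
  | Sum.inl j => X (inj t j)
  | Sum.inr o => MvPolynomial.C o

/-- the additive map `f` is compatible with the strand map `θ` -/
structure SL (θ : ℕ → ℕ ⊕ O) {C D : Type} [AddCommGroup C] [Module (S O) C] [AddCommGroup D]
    [Module (S O) D] (f : C →+ D) : Prop where
  c : ∀ (o : O) (v : C), f ((MvPolynomial.C o : S O) • v) = (MvPolynomial.C o : S O) • f v
  x : ∀ (j : ℕ) (v : C), f (xv O j • v) = tv false (θ j) • f v
  y : ∀ (j : ℕ) (v : C), f (yv O j • v) = tv true (θ j) • f v

/-- the colouring seen through a strand map -/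
def col (θ : ℕ → ℕ ⊕ O) (c : ℕ → O) (j : ℕ) : O := Sum.elim c id (θ j)

theorem ev_tv (t : Bool) (c : ℕ → O) (x : ℕ ⊕ O) : ev c (tv t x) = Sum.elim c id x := by
  rcases x with j | o
  · exact ev_inj c t j
  · exact ev_C c o

theorem col_inl {θ : ℕ → ℕ ⊕ O} {c : ℕ → O} {j j' : ℕ} (h : θ j = Sum.inl j') :
    col θ c j = c j' := by simp [col, h]

theorem col_inr {θ : ℕ → ℕ ⊕ O} {c : ℕ → O} {j : ℕ} {o : O} (h : θ j = Sum.inr o) :
    col θ c j = o := by simp [col, h]

/-- compatibility of `θ` with the move of a letter from `i` to `i'` -/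
structure Adm (θ : ℕ → ℕ ⊕ O) (i i' : ℕ) : Prop where
  a : θ i = Sum.inl i'
  b : θ (i + 1) = Sum.inl (i' + 1)
  o : ∀ j, j ≠ i → j ≠ i + 1 → θ j ≠ Sum.inl i' ∧ θ j ≠ Sum.inl (i' + 1)

section D2
variable {C D E : Type} [AddCommGroup C] [AddCommGroup D] [AddCommGroup E]

/-- additive map between letter modules at different positions -/
def m2 (i i' : ℕ) (f : C →+ D) : D2 true i C →+ D2 true i' D where
  toFun z := ⟨f z.a, f z.b⟩
  map_zero' := by ext <;> simp
  map_add' z w := by ext <;> simp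

@[simp] theorem m2_a (i i' : ℕ) (f : C →+ D) (z : D2 true i C) : (m2 i i' f z).a = f z.a := rfl
@[simp] theorem m2_b (i i' : ℕ) (f : C →+ D) (z : D2 true i C) : (m2 i i' f z).b = f z.b := rfl

theorem m2_bijective (i i' : ℕ) {f : C →+ D} (hf : Function.Bijective f) :
    Function.Bijective (m2 i i' f) := by
  constructor
  · intro z w h
    exact D2.ext (hf.1 (congrArg D2.a h)) (hf.1 (congrArg D2.b h))
  · intro z
    obtain ⟨a, ha⟩ := hf.2 z.a
    obtain ⟨b, hb⟩ := hf.2 z.b
    exact ⟨⟨a, b⟩, D2.ext ha hb⟩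

variable [Module (S O) C] [Module (S O) D]

/-- a variable or constant which is not moved by the letter acts coordinatewise -/
theorem tv_smul_D2 {i : ℕ} (t : Bool) (x : ℕ ⊕ O)
    (h : t = true → x ≠ Sum.inl i ∧ x ≠ Sum.inl (i + 1)) (z : D2 true i C) :
    (tv t x • z).a = tv t x • z.a ∧ (tv t x • z).b = tv t x • z.b := by
  rcases x with j | o
  · have h1 : inj t j ≠ inj true i := by
      cases t
      · simp
      · have := (h rfl).1
        simp at this ⊢
        exact this
    have h2 : inj t j ≠ inj true (i + 1) := by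
      cases t
      · simp
      · have := (h rfl).2
        simp at this ⊢
        exact this
    exact ⟨D2.X_smul_a_of_ne _ h1 h2 z, D2.X_smul_b_of_ne _ h1 h2 z⟩
  · exact ⟨D2.C_smul_a o z, D2.C_smul_b o z⟩

theorem SL.e1 {θ : ℕ → ℕ ⊕ O} {f : C →+ D} (hf : SL θ f) {i i' : ℕ} (h : Adm θ i i') (v : C) :
    f (e1 O true i • v) = e1 O true i' • f v := by
  simp only [e1_def, add_smul, map_add]
  rw [show (X (inj true i) : S O) = yv O i from rfl,
    show (X (inj true (i + 1)) : S O) = yv O (i + 1) from rfl, hf.y, hf.y, h.a, h.b]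
  rfl

theorem SL.e2 {θ : ℕ → ℕ ⊕ O} {f : C →+ D} (hf : SL θ f) {i i' : ℕ} (h : Adm θ i i') (v : C) :
    f (e2 O true i • v) = e2 O true i' • f v := by
  simp only [e2_def, mul_smul]
  rw [show (X (inj true i) : S O) = yv O i from rfl,
    show (X (inj true (i + 1)) : S O) = yv O (i + 1) from rfl, hf.y, hf.y, h.a, h.b]
  rfl

theorem SL.m2 {θ : ℕ → ℕ ⊕ O} {f : C →+ D} (hf : SL θ f) {i i' : ℕ} (h : Adm θ i i') :
    SL θ (m2 i i' f) := by
  refine ⟨fun o v => ?_, fun j v => ?_, fun j v => ?_⟩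
  · ext
    · rw [m2_a, D2.C_smul_a, D2.C_smul_a]; exact hf.c o v.a
    · rw [m2_b, D2.C_smul_b, D2.C_smul_b]; exact hf.c o v.b
  · have h1 : (Sum.inl j : ℕ ⊕ ℕ) ≠ inj true i := by simp
    have h2 : (Sum.inl j : ℕ ⊕ ℕ) ≠ inj true (i + 1) := by simp
    have h3 := tv_smul_D2 (i := i') false (θ j) (by simp) (K.m2 i i' f v)
    ext
    · rw [m2_a, D2.X_smul_a_of_ne _ h1 h2, h3.1]; exact hf.x j v.a
    · rw [m2_b, D2.X_smul_b_of_ne _ h1 h2, h3.2]; exact hf.x j v.b
  · by_cases h1 : j = i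
    · subst h1
      rw [h.a]
      change K.m2 j i' f ((X (inj true j) : S O) • v) =
        (X (inj true i') : S O) • K.m2 j i' f v
      ext
      · rw [m2_a, D2.X_smul_i_a, D2.X_smul_i_a, hf.e2 h]; rfl
      · rw [m2_b, D2.X_smul_i_b, D2.X_smul_i_b, map_add, hf.e1 h]; rfl
    · by_cases h2 : j = i + 1
      · subst h2
        rw [h.b]
        change K.m2 i i' f ((X (inj true (i + 1)) : S O) • v) =
          (X (inj true (i' + 1)) : S O) • K.m2 i i' f v
        ext
        · rw [m2_a, D2.X_smul_succ_a, D2.X_smul_succ_a, map_add, hf.e1 h, hf.e2 h]; rfl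
        · rw [m2_b, D2.X_smul_succ_b, D2.X_smul_succ_b]; rfl
      · have h3 : (Sum.inr j : ℕ ⊕ ℕ) ≠ inj true i := by simpa using h1
        have h4 : (Sum.inr j : ℕ ⊕ ℕ) ≠ inj true (i + 1) := by simpa using h2
        have h5 := tv_smul_D2 (i := i') true (θ j) (fun _ => h.o j h1 h2) (K.m2 i i' f v)
        ext
        · rw [m2_a, D2.X_smul_a_of_ne _ h3 h4, h5.1]; exact hf.y j v.a
        · rw [m2_b, D2.X_smul_b_of_ne _ h3 h4, h5.2]; exact hf.y j v.b

theorem m2_zip {θ : ℕ → ℕ ⊕ O} {f : C →+ D} (hf : SL θ f) {i i' : ℕ} (h : Adm θ i i') (v : C) :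
    m2 i i' f (zip O true i v) = zip O true i' (f v) := by
  ext
  · rw [m2_a, zip_a, zip_a]
    rw [show (X (inj true (i + 1)) : S O) = yv O (i + 1) from rfl, hf.y, h.b]
    rfl
  · rfl

theorem m2_unzip {θ : ℕ → ℕ ⊕ O} {f : C →+ D} (hf : SL θ f) {i i' : ℕ} (h : Adm θ i i')
    (z : D2 true i C) : f (unzip O true i z) = unzip O true i' (m2 i i' f z) := by
  rw [unzip_apply, unzip_apply, map_add, m2_a, m2_b]
  rw [show (X (inj true i) : S O) = yv O i from rfl, hf.y, h.a]
  rfl

end D2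

section F2

/-- additive map between crossing modules at different positions -/
noncomputable def f2 (i i' : ℕ) (p : Bool) {C D : DM O} (f : C.V →+ D.V) :
    (F2 true i p C).V →+ (F2 true i' p D).V := AddMonoidHom.prodMap f (m2 i i' f)

variable {C D : DM O} {θ : ℕ → ℕ ⊕ O} {f : C.V →+ D.V} {i i' : ℕ}

theorem SL.f2 (hf : SL θ f) (h : Adm θ i i') (p : Bool) : SL θ (f2 i i' p f) := by
  have h2 := hf.m2 h
  refine ⟨fun o v => ?_, fun j v => ?_, fun j v => ?_⟩
  · exact Prod.ext (hf.c o v.1) (h2.c o v.2)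
  · exact Prod.ext (hf.x j v.1) (h2.x j v.2)
  · exact Prod.ext (hf.y j v.1) (h2.y j v.2)

theorem f2_d (hf : SL θ f) (h : Adm θ i i') (p : Bool) (hd : ∀ v, f (C.d v) = D.d (f v))
    (v : (F2 true i p C).V) : f2 i i' p f ((F2 true i p C).d v) = (F2 true i' p D).d (f2 i i' p f v) := by
  have h1 : ∀ z : D2 true i C.V, m2 i i' f (D2.map C.d z) = D2.map D.d (m2 i i' f z) := by
    intro z
    exact D2.ext (hd z.a) (hd z.b)
  cases p
  · refine Prod.ext ?_ ?_
    · change f (C.d v.1 + unzip O true i v.2) = D.d (f v.1) + unzip O true i' (m2 i i' f v.2)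
      rw [map_add, hd, m2_unzip hf h]
    · exact h1 v.2
  · refine Prod.ext ?_ ?_
    · exact hd v.1
    · change m2 i i' f (zip O true i v.1 + D2.map C.d v.2) =
        zip O true i' (f v.1) + D2.map D.d (m2 i i' f v.2)
      rw [map_add, m2_zip hf h, h1]

theorem f2_ep (p : Bool) (he : ∀ v, D.ep (f v) = C.ep v) (v : (F2 true i p C).V) :
    (F2 true i' p D).ep (f2 i i' p f v) = (F2 true i p C).ep v := he v.1

theorem f2_bijective (p : Bool) (hf : Function.Bijective f) :
    Function.Bijective (f2 i i' p f) := by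
  have h2 := m2_bijective i i' hf
  constructor
  · intro z w h
    exact Prod.ext (hf.1 (congrArg Prod.fst h)) (h2.1 (congrArg Prod.snd h))
  · intro z
    obtain ⟨a, ha⟩ := hf.2 z.1
    obtain ⟨b, hb⟩ := h2.2 z.2
    exact ⟨(a, b), Prod.ext ha hb⟩

end F2

/-! ## shift up -/

/-- `Fw w C → Fw (sh n w) D` -/
noncomputable def up (n : ℕ) : (w : List (ℕ × Bool)) → {C D : DM O} → (C.V →+ D.V) →
    ((Fw w C).V →+ (Fw (sh n w) D).V)
  | [], _, _, f => f
  | a :: w, C, D, f => up n w (C := F2 true a.1 a.2 C) (D := F2 true (n + a.1) a.2 D)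
      (f2 a.1 (n + a.1) a.2 f)

/-- `Fw (sh n w) C → Fw w D` -/
noncomputable def dn (n : ℕ) : (w : List (ℕ × Bool)) → {C D : DM O} → (C.V →+ D.V) →
    ((Fw (sh n w) C).V →+ (Fw w D).V)
  | [], _, _, f => f
  | a :: w, C, D, f => dn n w (C := F2 true (n + a.1) a.2 C) (D := F2 true a.1 a.2 D)
      (f2 (n + a.1) a.1 a.2 f)

section up
variable {n : ℕ} {C D : DM O} {θ : ℕ → ℕ ⊕ O} {f : C.V →+ D.V}

theorem up_SL (w : List (ℕ × Bool)) (hf : SL θ f) (h : ∀ a ∈ w, Adm θ a.1 (n + a.1)) :
    SL θ (up n w f) := by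
  induction w generalizing C D with
  | nil => exact hf
  | cons a w ih =>
    exact ih (C := F2 true a.1 a.2 C) (D := F2 true (n + a.1) a.2 D)
      (hf.f2 (h a List.mem_cons_self) a.2) (fun b hb => h b (List.mem_cons_of_mem _ hb))

theorem up_d (w : List (ℕ × Bool)) (hf : SL θ f) (h : ∀ a ∈ w, Adm θ a.1 (n + a.1))
    (hd : ∀ v, f (C.d v) = D.d (f v)) (v : (Fw w C).V) :
    up n w f ((Fw w C).d v) = (Fw (sh n w) D).d (up n w f v) := by
  induction w generalizing C D with
  | nil => exact hd v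
  | cons a w ih =>
    exact ih (C := F2 true a.1 a.2 C) (D := F2 true (n + a.1) a.2 D)
      (hf.f2 (h a List.mem_cons_self) a.2) (fun b hb => h b (List.mem_cons_of_mem _ hb))
      (f2_d hf (h a List.mem_cons_self) a.2 hd) v

theorem up_ep (w : List (ℕ × Bool)) (he : ∀ v, D.ep (f v) = C.ep v) (v : (Fw w C).V) :
    (Fw (sh n w) D).ep (up n w f v) = (Fw w C).ep v := by
  induction w generalizing C D with
  | nil => exact he v
  | cons a w ih =>
    exact ih (C := F2 true a.1 a.2 C) (D := F2 true (n + a.1) a.2 D) (f2_ep a.2 he) v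

theorem up_bijective (w : List (ℕ × Bool)) (hf : Function.Bijective f) :
    Function.Bijective (up n w f) := by
  induction w generalizing C D with
  | nil => exact hf
  | cons a w ih =>
    exact ih (C := F2 true a.1 a.2 C) (D := F2 true (n + a.1) a.2 D) (f2_bijective a.2 hf)

/-- functoriality in the source -/
theorem up_map (w : List (ℕ × Bool)) {B : DM O} (g : B.V →ₗ[S O] C.V) (f' : B.V →+ D.V)
    (h : ∀ v, f' v = f (g v)) (v : (Fw w B).V) : up n w f' v = up n w f (Fw.map w g v) := by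
  induction w generalizing B C D with
  | nil => exact h v
  | cons a w ih =>
    refine ih (B := F2 true a.1 a.2 B) (C := F2 true a.1 a.2 C)
      (D := F2 true (n + a.1) a.2 D) (f := f2 a.1 (n + a.1) a.2 f) (F2.map true a.1 a.2 g)
      (f2 a.1 (n + a.1) a.2 f') ?_ v
    intro v
    exact Prod.ext (h v.1) (D2.ext (h v.2.a) (h v.2.b))

theorem up_add (w : List (ℕ × Bool)) (f g : C.V →+ D.V) (v : (Fw w C).V) :
    up n w (f + g) v = up n w f v + up n w g v := by
  induction w generalizing C D with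
  | nil => rfl
  | cons a w ih =>
    exact ih (C := F2 true a.1 a.2 C) (D := F2 true (n + a.1) a.2 D)
      (f2 a.1 (n + a.1) a.2 f) (f2 a.1 (n + a.1) a.2 g) v

theorem up_left (w : List (ℕ × Bool)) (f f' : C.V →+ D.V) (j : ℕ)
    (h : ∀ v, f' v = xv O j • f v) (z : (Fw w C).V) :
    up n w f' z = xv O j • up n w f z := by
  induction w generalizing C D with
  | nil => exact h z
  | cons a w ih =>
    refine ih (C := F2 true a.1 a.2 C) (D := F2 true (n + a.1) a.2 D)
      (f2 a.1 (n + a.1) a.2 f) (f2 a.1 (n + a.1) a.2 f') ?_ z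
    intro v
    refine Prod.ext (h v.1) ?_
    have h1 : (Sum.inl j : ℕ ⊕ ℕ) ≠ inj true (n + a.1) := by simp
    have h2 : (Sum.inl j : ℕ ⊕ ℕ) ≠ inj true (n + a.1 + 1) := by simp
    change m2 a.1 (n + a.1) f' v.2 = xv O j • m2 a.1 (n + a.1) f v.2
    ext
    · rw [D2.X_smul_a_of_ne _ h1 h2]; exact h v.2.a
    · rw [D2.X_smul_b_of_ne _ h1 h2]; exact h v.2.b

theorem up_const (w : List (ℕ × Bool)) (f f' : C.V →+ D.V) (o : O)
    (h : ∀ v, f' v = (MvPolynomial.C o : S O) • f v) (z : (Fw w C).V) :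
    up n w f' z = (MvPolynomial.C o : S O) • up n w f z := by
  induction w generalizing C D with
  | nil => exact h z
  | cons a w ih =>
    refine ih (C := F2 true a.1 a.2 C) (D := F2 true (n + a.1) a.2 D)
      (f2 a.1 (n + a.1) a.2 f) (f2 a.1 (n + a.1) a.2 f') ?_ z
    intro v
    refine Prod.ext (h v.1) ?_
    change m2 a.1 (n + a.1) f' v.2 = (MvPolynomial.C o : S O) • m2 a.1 (n + a.1) f v.2
    ext
    · rw [D2.C_smul_a]; exact h v.2.a
    · rw [D2.C_smul_b]; exact h v.2.b

theorem dn_SL (w : List (ℕ × Bool)) (hf : SL θ f) (h : ∀ a ∈ w, Adm θ (n + a.1) a.1) :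
    SL θ (dn n w f) := by
  induction w generalizing C D with
  | nil => exact hf
  | cons a w ih =>
    exact ih (C := F2 true (n + a.1) a.2 C) (D := F2 true a.1 a.2 D)
      (hf.f2 (h a List.mem_cons_self) a.2) (fun b hb => h b (List.mem_cons_of_mem _ hb))

/-- shifting up and down -/
theorem dn_up (w : List (ℕ × Bool)) (f' : D.V →+ C.V) (h : ∀ v, f' (f v) = v) (v : (Fw w C).V) :
    dn n w f' (up n w f v) = v := by
  induction w generalizing C D with
  | nil => exact h v
  | cons a w ih =>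
    refine ih (C := F2 true a.1 a.2 C) (D := F2 true (n + a.1) a.2 D)
      (f := f2 a.1 (n + a.1) a.2 f) (f2 (n + a.1) a.1 a.2 f') ?_ v
    intro v
    exact Prod.ext (h v.1) (D2.ext (h v.2.a) (h v.2.b))

end up

/-! ## Hochschild elements and functionals -/

section
variable {C D : Type} [AddCommGroup C] [Module (S O) C] [AddCommGroup D] [Module (S O) D]
  {θ : ℕ → ℕ ⊕ O} {f : C →+ D}

theorem SL.mem_HH (hf : SL θ f) (h : ∀ j', (∃ j, θ j = Sum.inl j') ∨ Un (O := O) j' D) {z : C}
    (hz : z ∈ HH O C) : f z ∈ HH O D := by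
  intro j'
  rcases h j' with ⟨j, hj⟩ | h
  · have h1 := hf.x j z
    have h2 := hf.y j z
    rw [hj] at h1 h2
    have h3 : xv O j' • f z = f (xv O j • z) := h1.symm
    have h4 : yv O j' • f z = f (yv O j • z) := h2.symm
    rw [h3, h4, hz j]
  · exact h _

/-- composition of a functional with a map which is compatible with a strand map -/
noncomputable def SL.pull (hf : SL θ f) {c : ℕ → O} (ψ : D →ₛₗ[ev c] O) :
    C →ₛₗ[ev (col θ c)] O :=
  mkSemi (col θ c) (ψ.toAddMonoidHom.comp f)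
    (fun o v => by
      change ψ (f _) = o * ψ (f v)
      rw [hf.c, map_smulₛₗ, ev_C]; rfl)
    (fun j v => by
      change ψ (f _) = _ * ψ (f v)
      rw [hf.x, map_smulₛₗ, ev_tv]; rfl)
    (fun j v => by
      change ψ (f _) = _ * ψ (f v)
      rw [hf.y, map_smulₛₗ, ev_tv]; rfl)

theorem SL.pull_apply (hf : SL θ f) {c : ℕ → O} (ψ : D →ₛₗ[ev c] O) (v : C) :
    hf.pull ψ v = ψ (f v) := rfl

theorem SL.mem_NN (hf : SL θ f) {P : Pot O} (h : ∀ j o, θ j = Sum.inr o → P.IsRoot o) {z : C}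
    (hz : z ∈ NN P C) : f z ∈ NN P D := by
  intro c hc ψ
  refine hz (col θ c) ?_ (hf.pull ψ)
  intro j
  rcases hj : θ j with j' | o
  · rw [col_inl hj]; exact hc j'
  · rw [col_inr hj]; exact h j o hj

end

/-! ## base maps -/

section base
variable (m s : ℕ) (θ : ℕ → ℕ ⊕ O)

/-- substitution of variables -/
noncomputable def ths (θ : ℕ → ℕ ⊕ O) : S O →+* S O :=
  MvPolynomial.eval₂Hom MvPolynomial.C
    (Sum.elim (fun j => tv false (θ j)) (fun j => tv true (θ j)))

theorem ths_C (o : O) : ths θ (MvPolynomial.C o) = MvPolynomial.C o := by simp [ths]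
theorem ths_x (j : ℕ) : ths θ (xv O j) = tv false (θ j) := by simp [ths]
theorem ths_y (j : ℕ) : ths θ (yv O j) = tv true (θ j) := by simp [ths]

theorem rho_tv (t : Bool) (x : ℕ ⊕ O) : rho O s (tv t x) = rho O s (tv true x) := by
  rcases x with j | o
  · cases t
    · simp [tv, rho, inj]
    · rfl
  · rfl

/-- `RS m → RS s` along `θ` -/
noncomputable def bm : RS O m →+* RS O s := (rho O s).comp ((ths θ).comp (ren O m))

theorem bm_C (o : O) : bm m s θ (MvPolynomial.C o) = MvPolynomial.C o := by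
  simp [bm, ren_C, ths_C, rho]

theorem bm_X (j : Fin m) : bm m s θ (X j) = rho O s (tv true (θ j)) := by
  simp only [bm, RingHom.comp_apply, ren_X, ths_y]

theorem bm_SL (h : ∀ j, m ≤ j → rho O s (tv true (θ j)) = 0) :
    SL θ (C := RS O m) (D := RS O s) (bm m s θ).toAddMonoidHom := by
  have key : ∀ (t : Bool) (j : ℕ) (v : RS O m),
      bm m s θ ((X (inj t j) : S O) • v) = tv t (θ j) • bm m s θ v := by
    intro t j v
    rw [RS_smul_def, RS_smul_def, map_mul, rho_tv]
    congr 1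
    by_cases hj : j < m
    · have e : rho O m (X (inj t j)) = X ⟨j, hj⟩ := by cases t <;> simp [rho, inj, hj]
      rw [e, bm_X]
    · have e : rho O m (X (inj t j)) = 0 := by cases t <;> simp [rho, inj, hj]
      rw [e, map_zero, h j (by omega)]
  refine ⟨fun o v => ?_, fun j v => key false j v, fun j v => key true j v⟩
  change bm m s θ ((MvPolynomial.C o : S O) • v) = (MvPolynomial.C o : S O) • bm m s θ v
  rw [RS_smul_def, RS_smul_def, map_mul]
  congr 1
  have e : rho O m (MvPolynomial.C o) = MvPolynomial.C o := by simp [rho]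
  have e' : rho O s (MvPolynomial.C o) = MvPolynomial.C o := by simp [rho]
  rw [e, e', bm_C]

end base

end CQ.K
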