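import Pool.Agent.CQ.TowJ
import Pool.Agent.CQ.Ctx

/-!
# Block H2: the negative tower step
-/

set_option autoImplicit false
set_option linter.unusedSectionVars false
set_option linter.unusedSimpArgs false
set_option linter.style.longLine false

namespace CQ

open MvPolynomial

variable {O : Type} [CommRing O] [CharP O 2]

/-! ## inclusions of the vertices of the cube -/

/-- the resolved vertex -/
noncomputable def inc0 (t : Bool) (i : ℕ) (pos : Bool) (D : DM O) : D.V →ₗ[S O] (F2 t i pos D).V :=
  LinearMap.inl (S O) D.V (D2 t i D.V)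

/-- the dumbbell vertex -/
noncomputable def inc1 (t : Bool) (i : ℕ) (pos : Bool) (D : DM O) :
    D2 t i D.V →ₗ[S O] (F2 t i pos D).V :=
  LinearMap.inr (S O) D.V (D2 t i D.V)

section inc
variable (t : Bool) (i : ℕ) (D : DM O)

theorem d_inc0_neg (v : D.V) : (F2 t i false D).d (inc0 t i false D v) = inc0 t i false D (D.d v) := by
  refine Prod.ext ?_ ?_
  · change D.d v + unzip O t i 0 = D.d v
    rw [map_zero, add_zero]
  · change D2.map D.d 0 = (0 : D2 t i D.V)
    rw [map_zero]

theorem d_inc1_neg (y : D2 t i D.V) : (F2 t i false D).d (inc1 t i false D y) =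
    inc0 t i false D (unzip O t i y) + inc1 t i false D (D2.map D.d y) := by
  refine Prod.ext ?_ ?_
  · change D.d 0 + unzip O t i y = unzip O t i y + 0
    rw [map_zero, add_zero, zero_add]
  · change D2.map D.d y = 0 + D2.map D.d y
    rw [zero_add]

theorem d_inc0_pos (v : D.V) : (F2 t i true D).d (inc0 t i true D v) =
    inc0 t i true D (D.d v) + inc1 t i true D (zip O t i v) := by
  refine Prod.ext ?_ ?_
  · change D.d v = D.d v + 0
    rw [add_zero]
  · change zip O t i v + D2.map D.d 0 = 0 + zip O t i v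
    rw [map_zero, add_zero, zero_add]

theorem d_inc1_pos (y : D2 t i D.V) : (F2 t i true D).d (inc1 t i true D y) =
    inc1 t i true D (D2.map D.d y) := by
  refine Prod.ext ?_ ?_
  · change D.d 0 = (0 : D.V)
    rw [map_zero]
  · change zip O t i (0 : D.V) + D2.map D.d y = D2.map D.d y
    rw [map_zero, zero_add]

end inc

section mapcomp
variable {t : Bool} {i : ℕ} {C D E : Type} [AddCommGroup C] [Module (S O) C]
  [AddCommGroup D] [Module (S O) D] [AddCommGroup E] [Module (S O) E]

theorem map_map (f : C →ₗ[S O] D) (g : D →ₗ[S O] E) (z : D2 t i C) :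
    D2.map g (D2.map f z) = D2.map (g ∘ₗ f) z := rfl

theorem map_ext {f g : C →ₗ[S O] D} (h : ∀ v, f v = g v) (z : D2 t i C) :
    D2.map f z = D2.map g z := by
  refine D2.ext ?_ ?_
  · exact h _
  · exact h _

theorem map_addf (f g : C →ₗ[S O] D) (z : D2 t i C) :
    D2.map (f + g) z = D2.map f z + D2.map g z := rfl

end mapcomp

namespace SN

/-- the three letters -/
noncomputable abbrev T3 (i : ℕ) (C : DM O) : DM O :=
  F2 true i true (F2 true (i + 1) false (F2 true i false C))

section
variable (i : ℕ) (C : DM O)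

noncomputable def j000 : C.V →ₗ[S O] (T3 i C).V :=
  inc0 true i true _ ∘ₗ inc0 true (i + 1) false _ ∘ₗ inc0 true i false C
noncomputable def j100 : D2 true i C.V →ₗ[S O] (T3 i C).V :=
  inc0 true i true _ ∘ₗ inc0 true (i + 1) false _ ∘ₗ inc1 true i false C
noncomputable def j010 : D2 true (i + 1) C.V →ₗ[S O] (T3 i C).V :=
  inc0 true i true _ ∘ₗ inc1 true (i + 1) false _ ∘ₗ D2.map (inc0 true i false C)
noncomputable def j110 : D2 true (i + 1) (D2 true i C.V) →ₗ[S O] (T3 i C).V :=
  inc0 true i true _ ∘ₗ inc1 true (i + 1) false _ ∘ₗ D2.map (inc1 true i false C)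
noncomputable def j001 : D2 true i C.V →ₗ[S O] (T3 i C).V :=
  inc1 true i true _ ∘ₗ D2.map (inc0 true (i + 1) false _ ∘ₗ inc0 true i false C)
noncomputable def j101 : D2 true i (D2 true i C.V) →ₗ[S O] (T3 i C).V :=
  inc1 true i true _ ∘ₗ D2.map (inc0 true (i + 1) false _ ∘ₗ inc1 true i false C)
noncomputable def j011 : D2 true i (D2 true (i + 1) C.V) →ₗ[S O] (T3 i C).V :=
  inc1 true i true _ ∘ₗ D2.map (inc1 true (i + 1) false _ ∘ₗ D2.map (inc0 true i false C))
noncomputable def j111 : D2 true i (D2 true (i + 1) (D2 true i C.V)) →ₗ[S O] (T3 i C).V :=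
  inc1 true i true _ ∘ₗ D2.map (inc1 true (i + 1) false _ ∘ₗ D2.map (inc1 true i false C))

theorem d000 (v : C.V) : (T3 i C).d (j000 i C v) = j000 i C (C.d v) + j001 i C (zip O true i v) := by
  simp only [j000, j001, LinearMap.comp_apply, d_inc0_pos, d_inc0_neg]
  rw [← LinearMap.comp_apply (inc0 true (i + 1) false _) (inc0 true i false C) v, zip_nat]

theorem d100 (y : D2 true i C.V) : (T3 i C).d (j100 i C y) =
    j100 i C (D2.map C.d y) + j000 i C (unzip O true i y) + j101 i C (zip O true i y) := by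
  simp only [j000, j100, j101, LinearMap.comp_apply, d_inc0_pos, d_inc0_neg, d_inc1_neg, map_add]
  rw [← LinearMap.comp_apply (inc0 true (i + 1) false _) (inc1 true i false C) y, zip_nat]
  abel

theorem d010 (y : D2 true (i + 1) C.V) : (T3 i C).d (j010 i C y) =
    j010 i C (D2.map C.d y) + j000 i C (unzip O true (i + 1) y) + j011 i C (zip O true i y) := by
  simp only [j000, j010, j011, LinearMap.comp_apply, d_inc0_pos, d_inc0_neg, d_inc1_neg, map_add]
  rw [← LinearMap.comp_apply (inc1 true (i + 1) false _) (D2.map (inc0 true i false C)) y, zip_nat,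
    unzip_nat]
  have e : D2.map (F2 true i false C).d (D2.map (inc0 true i false C) y) =
      D2.map (inc0 true i false C) (D2.map C.d y) := by
    rw [map_map, map_map]; exact map_ext (fun v => d_inc0_neg true i C v) y
  rw [e]
  abel

theorem map_d_inc1 (y : D2 true (i + 1) (D2 true i C.V)) :
    D2.map (F2 true i false C).d (D2.map (inc1 true i false C) y) =
      D2.map (inc0 true i false C) (D2.map (unzip O true i) y) +
        D2.map (inc1 true i false C) (D2.map (D2.map C.d) y) := by
  rw [map_map, map_map, map_map, ← map_addf]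
  exact map_ext (fun v => d_inc1_neg true i C v) y

theorem map_d_inc0 (y : D2 true (i + 1) C.V) :
    D2.map (F2 true i false C).d (D2.map (inc0 true i false C) y) =
      D2.map (inc0 true i false C) (D2.map C.d y) := by
  rw [map_map, map_map]; exact map_ext (fun v => d_inc0_neg true i C v) y

theorem d110 (y : D2 true (i + 1) (D2 true i C.V)) : (T3 i C).d (j110 i C y) =
    j110 i C (D2.map (D2.map C.d) y) + j010 i C (D2.map (unzip O true i) y) +
      j100 i C (unzip O true (i + 1) y) + j111 i C (zip O true i y) := by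
  simp only [j010, j100, j110, j111, LinearMap.comp_apply, d_inc0_pos, d_inc0_neg, d_inc1_neg, map_add]
  rw [← LinearMap.comp_apply (inc1 true (i + 1) false _) (D2.map (inc1 true i false C)) y, zip_nat,
    unzip_nat, map_d_inc1, map_add, map_add]
  abel

theorem d101 (y : D2 true i (D2 true i C.V)) : (T3 i C).d (j101 i C y) =
    j101 i C (D2.map (D2.map C.d) y) + j001 i C (D2.map (unzip O true i) y) := by
  simp only [j101, j001, LinearMap.comp_apply, d_inc1_pos]
  rw [← map_add, map_map, map_map, map_map, ← map_addf]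
  congr 1
  refine map_ext (fun v => ?_) y
  simp only [LinearMap.comp_apply, LinearMap.add_apply, d_inc0_neg, d_inc1_neg, map_add]
  abel

theorem d111 (y : D2 true i (D2 true (i + 1) (D2 true i C.V))) : (T3 i C).d (j111 i C y) =
    j111 i C (D2.map (D2.map (D2.map C.d)) y) + j011 i C (D2.map (D2.map (unzip O true i)) y) +
      j101 i C (D2.map (unzip O true (i + 1)) y) := by
  simp only [j111, j011, j101, LinearMap.comp_apply, d_inc1_pos]
  rw [← map_add, ← map_add, map_map, map_map, map_map, map_map, ← map_addf, ← map_addf]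
  congr 1
  refine map_ext (fun v => ?_) y
  simp only [LinearMap.comp_apply, LinearMap.add_apply, d_inc0_neg, d_inc1_neg, map_add, map_d_inc1,
    unzip_nat]
  abel


/-- the alternating scalar: `1` for odd `a`, `h3` for even `a` -/
noncomputable def bb (P : Pot O) (a i : ℕ) : S O := if a % 2 = 1 then 1 else h3v P i

/-- the step map on three consecutive members of a tower -/
noncomputable def EE (P : Pot O) (b : S O) (z0 z1 z2 : C.V) : (T3 i C).V :=
  j000 i C z0 + j101 i C (ZZ O i z0) + b • j100 i C (zip O true i z1) +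
    b • j010 i C (zip O true (i + 1) z1) + b • j111 i C (mm O i z1) +
    h3v P i • j110 i C (zip O true (i + 1) (zip O true i z2))

theorem ZZ_nat {D E : Type} [AddCommGroup D] [Module (S O) D] [AddCommGroup E] [Module (S O) E]
    (f : D →ₗ[S O] E) (v : D) : ZZ O i (f v) = D2.map (D2.map f) (ZZ O i v) := by
  rw [ZZ_apply, zip_nat, split_nat]; rfl

theorem mm_nat {D E : Type} [AddCommGroup D] [Module (S O) D] [AddCommGroup E] [Module (S O) E]
    (f : D →ₗ[S O] E) (v : D) : mm O i (f v) = D2.map (D2.map (D2.map f)) (mm O i v) := by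
  rw [mm_apply, ZZ_nat, mm_apply, map_map, map_map]
  exact map_ext (fun u => zip_nat true (i + 1) (D2.map f) u) _

theorem unzip_zip' (v : C.V) :
    unzip O true (i + 1) (zip O true (i + 1) v) = e1 O true (i + 1) • v := unzip_zip v

theorem map_unzip_ZZ {D : Type} [AddCommGroup D] [Module (S O) D] (v : D) :
    D2.map (unzip O true i) (ZZ O i v) = zip O true i v := map_unzip_split _

theorem map_unzip_mm {D : Type} [AddCommGroup D] [Module (S O) D] (v : D) :
    D2.map (unzip O true (i + 1)) (mm O i v) =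
      mid O (yv O (i + 1)) (ZZ O i v) + yv O (i + 2) • ZZ O i v := by
  rw [mm_apply, map_map, ← mid_yv_ne (i + 2) (by omega) (by omega), ← mid_add]
  refine map_ext (fun u => ?_) _
  exact unzip_zip u

theorem map_map_unzip_mm {D : Type} [AddCommGroup D] [Module (S O) D] (v : D) :
    D2.map (D2.map (unzip O true i)) (mm O i v) = zip O true i (zip O true (i + 1) v) := by
  rw [mm_apply, map_map]
  have h : D2.map (D2.map (unzip O true i) ∘ₗ zip O true (i + 1)) (ZZ O i v) =
      D2.map (zip O true (i + 1)) (D2.map (unzip O true i) (ZZ O i v)) := by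
    rw [map_map]
    exact map_ext (fun u => (zip_nat true (i + 1) (unzip O true i) u).symm) _
  rw [h, map_unzip_ZZ, zip_nat]

theorem zip_zip_eq {D : Type} [AddCommGroup D] [Module (S O) D] (v : D) :
    zip O true i (zip O true i v) = mid O (yv O (i + 1)) (ZZ O i v) + yv O i • ZZ O i v := by
  rw [zip_zip_ZZ, be_eq]

/-- the differential of the step map -/
theorem d_EE (P : Pot O) (b : S O) (z0 z1 z2 : C.V) :
    (T3 i C).d (EE i C P b z0 z1 z2) =
      j000 i C (C.d z0 + ((yv O i + yv O (i + 2)) * b) • z1) +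
      j101 i C (ZZ O i (C.d z0 + ((yv O i + yv O (i + 2)) * b) • z1)) +
      j100 i C (zip O true i (b • C.d z1 + ((yv O (i + 1) + yv O (i + 2)) * h3v P i) • z2)) +
      j010 i C (zip O true (i + 1) (b • C.d z1 + ((yv O i + yv O (i + 1)) * h3v P i) • z2)) +
      j111 i C (b • mm O i (C.d z1) +
        h3v P i • zip O true i (zip O true (i + 1) (zip O true i z2))) +
      h3v P i • j110 i C (zip O true (i + 1) (zip O true i (C.d z2))) := by
  have n1 : ∀ v, D2.map C.d (zip O true i v) = zip O true i (C.d v) := fun v => (zip_nat _ _ _ _).symm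
  have n2 : ∀ v, D2.map C.d (zip O true (i + 1) v) = zip O true (i + 1) (C.d v) :=
    fun v => (zip_nat _ _ _ _).symm
  have n3 : ∀ v, D2.map (D2.map C.d) (ZZ O i v) = ZZ O i (C.d v) := fun v => (ZZ_nat _ _ _).symm
  have n4 : ∀ v, D2.map (D2.map (D2.map C.d)) (mm O i v) = mm O i (C.d v) :=
    fun v => (mm_nat _ _ _).symm
  have n5 : ∀ u : D2 true i C.V, D2.map (D2.map C.d) (zip O true (i + 1) u) = zip O true (i + 1) (D2.map C.d u) :=
    fun v => (zip_nat _ _ _ _).symm
  have n6 : ∀ u : D2 true i C.V, D2.map (unzip O true i) (zip O true (i + 1) u) =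
    zip O true (i + 1) (unzip O true i u) := fun v => (zip_nat _ _ _ _).symm
  have n7 : ∀ u : D2 true i C.V, unzip O true (i + 1) (zip O true (i + 1) u) =
    e1 O true (i + 1) • u := fun u => unzip_zip u
  unfold EE
  simp only [map_add, map_smul, d000, d100, d010, d110, d101, d111, n1, n2, n3, n4, n5, n6, n7,
    unzip_zip, unzip_zip', map_unzip_ZZ, map_unzip_mm, map_map_unzip_mm, zip_zip_eq, e1y, e1y',
    smul_add]
  match_scalars <;> (rw [← sub_eq_zero]; ring_nf <;>
    simp only [two0, three1, four0, five1, six0, seven1, eight0, mul_zero, zero_mul,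
            add_zero, zero_add, neg_zero, sub_zero, sub_self, mul_one])

/-! ### scalar identities -/

theorem s_a (P : Pot O) (c i : ℕ) : (yv O i + yv O (i + 2)) * bb P (c + 1) i + muv P (c + 1) (i + 1) =
    muv P (c + 1) i := by
  unfold bb muv h3v Pot.h
  rw [MvPolynomial.algebraMap_eq]
  rcases Nat.mod_two_eq_zero_or_one c with h | h
  · have h1 : (c + 1) % 2 = 1 := by omega
    simp only [h1, if_true]
    rw [← sub_eq_zero]; ring_nf
    simp only [two0, three1, four0, five1, six0, seven1, eight0, mul_zero, zero_mul,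
            add_zero, zero_add, neg_zero, sub_zero, sub_self, mul_one]
  · have h1 : (c + 1) % 2 = 0 := by omega
    simp only [h1, if_neg zero_ne_one]
    rw [← sub_eq_zero]; ring_nf
    simp only [two0, three1, four0, five1, six0, seven1, eight0, mul_zero, zero_mul,
            add_zero, zero_add, neg_zero, sub_zero, sub_self, mul_one]

theorem s_d (P : Pot O) (c i : ℕ) : bb P (c + 1) i * muv P (c + 2) i +
    muv P (c + 1) (i + 1) * bb P (c + 2) i = P.h (yv O i) (yv O (i + 2)) := by
  unfold bb muv h3v Pot.h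
  rw [MvPolynomial.algebraMap_eq]
  rcases Nat.mod_two_eq_zero_or_one c with h | h
  · have h1 : (c + 1) % 2 = 1 := by omega
    have h2 : (c + 2) % 2 = 0 := by omega
    simp only [h1, h2, if_true, if_neg zero_ne_one]
    rw [← sub_eq_zero]; ring_nf
    simp only [two0, three1, four0, five1, six0, seven1, eight0, mul_zero, zero_mul,
            add_zero, zero_add, neg_zero, sub_zero, sub_self, mul_one]
  · have h1 : (c + 1) % 2 = 0 := by omega
    have h2 : (c + 2) % 2 = 1 := by omega
    simp only [h1, h2, if_true, if_neg zero_ne_one]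
    rw [← sub_eq_zero]; ring_nf
    simp only [two0, three1, four0, five1, six0, seven1, eight0, mul_zero, zero_mul,
            add_zero, zero_add, neg_zero, sub_zero, sub_self, mul_one]

theorem h_h3 (P : Pot O) (i : ℕ) : (yv O i + yv O (i + 2)) * h3v P i =
    P.h (yv O i) (yv O (i + 1)) + P.h (yv O (i + 1)) (yv O (i + 2)) := by
  unfold h3v Pot.h
  rw [MvPolynomial.algebraMap_eq]
  rw [← sub_eq_zero]; ring_nf
  simp only [two0, three1, four0, five1, six0, seven1, eight0, mul_zero, zero_mul,
            add_zero, zero_add, neg_zero, sub_zero, sub_self, mul_one]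

theorem h_h3' (P : Pot O) (i : ℕ) : (yv O (i + 1) + yv O (i + 2)) * h3v P i =
    P.h (yv O i) (yv O (i + 1)) + P.h (yv O i) (yv O (i + 2)) := by
  unfold h3v Pot.h
  rw [MvPolynomial.algebraMap_eq]
  rw [← sub_eq_zero]; ring_nf
  simp only [two0, three1, four0, five1, six0, seven1, eight0, mul_zero, zero_mul,
            add_zero, zero_add, neg_zero, sub_zero, sub_self, mul_one]

theorem h_h3'' (P : Pot O) (i : ℕ) : (yv O i + yv O (i + 1)) * h3v P i =
    P.h (yv O (i + 1)) (yv O (i + 2)) + P.h (yv O i) (yv O (i + 2)) := by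
  unfold h3v Pot.h
  rw [MvPolynomial.algebraMap_eq]
  rw [← sub_eq_zero]; ring_nf
  simp only [two0, three1, four0, five1, six0, seven1, eight0, mul_zero, zero_mul,
            add_zero, zero_add, neg_zero, sub_zero, sub_self, mul_one]

theorem s_b (P : Pot O) (c i : ℕ) : bb P (c + 1) i * muv P (c + 2) i +
    (yv O (i + 1) + yv O (i + 2)) * h3v P i +
    muv P (c + 1) (i + 1) * bb P (c + 2) i = P.h (yv O i) (yv O (i + 1)) := by
  have h := s_d P c i
  have h' := h_h3' P i
  have t := two0 (S O)
  linear_combination h + h' + t * P.h (yv O i) (yv O (i + 2))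

theorem s_c (P : Pot O) (c i : ℕ) : bb P (c + 1) i * muv P (c + 2) i +
    (yv O i + yv O (i + 1)) * h3v P i +
    muv P (c + 1) (i + 1) * bb P (c + 2) i = P.h (yv O (i + 1)) (yv O (i + 2)) := by
  have h := s_d P c i
  have h' := h_h3'' P i
  have t := two0 (S O)
  linear_combination h + h' + t * P.h (yv O i) (yv O (i + 2))

theorem s_e (P : Pot O) (c i : ℕ) : h3v P i * (muv P (c + 3) i + muv P (c + 1) (i + 1)) =
    bb P (c + 1) i * P.h (yv O i) (yv O (i + 1)) +
      bb P (c + 1) i * P.h (yv O (i + 1)) (yv O (i + 2)) := by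
  rcases Nat.mod_two_eq_zero_or_one c with h | h
  · have h1 : (c + 1) % 2 = 1 := by omega
    have h2 : (c + 3) % 2 = 1 := by omega
    have h' := h_h3 P i
    have t := two0 (S O)
    unfold bb muv
    simp only [h1, h2, if_true]
    linear_combination h' + t * yv O (i + 1) * h3v P i
  · have h1 : (c + 1) % 2 = 0 := by omega
    have h2 : (c + 3) % 2 = 0 := by omega
    unfold bb muv
    simp only [h1, h2, if_neg zero_ne_one]
    ring

/-! ### the main computation -/

theorem EE_mem [IsDomain O] (P : Pot O) (c : ℕ) (z0 z1 z2 z3 : C.V) (h2 : z2 ∈ HH O C.V)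
    (r0 : C.d z0 + muv P (c + 1) i • z1 ∈ N0 P C.V)
    (r1 : C.d z1 + muv P (c + 2) i • z2 ∈ N0 P C.V) :
    (T3 i C).d (EE i C P (bb P (c + 1) i) z0 z1 z2) +
      muv P (c + 1) (i + 1) • EE i C P (bb P (c + 2) i) z1 z2 z3 +
      h3v P i • j110 i C (zip O true (i + 1) (zip O true i (C.d z2 + muv P (c + 1) (i + 1) • z3)))
      ∈ N0 P (T3 i C).V := by
  have sa := s_a P c i
  have sb := s_b P c i
  have sc := s_c P c i
  have sd := s_d P c i
  set b := bb P (c + 1) i with hb
  set b' := bb P (c + 2) i with hb'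
  set m' := muv P (c + 1) (i + 1) with hm'
  have e0 : C.d z0 + ((yv O i + yv O (i + 2)) * b) • z1 + m' • z1 =
      C.d z0 + muv P (c + 1) i • z1 := by
    rw [← sa]; module
  have e1 : b • C.d z1 + ((yv O (i + 1) + yv O (i + 2)) * h3v P i) • z2 + (m' * b') • z2 =
      b • (C.d z1 + muv P (c + 2) i • z2) + P.h (yv O i) (yv O (i + 1)) • z2 := by
    rw [← sb]
    match_scalars <;> (rw [← sub_eq_zero]; ring_nf <;>
      simp only [two0, three1, four0, five1, six0, seven1, eight0, mul_zero, zero_mul,
            add_zero, zero_add, neg_zero, sub_zero, sub_self, mul_one])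
  have e2 : b • C.d z1 + ((yv O i + yv O (i + 1)) * h3v P i) • z2 + (m' * b') • z2 =
      b • (C.d z1 + muv P (c + 2) i • z2) + P.h (yv O (i + 1)) (yv O (i + 2)) • z2 := by
    rw [← sc]
    match_scalars <;> (rw [← sub_eq_zero]; ring_nf <;>
      simp only [two0, three1, four0, five1, six0, seven1, eight0, mul_zero, zero_mul,
            add_zero, zero_add, neg_zero, sub_zero, sub_self, mul_one])
  have e3 : b • mm O i (C.d z1) + h3v P i • zip O true i (zip O true (i + 1) (zip O true i z2)) +
      (m' * b') • mm O i z2 = b • mm O i (C.d z1 + muv P (c + 2) i • z2) +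
        D2.map (P.h (yv O (i + 1)) (yv O (i + 2)) • zip O true (i + 1)) (ZZ O i z2) := by
    rw [I1, ← sd, map_add, map_smul]
    match_scalars <;> (rw [← sub_eq_zero]; ring_nf <;>
      simp only [two0, three1, four0, five1, six0, seven1, eight0, mul_zero, zero_mul,
            add_zero, zero_add, neg_zero, sub_zero, sub_self, mul_one])
  have key : (T3 i C).d (EE i C P b z0 z1 z2) + m' • EE i C P b' z1 z2 z3 +
      h3v P i • j110 i C (zip O true (i + 1) (zip O true i (C.d z2 + m' • z3))) =
      j000 i C (C.d z0 + ((yv O i + yv O (i + 2)) * b) • z1 + m' • z1) +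
      j101 i C (ZZ O i (C.d z0 + ((yv O i + yv O (i + 2)) * b) • z1 + m' • z1)) +
      j100 i C (zip O true i (b • C.d z1 + ((yv O (i + 1) + yv O (i + 2)) * h3v P i) • z2 +
        (m' * b') • z2)) +
      j010 i C (zip O true (i + 1) (b • C.d z1 + ((yv O i + yv O (i + 1)) * h3v P i) • z2 +
        (m' * b') • z2)) +
      j111 i C (b • mm O i (C.d z1) + h3v P i • zip O true i (zip O true (i + 1) (zip O true i z2)) +
        (m' * b') • mm O i z2) := by
    rw [d_EE]
    unfold EE
    simp only [map_add, map_smul, smul_add]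
    match_scalars <;> (rw [← sub_eq_zero]; ring_nf <;>
      simp only [two0, three1, four0, five1, six0, seven1, eight0, mul_zero, zero_mul,
            add_zero, zero_add, neg_zero, sub_zero, sub_self, mul_one])
  rw [key, e0, e1, e2, e3]
  have hN : ∀ (v : C.V), v ∈ N0 P C.V → v ∈ N0 P C.V := fun _ h => h
  refine add_mem (add_mem (add_mem (add_mem ?_ ?_) ?_) ?_) ?_
  · exact map_mem_N0 _ r0
  · exact map_mem_N0 _ (map_mem_N0 _ r0)
  · refine map_mem_N0 _ ?_
    rw [map_add, map_smul, map_smul]
    exact add_mem (Submodule.smul_mem _ _ (map_mem_N0 _ r1)) (NN_le_N0 (h_zip_mem P i h2))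
  · refine map_mem_N0 _ ?_
    rw [map_add, map_smul, map_smul]
    exact add_mem (Submodule.smul_mem _ _ (map_mem_N0 _ r1)) (NN_le_N0 (h_zip_mem P (i + 1) h2))
  · refine map_mem_N0 _ (add_mem (Submodule.smul_mem _ _ (map_mem_N0 _ r1)) (NN_le_N0 ?_))
    have := ctxNeg_h_zip P (i + 1) (SM.D2 true i C.toSM) [i]
    exact this (ZZ O i z2) (map_mem_HH _ h2)

/-! ### the dumbbell state -/

/-- the map on the dumbbell state -/
noncomputable def FF (P : Pot O) (i : ℕ) {X : Type} [AddCommGroup X] [Module (S O) X] :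
    D2 true i X →ₗ[S O] D2 true (i + 1) (D2 true (i + 1) (D2 true i X)) :=
  h3v P i • (mid O (yv O (i + 1)) ∘ₗ ZZ O (i + 1) + ZZ O (i + 1) ∘ₗ mid O (yv O i))

theorem FF_apply (P : Pot O) {X : Type} [AddCommGroup X] [Module (S O) X] (w : D2 true i X) :
    FF P i w = h3v P i • (mid O (yv O (i + 1)) (ZZ O (i + 1) w) + ZZ O (i + 1) (mid O (yv O i) w)) :=
  rfl

theorem mid_e1 {X : Type} [AddCommGroup X] [Module (S O) X] (z : D2 true i X) :
    mid O (yv O i) z + mid O (yv O (i + 1)) z = yv O i • z + yv O (i + 1) • z := by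
  have h := D2.e1_smul (O := O) z
  rw [e1y, add_smul] at h
  rw [h, ← mid_add]
  rfl

theorem eq_of_add {X : Type} [AddCommGroup X] [Module (S O) X] {x y : X} (h : x + y = 0) :
    x = y := by
  have t := add_self_mod (O := O) y
  calc x = x + (y + y) := by rw [t, add_zero]
    _ = (x + y) + y := by abel
    _ = y := by rw [h, zero_add]

theorem be_eq' {X : Type} [AddCommGroup X] [Module (S O) X] (z : D2 true i X) :
    be O i z = mid O (yv O i) z + yv O (i + 1) • z := by
  have h := mid_e1 (O := O) i z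
  rw [be_eq]
  refine eq_of_add (O := O) ?_
  calc mid O (yv O (i + 1)) z + yv O i • z + (mid O (yv O i) z + yv O (i + 1) • z)
      = (mid O (yv O i) z + mid O (yv O (i + 1)) z) + (yv O i • z + yv O (i + 1) • z) := by abel
    _ = 0 := by rw [h]; exact add_self_mod (O := O) _

theorem zip_zip_eq' {D : Type} [AddCommGroup D] [Module (S O) D] (v : D) :
    zip O true i (zip O true i v) = mid O (yv O i) (ZZ O i v) + yv O (i + 1) • ZZ O i v := by
  rw [zip_zip_ZZ, be_eq']

theorem unzip_FF (P : Pot O) {X : Type} [AddCommGroup X] [Module (S O) X] (w : D2 true i X) :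
    unzip O true (i + 1) (FF P i w) = h3v P i • zip O true (i + 1) (zip O true i (unzip O true i w)) := by
  rw [FF_apply, map_smul, map_add, unzip_mid]
  have h : ∀ x : D2 true i X, unzip O true (i + 1) (ZZ O (i + 1) x) = zip O true (i + 1) x :=
    fun x => unzip_split _
  rw [h, h, ← map_smul, ← map_add]
  have e : yv O (i + 1) • w + mid O (yv O i) w = zip O true i (unzip O true i w) := by
    rw [add_comm, ← be_eq', be_apply]
  rw [e]

theorem map_unzip_FF (P : Pot O) {X : Type} [AddCommGroup X] [Module (S O) X] (w : D2 true i X) :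
    D2.map (unzip O true (i + 1)) (FF P i w) =
      h3v P i • zip O true (i + 1) (zip O true i (unzip O true i w)) := by
  rw [FF_apply, map_smul, map_add, ← mid_nat]
  have h : ∀ x : D2 true i X, D2.map (unzip O true (i + 1)) (ZZ O (i + 1) x) = zip O true (i + 1) x :=
    fun x => map_unzip_split _
  rw [h, h, mid_zip, ← map_add]
  have e : yv O (i + 1) • w + mid O (yv O i) w = zip O true i (unzip O true i w) := by
    rw [add_comm, ← be_eq', be_apply]
  rw [e]

theorem map_map_unzip_FF (P : Pot O) {X : Type} [AddCommGroup X] [Module (S O) X]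
    (w : D2 true i X) :
    D2.map (D2.map (unzip O true i)) (FF P i w) =
      h3v P i • (mid O (yv O (i + 1)) (ZZ O (i + 1) (unzip O true i w)) +
        yv O i • ZZ O (i + 1) (unzip O true i w)) := by
  rw [FF_apply, map_smul, map_add, ← mid_nat, ← ZZ_nat, ← ZZ_nat, unzip_mid, map_smul]

theorem FF_nat (P : Pot O) {X Y : Type} [AddCommGroup X] [Module (S O) X] [AddCommGroup Y]
    [Module (S O) Y] (f : X →ₗ[S O] Y) (w : D2 true i X) :
    D2.map (D2.map (D2.map f)) (FF P i w) = FF P i (D2.map f w) := by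
  rw [FF_apply, FF_apply, map_smul, map_add, ← mid_nat, ← ZZ_nat, ← ZZ_nat, ← mid_nat]

theorem DD_zip {X : Type} [AddCommGroup X] [Module (S O) X] (v : X) :
    zip O true (i + 1) (mm O i v) = DD O i (zip O true i v) := rfl

/-- (F4) -/
theorem F4_mem (P : Pot O) {X : Type} [AddCommGroup X] [Module (S O) X] {w : D2 true i X}
    (hw : w ∈ HH O (D2 true i X)) :
    h3v P i • zip O true (i + 1) (mm O i (unzip O true i w)) + D2.map (zip O true i) (FF P i w) ∈
      NN P _ := by
  have hw' : mid O (yv O i) w ∈ HH O (D2 true i X) := map_mem_HH _ hw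
  have j1 := J1 P hw'
  have j1' := Submodule.smul_mem _ (yv O (i + 1)) (J1 P hw)
  have j2 := J2 P hw
  have := add_mem (add_mem j1 j1') j2
  convert this using 1
  rw [DD_zip i, ← be_apply, be_eq', FF_apply]
  simp only [map_add, map_smul, smul_add, ← mp_apply]
  match_scalars <;> (rw [← sub_eq_zero]; ring_nf <;>
    simp only [two0, three1, four0, five1, six0, seven1, eight0, mul_zero, zero_mul,
            add_zero, zero_add, neg_zero, sub_zero, sub_self, mul_one])

/-- (F3) -/
theorem F3_mem (P : Pot O) {X : Type} [AddCommGroup X] [Module (S O) X] {w : D2 true i X}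
    (hw : w ∈ HH O (D2 true i X)) :
    h3v P i • zip O true (i + 1) (zip O true (i + 1) (unzip O true i w)) +
      D2.map (D2.map (unzip O true i)) (FF P i w) ∈ NN P _ := by
  have hu : unzip O true i w ∈ HH O X := map_mem_HH _ hw
  have k1 : P.h (yv O i) (yv O (i + 1)) • ZZ O (i + 1) (unzip O true i w) ∈ NN P _ := by
    rw [← map_smul, ← map_smul]
    exact map_mem_NN _ (map_mem_NN _ (h_D2_mem P i hw))
  have k2 : P.h (yv O (i + 1)) (yv O (i + 2)) • ZZ O (i + 1) (unzip O true i w) ∈ NN P _ := by
    have : P.h (yv O (i + 1)) (yv O (i + 2)) • ZZ O (i + 1) (unzip O true i w) =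
        split O true (i + 1) (P.h (yv O (i + 1)) (yv O (i + 2)) •
          zip O true (i + 1) (unzip O true i w)) := by
      rw [ZZ_apply, map_smul]
    rw [this]
    exact map_mem_NN _ (h_zip_mem P (i + 1) hu)
  have := add_mem k1 k2
  convert this using 1
  rw [← add_smul, ← h_h3, map_map_unzip_FF, zip_zip_eq' (i + 1)]
  change h3v P i • (mid O (yv O (i + 1)) (ZZ O (i + 1) (unzip O true i w)) +
    yv O (i + 2) • ZZ O (i + 1) (unzip O true i w)) + _ = _
  simp only [smul_add]
  match_scalars <;> (rw [← sub_eq_zero]; ring_nf <;>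
    simp only [two0, three1, four0, five1, six0, seven1, eight0, mul_zero, zero_mul,
            add_zero, zero_add, neg_zero, sub_zero, sub_self, mul_one])

theorem add_cancel_mem {X : Type} [AddCommGroup X] [Module (S O) X] {N : Submodule (S O) X} {x y : X}
    (h : x + y ∈ N) (hy : y ∈ N) : x ∈ N := (Submodule.add_mem_iff_left N hy).1 h

/-- the tail of the `(110)` component -/
theorem tail_mem (P : Pot O) (c : ℕ) (z2 z3 : C.V) (h3 : z3 ∈ HH O C.V)
    (r2 : C.d z2 + muv P (c + 3) i • z3 ∈ N0 P C.V) :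
    h3v P i • j110 i C (zip O true (i + 1) (zip O true i (C.d z2 + muv P (c + 1) (i + 1) • z3)))
      ∈ N0 P (T3 i C).V := by
  have e : h3v P i • (C.d z2 + muv P (c + 1) (i + 1) • z3) =
      h3v P i • (C.d z2 + muv P (c + 3) i • z3) +
        (bb P (c + 1) i * P.h (yv O i) (yv O (i + 1))) • z3 +
        (bb P (c + 1) i * P.h (yv O (i + 1)) (yv O (i + 2))) • z3 := by
    rw [add_assoc, ← add_smul, ← s_e]
    match_scalars <;> (rw [← sub_eq_zero]; ring_nf <;>
      simp only [two0, three1, four0, five1, six0, seven1, eight0, mul_zero, zero_mul,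
            add_zero, zero_add, neg_zero, sub_zero, sub_self, mul_one])
  rw [← map_smul, ← map_smul, ← map_smul, e]
  change (j110 i C ∘ₗ zip O true (i + 1) ∘ₗ zip O true i) _ ∈ _
  rw [map_add, map_add]
  simp only [map_smul, mul_smul]
  refine add_mem (add_mem ?_ ?_) ?_
  · exact Submodule.smul_mem _ _ (map_mem_N0 _ r2)
  · refine Submodule.smul_mem _ _ (NN_le_N0 ?_)
    have e3 : P.h (yv O i) (yv O (i + 1)) • (j110 i C ∘ₗ zip O true (i + 1) ∘ₗ zip O true i) z3 =
        (j110 i C ∘ₗ zip O true (i + 1)) (P.h (yv O i) (yv O (i + 1)) • zip O true i z3) := by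
      simp only [LinearMap.comp_apply, map_smul]
    rw [e3]
    exact map_mem_NN _ (h_zip_mem P i h3)
  · refine Submodule.smul_mem _ _ (NN_le_N0 ?_)
    have e3 : P.h (yv O (i + 1)) (yv O (i + 2)) •
        (j110 i C ∘ₗ zip O true (i + 1) ∘ₗ zip O true i) z3 =
        j110 i C (P.h (yv O (i + 1)) (yv O (i + 2)) • zip O true (i + 1) (zip O true i z3)) := by
      simp only [LinearMap.comp_apply, map_smul]
    rw [e3]
    exact map_mem_NN _ (h_zip_mem P (i + 1) (map_mem_HH (zip O true i) h3))

theorem HH_EE (P : Pot O) (b : S O) {z0 z1 z2 : C.V} (h0 : z0 ∈ HH O C.V) (h1 : z1 ∈ HH O C.V)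
    (h2 : z2 ∈ HH O C.V) : EE i C P b z0 z1 z2 ∈ HH O (T3 i C).V := by
  unfold EE
  refine add_mem (add_mem (add_mem (add_mem (add_mem ?_ ?_) ?_) ?_) ?_) ?_
  · exact map_mem_HH _ h0
  · exact map_mem_HH _ (map_mem_HH _ h0)
  · exact Submodule.smul_mem _ _ (map_mem_HH _ (map_mem_HH _ h1))
  · exact Submodule.smul_mem _ _ (map_mem_HH _ (map_mem_HH _ h1))
  · exact Submodule.smul_mem _ _ (map_mem_HH _ (map_mem_HH _ h1))
  · exact Submodule.smul_mem _ _ (map_mem_HH _ (map_mem_HH _ (map_mem_HH _ h2)))

theorem map_d_j110 (y : D2 true (i + 1) (D2 true (i + 1) (D2 true i C.V))) :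
    D2.map (T3 i C).d (D2.map (j110 i C) y) =
      D2.map (j110 i C) (D2.map (D2.map (D2.map C.d)) y) +
      D2.map (j010 i C) (D2.map (D2.map (unzip O true i)) y) +
      D2.map (j100 i C) (D2.map (unzip O true (i + 1)) y) +
      D2.map (j111 i C) (D2.map (zip O true i) y) := by
  refine D2.ext ?_ ?_
  · exact d110 i C y.a
  · exact d110 i C y.b

end

/-- (H2) the negative tower step -/
theorem step [IsDomain O] {P : Pot O} {i r : ℕ} {C : DM O} {a : O} (h : TCycN P i (r + 1) C a) :
    TCycN P (i + 1) r (T3 i C) a := by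
  obtain ⟨z, w, hz, hw, hc, hl, hw2, ha⟩ := h
  have hE : ∀ c b, EE i C P b (z c) (z (c + 1)) (z (c + 2)) ∈ HH O (T3 i C).V :=
    fun c b => HH_EE i C P b (hz _) (hz _) (hz _)
  have hE0 : ∀ b, EE i C P b (z (2 * r + 1)) (z (2 * r + 2)) 0 ∈ HH O (T3 i C).V :=
    fun b => HH_EE i C P b (hz _) (hz _) (zero_mem _)
  refine ⟨fun c => EE i C P (bb P (c + 1) i) (z c) (z (c + 1)) (z (c + 2)),
    zip O true (i + 1) (EE i C P (bb P (2 * r + 2) i) (z (2 * r + 1)) (z (2 * r + 2)) 0) +
      D2.map (j110 i C) (FF P i w), fun c => hE c _, ?_, ?_, ?_, ?_, ?_⟩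
  · exact add_mem (map_mem_HH _ (hE0 _)) (map_mem_HH _ (map_mem_HH _ hw))
  · intro c hcr
    refine add_cancel_mem (EE_mem i C P c (z c) (z (c + 1)) (z (c + 2)) (z (c + 3)) (hz _)
      (hc c (by omega)) (hc (c + 1) (by omega))) (tail_mem i C P c _ _ (hz _) (hc (c + 2) (by omega)))
  · have k := EE_mem i C P (2 * r) (z (2 * r)) (z (2 * r + 1)) (z (2 * r + 2)) 0 (hz _)
      (hc (2 * r) (by omega)) (hc (2 * r + 1) (by omega))
    have hl' : C.d (z (2 * r + 2)) + unzip O true i w ∈ N0 P C.V := hl
    have k2 := add_mem k (Submodule.smul_mem _ (h3v P i) (map_mem_N0 (j110 i C)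
      (map_mem_N0 (zip O true (i + 1)) (map_mem_N0 (zip O true i) hl'))))
    convert k2 using 1
    have m1 : muv P (2 * r + 1) (i + 1) = e1 O true (i + 1) := by
      unfold muv; rw [if_pos (by omega)]; rfl
    have n1 : unzip O true (i + 1) (zip O true (i + 1)
        (EE i C P (bb P (2 * r + 2) i) (z (2 * r + 1)) (z (2 * r + 2)) 0)) =
        e1 O true (i + 1) • EE i C P (bb P (2 * r + 2) i) (z (2 * r + 1)) (z (2 * r + 2)) 0 :=
      unzip_zip _
    simp only [map_add, n1, unzip_nat, unzip_FF, m1, smul_zero, map_smul, smul_add, map_zero,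
      add_zero]
    match_scalars <;> (rw [← sub_eq_zero]; ring_nf <;>
      simp only [two0, three1, four0, five1, six0, seven1, eight0, mul_zero, zero_mul,
            add_zero, zero_add, neg_zero, sub_zero, sub_self, mul_one])
  · have hl' : C.d (z (2 * r + 2)) + unzip O true i w ∈ N0 P C.V := hl
    have hb : bb P (2 * r + 2) i = h3v P i := by unfold bb; rw [if_neg (by omega)]
    have hm : muv P (2 * r + 1 + 1) i = P.h (yv O i) (yv O (i + 1)) := by
      unfold muv; rw [if_neg (by omega)]
    have r1 := hc (2 * r + 1) (by omega)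
    rw [hm] at r1
    have n1 : D2.map (T3 i C).d (zip O true (i + 1)
        (EE i C P (bb P (2 * r + 2) i) (z (2 * r + 1)) (z (2 * r + 2)) 0)) =
        zip O true (i + 1) ((T3 i C).d
          (EE i C P (bb P (2 * r + 2) i) (z (2 * r + 1)) (z (2 * r + 2)) 0)) :=
      (zip_nat true (i + 1) (T3 i C).d _).symm
    rw [map_add, n1, map_d_j110, d_EE, hb]
    set z1 := z (2 * r + 1)
    set z2 := z (2 * r + 2)
    have hz1 : z1 ∈ HH O C.V := hz _
    have hz2 : z2 ∈ HH O C.V := hz _
    have eX : C.d z1 + ((yv O i + yv O (i + 2)) * h3v P i) • z2 =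
        (C.d z1 + P.h (yv O i) (yv O (i + 1)) • z2) + P.h (yv O (i + 1)) (yv O (i + 2)) • z2 := by
      rw [h_h3, add_smul, add_assoc]
    have key : zip O true (i + 1) (j000 i C (C.d z1 + ((yv O i + yv O (i + 2)) * h3v P i) • z2) +
          j101 i C (ZZ O i (C.d z1 + ((yv O i + yv O (i + 2)) * h3v P i) • z2)) +
          j100 i C (zip O true i (h3v P i • C.d z2 +
            ((yv O (i + 1) + yv O (i + 2)) * h3v P i) • (0 : C.V))) +
          j010 i C (zip O true (i + 1) (h3v P i • C.d z2 +
            ((yv O i + yv O (i + 1)) * h3v P i) • (0 : C.V))) +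
          j111 i C (h3v P i • mm O i (C.d z2) +
            h3v P i • zip O true i (zip O true (i + 1) (zip O true i (0 : C.V)))) +
          h3v P i • j110 i C (zip O true (i + 1) (zip O true i (C.d (0 : C.V))))) +
        (D2.map (j110 i C) (D2.map (D2.map (D2.map C.d)) (FF P i w)) +
          D2.map (j010 i C) (D2.map (D2.map (unzip O true i)) (FF P i w)) +
          D2.map (j100 i C) (D2.map (unzip O true (i + 1)) (FF P i w)) +
          D2.map (j111 i C) (D2.map (zip O true i) (FF P i w))) =
        D2.map (j000 i C) (zip O true (i + 1) (C.d z1 + ((yv O i + yv O (i + 2)) * h3v P i) • z2)) +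
        D2.map (j101 i C) (zip O true (i + 1) (ZZ O i (C.d z1 +
          ((yv O i + yv O (i + 2)) * h3v P i) • z2))) +
        D2.map (j100 i C) (h3v P i • zip O true (i + 1) (zip O true i
          (C.d z2 + unzip O true i w))) +
        D2.map (j010 i C) (h3v P i • zip O true (i + 1) (zip O true (i + 1)
            (C.d z2 + unzip O true i w))) +
        D2.map (j010 i C) (h3v P i • zip O true (i + 1) (zip O true (i + 1) (unzip O true i w)) +
            D2.map (D2.map (unzip O true i)) (FF P i w)) +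
        D2.map (j111 i C) (h3v P i • zip O true (i + 1) (mm O i (C.d z2 + unzip O true i w))) +
        D2.map (j111 i C) (h3v P i • zip O true (i + 1) (mm O i (unzip O true i w)) +
            D2.map (zip O true i) (FF P i w)) +
        D2.map (j110 i C) (FF P i (D2.map C.d w)) := by
      rw [FF_nat, map_unzip_FF]
      simp only [map_add, map_smul, smul_add, map_zero, smul_zero, add_zero, zip_nat]
      match_scalars <;> (rw [← sub_eq_zero]; ring_nf <;>
        simp only [two0, three1, four0, five1, six0, seven1, eight0, mul_zero, zero_mul,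
              add_zero, zero_add, neg_zero, sub_zero, sub_self, mul_one])
    rw [key, eX]
    have q1 : zip O true (i + 1) ((C.d z1 + P.h (yv O i) (yv O (i + 1)) • z2) +
        P.h (yv O (i + 1)) (yv O (i + 2)) • z2) ∈ N0 P _ := by
      rw [map_add, map_smul]
      exact add_mem (map_mem_N0 _ r1) (NN_le_N0 (h_zip_mem P (i + 1) hz2))
    have q2 : zip O true (i + 1) (ZZ O i ((C.d z1 + P.h (yv O i) (yv O (i + 1)) • z2) +
        P.h (yv O (i + 1)) (yv O (i + 2)) • z2)) ∈ N0 P _ := by
      rw [map_add, map_add, map_smul, map_smul]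
      exact add_mem (map_mem_N0 _ (map_mem_N0 _ r1))
        (NN_le_N0 (h_zip_mem P (i + 1) (map_mem_HH (ZZ O i) hz2)))
    refine add_mem (add_mem (add_mem (add_mem (add_mem (add_mem (add_mem ?_ ?_) ?_) ?_) ?_) ?_) ?_) ?_
    · exact map_mem_N0 _ q1
    · exact map_mem_N0 _ q2
    · exact map_mem_N0 _ (Submodule.smul_mem _ _ (map_mem_N0 _ (map_mem_N0 _ hl')))
    · exact map_mem_N0 _ (Submodule.smul_mem _ _ (map_mem_N0 _ (map_mem_N0 _ hl')))
    · exact map_mem_N0 _ (NN_le_N0 (F3_mem i P hw))
    · exact map_mem_N0 _ (Submodule.smul_mem _ _ (map_mem_N0 _ (map_mem_N0 _ hl')))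
    · exact map_mem_N0 _ (NN_le_N0 (F4_mem i P hw))
    · exact map_mem_N0 _ (map_mem_N0 _ hw2)
  · change (T3 i C).ep (EE i C P (bb P (0 + 1) i) (z 0) (z 1) (z 2)) = a
    rw [← ha]
    have e1 : (T3 i C).ep (EE i C P (bb P (0 + 1) i) (z 0) (z 1) (z 2)) =
      C.ep ((EE i C P (bb P (0 + 1) i) (z 0) (z 1) (z 2)).1.1.1) := rfl
    rw [e1]
    congr 1
    change z 0 + 0 + bb P (0 + 1) i • (0 : C.V) + bb P (0 + 1) i • (0 : C.V) +
      bb P (0 + 1) i • (0 : C.V) + h3v P i • (0 : C.V) = z 0
    simp

end SN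

/-- (H2) the negative tower step -/
theorem TCycN.step [IsDomain O] {P : Pot O} {i r : ℕ} {C : DM O} {a : O}
    (h : TCycN P i (r + 1) C a) :
    TCycN P (i + 1) r (Fw [(i, false), (i + 1, false), (i, true)] C) a := SN.step h

end CQ
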