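import Pool.Agent.CQ.StepPA

/-!
# Block H3: the positive tower step, components and final statement
-/

set_option autoImplicit false
set_option linter.unusedSectionVars false
set_option linter.unusedSimpArgs false
set_option linter.unusedVariables false

namespace CQ

open MvPolynomial

variable {O : Type} [CommRing O] [CharP O 2]

namespace SP

section comp
variable {P : Pot O} {i : ℕ} {K : Type} [AddCommGroup K] [Module (S O) K] (d : K →ₗ[S O] K)

theorem c010 (n : ℕ) {v u : K} (hv : d v + muv P (n + 1) i • u ∈ N0 P K) (hu : u ∈ HH O K) :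
    D2.map d (zip O true (i + 1) (bb P i (n + 1) • v)) +
      unzip O true i (zip O true i (zip O true (i + 1) (h3v P i • u))) +
      muv P n (i + 1) • zip O true (i + 1) (bb P i n • u) ∈ N0 P (D2 true (i + 1) K) := by
  have h1 := map_mem_N0 (bb P i (n + 1) • zip O true (i + 1)) hv
  have h2 := NN_le_N0 (h_zip_mem P (i + 1) hu)
  have h3 := add_mem h1 h2
  have h4 := r010 P i n
  have t : (2 : S O) = 0 := two0 (S O)
  convert h3 using 1
  rw [unzip_zip, ← zip_nat, e1y]
  simp only [LinearMap.smul_apply, map_smul, map_add]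
  match_scalars
  · ring
  · linear_combination h4 - bb P i (n + 1) * muv P (n + 1) i * t

/-- naturality of `ZZ` -/
theorem ZZ_nat {A B : Type} [AddCommGroup A] [Module (S O) A] [AddCommGroup B] [Module (S O) B]
    (j : ℕ) (f : A →ₗ[S O] B) (v : A) : D2.map (D2.map f) (ZZ O j v) = ZZ O j (f v) := by
  rw [ZZ_apply, ZZ_apply, zip_nat, split_nat]

theorem mm_nat {A B : Type} [AddCommGroup A] [Module (S O) A] [AddCommGroup B] [Module (S O) B]
    (j : ℕ) (f : A →ₗ[S O] B) (v : A) :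
    D2.map (D2.map (D2.map f)) (mm O j v) = mm O j (f v) := by
  rw [mm_apply, mm_apply, ← ZZ_nat]
  refine D2.ext ?_ ?_
  · change D2.map (D2.map f) (zip O true (j + 1) _) = zip O true (j + 1) (D2.map f _)
    rw [zip_nat]
  · change D2.map (D2.map f) (zip O true (j + 1) _) = zip O true (j + 1) (D2.map f _)
    rw [zip_nat]

theorem mp_nat {A B : Type} [AddCommGroup A] [Module (S O) A] [AddCommGroup B] [Module (S O) B]
    (j : ℕ) (f : A →ₗ[S O] B) (v : A) :
    D2.map (D2.map (D2.map f)) (mp O j v) = mp O j (f v) := by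
  rw [mp_apply, mp_apply, ← ZZ_nat]
  refine D2.ext ?_ ?_
  · change D2.map (D2.map f) (zip O true j _) = zip O true j (D2.map f _)
    rw [zip_nat]
  · change D2.map (D2.map f) (zip O true j _) = zip O true j (D2.map f _)
    rw [zip_nat]

/-- negligibility in the context of one letter -/
theorem ctx1 [IsDomain O] (P : Pot O) (j l : ℕ) {z : D2 true l K}
    (hz : z ∈ HH O (D2 true l K)) :
    D2.map (P.h (yv O j) (yv O (j + 1)) • zip O true j) z ∈ NN P (D2 true l (D2 true j K)) :=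
  ctxNeg_h_zip P j (SM.mk K) [l] z hz

theorem c111 [IsDomain O] (n : ℕ) {v u : K} (hv : d v + muv P (n + 1) i • u ∈ N0 P K)
    (hu : u ∈ HH O K) :
    D2.map (D2.map (D2.map d)) (mm O i (bb P i (n + 1) • v)) +
      D2.map (D2.map (zip O true i)) (zip O true i (zip O true (i + 1) (h3v P i • u))) +
      muv P n (i + 1) • mm O i (bb P i n • u) ∈ N0 P _ := by
  have h1 := map_mem_N0 (bb P i (n + 1) • mm O i) hv
  have h2 := NN_le_N0 (ctx1 P (i + 1) i (map_mem_HH (ZZ O i) hu))
  rw [I1] at h2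
  have h3 := add_mem h1 h2
  have h4 := r111 P i n
  have t : (2 : S O) = 0 := two0 (S O)
  convert h3 using 1
  rw [mm_nat, ← zip_nat, ← zip_nat]
  simp only [LinearMap.smul_apply, map_smul, map_add]
  match_scalars
  · ring
  · ring
  · linear_combination h4 - bb P i (n + 1) * muv P (n + 1) i * t

theorem c011 (n : ℕ) {u w : K} (hv : d u + muv P n i • w ∈ N0 P K) (hw : w ∈ HH O K) :
    D2.map (D2.map d) (zip O true i (zip O true (i + 1) (h3v P i • u))) +
      muv P n (i + 1) • zip O true i (zip O true (i + 1) (h3v P i • w)) ∈ N0 P _ := by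
  obtain ⟨s, hs⟩ := r011 P i n
  have h1 := map_mem_N0 (h3v P i • (zip O true i ∘ₗ zip O true (i + 1))) hv
  have h2 := NN_le_N0 (h_zip_mem P i (map_mem_HH (s • zip O true (i + 1)) hw))
  have h3 := NN_le_N0 (map_mem_NN (s • zip O true i) (h_zip_mem P (i + 1) hw))
  have h4 := add_mem h1 (add_mem h2 h3)
  have t : (2 : S O) = 0 := two0 (S O)
  convert h4 using 1
  rw [← zip_nat, ← zip_nat]
  simp only [LinearMap.smul_apply, map_smul, map_add, LinearMap.comp_apply]
  match_scalars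
  · ring
  · linear_combination hs - h3v P i * muv P n i * t

/-! ### scalars inside a letter -/

theorem mid_e1 {j : ℕ} (z : D2 true j K) : mid O (yv O j + yv O (j + 1)) z =
    (yv O j + yv O (j + 1)) • z := by
  have h := D2.e1_smul (O := O) z
  rw [e1y] at h
  rw [h]
  rfl

theorem mid_e2 {j : ℕ} (z : D2 true j K) : mid O (yv O j * yv O (j + 1)) z =
    (yv O j * yv O (j + 1)) • z := by
  have h := D2.e2_smul (O := O) z
  rw [e2y] at h
  rw [h]
  rfl

theorem mid_smul' {j : ℕ} (p q : S O) (z : D2 true j K) : mid O p (q • z) = q • mid O p z :=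
  map_smul _ _ _

theorem mid_h {j : ℕ} (z : D2 true j K) : mid O (P.h (yv O j) (yv O (j + 1))) z =
    P.h (yv O j) (yv O (j + 1)) • z := by
  have e : P.h (yv O j) (yv O (j + 1)) = (yv O j + yv O (j + 1)) * (yv O j + yv O (j + 1)) +
      yv O j * yv O (j + 1) + MvPolynomial.C P.ka * (yv O j + yv O (j + 1)) +
      MvPolynomial.C P.ta := by
    unfold Pot.h
    rw [MvPolynomial.algebraMap_eq]
    (rw [← sub_eq_zero]; ring_nf <;> simp only [two0, three1, four0, five1, six0, seven1,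
          eight0, mul_zero, zero_mul, add_zero, zero_add, neg_zero, sub_zero, sub_self, mul_one])
  have h1 : mid O ((yv O j + yv O (j + 1)) * (yv O j + yv O (j + 1))) z =
      ((yv O j + yv O (j + 1)) * (yv O j + yv O (j + 1))) • z := by
    rw [mid_mul, mid_e1, mid_e1, ← mul_smul]
  have h2 : mid O (MvPolynomial.C P.ka * (yv O j + yv O (j + 1))) z =
      (MvPolynomial.C P.ka * (yv O j + yv O (j + 1))) • z := by
    rw [mid_mul, mid_C, mid_e1, ← mul_smul]
  rw [e, mid_add, mid_add, mid_add, h1, h2, mid_e2, mid_C, ← add_smul, ← add_smul, ← add_smul]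

theorem mid_h3 (z : D2 true i K) : mid O (h3v P i) z = h3v P i • z := by
  unfold h3v
  rw [mid_add, mid_add, mid_e1, mid_yv_ne _ (by omega) (by omega), mid_C, ← add_smul, ← add_smul]

theorem mid_h3' (z : D2 true (i + 1) K) : mid O (h3v P i) z = h3v P i • z := by
  have e : h3v P i = yv O i + (yv O (i + 1) + yv O (i + 1 + 1)) + MvPolynomial.C P.ka := by
    unfold h3v; ring
  rw [e, mid_add, mid_add, mid_e1, mid_yv_ne _ (by omega) (by omega), mid_C, ← add_smul,
    ← add_smul]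

theorem mid_h02 (v : K) : mid O (P.h (yv O i) (yv O (i + 2))) (ZZ O i v) =
    P.h (yv O (i + 1)) (yv O (i + 2)) • ZZ O i v +
      h3v P i • zip O true i (zip O true i v) := by
  have h1 := mid_h_split P (yv O (i + 2)) (zip O true i v)
    (fun z => mid_yv_ne (i + 2) (by omega) (by omega) z)
  have t : (2 : S O) = 0 := two0 (S O)
  have e : P.h (yv O i) (yv O (i + 2)) = P.h (yv O (i + 1)) (yv O (i + 2)) +
      h3v P i * (yv O i + yv O (i + 1)) := by
    linear_combination - q3 P i - P.h (yv O (i + 1)) (yv O (i + 2)) * t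
  rw [← ZZ_apply] at h1
  have e' : yv O i + yv O (i + 1) + yv O (i + 2) + MvPolynomial.C P.ka = h3v P i := rfl
  rw [e'] at h1
  rw [e, mid_add, mid_mul, mid_e1, mid_smul', mid_h3, h1]
  have h3 := q3 P i
  match_scalars
  · linear_combination h3 + P.h (yv O i) (yv O (i + 2)) * t
  · ring

theorem z0_1 (v : K) : zip O true i (P.h (yv O i) (yv O (i + 2)) • v) +
    unzip O true i (mid O (P.h (yv O i) (yv O (i + 2))) (ZZ O i v)) = 0 := by
  rw [unzip_mid, ZZ_apply, unzip_split, map_smul]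
  exact add_self_mod (O := O) _

theorem z0_3 (v : K) : D2.map (zip O true i) (zip O true (i + 1) v) +
    unzip O true i (mm O i v) = 0 := by
  rw [mm_apply, unzip_nat, ZZ_apply, unzip_split, ← zip_nat]
  exact add_self_mod (O := O) _

theorem z0_2 {v u : K} (hv : d v + muv P 1 i • u ∈ N0 P K) (hu : u ∈ HH O K) :
    D2.map d (zip O true (i + 1) (bb P i 1 • v)) +
      zip O true (i + 1) (P.h (yv O i) (yv O (i + 2)) • u) ∈ N0 P (D2 true (i + 1) K) := by
  have h1 := map_mem_N0 (bb P i 1 • zip O true (i + 1)) hv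
  have h2 := NN_le_N0 (h_zip_mem P (i + 1) hu)
  have h3 := add_mem h1 h2
  have h4 := q3 P i
  have t : (2 : S O) = 0 := two0 (S O)
  have e : muv P 1 i = yv O i + yv O (i + 1) := rfl
  have e' : bb P i 1 = h3v P i := rfl
  rw [e, e'] at h3
  rw [e']
  convert h3 using 1
  rw [← zip_nat]
  simp only [LinearMap.smul_apply, map_smul, map_add]
  match_scalars
  · ring
  · linear_combination - h4 - P.h (yv O (i + 1)) (yv O (i + 2)) * t

theorem z0_7 [IsDomain O] {v u : K} (hv : d v + muv P 1 i • u ∈ N0 P K) (hu : u ∈ HH O K) :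
    D2.map (D2.map (D2.map d)) (mm O i (bb P i 1 • v)) +
      D2.map (zip O true (i + 1)) (mid O (P.h (yv O i) (yv O (i + 2))) (ZZ O i u)) ∈
        N0 P _ := by
  have h1 := map_mem_N0 (bb P i 1 • mm O i) hv
  have h2 := NN_le_N0 (ctx1 P (i + 1) i (map_mem_HH (ZZ O i) hu))
  rw [I1] at h2
  have h3 := add_mem h1 h2
  have h4 := q3 P i
  have t : (2 : S O) = 0 := two0 (S O)
  have e : muv P 1 i = yv O i + yv O (i + 1) := rfl
  have e' : bb P i 1 = h3v P i := rfl
  rw [e, e'] at h3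
  rw [e']
  convert h3 using 1
  rw [mm_nat, mid_h02]
  have h5 : D2.map (zip O true (i + 1)) (zip O true i (zip O true i u)) =
      zip O true i (zip O true (i + 1) (zip O true i u)) := (zip_nat _ _ _ _).symm
  simp only [LinearMap.smul_apply, map_smul, map_add, h5]
  rw [← mm_apply]
  match_scalars
  · ring
  · linear_combination - h4 - P.h (yv O i) (yv O (i + 2)) * t
  · ring

/-- component `000` for `c = 1` -/
theorem z1_0 (u : K) : unzip O true i (zip O true i (P.h (yv O i) (yv O (i + 2)) • u)) +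
    muv P 1 (i + 1) • P.h (yv O i) (yv O (i + 2)) • u ∈ N0 P K := by
  have h3 := NN_le_N0 (add_mem (p_mem P i u) (p_mem P (i + 2) u))
  have h4 := q4 P (yv O i) (yv O (i + 2))
  have t : (2 : S O) = 0 := two0 (S O)
  have e : muv P 1 (i + 1) = yv O (i + 1) + yv O (i + 2) := rfl
  convert h3 using 1
  rw [unzip_zip, e1y, e]
  match_scalars
  linear_combination h4 + (yv O (i + 1)) * P.h (yv O i) (yv O (i + 2)) * t

/-- component `101` for `c = 1` -/
theorem z1_5 {u : K} (hu : u ∈ HH O K) :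
    D2.map (zip O true i) (zip O true i (P.h (yv O i) (yv O (i + 2)) • u)) +
      muv P 1 (i + 1) • mid O (P.h (yv O i) (yv O (i + 2))) (ZZ O i u) ∈ N0 P _ := by
  have h1 := h_D2_mem P i (w := zip O true i (zip O true i u)) (map_mem_HH _ (map_mem_HH _ hu))
  have h3 := NN_le_N0 (add_mem h1 (add_mem (p_mem P (i + 1) (ZZ O i u))
    (p_mem P (i + 2) (ZZ O i u))))
  have h4 := q4 P (yv O (i + 1)) (yv O (i + 2))
  have h5 := q2 P i
  have t : (2 : S O) = 0 := two0 (S O)
  have e : muv P 1 (i + 1) = yv O (i + 1) + yv O (i + 2) := rfl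
  convert h3 using 1
  rw [← zip_nat, e, mid_h02]
  simp only [map_smul, smul_add]
  match_scalars
  · linear_combination h5 + P.h (yv O i) (yv O (i + 2)) * t
  · linear_combination h4

/-- component `011` for `c = 1` -/
theorem z1_6 {v u : K} (hv : d v + muv P 1 i • u ∈ N0 P K) (hu : u ∈ HH O K) :
    D2.map (D2.map d) (zip O true i (zip O true (i + 1) (h3v P i • v))) +
      D2.map (zip O true (i + 1)) (zip O true i (P.h (yv O i) (yv O (i + 2)) • u)) ∈
        N0 P _ := by
  have h1 := map_mem_N0 (h3v P i • (zip O true i ∘ₗ zip O true (i + 1))) hv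
  have h2 := NN_le_N0 (map_mem_NN (zip O true i) (h_zip_mem P (i + 1) hu))
  have h3 := add_mem h1 h2
  have h4 := q3 P i
  have t : (2 : S O) = 0 := two0 (S O)
  have e : muv P 1 i = yv O i + yv O (i + 1) := rfl
  rw [e] at h3
  convert h3 using 1
  rw [← zip_nat, ← zip_nat, ← zip_nat]
  simp only [LinearMap.smul_apply, map_smul, map_add, LinearMap.comp_apply]
  match_scalars
  · ring
  · linear_combination - h4 - P.h (yv O (i + 1)) (yv O (i + 2)) * t

/-- component `001` for `c = 2` -/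
theorem z2_4 {u : K} (hu : u ∈ HH O K) :
    muv P 2 (i + 1) • zip O true i (P.h (yv O i) (yv O (i + 2)) • u) ∈ N0 P _ := by
  have h1 := h_zip_mem P i hu
  have h2 := Submodule.smul_mem _ (P.h (yv O (i + 1)) (yv O (i + 2))) h1
  have h3 := NN_le_N0 (add_mem h2 (Submodule.smul_mem _ (h3v P i)
    (add_mem (p_mem P (i + 1) (zip O true i u)) (p_mem P (i + 2) (zip O true i u)))))
  have h4 := q4 P (yv O (i + 1)) (yv O (i + 2))
  have h5 := q2 P i
  have t : (2 : S O) = 0 := two0 (S O)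
  have e : muv P 2 (i + 1) = P.h (yv O (i + 1)) (yv O (i + 2)) := rfl
  convert h3 using 1
  rw [e]
  simp only [map_smul, smul_add]
  match_scalars
  linear_combination h3v P i * h4 - P.h (yv O (i + 1)) (yv O (i + 2)) * h5 +
    (P.h (yv O (i + 1)) (yv O (i + 2)) * P.h (yv O i) (yv O (i + 1))) * (-t)

/-! ### the components of `w'` -/

theorem w_0 {u : K} (hu : u ∈ HH O K) :
    D2.map (unzip O true i) (zip O true (i + 1) (zip O true i (h3v P i • u))) +
      zip O true (i + 1) (P.h (yv O i) (yv O (i + 2)) • u) ∈ N0 P (D2 true (i + 1) K) := by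
  have h2 := NN_le_N0 (h_zip_mem P (i + 1) hu)
  have h4 := q3 P i
  have t : (2 : S O) = 0 := two0 (S O)
  convert h2 using 1
  rw [← zip_nat, unzip_zip, e1y]
  simp only [map_smul]
  match_scalars
  linear_combination h4 + P.h (yv O i) (yv O (i + 2)) * t

theorem w_2 {v u : K} (hv : d v + P.h (yv O i) (yv O (i + 1)) • u ∈ N0 P K) (hu : u ∈ HH O K) :
    D2.map (D2.map d) (ZZ O (i + 1) v) + D2.map (unzip O true i) (mp O i (h3v P i • u)) +
      zip O true (i + 1) (zip O true (i + 1) (h3v P i • u)) ∈ N0 P _ := by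
  have h1 := map_mem_N0 (ZZ O (i + 1)) hv
  have h2 := NN_le_N0 (h_D2_mem P (i + 1) (map_mem_HH (ZZ O (i + 1)) hu))
  have h3 := add_mem h1 h2
  have h4 := q1 P i
  have t : (2 : S O) = 0 := two0 (S O)
  convert h3 using 1
  have e1 : D2.map (unzip O true i) (mp O i (h3v P i • u)) =
      (yv O i • ZZ O (i + 1) (h3v P i • u)) + mid O (yv O (i + 1)) (ZZ O (i + 1) (h3v P i • u)) := by
    rw [mp_apply, ← mid_yv_ne i (by omega) (by omega), ← mid_add]
    refine D2.ext ?_ ?_
    · change unzip O true i (zip O true i _) = _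
      rw [unzip_zip]; rfl
    · change unzip O true i (zip O true i _) = _
      rw [unzip_zip]; rfl
  have e2 : zip O true (i + 1) (zip O true (i + 1) (h3v P i • u)) =
      mid O (yv O (i + 1)) (ZZ O (i + 1) (h3v P i • u)) +
        yv O (i + 2) • ZZ O (i + 1) (h3v P i • u) := by
    rw [zip_zip_ZZ, be_eq]
    have h5 := mid_e1 (O := O) (ZZ O (i + 1) (h3v P i • u))
    rw [mid_add, add_smul] at h5
    have h6 := add_self_mod (O := O) (mid O (yv O (i + 1)) (ZZ O (i + 1) (h3v P i • u)))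
    have h7 := add_self_mod (O := O) (yv O (i + 1) • (ZZ O (i + 1) (h3v P i • u)))
    calc mid O (yv O (i + 1 + 1)) (ZZ O (i + 1) (h3v P i • u)) +
          yv O (i + 1) • ZZ O (i + 1) (h3v P i • u) =
        (mid O (yv O (i + 1)) (ZZ O (i + 1) (h3v P i • u)) +
          mid O (yv O (i + 1 + 1)) (ZZ O (i + 1) (h3v P i • u))) +
          yv O (i + 1) • ZZ O (i + 1) (h3v P i • u) +
          mid O (yv O (i + 1)) (ZZ O (i + 1) (h3v P i • u)) := by
            generalize mid O (yv O (i + 1)) (ZZ O (i + 1) (h3v P i • u)) = a at h6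
            generalize mid O (yv O (i + 1 + 1)) (ZZ O (i + 1) (h3v P i • u)) = b
            calc b + yv O (i + 1) • ZZ O (i + 1) (h3v P i • u) =
                b + yv O (i + 1) • ZZ O (i + 1) (h3v P i • u) + (a + a) := by rw [h6, add_zero]
              _ = _ := by abel
      _ = _ := by
            rw [h5]
            calc _ = mid O (yv O (i + 1)) (ZZ O (i + 1) (h3v P i • u)) +
                  yv O (i + 2) • ZZ O (i + 1) (h3v P i • u) +
                  (yv O (i + 1) • ZZ O (i + 1) (h3v P i • u) +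
                    yv O (i + 1) • ZZ O (i + 1) (h3v P i • u)) := by abel
              _ = _ := by rw [h7, add_zero]
  rw [ZZ_nat, e1, e2]
  simp only [map_smul, map_add]
  match_scalars
  · ring
  · linear_combination h4
  · linear_combination h3v P i * t

theorem w_3 {v : K} {w : D2 true i K} (hw : D2.map d w + zip O true i v ∈ N0 P _) :
    D2.map (D2.map (D2.map d)) (ZZ O (i + 1) w) + D2.map (D2.map (zip O true i)) (ZZ O (i + 1) v) ∈
      N0 P _ := by
  rw [ZZ_nat, ZZ_nat, ← map_add]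
  exact map_mem_N0 _ hw

theorem w_4 {u : K} (hu : d u ∈ N0 P K) :
    D2.map (D2.map d) (zip O true (i + 1) (zip O true i (h3v P i • u))) ∈ N0 P _ := by
  rw [← zip_nat, ← zip_nat, map_smul]
  exact map_mem_N0 (zip O true (i + 1)) (map_mem_N0 (zip O true i) (Submodule.smul_mem _ _ hu))

theorem w_5 {u : K} (hu : u ∈ HH O K) :
    D2.map (D2.map (zip O true i)) (zip O true (i + 1) (zip O true i (h3v P i • u))) +
      zip O true (i + 1) (mid O (P.h (yv O i) (yv O (i + 2))) (ZZ O i u)) ∈ N0 P _ := by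
  have h2 := NN_le_N0 (h_zip_mem P (i + 1) (map_mem_HH (ZZ O i) hu))
  have t : (2 : S O) = 0 := two0 (S O)
  convert h2 using 1
  rw [← zip_nat, ← zip_nat, mid_h02]
  simp only [map_smul, map_add]
  match_scalars
  · linear_combination h3v P i * t
  · ring

theorem zzz (v : K) : zip O true (i + 1) (zip O true i (zip O true (i + 1) v)) =
    be O (i + 1) (mp O i v) := by
  rw [mp_apply, be_nat, ← zip_zip_ZZ, ← zip_nat]

theorem w_6 [IsDomain O] {v u : K} (hv : d v + (yv O i + yv O (i + 1)) • u ∈ N0 P K)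
    (hu : u ∈ HH O K) :
    D2.map (D2.map (D2.map d)) (mp O i (h3v P i • v)) +
      zip O true (i + 1) (zip O true i (zip O true (i + 1) (h3v P i • u))) ∈ N0 P _ := by
  have h1 := map_mem_N0 (h3v P i • mp O i) hv
  have h2 := NN_le_N0 (h_D2_mem P (i + 1) (map_mem_HH (mp O i) hu))
  have h3 := NN_le_N0 (ctx1 P i (i + 1) (map_mem_HH (ZZ O (i + 1)) hu))
  have h4 := add_mem h1 (add_mem h2 h3)
  have t : (2 : S O) = 0 := two0 (S O)
  have e1 : D2.map (P.h (yv O i) (yv O (i + 1)) • zip O true i) (ZZ O (i + 1) u) =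
      mid O (P.h (yv O i) (yv O (i + 1))) (mp O i u) := by
    refine D2.ext ?_ ?_ <;> rfl
  have e2 : P.h (yv O (i + 1)) (yv O (i + 1 + 1)) • mp O i u =
      mid O (P.h (yv O (i + 1)) (yv O (i + 1 + 1))) (mp O i u) := (mid_h _).symm
  have e3 : mid O (P.h (yv O (i + 1)) (yv O (i + 1 + 1))) (mp O i u) +
      mid O (P.h (yv O i) (yv O (i + 1))) (mp O i u) =
      yv O i • h3v P i • mp O i u + mid O (yv O (i + 2)) (h3v P i • mp O i u) := by
    have e4 : yv O i • h3v P i • mp O i u = mid O (yv O i) (h3v P i • mp O i u) :=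
      (mid_yv_ne i (by omega) (by omega) _).symm
    have e5 : h3v P i • mp O i u = mid O (h3v P i) (mp O i u) := (mid_h3' _).symm
    rw [e4, ← mid_add, ← mid_add, e5, ← mid_mul, q1]
    exact congrArg (fun p => mid O p (mp O i u)) (add_comm _ _)
  rw [e1, e2, e3] at h4
  convert h4 using 1
  rw [mp_nat, zzz, be_eq]
  simp only [LinearMap.smul_apply, map_smul, map_add]
  match_scalars
  · ring
  · ring
  · linear_combination - (yv O i * h3v P i) * t

theorem w_7 {u : K} (hu : u ∈ HH O K) :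
    D2.map (D2.map (D2.map (zip O true i))) (mp O i (h3v P i • u)) +
      zip O true (i + 1) (mm O i (h3v P i • u)) ∈ N0 P _ := by
  have h := NN_le_N0 (J1 P (map_mem_HH (zip O true i) hu))
  convert h using 1
  rw [mp_nat]
  have e : DD O i (zip O true i u) = zip O true (i + 1) (mm O i u) := rfl
  rw [e]
  simp only [map_smul, smul_add]

end comp

section final
variable (P : Pot O) (i : ℕ) {K : Type} [AddCommGroup K] [Module (S O) K]

/-- the new cycle -/
noncomputable def zs (z : ℕ → K) : ℕ → W3 i K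
  | 0 => mk8 O i (P.h (yv O i) (yv O (i + 2)) • z 0) 0 (zip O true (i + 1) (bb P i 1 • z 1)) 0 0
      (mid O (P.h (yv O i) (yv O (i + 2))) (ZZ O i (z 0))) 0 (mm O i (bb P i 1 • z 1))
  | 1 => mk8 O i 0 0 (zip O true (i + 1) (bb P i 2 • z 2)) 0
      (zip O true i (P.h (yv O i) (yv O (i + 2)) • z 0)) 0
      (zip O true i (zip O true (i + 1) (h3v P i • z 1))) (mm O i (bb P i 2 • z 2))
  | c + 2 => mk8 O i 0 0 (zip O true (i + 1) (bb P i (c + 3) • z (c + 3))) 0 0 0
      (zip O true i (zip O true (i + 1) (h3v P i • z (c + 2)))) (mm O i (bb P i (c + 3) • z (c + 3)))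

theorem zs_mem {z : ℕ → K} (hz : ∀ c, z c ∈ HH O K) (c : ℕ) : zs P i z c ∈ HH O (W3 i K) := by
  rcases c with _ | _ | c
  · exact mk8_mem_HH O i (Submodule.smul_mem _ _ (hz 0)) (zero_mem _)
      (map_mem_HH _ (Submodule.smul_mem _ _ (hz 1))) (zero_mem _) (zero_mem _)
      (map_mem_HH _ (map_mem_HH _ (hz 0))) (zero_mem _)
      (map_mem_HH _ (Submodule.smul_mem _ _ (hz 1)))
  · exact mk8_mem_HH O i (zero_mem _) (zero_mem _)
      (map_mem_HH _ (Submodule.smul_mem _ _ (hz 2))) (zero_mem _)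
      (map_mem_HH _ (Submodule.smul_mem _ _ (hz 0))) (zero_mem _)
      (map_mem_HH _ (map_mem_HH _ (Submodule.smul_mem _ _ (hz 1))))
      (map_mem_HH _ (Submodule.smul_mem _ _ (hz 2)))
  · exact mk8_mem_HH O i (zero_mem _) (zero_mem _)
      (map_mem_HH _ (Submodule.smul_mem _ _ (hz (c + 3)))) (zero_mem _) (zero_mem _) (zero_mem _)
      (map_mem_HH _ (map_mem_HH _ (Submodule.smul_mem _ _ (hz (c + 2)))))
      (map_mem_HH _ (Submodule.smul_mem _ _ (hz (c + 3))))

variable (d : K →ₗ[S O] K) [IsDomain O]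

theorem zs_d0 {z : ℕ → K} (hz : ∀ c, z c ∈ HH O K) (h0 : d (z 0) ∈ N0 P K)
    (h1 : d (z 1) + muv P 1 i • z 0 ∈ N0 P K) : d3 O i d (zs P i z 0) ∈ N0 P (W3 i K) := by
  change d3 O i d (mk8 O i _ _ _ _ _ _ _ _) ∈ _
  rw [d3_mk8]
  simp only [map_zero, add_zero, zero_add]
  refine mk8_mem_N0 O i ?_ ?_ ?_ ?_ (zero_mem _) ?_ (zero_mem _) ?_
  · rw [map_smul]; exact Submodule.smul_mem _ _ h0
  · rw [z0_1]; exact zero_mem _
  · exact z0_2 d h1 (hz 0)
  · rw [z0_3]; exact zero_mem _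
  · have e : D2.map (D2.map d) (mid O (P.h (yv O i) (yv O (i + 2))) (ZZ O i (z 0))) =
        mid O (P.h (yv O i) (yv O (i + 2))) (ZZ O i (d (z 0))) := by
      rw [← ZZ_nat, mid_nat]
    rw [e]
    exact map_mem_N0 _ (map_mem_N0 _ h0)
  · exact z0_7 d h1 (hz 0)

theorem zs_d1 {z : ℕ → K} (hz : ∀ c, z c ∈ HH O K) (h0 : d (z 0) ∈ N0 P K)
    (h1 : d (z 1) + muv P 1 i • z 0 ∈ N0 P K) (h2 : d (z 2) + muv P 2 i • z 1 ∈ N0 P K) :
    d3 O i d (zs P i z 1) + muv P 1 (i + 1) • zs P i z 0 ∈ N0 P (W3 i K) := by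
  change d3 O i d (mk8 O i _ _ _ _ _ _ _ _) + _ • mk8 O i _ _ _ _ _ _ _ _ ∈ _
  rw [d3_mk8, mk8_smul, mk8_add]
  simp only [map_zero, add_zero, zero_add, smul_zero]
  refine mk8_mem_N0 O i ?_ (zero_mem _) ?_ ?_ ?_ ?_ ?_ ?_
  · exact z1_0 (z 0)
  · exact c010 d 1 h2 (hz 1)
  · rw [z0_3]; exact zero_mem _
  · rw [← zip_nat, map_smul]
    exact map_mem_N0 _ (Submodule.smul_mem _ _ h0)
  · exact z1_5 (hz 0)
  · exact z1_6 d h1 (hz 0)
  · exact c111 d 1 h2 (hz 1)

theorem zs_d2 {z : ℕ → K} (hz : ∀ c, z c ∈ HH O K)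
    (h1 : d (z 2) + muv P 2 i • z 1 ∈ N0 P K) (h2 : d (z 3) + muv P 3 i • z 2 ∈ N0 P K) :
    d3 O i d (zs P i z 2) + muv P 2 (i + 1) • zs P i z 1 ∈ N0 P (W3 i K) := by
  change d3 O i d (mk8 O i _ _ _ _ _ _ _ _) + _ • mk8 O i _ _ _ _ _ _ _ _ ∈ _
  rw [d3_mk8, mk8_smul, mk8_add]
  simp only [map_zero, add_zero, zero_add, smul_zero]
  refine mk8_mem_N0 O i (zero_mem _) (zero_mem _) ?_ ?_ ?_ (zero_mem _) ?_ ?_
  · exact c010 d 2 h2 (hz 2)
  · rw [z0_3]; exact zero_mem _
  · exact z2_4 (hz 0)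
  · exact c011 d 2 h1 (hz 1)
  · exact c111 d 2 h2 (hz 2)

theorem zs_d3 {z : ℕ → K} (hz : ∀ c, z c ∈ HH O K) (c : ℕ)
    (h1 : d (z (c + 3)) + muv P (c + 3) i • z (c + 2) ∈ N0 P K)
    (h2 : d (z (c + 4)) + muv P (c + 4) i • z (c + 3) ∈ N0 P K) :
    d3 O i d (zs P i z (c + 3)) + muv P (c + 3) (i + 1) • zs P i z (c + 2) ∈ N0 P (W3 i K) := by
  change d3 O i d (mk8 O i _ _ _ _ _ _ _ _) + _ • mk8 O i _ _ _ _ _ _ _ _ ∈ _
  rw [d3_mk8, mk8_smul, mk8_add]
  simp only [map_zero, add_zero, zero_add, smul_zero]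
  refine mk8_mem_N0 O i (zero_mem _) (zero_mem _) ?_ ?_ (zero_mem _) (zero_mem _) ?_ ?_
  · exact c010 d (c + 3) h2 (hz (c + 3))
  · rw [z0_3]; exact zero_mem _
  · exact c011 d (c + 3) h1 (hz (c + 2))
  · exact c111 d (c + 3) h2 (hz (c + 3))

/-- the new top element for `r ≥ 1` -/
noncomputable def ws (z : ℕ → K) (w : D2 true i K) (r : ℕ) : D2 true (i + 1) (W3 i K) :=
  mk8D O i 0 0 (ZZ O (i + 1) (z (2 * r + 2))) (ZZ O (i + 1) w)
    (if r = 0 then zip O true (i + 1) (zip O true i (h3v P i • z 0)) else 0) 0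
    (mp O i (h3v P i • z (2 * r + 1))) 0

theorem ws_mem {z : ℕ → K} {w : D2 true i K} (hz : ∀ c, z c ∈ HH O K)
    (hw : w ∈ HH O (D2 true i K)) (r : ℕ) :
    ws P i z w r ∈ HH O (D2 true (i + 1) (W3 i K)) := by
  refine mk8D_mem_HH O i (zero_mem _) (zero_mem _) (map_mem_HH _ (hz _)) (map_mem_HH _ hw) ?_
    (zero_mem _) (map_mem_HH _ (Submodule.smul_mem _ _ (hz _))) (zero_mem _)
  split_ifs
  · exact map_mem_HH _ (map_mem_HH _ (Submodule.smul_mem _ _ (hz 0)))
  · exact zero_mem _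

theorem ws_d (r : ℕ) {z : ℕ → K} {w : D2 true i K} (hz : ∀ c, z c ∈ HH O K)
    (h0 : d (z 0) ∈ N0 P K)
    (h1 : d (z (2 * r + 1)) + muv P (2 * r + 1) i • z (2 * r) ∈ N0 P K)
    (h2 : d (z (2 * r + 2)) + muv P (2 * r + 2) i • z (2 * r + 1) ∈ N0 P K)
    (h3 : D2.map d w + zip O true i (z (2 * r + 2)) ∈ N0 P _) :
    D2.map (d3 O i d) (ws P i z w r) + zip O true (i + 1) (zs P i z (2 * r)) ∈
      N0 P (D2 true (i + 1) (W3 i K)) := by
  have e1 : muv P (2 * r + 1) i = yv O i + yv O (i + 1) := if_pos (by omega)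
  have e2 : muv P (2 * r + 2) i = P.h (yv O i) (yv O (i + 1)) := if_neg (by omega)
  rw [e1] at h1
  rw [e2] at h2
  unfold ws
  rw [map_d3_mk8D]
  rcases r with _ | r
  · change _ + zip O true (i + 1) (mk8 O i _ _ _ _ _ _ _ _) ∈ _
    rw [zip_mk8, mk8D_add, if_pos rfl]
    simp only [map_zero, add_zero, zero_add, smul_zero]
    refine mk8D_mem_N0 O i ?_ (zero_mem _) ?_ ?_ ?_ ?_ ?_ ?_
    · exact w_0 (hz 0)
    · exact w_2 d h2 (hz _)
    · exact w_3 d h3
    · exact w_4 d h0
    · exact w_5 (hz 0)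
    · have := w_6 d h1 (hz _)
      rw [← zip_nat, ← zip_nat]
      exact this
    · exact w_7 (hz _)
  · have e3 : zs P i z (2 * (r + 1)) = zs P i z (2 * r + 2) := rfl
    have e4 : bb P i (2 * r + 3) = h3v P i := if_pos (by omega)
    rw [e3]
    change _ + zip O true (i + 1) (mk8 O i _ _ _ _ _ _ _ _) ∈ _
    rw [zip_mk8, mk8D_add, if_neg (by omega), e4]
    simp only [map_zero, add_zero, zero_add, smul_zero]
    refine mk8D_mem_N0 O i (zero_mem _) (zero_mem _) ?_ ?_ (zero_mem _) (zero_mem _) ?_ ?_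
    · exact w_2 d h2 (hz _)
    · exact w_3 d h3
    · exact w_6 d h1 (hz _)
    · exact w_7 (hz _)

end final

end SP

/-- (H3) the positive tower step -/
theorem TCycP.step [IsDomain O] {P : Pot O} {i r : ℕ} {C : DM O} {a : O}
    (h : TCycP P i (r + 1) C a) :
    TCycP P (i + 1) r (Fw [(i, true), (i + 1, true), (i, false)] C) (P.ta * a) := by
  obtain ⟨z, w, hz, hw, h0, h1, h2, h3⟩ := h
  refine ⟨SP.zs P i z, SP.ws P i z w r, SP.zs_mem P i hz, SP.ws_mem P i hz hw r,
    SP.zs_d0 P i C.d hz h0 (h1 0 (by omega)), ?_, ?_, ?_⟩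
  · intro c hc
    rcases c with _ | _ | c
    · exact SP.zs_d1 P i C.d hz h0 (h1 0 (by omega)) (h1 1 (by omega))
    · exact SP.zs_d2 P i C.d hz (h1 1 (by omega)) (h1 2 (by omega))
    · exact SP.zs_d3 P i C.d hz c (h1 (c + 2) (by omega)) (h1 (c + 3) (by omega))
  · exact SP.ws_d P i C.d r hz h0 (h1 (2 * r) (by omega)) (h1 (2 * r + 1) (by omega)) h2
  · have e : (SP.zs P i z 0).1.1.1 = P.h (yv O i) (yv O (i + 2)) • z 0 := by
      change (SP.mk8 O i _ _ _ _ _ _ _ _).1.1.1 = _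
      simp [SP.mk8, SP.j0, SP.j1, SP.j2, SP.j3, SP.j4, SP.j5, SP.j6, SP.j7]
    change C.ep (SP.zs P i z 0).1.1.1 = _
    rw [e, map_smulₛₗ, h3, ev_h, ev_inr, ev_inr, smul_eq_mul]
    simp [Pot.h]

end CQ
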