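import Pool.Agent.CQ.Basic

/-!
# Block H, base file: colour `0` at the base strand, columns, tower cycles
-/

set_option autoImplicit false
set_option linter.unusedSectionVars false
set_option linter.unusedSimpArgs false
set_option linter.style.longLine false

namespace CQ

open MvPolynomial

variable {O : Type} [CommRing O] [CharP O 2]

/-! ## `N0`: killed by all functionals with colour `0` on strand `0` -/

/-- elements killed by all functionals with colour `0` on strand `0` -/
def N0 (P : Pot O) (C : Type) [AddCommGroup C] [Module (S O) C] : Submodule (S O) C where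
  carrier := {z | ∀ c : ℕ → O, P.IsCol c → c 0 = 0 → ∀ ψ : C →ₛₗ[ev c] O, ψ z = 0}
  add_mem' {z w} hz hw c hc h0 ψ := by rw [map_add, hz c hc h0 ψ, hw c hc h0 ψ, add_zero]
  zero_mem' c hc h0 ψ := map_zero ψ
  smul_mem' s z hz c hc h0 ψ := by rw [map_smulₛₗ, hz c hc h0 ψ, smul_zero]

section N0
variable {P : Pot O} {C D : Type} [AddCommGroup C] [Module (S O) C] [AddCommGroup D]
  [Module (S O) D]

theorem mem_N0 {z : C} : z ∈ N0 P C ↔ ∀ c : ℕ → O, P.IsCol c → c 0 = 0 →
    ∀ ψ : C →ₛₗ[ev c] O, ψ z = 0 := Iff.rfl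

theorem NN_le_N0 : NN P C ≤ N0 P C := fun _ hz c hc _ ψ => hz c hc ψ

theorem map_mem_N0 (f : C →ₗ[S O] D) {z : C} (hz : z ∈ N0 P C) : f z ∈ N0 P D :=
  fun c hc h0 ψ => hz c hc h0 (ψ.comp f)

theorem xv0_smul_mem_N0 (z : C) : xv O 0 • z ∈ N0 P C := fun c _ h0 ψ => by
  rw [map_smulₛₗ, ev_inl, h0, zero_smul]

theorem yv0_smul_mem_N0 (z : C) : yv O 0 • z ∈ N0 P C := fun c _ h0 ψ => by
  rw [map_smulₛₗ, ev_inr, h0, zero_smul]

theorem mem_N0_prod {z : C × D} (h1 : z.1 ∈ N0 P C) (h2 : z.2 ∈ N0 P D) : z ∈ N0 P (C × D) := by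
  have : z = LinearMap.inl (S O) C D z.1 + LinearMap.inr (S O) C D z.2 := by
    ext <;> simp
  rw [this]
  exact add_mem (map_mem_N0 _ h1) (map_mem_N0 _ h2)

/-- a finitely supported sequence is in `N0` if all its members are -/
theorem mem_N0_pi {f : ℕ → D} (N : ℕ) (h : ∀ j, f j ∈ N0 P D) (hN : ∀ j, N ≤ j → f j = 0) :
    f ∈ N0 P (ℕ → D) := by
  have : f = ∑ j ∈ Finset.range N, LinearMap.single (S O) (fun _ : ℕ => D) j (f j) := by
    funext i
    rw [Finset.sum_apply]
    by_cases hi : i < N
    · rw [Finset.sum_eq_single i]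
      · simp
      · intro b _ hb
        simp [LinearMap.single_apply, Pi.single_apply, hb.symm]
      · intro h'; exact absurd (Finset.mem_range.2 hi) h'
    · rw [hN i (by omega), Finset.sum_eq_zero]
      intro b hb
      have : b ≠ i := by have := Finset.mem_range.1 hb; omega
      simp [LinearMap.single_apply, Pi.single_apply, this.symm]
  rw [this]
  exact Submodule.sum_mem _ fun j _ => map_mem_N0 _ (h j)

theorem mem_N0_D2_prod {t : Bool} {i : ℕ} {z : D2 t i (C × D)}
    (h1 : D2.map (LinearMap.fst (S O) C D) z ∈ N0 P (D2 t i C))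
    (h2 : D2.map (LinearMap.snd (S O) C D) z ∈ N0 P (D2 t i D)) : z ∈ N0 P (D2 t i (C × D)) := by
  have : z = D2.map (LinearMap.inl (S O) C D) (D2.map (LinearMap.fst (S O) C D) z) +
      D2.map (LinearMap.inr (S O) C D) (D2.map (LinearMap.snd (S O) C D) z) := by
    ext <;> simp
  rw [this]
  exact add_mem (map_mem_N0 _ h1) (map_mem_N0 _ h2)

theorem mem_N0_D2_pi {t : Bool} {i : ℕ} {z : D2 t i (ℕ → D)} (N : ℕ)
    (h : ∀ j, D2.map (LinearMap.proj (R := S O) (φ := fun _ : ℕ => D) j) z ∈ N0 P (D2 t i D))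
    (hN : ∀ j, N ≤ j → z.a j = 0 ∧ z.b j = 0) : z ∈ N0 P (D2 t i (ℕ → D)) := by
  have : z = ∑ j ∈ Finset.range N, D2.map (LinearMap.single (S O) (fun _ : ℕ => D) j)
      (D2.map (LinearMap.proj (R := S O) (φ := fun _ : ℕ => D) j) z) := by
    have ha : ∀ (F : Finset ℕ) (g : ℕ → D2 t i (ℕ → D)), (∑ j ∈ F, g j).a = ∑ j ∈ F, (g j).a := by
      intro F g
      induction F using Finset.induction_on with
      | empty => rfl
      | insert a s h ih => rw [Finset.sum_insert h, Finset.sum_insert h, D2.add_a, ih]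
    have hb : ∀ (F : Finset ℕ) (g : ℕ → D2 t i (ℕ → D)), (∑ j ∈ F, g j).b = ∑ j ∈ F, (g j).b := by
      intro F g
      induction F using Finset.induction_on with
      | empty => rfl
      | insert a s h ih => rw [Finset.sum_insert h, Finset.sum_insert h, D2.add_b, ih]
    have key : ∀ f : ℕ → D, (∀ j, N ≤ j → f j = 0) →
        f = ∑ j ∈ Finset.range N, LinearMap.single (S O) (fun _ : ℕ => D) j (f j) := by
      intro f hN
      funext i
      rw [Finset.sum_apply]
      by_cases hi : i < N
      · rw [Finset.sum_eq_single i]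
        · simp
        · intro b _ hb
          simp [LinearMap.single_apply, Pi.single_apply, hb.symm]
        · intro h'; exact absurd (Finset.mem_range.2 hi) h'
      · rw [hN i (by omega), Finset.sum_eq_zero]
        intro b hb
        have : b ≠ i := by have := Finset.mem_range.1 hb; omega
        simp [LinearMap.single_apply, Pi.single_apply, this.symm]
    refine D2.ext ?_ ?_
    · rw [ha]; exact key z.a fun j hj => (hN j hj).1
    · rw [hb]; exact key z.b fun j hj => (hN j hj).2
  rw [this]
  exact Submodule.sum_mem _ fun j _ => map_mem_N0 _ (h j)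

theorem mem_HH_pi {f : ℕ → D} (h : ∀ j, f j ∈ HH O D) : f ∈ HH O (ℕ → D) :=
  fun j => funext fun i => h i j

end N0

/-! ## Lemma V -/

section V
variable {i : ℕ} {C : Type} [AddCommGroup C] [Module (S O) C]

/-- the coordinates of a Hochschild element of `D2 true i C` -/
theorem HH_D2_a {z : D2 true i C} (hz : z ∈ HH O (D2 true i C)) :
    z.a = xv O (i + 1) • z.b := by
  have h := congrArg D2.b (hz (i + 1))
  have e : (yv O (i + 1) : S O) = X (inj true (i + 1)) := rfl
  have e' : (xv O (i + 1) : S O) = X (inj false (i + 1)) := rfl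
  rw [e, e', D2.X_smul_succ_b, D2.X_smul_b_of_ne _ (by simp) (by simp)] at h
  rw [e']; exact h.symm

theorem lemV {c : ℕ → O} (ψ : D2 true i C →ₛₗ[ev c] O) {z : D2 true i C}
    (hz : z ∈ HH O (D2 true i C)) : ψ z = (c i + c (i + 1)) * ψ ⟨z.b, 0⟩ := by
  have h0 : (⟨0, z.b⟩ : D2 true i C) = yv O i • (⟨z.b, 0⟩ : D2 true i C) := by
    have e : (yv O i : S O) = X (inj true i) := rfl
    rw [e]
    refine D2.ext ?_ ?_
    · rw [D2.X_smul_i_a]; simp
    · rw [D2.X_smul_i_b]; simp
  have h1 : (⟨z.a, 0⟩ : D2 true i C) = xv O (i + 1) • (⟨z.b, 0⟩ : D2 true i C) := by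
    have e' : (xv O (i + 1) : S O) = X (inj false (i + 1)) := rfl
    rw [HH_D2_a hz, e']
    refine D2.ext ?_ ?_
    · rw [D2.X_smul_a_of_ne _ (by simp) (by simp)]
    · rw [D2.X_smul_b_of_ne _ (by simp) (by simp)]; simp
  have h2 : z = (⟨z.a, 0⟩ : D2 true i C) + ⟨0, z.b⟩ := by
    refine D2.ext ?_ ?_ <;> simp
  conv_lhs => rw [h2]
  rw [map_add, h0, h1, map_smulₛₗ, map_smulₛₗ, ev_inl, ev_inr, smul_eq_mul, smul_eq_mul]
  ring

/-- (Lemma V) a functional with equal colours at `i`, `i+1` kills Hochschild elements -/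
theorem lemV_zero {c : ℕ → O} (hc : c i = c (i + 1)) (ψ : D2 true i C →ₛₗ[ev c] O)
    {z : D2 true i C} (hz : z ∈ HH O (D2 true i C)) : ψ z = 0 := by
  rw [lemV ψ hz, hc, ← two_mul, CharTwo.two_eq_zero, zero_mul, zero_mul]

end V

/-! ## Cycles up to `N0` -/

/-- `a` is the value of a cycle up to `N0` -/
def Cyc0 (P : Pot O) (C : DM O) (a : O) : Prop :=
  ∃ z ∈ HH O C.V, C.d z ∈ N0 P C.V ∧ C.ep z = a

theorem Cyc0.map {P : Pot O} {C D : DM O} {a : O} (h : Cyc0 P C a) (f : C.V →ₗ[S O] D.V)
    (hf : ∀ z, D.d (f z) = f (C.d z)) (he : ∀ z, D.ep (f z) = C.ep z) : Cyc0 P D a := by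
  obtain ⟨z, hz, hd, rfl⟩ := h
  exact ⟨f z, map_mem_HH f hz, by rw [hf]; exact map_mem_N0 f hd, he z⟩

/-- a strict chain map preserving the augmentation -/
structure SChain (C D : DM O) where
  f : C.V →ₗ[S O] D.V
  comm : ∀ z, D.d (f z) = f (C.d z)
  ep : ∀ z, D.ep (f z) = C.ep z

namespace SChain

theorem cyc0 {P : Pot O} {C D : DM O} {a : O} (g : SChain C D) (h : Cyc0 P C a) : Cyc0 P D a :=
  h.map g.f g.comm g.ep

/-- identity -/
noncomputable def refl (C : DM O) : SChain C C := ⟨LinearMap.id, fun _ => rfl, fun _ => rfl⟩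

/-- composition -/
noncomputable def trans {C D E : DM O} (g : SChain C D) (h : SChain D E) : SChain C E :=
  ⟨h.f ∘ₗ g.f, fun z => by simp [g.comm, h.comm], fun z => by simp [g.ep, h.ep]⟩

/-- `F2` of a strict chain map -/
noncomputable def F2 {C D : DM O} (g : SChain C D) (t : Bool) (i : ℕ) (pos : Bool) :
    SChain (CQ.F2 t i pos C) (CQ.F2 t i pos D) where
  f := F2.map t i pos g.f
  comm z := by
    cases pos
    · refine Prod.ext ?_ ?_
      · change D.d (g.f z.1) + unzip O t i (D2.map g.f z.2) = g.f (C.d z.1 + unzip O t i z.2)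
        rw [unzip_nat, map_add, g.comm]
      · change D2.map D.d (D2.map g.f z.2) = D2.map g.f (D2.map C.d z.2)
        refine D2.ext ?_ ?_ <;> simp [g.comm]
    · refine Prod.ext (g.comm _) ?_
      change zip O t i (g.f z.1) + D2.map D.d (D2.map g.f z.2) =
        D2.map g.f (zip O t i z.1 + D2.map C.d z.2)
      rw [zip_nat, map_add]
      congr 1
      refine D2.ext ?_ ?_ <;> simp [g.comm]
  ep z := g.ep z.1

/-- `Fw` of a strict chain map -/
noncomputable def Fw {C D : DM O} (g : SChain C D) (w : List (ℕ × Bool)) :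
    SChain (CQ.Fw w C) (CQ.Fw w D) := by
  induction w generalizing C D with
  | nil => exact g
  | cons a w ih => exact ih (g.F2 true a.1 a.2)

end SChain

/-! ## The maps of the columns `σᵢ^(±m)` -/

/-- `be = zip ∘ unzip = X_{i+1}^old + X_i^new` -/
noncomputable def be (O : Type) [CommRing O] [CharP O 2] (i : ℕ) {C : Type} [AddCommGroup C]
    [Module (S O) C] : D2 true i C →ₗ[S O] D2 true i C := zip O true i ∘ₗ unzip O true i

/-- `al = be + e₁ = X_{i+1}^old + X_{i+1}^new` -/
noncomputable def al (O : Type) [CommRing O] [CharP O 2] (i : ℕ) {C : Type} [AddCommGroup C]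
    [Module (S O) C] : D2 true i C →ₗ[S O] D2 true i C :=
  be O i + e1 O true i • LinearMap.id

/-- alternating: `al` for odd `j`, `be` for even `j` -/
noncomputable def alp (O : Type) [CommRing O] [CharP O 2] (i j : ℕ) {C : Type} [AddCommGroup C]
    [Module (S O) C] : D2 true i C →ₗ[S O] D2 true i C :=
  if j % 2 = 1 then al O i else be O i

section colmaps
variable {i : ℕ} {C D : Type} [AddCommGroup C] [Module (S O) C] [AddCommGroup D] [Module (S O) D]

theorem be_apply (z : D2 true i C) : be O i z = zip O true i (unzip O true i z) := rfl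

theorem al_apply (z : D2 true i C) :
    al O i z = zip O true i (unzip O true i z) + e1 O true i • z := rfl

theorem unzip_zip (v : C) : unzip O true i (zip O true i v) = e1 O true i • v := by
  rw [unzip_apply, zip_a, zip_b, e1_def, add_smul, add_comm]

theorem be_zip (v : C) : be O i (zip O true i v) = e1 O true i • zip O true i v := by
  rw [be_apply, unzip_zip, map_smul]

theorem al_zip (v : C) : al O i (zip O true i v) = 0 := by
  rw [al_apply, unzip_zip, map_smul]; exact add_self_mod (O := O) _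

theorem unzip_al (z : D2 true i C) : unzip O true i (al O i z) = 0 := by
  rw [al_apply, map_add, map_smul, unzip_zip]; exact add_self_mod (O := O) _

theorem unzip_be (z : D2 true i C) : unzip O true i (be O i z) = e1 O true i • unzip O true i z := by
  rw [be_apply, unzip_zip]

theorem al_be (z : D2 true i C) : al O i (be O i z) = 0 := by
  rw [be_apply, al_zip]

theorem be_al (z : D2 true i C) : be O i (al O i z) = 0 := by
  rw [be_apply, unzip_al, map_zero]

theorem alp_odd {j : ℕ} (h : j % 2 = 1) : (alp O i j : D2 true i C →ₗ[S O] D2 true i C) = al O i := by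
  simp [alp, h]

theorem alp_even {j : ℕ} (h : j % 2 = 0) : (alp O i j : D2 true i C →ₗ[S O] D2 true i C) = be O i := by
  simp [alp, h]

theorem alp_alp (j : ℕ) (z : D2 true i C) : alp O i j (alp O i (j + 1) z) = 0 := by
  rcases Nat.mod_two_eq_zero_or_one j with h | h
  · rw [alp_even h, alp_odd (by omega), be_al]
  · rw [alp_odd h, alp_even (by omega), al_be]

theorem alp_alp' (j : ℕ) (z : D2 true i C) : alp O i (j + 1) (alp O i j z) = 0 := by
  rcases Nat.mod_two_eq_zero_or_one j with h | h
  · rw [alp_even h, alp_odd (by omega), al_be]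
  · rw [alp_odd h, alp_even (by omega), be_al]

theorem be_nat (f : C →ₗ[S O] D) (z : D2 true i C) : be O i (D2.map f z) = D2.map f (be O i z) := by
  rw [be_apply, be_apply, unzip_nat, zip_nat]

theorem al_nat (f : C →ₗ[S O] D) (z : D2 true i C) : al O i (D2.map f z) = D2.map f (al O i z) := by
  rw [al_apply, al_apply, unzip_nat, zip_nat, map_add, map_smul]

theorem alp_nat (f : C →ₗ[S O] D) (j : ℕ) (z : D2 true i C) :
    alp O i j (D2.map f z) = D2.map f (alp O i j z) := by
  unfold alp; split_ifs
  · exact al_nat f z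
  · exact be_nat f z

theorem unzip_split (z : D2 true i C) : unzip O true i (split O true i z) = z := by
  refine D2.ext ?_ ?_
  · rw [unzip_apply, D2.add_a, D2.X_smul_i_a]; simp
  · rw [unzip_apply, D2.add_b, D2.X_smul_i_b]; simp

theorem map_unzip_split (z : D2 true i C) :
    D2.map (unzip O true i) (split O true i z) = z := by
  refine D2.ext ?_ ?_ <;> simp [unzip_apply]

theorem be_split (z : D2 true i C) : be O i (split O true i z) = zip O true i z := by
  rw [be_apply, unzip_split]

theorem map_be_split (z : D2 true i C) :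
    D2.map (be O i) (split O true i z) = D2.map (zip O true i) z := by
  unfold be
  rw [D2.map_comp]
  change D2.map (zip O true i) (D2.map (unzip O true i) (split O true i z)) = _
  rw [map_unzip_split]

theorem split_nat (f : C →ₗ[S O] D) (z : D2 true i C) :
    split O true i (D2.map f z) = D2.map (D2.map f) (split O true i z) := by
  refine D2.ext ?_ ?_ <;> refine D2.ext ?_ ?_ <;> simp

end colmaps

/-! ## The columns -/

/-- the incoming part of the differential of `ColP` at index `j` -/
noncomputable def colPin (O : Type) [CommRing O] [CharP O 2] (i n : ℕ) {C : Type} [AddCommGroup C] [Module (S O) C]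
    (z : C × (ℕ → D2 true i C)) (j : ℕ) : D2 true i C :=
  if j < n then
    (match j with
    | 0 => zip O true i z.1
    | j + 1 => alp O i (j + 1) (z.2 j))
  else 0

/-- the incoming part of the differential of `ColM` at index `j` -/
noncomputable def colMin (O : Type) [CommRing O] [CharP O 2] (i n : ℕ) {C : Type} [AddCommGroup C] [Module (S O) C]
    (z : C × (ℕ → D2 true i C)) (j : ℕ) : D2 true i C :=
  if j + 1 < n then alp O i (j + 1) (z.2 (j + 1)) else 0

section colin
variable (i n : ℕ) {C : Type} [AddCommGroup C] [Module (S O) C]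

theorem colPin_zero (h : 0 < n) (z : C × (ℕ → D2 true i C)) :
    colPin O i n z 0 = zip O true i z.1 := if_pos h

theorem colPin_succ (j : ℕ) (h : j + 1 < n) (z : C × (ℕ → D2 true i C)) :
    colPin O i n z (j + 1) = alp O i (j + 1) (z.2 j) := if_pos h

theorem colPin_ge (j : ℕ) (h : n ≤ j) (z : C × (ℕ → D2 true i C)) :
    colPin O i n z j = 0 := if_neg (by omega)

theorem colPin_add (z w : C × (ℕ → D2 true i C)) (j : ℕ) :
    colPin O i n (z + w) j = colPin O i n z j + colPin O i n w j := by
  by_cases h : j < n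
  · rcases j with _ | j
    · rw [colPin_zero _ _ h, colPin_zero _ _ h, colPin_zero _ _ h, Prod.fst_add, map_add]
    · rw [colPin_succ _ _ _ h, colPin_succ _ _ _ h, colPin_succ _ _ _ h, Prod.snd_add,
        Pi.add_apply, map_add]
  · rw [colPin_ge _ _ _ (by omega), colPin_ge _ _ _ (by omega), colPin_ge _ _ _ (by omega),
      add_zero]

theorem colPin_smul (p : S O) (z : C × (ℕ → D2 true i C)) (j : ℕ) :
    colPin O i n (p • z) j = p • colPin O i n z j := by
  by_cases h : j < n
  · rcases j with _ | j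
    · rw [colPin_zero _ _ h, colPin_zero _ _ h, Prod.smul_fst, map_smul]
    · rw [colPin_succ _ _ _ h, colPin_succ _ _ _ h, Prod.smul_snd, Pi.smul_apply, map_smul]
  · rw [colPin_ge _ _ _ (by omega), colPin_ge _ _ _ (by omega), smul_zero]

theorem colMin_lt (j : ℕ) (h : j + 1 < n) (z : C × (ℕ → D2 true i C)) :
    colMin O i n z j = alp O i (j + 1) (z.2 (j + 1)) := if_pos h

theorem colMin_ge (j : ℕ) (h : n ≤ j + 1) (z : C × (ℕ → D2 true i C)) :
    colMin O i n z j = 0 := if_neg (by omega)

theorem colMin_add (z w : C × (ℕ → D2 true i C)) (j : ℕ) :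
    colMin O i n (z + w) j = colMin O i n z j + colMin O i n w j := by
  by_cases h : j + 1 < n
  · rw [colMin_lt _ _ _ h, colMin_lt _ _ _ h, colMin_lt _ _ _ h, Prod.snd_add, Pi.add_apply,
      map_add]
  · rw [colMin_ge _ _ _ (by omega), colMin_ge _ _ _ (by omega), colMin_ge _ _ _ (by omega),
      add_zero]

theorem colMin_smul (p : S O) (z : C × (ℕ → D2 true i C)) (j : ℕ) :
    colMin O i n (p • z) j = p • colMin O i n z j := by
  by_cases h : j + 1 < n
  · rw [colMin_lt _ _ _ h, colMin_lt _ _ _ h, Prod.smul_snd, Pi.smul_apply, map_smul]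
  · rw [colMin_ge _ _ _ (by omega), colMin_ge _ _ _ (by omega), smul_zero]

end colin

/-- the column of `σᵢ^n` as one letter: `C → W₁ → W₂ → … → W_n`, `W_{j+1}` at index `j` -/
noncomputable def ColP (i n : ℕ) (C : DM O) : DM O where
  V := C.V × (ℕ → D2 true i C.V)
  d :=
    { toFun := fun z => (C.d z.1, fun j => D2.map C.d (z.2 j) + colPin O i n z j)
      map_add' := fun z w => by
        refine Prod.ext (map_add _ _ _) (funext fun j => ?_)
        change D2.map C.d (z.2 j + w.2 j) + colPin O i n (z + w) j =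
          (D2.map C.d (z.2 j) + colPin O i n z j) + (D2.map C.d (w.2 j) + colPin O i n w j)
        rw [map_add, colPin_add]; abel
      map_smul' := fun p z => by
        refine Prod.ext (map_smul _ _ _) (funext fun j => ?_)
        change D2.map C.d (p • z.2 j) + colPin O i n (p • z) j =
          p • (D2.map C.d (z.2 j) + colPin O i n z j)
        rw [map_smul, colPin_smul, smul_add] }
  dd v := by
    refine Prod.ext (C.dd _) (funext fun j => ?_)
    change D2.map C.d (D2.map C.d (v.2 j) + colPin O i n v j) +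
      colPin O i n (C.d v.1, fun j => D2.map C.d (v.2 j) + colPin O i n v j) j = 0
    have e : D2.map C.d (D2.map C.d (v.2 j)) = 0 := by ext <;> simp [C.dd]
    rw [map_add, e, zero_add]
    by_cases h : j < n
    · rcases j with _ | j
      · rw [colPin_zero _ _ h, colPin_zero _ _ h, zip_nat]
        exact add_self_mod (O := O) _
      · rw [colPin_succ _ _ _ h, colPin_succ _ _ _ h]
        change D2.map C.d (alp O i (j + 1) (v.2 j)) +
          alp O i (j + 1) (D2.map C.d (v.2 j) + colPin O i n v j) = 0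
        rw [map_add, alp_nat]
        have e2 : alp O i (j + 1) (colPin O i n v j) = 0 := by
          rcases j with _ | j
          · rw [colPin_zero _ _ (by omega), alp_odd (by norm_num), al_zip]
          · rw [colPin_succ _ _ _ (by omega), alp_alp']
        rw [e2, add_zero]
        exact add_self_mod (O := O) _
    · rw [colPin_ge _ _ _ (by omega), colPin_ge _ _ _ (by omega), map_zero, add_zero]
  ep := C.ep.comp (LinearMap.fst (S O) _ _)
  epd z hz := C.epd _ (mem_HH_prod.1 hz).1

/-- the outgoing unzip of `ColM` -/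
noncomputable def colMu (O : Type) [CommRing O] [CharP O 2] (i n : ℕ) {C : Type} [AddCommGroup C] [Module (S O) C]
    (z : C × (ℕ → D2 true i C)) : C := if 0 < n then unzip O true i (z.2 0) else 0

/-- the column of `σᵢ^(-n)` as one letter: `W_n → … → W₂ → W₁ → C`, `W_{j+1}` at index `j` -/
noncomputable def ColM (i n : ℕ) (C : DM O) : DM O where
  V := C.V × (ℕ → D2 true i C.V)
  d :=
    { toFun := fun z => (C.d z.1 + colMu O i n z, fun j => D2.map C.d (z.2 j) + colMin O i n z j)
      map_add' := fun z w => by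
        refine Prod.ext ?_ (funext fun j => ?_)
        · change C.d (z.1 + w.1) + colMu O i n (z + w) =
            (C.d z.1 + colMu O i n z) + (C.d w.1 + colMu O i n w)
          unfold colMu
          split_ifs
          · rw [Prod.snd_add, Pi.add_apply, map_add, map_add]; abel
          · rw [map_add]; abel
        · change D2.map C.d (z.2 j + w.2 j) + colMin O i n (z + w) j =
            (D2.map C.d (z.2 j) + colMin O i n z j) + (D2.map C.d (w.2 j) + colMin O i n w j)
          rw [map_add, colMin_add]; abel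
      map_smul' := fun p z => by
        refine Prod.ext ?_ (funext fun j => ?_)
        · change C.d (p • z.1) + colMu O i n (p • z) = p • (C.d z.1 + colMu O i n z)
          unfold colMu
          split_ifs
          · rw [Prod.smul_snd, Pi.smul_apply, map_smul, map_smul, smul_add]
          · rw [map_smul, smul_add, smul_zero]
        · change D2.map C.d (p • z.2 j) + colMin O i n (p • z) j =
            p • (D2.map C.d (z.2 j) + colMin O i n z j)
          rw [map_smul, colMin_smul, smul_add] }
  dd v := by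
    refine Prod.ext ?_ (funext fun j => ?_)
    · change C.d (C.d v.1 + colMu O i n v) +
        colMu O i n (C.d v.1 + colMu O i n v, fun j => D2.map C.d (v.2 j) + colMin O i n v j) = 0
      unfold colMu
      split_ifs with h
      · change C.d (C.d v.1 + unzip O true i (v.2 0)) +
          unzip O true i (D2.map C.d (v.2 0) + colMin O i n v 0) = 0
        rw [map_add, C.dd, zero_add, map_add, unzip_nat]
        have e2 : unzip O true i (colMin O i n v 0) = 0 := by
          by_cases h1 : 0 + 1 < n
          · rw [colMin_lt _ _ _ h1, alp_odd (by norm_num), unzip_al]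
          · rw [colMin_ge _ _ _ (by omega), map_zero]
        rw [e2, add_zero]
        exact add_self_mod (O := O) _
      · rw [add_zero, add_zero]; exact C.dd _
    · change D2.map C.d (D2.map C.d (v.2 j) + colMin O i n v j) +
        colMin O i n (C.d v.1 + colMu O i n v, fun j => D2.map C.d (v.2 j) + colMin O i n v j) j = 0
      have e : D2.map C.d (D2.map C.d (v.2 j)) = 0 := by ext <;> simp [C.dd]
      rw [map_add, e, zero_add]
      by_cases h : j + 1 < n
      · rw [colMin_lt _ _ _ h, colMin_lt _ _ _ h]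
        change D2.map C.d (alp O i (j + 1) (v.2 (j + 1))) +
          alp O i (j + 1) (D2.map C.d (v.2 (j + 1)) + colMin O i n v (j + 1)) = 0
        rw [map_add, alp_nat]
        have e2 : alp O i (j + 1) (colMin O i n v (j + 1)) = 0 := by
          by_cases h1 : j + 1 + 1 < n
          · rw [colMin_lt _ _ _ h1, alp_alp]
          · rw [colMin_ge _ _ _ (by omega), map_zero]
        rw [e2, add_zero]
        exact add_self_mod (O := O) _
      · rw [colMin_ge _ _ _ (by omega), colMin_ge _ _ _ (by omega), map_zero, add_zero]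
  ep := C.ep.comp (LinearMap.fst (S O) _ _)
  epd z hz := by
    have h := mem_HH_prod.1 hz
    have h0 : z.2 0 ∈ HH O (D2 true i C.V) := fun j => congrFun (h.2 j) 0
    change C.ep (C.d z.1 + colMu O i n z) = 0
    unfold colMu
    split_ifs
    · rw [map_add, C.epd _ h.1, ep_unzip true i C.ep _ h0, add_zero]
    · rw [add_zero]; exact C.epd _ h.1

section coldef
variable (i n : ℕ) (C : DM O)

theorem ColP_d_fst (z : (ColP i n C).V) : ((ColP i n C).d z).1 = C.d z.1 := rfl

theorem ColP_d_snd (z : (ColP i n C).V) (j : ℕ) :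
    ((ColP i n C).d z).2 j = D2.map C.d (z.2 j) + colPin O i n z j := rfl

theorem ColM_d_fst (z : (ColM i n C).V) :
    ((ColM i n C).d z).1 = C.d z.1 + colMu O i n z := rfl

theorem ColM_d_snd (z : (ColM i n C).V) (j : ℕ) :
    ((ColM i n C).d z).2 j = D2.map C.d (z.2 j) + colMin O i n z j := rfl

theorem ColP_ep (z : (ColP i n C).V) : (ColP i n C).ep z = C.ep z.1 := rfl
theorem ColM_ep (z : (ColM i n C).V) : (ColM i n C).ep z = C.ep z.1 := rfl

end coldef

/-! ## Tower cycles -/

/-- `h3(X_i, X_{i+1}, X_{i+2})` -/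
noncomputable def h3v (P : Pot O) (i : ℕ) : S O :=
  yv O i + yv O (i + 1) + yv O (i + 2) + MvPolynomial.C P.ka

/-- `μ_a = X_i + X_{i+1}` for odd `a`, `h(X_i, X_{i+1})` for even `a` -/
noncomputable def muv (P : Pot O) (a i : ℕ) : S O :=
  if a % 2 = 1 then yv O i + yv O (i + 1) else P.h (yv O i) (yv O (i + 1))

/-- a cycle (up to `N0`) of the negative tower
`B → C → … → C` (with `2 r + 1` copies of `C`) over `C`, value `a` -/
def TCycN (P : Pot O) (i r : ℕ) (C : DM O) (a : O) : Prop :=
  ∃ (z : ℕ → C.V) (w : D2 true i C.V), (∀ c, z c ∈ HH O C.V) ∧ w ∈ HH O (D2 true i C.V) ∧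
    (∀ c, c < 2 * r → C.d (z c) + muv P (c + 1) i • z (c + 1) ∈ N0 P C.V) ∧
    C.d (z (2 * r)) + unzip O true i w ∈ N0 P C.V ∧
    D2.map C.d w ∈ N0 P (D2 true i C.V) ∧ C.ep (z 0) = a

/-- a cycle (up to `N0`) of the positive tower `C → … → C → B` over `C`, value `a` -/
def TCycP (P : Pot O) (i r : ℕ) (C : DM O) (a : O) : Prop :=
  ∃ (z : ℕ → C.V) (w : D2 true i C.V), (∀ c, z c ∈ HH O C.V) ∧ w ∈ HH O (D2 true i C.V) ∧
    C.d (z 0) ∈ N0 P C.V ∧
    (∀ c, c < 2 * r → C.d (z (c + 1)) + muv P (c + 1) i • z c ∈ N0 P C.V) ∧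
    D2.map C.d w + zip O true i (z (2 * r)) ∈ N0 P (D2 true i C.V) ∧ C.ep (z 0) = a

/-- a tower of height zero is a letter -/
theorem TCycN.cyc0 {P : Pot O} {i : ℕ} {C : DM O} {a : O} (h : TCycN P i 0 C a) :
    Cyc0 P (F2 true i false C) a := by
  obtain ⟨z, w, hz, hw, -, h1, h2, h3⟩ := h
  exact ⟨(z 0, w), mem_HH_prod.2 ⟨hz 0, hw⟩, mem_N0_prod h1 h2, h3⟩

theorem TCycP.cyc0 {P : Pot O} {i : ℕ} {C : DM O} {a : O} (h : TCycP P i 0 C a) :
    Cyc0 P (F2 true i true C) a := by
  obtain ⟨z, w, hz, hw, h0, -, h2, h3⟩ := h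
  refine ⟨(z 0, w), mem_HH_prod.2 ⟨hz 0, hw⟩, mem_N0_prod h0 ?_, h3⟩
  change zip O true i (z 0) + D2.map C.d w ∈ _
  rw [add_comm]; exact h2

/-! ## The statements of block H

(`hz : ∀ j C, CtxNeg (h • zip j)` is block B.)

* `TCycN.step : TCycN P i (r+1) C a → TCycN P (i+1) r (Fw [(i,false),(i+1,false),(i,true)] C) a`
* `TCycP.step : TCycP P i (r+1) C a →
    TCycP P (i+1) r (Fw [(i,true),(i+1,true),(i,false)] C) (P.ta * a)`
* `colP_Fw : ∀ n C, Nonempty (SChain (ColP i n C) (Fw (List.replicate n (i,true)) C))`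
* `colM_Fw : ∀ n C, Nonempty (SChain (ColM i n C) (Fw (List.replicate n (i,false)) C))`
* `initN : 1 ≤ k → 3 ≤ s → TCycN P 1 (k-1) (ColM 0 (2k+1) (F2 true 1 false (ColP 0 (4k+1) (R0 O s)))) (ka ^ k)`
* `initP : 1 ≤ k → 3 ≤ s → ta ∣ ka ^ k →
    TCycP P 1 (k-1) (ColP 0 (2k+1) (F2 true 1 true (ColM 0 (4k+1) (R0 O s)))) ta`
-/

end CQ
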