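import Pool.Agent.CQ.TowBase

/-!
# Block H: the elements `Z`, `m`, `m'` and the identities (I1), (J1), (J2)
-/

set_option autoImplicit false
set_option linter.unusedSectionVars false
set_option linter.unusedSimpArgs false
set_option linter.style.longLine false

namespace CQ

open MvPolynomial

variable {O : Type} [CommRing O] [CharP O 2]

/-- `Z_i = split ∘ zip` -/
noncomputable def ZZ (O : Type) [CommRing O] [CharP O 2] (i : ℕ) {C : Type} [AddCommGroup C]
    [Module (S O) C] : C →ₗ[S O] D2 true i (D2 true i C) := split O true i ∘ₗ zip O true i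

/-- `m : C → B_i B_{i+1} B_i` -/
noncomputable def mm (O : Type) [CommRing O] [CharP O 2] (i : ℕ) {C : Type} [AddCommGroup C]
    [Module (S O) C] : C →ₗ[S O] D2 true i (D2 true (i + 1) (D2 true i C)) :=
  D2.map (zip O true (i + 1)) ∘ₗ ZZ O i

/-- `m' : C → B_{i+1} B_i B_{i+1}` -/
noncomputable def mp (O : Type) [CommRing O] [CharP O 2] (i : ℕ) {C : Type} [AddCommGroup C]
    [Module (S O) C] : C →ₗ[S O] D2 true (i + 1) (D2 true i (D2 true (i + 1) C)) :=
  D2.map (zip O true i) ∘ₗ ZZ O (i + 1)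

/-- scalars inside a letter: `D2.map (p •)` -/
noncomputable def mid (O : Type) [CommRing O] [CharP O 2] (p : S O) {i : ℕ} {C : Type}
    [AddCommGroup C] [Module (S O) C] : D2 true i C →ₗ[S O] D2 true i C :=
  D2.map (p • (LinearMap.id : C →ₗ[S O] C))

section mid
variable {i : ℕ} {C D : Type} [AddCommGroup C] [Module (S O) C] [AddCommGroup D] [Module (S O) D]

theorem ZZ_apply (v : C) : ZZ O i v = split O true i (zip O true i v) := rfl
theorem mm_apply (v : C) : mm O i v = D2.map (zip O true (i + 1)) (ZZ O i v) := rfl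
theorem mp_apply (v : C) : mp O i v = D2.map (zip O true i) (ZZ O (i + 1) v) := rfl

@[simp] theorem mid_a (p : S O) (z : D2 true i C) : (mid O p z).a = p • z.a := rfl
@[simp] theorem mid_b (p : S O) (z : D2 true i C) : (mid O p z).b = p • z.b := rfl

theorem mid_add (p q : S O) (z : D2 true i C) : mid O (p + q) z = mid O p z + mid O q z := by
  refine D2.ext ?_ ?_ <;> simp [add_smul]

theorem mid_mul (p q : S O) (z : D2 true i C) : mid O (p * q) z = mid O p (mid O q z) := by
  refine D2.ext ?_ ?_ <;> simp [mul_smul]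

theorem mid_C (o : O) (z : D2 true i C) :
    mid O (MvPolynomial.C o) z = (MvPolynomial.C o : S O) • z := by
  refine D2.ext ?_ ?_ <;> simp

theorem mid_yv_ne (j : ℕ) (h : j ≠ i) (h' : j ≠ i + 1) (z : D2 true i C) :
    mid O (yv O j) z = yv O j • z := by
  have e : (yv O j : S O) = X (inj true j) := rfl
  refine D2.ext ?_ ?_
  · rw [mid_a, e, D2.X_smul_a_of_ne _ (by simpa [inj] using h) (by simpa [inj] using h')]
  · rw [mid_b, e, D2.X_smul_b_of_ne _ (by simpa [inj] using h) (by simpa [inj] using h')]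

theorem mid_xv (j : ℕ) (z : D2 true i C) : mid O (xv O j) z = xv O j • z := by
  have e : (xv O j : S O) = X (inj false j) := rfl
  refine D2.ext ?_ ?_
  · rw [mid_a, e, D2.X_smul_a_of_ne _ (by simp) (by simp)]
  · rw [mid_b, e, D2.X_smul_b_of_ne _ (by simp) (by simp)]

/-- `be = X_{i+1}^old + X_i^new` -/
theorem be_eq (z : D2 true i C) : be O i z = mid O (yv O (i + 1)) z + yv O i • z := by
  have e : (yv O i : S O) = X (inj true i) := rfl
  have e' : (yv O (i + 1) : S O) = X (inj true (i + 1)) := rfl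
  rw [be_apply, e, e']
  refine D2.ext ?_ ?_
  · rw [zip_a, unzip_apply, D2.add_a, mid_a, D2.X_smul_i_a, e2_def]
    module
  · rw [zip_b, unzip_apply, D2.add_b, mid_b, D2.X_smul_i_b, e1_def]
    have := add_self_mod (O := O) ((X (inj true (i + 1)) : S O) • z.b)
    rw [add_smul]
    calc _ = z.a + (X (inj true i) : S O) • z.b + 0 := by rw [add_zero]
      _ = z.a + (X (inj true i) : S O) • z.b + ((X (inj true (i + 1)) : S O) • z.b +
          (X (inj true (i + 1)) : S O) • z.b) := by rw [this]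
      _ = _ := by abel

/-- `al = X_{i+1}^old + X_{i+1}^new` -/
theorem al_eq (z : D2 true i C) : al O i z = mid O (yv O (i + 1)) z + yv O (i + 1) • z := by
  have e : (e1 O true i : S O) = yv O i + yv O (i + 1) := rfl
  have h : al O i z = be O i z + e1 O true i • z := rfl
  rw [h, be_eq, e, add_smul]
  have := add_self_mod (O := O) (yv O i • z)
  calc _ = mid O (yv O (i + 1)) z + (yv O i • z + yv O i • z) + yv O (i + 1) • z := by abel
    _ = _ := by rw [this, add_zero]

theorem mid_zip (p : S O) (v : C) : mid O p (zip O true i v) = zip O true i (p • v) := by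
  have : mid O p (zip O true i v) = D2.map (p • (LinearMap.id : C →ₗ[S O] C)) (zip O true i v) := rfl
  rw [this, ← zip_nat]; rfl

theorem mid_nat (f : C →ₗ[S O] D) (p : S O) (z : D2 true i C) :
    mid O p (D2.map f z) = D2.map f (mid O p z) := by
  refine D2.ext ?_ ?_ <;> simp

theorem mid_split (u : D2 true i C) : mid O (yv O (i + 1)) (split O true i u) =
    zip O true i u + yv O i • split O true i u := by
  have h := be_eq (O := O) (split O true i u)
  rw [be_split] at h
  rw [h]
  have := add_self_mod (O := O) (yv O i • split O true i u)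
  rw [add_assoc, this, add_zero]

theorem unzip_mid (p : S O) (z : D2 true i C) : unzip O true i (mid O p z) = p • unzip O true i z := by
  have : mid O p z = D2.map (p • (LinearMap.id : C →ₗ[S O] C)) z := rfl
  rw [this, unzip_nat]; rfl

theorem zip_zip_ZZ (v : C) : zip O true i (zip O true i v) = be O i (ZZ O i v) := by
  rw [ZZ_apply, be_split]

end mid

section I1
variable {P : Pot O} {i : ℕ} {C : Type} [AddCommGroup C] [Module (S O) C]

/-- `D2.map (h(X_{i+1},y))` on `split u` for `y` a scalar acting diagonally -/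
theorem mid_h_split (P : Pot O) (y : S O) (u : D2 true i C)
    (hy : ∀ z : D2 true i (D2 true i C), mid O y z = y • z) :
    mid O (P.h (yv O (i + 1)) y) (split O true i u) =
      P.h (yv O i) y • split O true i u +
        (yv O i + yv O (i + 1) + y + MvPolynomial.C P.ka) • zip O true i u := by
  have e : P.h (yv O (i + 1)) y = yv O (i + 1) * yv O (i + 1) + y * yv O (i + 1) + y * y +
      MvPolynomial.C P.ka * yv O (i + 1) + MvPolynomial.C P.ka * y + MvPolynomial.C P.ta := by
    unfold Pot.h; rw [MvPolynomial.algebraMap_eq]; ring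
  have e' : P.h (yv O i) y = yv O i * yv O i + y * yv O i + y * y +
      MvPolynomial.C P.ka * yv O i + MvPolynomial.C P.ka * y + MvPolynomial.C P.ta := by
    unfold Pot.h; rw [MvPolynomial.algebraMap_eq]; ring
  rw [e, e']
  simp only [mid_add, mid_mul, mid_C, hy, mid_split, map_add, map_smul, mid_zip]
  match_scalars <;> (rw [← sub_eq_zero]; ring_nf <;>
    simp only [two0, three1, four0, five1, six0, seven1, eight0, mul_zero, zero_mul,
            add_zero, zero_add, neg_zero, sub_zero, sub_self, mul_one])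

/-- (I1) -/
theorem I1 (P : Pot O) (i : ℕ) (v : C) :
    D2.map (P.h (yv O (i + 1)) (yv O (i + 2)) • zip O true (i + 1)) (ZZ O i v) =
      P.h (yv O i) (yv O (i + 2)) • mm O i v +
        h3v P i • zip O true i (zip O true (i + 1) (zip O true i v)) := by
  have h1 : D2.map (P.h (yv O (i + 1)) (yv O (i + 2)) • zip O true (i + 1)) (ZZ O i v) =
      D2.map (zip O true (i + 1)) (mid O (P.h (yv O (i + 1)) (yv O (i + 2))) (ZZ O i v)) := by
    refine D2.ext ?_ ?_ <;> simp
  rw [h1, ZZ_apply, mid_h_split P _ _ (fun z => mid_yv_ne (i + 2) (by omega) (by omega) z), map_add,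
    map_smul, map_smul, mm_apply, ZZ_apply, ← zip_nat]
  rfl

end I1

/-! ## (J1), (J2) -/

section coord
variable {i : ℕ} {C : Type} [AddCommGroup C] [Module (S O) C]

theorem yi_a (z : D2 true i C) : (yv O i • z).a = e2 O true i • z.b := D2.X_smul_i_a z
theorem yi_b (z : D2 true i C) : (yv O i • z).b = z.a + e1 O true i • z.b := D2.X_smul_i_b z
theorem ys_a (z : D2 true i C) : (yv O (i + 1) • z).a = e1 O true i • z.a + e2 O true i • z.b :=
  D2.X_smul_succ_a z
theorem ys_b (z : D2 true i C) : (yv O (i + 1) • z).b = z.a := D2.X_smul_succ_b z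
theorem yn_a (j : ℕ) (h : j ≠ i) (h' : j ≠ i + 1) (z : D2 true i C) :
    (yv O j • z).a = yv O j • z.a :=
  D2.X_smul_a_of_ne _ (by simpa [inj] using h) (by simpa [inj] using h') z
theorem yn_b (j : ℕ) (h : j ≠ i) (h' : j ≠ i + 1) (z : D2 true i C) :
    (yv O j • z).b = yv O j • z.b :=
  D2.X_smul_b_of_ne _ (by simpa [inj] using h) (by simpa [inj] using h') z
theorem xn_a (j : ℕ) (z : D2 true i C) : (xv O j • z).a = xv O j • z.a :=
  D2.X_smul_a_of_ne (t := true) (i := i) (Sum.inl j) (by simp) (by simp) z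
theorem xn_b (j : ℕ) (z : D2 true i C) : (xv O j • z).b = xv O j • z.b :=
  D2.X_smul_b_of_ne (t := true) (i := i) (Sum.inl j) (by simp) (by simp) z

theorem ys'_a (z : D2 true (i + 1) C) :
    (yv O (i + 2) • z).a = e1 O true (i + 1) • z.a + e2 O true (i + 1) • z.b :=
  D2.X_smul_succ_a z
theorem ys'_b (z : D2 true (i + 1) C) : (yv O (i + 2) • z).b = z.a := D2.X_smul_succ_b z
theorem yn2_a (z : D2 true i C) : (yv O (i + 2) • z).a = yv O (i + 2) • z.a :=
  yn_a (i + 2) (by omega) (by omega) z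
theorem yn2_b (z : D2 true i C) : (yv O (i + 2) • z).b = yv O (i + 2) • z.b :=
  yn_b (i + 2) (by omega) (by omega) z
theorem yn0_a (z : D2 true (i + 1) C) : (yv O i • z).a = yv O i • z.a :=
  yn_a i (by omega) (by omega) z
theorem yn0_b (z : D2 true (i + 1) C) : (yv O i • z).b = yv O i • z.b :=
  yn_b i (by omega) (by omega) z
theorem e1y : (e1 O true i : S O) = yv O i + yv O (i + 1) := rfl
theorem e2y : (e2 O true i : S O) = yv O i * yv O (i + 1) := rfl
theorem e1y' : (e1 O true (i + 1) : S O) = yv O (i + 1) + yv O (i + 2) := rfl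
theorem e2y' : (e2 O true (i + 1) : S O) = yv O (i + 1) * yv O (i + 2) := rfl
theorem zipy_a (v : C) : (zip O true i v).a = yv O (i + 1) • v := rfl
theorem zipy'_a (v : C) : (zip O true (i + 1) v).a = yv O (i + 2) • v := rfl

end coord

section J
variable {P : Pot O} {i : ℕ} {C : Type} [AddCommGroup C] [Module (S O) C]

/-- `D w = zip_{i+1} (D2.map zip_{i+1} (split w))` -/
noncomputable def DD (O : Type) [CommRing O] [CharP O 2] (i : ℕ) {C : Type} [AddCommGroup C]
    [Module (S O) C] : D2 true i C →ₗ[S O] D2 true (i + 1) (D2 true i (D2 true (i + 1) (D2 true i C))) :=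
  zip O true (i + 1) ∘ₗ D2.map (zip O true (i + 1)) ∘ₗ split O true i

theorem DD_apply (w : D2 true i C) : DD O i w =
    zip O true (i + 1) (D2.map (zip O true (i + 1)) (split O true i w)) := rfl

/-- the exact identity behind (J1) -/
theorem J1_exact (u : C) (hu : xv O (i + 2) • u = yv O (i + 2) • u) :
    mp O i (⟨xv O (i + 1) • u, u⟩ : D2 true i C) + DD O i (⟨xv O (i + 1) • u, u⟩ : D2 true i C) =
      ((yv O i + xv O (i + 1)) * (yv O i + xv O (i + 2))) •
        (⟨xv O (i + 2) • (⟨⟨⟨u, 0⟩, 0⟩, 0⟩ : D2 true i (D2 true (i + 1) (D2 true i C))),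
          ⟨⟨⟨u, 0⟩, 0⟩, 0⟩⟩ : D2 true (i + 1) (D2 true i (D2 true (i + 1) (D2 true i C)))) := by
  have hu' : ∀ p : S O, xv O (i + 2) • p • u = yv O (i + 2) • p • u := fun p => by
    rw [smul_comm, hu, smul_comm]
  refine D2.ext (D2.ext (D2.ext (D2.ext ?_ ?_) (D2.ext ?_ ?_)) (D2.ext (D2.ext ?_ ?_) (D2.ext ?_ ?_)))
    (D2.ext (D2.ext (D2.ext ?_ ?_) (D2.ext ?_ ?_)) (D2.ext (D2.ext ?_ ?_) (D2.ext ?_ ?_))) <;>
  simp only [mp_apply, ZZ_apply, DD_apply, D2.add_a, D2.add_b, D2.map_a, D2.map_b, zipy_a, zipy'_a,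
    zip_b, split_aa, split_ab, split_ba, split_bb, mul_smul, add_smul, smul_add, yi_a, yi_b, ys_a, ys_b,
    ys'_a, ys'_b, yn2_a, yn2_b, yn0_a, yn0_b, e1y, e2y, e1y', e2y', xn_a, xn_b, smul_zero, add_zero, zero_add,
    hu, hu', D2.zero_a, D2.zero_b] <;>
  (match_scalars <;> (rw [← sub_eq_zero]; ring_nf <;>
    simp only [two0, three1, four0, five1, six0, seven1, eight0, mul_zero, zero_mul,
            add_zero, zero_add, neg_zero, sub_zero, sub_self, mul_one]))

/-- the exact identity behind (J2) -/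
theorem J2_exact (w : C) (h1 : xv O (i + 1) • w = yv O (i + 1) • w)
    (h2 : xv O (i + 2) • w = yv O (i + 2) • w) :
    D2.map (zip O true i) (yv O (i + 1) • ZZ O (i + 1) w + mid O (yv O (i + 1)) (ZZ O (i + 1) w)) =
      (yv O i + xv O (i + 2)) •
        (⟨xv O (i + 2) • (⟨⟨xv O (i + 1) • w, w⟩, 0⟩ : D2 true i (D2 true (i + 1) C)),
          ⟨⟨xv O (i + 1) • w, w⟩, 0⟩⟩ : D2 true (i + 1) (D2 true i (D2 true (i + 1) C))) := by
  have h1' : ∀ p : S O, xv O (i + 1) • p • w = yv O (i + 1) • p • w := fun p => by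
    rw [smul_comm, h1, smul_comm]
  have h2' : ∀ p : S O, xv O (i + 2) • p • w = yv O (i + 2) • p • w := fun p => by
    rw [smul_comm, h2, smul_comm]
  have h1'' : ∀ p q : S O, xv O (i + 1) • p • q • w = yv O (i + 1) • p • q • w := fun p q => by
    rw [smul_smul p q w, h1']
  have h2'' : ∀ p q : S O, xv O (i + 2) • p • q • w = yv O (i + 2) • p • q • w := fun p q => by
    rw [smul_smul p q w, h2']
  refine D2.ext (D2.ext (D2.ext ?_ ?_) (D2.ext ?_ ?_)) (D2.ext (D2.ext ?_ ?_) (D2.ext ?_ ?_)) <;>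
  simp only [mp_apply, ZZ_apply, DD_apply, D2.add_a, D2.add_b, D2.map_a, D2.map_b, zipy_a, zipy'_a,
    mid_a, mid_b,
    zip_b, split_aa, split_ab, split_ba, split_bb, mul_smul, add_smul, smul_add, yi_a, yi_b, ys_a, ys_b,
    ys'_a, ys'_b, yn2_a, yn2_b, yn0_a, yn0_b, e1y, e2y, e1y', e2y', xn_a, xn_b, smul_zero, add_zero, zero_add,
    h1, h1', h1'', h2, h2', h2'', D2.zero_a, D2.zero_b] <;>
  first
  | (simp only [add_self_mod (O := O), add_zero, zero_add]; done)
  | (match_scalars <;> (rw [← sub_eq_zero]; ring_nf <;>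
    simp only [two0, three1, four0, five1, six0, seven1, eight0, mul_zero, zero_mul,
            add_zero, zero_add, neg_zero, sub_zero, sub_self, mul_one]))

theorem ev_h3v (P : Pot O) (i : ℕ) (c : ℕ → O) :
    ev c (h3v P i) = c i + c (i + 1) + c (i + 2) + P.ka := by
  simp [h3v]

theorem h3_distinct {P : Pot O} {a b c : O} (ha : P.IsRoot a) (hb : P.IsRoot b) (hc : P.IsRoot c)
    (hab : a ≠ b) (hbc : b ≠ c) (hac : a ≠ c) : a + b + c + P.ka = 0 := by
  have t := two0 O
  unfold Pot.ka
  rcases ha with rfl | rfl | rfl <;> rcases hb with rfl | rfl | rfl <;>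
    rcases hc with rfl | rfl | rfl <;>
    first
    | exact absurd rfl hab
    | exact absurd rfl hbc
    | exact absurd rfl hac
    | (rw [← sub_eq_zero]; ring_nf; simp only [two0, three1, four0, mul_zero, zero_mul, add_zero, zero_add])

/-- (J1) -/
theorem J1 (P : Pot O) {w : D2 true i C} (hw : w ∈ HH O (D2 true i C)) :
    h3v P i • (mp O i w + DD O i w) ∈ NN P _ := by
  intro c hc ψ
  rw [map_smulₛₗ, ev_h3v, smul_eq_mul]
  by_cases h01 : c i = c (i + 1)
  · have := lemV_zero h01 (ψ.comp (mp O i + DD O i)) hw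
    have e : (ψ.comp (mp O i + DD O i)) w = ψ (mp O i w + DD O i w) := rfl
    rw [← e, this, mul_zero]
  by_cases h12 : c (i + 1) = c (i + 2)
  · have hz : mp O i w + DD O i w ∈ HH O _ := add_mem (map_mem_HH _ hw) (map_mem_HH _ hw)
    rw [lemV_zero (i := i + 1) h12 ψ hz, mul_zero]
  by_cases h02 : c i = c (i + 2)
  · have hu : xv O (i + 2) • w.b = yv O (i + 2) • w.b := by
      have := congrArg D2.b (hw (i + 2))
      rwa [xn_b, yn2_b] at this
    have hw' : w = ⟨xv O (i + 1) • w.b, w.b⟩ := D2.ext (HH_D2_a hw) rfl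
    have := J1_exact (O := O) (i := i) w.b hu
    rw [← hw'] at this
    rw [this, map_smulₛₗ, map_mul, map_add, map_add, ev_inl, ev_inr, ev_inl, h02,
      CharTwo.add_self_eq_zero, mul_zero, zero_smul, mul_zero]
  · rw [h3_distinct (hc _) (hc _) (hc _) h01 h12 h02, zero_mul]

/-- (J2) -/
theorem J2 (P : Pot O) {w : D2 true i C} (hw : w ∈ HH O (D2 true i C)) :
    h3v P i • D2.map (zip O true i)
      (yv O (i + 1) • ZZ O (i + 1) w + mid O (yv O (i + 1)) (ZZ O (i + 1) w)) ∈ NN P _ := by
  intro c hc ψ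
  rw [map_smulₛₗ, ev_h3v, smul_eq_mul]
  have hz0 : ZZ O (i + 1) w ∈ HH O _ := map_mem_HH _ hw
  by_cases h01 : c i = c (i + 1)
  · have := lemV_zero h01 (ψ.comp (D2.map (zip O true i) ∘ₗ
      ((yv O (i + 1) • LinearMap.id + mid O (yv O (i + 1))) ∘ₗ ZZ O (i + 1)))) hw
    have e : (ψ.comp (D2.map (zip O true i) ∘ₗ
      ((yv O (i + 1) • LinearMap.id + mid O (yv O (i + 1))) ∘ₗ ZZ O (i + 1)))) w =
      ψ (D2.map (zip O true i)
      (yv O (i + 1) • ZZ O (i + 1) w + mid O (yv O (i + 1)) (ZZ O (i + 1) w))) := rfl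
    rw [← e, this, mul_zero]
  by_cases h12 : c (i + 1) = c (i + 2)
  · have hz : D2.map (zip O true i)
      (yv O (i + 1) • ZZ O (i + 1) w + mid O (yv O (i + 1)) (ZZ O (i + 1) w)) ∈ HH O _ :=
      map_mem_HH _ (add_mem (Submodule.smul_mem _ _ hz0) (map_mem_HH _ hz0))
    rw [lemV_zero (i := i + 1) h12 ψ hz, mul_zero]
  by_cases h02 : c i = c (i + 2)
  · rw [J2_exact (O := O) (i := i) w (hw _) (hw _), map_smulₛₗ, map_add, ev_inl, ev_inr, h02,
      CharTwo.add_self_eq_zero, zero_smul, mul_zero]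
  · rw [h3_distinct (hc _) (hc _) (hc _) h01 h12 h02, zero_mul]

end J

/-! ## negligible elements used by the tower steps -/

section neg
variable {P : Pot O} {C : Type} [AddCommGroup C] [Module (S O) C]

theorem ev_h (P : Pot O) (c : ℕ → O) (a b : S O) : ev c (P.h a b) = P.h (ev c a) (ev c b) := by
  simp [Pot.h, MvPolynomial.algebraMap_eq]

/-- `h(c,c') = 0` for distinct roots -/
theorem h_distinct {P : Pot O} {a b : O} (ha : P.IsRoot a) (hb : P.IsRoot b) (hab : a ≠ b) :
    P.h a b = 0 := by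
  have t := two0 O
  unfold Pot.h Pot.ka Pot.ta
  rcases ha with rfl | rfl | rfl <;> rcases hb with rfl | rfl | rfl <;>
    first
    | exact absurd rfl hab
    | (rw [← sub_eq_zero]; simp only [Algebra.algebraMap_self, RingHom.id_apply]; ring_nf;
       simp only [two0, three1, four0, mul_zero, zero_mul, add_zero, zero_add])

/-- `h(X_i,X_{i+1}) zip v` is negligible -/
theorem h_zip_mem (P : Pot O) (i : ℕ) {v : C} (hv : v ∈ HH O C) :
    P.h (yv O i) (yv O (i + 1)) • zip O true i v ∈ NN P _ := by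
  intro c hc ψ
  rw [map_smulₛₗ, ev_h, ev_inr, ev_inr, smul_eq_mul]
  by_cases h : c i = c (i + 1)
  · rw [lemV_zero h ψ (map_mem_HH _ hv), mul_zero]
  · rw [h_distinct (hc _) (hc _) h, zero_mul]

/-- `h(X_i,X_{i+1})` kills `HH (D2 true i C)` -/
theorem h_D2_mem (P : Pot O) (i : ℕ) {w : D2 true i C} (hw : w ∈ HH O (D2 true i C)) :
    P.h (yv O i) (yv O (i + 1)) • w ∈ NN P _ := by
  intro c hc ψ
  rw [map_smulₛₗ, ev_h, ev_inr, ev_inr, smul_eq_mul]
  by_cases h : c i = c (i + 1)
  · rw [lemV_zero h ψ hw, mul_zero]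
  · rw [h_distinct (hc _) (hc _) h, zero_mul]

/-- `p(X_j)` kills `HH` -/
theorem p_mem (P : Pot O) (j : ℕ) (v : C) : P.p (yv O j) • v ∈ NN P C := by
  intro c hc ψ
  have : ev c (P.p (yv O j)) = 0 := by
    have e : ev c (P.p (yv O j)) = P.p (c j) := by
      simp [Pot.p, Pot.q, MvPolynomial.algebraMap_eq]
    rw [e]
    unfold Pot.p Pot.q Pot.ka Pot.ta
    simp only [Algebra.algebraMap_self, RingHom.id_apply]
    rcases hc j with h | h | h <;> rw [h]
    · ring
    · ring_nf; simp only [two0, three1, four0, mul_zero, zero_mul, add_zero, zero_add]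
    · ring_nf; simp only [two0, three1, four0, mul_zero, zero_mul, add_zero, zero_add]
  rw [map_smulₛₗ, this, zero_smul]

end neg

end CQ
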