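import Pool.Agent.CQ.Ctx
import Pool.Agent.CQ.TowBase
import Pool.Agent.CQ.TowJ

/-!
# Block H3: the positive tower step
-/

set_option autoImplicit false
set_option linter.unusedSectionVars false
set_option linter.unusedSimpArgs false
set_option linter.unusedVariables false

namespace CQ

open MvPolynomial

variable {O : Type} [CommRing O] [CharP O 2]

namespace SP

/-- one letter -/
abbrev W1 (i : ℕ) (K : Type) : Type := K × D2 true i K
/-- two letters -/
abbrev W2 (i : ℕ) (K : Type) : Type := W1 i K × D2 true (i + 1) (W1 i K)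
/-- three letters -/
abbrev W3 (i : ℕ) (K : Type) : Type := W2 i K × D2 true i (W2 i K)

section defs
variable (O) (i : ℕ) (K : Type) [AddCommGroup K] [Module (S O) K]

noncomputable def j0 : K →ₗ[S O] W3 i K :=
  LinearMap.inl (S O) (W2 i K) (D2 true i (W2 i K)) ∘ₗ
    LinearMap.inl (S O) (W1 i K) (D2 true (i + 1) (W1 i K)) ∘ₗ LinearMap.inl (S O) K (D2 true i K)
noncomputable def j1 : D2 true i K →ₗ[S O] W3 i K :=
  LinearMap.inl (S O) (W2 i K) (D2 true i (W2 i K)) ∘ₗ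
    LinearMap.inl (S O) (W1 i K) (D2 true (i + 1) (W1 i K)) ∘ₗ LinearMap.inr (S O) K (D2 true i K)
noncomputable def j2 : D2 true (i + 1) K →ₗ[S O] W3 i K :=
  LinearMap.inl (S O) (W2 i K) (D2 true i (W2 i K)) ∘ₗ
    LinearMap.inr (S O) (W1 i K) (D2 true (i + 1) (W1 i K)) ∘ₗ
      D2.map (LinearMap.inl (S O) K (D2 true i K))
noncomputable def j3 : D2 true (i + 1) (D2 true i K) →ₗ[S O] W3 i K :=
  LinearMap.inl (S O) (W2 i K) (D2 true i (W2 i K)) ∘ₗ
    LinearMap.inr (S O) (W1 i K) (D2 true (i + 1) (W1 i K)) ∘ₗ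
      D2.map (LinearMap.inr (S O) K (D2 true i K))
noncomputable def j4 : D2 true i K →ₗ[S O] W3 i K :=
  LinearMap.inr (S O) (W2 i K) (D2 true i (W2 i K)) ∘ₗ
    D2.map (LinearMap.inl (S O) (W1 i K) (D2 true (i + 1) (W1 i K)) ∘ₗ
      LinearMap.inl (S O) K (D2 true i K))
noncomputable def j5 : D2 true i (D2 true i K) →ₗ[S O] W3 i K :=
  LinearMap.inr (S O) (W2 i K) (D2 true i (W2 i K)) ∘ₗ
    D2.map (LinearMap.inl (S O) (W1 i K) (D2 true (i + 1) (W1 i K)) ∘ₗ
      LinearMap.inr (S O) K (D2 true i K))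
noncomputable def j6 : D2 true i (D2 true (i + 1) K) →ₗ[S O] W3 i K :=
  LinearMap.inr (S O) (W2 i K) (D2 true i (W2 i K)) ∘ₗ
    D2.map (LinearMap.inr (S O) (W1 i K) (D2 true (i + 1) (W1 i K)) ∘ₗ
      D2.map (LinearMap.inl (S O) K (D2 true i K)))
noncomputable def j7 : D2 true i (D2 true (i + 1) (D2 true i K)) →ₗ[S O] W3 i K :=
  LinearMap.inr (S O) (W2 i K) (D2 true i (W2 i K)) ∘ₗ
    D2.map (LinearMap.inr (S O) (W1 i K) (D2 true (i + 1) (W1 i K)) ∘ₗ
      D2.map (LinearMap.inr (S O) K (D2 true i K)))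

variable {K}
/-- the differential of the three letters `σᵢ σᵢ₊₁ σᵢ⁻¹` -/
noncomputable def d3 (d : K →ₗ[S O] K) : W3 i K →ₗ[S O] W3 i K :=
  dF true i false (dF true (i + 1) true (dF true i true d))

variable (d : K →ₗ[S O] K)

theorem d_j0 : d3 O i d ∘ₗ j0 O i K =
    j0 O i K ∘ₗ d + j1 O i K ∘ₗ zip O true i + j2 O i K ∘ₗ zip O true (i + 1) := by
  apply LinearMap.ext
  intro v
  simp only [d3, LinearMap.comp_apply, LinearMap.add_apply, j0, j1, j2, j3, j4, j5, j6, j7,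
    LinearMap.inl_apply, LinearMap.inr_apply, dF_neg, dF_pos]
  ext <;> simp [unzip_apply, dF_pos, dF_neg]

theorem d_j1 : d3 O i d ∘ₗ j1 O i K =
    j1 O i K ∘ₗ D2.map d + j3 O i K ∘ₗ zip O true (i + 1) := by
  apply LinearMap.ext
  intro v
  simp only [d3, LinearMap.comp_apply, LinearMap.add_apply, j0, j1, j2, j3, j4, j5, j6, j7,
    LinearMap.inl_apply, LinearMap.inr_apply, dF_neg, dF_pos]
  ext <;> simp [unzip_apply, dF_pos, dF_neg]

theorem d_j2 : d3 O i d ∘ₗ j2 O i K =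
    j2 O i K ∘ₗ D2.map d + j3 O i K ∘ₗ D2.map (zip O true i) := by
  apply LinearMap.ext
  intro v
  simp only [d3, LinearMap.comp_apply, LinearMap.add_apply, j0, j1, j2, j3, j4, j5, j6, j7,
    LinearMap.inl_apply, LinearMap.inr_apply, dF_neg, dF_pos]
  ext <;> simp [unzip_apply, dF_pos, dF_neg]

theorem d_j3 : d3 O i d ∘ₗ j3 O i K =
    j3 O i K ∘ₗ D2.map (D2.map d) := by
  apply LinearMap.ext
  intro v
  simp only [d3, LinearMap.comp_apply, LinearMap.add_apply, j0, j1, j2, j3, j4, j5, j6, j7,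
    LinearMap.inl_apply, LinearMap.inr_apply, dF_neg, dF_pos]
  ext <;> simp [unzip_apply, dF_pos, dF_neg]

theorem d_j4 : d3 O i d ∘ₗ j4 O i K =
    j4 O i K ∘ₗ D2.map d + j0 O i K ∘ₗ unzip O true i + j5 O i K ∘ₗ D2.map (zip O true i) +
      j6 O i K ∘ₗ D2.map (zip O true (i + 1)) := by
  apply LinearMap.ext
  intro v
  simp only [d3, LinearMap.comp_apply, LinearMap.add_apply, j0, j1, j2, j3, j4, j5, j6, j7,
    LinearMap.inl_apply, LinearMap.inr_apply, dF_neg, dF_pos]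
  ext <;> simp [unzip_apply, dF_pos, dF_neg]

theorem d_j5 : d3 O i d ∘ₗ j5 O i K =
    j5 O i K ∘ₗ D2.map (D2.map d) + j1 O i K ∘ₗ unzip O true i +
      j7 O i K ∘ₗ D2.map (zip O true (i + 1)) := by
  apply LinearMap.ext
  intro v
  simp only [d3, LinearMap.comp_apply, LinearMap.add_apply, j0, j1, j2, j3, j4, j5, j6, j7,
    LinearMap.inl_apply, LinearMap.inr_apply, dF_neg, dF_pos]
  ext <;> simp [unzip_apply, dF_pos, dF_neg]

theorem d_j6 : d3 O i d ∘ₗ j6 O i K =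
    j6 O i K ∘ₗ D2.map (D2.map d) + j2 O i K ∘ₗ unzip O true i +
      j7 O i K ∘ₗ D2.map (D2.map (zip O true i)) := by
  apply LinearMap.ext
  intro v
  simp only [d3, LinearMap.comp_apply, LinearMap.add_apply, j0, j1, j2, j3, j4, j5, j6, j7,
    LinearMap.inl_apply, LinearMap.inr_apply, dF_neg, dF_pos]
  ext <;> simp [unzip_apply, dF_pos, dF_neg]

theorem d_j7 : d3 O i d ∘ₗ j7 O i K =
    j7 O i K ∘ₗ D2.map (D2.map (D2.map d)) + j3 O i K ∘ₗ unzip O true i := by
  apply LinearMap.ext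
  intro v
  simp only [d3, LinearMap.comp_apply, LinearMap.add_apply, j0, j1, j2, j3, j4, j5, j6, j7,
    LinearMap.inl_apply, LinearMap.inr_apply, dF_neg, dF_pos]
  ext <;> simp [unzip_apply, dF_pos, dF_neg]

/-- the element with the eight components -/
noncomputable def mk8 (x0 : K) (x1 : D2 true i K) (x2 : D2 true (i + 1) K)
    (x3 : D2 true (i + 1) (D2 true i K)) (x4 : D2 true i K) (x5 : D2 true i (D2 true i K))
    (x6 : D2 true i (D2 true (i + 1) K)) (x7 : D2 true i (D2 true (i + 1) (D2 true i K))) :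
    W3 i K :=
  j0 O i K x0 + j1 O i K x1 + j2 O i K x2 + j3 O i K x3 + j4 O i K x4 + j5 O i K x5 +
    j6 O i K x6 + j7 O i K x7

theorem d3_mk8 (x0 : K) (x1 : D2 true i K) (x2 : D2 true (i + 1) K)
    (x3 : D2 true (i + 1) (D2 true i K)) (x4 : D2 true i K) (x5 : D2 true i (D2 true i K))
    (x6 : D2 true i (D2 true (i + 1) K)) (x7 : D2 true i (D2 true (i + 1) (D2 true i K))) :
    d3 O i d (mk8 O i x0 x1 x2 x3 x4 x5 x6 x7) =
      mk8 O i (d x0 + unzip O true i x4)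
        (D2.map d x1 + zip O true i x0 + unzip O true i x5)
        (D2.map d x2 + zip O true (i + 1) x0 + unzip O true i x6)
        (D2.map (D2.map d) x3 + zip O true (i + 1) x1 + D2.map (zip O true i) x2 +
          unzip O true i x7)
        (D2.map d x4)
        (D2.map (D2.map d) x5 + D2.map (zip O true i) x4)
        (D2.map (D2.map d) x6 + D2.map (zip O true (i + 1)) x4)
        (D2.map (D2.map (D2.map d)) x7 + D2.map (zip O true (i + 1)) x5 +
          D2.map (D2.map (zip O true i)) x6) := by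
  have h0 := LinearMap.congr_fun (d_j0 O i d) x0
  have h1 := LinearMap.congr_fun (d_j1 O i d) x1
  have h2 := LinearMap.congr_fun (d_j2 O i d) x2
  have h3 := LinearMap.congr_fun (d_j3 O i d) x3
  have h4 := LinearMap.congr_fun (d_j4 O i d) x4
  have h5 := LinearMap.congr_fun (d_j5 O i d) x5
  have h6 := LinearMap.congr_fun (d_j6 O i d) x6
  have h7 := LinearMap.congr_fun (d_j7 O i d) x7
  simp only [LinearMap.comp_apply, LinearMap.add_apply] at h0 h1 h2 h3 h4 h5 h6 h7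
  unfold mk8
  simp only [map_add, h0, h1, h2, h3, h4, h5, h6, h7]
  abel

theorem mk8_add (x0 y0 : K) (x1 y1 : D2 true i K) (x2 y2 : D2 true (i + 1) K)
    (x3 y3 : D2 true (i + 1) (D2 true i K)) (x4 y4 : D2 true i K)
    (x5 y5 : D2 true i (D2 true i K)) (x6 y6 : D2 true i (D2 true (i + 1) K))
    (x7 y7 : D2 true i (D2 true (i + 1) (D2 true i K))) :
    mk8 O i x0 x1 x2 x3 x4 x5 x6 x7 + mk8 O i y0 y1 y2 y3 y4 y5 y6 y7 =
      mk8 O i (x0 + y0) (x1 + y1) (x2 + y2) (x3 + y3) (x4 + y4) (x5 + y5) (x6 + y6)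
        (x7 + y7) := by
  unfold mk8
  simp only [map_add]
  abel

theorem mk8_smul (p : S O) (x0 : K) (x1 : D2 true i K) (x2 : D2 true (i + 1) K)
    (x3 : D2 true (i + 1) (D2 true i K)) (x4 : D2 true i K) (x5 : D2 true i (D2 true i K))
    (x6 : D2 true i (D2 true (i + 1) K)) (x7 : D2 true i (D2 true (i + 1) (D2 true i K))) :
    p • mk8 O i x0 x1 x2 x3 x4 x5 x6 x7 =
      mk8 O i (p • x0) (p • x1) (p • x2) (p • x3) (p • x4) (p • x5) (p • x6) (p • x7) := by
  unfold mk8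
  simp only [map_smul, smul_add]

theorem mk8_mem_HH {x0 : K} {x1 : D2 true i K} {x2 : D2 true (i + 1) K}
    {x3 : D2 true (i + 1) (D2 true i K)} {x4 : D2 true i K} {x5 : D2 true i (D2 true i K)}
    {x6 : D2 true i (D2 true (i + 1) K)} {x7 : D2 true i (D2 true (i + 1) (D2 true i K))}
    (h0 : x0 ∈ HH O _) (h1 : x1 ∈ HH O _) (h2 : x2 ∈ HH O _) (h3 : x3 ∈ HH O _)
    (h4 : x4 ∈ HH O _) (h5 : x5 ∈ HH O _) (h6 : x6 ∈ HH O _) (h7 : x7 ∈ HH O _) :
    mk8 O i x0 x1 x2 x3 x4 x5 x6 x7 ∈ HH O (W3 i K) :=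
  add_mem (add_mem (add_mem (add_mem (add_mem (add_mem (add_mem (map_mem_HH _ h0)
    (map_mem_HH _ h1)) (map_mem_HH _ h2)) (map_mem_HH _ h3)) (map_mem_HH _ h4))
    (map_mem_HH _ h5)) (map_mem_HH _ h6)) (map_mem_HH _ h7)

theorem mk8_mem_N0 {P : Pot O} {x0 : K} {x1 : D2 true i K} {x2 : D2 true (i + 1) K}
    {x3 : D2 true (i + 1) (D2 true i K)} {x4 : D2 true i K} {x5 : D2 true i (D2 true i K)}
    {x6 : D2 true i (D2 true (i + 1) K)} {x7 : D2 true i (D2 true (i + 1) (D2 true i K))}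
    (h0 : x0 ∈ N0 P _) (h1 : x1 ∈ N0 P _) (h2 : x2 ∈ N0 P _) (h3 : x3 ∈ N0 P _)
    (h4 : x4 ∈ N0 P _) (h5 : x5 ∈ N0 P _) (h6 : x6 ∈ N0 P _) (h7 : x7 ∈ N0 P _) :
    mk8 O i x0 x1 x2 x3 x4 x5 x6 x7 ∈ N0 P (W3 i K) :=
  add_mem (add_mem (add_mem (add_mem (add_mem (add_mem (add_mem (map_mem_N0 _ h0)
    (map_mem_N0 _ h1)) (map_mem_N0 _ h2)) (map_mem_N0 _ h3)) (map_mem_N0 _ h4))
    (map_mem_N0 _ h5)) (map_mem_N0 _ h6)) (map_mem_N0 _ h7)

/-- the element with the eight components, one level up -/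
noncomputable def mk8D (x0 : D2 true (i + 1) K) (x1 : D2 true (i + 1) (D2 true i K))
    (x2 : D2 true (i + 1) (D2 true (i + 1) K))
    (x3 : D2 true (i + 1) (D2 true (i + 1) (D2 true i K))) (x4 : D2 true (i + 1) (D2 true i K))
    (x5 : D2 true (i + 1) (D2 true i (D2 true i K)))
    (x6 : D2 true (i + 1) (D2 true i (D2 true (i + 1) K)))
    (x7 : D2 true (i + 1) (D2 true i (D2 true (i + 1) (D2 true i K)))) :
    D2 true (i + 1) (W3 i K) :=
  D2.map (j0 O i K) x0 + D2.map (j1 O i K) x1 + D2.map (j2 O i K) x2 + D2.map (j3 O i K) x3 +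
    D2.map (j4 O i K) x4 + D2.map (j5 O i K) x5 + D2.map (j6 O i K) x6 + D2.map (j7 O i K) x7

theorem zip_mk8 (x0 : K) (x1 : D2 true i K) (x2 : D2 true (i + 1) K)
    (x3 : D2 true (i + 1) (D2 true i K)) (x4 : D2 true i K) (x5 : D2 true i (D2 true i K))
    (x6 : D2 true i (D2 true (i + 1) K)) (x7 : D2 true i (D2 true (i + 1) (D2 true i K))) :
    zip O true (i + 1) (mk8 O i x0 x1 x2 x3 x4 x5 x6 x7) =
      mk8D O i (zip O true (i + 1) x0) (zip O true (i + 1) x1) (zip O true (i + 1) x2)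
        (zip O true (i + 1) x3) (zip O true (i + 1) x4) (zip O true (i + 1) x5)
        (zip O true (i + 1) x6) (zip O true (i + 1) x7) := by
  unfold mk8 mk8D
  simp only [map_add, zip_nat]

theorem mk8D_mem_HH {x0 : D2 true (i + 1) K} {x1 : D2 true (i + 1) (D2 true i K)}
    {x2 : D2 true (i + 1) (D2 true (i + 1) K)}
    {x3 : D2 true (i + 1) (D2 true (i + 1) (D2 true i K))} {x4 : D2 true (i + 1) (D2 true i K)}
    {x5 : D2 true (i + 1) (D2 true i (D2 true i K))}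
    {x6 : D2 true (i + 1) (D2 true i (D2 true (i + 1) K))}
    {x7 : D2 true (i + 1) (D2 true i (D2 true (i + 1) (D2 true i K)))}
    (h0 : x0 ∈ HH O _) (h1 : x1 ∈ HH O _) (h2 : x2 ∈ HH O _) (h3 : x3 ∈ HH O _)
    (h4 : x4 ∈ HH O _) (h5 : x5 ∈ HH O _) (h6 : x6 ∈ HH O _) (h7 : x7 ∈ HH O _) :
    mk8D O i x0 x1 x2 x3 x4 x5 x6 x7 ∈ HH O (D2 true (i + 1) (W3 i K)) :=
  add_mem (add_mem (add_mem (add_mem (add_mem (add_mem (add_mem (map_mem_HH _ h0)
    (map_mem_HH _ h1)) (map_mem_HH _ h2)) (map_mem_HH _ h3)) (map_mem_HH _ h4))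
    (map_mem_HH _ h5)) (map_mem_HH _ h6)) (map_mem_HH _ h7)

theorem mk8D_mem_N0 {P : Pot O} {x0 : D2 true (i + 1) K} {x1 : D2 true (i + 1) (D2 true i K)}
    {x2 : D2 true (i + 1) (D2 true (i + 1) K)}
    {x3 : D2 true (i + 1) (D2 true (i + 1) (D2 true i K))} {x4 : D2 true (i + 1) (D2 true i K)}
    {x5 : D2 true (i + 1) (D2 true i (D2 true i K))}
    {x6 : D2 true (i + 1) (D2 true i (D2 true (i + 1) K))}
    {x7 : D2 true (i + 1) (D2 true i (D2 true (i + 1) (D2 true i K)))}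
    (h0 : x0 ∈ N0 P _) (h1 : x1 ∈ N0 P _) (h2 : x2 ∈ N0 P _) (h3 : x3 ∈ N0 P _)
    (h4 : x4 ∈ N0 P _) (h5 : x5 ∈ N0 P _) (h6 : x6 ∈ N0 P _) (h7 : x7 ∈ N0 P _) :
    mk8D O i x0 x1 x2 x3 x4 x5 x6 x7 ∈ N0 P (D2 true (i + 1) (W3 i K)) :=
  add_mem (add_mem (add_mem (add_mem (add_mem (add_mem (add_mem (map_mem_N0 _ h0)
    (map_mem_N0 _ h1)) (map_mem_N0 _ h2)) (map_mem_N0 _ h3)) (map_mem_N0 _ h4))
    (map_mem_N0 _ h5)) (map_mem_N0 _ h6)) (map_mem_N0 _ h7)

theorem mk8D_add (x0 y0 : D2 true (i + 1) K) (x1 y1 : D2 true (i + 1) (D2 true i K))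
    (x2 y2 : D2 true (i + 1) (D2 true (i + 1) K))
    (x3 y3 : D2 true (i + 1) (D2 true (i + 1) (D2 true i K)))
    (x4 y4 : D2 true (i + 1) (D2 true i K))
    (x5 y5 : D2 true (i + 1) (D2 true i (D2 true i K)))
    (x6 y6 : D2 true (i + 1) (D2 true i (D2 true (i + 1) K)))
    (x7 y7 : D2 true (i + 1) (D2 true i (D2 true (i + 1) (D2 true i K)))) :
    mk8D O i x0 x1 x2 x3 x4 x5 x6 x7 + mk8D O i y0 y1 y2 y3 y4 y5 y6 y7 =
      mk8D O i (x0 + y0) (x1 + y1) (x2 + y2) (x3 + y3) (x4 + y4) (x5 + y5) (x6 + y6)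
        (x7 + y7) := by
  unfold mk8D
  simp only [map_add]
  abel

theorem map_d3_mk8D (x0 : D2 true (i + 1) K) (x1 : D2 true (i + 1) (D2 true i K))
    (x2 : D2 true (i + 1) (D2 true (i + 1) K))
    (x3 : D2 true (i + 1) (D2 true (i + 1) (D2 true i K))) (x4 : D2 true (i + 1) (D2 true i K))
    (x5 : D2 true (i + 1) (D2 true i (D2 true i K)))
    (x6 : D2 true (i + 1) (D2 true i (D2 true (i + 1) K)))
    (x7 : D2 true (i + 1) (D2 true i (D2 true (i + 1) (D2 true i K)))) :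
    D2.map (d3 O i d) (mk8D O i x0 x1 x2 x3 x4 x5 x6 x7) =
      mk8D O i (D2.map d x0 + D2.map (unzip O true i) x4)
        (D2.map (D2.map d) x1 + D2.map (zip O true i) x0 + D2.map (unzip O true i) x5)
        (D2.map (D2.map d) x2 + D2.map (zip O true (i + 1)) x0 + D2.map (unzip O true i) x6)
        (D2.map (D2.map (D2.map d)) x3 + D2.map (zip O true (i + 1)) x1 +
          D2.map (D2.map (zip O true i)) x2 + D2.map (unzip O true i) x7)
        (D2.map (D2.map d) x4)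
        (D2.map (D2.map (D2.map d)) x5 + D2.map (D2.map (zip O true i)) x4)
        (D2.map (D2.map (D2.map d)) x6 + D2.map (D2.map (zip O true (i + 1))) x4)
        (D2.map (D2.map (D2.map (D2.map d))) x7 + D2.map (D2.map (zip O true (i + 1))) x5 +
          D2.map (D2.map (D2.map (zip O true i))) x6) := by
  have key : ∀ {A B : Type} [AddCommGroup A] [Module (S O) A] [AddCommGroup B] [Module (S O) B]
      (f : A →ₗ[S O] B) (g : W3 i K →ₗ[S O] W3 i K) (k : B →ₗ[S O] W3 i K) (z : D2 true (i + 1) A),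
      D2.map (k ∘ₗ f) z = D2.map k (D2.map f z) := by
    intro A B _ _ _ _ f g k z
    rw [D2.map_comp]; rfl
  have kd : ∀ {A : Type} [AddCommGroup A] [Module (S O) A] (k : A →ₗ[S O] W3 i K)
      (z : D2 true (i + 1) A), D2.map (d3 O i d) (D2.map k z) = D2.map (d3 O i d ∘ₗ k) z := by
    intro A _ _ k z
    rw [D2.map_comp]; rfl
  have h0 := kd (j0 O i K) x0
  have h1 := kd (j1 O i K) x1
  have h2 := kd (j2 O i K) x2
  have h3 := kd (j3 O i K) x3
  have h4 := kd (j4 O i K) x4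
  have h5 := kd (j5 O i K) x5
  have h6 := kd (j6 O i K) x6
  have h7 := kd (j7 O i K) x7
  rw [d_j0] at h0
  rw [d_j1] at h1
  rw [d_j2] at h2
  rw [d_j3] at h3
  rw [d_j4] at h4
  rw [d_j5] at h5
  rw [d_j6] at h6
  rw [d_j7] at h7
  simp only [D2.map_add, D2.map_comp, LinearMap.comp_apply, LinearMap.add_apply]
    at h0 h1 h2 h3 h4 h5 h6 h7
  unfold mk8D
  simp only [map_add, h0, h1, h2, h3, h4, h5, h6, h7]
  abel

end defs

section scal
variable (P : Pot O) (i : ℕ)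

/-- `b_c`: `h3` for odd `c`, `1` for even `c` -/
noncomputable def bb (c : ℕ) : S O := if c % 2 = 1 then h3v P i else 1

theorem q1 : (yv O i + yv O (i + 2)) * h3v P i =
    P.h (yv O i) (yv O (i + 1)) + P.h (yv O (i + 1)) (yv O (i + 2)) := by
  unfold h3v Pot.h
  rw [MvPolynomial.algebraMap_eq]
  (rw [← sub_eq_zero]; ring_nf <;> simp only [two0, three1, four0, five1, six0, seven1,
          eight0, mul_zero, zero_mul, add_zero, zero_add, neg_zero, sub_zero, sub_self, mul_one])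

theorem q2 : (yv O (i + 1) + yv O (i + 2)) * h3v P i =
    P.h (yv O i) (yv O (i + 1)) + P.h (yv O i) (yv O (i + 2)) := by
  unfold h3v Pot.h
  rw [MvPolynomial.algebraMap_eq]
  (rw [← sub_eq_zero]; ring_nf <;> simp only [two0, three1, four0, five1, six0, seven1,
          eight0, mul_zero, zero_mul, add_zero, zero_add, neg_zero, sub_zero, sub_self, mul_one])

theorem q3 : (yv O i + yv O (i + 1)) * h3v P i =
    P.h (yv O i) (yv O (i + 2)) + P.h (yv O (i + 1)) (yv O (i + 2)) := by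
  unfold h3v Pot.h
  rw [MvPolynomial.algebraMap_eq]
  (rw [← sub_eq_zero]; ring_nf <;> simp only [two0, three1, four0, five1, six0, seven1,
          eight0, mul_zero, zero_mul, add_zero, zero_add, neg_zero, sub_zero, sub_self, mul_one])

theorem q4 (x y : S O) : (x + y) * P.h x y = P.p x + P.p y := by
  unfold Pot.h Pot.p Pot.q
  rw [MvPolynomial.algebraMap_eq]
  (rw [← sub_eq_zero]; ring_nf <;> simp only [two0, three1, four0, five1, six0, seven1,
          eight0, mul_zero, zero_mul, add_zero, zero_add, neg_zero, sub_zero, sub_self, mul_one])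

theorem r010 (n : ℕ) : bb P i (n + 1) * muv P (n + 1) i + (yv O i + yv O (i + 1)) * h3v P i +
    muv P n (i + 1) * bb P i n = P.h (yv O (i + 1)) (yv O (i + 2)) := by
  have h1 := q1 P i
  have h2 := q2 P i
  have h3 := q3 P i
  have t : (2 : S O) = 0 := two0 (S O)
  rcases Nat.mod_two_eq_zero_or_one n with h | h
  · have h' : (n + 1) % 2 = 1 := by omega
    unfold bb muv
    rw [if_pos h', if_pos h', if_neg (by omega), if_neg (by omega)]
    linear_combination (yv O i + yv O (i + 1)) * h3v P i * t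
  · have h' : (n + 1) % 2 = 0 := by omega
    unfold bb muv
    rw [if_neg (by omega), if_neg (by omega), if_pos h, if_pos h]
    linear_combination h3 + h2 + P.h (yv O i) (yv O (i + 1)) * t + P.h (yv O i) (yv O (i + 2)) * t

theorem r111 (n : ℕ) : bb P i (n + 1) * muv P (n + 1) i + muv P n (i + 1) * bb P i n =
    P.h (yv O i) (yv O (i + 2)) := by
  have h1 := r010 P i n
  have h3 := q3 P i
  have t : (2 : S O) = 0 := two0 (S O)
  linear_combination h1 - h3 - P.h (yv O i) (yv O (i + 2)) * t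

theorem r011 (n : ℕ) : ∃ s : S O, h3v P i * (muv P n i + muv P n (i + 1)) =
    s * (P.h (yv O i) (yv O (i + 1)) + P.h (yv O (i + 1)) (yv O (i + 2))) := by
  rcases Nat.mod_two_eq_zero_or_one n with h | h
  · refine ⟨h3v P i, ?_⟩
    unfold muv
    rw [if_neg (by omega), if_neg (by omega)]
  · refine ⟨1, ?_⟩
    unfold muv
    rw [if_pos h, if_pos h, one_mul, ← q1]
    have t : (2 : S O) = 0 := two0 (S O)
    linear_combination h3v P i * yv O (i + 1) * t

end scal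

end SP
end CQ
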