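import Mathlib

/-!
# Smooth knot concordance modulo quasipositive knots: the statement (MP_e19e3f_gt)

Everything is expressed by braids.

* `Braid n` is Artin's braid group on `n + 1` strands (strands `0, …, n`), given by its standard
  presentation with generators `σ i`, `i : Fin n`.
* A knot is the closure of a braid whose permutation is a single cycle (Alexander's theorem: every
  oriented knot is of this form).
* Two closures are isotopic iff the braids are related by conjugation and (de)stabilisation
  (Markov's theorem).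
* The connected sum of the closures of `β ∈ Braid n` and `γ ∈ Braid m` is the closure of the braid
  `β * shift γ ∈ Braid (n + m)`, where the last strand of `β` is the first strand of `γ`.
* A *band* is a braid `w * σ i ^ (±1) * w⁻¹`; it is positive if the exponent is `+1`. By Rudolph
  (*Braided surfaces and Seifert ribbons for closed braids*, 1983) a knot is ribbon iff it is the
  closure of a product of exactly `n` bands in some `Braid n` (the `n + 1` discs of the `n + 1`
  strands joined by the `n` bands).
* A knot is quasipositive iff it is the closure of a product of positive bands (definition).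

`C` is the abelian group generated by knots with the relations: isotopic knots are equal, connected
sums are sums, ribbon knots are zero. This is the smooth concordance group. The obvious map from `C`
to the concordance group is well defined (ribbon knots are slice) and onto. It is injective:

* `K # -K` is ribbon, so `-[K] = [-K]` in `C`, and every element of `C` is the class `[K]` of one
  knot; so it is enough to show that `[K] = 0` in `C` for every smoothly slice knot `K`.
* If `K` is slice, i.e. concordant to the unknot `U`, then (Gordon, *Ribbon concordance of knots in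
  the 3-sphere*, Math. Ann. 257 (1981)) there is a knot `K'` with ribbon concordances `K' ≥ K` and
  `K' ≥ U`. The second one says that `K'` is ribbon, so `[K'] = 0`. The first one gives a ribbon disc
  for `K' # -K` (do the saddles of the ribbon concordance and use that `K # -K` is ribbon), so
  `[K'] + [-K] = 0`. Hence `[-K] = 0` and `[K] = -[-K] = 0`.

`Q` is the subgroup generated by the quasipositive knots, and the theorem says that
`ℚ ⊗ (C ⧸ Q)` is not finite dimensional over `ℚ`.
-/

namespace Pool.Agent.CQ

open scoped TensorProduct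

/-- Artin's relations on the generators `σ i`, `i : Fin n`: `σ i σ j = σ j σ i` for `i + 2 ≤ j` and
`σ i σ j σ i = σ j σ i σ j` for `i + 1 = j`. -/
def artinRels (n : ℕ) : Set (FreeGroup (Fin n)) :=
  {r | (∃ i j : Fin n, (i : ℕ) + 2 ≤ j ∧
          r = FreeGroup.of i * FreeGroup.of j * (FreeGroup.of j * FreeGroup.of i)⁻¹) ∨
       (∃ i j : Fin n, (i : ℕ) + 1 = j ∧
          r = FreeGroup.of i * FreeGroup.of j * FreeGroup.of i *
            (FreeGroup.of j * FreeGroup.of i * FreeGroup.of j)⁻¹)}

/-- The braid group on `n + 1` strands. -/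
abbrev Braid (n : ℕ) : Type := PresentedGroup (artinRels n)

/-- The standard generator `σ i`, a positive crossing of the strands `i` and `i + 1`. -/
def σ {n : ℕ} (i : Fin n) : Braid n := PresentedGroup.of i

theorem σ_comm {n : ℕ} {i j : Fin n} (h : (i : ℕ) + 2 ≤ j) :
    (σ i * σ j : Braid n) = σ j * σ i := by
  have := PresentedGroup.mk_eq_mk_of_mul_inv_mem (rels := artinRels n)
    (x := FreeGroup.of i * FreeGroup.of j) (y := FreeGroup.of j * FreeGroup.of i)
    (Or.inl ⟨i, j, h, rfl⟩)
  simp only [map_mul] at this
  exact this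

theorem σ_braid {n : ℕ} {i j : Fin n} (h : (i : ℕ) + 1 = j) :
    (σ i * σ j * σ i : Braid n) = σ j * σ i * σ j := by
  have := PresentedGroup.mk_eq_mk_of_mul_inv_mem (rels := artinRels n)
    (x := FreeGroup.of i * FreeGroup.of j * FreeGroup.of i)
    (y := FreeGroup.of j * FreeGroup.of i * FreeGroup.of j)
    (Or.inr ⟨i, j, h, rfl⟩)
  simp only [map_mul] at this
  exact this

/-- The universal property of the braid group. -/
def lift {n : ℕ} {G : Type*} [Group G] (f : Fin n → G)
    (h1 : ∀ i j : Fin n, (i : ℕ) + 2 ≤ j → f i * f j = f j * f i)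
    (h2 : ∀ i j : Fin n, (i : ℕ) + 1 = j → f i * f j * f i = f j * f i * f j) :
    Braid n →* G :=
  PresentedGroup.toGroup (f := f) (rels := artinRels n) (by
    rintro r (⟨i, j, hij, rfl⟩ | ⟨i, j, hij, rfl⟩)
    · simp only [map_mul, map_inv, FreeGroup.lift_apply_of]
      rw [h1 i j hij, mul_inv_eq_one]
    · simp only [map_mul, map_inv, FreeGroup.lift_apply_of]
      rw [h2 i j hij, mul_inv_eq_one])

@[simp] theorem lift_σ {n : ℕ} {G : Type*} [Group G] (f : Fin n → G) (h1) (h2) (i : Fin n) :
    lift f h1 h2 (σ i) = f i := by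
  simp [lift, σ]

theorem swap_val {n : ℕ} (i : Fin n) (x : Fin (n + 1)) :
    ((Equiv.swap i.castSucc i.succ x : Fin (n + 1)) : ℕ) =
      if (x : ℕ) = i then (i : ℕ) + 1 else if (x : ℕ) = i + 1 then (i : ℕ) else x := by
  rw [Equiv.swap_apply_def]
  simp only [Fin.ext_iff, Fin.val_castSucc, Fin.val_succ]
  split_ifs <;> rfl

/-- The permutation of a braid: `σ i` exchanges the strands `i` and `i + 1`. -/
def perm {n : ℕ} : Braid n →* Equiv.Perm (Fin (n + 1)) :=
  lift (fun i => Equiv.swap i.castSucc i.succ)
    (by
      intro i j hij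
      ext x
      simp only [Equiv.Perm.mul_apply, swap_val]
      split_ifs <;> omega)
    (by
      intro i j hij
      ext x
      simp only [Equiv.Perm.mul_apply, swap_val]
      split_ifs <;> omega)

/-- The closure of the braid `β` is a knot: its permutation is a single cycle. -/
def IsKnot {n : ℕ} (β : Braid n) : Prop :=
  ∀ a b : Fin (n + 1), (perm β).SameCycle a b

/-- The inclusion of `Braid n` into `Braid (n + m)` as the braids of the first strands. -/
def inl (n m : ℕ) : Braid n →* Braid (n + m) :=
  lift (fun i => σ (Fin.castAdd m i))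
    (fun i j h => σ_comm (by simpa using h))
    (fun i j h => σ_braid (by simpa using h))

/-- The inclusion of `Braid m` into `Braid (n + m)` as the braids of the last strands. -/
def inr (n m : ℕ) : Braid m →* Braid (n + m) :=
  lift (fun i => σ (Fin.natAdd n i))
    (fun i j h => σ_comm (by simp; omega))
    (fun i j h => σ_braid (by simp; omega))

theorem braid_ind {n : ℕ} {P : Braid n → Prop} (h1 : P 1) (hσ : ∀ i, P (σ i))
    (hσ' : ∀ i, P (σ i)⁻¹) (hm : ∀ a b, P a → P b → P (a * b)) (β : Braid n) : P β := by
  obtain ⟨z, rfl⟩ := PresentedGroup.mk_surjective (artinRels n) β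
  induction z using FreeGroup.induction_on with
  | C1 => rw [map_one]; exact h1
  | of i => exact hσ i
  | inv_of i _ => rw [map_inv]; exact hσ' i
  | mul x y hx hy => rw [map_mul]; exact hm _ _ hx hy

@[simp] theorem perm_σ {n : ℕ} (i : Fin n) : perm (σ i) = Equiv.swap i.castSucc i.succ := by
  simp [perm]

@[simp] theorem inl_σ {n m : ℕ} (i : Fin n) : inl n m (σ i) = σ (Fin.castAdd m i) := by
  simp [inl]

@[simp] theorem inr_σ {n m : ℕ} (i : Fin m) : inr n m (σ i) = σ (Fin.natAdd n i) := by
  simp [inr]

/-- The strands of the left summand. -/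
def eL (n m : ℕ) (a : Fin (n + 1)) : Fin (n + m + 1) := ⟨a, by omega⟩

/-- The strands of the right summand. -/
def eR (n m : ℕ) (b : Fin (m + 1)) : Fin (n + m + 1) := ⟨n + b, by omega⟩

theorem perm_inl_eL {n m : ℕ} (β : Braid n) (a : Fin (n + 1)) :
    perm (inl n m β) (eL n m a) = eL n m (perm β a) := by
  induction β using braid_ind generalizing a with
  | h1 => simp
  | hσ i =>
    apply Fin.ext
    simp only [inl_σ, perm_σ, swap_val, eL, Fin.val_castAdd]
  | hσ' i =>
    apply Fin.ext
    simp only [map_inv, inl_σ, perm_σ, Equiv.swap_inv, swap_val, eL, Fin.val_castAdd]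
  | hm x y hx hy => simp only [map_mul, Equiv.Perm.mul_apply, hx, hy]

theorem perm_inl_eR {n m : ℕ} (β : Braid n) (b : Fin (m + 1)) (hb : b ≠ 0) :
    perm (inl n m β) (eR n m b) = eR n m b := by
  have hb' : (b : ℕ) ≠ 0 := fun h => hb (Fin.ext h)
  induction β using braid_ind with
  | h1 => simp
  | hσ i =>
    apply Fin.ext
    simp only [inl_σ, perm_σ, swap_val, eR, Fin.val_castAdd]
    split_ifs <;> omega
  | hσ' i =>
    apply Fin.ext
    simp only [map_inv, inl_σ, perm_σ, Equiv.swap_inv, swap_val, eR, Fin.val_castAdd]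
    split_ifs <;> omega
  | hm x y hx hy => simp only [map_mul, Equiv.Perm.mul_apply, hx, hy]

theorem perm_inr_eR {n m : ℕ} (β : Braid m) (b : Fin (m + 1)) :
    perm (inr n m β) (eR n m b) = eR n m (perm β b) := by
  induction β using braid_ind generalizing b with
  | h1 => simp
  | hσ i =>
    apply Fin.ext
    simp only [inr_σ, perm_σ, swap_val, eR, Fin.val_natAdd]
    split_ifs <;> omega
  | hσ' i =>
    apply Fin.ext
    simp only [map_inv, inr_σ, perm_σ, Equiv.swap_inv, swap_val, eR, Fin.val_natAdd]
    split_ifs <;> omega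
  | hm x y hx hy => simp only [map_mul, Equiv.Perm.mul_apply, hx, hy]

theorem perm_inr_eL {n m : ℕ} (β : Braid m) (a : Fin (n + 1)) (ha : a ≠ Fin.last n) :
    perm (inr n m β) (eL n m a) = eL n m a := by
  have ha' : (a : ℕ) ≠ n := fun h => ha (Fin.ext h)
  have ha2 : (a : ℕ) < n + 1 := a.2
  induction β using braid_ind with
  | h1 => simp
  | hσ i =>
    apply Fin.ext
    simp only [inr_σ, perm_σ, swap_val, eL, Fin.val_natAdd]
    split_ifs <;> omega
  | hσ' i =>
    apply Fin.ext
    simp only [map_inv, inr_σ, perm_σ, Equiv.swap_inv, swap_val, eL, Fin.val_natAdd]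
    split_ifs <;> omega
  | hm x y hx hy => simp only [map_mul, Equiv.Perm.mul_apply, hx, hy]

theorem eL_last (n m : ℕ) : eL n m (Fin.last n) = eR n m 0 := by
  apply Fin.ext; simp [eL, eR]

/-- If some positive power of `f` moves `a` to `b`, and along the way (before reaching `b`) the map
`g` behaves like `f` under the embedding `e`, then `e a` and `e b` are in the same cycle of `g`. -/
theorem sameCycle_of_embedding {α β : Type*} [Finite α] (f : Equiv.Perm α) (g : Equiv.Perm β)
    (e : α → β) (b : α) (h : ∀ a, a ≠ b → g (e a) = e (f a)) (a : α) (hab : f.SameCycle a b) :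
    g.SameCycle (e a) (e b) := by
  obtain ⟨k, hk⟩ := hab.exists_nat_pow_eq
  induction k generalizing a with
  | zero =>
    simp only [pow_zero, Equiv.Perm.coe_one, id_eq] at hk
    rw [hk]
  | succ k ih =>
    by_cases hab' : a = b
    · rw [hab']
    · have h1 : (f ^ k) (f a) = b := by
        rw [← hk, pow_succ, Equiv.Perm.mul_apply]
      have h2 := ih (f a) (Equiv.Perm.sameCycle_apply_left.mpr hab) h1
      rw [← h a hab', Equiv.Perm.sameCycle_apply_left] at h2
      exact h2

theorem IsKnot.sum {n m : ℕ} {β : Braid n} {γ : Braid m} (hβ : IsKnot β) (hγ : IsKnot γ) :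
    IsKnot (inl n m β * inr n m γ) := by
  set g := perm (inl n m β * inr n m γ) with hg
  have hL : ∀ a : Fin (n + 1), a ≠ Fin.last n → g (eL n m a) = eL n m (perm β a) := by
    intro a ha
    rw [hg, map_mul, Equiv.Perm.mul_apply, perm_inr_eL γ a ha, perm_inl_eL]
  have h1 : ∀ a : Fin (n + 1), g.SameCycle (eL n m a) (eL n m (Fin.last n)) := fun a =>
    sameCycle_of_embedding (perm β) g (eL n m) (Fin.last n) hL a (hβ _ _)
  have hR : ∀ b : Fin (m + 1), perm γ b ≠ 0 → g (eR n m b) = eR n m (perm γ b) := by
    intro b hb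
    rw [hg, map_mul, Equiv.Perm.mul_apply, perm_inr_eR, perm_inl_eR β _ hb]
  have h2 : ∀ b : Fin (m + 1), g.SameCycle (eR n m b) (eR n m 0) := by
    intro b
    obtain ⟨k, hk⟩ := (hγ b 0).exists_nat_pow_eq
    induction k generalizing b with
    | zero =>
      simp only [pow_zero, Equiv.Perm.coe_one, id_eq] at hk
      rw [hk]
    | succ k ih =>
      have hk' : (perm γ ^ k) (perm γ b) = 0 := by
        rw [← hk, pow_succ, Equiv.Perm.mul_apply]
      have h3 := ih (perm γ b) hk'
      by_cases hb : perm γ b = 0
      · have h4 : g (eR n m b) = eL n m (perm β (Fin.last n)) := by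
          rw [hg, map_mul, Equiv.Perm.mul_apply, perm_inr_eR, hb, ← eL_last, perm_inl_eL]
        rw [← Equiv.Perm.sameCycle_apply_left, h4, ← eL_last]
        exact h1 _
      · rw [← hR b hb, Equiv.Perm.sameCycle_apply_left] at h3
        exact h3
  have h3 : ∀ x : Fin (n + m + 1), g.SameCycle x (eR n m 0) := by
    intro x
    by_cases hx : (x : ℕ) < n + 1
    · have : x = eL n m ⟨x, hx⟩ := Fin.ext rfl
      rw [this, ← eL_last]
      exact h1 _
    · have : x = eR n m ⟨x - n, by omega⟩ := by
        apply Fin.ext
        simp only [eR]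
        omega
      rw [this]
      exact h2 _
  intro a b
  exact (h3 a).trans (h3 b).symm

theorem IsKnot.conj {n : ℕ} {β : Braid n} (hβ : IsKnot β) (γ : Braid n) :
    IsKnot (γ * β * γ⁻¹) := by
  intro a b
  rw [map_mul, map_mul, map_inv, Equiv.Perm.sameCycle_conj]
  exact hβ _ _

theorem IsKnot.inv {n : ℕ} {β : Braid n} (hβ : IsKnot β) : IsKnot β⁻¹ := by
  intro a b
  rw [map_inv, Equiv.Perm.sameCycle_inv]
  exact hβ _ _

/-- A knot, presented as the closure of a braid. -/
structure Knot where
  /-- number of strands minus one -/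
  n : ℕ
  /-- the braid -/
  braid : Braid n
  /-- the closure has one component -/
  isKnot : IsKnot braid

/-- The connected sum of two knots. -/
def Knot.sum (K J : Knot) : Knot :=
  ⟨K.n + J.n, inl K.n J.n K.braid * inr K.n J.n J.braid, K.isKnot.sum J.isKnot⟩

/-- A positive band `w σ_i w⁻¹`. -/
def IsPosBand {n : ℕ} (β : Braid n) : Prop := ∃ (w : Braid n) (i : Fin n), β = w * σ i * w⁻¹

/-- A band `w σ_i w⁻¹` or `w σ_i⁻¹ w⁻¹`. -/
def IsBand {n : ℕ} (β : Braid n) : Prop := IsPosBand β ∨ IsPosBand β⁻¹

/-- Quasipositive knots: the braid can be chosen as a product of positive bands. -/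
def Knot.IsQP (K : Knot) : Prop :=
  ∃ l : List (Braid K.n), (∀ b ∈ l, IsPosBand b) ∧ K.braid = l.prod

/-- Ribbon knots: the braid on `n + 1` strands can be chosen as a product of exactly `n` bands. -/
def Knot.IsRibbon (K : Knot) : Prop :=
  ∃ l : List (Braid K.n), l.length = K.n ∧ (∀ b ∈ l, IsBand b) ∧ K.braid = l.prod

/-- `K` and `J` are related by a conjugation of braids (first Markov move). -/
def Knot.Conj (K J : Knot) : Prop :=
  ∃ (n : ℕ) (β γ : Braid n) (h : IsKnot β), K = ⟨n, β, h⟩ ∧ J = ⟨n, γ * β * γ⁻¹, h.conj γ⟩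

/-- `J` is a stabilisation of `K` (second Markov move), positive or negative. -/
def Knot.Stab (K J : Knot) : Prop :=
  ∃ (n : ℕ) (β : Braid n) (h : IsKnot β)
    (h1 : IsKnot (inl n 1 β * σ (Fin.last n))) (h2 : IsKnot (inl n 1 β * (σ (Fin.last n))⁻¹)),
    K = ⟨n, β, h⟩ ∧
      (J = ⟨n + 1, inl n 1 β * σ (Fin.last n), h1⟩ ∨
        J = ⟨n + 1, inl n 1 β * (σ (Fin.last n))⁻¹, h2⟩)

/-- The relations of the concordance group. -/
inductive Rel : FreeAbelianGroup Knot → Prop
  | conj (K J : Knot) (h : K.Conj J) : Rel (FreeAbelianGroup.of K - FreeAbelianGroup.of J)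
  | stab (K J : Knot) (h : K.Stab J) : Rel (FreeAbelianGroup.of K - FreeAbelianGroup.of J)
  | sum (K J : Knot) :
      Rel (FreeAbelianGroup.of (K.sum J) - FreeAbelianGroup.of K - FreeAbelianGroup.of J)
  | ribbon (K : Knot) (h : K.IsRibbon) : Rel (FreeAbelianGroup.of K)

/-- The smooth knot concordance group. -/
abbrev C : Type := FreeAbelianGroup Knot ⧸ AddSubgroup.closure {x | Rel x}

/-- The concordance class of a knot. -/
def Knot.cls (K : Knot) : C := QuotientAddGroup.mk (FreeAbelianGroup.of K)

/-- The subgroup generated by the classes of the quasipositive knots. -/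
def Q : AddSubgroup C := AddSubgroup.closure {x | ∃ K : Knot, K.IsQP ∧ x = K.cls}

/-- The goal: the rank of `C / Q` is infinite. -/
def RankInfinite : Prop := ¬ FiniteDimensional ℚ (ℚ ⊗[ℤ] (C ⧸ Q))

end Pool.Agent.CQ
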