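import Pool.Agent.CQ.Ideal
import Pool.Agent.CQ.KWord
import Pool.Agent.CQ.Defs

/-!
# The theories over `F₂⟦t⟧`
-/

namespace Pool.Agent.CQ

open PowerSeries

/-- The base ring `F₂⟦t⟧`. -/
abbrev O2 : Type := PowerSeries (ZMod 2)

instance : CharP O2 2 := charP_of_injective_algebraMap
  (FaithfulSMul.algebraMap_injective (ZMod 2) O2) 2

theorem irr_X : Irreducible (X : O2) := X_prime.irreducible

theorem X_pow_ne {a b : ℕ} (h : a < b) : (X : O2) ^ a ≠ X ^ b := by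
  intro h1
  have h2 := congrArg (coeff a) h1
  rw [coeff_X_pow_self, coeff_X_pow, if_neg (by omega)] at h2
  exact one_ne_zero h2

/-- The theory `r`: roots `0`, `t^(r+2)`, `t`. -/
noncomputable def pot (r : ℕ) : _root_.CQ.Pot O2 where
  l2 := X ^ (r + 2)
  l3 := X
  h2 := pow_ne_zero _ X_ne_zero
  h3 := X_ne_zero
  h23 := fun h => X_pow_ne (a := 1) (b := r + 2) (by omega) (by rw [pow_one]; exact h.symm)

theorem pot_ta (r : ℕ) : (pot r).ta = (X : O2) ^ (r + 3) := by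
  simp only [_root_.CQ.Pot.ta, pot]
  ring

theorem pot_ka (r : ℕ) : (pot r).ka = (X : O2) * (1 + X ^ (r + 1)) := by
  simp only [_root_.CQ.Pot.ka, pot]
  ring

theorem isUnit_ka (r : ℕ) : IsUnit (1 + X ^ (r + 1) : O2) := by
  rw [isUnit_iff_constantCoeff]
  simp

theorem ta_dvd_ka_pow_iff (r k : ℕ) : (pot r).ta ∣ (pot r).ka ^ k ↔ r + 3 ≤ k := by
  rw [pot_ta, pot_ka, mul_pow, IsUnit.dvd_mul_right ((isUnit_ka r).pow k),
    pow_dvd_pow_iff irr_X.ne_zero irr_X.not_isUnit]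

/-- The test knots `K_k`, `k = j + 1`: the pretzel knots `P(2k; 4k+1, -(2k+1))`. -/
def testWord (j : ℕ) : Word (j + 2) := kW (4 * (j + 1) + 1) (2 * (j + 1) + 1) j

theorem isKnot_testWord (j : ℕ) : IsKnot (toBraid (testWord j)) :=
  isKnot_kW ⟨2 * (j + 1), by ring⟩ ⟨j + 1, by ring⟩ j

/-- The reduction for the theories over `F₂⟦t⟧`: `k = j + 1`. -/
theorem rankInfinite_of_pot (I : ℕ → ∀ n : ℕ, Word n → Ideal O2)
    (hI : ∀ r, IdealInv (pot r).ta (I r))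
    (h1 : ∀ r j, (pot r).ka ^ (j + 1) ∈ I r (j + 2) (testWord j))
    (h2 : ∀ r j, (pot r).ta ∈ I r (j + 2) (testWord j))
    (h3 : ∀ r j, (pot r).ta ∣ (pot r).ka ^ (j + 1) →
      (pot r).ta ^ (j + 1) ∈ I r (j + 2) (winv (testWord j))) : RankInfinite := by
  refine rankInfinite_of_ideals (O := O2) irr_X (fun r => r + 3) (fun r => by omega)
    (fun r => (pot r).ta) (fun r => by rw [pot_ta]) I hI (fun j => j + 1) testWord
    isKnot_testWord ?_ ?_
  · intro r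
    refine ⟨r + 3, fun j hj => ⟨h2 r j, h3 r j ?_⟩⟩
    rw [ta_dvd_ka_pow_iff]
    omega
  · refine ⟨0, fun j _ => ⟨j, (pot j).ka ^ (j + 1), h1 j j, ?_⟩⟩
    rw [ta_dvd_ka_pow_iff]
    omega

end Pool.Agent.CQ
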