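import Pool.Agent.CQ.TowBase
import Pool.Agent.CQ.Homotopy
import Pool.Agent.CQ.LeftRight
import Pool.Agent.CQ.Moves

/-!
# Block H: assembly of the tower cycles
-/

set_option autoImplicit false
set_option linter.unusedSectionVars false
set_option linter.unusedSimpArgs false

namespace CQ.TA

open MvPolynomial CQ CQ.Hm

variable {O : Type} [CommRing O] [CharP O 2]

/-! ## The words -/

/-- `∏_{i=1}^{j} [(i,b), (i+1,b), (i,!b)]` -/
def tw (b : Bool) : ℕ → List (ℕ × Bool)
  | 0 => []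
  | j + 1 => tw b j ++ [(j + 1, b), (j + 2, b), (j + 1, !b)]

/-- `(0,!b)^m (1,b) (0,b)^n` -/
def bs (b : Bool) (m n : ℕ) : List (ℕ × Bool) :=
  List.replicate m (0, !b) ++ (1, b) :: List.replicate n (0, b)

theorem nw_kW (m n : ℕ) (j : ℕ) :
    Pool.Agent.CQ.nw (Pool.Agent.CQ.kW m n j) = bs false m n ++ (tw false j ++ [(j + 1, false)]) := by
  induction j with
  | zero =>
    simp [Pool.Agent.CQ.nw, Pool.Agent.CQ.kW, bs, tw]
  | succ j ih =>
    have h1 : Pool.Agent.CQ.nw (Pool.Agent.CQ.kW m n (j + 1)) =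
        Pool.Agent.CQ.nw (Pool.Agent.CQ.kW m n j) ++
          [(j + 2, false), (j + 1, true), (j + 2, false)] := by
      simp [Pool.Agent.CQ.nw, Pool.Agent.CQ.kW, Pool.Agent.CQ.wcast, Function.comp_def]
    rw [h1, ih]
    simp [tw]

theorem map_flip_tw (b : Bool) (j : ℕ) :
    (tw b j).map (fun x => (x.1, !x.2)) = tw (!b) j := by
  induction j with
  | zero => rfl
  | succ j ih => simp [tw, ih]

theorem ninv_reverse (w : List (ℕ × Bool)) :
    (Pool.Agent.CQ.ninv w).reverse = w.map (fun x => (x.1, !x.2)) := by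
  simp [Pool.Agent.CQ.ninv]

theorem flip_kW (m n : ℕ) (j : ℕ) :
    (Pool.Agent.CQ.ninv (Pool.Agent.CQ.nw (Pool.Agent.CQ.kW m n j))).reverse =
      bs true m n ++ (tw true j ++ [(j + 1, true)]) := by
  rw [ninv_reverse, nw_kW]
  simp [bs, map_flip_tw]

/-! ## Iterating the tower steps -/

theorem iterN {P : Pot O}
    (hstep : ∀ (i r : ℕ) (C : DM O) (a : O), TCycN P i (r + 1) C a →
      TCycN P (i + 1) r (Fw [(i, false), (i + 1, false), (i, true)] C) a)
    (j : ℕ) (C : DM O) (a : O) (h : TCycN P 1 j C a) (t : ℕ) (ht : t ≤ j) :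
    TCycN P (t + 1) (j - t) (Fw (tw false t) C) a := by
  induction t with
  | zero => exact h
  | succ t ih =>
    have h1 := ih (by omega)
    obtain ⟨r, hr⟩ : ∃ r, j - t = r + 1 := ⟨j - t - 1, by omega⟩
    rw [hr] at h1
    have h2 := hstep _ _ _ _ h1
    have h3 : j - (t + 1) = r := by omega
    rw [h3, tw, Fw_append]
    exact h2

theorem iterP {P : Pot O}
    (hstep : ∀ (i r : ℕ) (C : DM O) (a : O), TCycP P i (r + 1) C a →
      TCycP P (i + 1) r (Fw [(i, true), (i + 1, true), (i, false)] C) (P.ta * a))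
    (j : ℕ) (C : DM O) (a : O) (h : TCycP P 1 j C a) (t : ℕ) (ht : t ≤ j) :
    TCycP P (t + 1) (j - t) (Fw (tw true t) C) (P.ta ^ t * a) := by
  induction t with
  | zero => rw [pow_zero, one_mul]; exact h
  | succ t ih =>
    have h1 := ih (by omega)
    obtain ⟨r, hr⟩ : ∃ r, j - t = r + 1 := ⟨j - t - 1, by omega⟩
    rw [hr] at h1
    have h2 := hstep _ _ _ _ h1
    have h3 : j - (t + 1) = r := by omega
    rw [h3, tw, Fw_append, pow_succ', mul_assoc]
    exact h2

/-- the second half of the E-property, in the form of `E_N0`, for the base strand `0` -/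
def EN0 (P : Pot O) : Prop :=
  ∀ (s : ℕ) (w : List (ℕ × Bool)), Valid s w → 0 < s → ∀ z ∈ HH O (Fw w (R0 O s)).V,
    z ∈ N0 P (Fw w (R0 O s)).V →
    ∃ u ∈ HH O (Fw w (R0 O s)).V, z + xv O 0 • u ∈ NN P (Fw w (R0 O s)).V

/-- cycles up to `N0` give elements of the value ideal -/
theorem mem_IdW_of_cyc0 {P : Pot O} (hE : EN0 P) (s : ℕ) (w : List (ℕ × Bool))
    (hw : Valid s w) (hs : 0 < s) {a : O} (h : Cyc0 P (Fw w (R0 O s)) a) : a ∈ IdW P s w 0 := by
  obtain ⟨z, hz, hd, rfl⟩ := h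
  obtain ⟨u, hu, hn⟩ := hE s w hw hs ((Fw w (R0 O s)).d z) (map_mem_HH _ hz) hd
  exact ⟨z, hz, u, hu, hn, rfl⟩

/-- a column inside a word -/
theorem chain_word (b : Bool) (m n : ℕ) (v : List (ℕ × Bool)) (C : DM O) {A1 : DM O → DM O}
    {A2 : DM O → DM O}
    (h1 : Nonempty (SChain (A1 C) (Fw (List.replicate m (0, !b)) C)))
    (h2 : ∀ D : DM O, Nonempty (SChain (A2 D) (Fw (List.replicate n (0, b)) D))) :
    Nonempty (SChain (Fw v (A2 (F2 true 1 b (A1 C)))) (Fw (bs b m n ++ v) C)) := by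
  obtain ⟨f⟩ := h1
  obtain ⟨g⟩ := h2 (F2 true 1 b (A1 C))
  have e : Fw (bs b m n ++ v) C =
      Fw v (Fw (List.replicate n (0, b)) (F2 true 1 b (Fw (List.replicate m (0, !b)) C))) := by
    rw [Fw_append, bs, Fw_append]
    rfl
  rw [e]
  exact ⟨(g.trans ((f.F2 true 1 b).Fw (List.replicate n (0, b)))).Fw v⟩

theorem valid_tw (b : Bool) (s j : ℕ) (h : j + 2 < s) : Valid s (tw b j) := by
  induction j with
  | zero => intro a ha; simp [tw] at ha
  | succ j ih =>
    intro a ha
    rw [tw, List.mem_append] at ha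
    rcases ha with ha | ha
    · exact ih (by omega) a ha
    · simp only [List.mem_cons, List.not_mem_nil, or_false] at ha
      rcases ha with rfl | rfl | rfl <;> simp only <;> omega

theorem valid_bs (b : Bool) (s m n : ℕ) (h : 2 < s) : Valid s (bs b m n) := by
  intro a ha
  rw [bs, List.mem_append, List.mem_cons] at ha
  rcases ha with ha | rfl | ha
  · rw [List.eq_of_mem_replicate ha]; simp only; omega
  · simp only; omega
  · rw [List.eq_of_mem_replicate ha]; simp only; omega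

theorem valid_all (b : Bool) (m n j : ℕ) :
    Valid (j + 3) (bs b m n ++ (tw b j ++ [(j + 1, b)])) := by
  intro a ha
  rw [List.mem_append, List.mem_append, List.mem_singleton] at ha
  rcases ha with ha | ha | rfl
  · exact valid_bs b _ m n (by omega) a ha
  · rcases Nat.eq_zero_or_pos j with rfl | hj
    · simp [tw] at ha
    · have := valid_tw b (j + 3) j (by omega) a ha
      exact this
  · simp only; omega

/-- H1: the value `κ^(j+1)` -/
theorem cyc_neg {P : Pot O} (hE : EN0 P)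
    (hstep : ∀ (i r : ℕ) (C : DM O) (a : O), TCycN P i (r + 1) C a →
      TCycN P (i + 1) r (Fw [(i, false), (i + 1, false), (i, true)] C) a)
    (hP : ∀ (n : ℕ) (C : DM O),
      Nonempty (SChain (ColP 0 n C) (Fw (List.replicate n (0, true)) C)))
    (hM : ∀ (n : ℕ) (C : DM O),
      Nonempty (SChain (ColM 0 n C) (Fw (List.replicate n (0, false)) C)))
    (m n j : ℕ) (a : O)
    (hinit : TCycN P 1 j (ColM 0 n (F2 true 1 false (ColP 0 m (R0 O (j + 3))))) a) :
    a ∈ IdW P (j + 3) (bs false m n ++ (tw false j ++ [(j + 1, false)])) 0 := by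
  refine mem_IdW_of_cyc0 hE (j + 3) _ (valid_all false m n j) (by omega) ?_
  have h1 := iterN hstep j _ a hinit j le_rfl
  rw [Nat.sub_self] at h1
  have h2 := h1.cyc0
  obtain ⟨g⟩ := chain_word false m n (tw false j ++ [(j + 1, false)]) (R0 O (j + 3))
    (A1 := ColP 0 m) (A2 := ColM 0 n) (hP m _) (fun D => hM n D)
  refine g.cyc0 ?_
  rw [Fw_append]
  exact h2

/-- H3: the value `τ^(j+1)` of the mirror image -/
theorem cyc_pos {P : Pot O} (hE : EN0 P)
    (hstep : ∀ (i r : ℕ) (C : DM O) (a : O), TCycP P i (r + 1) C a →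
      TCycP P (i + 1) r (Fw [(i, true), (i + 1, true), (i, false)] C) (P.ta * a))
    (hP : ∀ (n : ℕ) (C : DM O),
      Nonempty (SChain (ColP 0 n C) (Fw (List.replicate n (0, true)) C)))
    (hM : ∀ (n : ℕ) (C : DM O),
      Nonempty (SChain (ColM 0 n C) (Fw (List.replicate n (0, false)) C)))
    (m n j : ℕ)
    (hinit : TCycP P 1 j (ColP 0 n (F2 true 1 true (ColM 0 m (R0 O (j + 3))))) P.ta) :
    P.ta ^ (j + 1) ∈ IdW P (j + 3) (bs true m n ++ (tw true j ++ [(j + 1, true)])) 0 := by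
  refine mem_IdW_of_cyc0 hE (j + 3) _ (valid_all true m n j) (by omega) ?_
  have h1 := iterP hstep j _ _ hinit j le_rfl
  rw [Nat.sub_self] at h1
  have h2 := h1.cyc0
  obtain ⟨g⟩ := chain_word true m n (tw true j ++ [(j + 1, true)]) (R0 O (j + 3))
    (A1 := ColM 0 m) (A2 := ColP 0 n) (hM m _) (fun D => hP n D)
  refine g.cyc0 ?_
  rw [Fw_append, pow_succ]
  exact h2

/-! ## H2: the value `τ` -/

theorem base_good2 (P : Pot O) (s : ℕ) :
    Good P 2 0 (R0 O s) (P.q (xv O 1 : S O) • (1 : RS O s)) := by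
  refine ⟨G.mem_HH_RS s _, ⟨0, zero_mem _, ?_⟩, ?_⟩
  · change (0 : RS O s) + xv O 0 • (0 : RS O s) ∈ NN P (RS O s)
    rw [smul_zero, add_zero]; exact zero_mem _
  · intro i hi
    obtain rfl : i = 0 := by omega
    have h1 : (1 : RS O s) ∈ HH O (RS O s) := G.mem_HH_RS s _
    have hz1 : zip O true 0 (1 : RS O s) ∈ HH O (D2 true 0 (RS O s)) := map_mem_HH _ h1
    change ∃ u ∈ HH O (D2 true 0 (RS O s)), zip O true 0 (P.q (xv O 1 : S O) • (1 : RS O s)) +
      xv O 0 • u ∈ NN P (D2 true 0 (RS O s))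
    rw [map_smul]
    refine ⟨(xv O 0 + xv O 1 + MvPolynomial.C P.ka) • zip O true 0 (1 : RS O s),
      Submodule.smul_mem _ _ hz1, ?_⟩
    have e : P.q (xv O 1 : S O) • zip O true 0 (1 : RS O s) +
        xv O 0 • (xv O 0 + xv O 1 + MvPolynomial.C P.ka) • zip O true 0 (1 : RS O s) =
        P.h (xv O 0 : S O) (xv O 1) • zip O true 0 (1 : RS O s) := by
      rw [h_eq_q P (xv O 0) (xv O 1), ← mul_smul, ← add_smul]
      have hr : ∀ h x m : S O, (h + x * m) + x * m = h := by
        intro h x m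
        linear_combination (x * m) * two0 (S O)
      rw [hr]
    rw [e]
    have h3 := hS_smul_HH P 0 hz1
    rw [zero_add] at h3
    rw [h3]
    exact negMap_h_zip P true 0 (RS O s) 1 h1

theorem tau_mem_col (P : Pot O) (s m : ℕ) :
    P.ta ∈ IdW P s (List.replicate m (0, true)) 0 := by
  have hv : Valid 2 (List.replicate m ((0 : ℕ), true)) := by
    intro a ha
    rw [List.eq_of_mem_replicate ha]
    simp only; omega
  have hg := iota_good (P := P) _ hv (base_good2 P s)
  obtain ⟨u, hu, h⟩ := hg.dz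
  refine ⟨_, hg.mem, u, hu, h, ?_⟩
  refine (iota_ep _ (C := R0 O s) _).trans ?_
  refine (map_smulₛₗ (R0 O s).ep (P.q (xv O 1 : S O)) (1 : RS O s)).trans ?_
  have h1 : MvPolynomial.eval (0 : Fin s → O) (1 : MvPolynomial (Fin s) O) = 1 := map_one _
  refine (congrArg (fun x => ev (0 : ℕ → O) (P.q (xv O 1 : S O)) • x) h1).trans ?_
  rw [smul_eq_mul, mul_one]
  unfold Pot.q
  rw [MvPolynomial.algebraMap_eq]
  simp only [_root_.map_mul, _root_.map_add, map_pow, ev_inl, ev_C]
  simp

theorem ins_neg_list (P : Pot O) (s : ℕ) (u v : List (ℕ × Bool)) (n i : ℕ) (x : O)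
    (hx : x ∈ IdW P s (u ++ v) 0) : x ∈ IdW P s (u ++ (List.replicate n (i, false) ++ v)) 0 := by
  induction n with
  | zero => exact hx
  | succ n ih =>
    rw [List.replicate_succ, List.cons_append]
    exact IdW_ins_neg P s u _ i 0 x ih

theorem tau_mem_tw (P : Pot O) (s : ℕ) (u : List (ℕ × Bool)) (j : ℕ) (x : O)
    (hx : x ∈ IdW P s u 0) : x ∈ IdW P s (u ++ tw false j) 0 := by
  induction j with
  | zero => rw [tw, List.append_nil]; exact hx
  | succ j ih =>
    rw [tw, ← List.append_assoc]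
    set W := u ++ tw false j
    have h1 : x ∈ IdW P s (W ++ (j + 1, false) :: (j + 1, !false) :: []) 0 := by
      rw [IdW_R2, List.append_nil]; exact ih
    have h2 : W ++ (j + 1, false) :: (j + 1, !false) :: [] =
        (W ++ [(j + 1, false)]) ++ [(j + 1, true)] := by simp
    rw [h2] at h1
    have h3 := IdW_ins_neg P s (W ++ [(j + 1, false)]) [(j + 1, true)] (j + 2) 0 x h1
    have h4 : W ++ [(j + 1, false), (j + 2, false), (j + 1, !false)] =
        (W ++ [(j + 1, false)]) ++ (j + 2, false) :: [(j + 1, true)] := by simp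
    rw [h4]
    exact h3

/-- H2 -/
theorem tau_mem (P : Pot O) (s m n j : ℕ) :
    P.ta ∈ IdW P s (bs false m n ++ (tw false j ++ [(j + 1, false)])) 0 := by
  have h0 := tau_mem_col P s m
  have h1 : P.ta ∈ IdW P s (List.replicate m (0, true) ++ (1, false) :: []) 0 :=
    IdW_ins_neg P s _ [] 1 0 _ (by rw [List.append_nil]; exact h0)
  have h2 : P.ta ∈ IdW P s (bs false m n) 0 := by
    have h3 := ins_neg_list P s (List.replicate m (0, true) ++ [(1, false)]) [] n 0 P.ta
      (by rw [List.append_nil]; exact h1)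
    rw [List.append_nil] at h3
    have e : bs false m n = (List.replicate m ((0 : ℕ), true) ++ [(1, false)]) ++
        List.replicate n (0, false) := by simp [bs]
    rw [e]; exact h3
  have h4 := tau_mem_tw P s _ j _ h2
  have h5 := IdW_ins_neg P s (bs false m n ++ tw false j) [] (j + 1) 0 _
    (by rw [List.append_nil]; exact h4)
  rw [List.append_assoc] at h5
  exact h5

/-! ## The test words -/

open Pool.Agent.CQ (nw ninv kW valid_nw)

/-- the word of the pretzel knot -/
theorem kW_tau (P : Pot O) (m n j : ℕ) : P.ta ∈ IdW P (j + 3) (nw (kW m n j)) 0 := by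
  rw [nw_kW]
  exact tau_mem P (j + 3) m n j

theorem kW_neg {P : Pot O} (hE : EN0 P)
    (hstep : ∀ (i r : ℕ) (C : DM O) (a : O), TCycN P i (r + 1) C a →
      TCycN P (i + 1) r (Fw [(i, false), (i + 1, false), (i, true)] C) a)
    (hP : ∀ (n : ℕ) (C : DM O),
      Nonempty (SChain (ColP 0 n C) (Fw (List.replicate n (0, true)) C)))
    (hM : ∀ (n : ℕ) (C : DM O),
      Nonempty (SChain (ColM 0 n C) (Fw (List.replicate n (0, false)) C)))
    (m n j : ℕ) (a : O)
    (hinit : TCycN P 1 j (ColM 0 n (F2 true 1 false (ColP 0 m (R0 O (j + 3))))) a) :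
    a ∈ IdW P (j + 3) (nw (kW m n j)) 0 := by
  rw [nw_kW]
  exact cyc_neg hE hstep hP hM m n j a hinit

theorem kW_pos {P : Pot O} (hE : EN0 P)
    (hstep : ∀ (i r : ℕ) (C : DM O) (a : O), TCycP P i (r + 1) C a →
      TCycP P (i + 1) r (Fw [(i, true), (i + 1, true), (i, false)] C) (P.ta * a))
    (hP : ∀ (n : ℕ) (C : DM O),
      Nonempty (SChain (ColP 0 n C) (Fw (List.replicate n (0, true)) C)))
    (hM : ∀ (n : ℕ) (C : DM O),
      Nonempty (SChain (ColM 0 n C) (Fw (List.replicate n (0, false)) C)))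
    (m n j : ℕ)
    (hinit : TCycP P 1 j (ColP 0 n (F2 true 1 true (ColM 0 m (R0 O (j + 3))))) P.ta) :
    P.ta ^ (j + 1) ∈ IdW P (j + 3) (ninv (nw (kW m n j))) 0 := by
  have h1 := cyc_pos hE hstep hP hM m n j hinit
  rw [← flip_kW m n j, IdW_reverse P (j + 3) _ (G.valid_ninv (valid_nw _))] at h1
  exact h1

end CQ.TA
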