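import Pool.Agent.CQ.TowAsm
import Pool.Agent.CQ.ColFw
import Pool.Agent.CQ.WIsoP
import Pool.Agent.CQ.Blocks
import Pool.Agent.CQ.KSum
import Pool.Agent.CQ.InitNI
import Pool.Agent.CQ.InitP
import Pool.Agent.CQ.StepP
import Pool.Agent.CQ.StepN

/-!
# Block H: the three tower values of the test words, for the final assembly
-/

set_option autoImplicit false

namespace CQ.TA

open CQ CQ.Hm

variable {O : Type} [CommRing O] [CharP O 2]

/-- the E-property for the base strand, unconditional -/
theorem eN0_all [IsDomain O] (P : Pot O) : EN0 P := fun s w hw hs z hz hn =>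
  eN0 P s w hw 0 hs z hz (mem_N0.1 hn)

/-- the statement of the negative tower step -/
def StepNeg (P : Pot O) : Prop :=
  ∀ (i r : ℕ) (C : DM O) (a : O), TCycN P i (r + 1) C a →
    TCycN P (i + 1) r (Fw [(i, false), (i + 1, false), (i, true)] C) a

/-- the statement of the positive tower step -/
def StepPos (P : Pot O) : Prop :=
  ∀ (i r : ℕ) (C : DM O) (a : O), TCycP P i (r + 1) C a →
    TCycP P (i + 1) r (Fw [(i, true), (i + 1, true), (i, false)] C) (P.ta * a)

/-- the initial tower cycle of the test words, negative case -/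
def InitNeg (P : Pot O) : Prop :=
  ∀ j : ℕ, TCycN P 1 j (ColM 0 (2 * (j + 1) + 1)
    (F2 true 1 false (ColP 0 (4 * (j + 1) + 1) (R0 O (j + 3))))) (P.ka ^ (j + 1))

/-- the initial tower cycle of the test words, positive case -/
def InitPos (P : Pot O) : Prop :=
  ∀ j : ℕ, P.ta ∣ P.ka ^ (j + 1) → TCycP P 1 j (ColP 0 (2 * (j + 1) + 1)
    (F2 true 1 true (ColM 0 (4 * (j + 1) + 1) (R0 O (j + 3))))) P.ta

end CQ.TA

namespace Pool.Agent.CQ

open _root_.CQ (Pot IdW)
open _root_.CQ.TA

/-- first tower value -/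
theorem tow1 (P : Pot O2) (hS : StepNeg P) (hI : InitNeg P) (j : ℕ) :
    P.ka ^ (j + 1) ∈ IdW P (j + 3) (nw (testWord j)) 0 :=
  kW_neg (eN0_all P) hS (_root_.CQ.colP_Fw 0) (_root_.CQ.colM_Fw 0) _ _ j _ (hI j)

/-- second tower value -/
theorem tow2 (P : Pot O2) (j : ℕ) : P.ta ∈ IdW P (j + 3) (nw (testWord j)) 0 :=
  kW_tau P _ _ j

/-- third tower value -/
theorem tow3 (P : Pot O2) (hS : StepPos P) (hI : InitPos P) (j : ℕ)
    (hd : P.ta ∣ P.ka ^ (j + 1)) :
    P.ta ^ (j + 1) ∈ IdW P (j + 3) (ninv (nw (testWord j))) 0 :=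
  kW_pos (eN0_all P) hS (_root_.CQ.colP_Fw 0) (_root_.CQ.colM_Fw 0) _ _ j (hI j hd)

/-- the final theorem from the four tower statements and the sum formula -/
theorem rankInfinite_of_towers
    (hsum : ∀ (P : Pot O2) (a b : ℕ) (w w' : List (ℕ × Bool)), _root_.CQ.Valid (a + 1) w →
      _root_.CQ.Valid (b + 1) w' →
      IdW P (a + b + 1) (w ++ sh a w') a = IdW P (a + 1) w a * IdW P (b + 1) w' 0)
    (hSN : ∀ P : Pot O2, StepNeg P) (hSP : ∀ P : Pot O2, StepPos P)
    (hIN : ∀ P : Pot O2, InitNeg P) (hIP : ∀ P : Pot O2, InitPos P) : RankInfinite :=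
  rankInfinite_of_blocks (fun r => blockOut_of (pot r) _root_.CQ.wIso (hsum (pot r)))
    (fun r j => tow1 (pot r) (hSN _) (hIN _) j) (fun r j => tow2 (pot r) j)
    (fun r j hd => tow3 (pot r) (hSP _) (hIP _) j hd)

/-- the final theorem from the negative tower step -/
theorem rankInfinite_of_stepNeg (hSN : ∀ P : Pot O2, StepNeg P) : RankInfinite :=
  rankInfinite_of_blocks (fun r => _root_.CQ.K.blockOut (pot r))
    (fun r j => tow1 (pot r) (hSN _) (fun j => _root_.CQ.INI.initNeg (pot r) j) j)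
    (fun r j => tow2 (pot r) j)
    (fun r j hd => tow3 (pot r) (fun _ _ _ _ h => h.step)
      (fun j h => _root_.CQ.IP.initPos (pot r) j h) j hd)

/-- The quotient of the knot concordance group by the subgroup of the paper has infinite rank. -/
theorem rankInfinite : RankInfinite :=
  rankInfinite_of_stepNeg fun _ _ _ _ _ h => h.step

end Pool.Agent.CQ
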