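import Pool.Agent.CQ.WRet
import Pool.Agent.CQ.Markov3
import Pool.Agent.CQ.Moves4
import Pool.Agent.CQ.Word0
import Pool.Agent.CQ.LeftRight

/-!
# Block D: the word induction
-/

set_option autoImplicit false
set_option linter.unusedSectionVars false
set_option linter.unusedSimpArgs false

namespace CQ

open MvPolynomial

variable {O : Type} [CommRing O] [CharP O 2]

/-! ## Unused variables -/

theorem X_smul_D2_eq_zero {t : Bool} {i : ℕ} {C : Type} [AddCommGroup C] [Module (S O) C]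
    (s : ℕ ⊕ ℕ) (h : s ≠ inj t i) (h' : s ≠ inj t (i + 1))
    (hz : ∀ v : C, (X s : S O) • v = 0) (z : D2 t i C) : (X s : S O) • z = 0 := by
  ext
  · rw [D2.X_smul_a_of_ne s h h', hz]; rfl
  · rw [D2.X_smul_b_of_ne s h h', hz]; rfl

theorem NoVar_D2 {t : Bool} {i m : ℕ} {C : Type} [AddCommGroup C] [Module (S O) C]
    (h : m ≠ i) (h' : m ≠ i + 1) (hz : Mk.NoVar O m C) : Mk.NoVar O m (D2 t i C) := by
  intro z
  have k1 : ∀ s : ℕ ⊕ ℕ, (s = Sum.inl m ∨ s = Sum.inr m) → s ≠ inj t i ∧ s ≠ inj t (i + 1) := by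
    rintro s (rfl | rfl) <;> cases t <;> simp [inj, h, h']
  exact ⟨X_smul_D2_eq_zero _ (k1 _ (Or.inl rfl)).1 (k1 _ (Or.inl rfl)).2 (fun v => (hz v).1) z,
    X_smul_D2_eq_zero _ (k1 _ (Or.inr rfl)).1 (k1 _ (Or.inr rfl)).2 (fun v => (hz v).2) z⟩

theorem NoVar_Bw {t : Bool} {m : ℕ} (w : List ℕ) (C : SM O) (hw : ∀ a ∈ w, a + 1 < m)
    (hz : Mk.NoVar O m C.V) : Mk.NoVar O m (Bw t w C).V := by
  induction w generalizing C with
  | nil => exact hz
  | cons i w ih =>
    have h1 := hw i List.mem_cons_self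
    exact ih (SM.D2 t i C) (fun a ha => hw a (List.mem_cons_of_mem _ ha))
      (NoVar_D2 (by omega) (by omega) hz)

theorem NoVar_R (m : ℕ) : Mk.NoVar O m (SM.R O m).V := by
  intro (f : RS O m)
  constructor
  · change rho O m (X (Sum.inl m)) * f = 0
    have : rho O m (X (Sum.inl m)) = 0 := by simp [rho]
    rw [this, zero_mul]
  · change rho O m (X (Sum.inr m)) * f = 0
    have : rho O m (X (Sum.inr m)) = 0 := by simp [rho]
    rw [this, zero_mul]

/-! ## The closure properties -/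

/-- closure properties of a property of pairs which are needed for the word induction -/
structure Pack (Q0 : SM O → Prop) (Q : OM O → Prop) : Prop extends Rotat Q where
  prod : ∀ (s : S O) (A B : SM O), Q (OM.sc s A) → Q (OM.sc s B) → Q (OM.sc s (SM.prod A B))
  q0 : ∀ p : OM O, Q p → Q0 p.C
  q00 : Q0 (SM.R O 0)
  x2y : ∀ (k : ℕ) (C : SM O), Q (OM.sc (xv O k) C) → Q (OM.sc (yv O k) C)
  y2x : ∀ (k : ℕ) (C : SM O), Q (OM.sc (yv O k) C) → Q (OM.sc (xv O k) C)
  px : ∀ (m : ℕ) (p : OM O), Mk.NoVar O m p.C.V → Q p → Q ⟨SM.PX m p.C, PX.map (m := m) p.f⟩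
  pxX : ∀ (m : ℕ) (C : SM O), Mk.NoVar O m C.V → Q0 C → Q (OM.sc (yv O m) (SM.PX m C))
  top : ∀ (m : ℕ) (p : OM O), Mk.NoVar O (m + 1) p.C.V → Q p →
    Q (OM.D2 true m ⟨SM.PX (m + 1) p.C, PX.map (m := m + 1) p.f⟩)
  topX : ∀ (m : ℕ) (C : SM O), Mk.NoVar O (m + 1) C.V → Q (OM.sc (yv O m) C) →
    Q (OM.D2 true m (OM.sc (yv O (m + 1)) (SM.PX (m + 1) C)))

/-- the isomorphisms between words over `C[X_m]` and polynomials over words -/
structure WIso (O : Type) [CommRing O] [CharP O 2] : Prop where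
  rs : ∀ m : ℕ, ∃ (i : (SM.R O (m + 1)).V →ₗ[S O] (SM.PX m (SM.R O m)).V)
    (r : (SM.PX m (SM.R O m)).V →ₗ[S O] (SM.R O (m + 1)).V), ∀ z, r (i z) = z
  bw : ∀ (t : Bool) (m : ℕ) (w : List ℕ) (_ : ∀ a ∈ w, a + 1 < m) (C : SM O),
    ∃ (i : (Bw t w (SM.PX m C)).V →ₗ[S O] (SM.PX m (Bw t w C)).V)
      (r : (SM.PX m (Bw t w C)).V →ₗ[S O] (Bw t w (SM.PX m C)).V),
      (∀ z, r (i z) = z) ∧ ∀ g : C.V →ₗ[S O] C.V,
        (∀ z, PX.map (m := m) (Bw.map t w g) (i z) =
          i (Bw.map t w (C := SM.PX m C) (D := SM.PX m C) (PX.map (m := m) g) z)) ∧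
        ∀ z, r (PX.map (m := m) (Bw.map t w g) z) =
          Bw.map t w (C := SM.PX m C) (D := SM.PX m C) (PX.map (m := m) g) (r z)

/-- the pair of polynomials over a pair -/
noncomputable def OM.PX (m : ℕ) (p : OM O) : OM O := ⟨SM.PX m p.C, CQ.PX.map (m := m) p.f⟩

theorem WIso.ret (hI : WIso O) (t : Bool) (m : ℕ) (w : List ℕ) (hw : ∀ a ∈ w, a + 1 < m)
    (p : OM O) : Ret ((p.PX m).Bw t w) ((p.Bw t w).PX m) := by
  obtain ⟨i, r, h1, h2⟩ := hI.bw t m w hw p.C
  exact ⟨i, r, h1, (h2 p.f).1, (h2 p.f).2⟩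

/-- words without the last strand -/
theorem WIso.word (hI : WIso O) (m : ℕ) (w : List ℕ) (hw : ∀ a ∈ w, a + 1 < m) :
    ∃ (i : (Bw true w (SM.R O (m + 1))).V →ₗ[S O] (SM.PX m (Bw true w (SM.R O m))).V)
      (r : (SM.PX m (Bw true w (SM.R O m))).V →ₗ[S O] (Bw true w (SM.R O (m + 1))).V),
      ∀ z, r (i z) = z := by
  obtain ⟨i, r, h1⟩ := hI.rs m
  obtain ⟨i', r', h1', _⟩ := hI.bw true m w hw (SM.R O m)
  have e : Bw.map true w r ∘ₗ Bw.map true w i = LinearMap.id := by
    rw [← Bw.map_comp true w (C := SM.R O (m + 1)) (D := SM.PX m (SM.R O m))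
      (E := SM.R O (m + 1))]
    have : r ∘ₗ i = LinearMap.id := LinearMap.ext h1
    rw [this, Bw.map_id]
  refine ⟨i' ∘ₗ Bw.map true w i, Bw.map true w r ∘ₗ r', fun z => ?_⟩
  change Bw.map true w r (r' (i' (Bw.map true w i z))) = z
  rw [h1']
  exact LinearMap.congr_fun e z

/-- scalars of the other strands are coefficientwise on polynomials -/
theorem OM.sc_PX (m : ℕ) (s : ℕ ⊕ ℕ) (h : s ≠ Sum.inl m) (h' : s ≠ Sum.inr m) (C : SM O) :
    (OM.sc (X s : S O) C).PX m = OM.sc (X s) (SM.PX m C) := by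
  have e : CQ.PX.map (m := m) ((X s : S O) • (LinearMap.id : C.V →ₗ[S O] C.V)) =
      (X s : S O) • (LinearMap.id : CQ.PX O m C.V →ₗ[S O] CQ.PX O m C.V) := by
    apply LinearMap.ext
    intro f
    apply PX.ext'
    intro n
    rw [PX.co_map]
    exact (PX.co_X_smul_of_ne s h h' f n).symm
  exact congrArg (fun f => (⟨SM.PX m C, f⟩ : OM O)) e

theorem OM.sc_PX_X (m : ℕ) (C : SM O) :
    OM.sc (xv O m) (SM.PX m C) = OM.sc (yv O m) (SM.PX m C) := by
  have e : xv O m • (LinearMap.id : CQ.PX O m C.V →ₗ[S O] CQ.PX O m C.V) =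
      yv O m • (LinearMap.id : CQ.PX O m C.V →ₗ[S O] CQ.PX O m C.V) := by
    apply LinearMap.ext
    intro f
    exact PX.x_smul_eq f
  exact congrArg (fun f => (⟨SM.PX m C, f⟩ : OM O)) e

namespace Pack

variable {Q0 : SM O → Prop} {Q : OM O → Prop}

/-- a word without the last strand -/
theorem step0 (hQ : Pack Q0 Q) (hI : WIso O) (m : ℕ) (w : List ℕ) (hw : ∀ a ∈ w, a + 1 < m)
    (hC : Q0 (Bw true w (SM.R O m)))
    (h : ∀ k < m, Q (OM.sc (xv O k) (Bw true w (SM.R O m)))) (k : ℕ) (hk : k < m + 1) :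
    Q (OM.sc (xv O k) (Bw true w (SM.R O (m + 1)))) := by
  obtain ⟨i, r, h1⟩ := hI.word m w hw
  have hn := NoVar_Bw (t := true) w (SM.R O m) hw (NoVar_R m)
  refine hQ.ret _ _ (Ret.sc (xv O k) i r h1) ?_
  rcases Nat.lt_or_ge k m with h2 | h2
  · rw [← OM.sc_PX m (Sum.inl k) (by simp; omega) (by simp)]
    exact hQ.px m (OM.sc (xv O k) (Bw true w (SM.R O m))) hn (h k h2)
  · have h3 : k = m := by omega
    subst h3
    rw [OM.sc_PX_X]
    exact hQ.pxX k _ hn hC

/-- a word with exactly one letter at the last strand -/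
theorem step1 (hQ : Pack Q0 Q) (hI : WIso O) (m : ℕ) (u v : List ℕ) (hu : ∀ a ∈ u, a < m)
    (hv : ∀ a ∈ v, a < m)
    (h : ∀ k < m + 1, Q (OM.sc (xv O k) (Bw true (u ++ v) (SM.R O (m + 1)))))
    (h' : ∀ k < m + 1, Q (OM.sc (xv O k) (Bw true (v ++ u) (SM.R O (m + 1)))))
    (k : ℕ) (hk : k < m + 2) :
    Q (OM.sc (xv O k) (Bw true (u ++ m :: v) (SM.R O (m + 2)))) := by
  have hu' : ∀ a ∈ u, a + 1 < m + 1 := fun a ha => by have := hu a ha; omega
  have hv' : ∀ a ∈ v, a + 1 < m + 1 := fun a ha => by have := hv a ha; omega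
  have hvr : ∀ a ∈ v.reverse, a + 1 < m + 1 := fun a ha => hv' a (List.mem_reverse.1 ha)
  obtain ⟨i, r, h1⟩ := hI.word (m + 1) u hu'
  -- the module with the outer word moved to the left
  have hn0 := NoVar_Bw (t := true) u (SM.R O (m + 1)) hu' (NoVar_R (m + 1))
  have hn := NoVar_Bw (t := false) v.reverse (Bw true u (SM.R O (m + 1))) hvr hn0
  have e1 : OM.sc (xv O k) (Bw true (u ++ m :: v) (SM.R O (m + 2))) =
      ((OM.sc (xv O k) (Bw true u (SM.R O (m + 2)))).D2 true m).Bw true v := by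
    rw [Bw_append]
    change OM.sc (X (inj (!true) k)) (Bw true v (SM.D2 true m (Bw true u (SM.R O (m + 2))))) = _
    rw [← OM.sc_Bw true k v, ← OM.sc_D2 true m k]
    rfl
  rw [e1]
  refine hQ.toRotat.word true v _ ?_
  refine hQ.ret _ _ (Ret.D2_Bw true m v.reverse _) ?_
  refine hQ.ret _ _ (((Ret.sc (xv O k) i r h1).Bw false v.reverse).D2 true m) ?_
  rcases Nat.lt_or_ge k (m + 1) with h2 | h2
  · rw [← OM.sc_PX (m + 1) (Sum.inl k) (by simp; omega) (by simp)]
    refine hQ.ret _ _ ((hI.ret false (m + 1) v.reverse hvr _).D2 true m) ?_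
    refine hQ.top m ((OM.sc (xv O k) (Bw true u (SM.R O (m + 1)))).Bw false v.reverse) hn ?_
    refine hQ.toRotat.word false v.reverse _ ?_
    rw [List.reverse_reverse]
    have e2 : (OM.sc (xv O k) (Bw true u (SM.R O (m + 1)))).Bw (!false) v =
        OM.sc (xv O k) (Bw true (u ++ v) (SM.R O (m + 1))) := by
      rw [Bw_append]
      exact OM.sc_Bw true k v _
    rw [e2]
    exact h k h2
  · have h3 : k = m + 1 := by omega
    subst h3
    rw [OM.sc_PX_X]
    have e3 : (OM.sc (yv O (m + 1)) (SM.PX (m + 1) (Bw true u (SM.R O (m + 1))))).Bw false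
        v.reverse = OM.sc (yv O (m + 1)) (Bw false v.reverse
          (SM.PX (m + 1) (Bw true u (SM.R O (m + 1))))) := OM.sc_Bw false (m + 1) v.reverse _
    rw [e3]
    obtain ⟨i', r', h1', _⟩ := hI.bw false (m + 1) v.reverse hvr (Bw true u (SM.R O (m + 1)))
    refine hQ.ret _ _ ((Ret.sc (yv O (m + 1)) i' r' h1').D2 true m) ?_
    refine hQ.topX m _ hn (hQ.x2y m _ ?_)
    let e := bwRot (O := O) (m + 1) u v hv'
    exact hQ.ret _ _ (Ret.sc (xv O m) e.toLinearMap e.symm.toLinearMap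
      (fun z => e.symm_apply_apply z)) (h' m (by omega))

/-- the word induction -/
theorem main (hQ : Pack Q0 Q) (hI : WIso O) (n : ℕ) : ∀ w : List ℕ, (∀ a ∈ w, a + 1 < n) →
    Q0 (Bw true w (SM.R O n)) ∧ ∀ k < n, Q (OM.sc (xv O k) (Bw true w (SM.R O n))) := by
  induction n with
  | zero =>
    intro w hw
    have : w = [] := List.eq_nil_iff_forall_not_mem.2 fun a ha => absurd (hw a ha) (by omega)
    subst this
    exact ⟨hQ.q00, fun k hk => absurd hk (by omega)⟩
  | succ n ih =>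
    intro w hw
    suffices H : ∀ k < n + 1, Q (OM.sc (xv O k) (Bw true w (SM.R O (n + 1)))) from
      ⟨hQ.q0 _ (H 0 (by omega)), H⟩
    rcases Nat.eq_zero_or_pos n with h0 | h0
    · subst h0
      have hw' : ∀ a ∈ w, a + 1 < 0 := fun a ha => absurd (hw a ha) (by omega)
      exact hQ.step0 hI 0 w hw' (ih w hw').1 (ih w hw').2
    · obtain ⟨m, rfl⟩ : ∃ m, n = m + 1 := ⟨n - 1, by omega⟩
      intro k hk
      have key := word0_claim
        (Pr := fun w => Q (OM.sc (xv O k) (Bw true w (SM.R O (m + 1 + 1)))))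
        (fun u v i j hij h => by
          obtain ⟨a, b, hab⟩ := retr_comm' (O := O) true hij u v (SM.R O (m + 1 + 1))
          exact hQ.ret _ _ (Ret.sc _ a b hab) h)
        (fun u v i j hij h => by
          obtain ⟨a, b, hab⟩ := retr_comm (O := O) true hij u v (SM.R O (m + 1 + 1))
          exact hQ.ret _ _ (Ret.sc _ a b hab) h)
        (fun u v i h => by
          obtain ⟨a, b, hab⟩ := retr_digon (O := O) true i u v (SM.R O (m + 1 + 1))
          exact hQ.ret _ _ (Ret.sc _ a b hab) (hQ.prod _ _ _ h h))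
        (fun u v i h h' => by
          obtain ⟨a, b, hab⟩ := retr_R' (O := O) true i u v (SM.R O (m + 1 + 1))
          exact hQ.ret _ _ (Ret.sc _ a b hab) (hQ.prod _ _ _ h h'))
        m (w.count m) w (fun a ha => by have := hw a ha; omega) le_rfl [] []
        (by
          intro b' hb' hn'
          simp only [List.nil_append, List.append_nil]
          by_cases hm : m ∈ b'
          · obtain ⟨c1, c2, rfl, hc1⟩ := List.eq_append_cons_of_mem hm
            have hc2 : m ∉ c2 := by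
              intro h2
              have := List.count_pos_iff.2 h2
              rw [List.count_append, List.count_cons_self] at hn'
              omega
            have b1 : ∀ a ∈ c1, a < m := by
              intro a ha
              have h2 := hb' a (by simp [ha])
              have h3 : a ≠ m := fun e => hc1 (e ▸ ha)
              omega
            have b2 : ∀ a ∈ c2, a < m := by
              intro a ha
              have h2 := hb' a (by simp [ha])
              have h3 : a ≠ m := fun e => hc2 (e ▸ ha)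
              omega
            refine hQ.step1 hI m c1 c2 b1 b2 ?_ ?_ k hk
            · refine (ih (c1 ++ c2) ?_).2
              intro a ha
              rcases List.mem_append.1 ha with ha | ha
              · have := b1 a ha; omega
              · have := b2 a ha; omega
            · refine (ih (c2 ++ c1) ?_).2
              intro a ha
              rcases List.mem_append.1 ha with ha | ha
              · have := b2 a ha; omega
              · have := b1 a ha; omega
          · have hb : ∀ a ∈ b', a + 1 < m + 1 := by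
              intro a ha
              have h2 := hb' a ha
              have h3 : a ≠ m := fun e => hm (e ▸ ha)
              omega
            exact hQ.step0 hI (m + 1) b' hb (ih b' hb).1 (ih b' hb).2 k hk)
      simpa using key

end Pack

end CQ
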