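import Pool.Agent.CQ.WProp
import Pool.Agent.CQ.WInd

/-!
# Block D: the closure properties of the E-property and of finite generation
-/

set_option autoImplicit false
set_option linter.unusedSectionVars false
set_option linter.unusedSimpArgs false

namespace CQ

open MvPolynomial

variable {O : Type} [CommRing O] [CharP O 2]

section
variable {C D : Type} [AddCommGroup C] [Module (S O) C] [AddCommGroup D] [Module (S O) D]

theorem FG.prod {P : Pot O} (h : FG P C) (h' : FG P D) : FG P (C × D) := by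
  obtain ⟨n, G, hG, h⟩ := h.exists_fun
  obtain ⟨n', G', hG', h'⟩ := h'.exists_fun
  refine FG.of_fun (ι := Fin n ⊕ Fin n')
    (Sum.elim (fun j => (G j, 0)) (fun j => (0, G' j))) ?_ fun z hz => ?_
  · rintro (j | j)
    · exact mem_HH_prod.2 ⟨hG j, zero_mem _⟩
    · exact mem_HH_prod.2 ⟨zero_mem _, hG' j⟩
  · have hz' := mem_HH_prod.1 hz
    obtain ⟨o, ho⟩ := h z.1 hz'.1
    obtain ⟨o', ho'⟩ := h' z.2 hz'.2
    refine ⟨Sum.elim o o', mem_NN_prod.2 ?_⟩
    have e : ∑ j, (MvPolynomial.C (Sum.elim o o' j) : S O) •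
        (Sum.elim (fun j => (G j, 0)) (fun j => (0, G' j)) j : C × D) =
        (∑ j, (MvPolynomial.C (o j) : S O) • G j,
          ∑ j, (MvPolynomial.C (o' j) : S O) • G' j) := by
      rw [Fintype.sum_sum_type]
      refine Prod.ext ?_ ?_
      · simp [Prod.fst_sum]
      · simp [Prod.snd_sum]
    rw [e]
    exact ⟨ho, ho'⟩

/-- two operators which agree on Hochschild elements -/
theorem EP.congr {P : Pot O} {f g : C →ₗ[S O] C} (e : ∀ z ∈ HH O C, f z = g z)
    (h : EP P C f) : EP P C g := by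
  refine ⟨fun z hz hn => ?_, fun z hz hn => ?_⟩
  · obtain ⟨u, hu, hu'⟩ := h.1 z hz (by rw [e z hz]; exact hn)
    refine ⟨u, hu, ?_⟩
    rw [e u hu, e (g u) (map_mem_HH g hu)] at hu'
    exact hu'
  · obtain ⟨u, hu, hu'⟩ := h.2 z hz (by
      rw [e z hz, e (g z) (map_mem_HH g hz)]; exact hn)
    refine ⟨u, hu, ?_⟩
    rw [e u hu] at hu'
    exact hu'

end

theorem FG_RS0 (P : Pot O) : FG P (RS O 0) := by
  refine FG.of_fun (ι := Unit) (fun _ => (1 : RS O 0)) (fun _ j => ?_) fun z hz => ?_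
  · change rho O 0 (X (Sum.inl j)) * 1 = rho O 0 (X (Sum.inr j)) * 1
    simp [rho]
  · obtain ⟨o, ho⟩ := MvPolynomial.C_surjective (R := O) (Fin 0) z
    refine ⟨fun _ => o, ?_⟩
    have e : (MvPolynomial.C o : S O) • (1 : RS O 0) = z := by
      rw [RS_smul_def, ← ho]
      simp [rho]
    rw [Fintype.sum_unique, e, add_self_mod (O := O)]
    exact zero_mem _

theorem FG_R0 (P : Pot O) : FG P (SM.R O 0).V := FG_RS0 P

theorem pack_QE [IsDomain O] (P : Pot O) : Pack (fun _ => True) (QE P) where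
  toRotat := rotat_QE P
  prod s A B hA hB := by
    have := EP.prod hA hB
    exact this
  q0 _ _ := trivial
  q00 := trivial
  x2y k C h := EP.congr (fun z hz => hz k) h
  y2x k C h := EP.congr (fun z hz => (hz k).symm) h
  px m p hn h := Mk.EP_PX_map hn h
  pxX m C hn _ := Mk.EP_PX_X hn (Sum.inr m) (Or.inr rfl)
  top m p hn h := Mk.EP_top_map hn h
  topX m C hn h := Mk.EP_top_mid hn h

theorem pack_QF [IsDomain O] (P : Pot O) : Pack (fun C => FG P C.V) (QF P) where
  toRotat := rotat_QF P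
  prod s A B hA hB := FG.prod hA hB
  q0 _ h := h
  q00 := FG_R0 P
  x2y k C h := h
  y2x k C h := h
  px m p hn h := Mk.FG_PX hn h
  pxX m C hn h := Mk.FG_PX hn h
  top m p hn h := Mk.FG_top hn h
  topX m C hn h := Mk.FG_top hn h

end CQ
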