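import Pool.Agent.CQ.WRet
import Pool.Agent.CQ.EPFG

/-!
# Block D: the E-property and finite generation pass to retracts, products and rotations
-/

set_option autoImplicit false
set_option linter.unusedSectionVars false
set_option linter.unusedSimpArgs false

namespace CQ

open MvPolynomial

variable {O : Type} [CommRing O] [CharP O 2]

section
variable {C D : Type} [AddCommGroup C] [Module (S O) C] [AddCommGroup D] [Module (S O) D]

theorem EP.ret {P : Pot O} {f : C →ₗ[S O] C} {g : D →ₗ[S O] D} (i : C →ₗ[S O] D)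
    (r : D →ₗ[S O] C) (h1 : ∀ z, r (i z) = z) (h2 : ∀ z, g (i z) = i (f z))
    (h3 : ∀ z, r (g z) = f (r z)) (h : EP P D g) : EP P C f := by
  refine ⟨fun z hz hn => ?_, fun z hz hn => ?_⟩
  · obtain ⟨u, hu, hu'⟩ := h.1 (i z) (map_mem_HH i hz) (by rw [h2]; exact map_mem_NN i hn)
    refine ⟨r u, map_mem_HH r hu, ?_⟩
    have := map_mem_NN r hu'
    simpa only [_root_.map_add, LinearMap.map_smul, h3, h1] using this
  · obtain ⟨u, hu, hu'⟩ := h.2 (i z) (map_mem_HH i hz) (by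
      have := map_mem_NN i hn
      simpa only [_root_.map_add, LinearMap.map_smul, h2] using this)
    refine ⟨r u, map_mem_HH r hu, ?_⟩
    have := map_mem_NN r hu'
    simpa only [_root_.map_add, h3, h1] using this

theorem EP.prod {P : Pot O} {f : C →ₗ[S O] C} {g : D →ₗ[S O] D} (hf : EP P C f)
    (hg : EP P D g) : EP P (C × D) (LinearMap.prodMap f g) := by
  refine ⟨fun z hz hn => ?_, fun z hz hn => ?_⟩
  · have hz' := mem_HH_prod.1 hz
    have hn' := mem_NN_prod.1 hn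
    obtain ⟨u, hu, hu'⟩ := hf.1 z.1 hz'.1 hn'.1
    obtain ⟨v, hv, hv'⟩ := hg.1 z.2 hz'.2 hn'.2
    exact ⟨(u, v), mem_HH_prod.2 ⟨hu, hv⟩, mem_NN_prod.2 ⟨hu', hv'⟩⟩
  · have hz' := mem_HH_prod.1 hz
    have hn' := mem_NN_prod.1 hn
    obtain ⟨u, hu, hu'⟩ := hf.2 z.1 hz'.1 hn'.1
    obtain ⟨v, hv, hv'⟩ := hg.2 z.2 hz'.2 hn'.2
    exact ⟨(u, v), mem_HH_prod.2 ⟨hu, hv⟩, mem_NN_prod.2 ⟨hu', hv'⟩⟩

theorem FG.ret {P : Pot O} (i : C →ₗ[S O] D) (r : D →ₗ[S O] C) (h1 : ∀ z, r (i z) = z)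
    (h : FG P D) : FG P C := by
  classical
  obtain ⟨G, hG, h⟩ := h
  refine FG.of_fun (fun g : G => r g) (fun g => map_mem_HH r (hG _ g.2)) fun z hz => ?_
  obtain ⟨o, ho⟩ := h (i z) (map_mem_HH i hz)
  refine ⟨fun g => o g, ?_⟩
  have h2 := map_mem_NN r ho
  rw [_root_.map_add, h1, _root_.map_sum] at h2
  rw [Finset.sum_coe_sort G (fun g => (MvPolynomial.C (o g) : S O) • r g)]
  simpa only [LinearMap.map_smul] using h2

end

/-! ## Rotation -/

section rot
variable {t : Bool} {i : ℕ} {C : Type} [AddCommGroup C] [Module (S O) C]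

/-- the Hochschild element with second component `b` -/
noncomputable def hsE (t : Bool) (i : ℕ) (b : C) : D2 t i C :=
  ⟨(X (inj (!t) (i + 1)) : S O) • b, b⟩

theorem hsE_mem {b : C} : hsE (O := O) t i b ∈ HH O (D2 t i C) ↔ b ∈ HS (O := O) i C := by
  rw [mem_HH_D2]
  exact ⟨fun h => h.1, fun h => ⟨h, rfl⟩⟩

theorem eq_hsE {z : D2 t i C} (hz : z ∈ HH O (D2 t i C)) : z = hsE (O := O) t i z.b := by
  ext
  · exact (mem_HH_D2.1 hz).2
  · rfl

theorem hsE_add (b b' : C) :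
    hsE (O := O) t i (b + b') = hsE (O := O) t i b + hsE (O := O) t i b' := by
  ext
  · exact smul_add _ _ _
  · rfl

theorem hsE_C (o : O) (b : C) :
    hsE (O := O) t i ((MvPolynomial.C o : S O) • b) =
      (MvPolynomial.C o : S O) • hsE (O := O) t i b := by
  ext
  · rw [D2.C_smul_a]; exact smul_comm _ _ _
  · rw [D2.C_smul_b]; rfl

theorem hsE_map (f : C →ₗ[S O] C) (b : C) :
    D2.map (t := t) (i := i) f (hsE (O := O) t i b) = hsE (O := O) t i (f b) := by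
  ext
  · exact LinearMap.map_smul f _ _
  · rfl

theorem hsE_sum {ι : Type} (s : Finset ι) (g : ι → C) :
    hsE (O := O) t i (∑ j ∈ s, g j) = ∑ j ∈ s, hsE (O := O) t i (g j) := by
  classical
  induction s using Finset.induction_on with
  | empty =>
    ext
    · exact smul_zero _
    · rfl
  | insert a s ha ih => rw [Finset.sum_insert ha, Finset.sum_insert ha, hsE_add, ih]

theorem hsE_neg [IsDomain O] (P : Pot O) (b : C) :
    hsE (O := O) t i b ∈ NN P (D2 t i C) ↔ hsE (O := O) (!t) i b ∈ NN P (D2 (!t) i C) := by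
  cases t
  · exact (neg_rot P b).symm
  · exact neg_rot P b

theorem EP.rot [IsDomain O] {P : Pot O} {f : C →ₗ[S O] C}
    (h : EP P (D2 t i C) (D2.map (t := t) (i := i) f)) :
    EP P (D2 (!t) i C) (D2.map (t := !t) (i := i) f) := by
  refine ⟨fun z hz hn => ?_, fun z hz hn => ?_⟩
  · have hb : z.b ∈ HS (O := O) i C := (mem_HH_D2.1 hz).1
    rw [eq_hsE hz, hsE_map, ← hsE_neg P] at hn
    obtain ⟨u, hu, hu'⟩ := h.1 (hsE (O := O) t i z.b) (hsE_mem.2 hb) (by rw [hsE_map]; exact hn)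
    rw [eq_hsE hu, hsE_map, hsE_map, ← hsE_C, ← hsE_C, ← hsE_add, ← hsE_add, ← hsE_add,
      hsE_neg P] at hu'
    refine ⟨hsE (O := O) (!t) i u.b, hsE_mem.2 (mem_HH_D2.1 hu).1, ?_⟩
    rw [eq_hsE hz, hsE_map, hsE_map, ← hsE_C, ← hsE_C, ← hsE_add, ← hsE_add, ← hsE_add]
    exact hu'
  · have hb : z.b ∈ HS (O := O) i C := (mem_HH_D2.1 hz).1
    rw [eq_hsE hz, hsE_map, hsE_map, ← hsE_C, ← hsE_C, ← hsE_add, ← hsE_add,
      ← hsE_neg P] at hn
    obtain ⟨u, hu, hu'⟩ := h.2 (hsE (O := O) t i z.b) (hsE_mem.2 hb) (by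
      rw [hsE_map, hsE_map, ← hsE_C, ← hsE_C, ← hsE_add, ← hsE_add]; exact hn)
    rw [eq_hsE hu, hsE_map, ← hsE_add, hsE_neg P] at hu'
    refine ⟨hsE (O := O) (!t) i u.b, hsE_mem.2 (mem_HH_D2.1 hu).1, ?_⟩
    rw [eq_hsE hz, hsE_map, ← hsE_add]
    exact hu'

theorem FG.rot [IsDomain O] {P : Pot O} (h : FG P (D2 t i C)) : FG P (D2 (!t) i C) := by
  obtain ⟨n, G, hG, h⟩ := h.exists_fun
  refine FG.of_fun (fun j => hsE (O := O) (!t) i (G j).b)
    (fun j => hsE_mem.2 (mem_HH_D2.1 (hG j)).1) fun z hz => ?_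
  have hb : z.b ∈ HS (O := O) i C := (mem_HH_D2.1 hz).1
  obtain ⟨o, ho⟩ := h (hsE (O := O) t i z.b) (hsE_mem.2 hb)
  refine ⟨o, ?_⟩
  have e : ∀ t' : Bool, ∑ j, (MvPolynomial.C (o j) : S O) • hsE (O := O) t' i (G j).b =
      hsE (O := O) t' i (∑ j, (MvPolynomial.C (o j) : S O) • (G j).b) := by
    intro t'
    rw [hsE_sum]
    exact Finset.sum_congr rfl fun j _ => (hsE_C _ _).symm
  have e' : ∑ j, (MvPolynomial.C (o j) : S O) • G j =
      hsE (O := O) t i (∑ j, (MvPolynomial.C (o j) : S O) • (G j).b) := by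
    rw [← e]
    exact Finset.sum_congr rfl fun j _ => by rw [← eq_hsE (hG j)]
  rw [e', ← hsE_add, hsE_neg P] at ho
  rw [eq_hsE hz, e, ← hsE_add]
  exact ho

end rot

/-! ## As properties of pairs -/

/-- the E-property of a pair -/
def QE (P : Pot O) (p : OM O) : Prop := EP P p.C.V p.f

/-- finite generation for a pair -/
def QF (P : Pot O) (p : OM O) : Prop := FG P p.C.V

theorem rotat_QE [IsDomain O] (P : Pot O) : Rotat (QE P) where
  ret p q := fun ⟨i, r, h1, h2, h3⟩ h => EP.ret i r h1 h2 h3 h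
  rot t i p h := EP.rot h

theorem rotat_QF [IsDomain O] (P : Pot O) : Rotat (QF P) where
  ret p q := fun ⟨i, r, h1, _, _⟩ h => FG.ret i r h1 h
  rot t i p h := FG.rot h

end CQ
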