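import Pool.Agent.CQ.Basic
import Pool.Agent.CQ.Ctx

/-!
# Block D: pairs (module, operator) and their retracts
-/

set_option autoImplicit false
set_option linter.unusedSectionVars false
set_option linter.unusedSimpArgs false

namespace CQ

open MvPolynomial

variable {O : Type} [CommRing O] [CharP O 2]

/-- a module with a marked operator -/
structure OM (O : Type) [CommRing O] where
  C : SM O
  f : C.V →ₗ[S O] C.V

/-- a letter on a pair -/
noncomputable def OM.D2 (t : Bool) (i : ℕ) (p : OM O) : OM O :=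
  ⟨SM.D2 t i p.C, CQ.D2.map (t := t) (i := i) p.f⟩

/-- a word on a pair -/
noncomputable def OM.Bw (t : Bool) (w : List ℕ) (p : OM O) : OM O :=
  ⟨CQ.Bw t w p.C, CQ.Bw.map t w p.f⟩

@[simp] theorem OM.Bw_nil (t : Bool) (p : OM O) : OM.Bw t [] p = p := rfl
@[simp] theorem OM.Bw_cons (t : Bool) (i : ℕ) (w : List ℕ) (p : OM O) :
    OM.Bw t (i :: w) p = OM.Bw t w (p.D2 t i) := rfl

theorem OM.Bw_append (t : Bool) (u v : List ℕ) (p : OM O) :
    OM.Bw t (u ++ v) p = OM.Bw t v (OM.Bw t u p) := by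
  induction u generalizing p with
  | nil => rfl
  | cons i u ih => exact ih (p.D2 t i)

/-- the scalar operator `s •` -/
noncomputable def OM.sc (s : S O) (C : SM O) : OM O := ⟨C, s • LinearMap.id⟩

/-- `p` is a retract of `q` -/
def Ret (p q : OM O) : Prop :=
  ∃ (i : p.C.V →ₗ[S O] q.C.V) (r : q.C.V →ₗ[S O] p.C.V),
    (∀ z, r (i z) = z) ∧ (∀ z, q.f (i z) = i (p.f z)) ∧ ∀ z, r (q.f z) = p.f (r z)

theorem Ret.refl (p : OM O) : Ret p p :=
  ⟨LinearMap.id, LinearMap.id, fun _ => rfl, fun _ => rfl, fun _ => rfl⟩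

theorem Ret.trans {p q s : OM O} (h : Ret p q) (h' : Ret q s) : Ret p s := by
  obtain ⟨i, r, h1, h2, h3⟩ := h
  obtain ⟨i', r', h1', h2', h3'⟩ := h'
  refine ⟨i' ∘ₗ i, r ∘ₗ r', fun z => ?_, fun z => ?_, fun z => ?_⟩
  · simp only [LinearMap.comp_apply, h1', h1]
  · simp only [LinearMap.comp_apply, h2', h2]
  · simp only [LinearMap.comp_apply, h3', h3]

theorem Ret.D2 (t : Bool) (i : ℕ) {p q : OM O} (h : Ret p q) : Ret (p.D2 t i) (q.D2 t i) := by
  obtain ⟨a, r, h1, h2, h3⟩ := h
  refine ⟨CQ.D2.map (t := t) (i := i) a, CQ.D2.map (t := t) (i := i) r, fun z => ?_, fun z => ?_,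
    fun z => ?_⟩
  · exact D2.ext (h1 _) (h1 _)
  · exact D2.ext (h2 _) (h2 _)
  · exact D2.ext (h3 _) (h3 _)

theorem Ret.Bw (t : Bool) (w : List ℕ) {p q : OM O} (h : Ret p q) :
    Ret (p.Bw t w) (q.Bw t w) := by
  induction w generalizing p q with
  | nil => exact h
  | cons i w ih => exact ih (h.D2 t i)

/-- a retract of modules is a retract for every scalar operator -/
theorem Ret.sc (s : S O) {C D : SM O} (i : C.V →ₗ[S O] D.V) (r : D.V →ₗ[S O] C.V)
    (h : ∀ z, r (i z) = z) : Ret (OM.sc s C) (OM.sc s D) := by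
  refine ⟨i, r, h, fun z => ?_, fun z => ?_⟩
  · exact (LinearMap.map_smul i s z).symm
  · exact LinearMap.map_smul r s z

/-- interchange of two letters which do not touch the same variables -/
theorem Ret.swap {t : Bool} {i : ℕ} {t' : Bool} {j : ℕ} (h : FarI t i t' j) (p : OM O) :
    Ret ((p.D2 t' j).D2 t i) ((p.D2 t i).D2 t' j) :=
  ⟨swapD h, swapD h.symm, fun z => swapD_swapD h z, fun _ => rfl, fun _ => rfl⟩

/-- a letter of one side commutes with a word of the other side -/
theorem Ret.D2_Bw (t : Bool) (i : ℕ) (w : List ℕ) (p : OM O) :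
    Ret ((p.D2 t i).Bw (!t) w) ((p.Bw (!t) w).D2 t i) := by
  induction w generalizing p with
  | nil => exact Ret.refl _
  | cons j w ih => exact ((Ret.swap (farN' t i j) p).Bw (!t) w).trans (ih (p.D2 (!t) j))

theorem Ret.Bw_D2 (t : Bool) (i : ℕ) (w : List ℕ) (p : OM O) :
    Ret ((p.Bw (!t) w).D2 t i) ((p.D2 t i).Bw (!t) w) := by
  induction w generalizing p with
  | nil => exact Ret.refl _
  | cons j w ih => exact (ih (p.D2 (!t) j)).trans ((Ret.swap (farN t i j) p).Bw (!t) w)

/-- words of different sides commute -/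
theorem Ret.Bw_Bw (t : Bool) (v w : List ℕ) (p : OM O) :
    Ret ((p.Bw t v).Bw (!t) w) ((p.Bw (!t) w).Bw t v) := by
  induction v generalizing p with
  | nil => exact Ret.refl _
  | cons i v ih => exact (ih (p.D2 t i)).trans ((Ret.D2_Bw t i w p).Bw t v)

/-- operators of the other side pass through letters -/
theorem OM.sc_D2 (t : Bool) (i j : ℕ) (C : SM O) :
    (OM.sc (X (inj (!t) j) : S O) C).D2 t i = OM.sc (X (inj (!t) j)) (SM.D2 t i C) := by
  have h : CQ.D2.map (t := t) (i := i) ((X (inj (!t) j) : S O) • (LinearMap.id : C.V →ₗ[S O] C.V))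
      = (X (inj (!t) j) : S O) • LinearMap.id := by
    ext z
    · change (X (inj (!t) j) : S O) • z.a = ((X (inj (!t) j) : S O) • z).a
      rw [D2.X_smul_a_of_ne]
      · cases t <;> simp
      · cases t <;> simp
    · change (X (inj (!t) j) : S O) • z.b = ((X (inj (!t) j) : S O) • z).b
      rw [D2.X_smul_b_of_ne]
      · cases t <;> simp
      · cases t <;> simp
  exact congrArg (fun f => (⟨SM.D2 t i C, f⟩ : OM O)) h

theorem OM.sc_Bw (t : Bool) (j : ℕ) (w : List ℕ) (C : SM O) :
    (OM.sc (X (inj (!t) j) : S O) C).Bw t w = OM.sc (X (inj (!t) j)) (CQ.Bw t w C) := by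
  induction w generalizing C with
  | nil => rfl
  | cons i w ih => rw [OM.Bw_cons, OM.sc_D2]; exact ih (SM.D2 t i C)

/-- a property of pairs which passes to retracts and is invariant under rotation of a letter -/
structure Rotat (Q : OM O → Prop) : Prop where
  ret : ∀ p q : OM O, Ret p q → Q q → Q p
  rot : ∀ (t : Bool) (i : ℕ) (p : OM O), Q (p.D2 t i) → Q (p.D2 (!t) i)

/-- all letters of an outer word may be moved to the other side -/
theorem Rotat.word {Q : OM O → Prop} (hQ : Rotat Q) (t : Bool) (v : List ℕ) (p : OM O)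
    (h : Q (p.Bw (!t) v.reverse)) : Q (p.Bw t v) := by
  induction v using List.reverseRecOn generalizing p with
  | nil => exact h
  | append_singleton v i ih =>
    rw [OM.Bw_append]
    change Q ((p.Bw t v).D2 t i)
    have h1 : Q ((p.D2 (!t) i).Bw t v) := by
      refine ih _ ?_
      rw [List.reverse_append] at h
      exact h
    have h2 := Ret.Bw_D2 (!t) i v p
    rw [Bool.not_not] at h2
    have h3 := hQ.rot (!t) i (p.Bw t v) (hQ.ret _ _ h2 h1)
    rwa [Bool.not_not] at h3

end CQ
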